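import Pool.Agent.Helper3.TD.Avg

/-! Typical digits. -/

namespace Pool.Agent.Helper3.TD

open Pool.Agent.Helper3.ND

theorem two_T (x : ℤ) : 2 * T x = 3 ^ (x % 2).toNat * x + ((x % 2).toNat : ℤ) := by
  rcases par_cases x with h | h
  · rw [T_even h, h]; simp
  · rw [T_odd h, h]; simp

theorem cc_succ_last (j : ℕ) (n : ℤ) : cc (j + 1) n = 3 ^ (T^[j] n % 2).toNat * cc j n + 2 ^ j * ((T^[j] n % 2).toNat : ℤ) := by
  have h1 := affine (j + 1) n
  have h2 := affine j n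
  have h3 := two_T (T^[j] n)
  rw [Function.iterate_succ_apply', od_succ_last, pow_succ, pow_add] at h1
  have h4 : 2 ^ j * 2 * T (T^[j] n) = 2 ^ j * (3 ^ (T^[j] n % 2).toNat * T^[j] n + ((T^[j] n % 2).toNat : ℤ)) := by
    rw [← h3]; ring
  rw [h4] at h1
  have h5 : 2 ^ j * (3 ^ (T^[j] n % 2).toNat * T^[j] n) = 3 ^ (T^[j] n % 2).toNat * (3 ^ od j n * n + cc j n) := by
    rw [← h2]; ring
  linarith

/-- peeling the last step in sums over residues -/
theorem sum_last {M : Type*} [AddCommMonoid M] (j : ℕ) (g : ℕ → ℤ → M) :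
    ∑ r ∈ Finset.range (2 ^ (j + 1)), g (od (j + 1) (r : ℤ)) (cc (j + 1) (r : ℤ)) =
      ∑ r ∈ Finset.range (2 ^ j), (g (od j (r : ℤ)) (cc j (r : ℤ)) + g (od j (r : ℤ) + 1) (3 * cc j (r : ℤ) + 2 ^ j)) := by
  have e : 2 ^ (j + 1) = 2 ^ j + 2 ^ j := by ring
  rw [e, Finset.sum_range_add, ← Finset.sum_add_distrib]
  apply Finset.sum_congr rfl
  intro r _
  have h1 := shift j (r : ℤ) 1
  have h1' := cc_shift j (r : ℤ) 1
  have e2 : (((2 ^ j + r : ℕ)) : ℤ) = (r : ℤ) + 2 ^ j * 1 := by push_cast; ring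
  rw [e2, od_succ_last, od_succ_last, cc_succ_last, cc_succ_last, h1.1, h1.2, h1']
  have h3 : (3 : ℤ) ^ od j (r : ℤ) % 2 = 1 := by
    have : Odd ((3 : ℤ) ^ od j (r : ℤ)) := Odd.pow (by decide)
    exact Int.odd_iff.mp this
  rcases par_cases (T^[j] (r : ℤ)) with h | h
  · have h4 : (T^[j] (r : ℤ) + 3 ^ od j (r : ℤ) * 1) % 2 = 1 := by omega
    rw [h, h4]
    simp
  · have h4 : (T^[j] (r : ℤ) + 3 ^ od j (r : ℤ) * 1) % 2 = 0 := by omega
    rw [h, h4]
    simp [add_comm]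

theorem sum_sqrt (u : ℕ) : ∑ y ∈ Finset.range (2 ^ u), Real.sqrt ((cc u (y : ℤ) : ℝ) / 2 ^ u) ≤ 11 * 2 ^ u := by
  induction u with
  | zero => simp [cc]
  | succ u ih =>
    rw [sum_last u (fun _ c => Real.sqrt ((c : ℝ) / 2 ^ (u + 1)))]
    have hs1 : Real.sqrt (1 / 2) ≤ 0.70711 := by
      rw [Real.sqrt_le_left (by norm_num)]; norm_num
    have hs2 : Real.sqrt (3 / 2) ≤ 1.22475 := by
      rw [Real.sqrt_le_left (by norm_num)]; norm_num
    have h1 : ∀ y ∈ Finset.range (2 ^ u), Real.sqrt ((cc u (y : ℤ) : ℝ) / 2 ^ (u + 1)) +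
        Real.sqrt (((3 * cc u (y : ℤ) + 2 ^ u : ℤ) : ℝ) / 2 ^ (u + 1)) ≤
        1.93186 * Real.sqrt ((cc u (y : ℤ) : ℝ) / 2 ^ u) + 0.70711 := by
      intro y _
      obtain ⟨F, hF⟩ : ∃ F : ℝ, F = (cc u (y : ℤ) : ℝ) / 2 ^ u := ⟨_, rfl⟩
      have hF0 : 0 ≤ F := by
        rw [hF]
        have : (0 : ℝ) ≤ (cc u (y : ℤ) : ℝ) := by exact_mod_cast cc_nonneg u y
        positivity
      have e1 : (cc u (y : ℤ) : ℝ) / 2 ^ (u + 1) = 1 / 2 * F := by rw [hF, pow_succ]; field_simp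
      have e2 : ((3 * cc u (y : ℤ) + 2 ^ u : ℤ) : ℝ) / 2 ^ (u + 1) = 3 / 2 * F + 1 / 2 := by
        rw [hF, pow_succ]; push_cast; field_simp
      rw [e1, e2, ← hF]
      have e3 : Real.sqrt (3 / 2 * F + 1 / 2) ≤ Real.sqrt (3 / 2) * Real.sqrt F + Real.sqrt (1 / 2) := by
        rw [Real.sqrt_le_left (by positivity)]
        have a1 : 0 ≤ Real.sqrt (3 / 2) * Real.sqrt F * Real.sqrt (1 / 2) := by positivity
        calc 3 / 2 * F + 1 / 2 = (Real.sqrt (3 / 2) * Real.sqrt F) ^ 2 + Real.sqrt (1 / 2) ^ 2 := by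
              rw [mul_pow, Real.sq_sqrt hF0, Real.sq_sqrt (by norm_num), Real.sq_sqrt (by norm_num)]
          _ ≤ _ := by nlinarith
      rw [Real.sqrt_mul (by norm_num)]
      have hsF := Real.sqrt_nonneg F
      nlinarith
    refine le_trans (Finset.sum_le_sum h1) ?_
    rw [Finset.sum_add_distrib, ← Finset.mul_sum, Finset.sum_const, Finset.card_range, nsmul_eq_mul, pow_succ]
    push_cast
    have : (0 : ℝ) < 2 ^ u := by positivity
    nlinarith

open Classical in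
theorem card_cc (u : ℕ) (K : ℝ) (hK : 0 < K) :
    (((Finset.range (2 ^ u)).filter (fun y : ℕ => K * 2 ^ u ≤ (cc u (y : ℤ) : ℝ))).card : ℝ) ≤ 11 * 2 ^ u / Real.sqrt K := by
  have hsK := Real.sqrt_pos.mpr hK
  rw [le_div_iff₀ hsK]
  refine le_trans ?_ (sum_sqrt u)
  calc (((Finset.range (2 ^ u)).filter (fun y : ℕ => K * 2 ^ u ≤ (cc u (y : ℤ) : ℝ))).card : ℝ) * Real.sqrt K
      = ∑ y ∈ (Finset.range (2 ^ u)).filter (fun y : ℕ => K * 2 ^ u ≤ (cc u (y : ℤ) : ℝ)), Real.sqrt K := by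
        rw [Finset.sum_const, nsmul_eq_mul]
    _ ≤ ∑ y ∈ (Finset.range (2 ^ u)).filter (fun y : ℕ => K * 2 ^ u ≤ (cc u (y : ℤ) : ℝ)), Real.sqrt ((cc u (y : ℤ) : ℝ) / 2 ^ u) := by
        apply Finset.sum_le_sum
        intro y hy
        rw [Finset.mem_filter] at hy
        apply Real.sqrt_le_sqrt
        rw [le_div_iff₀ (by positivity)]
        exact hy.2
    _ ≤ _ := by
        apply Finset.sum_le_sum_of_subset_of_nonneg (Finset.filter_subset _ _)
        intro y _ _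
        exact Real.sqrt_nonneg _

theorem sum_exp (l : ℝ) (u : ℕ) : ∑ y ∈ Finset.range (2 ^ u), Real.exp (l * ((od u (y : ℤ) : ℝ) - u / 2)) ≤
    2 ^ u * Real.exp (l ^ 2 * u / 8) := by
  have h1 : ∑ y ∈ Finset.range (2 ^ u), Real.exp (l * ((od u (y : ℤ) : ℝ) - u / 2)) =
      Real.exp (-(l * (u / 2))) * (1 + Real.exp l) ^ u := by
    rw [← gen (Real.exp l) u, Finset.mul_sum]
    apply Finset.sum_congr rfl
    intro y _
    rw [← Real.exp_nat_mul, ← Real.exp_add]
    congr 1; ring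
  have h2 : 1 + Real.exp l = 2 * (Real.exp (l / 2) * Real.cosh (l / 2)) := by
    rw [Real.cosh_eq]
    have e1 : Real.exp (l / 2) * Real.exp (l / 2) = Real.exp l := by rw [← Real.exp_add]; congr 1; ring
    have e2 : Real.exp (l / 2) * Real.exp (-(l / 2)) = 1 := by rw [← Real.exp_add, add_neg_cancel, Real.exp_zero]
    linear_combination -e1 - e2
  have h3 : Real.cosh (l / 2) ^ u ≤ Real.exp (l ^ 2 * u / 8) := by
    have := pow_le_pow_left₀ (Real.cosh_pos (l / 2)).le (Real.cosh_le_exp_half_sq (l / 2)) u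
    refine le_trans this (le_of_eq ?_)
    rw [← Real.exp_nat_mul]
    congr 1; ring
  rw [h1, h2, mul_pow, mul_pow, ← Real.exp_nat_mul]
  calc Real.exp (-(l * (u / 2))) * (2 ^ u * (Real.exp (u * (l / 2)) * Real.cosh (l / 2) ^ u))
      = (Real.exp (-(l * (u / 2))) * Real.exp (u * (l / 2))) * (2 ^ u * Real.cosh (l / 2) ^ u) := by ring
    _ = 2 ^ u * Real.cosh (l / 2) ^ u := by
        rw [← Real.exp_add, show -(l * (u / 2)) + u * (l / 2) = 0 by ring, Real.exp_zero, one_mul]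
    _ ≤ _ := by gcongr

open Classical in
theorem card_od (u : ℕ) (hu : 1 ≤ u) (x : ℝ) (hx : 0 ≤ x) :
    (((Finset.range (2 ^ u)).filter (fun y : ℕ => x ≤ |(od u (y : ℤ) : ℝ) - u / 2|)).card : ℝ) ≤
      2 ^ u * (2 * Real.exp (-(2 * x ^ 2 / u))) := by
  have hu' : (0 : ℝ) < u := by exact_mod_cast hu
  obtain ⟨l, hl⟩ : ∃ l : ℝ, l = 4 * x / u := ⟨_, rfl⟩
  have hl0 : 0 ≤ l := by rw [hl]; positivity
  have h1 := sum_exp l u
  have h2 := sum_exp (-l) u
  have h3 : (((Finset.range (2 ^ u)).filter (fun y : ℕ => x ≤ |(od u (y : ℤ) : ℝ) - u / 2|)).card : ℝ) * Real.exp (l * x) ≤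
      ∑ y ∈ Finset.range (2 ^ u), Real.exp (l * ((od u (y : ℤ) : ℝ) - u / 2)) +
      ∑ y ∈ Finset.range (2 ^ u), Real.exp (-l * ((od u (y : ℤ) : ℝ) - u / 2)) := by
    rw [← Finset.sum_add_distrib]
    calc (((Finset.range (2 ^ u)).filter (fun y : ℕ => x ≤ |(od u (y : ℤ) : ℝ) - u / 2|)).card : ℝ) * Real.exp (l * x)
        = ∑ y ∈ (Finset.range (2 ^ u)).filter (fun y : ℕ => x ≤ |(od u (y : ℤ) : ℝ) - u / 2|), Real.exp (l * x) := by
          rw [Finset.sum_const, nsmul_eq_mul]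
      _ ≤ ∑ y ∈ (Finset.range (2 ^ u)).filter (fun y : ℕ => x ≤ |(od u (y : ℤ) : ℝ) - u / 2|),
          (Real.exp (l * ((od u (y : ℤ) : ℝ) - u / 2)) + Real.exp (-l * ((od u (y : ℤ) : ℝ) - u / 2))) := by
          apply Finset.sum_le_sum
          intro y hy
          rw [Finset.mem_filter] at hy
          have hy2 := hy.2
          rcases le_total 0 ((od u (y : ℤ) : ℝ) - u / 2) with h | h
          · rw [abs_of_nonneg h] at hy2
            have : Real.exp (l * x) ≤ Real.exp (l * ((od u (y : ℤ) : ℝ) - u / 2)) :=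
              Real.exp_le_exp.mpr (mul_le_mul_of_nonneg_left hy2 hl0)
            linarith [Real.exp_pos (-l * ((od u (y : ℤ) : ℝ) - u / 2))]
          · rw [abs_of_nonpos h] at hy2
            have : Real.exp (l * x) ≤ Real.exp (-l * ((od u (y : ℤ) : ℝ) - u / 2)) := by
              apply Real.exp_le_exp.mpr
              have := mul_le_mul_of_nonneg_left hy2 hl0
              linarith
            linarith [Real.exp_pos (l * ((od u (y : ℤ) : ℝ) - u / 2))]
      _ ≤ _ := by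
          apply Finset.sum_le_sum_of_subset_of_nonneg (Finset.filter_subset _ _)
          intro y _ _
          positivity
  have h4 : (-l) ^ 2 = l ^ 2 := by ring
  rw [h4] at h2
  have h5 : Real.exp (l ^ 2 * u / 8) = Real.exp (-(2 * x ^ 2 / u)) * Real.exp (l * x) := by
    rw [← Real.exp_add]
    congr 1
    rw [hl]
    field_simp
    ring
  have h6 : (((Finset.range (2 ^ u)).filter (fun y : ℕ => x ≤ |(od u (y : ℤ) : ℝ) - u / 2|)).card : ℝ) * Real.exp (l * x) ≤
      (2 ^ u * (2 * Real.exp (-(2 * x ^ 2 / u)))) * Real.exp (l * x) := by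
    calc _ ≤ _ := h3
      _ ≤ 2 ^ u * Real.exp (l ^ 2 * u / 8) + 2 ^ u * Real.exp (l ^ 2 * u / 8) := add_le_add h1 h2
      _ = _ := by rw [h5]; ring
  exact le_of_mul_le_mul_right h6 (Real.exp_pos _)

open Classical in
theorem mass_sum (s u : ℕ) (B : ℕ → Prop) (S : Finset ℕ) :
    ∑ k ∈ S, mass (s + u) k (fun r => B (yy s u r)) ≤ ((Finset.range (2 ^ u)).filter (fun y => B y)).card / 2 ^ u := by
  have h1 : ∑ k ∈ S, mass (s + u) k (fun r => B (yy s u r)) ≤
      (((Finset.range (2 ^ (s + u))).filter (fun r : ℕ => B (yy s u r))).card : ℝ) / 2 ^ (s + u) := by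
    unfold mass
    rw [← Finset.sum_div]
    gcongr
    have : ∑ k ∈ S, ((Finset.range (2 ^ (s + u))).filter (fun r : ℕ => od (s + u) (r : ℤ) = k ∧ B (yy s u r))).card ≤
        ((Finset.range (2 ^ (s + u))).filter (fun r : ℕ => B (yy s u r))).card := by
      rw [← Finset.card_biUnion]
      · apply Finset.card_le_card
        intro r hr
        rw [Finset.mem_biUnion] at hr
        obtain ⟨k, _, hk⟩ := hr
        rw [Finset.mem_filter] at hk ⊢
        exact ⟨hk.1, hk.2.2⟩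
      · intro k _ k' _ hne
        rw [Function.onFun, Finset.disjoint_left]
        intro r hr hr'
        rw [Finset.mem_filter] at hr hr'
        exact hne (hr.2.1.symm.trans hr'.2.1)
    exact_mod_cast this
  refine le_trans h1 (le_of_eq ?_)
  have h2 := sum_split s u (fun _ y => if B y then (1 : ℝ) else 0)
  rw [← Finset.sum_filter, Finset.sum_const, nsmul_eq_mul, mul_one] at h2
  rw [h2, Finset.sum_const, Finset.card_range, ← Finset.sum_filter, Finset.sum_const, nsmul_eq_mul,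
    nsmul_eq_mul, mul_one, pow_add]
  push_cast
  field_simp

end Pool.Agent.Helper3.TD
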