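import Pool.Agent.Helper3.TD.Beta
import Pool.Agent.Helper3.TD.Typ

/-! The mixing theorem: densities modulo `3 ^ k` are close to densities modulo `3 ^ m` on average. -/

namespace Pool.Agent.Helper3.TD

open Pool.Agent.Helper3.ND

open Classical in
theorem bad_card (n : ℕ) (hn : 10 ^ 3 ≤ n) :
    (((Finset.range (2 ^ uu n)).filter (fun y : ℕ => ¬ GG n y)).card : ℝ) / 2 ^ uu n ≤
      (11 + 2 * (Nat.factorial 20 : ℝ)) / (n : ℝ) ^ 2 := by
  have hnr : (10 ^ 3 : ℝ) ≤ n := by exact_mod_cast hn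
  have hn0 : (0 : ℝ) < n := by linarith
  have hub := uu_bound n (by omega)
  have hubr : (5 : ℝ) * uu n ≤ 8 * n := by exact_mod_cast hub
  have hu1 : 1 ≤ uu n := by
    by_contra hc
    have h0 : uu n = 0 := by omega
    have h1 := uu_gt n (by omega)
    rw [h0] at h1
    have h2 : 2 * n ^ 4 ≤ 3 ^ n := by
      obtain ⟨d, rfl⟩ := Nat.exists_eq_add_of_le (show 16 ≤ n by omega)
      clear hc h0 h1 hub hubr hnr hn0 hn
      induction d with
      | zero => norm_num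
      | succ d ih =>
        calc 2 * (16 + (d + 1)) ^ 4 ≤ 3 * (2 * (16 + d) ^ 4) := by nlinarith [Nat.zero_le d, Nat.zero_le (d ^ 2), Nat.zero_le (d ^ 3), Nat.zero_le (d ^ 4)]
          _ ≤ 3 * 3 ^ (16 + d) := by omega
          _ = _ := by rw [← add_assoc, pow_succ]; ring
    omega
  have hu0 : (0 : ℝ) < uu n := by exact_mod_cast hu1
  have h1 := card_cc (uu n) ((n : ℝ) ^ 4) (by positivity)
  have h2 := card_od (uu n) hu1 ((n : ℝ) ^ (11 / 20 : ℝ)) (by positivity)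
  have hsq : Real.sqrt ((n : ℝ) ^ 4) = (n : ℝ) ^ 2 := by
    rw [show (n : ℝ) ^ 4 = ((n : ℝ) ^ 2) ^ 2 by ring, Real.sqrt_sq (by positivity)]
  rw [hsq] at h1
  have h3 : (((Finset.range (2 ^ uu n)).filter (fun y : ℕ => ¬ GG n y)).card : ℝ) ≤
      (((Finset.range (2 ^ uu n)).filter (fun y : ℕ => (n : ℝ) ^ 4 * 2 ^ uu n ≤ (cc (uu n) (y : ℤ) : ℝ))).card : ℝ) +
      (((Finset.range (2 ^ uu n)).filter (fun y : ℕ => (n : ℝ) ^ (11 / 20 : ℝ) ≤ |(od (uu n) (y : ℤ) : ℝ) - uu n / 2|)).card : ℝ) := by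
    have : ((Finset.range (2 ^ uu n)).filter (fun y : ℕ => ¬ GG n y)) ⊆
        ((Finset.range (2 ^ uu n)).filter (fun y : ℕ => (n : ℝ) ^ 4 * 2 ^ uu n ≤ (cc (uu n) (y : ℤ) : ℝ))) ∪
        ((Finset.range (2 ^ uu n)).filter (fun y : ℕ => (n : ℝ) ^ (11 / 20 : ℝ) ≤ |(od (uu n) (y : ℤ) : ℝ) - uu n / 2|)) := by
      intro y hy
      rw [Finset.mem_filter] at hy
      rw [Finset.mem_union, Finset.mem_filter, Finset.mem_filter]
      unfold GG at hy
      by_cases hc : (n : ℝ) ^ 4 * 2 ^ uu n ≤ (cc (uu n) (y : ℤ) : ℝ)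
      · left; exact ⟨hy.1, hc⟩
      · right
        refine ⟨hy.1, ?_⟩
        by_contra hc2
        exact hy.2 ⟨not_le.mp hc, not_le.mp hc2⟩
    have := le_trans (Finset.card_le_card this) (Finset.card_union_le _ _)
    exact_mod_cast this
  have h4 : Real.exp (-(2 * ((n : ℝ) ^ (11 / 20 : ℝ)) ^ 2 / uu n)) ≤ (Nat.factorial 20 : ℝ) / (n : ℝ) ^ 2 := by
    have e1 : ((n : ℝ) ^ (11 / 20 : ℝ)) ^ 2 = (n : ℝ) ^ (1 / 10 : ℝ) * n := by
      rw [← Real.rpow_natCast, ← Real.rpow_mul hn0.le]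
      nth_rewrite 3 [← Real.rpow_one (n : ℝ)]
      rw [← Real.rpow_add hn0]
      norm_num
    have e2 : (n : ℝ) ^ (1 / 10 : ℝ) ≤ 2 * ((n : ℝ) ^ (11 / 20 : ℝ)) ^ 2 / uu n := by
      rw [e1, le_div_iff₀ hu0]
      have : 0 < (n : ℝ) ^ (1 / 10 : ℝ) := Real.rpow_pos_of_pos hn0 _
      nlinarith
    have e3 : Real.exp (-(2 * ((n : ℝ) ^ (11 / 20 : ℝ)) ^ 2 / uu n)) ≤ Real.exp (-((n : ℝ) ^ (1 / 10 : ℝ))) :=
      Real.exp_le_exp.mpr (neg_le_neg e2)
    refine le_trans e3 ?_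
    have e4 := Real.pow_div_factorial_le_exp ((n : ℝ) ^ (1 / 10 : ℝ)) (by positivity) 20
    have e5 : ((n : ℝ) ^ (1 / 10 : ℝ)) ^ 20 = (n : ℝ) ^ 2 := by
      rw [← Real.rpow_natCast, ← Real.rpow_mul hn0.le]
      norm_num
    rw [e5] at e4
    rw [Real.exp_neg, le_div_iff₀ (by positivity), inv_mul_le_iff₀ (Real.exp_pos _)]
    rw [div_le_iff₀ (by positivity)] at e4
    linarith
  have hp : (0 : ℝ) < 2 ^ uu n := by positivity
  rw [div_le_iff₀ hp]
  calc _ ≤ _ := h3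
    _ ≤ 11 * 2 ^ uu n / (n : ℝ) ^ 2 + 2 ^ uu n * (2 * ((Nat.factorial 20 : ℝ) / (n : ℝ) ^ 2)) := by
        refine add_le_add h1 (le_trans h2 ?_)
        gcongr
    _ = _ := by ring

theorem band_le : ∃ C : ℝ, 0 < C ∧ ∃ n0 : ℕ, 10 ^ 3 ≤ n0 ∧ ∀ m, n0 ≤ m + 1 → ∀ t k : ℕ, m + 1 ≤ k → k ≤ t → TypK t k →
    Av (m + 1) (fun M => |D (m + 1) t k (fun _ => True) M - D m t k (fun _ => True) M|) ≤
      C / (((m + 1 : ℕ) : ℝ) ^ 2 * Real.sqrt t) + 2 * mass t k (fun r => ¬ GG (m + 1) (yy (t - uu (m + 1)) (uu (m + 1)) r)) := by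
  obtain ⟨C, hC, n0, hn0, H⟩ := beta_bound
  refine ⟨2 * C, by positivity, n0, hn0, ?_⟩
  intro m hm t k hmk hkt hk
  obtain ⟨n, hn⟩ : ∃ n, n = m + 1 := ⟨_, rfl⟩
  have hn3 : 10 ^ 3 ≤ n := by omega
  have hut := uu_le_t (n := n) hn3 (by omega) hkt hk
  have hnr : (10 ^ 3 : ℝ) ≤ n := by exact_mod_cast hn3
  have hnpos : (0 : ℝ) < n := by linarith
  have ht0 : (0 : ℝ) < t := by
    have : (n : ℝ) ≤ t := by exact_mod_cast (by omega : n ≤ t)
    linarith
  have hsqt : 0 < Real.sqrt t := Real.sqrt_pos.mpr ht0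
  have hb := H n (by omega) t k (by omega) hkt hk
  refine le_trans (Av_diff m t k (fun r => GG (m + 1) (yy (t - uu (m + 1)) (uu (m + 1)) r))) ?_
  apply add_le_add _ le_rfl
  have hst : t - uu n + uu n = t := Nat.sub_add_cancel hut
  have hband := band m (t - uu n) (uu n) k hmk (GG n) (fun y _ hGy => by
      have h1 := hGy.1
      have h2 : ((n : ℝ) ^ 4 * 2 ^ uu n) ≤ 3 ^ n := by exact_mod_cast uu_le n (by omega)
      have h3 : (cc (uu n) (y : ℤ) : ℝ) < 3 ^ n := lt_of_lt_of_le h1 h2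
      rw [← hn]
      exact_mod_cast h3) (C / ((n : ℝ) ^ 5 * Real.sqrt t)) (by positivity) (fun ξ hξ y _ hGy hyk => by
      subst hn
      exact hb ξ hξ y hGy hyk)
  rw [hst] at hband
  rw [← hn] at hband ⊢
  refine le_trans hband ?_
  rw [Real.sqrt_le_left (by positivity)]
  have h1 : (3 : ℝ) ^ n / 2 ^ uu n ≤ 2 * (n : ℝ) ^ 4 := by
    rw [div_le_iff₀ (by positivity)]
    have : ((3 ^ n : ℕ) : ℝ) ≤ ((n ^ 4 * (2 * 2 ^ uu n) : ℕ) : ℝ) := by exact_mod_cast (uu_gt n (by omega)).le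
    push_cast at this
    linarith
  have hub := uu_bound n (by omega)
  have h2 : (uu n : ℝ) + 1 ≤ 2 * n := by
    have : (5 : ℝ) * uu n ≤ 8 * n := by exact_mod_cast hub
    linarith
  calc ((uu n : ℝ) + 1) * (C / ((n : ℝ) ^ 5 * Real.sqrt t)) ^ 2 * (3 ^ n / 2 ^ uu n)
      ≤ (2 * n) * (C / ((n : ℝ) ^ 5 * Real.sqrt t)) ^ 2 * (2 * (n : ℝ) ^ 4) := by gcongr
    _ = (4 * C ^ 2) / ((n : ℝ) ^ 5 * Real.sqrt t ^ 2) := by field_simp; ring
    _ ≤ (4 * C ^ 2) / ((n : ℝ) ^ 4 * Real.sqrt t ^ 2) := by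
        apply div_le_div_of_nonneg_left (by positivity) (by positivity)
        apply mul_le_mul_of_nonneg_right _ (by positivity)
        exact pow_le_pow_right₀ (by linarith) (by norm_num)
    _ = _ := by field_simp; ring

theorem sum_inv_sq (m k : ℕ) (hm : 1 ≤ m) : ∑ n ∈ Finset.Ico m k, (1 : ℝ) / (((n + 1 : ℕ) : ℝ) ^ 2) ≤ (1 : ℝ) / (m : ℝ) := by
  rcases Nat.lt_or_ge k m with h | h
  · rw [Finset.Ico_eq_empty (by omega)]; simp
  · have key : ∀ N : ℕ, m ≤ N → ∑ n ∈ Finset.Ico m N, (1 : ℝ) / (((n + 1 : ℕ) : ℝ) ^ 2) ≤ (1 : ℝ) / (m : ℝ) - (1 : ℝ) / (N : ℝ) := by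
      intro N hN
      induction N, hN using Nat.le_induction with
      | base => simp
      | succ N hN ih =>
        rw [Finset.sum_Ico_succ_top hN]
        have hNpos : (0 : ℝ) < N := by
          have : 0 < N := by omega
          exact_mod_cast this
        have : (1 : ℝ) / (((N + 1 : ℕ) : ℝ) ^ 2) ≤ (1 : ℝ) / (N : ℝ) - (1 : ℝ) / ((N + 1 : ℕ) : ℝ) := by
          push_cast
          rw [div_sub_div _ _ (by positivity) (by positivity), div_le_div_iff₀ (by positivity) (by positivity)]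
          nlinarith
        linarith
    refine le_trans (key k h) ?_
    have : (0 : ℝ) ≤ (1 : ℝ) / (k : ℝ) := by positivity
    linarith

open Classical in
/-- typical numbers of odd steps -/
noncomputable def KS (t m : ℕ) : Finset ℕ := (Finset.range (t + 1)).filter (fun k => m ≤ k ∧ TypK t k)

theorem card_KS (t m : ℕ) (ht : 1 ≤ t) : ((KS t m).card : ℝ) ≤ 3 * (t : ℝ) ^ (11 / 20 : ℝ) := by
  classical
  have ht' : (1 : ℝ) ≤ t := by exact_mod_cast ht
  obtain ⟨x, hx⟩ : ∃ x : ℝ, x = (t : ℝ) ^ (11 / 20 : ℝ) := ⟨_, rfl⟩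
  have hx1 : 1 ≤ x := by rw [hx]; exact Real.one_le_rpow ht' (by norm_num)
  have hsub : KS t m ⊆ Finset.Icc ⌈(t : ℝ) / 2 - x⌉₊ ⌊(t : ℝ) / 2 + x⌋₊ := by
    intro k hk
    unfold KS at hk
    rw [Finset.mem_filter] at hk
    have h1 := hk.2.2
    unfold TypK at h1
    rw [← hx, abs_le] at h1
    rw [Finset.mem_Icc]
    exact ⟨Nat.ceil_le.mpr (by linarith), Nat.le_floor (by linarith)⟩
  have h2 := Finset.card_le_card hsub
  rw [Nat.card_Icc] at h2
  have h3 : ((KS t m).card : ℝ) ≤ 2 * x + 1 := by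
    have h4 : ((⌊(t : ℝ) / 2 + x⌋₊ + 1 - ⌈(t : ℝ) / 2 - x⌉₊ : ℕ) : ℝ) ≤ 2 * x + 1 := by
      rcases le_total ⌈(t : ℝ) / 2 - x⌉₊ (⌊(t : ℝ) / 2 + x⌋₊ + 1) with h | h
      · rw [Nat.cast_sub h]
        push_cast
        have a1 := Nat.floor_le (show 0 ≤ (t : ℝ) / 2 + x by positivity)
        have a2 := Nat.le_ceil ((t : ℝ) / 2 - x)
        linarith
      · rw [Nat.sub_eq_zero_of_le h]
        simp only [Nat.cast_zero]
        linarith
    exact le_trans (by exact_mod_cast h2) h4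
  rw [← hx]; linarith

/-- **Mixing** -/
theorem mixing : ∃ C : ℝ, 0 < C ∧ ∃ n0 : ℕ, 10 ^ 3 ≤ n0 ∧ ∀ t m : ℕ, n0 ≤ m → m ≤ t →
    ∑ k ∈ KS t m, Av k (fun M => |D k t k (fun _ => True) M - D m t k (fun _ => True) M|) ≤
      C * (t : ℝ) ^ (1 / 20 : ℝ) / m := by
  classical
  obtain ⟨C, hC, n0, hn0, H⟩ := band_le
  obtain ⟨F, hFpos, hbad⟩ : ∃ F : ℝ, 0 < F ∧ ∀ n : ℕ, 10 ^ 3 ≤ n →
      (((Finset.range (2 ^ uu n)).filter (fun y : ℕ => ¬ GG n y)).card : ℝ) / 2 ^ uu n ≤ F / (n : ℝ) ^ 2 :=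
    ⟨11 + 2 * (Nat.factorial 20 : ℝ), by positivity, fun n hn => bad_card n hn⟩
  refine ⟨3 * C + 2 * F, by positivity, n0, hn0, ?_⟩
  intro t m hm hmt
  have hmpos : (0 : ℝ) < m := by have : 0 < m := by omega
                                 exact_mod_cast this
  have ht1 : 1 ≤ t := by omega
  have ht' : (1 : ℝ) ≤ t := by exact_mod_cast ht1
  have ht0 : (0 : ℝ) < t := by linarith
  -- step 1: telescoping and band bounds
  have h1 : ∀ k ∈ KS t m, Av k (fun M => |D k t k (fun _ => True) M - D m t k (fun _ => True) M|) ≤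
      C / Real.sqrt t * (1 / m) + 2 * ∑ n ∈ Finset.Ico m t, (if n + 1 ≤ k then mass t k (fun r => ¬ GG (n + 1) (yy (t - uu (n + 1)) (uu (n + 1)) r)) else 0) := by
    intro k hk
    unfold KS at hk
    rw [Finset.mem_filter, Finset.mem_range] at hk
    obtain ⟨hkt, hmk, htyp⟩ := hk
    refine le_trans (Av_tele t k m hmk) ?_
    have h2 : ∀ n ∈ Finset.Ico m k, Av (n + 1) (fun M => |D (n + 1) t k (fun _ => True) M - D n t k (fun _ => True) M|) ≤
        C / Real.sqrt t * (1 / (((n + 1 : ℕ) : ℝ) ^ 2)) +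
          2 * (if n + 1 ≤ k then mass t k (fun r => ¬ GG (n + 1) (yy (t - uu (n + 1)) (uu (n + 1)) r)) else 0) := by
      intro n hn
      rw [Finset.mem_Ico] at hn
      have := H n (by omega) t k (by omega) (by omega) htyp
      rw [if_pos (by omega)]
      refine le_trans this (le_of_eq ?_)
      congr 1
      field_simp
    refine le_trans (Finset.sum_le_sum h2) ?_
    rw [Finset.sum_add_distrib, ← Finset.mul_sum, ← Finset.mul_sum]
    apply add_le_add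
    · apply mul_le_mul_of_nonneg_left _ (by positivity)
      exact sum_inv_sq m k (by omega)
    · apply mul_le_mul_of_nonneg_left _ (by norm_num)
      apply Finset.sum_le_sum_of_subset_of_nonneg
      · intro n hn
        rw [Finset.mem_Ico] at hn ⊢
        omega
      · intro n _ _
        split_ifs
        · unfold mass; positivity
        · exact le_rfl
  refine le_trans (Finset.sum_le_sum h1) ?_
  rw [Finset.sum_add_distrib, Finset.sum_const, nsmul_eq_mul, ← Finset.mul_sum, Finset.sum_comm]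
  have h3 : ∀ n ∈ Finset.Ico m t, ∑ k ∈ KS t m, (if n + 1 ≤ k then mass t k (fun r => ¬ GG (n + 1) (yy (t - uu (n + 1)) (uu (n + 1)) r)) else 0) ≤
      F * (1 / (((n + 1 : ℕ) : ℝ) ^ 2)) := by
    intro n hn
    rw [Finset.mem_Ico] at hn
    rw [← Finset.sum_filter]
    by_cases hne : ((KS t m).filter (fun k => n + 1 ≤ k)).Nonempty
    · obtain ⟨k, hk⟩ := hne
      unfold KS at hk
      rw [Finset.mem_filter, Finset.mem_filter, Finset.mem_range] at hk
      have hut := uu_le_t (n := n + 1) (by omega) hk.2 (by omega) hk.1.2.2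
      have h4 := mass_sum (t - uu (n + 1)) (uu (n + 1)) (fun y => ¬ GG (n + 1) y) ((KS t m).filter (fun k => n + 1 ≤ k))
      rw [Nat.sub_add_cancel hut] at h4
      have h6 := hbad (n + 1) (by omega)
      rw [mul_one_div]
      refine le_trans h4 (le_trans (le_of_eq ?_) h6)
      congr 2
      exact congrArg Finset.card (Finset.filter_congr_decidable _ _ _)
    · rw [Finset.not_nonempty_iff_eq_empty.mp hne, Finset.sum_empty]
      positivity
  have h5 : 2 * ∑ n ∈ Finset.Ico m t, ∑ k ∈ KS t m, (if n + 1 ≤ k then mass t k (fun r => ¬ GG (n + 1) (yy (t - uu (n + 1)) (uu (n + 1)) r)) else 0) ≤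
      2 * F * (1 / m) := by
    rw [mul_assoc]
    apply mul_le_mul_of_nonneg_left _ (by norm_num)
    refine le_trans (Finset.sum_le_sum h3) ?_
    rw [← Finset.mul_sum]
    exact mul_le_mul_of_nonneg_left (sum_inv_sq m t (by omega)) hFpos.le
  have h6 : ((KS t m).card : ℝ) * (C / Real.sqrt t * (1 / m)) ≤ 3 * C * (t : ℝ) ^ (1 / 20 : ℝ) / m := by
    calc ((KS t m).card : ℝ) * (C / Real.sqrt t * (1 / m)) ≤ (3 * (t : ℝ) ^ (11 / 20 : ℝ)) * (C / Real.sqrt t * (1 / m)) := by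
          apply mul_le_mul_of_nonneg_right (card_KS t m ht1) (by positivity)
      _ = 3 * C * ((t : ℝ) ^ (11 / 20 : ℝ) / Real.sqrt t) / m := by ring
      _ = _ := by
          rw [Real.sqrt_eq_rpow, ← Real.rpow_sub ht0]
          norm_num
  have h7 : 2 * F * (1 / m) ≤ 2 * F * (t : ℝ) ^ (1 / 20 : ℝ) / m := by
    rw [mul_one_div]
    apply div_le_div_of_nonneg_right _ hmpos.le
    have : 1 ≤ (t : ℝ) ^ (1 / 20 : ℝ) := Real.one_le_rpow ht' (by norm_num)
    nlinarith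
  calc _ ≤ 3 * C * (t : ℝ) ^ (1 / 20 : ℝ) / m + 2 * F * (1 / m) := add_le_add h6 h5
    _ ≤ 3 * C * (t : ℝ) ^ (1 / 20 : ℝ) / m + 2 * F * (t : ℝ) ^ (1 / 20 : ℝ) / m := by linarith
    _ = _ := by ring

end Pool.Agent.Helper3.TD
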