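import Pool.Agent.Helper3.TD.Band2

/-! Logarithmic sums of periodic functions. -/

namespace Pool.Agent.Helper3.TD

/-- average over residues modulo `q` -/
noncomputable def AvQ (q : ℕ) (f : ℤ → ℝ) : ℝ := (∑ x ∈ Finset.range q, f (x : ℤ)) / q

theorem AvQ_three (N : ℕ) (f : ℤ → ℝ) : AvQ (3 ^ N) f = Av N f := by
  unfold AvQ Av; push_cast; rfl

theorem per_mul {q : ℕ} {f : ℤ → ℝ} (h : ∀ x : ℤ, f (x + q) = f x) (j : ℕ) (x : ℤ) : f (x + q * j) = f x := by
  induction j with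
  | zero => simp
  | succ j ih =>
    have : x + (q : ℤ) * ((j + 1 : ℕ) : ℤ) = (x + q * j) + q := by push_cast; ring
    rw [this, h, ih]

theorem inv_le_log {j : ℕ} (hj : 2 ≤ j) : 1 / (j : ℝ) ≤ Real.log ((j : ℝ) / ((j : ℝ) - 1)) := by
  have hj' : (2 : ℝ) ≤ j := by exact_mod_cast hj
  have h1 : (0 : ℝ) < (j : ℝ) / ((j : ℝ) - 1) := div_pos (by linarith) (by linarith)
  have h2 := Real.one_sub_inv_le_log_of_pos h1
  refine le_trans (le_of_eq ?_) h2
  rw [inv_div]
  field_simp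
  ring

theorem block_sum {q : ℕ} (hq : 1 ≤ q) {f : ℤ → ℝ} (h : ∀ x : ℤ, f (x + q) = f x) (hf : ∀ x, 0 ≤ f x) {j0 : ℕ} (hj0 : 2 ≤ j0) :
    ∀ j, j0 ≤ j → ∑ M ∈ Finset.Ico (q * j0) (q * j), f (M : ℤ) / (M : ℝ) ≤
      AvQ q f * Real.log (((j : ℝ) - 1) / ((j0 : ℝ) - 1)) := by
  have hq' : (0 : ℝ) < q := by exact_mod_cast hq
  have hj0' : (2 : ℝ) ≤ j0 := by exact_mod_cast hj0
  have hA : 0 ≤ AvQ q f := div_nonneg (Finset.sum_nonneg (fun x _ => hf _)) hq'.le
  intro j hj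
  induction j, hj using Nat.le_induction with
  | base =>
    rw [Finset.Ico_self, Finset.sum_empty, div_self (by linarith), Real.log_one, mul_zero]
  | succ j hj ih =>
    have hjr : (j0 : ℝ) ≤ j := by exact_mod_cast hj
    have hle1 : q * j0 ≤ q * j := Nat.mul_le_mul_left _ hj
    have hle2 : q * j ≤ q * (j + 1) := Nat.mul_le_mul_left _ (by omega)
    rw [← Finset.sum_Ico_consecutive _ hle1 hle2]
    have h1 : ∑ M ∈ Finset.Ico (q * j) (q * (j + 1)), f (M : ℤ) / (M : ℝ) ≤ AvQ q f * (1 / j) := by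
      rw [Finset.sum_Ico_eq_sum_range]
      have e : q * (j + 1) - q * j = q := by rw [Nat.mul_succ]; omega
      rw [e]
      unfold AvQ
      have hjpos0 : (0 : ℝ) < j := by linarith
      rw [div_mul_div_comm, mul_one, le_div_iff₀ (by positivity), Finset.sum_mul]
      apply Finset.sum_le_sum
      intro x _
      have e2 : f (((q * j + x : ℕ)) : ℤ) = f (x : ℤ) := by
        rw [← per_mul h j (x : ℤ)]
        congr 1; push_cast; ring
      rw [e2]
      push_cast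
      have hjpos : (0 : ℝ) < j := by linarith
      have hpos : (0 : ℝ) < q * j + x := by positivity
      rw [div_mul_eq_mul_div, div_le_iff₀ hpos]
      apply mul_le_mul_of_nonneg_left _ (hf _)
      have : (0 : ℝ) ≤ x := by positivity
      linarith
    have h2 : 1 / (j : ℝ) ≤ Real.log ((j : ℝ) / ((j : ℝ) - 1)) := inv_le_log (by omega)
    have h3 : Real.log ((((j + 1 : ℕ) : ℝ) - 1) / ((j0 : ℝ) - 1)) =
        Real.log (((j : ℝ) - 1) / ((j0 : ℝ) - 1)) + Real.log ((j : ℝ) / ((j : ℝ) - 1)) := by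
      have a1 : (0 : ℝ) < (j : ℝ) - 1 := by linarith
      have a2 : (0 : ℝ) < (j0 : ℝ) - 1 := by linarith
      have a3 : (0 : ℝ) < (j : ℝ) := by linarith
      rw [← Real.log_mul (div_pos a1 a2).ne' (div_pos a3 a1).ne']
      congr 1
      push_cast
      field_simp
      ring
    have h4 := mul_le_mul_of_nonneg_left h2 hA
    rw [h3]
    calc _ ≤ AvQ q f * Real.log (((j : ℝ) - 1) / ((j0 : ℝ) - 1)) + AvQ q f * (1 / j) := add_le_add ih h1
      _ ≤ AvQ q f * Real.log (((j : ℝ) - 1) / ((j0 : ℝ) - 1)) + AvQ q f * Real.log ((j : ℝ) / ((j : ℝ) - 1)) := by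
          linarith
      _ = _ := by ring

/-- positive side -/
theorem per_sum_pos {q : ℕ} (hq : 1 ≤ q) {f : ℤ → ℝ} (h : ∀ x : ℤ, f (x + q) = f x) (hf : ∀ x, 0 ≤ f x) {a b : ℝ}
    (ha : 4 * q ≤ a) (hab : a ≤ b) (S : Finset ℕ) (hS : ∀ M ∈ S, a ≤ (M : ℝ) ∧ (M : ℝ) ≤ b) :
    ∑ M ∈ S, f (M : ℤ) / (M : ℝ) ≤ AvQ q f * (Real.log (b / a) + 1) := by
  have hq' : (0 : ℝ) < q := by exact_mod_cast hq
  have ha0 : 0 < a := by linarith
  have hb0 : 0 < b := by linarith
  have hA : 0 ≤ AvQ q f := div_nonneg (Finset.sum_nonneg (fun x _ => hf _)) hq'.le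
  obtain ⟨j0, hj0⟩ : ∃ j0, j0 = ⌊a / q⌋₊ := ⟨_, rfl⟩
  obtain ⟨j1, hj1⟩ : ∃ j1, j1 = ⌊b / q⌋₊ := ⟨_, rfl⟩
  have h4 : 4 ≤ a / q := by rw [le_div_iff₀ hq']; linarith
  have hj04 : 4 ≤ j0 := by rw [hj0]; exact Nat.le_floor (by exact_mod_cast h4)
  have hj0r : a / q - 1 < j0 := by rw [hj0]; exact Nat.sub_one_lt_floor _
  have hj1r : (j1 : ℝ) ≤ b / q := by rw [hj1]; exact Nat.floor_le (by positivity)
  have hj01 : j0 ≤ j1 := by rw [hj0, hj1]; exact Nat.floor_le_floor (by gcongr)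
  have hsub : S ⊆ Finset.Ico (q * j0) (q * (j1 + 1)) := by
    intro M hM
    obtain ⟨h1, h2⟩ := hS M hM
    rw [Finset.mem_Ico]
    constructor
    · have : ((q * j0 : ℕ) : ℝ) ≤ M := by
        push_cast
        have : (j0 : ℝ) ≤ a / q := by rw [hj0]; exact Nat.floor_le (by positivity)
        rw [le_div_iff₀ hq'] at this
        linarith
      exact_mod_cast this
    · have : (M : ℝ) < ((q * (j1 + 1) : ℕ) : ℝ) := by
        push_cast
        have : b / q < j1 + 1 := by rw [hj1]; exact Nat.lt_floor_add_one _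
        rw [div_lt_iff₀ hq'] at this
        linarith
      exact_mod_cast this
  have h1 : ∑ M ∈ S, f (M : ℤ) / (M : ℝ) ≤ ∑ M ∈ Finset.Ico (q * j0) (q * (j1 + 1)), f (M : ℤ) / (M : ℝ) :=
    Finset.sum_le_sum_of_subset_of_nonneg hsub (fun M _ _ => div_nonneg (hf _) (by positivity))
  refine le_trans h1 (le_trans (block_sum hq h hf (by omega) (j1 + 1) (by omega)) ?_)
  apply mul_le_mul_of_nonneg_left _ hA
  have h2 : Real.log (b / a) + 1 ≥ Real.log (2 * (b / a)) := by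
    rw [Real.log_mul (by norm_num) (by positivity)]
    have := Real.log_two_lt_d9
    linarith
  refine le_trans ?_ h2
  apply Real.log_le_log
  · have : (4 : ℝ) ≤ j0 := by exact_mod_cast hj04
    have : (j0 : ℝ) ≤ j1 := by exact_mod_cast hj01
    apply div_pos <;> [push_cast; skip] <;> linarith
  · have hj04' : (4 : ℝ) ≤ j0 := by exact_mod_cast hj04
    rw [div_le_iff₀ (by linarith)]
    push_cast
    have e1 : a / (2 * q) ≤ (j0 : ℝ) - 1 := by
      have : a / (2 * q) = a / q / 2 := by field_simp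
      rw [this]; linarith
    calc (j1 : ℝ) + 1 - 1 = j1 := by ring
      _ ≤ b / q := hj1r
      _ = 2 * (b / a) * (a / (2 * q)) := by field_simp
      _ ≤ 2 * (b / a) * ((j0 : ℝ) - 1) := by gcongr

theorem AvQ_neg {q : ℕ} {f : ℤ → ℝ} (h : ∀ x : ℤ, f (x + q) = f x) : AvQ q (fun x => f (-x)) = AvQ q f := by
  unfold AvQ
  congr 1
  have h1 : ∀ x ∈ Finset.range q, f (-(x : ℤ)) = (fun j : ℕ => f ((j : ℤ) + 1)) (q - 1 - x) := by
    intro x hx
    rw [Finset.mem_range] at hx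
    simp only
    rw [← h (-(x : ℤ))]
    congr 1
    omega
  rw [Finset.sum_congr rfl h1, Finset.sum_range_reflect (fun j : ℕ => f ((j : ℤ) + 1)) q]
  have h2 : ∑ x ∈ Finset.range (q + 1), f (x : ℤ) = ∑ x ∈ Finset.range q, f (x : ℤ) + f (q : ℤ) := Finset.sum_range_succ _ _
  have h3 : ∑ x ∈ Finset.range (q + 1), f (x : ℤ) = ∑ x ∈ Finset.range q, f ((x : ℤ) + 1) + f 0 := by
    rw [Finset.sum_range_succ']
    push_cast
    rfl
  have h4 : f (q : ℤ) = f 0 := by have := h 0; rwa [zero_add] at this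
  rw [h4] at h2
  linarith

/-- two sided logarithmic sums of periodic functions -/
theorem per_sum {q : ℕ} (hq : 1 ≤ q) {f : ℤ → ℝ} (h : ∀ x : ℤ, f (x + q) = f x) (hf : ∀ x, 0 ≤ f x) {a b : ℝ}
    (ha : 4 * q ≤ a) (hab : a ≤ b) (S : Finset ℤ) (hS : ∀ M ∈ S, a ≤ |(M : ℝ)| ∧ |(M : ℝ)| ≤ b) :
    ∑ M ∈ S, f M / |(M : ℝ)| ≤ 2 * AvQ q f * (Real.log (b / a) + 1) := by
  classical
  have hq' : (0 : ℝ) < q := by exact_mod_cast hq
  have ha0 : 0 < a := by linarith
  rw [← Finset.sum_filter_add_sum_filter_not S (fun M => 0 ≤ M)]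
  have hp : ∑ M ∈ S.filter (fun M => 0 ≤ M), f M / |(M : ℝ)| ≤ AvQ q f * (Real.log (b / a) + 1) := by
    have e : ∑ M ∈ S.filter (fun M => 0 ≤ M), f M / |(M : ℝ)| =
        ∑ M ∈ (S.filter (fun M => 0 ≤ M)).image Int.toNat, f (M : ℤ) / (M : ℝ) := by
      rw [Finset.sum_image]
      · apply Finset.sum_congr rfl
        intro M hM
        rw [Finset.mem_filter] at hM
        have e1 : ((M.toNat : ℕ) : ℤ) = M := Int.toNat_of_nonneg hM.2
        have e2 : ((M.toNat : ℕ) : ℝ) = (M : ℝ) := by exact_mod_cast congrArg (Int.cast : ℤ → ℝ) e1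
        rw [e1, e2, abs_of_nonneg (by exact_mod_cast hM.2)]
      · intro x hx y hy hxy
        rw [Finset.mem_coe, Finset.mem_filter] at hx hy
        have e1 : ((x.toNat : ℕ) : ℤ) = x := Int.toNat_of_nonneg hx.2
        have e2 : ((y.toNat : ℕ) : ℤ) = y := Int.toNat_of_nonneg hy.2
        rw [← e1, ← e2, hxy]
    rw [e]
    apply per_sum_pos hq h hf ha hab
    intro M hM
    rw [Finset.mem_image] at hM
    obtain ⟨x, hx, rfl⟩ := hM
    rw [Finset.mem_filter] at hx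
    have e1 : ((x.toNat : ℕ) : ℤ) = x := Int.toNat_of_nonneg hx.2
    have e2 : ((x.toNat : ℕ) : ℝ) = (x : ℝ) := by exact_mod_cast congrArg (Int.cast : ℤ → ℝ) e1
    rw [e2]
    have := hS x hx.1
    rwa [abs_of_nonneg (by exact_mod_cast hx.2)] at this
  have hn : ∑ M ∈ S.filter (fun M => ¬ 0 ≤ M), f M / |(M : ℝ)| ≤ AvQ q f * (Real.log (b / a) + 1) := by
    rw [← AvQ_neg h]
    have e : ∑ M ∈ S.filter (fun M => ¬ 0 ≤ M), f M / |(M : ℝ)| =
        ∑ M ∈ ((S.filter (fun M => ¬ 0 ≤ M)).image (fun M : ℤ => (-M).toNat) : Finset ℕ), f (-(M : ℤ)) / (M : ℝ) := by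
      rw [Finset.sum_image]
      · apply Finset.sum_congr rfl
        intro M hM
        rw [Finset.mem_filter] at hM
        have hM2 : M < 0 := not_le.mp hM.2
        have e1 : (((-M).toNat : ℕ) : ℤ) = -M := Int.toNat_of_nonneg (by omega)
        have e2 : (((-M).toNat : ℕ) : ℝ) = ((-M : ℤ) : ℝ) := by exact_mod_cast congrArg (Int.cast : ℤ → ℝ) e1
        rw [e1, e2, neg_neg, abs_of_neg (by exact_mod_cast hM2)]
        push_cast
        ring
      · intro x hx y hy hxy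
        rw [Finset.mem_coe, Finset.mem_filter] at hx hy
        simp only at hxy
        have e1 : (((-x).toNat : ℕ) : ℤ) = -x := Int.toNat_of_nonneg (by omega)
        have e2 : (((-y).toNat : ℕ) : ℤ) = -y := Int.toNat_of_nonneg (by omega)
        have : -x = -y := by rw [← e1, ← e2, hxy]
        omega
    rw [e]
    apply per_sum_pos hq (f := fun x => f (-x)) _ (fun x => hf _) ha hab
    · intro M hM
      rw [Finset.mem_image] at hM
      obtain ⟨x, hx, rfl⟩ := hM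
      rw [Finset.mem_filter] at hx
      have hx2 : x < 0 := not_le.mp hx.2
      have e1 : (((-x).toNat : ℕ) : ℤ) = -x := Int.toNat_of_nonneg (by omega)
      have e2 : (((-x).toNat : ℕ) : ℝ) = ((-x : ℤ) : ℝ) := by exact_mod_cast congrArg (Int.cast : ℤ → ℝ) e1
      rw [e2]
      have := hS x hx.1
      rw [abs_of_neg (by exact_mod_cast hx2)] at this
      push_cast
      exact this
    · intro x
      have := h (-(x + q))
      rw [show -(x + (q : ℤ)) + q = -x by ring] at this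
      exact this.symm
  linarith

end Pool.Agent.Helper3.TD
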