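import Pool.Agent.Helper3.TD.Dl
import Pool.Agent.Helper3.TD.Mix
import Pool.Agent.Helper3.TD.PerSum

/-! Preparations for the comparison of logarithmic sums. -/

namespace Pool.Agent.Helper3.TD

open Pool.Agent.Helper3.ND

/-- logarithmic sums over windows -/
theorem win_sum {q : ℕ} (hq : 1 ≤ q) {f : ℤ → ℝ} (h : ∀ x : ℤ, f (x + q) = f x) (hf : ∀ x, 0 ≤ f x) {b v : ℝ}
    (hv : 0 ≤ v) (hb : 4 * q ≤ Real.exp (b - v)) (X : ℤ) :
    ∑ M ∈ Finset.Icc (-X) X, (if |Real.log |(M : ℝ)| - b| ≤ v then f M / |(M : ℝ)| else 0) ≤ 2 * AvQ q f * (2 * v + 1) := by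
  classical
  have h1 := per_sum hq h hf hb (Real.exp_le_exp.mpr (show b - v ≤ b + v by linarith))
    ((Finset.Icc (-X) X).filter (fun M : ℤ => |Real.log |(M : ℝ)| - b| ≤ v ∧ M ≠ 0)) (by
      intro M hM
      rw [Finset.mem_filter] at hM
      have hM0 : 0 < |(M : ℝ)| := abs_pos.mpr (by exact_mod_cast hM.2.2)
      have h2 := hM.2.1
      rw [abs_le] at h2
      exact ⟨(Real.le_log_iff_exp_le hM0).mp (by linarith), (Real.log_le_iff_le_exp hM0).mp (by linarith)⟩)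
  rw [← Real.exp_sub, Real.log_exp, show b + v - (b - v) = 2 * v by ring] at h1
  refine le_trans (le_of_eq ?_) h1
  rw [Finset.sum_filter]
  apply Finset.sum_congr rfl
  intro M _
  by_cases h2 : |Real.log |(M : ℝ)| - b| ≤ v
  · by_cases h3 : M = 0
    · rw [if_pos h2, if_neg (fun h4 => h4.2 h3), h3]; simp
    · rw [if_pos h2, if_pos ⟨h2, h3⟩]
  · rw [if_neg h2, if_neg (fun h4 => h2 h4.1)]

theorem win_sum3 {n : ℕ} {f : ℤ → ℝ} (h : Per n f) (hf : ∀ x, 0 ≤ f x) {b v : ℝ}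
    (hv : 0 ≤ v) (hb : 4 * 3 ^ n ≤ Real.exp (b - v)) (X : ℤ) :
    ∑ M ∈ Finset.Icc (-X) X, (if |Real.log |(M : ℝ)| - b| ≤ v then f M / |(M : ℝ)| else 0) ≤ 2 * Av n f * (2 * v + 1) := by
  rw [← AvQ_three]
  apply win_sum (Nat.one_le_pow _ _ (by norm_num)) _ hf hv _ X
  · intro x
    have := h x
    push_cast
    exact this
  · push_cast; exact hb

open Classical in
theorem mass_set (t : ℕ) (S : Finset ℕ) (P : ℕ → Prop) :
    ∑ k ∈ S, mass t k P ≤ (((Finset.range (2 ^ t)).filter (fun r : ℕ => od t (r : ℤ) ∈ S)).card : ℝ) / 2 ^ t := by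
  unfold mass
  rw [← Finset.sum_div]
  gcongr
  have : ∑ k ∈ S, ((Finset.range (2 ^ t)).filter (fun r : ℕ => od t (r : ℤ) = k ∧ P r)).card ≤
      ((Finset.range (2 ^ t)).filter (fun r : ℕ => od t (r : ℤ) ∈ S)).card := by
    rw [← Finset.card_biUnion]
    · apply Finset.card_le_card
      intro r hr
      rw [Finset.mem_biUnion] at hr
      obtain ⟨k, hk1, hk⟩ := hr
      rw [Finset.mem_filter] at hk ⊢
      exact ⟨hk.1, by rw [hk.2.1]; exact hk1⟩
    · intro k _ k' _ hne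
      rw [Function.onFun, Finset.disjoint_left]
      intro r hr hr'
      rw [Finset.mem_filter] at hr hr'
      exact hne (hr.2.1.symm.trans hr'.2.1)
  exact_mod_cast this

theorem mass_le_one (t : ℕ) (S : Finset ℕ) (P : ℕ → Prop) : ∑ k ∈ S, mass t k P ≤ 1 := by
  classical
  refine le_trans (mass_set t S P) ?_
  rw [div_le_one (by positivity)]
  have := Finset.card_filter_le (Finset.range (2 ^ t)) (fun r : ℕ => od t (r : ℤ) ∈ S)
  rw [Finset.card_range] at this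
  exact_mod_cast this

/-- exponentially small tail in power form -/
theorem exp_tail {t : ℝ} (ht : 1 ≤ t) : Real.exp (-(t ^ (1 / 10 : ℝ))) ≤ (Nat.factorial 20 : ℝ) / t ^ 2 := by
  have ht0 : 0 < t := by linarith
  have e4 := Real.pow_div_factorial_le_exp (t ^ (1 / 10 : ℝ)) (by positivity) 20
  have e5 : (t ^ (1 / 10 : ℝ)) ^ 20 = t ^ 2 := by
    rw [← Real.rpow_natCast, ← Real.rpow_mul ht0.le]
    norm_num
  rw [e5] at e4
  rw [Real.exp_neg, le_div_iff₀ (by positivity), inv_mul_le_iff₀ (Real.exp_pos _)]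
  rw [div_le_iff₀ (by positivity)] at e4
  linarith

open Classical in
/-- few residues have an atypical number of odd steps -/
theorem card_out {t m : ℕ} (ht : 10 ^ 3 ≤ t) (hm : 5 * m ≤ 2 * t) (S : Finset ℕ) (hS : ∀ k ∈ S, k ∉ KS t m) :
    (((Finset.range (2 ^ t)).filter (fun r : ℕ => od t (r : ℤ) ∈ S)).card : ℝ) / 2 ^ t ≤ 2 * Real.exp (-((t : ℝ) ^ (1 / 10 : ℝ))) := by
  have ht' : (10 ^ 3 : ℝ) ≤ t := by exact_mod_cast ht
  have ht0 : (0 : ℝ) < t := by linarith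
  have hm' : (5 : ℝ) * m ≤ 2 * t := by exact_mod_cast hm
  have h1 := card_od t (by omega) ((t : ℝ) ^ (11 / 20 : ℝ)) (by positivity)
  have e1 : ((t : ℝ) ^ (11 / 20 : ℝ)) ^ 2 = (t : ℝ) ^ (1 / 10 : ℝ) * t := by
    rw [← Real.rpow_natCast, ← Real.rpow_mul ht0.le]
    nth_rewrite 3 [← Real.rpow_one (t : ℝ)]
    rw [← Real.rpow_add ht0]
    norm_num
  have h2 : Real.exp (-(2 * ((t : ℝ) ^ (11 / 20 : ℝ)) ^ 2 / t)) ≤ Real.exp (-((t : ℝ) ^ (1 / 10 : ℝ))) := by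
    apply Real.exp_le_exp.mpr
    apply neg_le_neg
    rw [e1, le_div_iff₀ ht0]
    have : 0 < (t : ℝ) ^ (1 / 10 : ℝ) := Real.rpow_pos_of_pos ht0 _
    nlinarith
  have h3 : ((Finset.range (2 ^ t)).filter (fun r : ℕ => od t (r : ℤ) ∈ S)) ⊆
      ((Finset.range (2 ^ t)).filter (fun y : ℕ => (t : ℝ) ^ (11 / 20 : ℝ) ≤ |(od t (y : ℤ) : ℝ) - t / 2|)) := by
    intro r hr
    rw [Finset.mem_filter] at hr ⊢
    refine ⟨hr.1, ?_⟩
    have h4 := hS _ hr.2
    by_contra hc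
    apply h4
    unfold KS
    rw [Finset.mem_filter, Finset.mem_range]
    have h5 := od_le t (r : ℤ)
    refine ⟨by omega, ?_, ?_⟩
    · have h6 := rpow_small ht'
      have h7 := (not_le.mp hc).le
      rw [abs_le] at h7
      have : (m : ℝ) ≤ (od t (r : ℤ) : ℝ) := by linarith
      exact_mod_cast this
    · unfold TypK
      exact (not_le.mp hc).le
  have h4 : (((Finset.range (2 ^ t)).filter (fun r : ℕ => od t (r : ℤ) ∈ S)).card : ℝ) ≤
      (((Finset.range (2 ^ t)).filter (fun y : ℕ => (t : ℝ) ^ (11 / 20 : ℝ) ≤ |(od t (y : ℤ) : ℝ) - t / 2|)).card : ℝ) := by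
    exact_mod_cast Finset.card_le_card h3
  rw [div_le_iff₀ (by positivity)]
  calc _ ≤ _ := h4
    _ ≤ _ := h1
    _ ≤ 2 ^ t * (2 * Real.exp (-((t : ℝ) ^ (1 / 10 : ℝ)))) := by gcongr
    _ = _ := by ring

/-- collecting the residues by the number of odd steps -/
theorem D_collect (t : ℕ) (S : Finset ℕ) (c : ℝ) (M : ℤ) :
    ∑ r ∈ Finset.range (2 ^ t), (if od t (r : ℤ) ∈ S ∧ (3 : ℤ) ^ od t (r : ℤ) ∣ M - T^[t] (r : ℤ) then
      (3 : ℝ) ^ od t (r : ℤ) / 2 ^ t * c else 0) = (∑ k ∈ S, D k t k (fun _ => True) M) * c := by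
  classical
  unfold D
  rw [Finset.sum_comm, Finset.sum_mul]
  apply Finset.sum_congr rfl
  intro r _
  by_cases h1 : od t (r : ℤ) ∈ S
  · rw [Finset.sum_eq_single_of_mem _ h1]
    · by_cases h2 : (3 : ℤ) ^ od t (r : ℤ) ∣ M - T^[t] (r : ℤ)
      · rw [if_pos ⟨h1, h2⟩, if_pos ⟨rfl, trivial, h2⟩]
      · rw [if_neg (fun h => h2 h.2), if_neg (fun h => h2 h.2.2), zero_mul]
    · intro k _ hne
      rw [if_neg (fun h => hne h.1.symm)]
  · rw [if_neg (fun h => h1 h.1), Finset.sum_eq_zero, zero_mul]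
    intro k hk
    rw [if_neg]
    intro h
    rw [h.1] at h1
    exact h1 hk

/-- the sum over typical numbers of odd steps against the limiting density -/
theorem D_dl {m s1 s : ℕ} (M : ℤ) :
    |∑ k ∈ KS (s1 + s) m, D m (s1 + s) k (fun _ => True) M - dl m s M| ≤
      ∑ k ∈ KS (s1 + s) m, D m (s1 + s) k (fun r => ¬ m ≤ od s (yy s1 s r : ℤ)) M +
      ∑ k ∈ Finset.range (s1 + s + 1) \ KS (s1 + s) m, D m (s1 + s) k (fun r => m ≤ od s (yy s1 s r : ℤ)) M := by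
  classical
  have hsub : KS (s1 + s) m ⊆ Finset.range (s1 + s + 1) := by unfold KS; exact Finset.filter_subset _ _
  have h1 : ∑ k ∈ KS (s1 + s) m, D m (s1 + s) k (fun _ => True) M =
      ∑ k ∈ KS (s1 + s) m, D m (s1 + s) k (fun r => m ≤ od s (yy s1 s r : ℤ)) M +
      ∑ k ∈ KS (s1 + s) m, D m (s1 + s) k (fun r => ¬ m ≤ od s (yy s1 s r : ℤ)) M := by
    rw [← Finset.sum_add_distrib]
    exact Finset.sum_congr rfl (fun k _ => D_split m (s1 + s) k _ M)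
  have h2 := D_sum m s1 s M
  rw [← Finset.sum_sdiff hsub] at h2
  have h3 : 0 ≤ ∑ k ∈ KS (s1 + s) m, D m (s1 + s) k (fun r => ¬ m ≤ od s (yy s1 s r : ℤ)) M :=
    Finset.sum_nonneg (fun k _ => D_nonneg _ _ _ _ _)
  have h4 : 0 ≤ ∑ k ∈ Finset.range (s1 + s + 1) \ KS (s1 + s) m, D m (s1 + s) k (fun r => m ≤ od s (yy s1 s r : ℤ)) M :=
    Finset.sum_nonneg (fun k _ => D_nonneg _ _ _ _ _)
  rw [h1, ← h2, abs_le]
  constructor <;> linarith

end Pool.Agent.Helper3.TD
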