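import Pool.Agent.Helper3.TD.Gap

/-! Invariant sets of positive integers. -/

namespace Pool.Agent.Helper3.TD

open Pool.Agent.Helper3.ND Filter Topology

/-- the `3x+1` map on naturals -/
def Co (m : ℕ) : ℕ := if m % 2 = 0 then m / 2 else 3 * m + 1

/-- invariant sets of positive integers -/
def CInv (S : Set ℕ) : Prop := ∀ n : ℕ, 1 ≤ n → (n ∈ S ↔ Co n ∈ S)

open Classical in
/-- indicator function -/
noncomputable def psi (S : Set ℕ) (n : ℤ) : ℝ := if 0 < n ∧ n.toNat ∈ S then 1 else 0

theorem T_pos_iff (n : ℤ) : 0 < T n ↔ 0 < n := by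
  rcases par_cases n with h | h
  · have := T_even h
    omega
  · have := T_odd h
    omega

theorem psi_inv {S : Set ℕ} (hS : CInv S) : Inv (psi S) 0 := by
  classical
  refine ⟨fun n => ?_, fun n => ?_, fun n _ => ?_⟩
  · unfold psi; split_ifs <;> norm_num
  · unfold psi; split_ifs <;> norm_num
  · unfold psi
    apply if_congr _ rfl rfl
    rw [T_pos_iff]
    constructor
    · rintro ⟨h1, h2⟩
      refine ⟨h1, ?_⟩
      have hn1 : 1 ≤ n.toNat := by omega
      rcases par_cases n with h | h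
      · have h3 := T_even h
        have h4 : Co n.toNat = (T n).toNat := by
          unfold Co
          rw [if_pos (by omega)]
          omega
        rw [hS _ hn1, h4]
        exact h2
      · have h3 := T_odd h
        have h4 : Co (Co n.toNat) = (T n).toNat := by
          have h5 : Co n.toNat = 3 * n.toNat + 1 := by unfold Co; rw [if_neg (by omega)]
          rw [h5]
          unfold Co
          rw [if_pos (by omega)]
          omega
        have h5 : 1 ≤ Co n.toNat := by unfold Co; split_ifs <;> omega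
        rw [hS _ hn1, hS _ h5, h4]
        exact h2
    · rintro ⟨h1, h2⟩
      refine ⟨h1, ?_⟩
      have hn1 : 1 ≤ n.toNat := by omega
      rcases par_cases n with h | h
      · have h3 := T_even h
        have h4 : Co n.toNat = (T n).toNat := by
          unfold Co
          rw [if_pos (by omega)]
          omega
        rw [← h4, ← hS _ hn1]
        exact h2
      · have h3 := T_odd h
        have h4 : Co (Co n.toNat) = (T n).toNat := by
          have h5 : Co n.toNat = 3 * n.toNat + 1 := by unfold Co; rw [if_neg (by omega)]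
          rw [h5]
          unfold Co
          rw [if_pos (by omega)]
          omega
        have h5 : 1 ≤ Co n.toNat := by unfold Co; split_ifs <;> omega
        rw [← h4, ← hS _ h5, ← hS _ hn1]
        exact h2

/-- counting function -/
noncomputable def pS (S : Set ℕ) (x : ℝ) : ℕ := Nat.card {n : ℕ // 1 ≤ n ∧ (n : ℝ) < x ∧ n ∈ S}

theorem pS_eq (S : Set ℕ) {x : ℝ} {m : ℕ} (h1 : (m : ℝ) < x) (h2 : x ≤ m + 1) : ((pS S x : ℕ) : ℝ) = Nc (psi S) m := by
  classical
  have h3 : Nc (psi S) m = (((Finset.Icc 1 m).filter (fun n => n ∈ S)).card : ℝ) := by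
    unfold Nc psi
    rw [← Finset.sum_filter, Finset.sum_const, nsmul_eq_mul, mul_one]
    congr 1
    symm
    apply Finset.card_bij (fun (n : ℕ) _ => ((n : ℕ) : ℤ))
    · intro n hn
      rw [Finset.mem_filter, Finset.mem_Icc] at hn
      rw [Finset.mem_filter, Finset.mem_Icc]
      refine ⟨⟨by omega, by omega⟩, by omega, ?_⟩
      simpa using hn.2
    · intro a _ b _ hab
      exact_mod_cast hab
    · intro n hn
      rw [Finset.mem_filter, Finset.mem_Icc] at hn
      obtain ⟨⟨a1, a2⟩, a3, a4⟩ := hn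
      refine ⟨n.toNat, ?_, by omega⟩
      rw [Finset.mem_filter, Finset.mem_Icc]
      exact ⟨⟨by omega, by omega⟩, a4⟩
  rw [h3]
  congr 1
  unfold pS
  rw [← Set.ncard_coe_finset]
  show Set.ncard {n : ℕ | 1 ≤ n ∧ (n : ℝ) < x ∧ n ∈ S} = _
  congr 1
  ext n
  simp only [Finset.coe_filter, Finset.mem_Icc, Set.mem_ofPred_eq]
  constructor
  · rintro ⟨b1, b2, b3⟩
    refine ⟨⟨b1, ?_⟩, b3⟩
    have : (n : ℝ) < ((m + 1 : ℕ) : ℝ) := by push_cast; linarith
    have : n < m + 1 := by exact_mod_cast this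
    omega
  · rintro ⟨⟨b1, b2⟩, b3⟩
    refine ⟨b1, ?_, b3⟩
    have : (n : ℝ) ≤ m := by exact_mod_cast b2
    linarith

/-- the natural number just below a real number -/
theorem exists_below {x : ℝ} (hx : 0 < x) : ∃ m : ℕ, (m : ℝ) < x ∧ x ≤ m + 1 ∧ m = ⌈x⌉₊ - 1 := by
  have h1 : 1 ≤ ⌈x⌉₊ := Nat.one_le_ceil_iff.mpr hx
  refine ⟨⌈x⌉₊ - 1, ?_, ?_, rfl⟩
  · apply Nat.lt_ceil.mp; omega
  · have := Nat.le_ceil x
    rw [Nat.cast_sub h1]
    push_cast
    linarith

/-- **existence of the natural density** -/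
theorem pS_dens {S : Set ℕ} (hS : CInv S) : ∃ d : ℝ, Tendsto (fun X : ℕ => Nc (psi S) X / X) atTop (𝓝 d) ∧
    Tendsto (fun x : ℝ => ((pS S x : ℕ) : ℝ) / x) atTop (𝓝 d) := by
  obtain ⟨d, hd⟩ := nat_dens le_rfl (psi_inv hS)
  refine ⟨d, hd, ?_⟩
  have h0 : Tendsto (fun x : ℝ => ⌈x⌉₊ - 1) atTop atTop := by
    have h1 : Tendsto (fun x : ℝ => ⌈x⌉₊) atTop atTop := tendsto_nat_ceil_atTop
    exact (tendsto_sub_atTop_nat 1).comp h1
  have h1 := hd.comp h0
  have h2 : Tendsto (fun x : ℝ => ((⌈x⌉₊ - 1 : ℕ) : ℝ) / x) atTop (𝓝 1) := by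
    have h3 : Tendsto (fun x : ℝ => 1 - 1 / x) atTop (𝓝 (1 - 0)) := by
      apply Tendsto.const_sub
      exact (tendsto_inv_atTop_zero (𝕜 := ℝ)).congr (fun x => (one_div x).symm)
    rw [sub_zero] at h3
    apply tendsto_of_tendsto_of_tendsto_of_le_of_le' h3 tendsto_const_nhds
    · filter_upwards [eventually_gt_atTop 0] with x hx
      obtain ⟨m, hm1, hm2, hm3⟩ := exists_below hx
      rw [← hm3, le_div_iff₀ hx, sub_mul, one_mul, one_div_mul_cancel hx.ne']
      linarith
    · filter_upwards [eventually_gt_atTop 0] with x hx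
      obtain ⟨m, hm1, hm2, hm3⟩ := exists_below hx
      rw [← hm3, div_le_one hx]
      exact hm1.le
  have h3 := h1.mul h2
  rw [mul_one] at h3
  refine h3.congr' ?_
  filter_upwards [eventually_gt_atTop 1] with x hx
  obtain ⟨m, hm1, hm2, hm3⟩ := exists_below (show 0 < x by linarith)
  have hm0 : (m : ℝ) ≠ 0 := by
    have : 0 < (m : ℝ) := by linarith
    exact this.ne'
  simp only [Function.comp]
  rw [← hm3, pS_eq S hm1 hm2]
  field_simp

/-- **gap law** -/
theorem pS_gap : ∃ κ : ℝ, 0 < κ ∧ ∀ B : ℕ, ∃ K : ℝ, 0 < K ∧ ∀ S : Set ℕ, CInv S → ∀ d : ℝ,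
    Tendsto (fun x : ℝ => ((pS S x : ℕ) : ℝ) / x) atTop (𝓝 d) → ∀ x : ℝ, 2 ≤ x →
    ((pS S x : ℕ) : ℝ) ≤ κ * d * x * Real.log x + K * x / Real.log x ^ B := by
  obtain ⟨κ, hκ, H⟩ := gap_Nc
  refine ⟨κ, hκ, ?_⟩
  intro B
  obtain ⟨C, hC, H2⟩ := H B
  refine ⟨C * 2 ^ B + 2 * (Real.log 3) ^ B, by positivity, ?_⟩
  intro S hS d hd x hx
  obtain ⟨d', hd1, hd2⟩ := pS_dens hS
  have hdd : d' = d := tendsto_nhds_unique hd2 hd
  rw [hdd] at hd1
  have hd0 : 0 ≤ d := by
    refine ge_of_tendsto hd ?_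
    filter_upwards [eventually_ge_atTop 0] with x hx
    positivity
  have hlx : 0 < Real.log x := Real.log_pos (by linarith)
  obtain ⟨m, hm1, hm2, _⟩ := exists_below (show 0 < x by linarith)
  rw [pS_eq S hm1 hm2]
  rcases Nat.lt_or_ge m 2 with h | h
  · -- `x ≤ 2`, only `n = 1`
    have hm : m = 1 := by
      have : (1 : ℝ) ≤ m := by linarith
      have : 1 ≤ m := by exact_mod_cast this
      omega
    have hx2 : x = 2 := by rw [hm] at hm2; push_cast at hm2; linarith
    have h1 : Nc (psi S) m ≤ 1 := by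
      rw [hm]
      unfold Nc
      have h2 : Finset.Icc (-((1 : ℕ) : ℤ)) ((1 : ℕ) : ℤ) = {-1, 0, 1} := by decide
      rw [h2, Finset.sum_insert (by decide), Finset.sum_insert (by decide), Finset.sum_singleton]
      have e1 : psi S (-1) = 0 := by unfold psi; rw [if_neg]; rintro ⟨h, _⟩; omega
      have e2 : psi S 0 = 0 := by unfold psi; rw [if_neg]; rintro ⟨h, _⟩; omega
      rw [e1, e2]
      have := (psi_inv hS).le_one 1
      linarith
    have h2 : 0 ≤ κ * d * x * Real.log x := by positivity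
    have h3 : 1 ≤ (C * 2 ^ B + 2 * (Real.log 3) ^ B) * x / Real.log x ^ B := by
      rw [le_div_iff₀ (by positivity), one_mul]
      have h4 : Real.log x ^ B ≤ Real.log 3 ^ B := by
        apply pow_le_pow_left₀ hlx.le
        apply Real.log_le_log (by linarith)
        linarith
      have h5 : 0 ≤ C * 2 ^ B * x := by positivity
      have h6 : 0 ≤ Real.log 3 ^ B := by
        have : 0 < Real.log 3 := Real.log_pos (by norm_num)
        positivity
      nlinarith
    linarith
  · have h1 := H2 m h 0 le_rfl (by norm_num) _ (psi_inv hS) d hd1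
    have hm0 : (2 : ℝ) ≤ m := by exact_mod_cast h
    have hlm : Real.log m ≤ Real.log x := Real.log_le_log (by linarith) hm1.le
    have hlm0 : 0 < Real.log m := Real.log_pos (by linarith)
    have h2 : κ * d * m * Real.log m ≤ κ * d * x * Real.log x := by
      apply mul_le_mul _ hlm hlm0.le (by positivity)
      apply mul_le_mul_of_nonneg_left hm1.le (by positivity)
    have h3 : Real.log x ≤ 2 * Real.log m := by
      have h4 : x ≤ (m : ℝ) ^ 2 := by nlinarith
      have h5 := Real.log_le_log (by linarith) h4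
      rw [Real.log_pow] at h5
      push_cast at h5
      exact h5
    have h4 : C * m / Real.log m ^ B ≤ C * 2 ^ B * x / Real.log x ^ B := by
      rw [div_le_div_iff₀ (by positivity) (by positivity)]
      have h5 : Real.log x ^ B ≤ (2 * Real.log m) ^ B := pow_le_pow_left₀ hlx.le h3 B
      rw [mul_pow] at h5
      calc C * m * Real.log x ^ B ≤ C * x * (2 ^ B * Real.log m ^ B) := by
            apply mul_le_mul _ h5 (by positivity) (by positivity)
            exact mul_le_mul_of_nonneg_left hm1.le hC.le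
        _ = _ := by ring
    have h5 : 0 ≤ 2 * Real.log 3 ^ B * x / Real.log x ^ B := by
      have : 0 < Real.log 3 := Real.log_pos (by norm_num)
      positivity
    have e : (C * 2 ^ B + 2 * Real.log 3 ^ B) * x / Real.log x ^ B = C * 2 ^ B * x / Real.log x ^ B + 2 * Real.log 3 ^ B * x / Real.log x ^ B := by ring
    rw [e]
    linarith

/-- **dichotomy** -/
theorem pS_dichotomy {S : Set ℕ} (hS : CInv S) (h1S : 1 ∈ S) :
    (∃ c : ℝ, 0 < c ∧ ∀ x : ℝ, 2 ≤ x → c * x ≤ ((pS S x : ℕ) : ℝ)) ∨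
    (∀ B : ℕ, ∃ K : ℝ, 0 < K ∧ ∀ x : ℝ, 2 ≤ x → ((pS S x : ℕ) : ℝ) ≤ K * x / Real.log x ^ B) := by
  obtain ⟨d, _, hd⟩ := pS_dens hS
  have hd0 : 0 ≤ d := by
    refine ge_of_tendsto hd ?_
    filter_upwards [eventually_ge_atTop 0] with x hx
    positivity
  rcases eq_or_lt_of_le hd0 with h | h
  · right
    obtain ⟨κ, hκ, H⟩ := pS_gap
    intro B
    obtain ⟨K, hK, H2⟩ := H B
    refine ⟨K, hK, ?_⟩
    intro x hx
    have := H2 S hS d hd x hx
    rw [← h] at this
    simpa using this
  · left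
    have h1 := (tendsto_order.1 hd).1 (d / 2) (by linarith)
    rw [eventually_atTop] at h1
    obtain ⟨x0, hx0⟩ := h1
    obtain ⟨x1, hx1⟩ : ∃ x1, x1 = max x0 2 := ⟨_, rfl⟩
    have hx1' : 2 ≤ x1 := by rw [hx1]; exact le_max_right _ _
    refine ⟨min (d / 2) (1 / x1), by positivity, ?_⟩
    intro x hx
    rcases le_total x1 x with h2 | h2
    · have h3 := hx0 x (le_trans (by rw [hx1]; exact le_max_left _ _) h2)
      rw [lt_div_iff₀ (by linarith)] at h3
      refine le_trans (mul_le_mul_of_nonneg_right (min_le_left _ _) (by linarith)) h3.le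
    · obtain ⟨m, hm1, hm2, _⟩ := exists_below (show 0 < x by linarith)
      have hm : 1 ≤ m := by
        have : (1 : ℝ) ≤ m := by linarith
        exact_mod_cast this
      rw [pS_eq S hm1 hm2]
      have h3 : (1 : ℝ) ≤ Nc (psi S) m := by
        unfold Nc
        have h4 : psi S 1 = 1 := by unfold psi; rw [if_pos]; exact ⟨by norm_num, by simpa using h1S⟩
        rw [← h4]
        apply Finset.single_le_sum (f := psi S) (fun n _ => (psi_inv hS).nonneg n)
        rw [Finset.mem_Icc]
        omega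
      refine le_trans ?_ h3
      refine le_trans (mul_le_mul (min_le_right _ _) h2 (by linarith) (by positivity)) (le_of_eq ?_)
      field_simp

/-- the integers that reach `1` -/
def R1 : Set ℕ := {n : ℕ | ∃ k : ℕ, (fun m : ℕ => if m % 2 = 0 then m / 2 else 3 * m + 1)^[k] n = 1}

theorem R1_inv : CInv R1 := by
  intro n _
  have hCo : (fun m : ℕ => if m % 2 = 0 then m / 2 else 3 * m + 1) = Co := rfl
  unfold R1
  rw [hCo, Set.mem_ofPred_eq, Set.mem_ofPred_eq]
  constructor
  · rintro ⟨k, hk⟩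
    rcases k with _ | k
    · have hn : n = 1 := hk
      rw [hn]
      exact ⟨2, by decide⟩
    · exact ⟨k, by rwa [Function.iterate_succ_apply] at hk⟩
  · rintro ⟨k, hk⟩
    exact ⟨k + 1, by rw [Function.iterate_succ_apply]; exact hk⟩

theorem one_mem_R1 : 1 ∈ R1 := ⟨0, rfl⟩

end Pool.Agent.Helper3.TD
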