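import Pool.Agent.Helper3.TD.Gs1

/-! Natural densities of invariant functions. -/

namespace Pool.Agent.Helper3.TD

open Pool.Agent.Helper3.ND Filter Topology

/-- positive part -/
noncomputable def ramp (x : ℝ) : ℝ := max 0 x

theorem ramp_pos {x : ℝ} (h : 0 ≤ x) : ramp x = x := max_eq_right h

theorem ramp_neg {x : ℝ} (h : x ≤ 0) : ramp x = 0 := max_eq_left h

theorem tent_ramp (x : ℝ) : tent x = ramp (x + 1) - 2 * ramp x + ramp (x - 1) := by
  unfold tent
  rcases le_total x 0 with h0 | h0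
  · rw [abs_of_nonpos h0, ramp_neg h0, ramp_neg (show x - 1 ≤ 0 by linarith)]
    rcases le_total x (-1) with h1 | h1
    · rw [ramp_neg (show x + 1 ≤ 0 by linarith), max_eq_left (by linarith)]; ring
    · rw [ramp_pos (show 0 ≤ x + 1 by linarith), max_eq_right (by linarith)]; ring
  · rw [abs_of_nonneg h0, ramp_pos h0, ramp_pos (show 0 ≤ x + 1 by linarith)]
    rcases le_total x 1 with h1 | h1
    · rw [ramp_neg (show x - 1 ≤ 0 by linarith), max_eq_right (by linarith)]; ring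
    · rw [ramp_pos (show 0 ≤ x - 1 by linarith), max_eq_left (by linarith)]; ring

theorem sum_tent (z : ℝ) (K : ℕ) : ∑ i ∈ Finset.range K, tent (z + i) = ramp (z + K) - ramp (z + K - 1) - ramp z + ramp (z - 1) := by
  induction K with
  | zero => simp
  | succ K ih =>
    rw [Finset.sum_range_succ, ih, tent_ramp]
    push_cast
    rw [show z + (K + 1 : ℝ) = z + K + 1 by ring, show z + (K : ℝ) + 1 - 1 = z + K by ring]
    ring

theorem tents_cover {z : ℝ} {K : ℕ} (h1 : -(K : ℝ) ≤ z) (h2 : z ≤ 0) : ∑ i ∈ Finset.range (K + 1), tent (z + i) = 1 := by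
  rw [sum_tent]
  push_cast
  rw [ramp_pos (show 0 ≤ z + (K + 1) by linarith), ramp_pos (show 0 ≤ z + (K + 1) - 1 by linarith), ramp_neg h2,
    ramp_neg (show z - 1 ≤ 0 by linarith)]
  ring

theorem tents_le (z : ℝ) (K : ℕ) : ∑ i ∈ Finset.range K, tent (z + i) ≤ 1 := by
  rw [sum_tent]
  have h1 : ramp (z + K) ≤ ramp (z + K - 1) + 1 := by
    unfold ramp
    rcases le_total 0 (z + K - 1) with h | h
    · rw [max_eq_right h, max_eq_right (by linarith)]; linarith
    · rw [max_eq_left h]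
      apply max_le <;> linarith
  have h2 : ramp (z - 1) ≤ ramp z := by
    unfold ramp
    exact max_le_max le_rfl (by linarith)
  linarith

/-- weight of the `i`-th window -/
theorem tent_om {b δ : ℝ} {n : ℤ} (hn : n ≠ 0) : tent ((Real.log |(n : ℝ)| - b) / δ) = |(n : ℝ)| * om b δ n := by
  unfold om
  have : 0 < |(n : ℝ)| := abs_pos.mpr (by exact_mod_cast hn)
  field_simp

theorem tent_le_om {b δ : ℝ} (hδ : 0 < δ) {n : ℤ} (hn : n ≠ 0) : tent ((Real.log |(n : ℝ)| - b) / δ) ≤ Real.exp (b + δ) * om b δ n := by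
  rw [tent_om hn]
  by_cases h : om b δ n = 0
  · rw [h, mul_zero, mul_zero]
  · obtain ⟨h1, h2⟩ := om_ne_zero hδ h
    apply mul_le_mul_of_nonneg_right _ (om_nonneg _ _ _)
    rw [abs_lt] at h2
    rw [← Real.log_le_iff_le_exp h1]
    linarith

theorem om_le_tent {b δ : ℝ} (hδ : 0 < δ) (n : ℤ) : Real.exp (b - δ) * om b δ n ≤ tent ((Real.log |(n : ℝ)| - b) / δ) := by
  by_cases hn : n = 0
  · have : om b δ n = 0 := by unfold om; rw [hn]; simp
    rw [this, mul_zero]
    exact tent_nonneg _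
  · rw [tent_om hn]
    by_cases h : om b δ n = 0
    · rw [h, mul_zero, mul_zero]
    · obtain ⟨h1, h2⟩ := om_ne_zero hδ h
      apply mul_le_mul_of_nonneg_right _ (om_nonneg _ _ _)
      rw [abs_lt] at h2
      rw [← Real.le_log_iff_exp_le h1]
      linarith

theorem SS_le_Gs {Φ : ℤ → ℝ} (hΦ0 : ∀ N, 0 ≤ Φ N) {W : ℝ} (hW : 0 < W) (a : ℝ) (X : ℤ) : SS Φ X a W ≤ Gs Φ W a := by
  obtain ⟨X', hX'⟩ : ∃ X' : ℤ, X' = max X ⌈Real.exp (a + W)⌉ := ⟨_, rfl⟩
  have h1 : Real.exp (a + W) ≤ X' := by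
    refine le_trans (Int.le_ceil _) ?_
    rw [hX']
    exact_mod_cast le_max_right _ _
  rw [← Gs_eq Φ hW h1]
  unfold SS
  apply Finset.sum_le_sum_of_subset_of_nonneg
  · have : X ≤ X' := by rw [hX']; exact le_max_left _ _
    exact Finset.Icc_subset_Icc (by omega) this
  · intro N _ _
    exact mul_nonneg (hΦ0 N) (om_nonneg _ _ _)

/-- counting function -/
noncomputable def Nc (Φ : ℤ → ℝ) (X : ℕ) : ℝ := ∑ n ∈ Finset.Icc (-(X : ℤ)) X, Φ n

theorem card_small (X : ℕ) {x : ℝ} (hx : 0 ≤ x) : (((Finset.Icc (-(X : ℤ)) X).filter (fun n : ℤ => |(n : ℝ)| ≤ x)).card : ℝ) ≤ 2 * x + 1 := by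
  classical
  have h1 : (Finset.Icc (-(X : ℤ)) X).filter (fun n : ℤ => |(n : ℝ)| ≤ x) ⊆ Finset.Icc (-(⌊x⌋₊ : ℤ)) ⌊x⌋₊ := by
    intro n hn
    rw [Finset.mem_filter] at hn
    rw [Finset.mem_Icc, ← abs_le]
    have h2 : ((n.natAbs : ℕ) : ℝ) ≤ x := by
      have : ((n.natAbs : ℕ) : ℝ) = |(n : ℝ)| := by rw [Nat.cast_natAbs]; push_cast; rfl
      rw [this]; exact hn.2
    have h3 := Nat.le_floor h2
    rw [Int.abs_eq_natAbs]
    exact_mod_cast h3
  have h2 := Finset.card_le_card h1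
  have h3 : (Finset.Icc (-(⌊x⌋₊ : ℤ)) ⌊x⌋₊).card = 2 * ⌊x⌋₊ + 1 := by
    rw [Int.card_Icc]; omega
  rw [h3] at h2
  have h4 := Nat.floor_le hx
  calc (((Finset.Icc (-(X : ℤ)) X).filter (fun n : ℤ => |(n : ℝ)| ≤ x)).card : ℝ) ≤ ((2 * ⌊x⌋₊ + 1 : ℕ) : ℝ) := by exact_mod_cast h2
    _ ≤ _ := by push_cast; linarith

/-- upper bound for the counting function -/
theorem Nc_upper {Φ : ℤ → ℝ} (hΦ0 : ∀ N, 0 ≤ Φ N) (hΦ1 : ∀ N, Φ N ≤ 1) {δ : ℝ} (hδ : 0 < δ) (K : ℕ) {X : ℕ} (hX : 1 ≤ X) :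
    Nc Φ X ≤ X * ∑ i ∈ Finset.range (K + 1), Real.exp (-(i * δ) + δ) * Gs Φ δ (Real.log X - i * δ) + (2 * (X * Real.exp (-(K * δ))) + 1) := by
  classical
  have hXr : (1 : ℝ) ≤ X := by exact_mod_cast hX
  have hX0 : (0 : ℝ) < X := by linarith
  have h1 : ∀ n ∈ Finset.Icc (-(X : ℤ)) X, Φ n ≤ ∑ i ∈ Finset.range (K + 1), Real.exp (Real.log X - i * δ + δ) * (Φ n * om (Real.log X - i * δ) δ n) +
      (if |(n : ℝ)| ≤ X * Real.exp (-(K * δ)) then 1 else 0) := by
    intro n hn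
    have hs : 0 ≤ ∑ i ∈ Finset.range (K + 1), Real.exp (Real.log X - i * δ + δ) * (Φ n * om (Real.log X - i * δ) δ n) :=
      Finset.sum_nonneg (fun i _ => mul_nonneg (Real.exp_pos _).le (mul_nonneg (hΦ0 n) (om_nonneg _ _ _)))
    by_cases h2 : |(n : ℝ)| ≤ X * Real.exp (-(K * δ))
    · rw [if_pos h2]
      linarith [hΦ1 n]
    · rw [if_neg h2, add_zero]
      rw [not_le] at h2
      have hpos : 0 < |(n : ℝ)| := lt_trans (by positivity) h2
      have hn0 : n ≠ 0 := by rintro rfl; simp at hpos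
      rw [Finset.mem_Icc, ← abs_le] at hn
      have hnX : |(n : ℝ)| ≤ X := by exact_mod_cast hn
      obtain ⟨z, hz⟩ : ∃ z, z = (Real.log |(n : ℝ)| - Real.log X) / δ := ⟨_, rfl⟩
      have hz1 : z ≤ 0 := by
        rw [hz]
        apply div_nonpos_of_nonpos_of_nonneg _ hδ.le
        linarith [Real.log_le_log hpos hnX]
      have hz2 : -(K : ℝ) ≤ z := by
        rw [hz, le_div_iff₀ hδ]
        have := Real.log_le_log (by positivity) h2.le
        rw [Real.log_mul hX0.ne' (Real.exp_pos _).ne', Real.log_exp] at this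
        linarith
      have h3 := tents_cover hz2 hz1
      calc Φ n = Φ n * ∑ i ∈ Finset.range (K + 1), tent (z + i) := by rw [h3, mul_one]
        _ = ∑ i ∈ Finset.range (K + 1), Φ n * tent (z + i) := Finset.mul_sum _ _ _
        _ ≤ _ := by
            apply Finset.sum_le_sum
            intro i _
            have e : z + i = (Real.log |(n : ℝ)| - (Real.log X - i * δ)) / δ := by rw [hz]; field_simp; ring
            rw [e]
            have h4 := mul_le_mul_of_nonneg_left (tent_le_om (b := Real.log X - i * δ) hδ hn0) (hΦ0 n)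
            linarith
  unfold Nc
  refine le_trans (Finset.sum_le_sum h1) ?_
  rw [Finset.sum_add_distrib]
  apply add_le_add
  · rw [Finset.sum_comm, Finset.mul_sum]
    apply Finset.sum_le_sum
    intro i _
    rw [← Finset.mul_sum]
    have h2 := SS_le_Gs hΦ0 hδ (Real.log X - i * δ) X
    unfold SS at h2
    have h3 : Real.exp (Real.log X - i * δ + δ) = X * Real.exp (-(i * δ) + δ) := by
      rw [show Real.log X - i * δ + δ = Real.log X + (-(i * δ) + δ) by ring, Real.exp_add, Real.exp_log hX0]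
    rw [h3, ← mul_assoc]
    exact mul_le_mul_of_nonneg_left h2 (by positivity)
  · rw [← Finset.sum_filter, Finset.sum_const, nsmul_eq_mul, mul_one]
    exact card_small X (by positivity)

/-- lower bound for the counting function -/
theorem Nc_lower {Φ : ℤ → ℝ} (hΦ0 : ∀ N, 0 ≤ Φ N) {δ : ℝ} (hδ : 0 < δ) (K : ℕ) {X : ℕ} (hX : 1 ≤ X) :
    X * ∑ i ∈ Finset.range K, Real.exp (-((i + 1) * δ) - δ) * Gs Φ δ (Real.log X - (i + 1) * δ) ≤ Nc Φ X := by
  classical
  have hXr : (1 : ℝ) ≤ X := by exact_mod_cast hX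
  have hX0 : (0 : ℝ) < X := by linarith
  have h1 : ∀ n ∈ Finset.Icc (-(X : ℤ)) X, ∑ i ∈ Finset.range K, Real.exp (Real.log X - (i + 1) * δ - δ) * (Φ n * om (Real.log X - (i + 1) * δ) δ n) ≤ Φ n := by
    intro n _
    obtain ⟨z, hz⟩ : ∃ z, z = (Real.log |(n : ℝ)| - Real.log X) / δ + 1 := ⟨_, rfl⟩
    have h3 := tents_le z K
    calc ∑ i ∈ Finset.range K, Real.exp (Real.log X - (i + 1) * δ - δ) * (Φ n * om (Real.log X - (i + 1) * δ) δ n)
        ≤ ∑ i ∈ Finset.range K, Φ n * tent (z + i) := by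
          apply Finset.sum_le_sum
          intro i _
          have e : z + i = (Real.log |(n : ℝ)| - (Real.log X - (i + 1) * δ)) / δ := by rw [hz]; field_simp; ring
          rw [e]
          have h4 := mul_le_mul_of_nonneg_left (om_le_tent (b := Real.log X - (i + 1) * δ) hδ n) (hΦ0 n)
          linarith
      _ = Φ n * ∑ i ∈ Finset.range K, tent (z + i) := (Finset.mul_sum _ _ _).symm
      _ ≤ Φ n * 1 := mul_le_mul_of_nonneg_left h3 (hΦ0 n)
      _ = Φ n := mul_one _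
  unfold Nc
  refine le_trans (le_of_eq ?_) (Finset.sum_le_sum h1)
  rw [Finset.sum_comm, Finset.mul_sum]
  apply Finset.sum_congr rfl
  intro i _
  rw [← Finset.mul_sum]
  have h2 : Real.exp (Real.log X - (i + 1) * δ + δ) ≤ ((X : ℤ) : ℝ) := by
    have : Real.exp (Real.log X - (i + 1) * δ + δ) ≤ Real.exp (Real.log X) := by
      apply Real.exp_le_exp.mpr
      have : (0 : ℝ) ≤ i * δ := by positivity
      linarith
    rw [Real.exp_log hX0] at this
    exact_mod_cast this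
  rw [← Gs_eq Φ hδ h2]
  unfold SS
  have h3 : Real.exp (Real.log X - (i + 1) * δ - δ) = X * Real.exp (-((i + 1) * δ) - δ) := by
    rw [show Real.log X - (i + 1) * δ - δ = Real.log X + (-((i + 1) * δ) - δ) by ring, Real.exp_add, Real.exp_log hX0]
  rw [h3, ← mul_assoc]

end Pool.Agent.Helper3.TD
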