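import Pool.Agent.Helper3.TD.Dens

/-! The natural density theorem for the Syracuse map. -/

namespace Pool.Agent.Helper3.TD

open Pool.Agent.Helper3.ND

theorem syr_bad {N : ℤ} (ho : Odd N) {Y : ℝ} (h : ∀ k : ℕ, Y < |((syr^[k] N : ℤ) : ℝ)|) : bad Y N := by
  intro t
  obtain ⟨k, hk, i, h3, _⟩ := T_iter_syr ho t
  have h4 := h k
  rw [h3]
  push_cast
  rw [abs_mul]
  have h5 : (1 : ℝ) ≤ |(2 : ℝ) ^ i| := by
    rw [abs_of_pos (by positivity)]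
    exact one_le_pow₀ (by norm_num)
  have h6 : 0 ≤ |((syr^[k] N : ℤ) : ℝ)| := abs_nonneg _
  nlinarith

/-- sets of odd integers whose Syracuse orbits stay above `Y` -/
theorem dens_syr : ∃ C : ℝ, 0 < C ∧ ∀ Y : ℝ, 2 ≤ Y → ∀ x : ℝ, 0 < x → ∀ S : Set ℤ,
    (∀ N ∈ S, Odd N ∧ |(N : ℝ)| ≤ x ∧ ∀ k : ℕ, Y < |((syr^[k] N : ℤ) : ℝ)|) →
    (S.ncard : ℝ) ≤ C * x * Real.log Y ^ (-(2 / 5) : ℝ) := by
  obtain ⟨C, hC, H⟩ := dens
  refine ⟨C, hC, fun Y hY x hx S hS => le_trans ?_ (H Y hY x hx)⟩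
  unfold cnt
  have hsub : S ⊆ {N : ℤ | |(N : ℝ)| ≤ x ∧ bad Y N} := by
    intro N hN
    obtain ⟨ho, h1, h2⟩ := hS N hN
    exact ⟨h1, syr_bad ho h2⟩
  exact_mod_cast Set.ncard_le_ncard hsub (fin_abs x _)

/-- the qualitative form: any function tending to infinity -/
theorem dens_tendsto {C : ℝ} (P : ℝ → ℤ → Prop) (hP : ∀ Y Y' : ℝ, Y ≤ Y' → ∀ N, P Y' N → P Y N)
    (H : ∀ Y : ℝ, 2 ≤ Y → ∀ x : ℝ, 0 < x → ({N : ℤ | N < 0 ∧ -x ≤ (N : ℝ) ∧ P Y N}.ncard : ℝ) ≤ C * x * Real.log Y ^ (-(2 / 5) : ℝ))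
    (f : ℤ → ℝ) (hf : Filter.Tendsto (fun n : ℕ => f (-(n : ℤ))) Filter.atTop Filter.atTop) :
    Filter.Tendsto (fun n : ℕ => ({N : ℤ | N < 0 ∧ -(n : ℤ) ≤ N ∧ P (f N) N}.ncard : ℝ) / n) Filter.atTop (nhds 0) := by
  rw [Metric.tendsto_atTop]
  intro ε hε
  -- choose the threshold
  have h1 : Filter.Tendsto (fun Y : ℝ => C * Real.log Y ^ (-(2 / 5) : ℝ)) Filter.atTop (nhds (C * 0)) := by
    apply Filter.Tendsto.const_mul
    exact (tendsto_rpow_neg_atTop (show (0 : ℝ) < 2 / 5 by norm_num)).comp Real.tendsto_log_atTop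
  rw [mul_zero] at h1
  have h2 := (h1.eventually (gt_mem_nhds (show 0 < ε / 2 by positivity))).and (Filter.eventually_ge_atTop (2 : ℝ))
  obtain ⟨Y, hY1, hY2⟩ := h2.exists
  obtain ⟨M, hM⟩ := Filter.eventually_atTop.mp (hf.eventually_ge_atTop Y)
  obtain ⟨n0, hn0⟩ := exists_nat_gt (2 * (M : ℝ) / ε)
  refine ⟨max n0 1, fun n hn => ?_⟩
  have hn1 : 1 ≤ n := le_trans (le_max_right _ _) hn
  have hn2 : n0 ≤ n := le_trans (le_max_left _ _) hn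
  have hnr : (0 : ℝ) < n := by exact_mod_cast hn1
  have hnn0 : (n0 : ℝ) ≤ n := by exact_mod_cast hn2
  rw [Real.dist_eq, sub_zero, abs_of_nonneg (by positivity), div_lt_iff₀ hnr]
  have hsub : {N : ℤ | N < 0 ∧ -(n : ℤ) ≤ N ∧ P (f N) N} ⊆
      {N : ℤ | N < 0 ∧ -(n : ℝ) ≤ (N : ℝ) ∧ P Y N} ∪ ((Finset.Ico (-(M : ℤ)) 0 : Finset ℤ) : Set ℤ) := by
    rintro N ⟨a1, a2, a3⟩
    by_cases h3 : -(M : ℤ) ≤ N
    · right
      rw [Finset.mem_coe, Finset.mem_Ico]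
      exact ⟨h3, a1⟩
    · left
      refine ⟨a1, ?_, ?_⟩
      · exact_mod_cast a2
      · apply hP Y (f N) _ N a3
        have h4 := hM (-N).toNat (by omega)
        have e : -(((-N).toNat : ℕ) : ℤ) = N := by
          rw [Int.toNat_of_nonneg (by omega)]; ring
        rwa [e] at h4
  have hfin : {N : ℤ | N < 0 ∧ -(n : ℝ) ≤ (N : ℝ) ∧ P Y N}.Finite := by
    apply Set.Finite.subset (Set.finite_Ico (-(n : ℤ)) 0)
    rintro N ⟨a1, a2, _⟩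
    exact ⟨by exact_mod_cast a2, a1⟩
  have h3 := Set.ncard_le_ncard hsub (hfin.union (Finset.finite_toSet _))
  have h4 := Set.ncard_union_le {N : ℤ | N < 0 ∧ -(n : ℝ) ≤ (N : ℝ) ∧ P Y N} ((Finset.Ico (-(M : ℤ)) 0 : Finset ℤ) : Set ℤ)
  rw [Set.ncard_coe_finset, Int.card_Ico] at h4
  have h5 : (({N : ℤ | N < 0 ∧ -(n : ℤ) ≤ N ∧ P (f N) N}.ncard : ℕ) : ℝ) ≤
      (({N : ℤ | N < 0 ∧ -(n : ℝ) ≤ (N : ℝ) ∧ P Y N}.ncard : ℕ) : ℝ) + M := by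
    have h6 : ((0 - -(M : ℤ)).toNat) = M := by omega
    rw [h6] at h4
    exact_mod_cast le_trans h3 h4
  have h6 := H Y hY2 n hnr
  have h7 : (M : ℝ) < ε / 2 * n := by
    rw [div_lt_iff₀ hε] at hn0
    nlinarith
  have h8 : C * n * Real.log Y ^ (-(2 / 5) : ℝ) < ε / 2 * n := by
    have := mul_lt_mul_of_pos_right hY1 hnr
    linarith
  linarith

end Pool.Agent.Helper3.TD
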