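import Pool.Agent.Helper3.TD.PropK
import Pool.Agent.Helper3.TD.NatE
import Pool.Agent.Helper3.TD.Syr

/-! The natural density theorem with an arbitrary power of the logarithm and a bounded number of steps. -/

namespace Pool.Agent.Helper3.TD

open Pool.Agent.Helper3.ND

/-- the orbit stays above `Y` during the first `j` steps -/
def badJ (Y : ℝ) (j : ℕ) (N : ℤ) : Prop := ∀ i : ℕ, i ≤ j → Y < |((T^[i] N : ℤ) : ℝ)|

open Classical in
noncomputable def PhiJ (Y : ℝ) (j : ℕ) (N : ℤ) : ℝ := if badJ Y j N then 1 else 0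

theorem PhiJ_fam (Y : ℝ) : Fam (PhiJ Y) Y := by
  classical
  refine ⟨?_, ?_, ?_⟩
  · intro j N; unfold PhiJ; split_ifs <;> norm_num
  · intro j N; unfold PhiJ; split_ifs <;> norm_num
  · intro j N hN
    unfold PhiJ
    have : badJ Y j (T N) ↔ badJ Y (j + 1) N := by
      unfold badJ
      constructor
      · intro h i hi
        rcases i with _ | i
        · simpa using hN
        · rw [Function.iterate_succ_apply]; exact h i (by omega)
      · intro h i hi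
        have := h (i + 1) (by omega)
        rwa [Function.iterate_succ_apply] at this
    exact if_congr this rfl rfl

/-- the counting function of the exceptional set -/
noncomputable def cntL (Y x : ℝ) : ℝ := ({N : ℤ | |(N : ℝ)| ≤ x ∧ ∀ t : ℕ, (t : ℝ) ≤ 1000 * Real.log x → Y < |((T^[t] N : ℤ) : ℝ)|}.ncard : ℝ)

theorem cntL_le_main (x Y : ℝ) (hx : 2 ≤ x) (hY : 1 ≤ Y) :
    cntL Y x ≤ 4 * 10 ^ 10 * x * Real.log x ^ 2 * Y ^ (-(1 / 22) : ℝ) := by
  refine le_trans ?_ (main x Y hx hY)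
  unfold cntL
  have hl : 0 ≤ Real.log x := Real.log_nonneg (by linarith)
  have : {N : ℤ | |(N : ℝ)| ≤ x ∧ ∀ t : ℕ, (t : ℝ) ≤ 1000 * Real.log x → Y < |((T^[t] N : ℤ) : ℝ)|} ⊆
      {N : ℤ | |(N : ℝ)| ≤ x ∧ ∀ t : ℕ, (t : ℝ) ≤ 600 * Real.log x → Y < |((T^[t] N : ℤ) : ℝ)|} := by
    rintro N ⟨h1, h2⟩
    exact ⟨h1, fun t ht => h2 t (by linarith)⟩
  exact_mod_cast Set.ncard_le_ncard this (fin_abs x _)

open Classical in
theorem sum_PhiJ_le {Y x : ℝ} {j : ℕ} (hx : 2 ≤ x) (hY : 1 ≤ Y) (hj : 600 * Real.log x ≤ j) (X : ℤ) :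
    ∑ N ∈ Finset.Icc (-X) X, (if |(N : ℝ)| ≤ x then PhiJ Y j N else 0) ≤ 4 * 10 ^ 10 * x * Real.log x ^ 2 * Y ^ (-(1 / 22) : ℝ) := by
  refine le_trans ?_ (main x Y hx hY)
  have e : ∀ N ∈ Finset.Icc (-X) X, (if |(N : ℝ)| ≤ x then PhiJ Y j N else 0) = if |(N : ℝ)| ≤ x ∧ badJ Y j N then (1 : ℝ) else 0 := by
    intro N _
    unfold PhiJ
    by_cases h1 : |(N : ℝ)| ≤ x
    · by_cases h2 : badJ Y j N
      · rw [if_pos h1, if_pos h2, if_pos ⟨h1, h2⟩]
      · rw [if_pos h1, if_neg h2, if_neg (fun h => h2 h.2)]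
    · rw [if_neg h1, if_neg (fun h => h1 h.1)]
  rw [Finset.sum_congr rfl e, ← Finset.sum_filter, Finset.sum_const, nsmul_eq_mul, mul_one]
  have h1 : (((Finset.Icc (-X) X).filter (fun N : ℤ => |(N : ℝ)| ≤ x ∧ badJ Y j N) : Finset ℤ) : Set ℤ) ⊆
      {N : ℤ | |(N : ℝ)| ≤ x ∧ ∀ t : ℕ, (t : ℝ) ≤ 600 * Real.log x → Y < |((T^[t] N : ℤ) : ℝ)|} := by
    intro N hN
    rw [Finset.mem_coe, Finset.mem_filter] at hN
    refine ⟨hN.2.1, fun t ht => hN.2.2 t ?_⟩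
    have : (t : ℝ) ≤ j := le_trans ht hj
    exact_mod_cast this
  have h2 := Set.ncard_le_ncard h1 (fin_abs x _)
  rw [Set.ncard_coe_finset] at h2
  exact_mod_cast h2

/-- the initial scale -/
theorem base_boundK {Y : ℝ} (hY : 1 ≤ Y) {b : ℝ} (hb : 3 ≤ b) {j : ℕ} (hj : 900 * b ≤ j) :
    Gs (PhiJ Y j) 1 b ≤ 4 * 10 ^ 11 * (b + 1) ^ 2 * Y ^ (-(1 / 22) : ℝ) := by
  classical
  have h0 := (PhiJ_fam Y).nonneg j
  have hx : 2 ≤ Real.exp (b + 1) := by
    have := Real.add_one_le_exp (b + 1)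
    linarith
  have h1 := sum_PhiJ_le (j := j) hx hY (by rw [Real.log_exp]; linarith) ⌈Real.exp (b + 1)⌉
  rw [Real.log_exp] at h1
  have h2 : Gs (PhiJ Y j) 1 b ≤ Real.exp (1 - b) * ∑ N ∈ Finset.Icc (-⌈Real.exp (b + 1)⌉) ⌈Real.exp (b + 1)⌉,
      (if |(N : ℝ)| ≤ Real.exp (b + 1) then PhiJ Y j N else 0) := by
    unfold Gs SS
    rw [Finset.mul_sum]
    apply Finset.sum_le_sum
    intro N _
    by_cases h3 : om b 1 N = 0
    · rw [h3, mul_zero]
      apply mul_nonneg (Real.exp_pos _).le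
      split_ifs
      · exact h0 N
      · exact le_rfl
    · obtain ⟨h4, h5⟩ := om_ne_zero (by norm_num) h3
      rw [abs_lt] at h5
      have h6 : |(N : ℝ)| ≤ Real.exp (b + 1) := by
        rw [← Real.log_le_iff_le_exp h4]; linarith
      rw [if_pos h6, mul_comm]
      apply mul_le_mul_of_nonneg_right _ (h0 N)
      refine le_trans (om_le b 1 N) ?_
      have h7 : Real.exp (b - 1) ≤ |(N : ℝ)| := by
        rw [← Real.le_log_iff_exp_le h4]; linarith
      calc 1 / |(N : ℝ)| ≤ 1 / Real.exp (b - 1) := one_div_le_one_div_of_le (Real.exp_pos _) h7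
        _ = Real.exp (1 - b) := by rw [one_div, ← Real.exp_neg]; congr 1; ring
  refine le_trans h2 (le_trans (mul_le_mul_of_nonneg_left h1 (Real.exp_pos _).le) ?_)
  have h3 : Real.exp (1 - b) * Real.exp (b + 1) ≤ 10 := by
    rw [← Real.exp_add, show 1 - b + (b + 1) = 2 by ring]
    have h4 := Real.exp_one_lt_d9
    have h5 : Real.exp 2 = Real.exp 1 * Real.exp 1 := by rw [← Real.exp_add]; norm_num
    rw [h5]
    nlinarith [Real.exp_pos 1]
  have hYp : 0 < Y ^ (-(1 / 22) : ℝ) := Real.rpow_pos_of_pos (by linarith) _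
  calc Real.exp (1 - b) * (4 * 10 ^ 10 * Real.exp (b + 1) * (b + 1) ^ 2 * Y ^ (-(1 / 22) : ℝ)) =
      (Real.exp (1 - b) * Real.exp (b + 1)) * (4 * 10 ^ 10 * (b + 1) ^ 2 * Y ^ (-(1 / 22) : ℝ)) := by ring
    _ ≤ 10 * (4 * 10 ^ 10 * (b + 1) ^ 2 * Y ^ (-(1 / 22) : ℝ)) := by gcongr
    _ = _ := by ring

theorem cntL_le_Nc {Y x : ℝ} (hx : 1 ≤ x) : cntL Y x ≤ Nc (PhiJ Y ⌊1000 * Real.log x⌋₊) ⌊x⌋₊ := by
  classical
  have hl : 0 ≤ Real.log x := Real.log_nonneg hx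
  unfold cntL Nc PhiJ
  rw [← Finset.sum_filter, Finset.sum_const, nsmul_eq_mul, mul_one]
  have h1 : {N : ℤ | |(N : ℝ)| ≤ x ∧ ∀ t : ℕ, (t : ℝ) ≤ 1000 * Real.log x → Y < |((T^[t] N : ℤ) : ℝ)|} ⊆
      (((Finset.Icc (-(⌊x⌋₊ : ℤ)) ⌊x⌋₊).filter (fun N : ℤ => badJ Y ⌊1000 * Real.log x⌋₊ N) : Finset ℤ) : Set ℤ) := by
    rintro N ⟨h1, h2⟩
    rw [Finset.mem_coe, Finset.mem_filter, Finset.mem_Icc, ← abs_le]
    constructor
    · have h3 : ((N.natAbs : ℕ) : ℝ) ≤ x := by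
        have : ((N.natAbs : ℕ) : ℝ) = |(N : ℝ)| := by rw [Nat.cast_natAbs]; push_cast; rfl
        rw [this]; exact h1
      have h4 := Nat.le_floor h3
      rw [Int.abs_eq_natAbs]
      exact_mod_cast h4
    · intro i hi
      apply h2
      refine le_trans ?_ (Nat.floor_le (by positivity))
      exact_mod_cast hi
  have h2 := Set.ncard_le_ncard h1 (Finset.finite_toSet _)
  rw [Set.ncard_coe_finset] at h2
  exact_mod_cast h2

theorem cntL_trivial {Y x : ℝ} (hx : 1 ≤ x) : cntL Y x ≤ 3 * x := by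
  have hsub : cntL Y x ≤ ({N : ℤ | |(N : ℝ)| ≤ x ∧ Y < |(N : ℝ)|}.ncard : ℝ) := by
    unfold cntL
    have : {N : ℤ | |(N : ℝ)| ≤ x ∧ ∀ t : ℕ, (t : ℝ) ≤ 1000 * Real.log x → Y < |((T^[t] N : ℤ) : ℝ)|} ⊆
        {N : ℤ | |(N : ℝ)| ≤ x ∧ Y < |(N : ℝ)|} := by
      rintro N ⟨h1, h2⟩
      refine ⟨h1, ?_⟩
      have := h2 0 (by
        have : 0 ≤ Real.log x := Real.log_nonneg hx
        push_cast; positivity)
      simpa using this
    exact_mod_cast Set.ncard_le_ncard this (fin_abs x _)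
  refine le_trans hsub ?_
  have h4 : {N : ℤ | |(N : ℝ)| ≤ x ∧ Y < |(N : ℝ)|} ⊆ ((Finset.Icc (-⌊x⌋) ⌊x⌋ : Finset ℤ) : Set ℤ) := by
    rintro N ⟨h5, _⟩
    rw [Finset.mem_coe, Finset.mem_Icc]
    rw [abs_le] at h5
    refine ⟨?_, Int.le_floor.mpr h5.2⟩
    rw [neg_le]
    apply Int.le_floor.mpr
    push_cast
    linarith
  have h5 := Set.ncard_le_ncard h4 (Finset.finite_toSet _)
  rw [Set.ncard_coe_finset, Int.card_Icc] at h5
  have h6 : 0 ≤ ⌊x⌋ := Int.floor_nonneg.mpr (by linarith)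
  have h7 : (((⌊x⌋ + 1 - -⌊x⌋).toNat : ℕ) : ℝ) = 2 * (⌊x⌋ : ℝ) + 1 := by
    have : (((⌊x⌋ + 1 - -⌊x⌋).toNat : ℕ) : ℤ) = 2 * ⌊x⌋ + 1 := by
      rw [Int.toNat_of_nonneg (by linarith)]; ring
    exact_mod_cast this
  have h8 := Int.floor_le x
  have h9 : (({N : ℤ | |(N : ℝ)| ≤ x ∧ Y < |(N : ℝ)|}.ncard : ℕ) : ℝ) ≤ 2 * (⌊x⌋ : ℝ) + 1 := by
    rw [← h7]; exact_mod_cast h5
  linarith

theorem cntL_small {Y x : ℝ} (hY : x ≤ Y) (hx : 1 ≤ x) : cntL Y x = 0 := by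
  unfold cntL
  have : {N : ℤ | |(N : ℝ)| ≤ x ∧ ∀ t : ℕ, (t : ℝ) ≤ 1000 * Real.log x → Y < |((T^[t] N : ℤ) : ℝ)|} = ∅ := by
    rw [Set.eq_empty_iff_forall_notMem]
    rintro N ⟨h1, h2⟩
    have := h2 0 (by
      have : 0 ≤ Real.log x := Real.log_nonneg hx
      push_cast; positivity)
    simp only [Function.iterate_zero, id_eq] at this
    linarith
  rw [this, Set.ncard_empty, Nat.cast_zero]

/-- the main case: `Y` large -/
theorem densK_large (q : ℕ) : ∃ C : ℝ, 0 < C ∧ ∃ y0 : ℝ, 10 ^ 5 ≤ y0 ∧ ∀ Y : ℝ, 2 ≤ Y → y0 ≤ Real.log Y → ∀ x : ℝ, 1 ≤ x →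
    cntL Y x ≤ C * x / Real.log Y ^ q := by
  obtain ⟨C1, hC1, A0, hA0, H⟩ := prop_all q
  obtain ⟨F, hF, hF0⟩ : ∃ F : ℝ, F = (Nat.factorial (q + 2) : ℝ) * 22 ^ (q + 2) ∧ 0 < F := ⟨_, rfl, by positivity⟩
  obtain ⟨K1, hK1, hK10⟩ : ∃ K1 : ℝ, K1 = 4 * 10 ^ 11 * 20 ^ 2 * F ∧ 0 < K1 := ⟨_, rfl, by positivity⟩
  obtain ⟨F1, hF1, hF10⟩ : ∃ F1 : ℝ, F1 = (Nat.factorial q : ℝ) ∧ 0 < F1 := ⟨_, rfl, by positivity⟩
  refine ⟨6 * (K1 + C1) + 7 * F1 + K1, by positivity, A0, by linarith, ?_⟩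
  intro Y hY hy x hx
  obtain ⟨y, hydef⟩ : ∃ y, y = Real.log Y := ⟨_, rfl⟩
  rw [← hydef] at hy ⊢
  have hy5 : (10 ^ 5 : ℝ) ≤ y := by linarith
  have hypos : 0 < y := by linarith
  have hYpos : 0 < Y := by linarith
  obtain ⟨I, hI⟩ : ∃ I : ℝ, I = 1 / y ^ q := ⟨_, rfl⟩
  have hI0 : 0 < I := by rw [hI]; positivity
  have hgoal : (6 * (K1 + C1) + 7 * F1 + K1) * x / y ^ q = (6 * (K1 + C1) + 7 * F1 + K1) * I * x := by rw [hI]; ring
  rw [hgoal]
  have hY22 : Y ^ (-(1 / 22) : ℝ) = Real.exp (-(y / 22)) := by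
    rw [Real.rpow_def_of_pos hYpos, ← hydef]
    congr 1; ring
  have hexp : (20 * y) ^ 2 * Real.exp (-(y / 22)) ≤ 20 ^ 2 * F * I := by
    have h1 := exp_neg_powK (q + 2) (show 0 < y / 22 by positivity)
    calc (20 * y) ^ 2 * Real.exp (-(y / 22)) ≤ (20 * y) ^ 2 * ((Nat.factorial (q + 2) : ℝ) / (y / 22) ^ (q + 2)) := by gcongr
      _ = 20 ^ 2 * F * I := by rw [hF, hI, div_pow, pow_add y]; field_simp
  obtain ⟨N0, hN0⟩ : ∃ N0, N0 = ⌈8 * y⌉₊ := ⟨_, rfl⟩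
  have hN1 : 8 * y ≤ N0 := by rw [hN0]; exact Nat.le_ceil _
  have hN2 : (N0 : ℝ) < 8 * y + 1 := by rw [hN0]; exact Nat.ceil_lt_add_one (by positivity)
  have hYexp : Y ≤ Real.exp ((N0 : ℝ) / 8) := by
    rw [← Real.log_le_iff_le_exp hYpos, ← hydef]; linarith
  -- narrow windows
  have hnar := H N0 (by linarith) Y hYpos.le hYexp (PhiJ Y) (PhiJ_fam Y) (K1 * I) (by positivity) (by
    intro b hb1 hb2 j hj
    refine le_trans (base_boundK (by linarith) (by linarith) hj) ?_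
    rw [hY22]
    calc 4 * 10 ^ 11 * (b + 1) ^ 2 * Real.exp (-(y / 22)) ≤ 4 * 10 ^ 11 * ((20 * y) ^ 2 * Real.exp (-(y / 22))) := by
          rw [mul_assoc]
          have : (b + 1) ^ 2 ≤ (20 * y) ^ 2 := pow_le_pow_left₀ (by linarith) (by linarith) 2
          gcongr
      _ ≤ 4 * 10 ^ 11 * (20 ^ 2 * F * I) := by gcongr
      _ = K1 * I := by rw [hK1]; ring)
  have hB : K1 * I + C1 / (N0 : ℝ) ^ q ≤ (K1 + C1) * I := by
    have h1 : C1 / (N0 : ℝ) ^ q ≤ C1 * I := by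
      rw [hI, mul_one_div]
      apply div_le_div_of_nonneg_left hC1.le (by positivity)
      apply pow_le_pow_left₀ hypos.le
      linarith
    linarith
  obtain ⟨X, hX⟩ : ∃ X, X = ⌊x⌋₊ := ⟨_, rfl⟩
  have hX1 : 1 ≤ X := by rw [hX]; exact Nat.le_floor (by exact_mod_cast hx)
  have hXr : (1 : ℝ) ≤ X := by exact_mod_cast hX1
  have hX0 : (0 : ℝ) < X := by linarith
  have hXx : (X : ℝ) ≤ x := by rw [hX]; exact Nat.floor_le (by linarith)
  have hlX : Real.log X ≤ Real.log x := Real.log_le_log hX0 hXx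
  rcases le_or_gt (2 * (N0 : ℝ)) (Real.log X) with hcase | hcase
  · -- long range
    refine le_trans (cntL_le_Nc hx) ?_
    rw [← hX]
    obtain ⟨J, hJ⟩ : ∃ J, J = ⌊1000 * Real.log x⌋₊ := ⟨_, rfl⟩
    rw [← hJ]
    have hJr : 900 * Real.log X ≤ J := by
      have : 1000 * Real.log x - 1 < J := by rw [hJ]; exact Nat.sub_one_lt_floor _
      linarith
    obtain ⟨K, hK⟩ : ∃ K, K = ⌊Real.log X - N0⌋₊ := ⟨_, rfl⟩
    have hK1' : (K : ℝ) ≤ Real.log X - N0 := by rw [hK]; exact Nat.floor_le (by linarith)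
    have hK2' : Real.log X - N0 - 1 < K := by rw [hK]; exact Nat.sub_one_lt_floor _
    have h1 := Nc_upper ((PhiJ_fam Y).nonneg J) ((PhiJ_fam Y).le_one J) (δ := 1) (by norm_num) K hX1
    have h2 : ∑ i ∈ Finset.range (K + 1), Real.exp (-(i * 1) + 1) * Gs (PhiJ Y J) 1 (Real.log X - i * 1) ≤ 6 * ((K1 + C1) * I) := by
      have h3 : ∀ i ∈ Finset.range (K + 1), Real.exp (-(i * 1) + 1) * Gs (PhiJ Y J) 1 (Real.log X - i * 1) ≤
          Real.exp 1 * ((K1 + C1) * I) * Real.exp (-(i * 1)) := by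
        intro i hi
        rw [Finset.mem_range] at hi
        have hi' : (i : ℝ) ≤ K := by exact_mod_cast (by omega : i ≤ K)
        have hi0 : (0 : ℝ) ≤ i := by positivity
        have h4 := hnar (Real.log X - i * 1) (by linarith) J (by linarith)
        have h5 := le_trans h4 hB
        rw [Real.exp_add]
        calc Real.exp (-(i * 1)) * Real.exp 1 * Gs (PhiJ Y J) 1 (Real.log X - i * 1) ≤
            Real.exp (-(i * 1)) * Real.exp 1 * ((K1 + C1) * I) := mul_le_mul_of_nonneg_left h5 (by positivity)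
          _ = _ := by ring
      refine le_trans (Finset.sum_le_sum h3) ?_
      rw [← Finset.mul_sum]
      have h4 := geo_upper (δ := 1) (by norm_num) (K + 1)
      have h5 := Real.exp_one_lt_d9
      have h6 : 0 < (K1 + C1) * I := by positivity
      calc Real.exp 1 * ((K1 + C1) * I) * ∑ i ∈ Finset.range (K + 1), Real.exp (-(i * 1)) ≤ Real.exp 1 * ((K1 + C1) * I) * ((1 + 1) / 1) := by gcongr
        _ ≤ 6 * ((K1 + C1) * I) := by nlinarith
    have hey : Real.exp (-y) ≤ F1 * I := by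
      rw [hF1, hI, mul_one_div]; exact exp_neg_powK q hypos
    have h3 : Real.exp (-(K * 1)) ≤ 3 * (F1 * I) := by
      have h4 : Real.exp (-((K : ℝ) * 1)) ≤ Real.exp (1 + -y) := Real.exp_le_exp.mpr (by linarith)
      rw [Real.exp_add] at h4
      have h5 := Real.exp_one_lt_d9
      have h6 := Real.exp_pos (-y)
      nlinarith
    have h4 : (1 : ℝ) ≤ X * (F1 * I) := by
      have h5 : (1 : ℝ) ≤ X * Real.exp (-y) := by
        have h6 : Real.exp y ≤ X := by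
          rw [← Real.le_log_iff_exp_le hX0]; linarith
        rw [Real.exp_neg, ← div_eq_mul_inv, one_le_div (Real.exp_pos _)]
        exact h6
      refine le_trans h5 ?_
      gcongr
    have h5 : X * ∑ i ∈ Finset.range (K + 1), Real.exp (-(i * 1) + 1) * Gs (PhiJ Y J) 1 (Real.log X - i * 1) ≤ X * (6 * ((K1 + C1) * I)) :=
      mul_le_mul_of_nonneg_left h2 hX0.le
    have h6 : 2 * (X * Real.exp (-(K * 1))) ≤ 2 * (X * (3 * (F1 * I))) := by gcongr
    calc Nc (PhiJ Y J) X ≤ X * (6 * ((K1 + C1) * I)) + (2 * (X * (3 * (F1 * I))) + X * (F1 * I)) := by linarith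
      _ = (6 * (K1 + C1) + 7 * F1) * I * X := by ring
      _ ≤ (6 * (K1 + C1) + 7 * F1) * I * x := by gcongr
      _ ≤ _ := by
          have : 0 ≤ K1 * I * x := by positivity
          linarith
  · -- short range
    rcases le_or_gt x 2 with h2 | h2
    · rw [cntL_small (by linarith) hx]; positivity
    · have h3 := cntL_le_main x Y h2.le (by linarith)
      have h4 : Real.log x ≤ 20 * y := by
        have h5 : x ≤ 2 * X := by
          have := Nat.lt_floor_add_one x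
          rw [← hX] at this
          linarith
        have h6 := Real.log_le_log (by linarith) h5
        rw [Real.log_mul (by norm_num) hX0.ne'] at h6
        have := Real.log_two_lt_d9
        linarith
      have h5 : 0 ≤ Real.log x := Real.log_nonneg (by linarith)
      rw [hY22] at h3
      calc cntL Y x ≤ 4 * 10 ^ 10 * x * Real.log x ^ 2 * Real.exp (-(y / 22)) := h3
        _ ≤ 4 * 10 ^ 10 * x * (20 * y) ^ 2 * Real.exp (-(y / 22)) := by gcongr
        _ = 4 * 10 ^ 10 * x * ((20 * y) ^ 2 * Real.exp (-(y / 22))) := by ring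
        _ ≤ 4 * 10 ^ 10 * x * (20 ^ 2 * F * I) := by gcongr
        _ ≤ 4 * 10 ^ 11 * x * (20 ^ 2 * F * I) := by
            apply mul_le_mul_of_nonneg_right _ (by positivity)
            apply mul_le_mul_of_nonneg_right _ (by positivity)
            norm_num
        _ = K1 * I * x := by rw [hK1]; ring
        _ ≤ _ := by
            have : 0 ≤ (6 * (K1 + C1) + 7 * F1) * I * x := by positivity
            linarith

/-- **Natural density theorem**, arbitrary power of the logarithm -/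
theorem densK (q : ℕ) : ∃ C : ℝ, 0 < C ∧ ∀ Y : ℝ, 2 ≤ Y → ∀ x : ℝ, 1 ≤ x → cntL Y x ≤ C * x / Real.log Y ^ q := by
  obtain ⟨C, hC, y0, hy0, H⟩ := densK_large q
  refine ⟨C + 3 * y0 ^ q, by positivity, ?_⟩
  intro Y hY x hx
  have hy : 0 < Real.log Y := Real.log_pos (by linarith)
  rcases le_or_gt y0 (Real.log Y) with h | h
  · refine le_trans (H Y hY h x hx) ?_
    gcongr
    have : 0 ≤ 3 * y0 ^ q := by positivity
    linarith
  · refine le_trans (cntL_trivial hx) ?_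
    rw [le_div_iff₀ (by positivity)]
    have h1 : Real.log Y ^ q ≤ y0 ^ q := pow_le_pow_left₀ hy.le h.le q
    have h2 : 0 ≤ C * x := by positivity
    calc 3 * x * Real.log Y ^ q ≤ 3 * x * y0 ^ q := by gcongr
      _ ≤ _ := by linarith

/-- the form for the Syracuse map -/
theorem densK_syr (q : ℕ) : ∃ C : ℝ, 0 < C ∧ ∀ Y : ℝ, 2 ≤ Y → ∀ x : ℝ, 0 < x → ∀ S : Set ℤ,
    (∀ N ∈ S, Odd N ∧ |(N : ℝ)| ≤ x ∧ ∀ k : ℕ, (k : ℝ) ≤ 1000 * Real.log x → Y < |((syr^[k] N : ℤ) : ℝ)|) →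
    (S.ncard : ℝ) ≤ C * x / Real.log Y ^ q := by
  obtain ⟨C, hC, H⟩ := densK q
  refine ⟨C, hC, fun Y hY x hx S hS => ?_⟩
  have hy : 0 < Real.log Y := Real.log_pos (by linarith)
  rcases lt_or_ge x 1 with h1 | h1
  · have : S = ∅ := by
      rw [Set.eq_empty_iff_forall_notMem]
      intro N hN
      obtain ⟨ho, h2, _⟩ := hS N hN
      have h3 : N ≠ 0 := by rintro rfl; simp at ho
      have h4 : 1 ≤ |N| := Int.one_le_abs h3
      have h5 : (1 : ℝ) ≤ |(N : ℝ)| := by exact_mod_cast h4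
      linarith
    rw [this, Set.ncard_empty]
    push_cast
    positivity
  · refine le_trans ?_ (H Y hY x h1)
    unfold cntL
    have hsub : S ⊆ {N : ℤ | |(N : ℝ)| ≤ x ∧ ∀ t : ℕ, (t : ℝ) ≤ 1000 * Real.log x → Y < |((T^[t] N : ℤ) : ℝ)|} := by
      intro N hN
      obtain ⟨ho, h1, h2⟩ := hS N hN
      refine ⟨h1, fun t ht => ?_⟩
      obtain ⟨k, hk, i, h3, _⟩ := T_iter_syr ho t
      have h4 := h2 k (le_trans (by exact_mod_cast hk) ht)
      rw [h3]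
      push_cast
      rw [abs_mul]
      have h5 : (1 : ℝ) ≤ |(2 : ℝ) ^ i| := by
        rw [abs_of_pos (by positivity)]
        exact one_le_pow₀ (by norm_num)
      have h6 : 0 ≤ |((syr^[k] N : ℤ) : ℝ)| := abs_nonneg _
      nlinarith
    exact_mod_cast Set.ncard_le_ncard hsub (fin_abs x _)

end Pool.Agent.Helper3.TD
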