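import Pool.Agent.Helper3.ND.Final
import Pool.Agent.Helper3.TD.NatE

/-! Natural densities of sets of negative odd integers that are invariant under the Syracuse map. -/

namespace Pool.Agent.Helper3.TD

open Pool.Agent.Helper3.ND Filter Topology

/-- invariance under the Syracuse map on the negative odd integers -/
def SInv (S : Set ℤ) : Prop := ∀ N : ℤ, N < 0 → Odd N → (N ∈ S ↔ syr N ∈ S)

/-- `n` is a power of two times an odd element of `S` -/
def PS (S : Set ℤ) (n : ℤ) : Prop := n < 0 ∧ ∃ (v : ℕ) (m : ℤ), Odd m ∧ n = 2 ^ v * m ∧ m ∈ S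

theorem odd_part_unique {a b : ℕ} {m m' : ℤ} (hm : Odd m) (hm' : Odd m') (h : 2 ^ a * m = 2 ^ b * m') : m = m' := by
  wlog hab : a ≤ b generalizing a b m m'
  · exact (this hm' hm h.symm (by omega)).symm
  obtain ⟨c, rfl⟩ := Nat.exists_eq_add_of_le hab
  rw [pow_add, mul_assoc] at h
  have h2 : m = 2 ^ c * m' := mul_left_cancel₀ (by positivity) h
  rcases Nat.eq_zero_or_pos c with hc | hc
  · rw [h2, hc]; simp
  · exfalso
    have : Even m := by
      rw [h2]
      obtain ⟨d, rfl⟩ := Nat.exists_eq_succ_of_ne_zero (by omega : c ≠ 0)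
      rw [pow_succ]
      exact ⟨2 ^ d * m', by ring⟩
    exact (Int.not_even_iff_odd.mpr hm) this

theorem PS_odd {S : Set ℤ} {n : ℤ} (h : Odd n) : PS S n ↔ n < 0 ∧ n ∈ S := by
  constructor
  · rintro ⟨h1, v, m, hm, h2, h3⟩
    have : n = m := odd_part_unique (a := 0) (b := v) h hm (by simpa using h2)
    rw [← this] at h3
    exact ⟨h1, h3⟩
  · rintro ⟨h1, h2⟩
    exact ⟨h1, 0, n, h, by simp, h2⟩

theorem PS_two {S : Set ℤ} (n : ℤ) : PS S (2 * n) ↔ PS S n := by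
  constructor
  · rintro ⟨h1, v, m, hm, h2, h3⟩
    refine ⟨by linarith, ?_⟩
    rcases Nat.eq_zero_or_pos v with hv | hv
    · exfalso
      rw [hv, pow_zero, one_mul] at h2
      rw [← h2] at hm
      exact (Int.not_even_iff_odd.mpr hm) ⟨n, by ring⟩
    · obtain ⟨d, rfl⟩ := Nat.exists_eq_succ_of_ne_zero (by omega : v ≠ 0)
      refine ⟨d, m, hm, ?_, h3⟩
      have : 2 * n = 2 * (2 ^ d * m) := by rw [h2, Nat.succ_eq_add_one, pow_succ]; ring
      linarith
  · rintro ⟨h1, v, m, hm, h2, h3⟩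
    exact ⟨by linarith, v + 1, m, hm, by rw [h2]; ring, h3⟩

theorem PS_pow {S : Set ℤ} (v : ℕ) (n : ℤ) : PS S (2 ^ v * n) ↔ PS S n := by
  induction v with
  | zero => simp
  | succ v ih =>
    rw [show (2 : ℤ) ^ (v + 1) * n = 2 * (2 ^ v * n) by rw [pow_succ]; ring, PS_two, ih]

theorem syr_neg {N : ℤ} (h0 : N < 0) (ho : Odd N) : syr N < 0 := by
  obtain ⟨v, hv, _⟩ := syr_spec ho
  by_contra hc
  have h1 : 0 ≤ 2 ^ (v + 1) * syr N := mul_nonneg (by positivity) (not_lt.mp hc)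
  rw [← hv] at h1
  omega

theorem PS_T {S : Set ℤ} (hS : SInv S) (n : ℤ) : PS S (T n) ↔ PS S n := by
  rcases par_cases n with h | h
  · have h1 := T_even h
    rw [← PS_two (T n), h1]
  · have ho : Odd n := Int.odd_iff.mpr h
    have h1 := T_odd h
    obtain ⟨v, hv, ho'⟩ := syr_spec ho
    have h2 : T n = 2 ^ v * syr n := by
      have : 2 * T n = 2 * (2 ^ v * syr n) := by rw [h1, hv]; ring
      linarith
    rw [h2, PS_pow, PS_odd ho', PS_odd ho]
    constructor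
    · rintro ⟨a1, a2⟩
      have hneg : n < 0 := by
        by_contra hc
        have h3 : 0 < 3 * n + 1 := by omega
        rw [hv] at h3
        have h4 : (0 : ℤ) < 2 ^ (v + 1) := by positivity
        nlinarith
      exact ⟨hneg, (hS n hneg ho).mpr a2⟩
    · rintro ⟨a1, a2⟩
      exact ⟨syr_neg a1 ho, (hS n a1 ho).mp a2⟩

open Classical in
/-- indicator function -/
noncomputable def phi (S : Set ℤ) (n : ℤ) : ℝ := if PS S n then 1 else 0

theorem phi_inv {S : Set ℤ} (hS : SInv S) : Inv (phi S) 0 := by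
  classical
  refine ⟨fun n => ?_, fun n => ?_, fun n _ => ?_⟩
  · unfold phi; split_ifs <;> norm_num
  · unfold phi; split_ifs <;> norm_num
  · unfold phi
    rw [if_congr (PS_T hS n) rfl rfl]

/-- number of elements of `S` among the negative odd integers that are at least `-x` -/
noncomputable def cS (S : Set ℤ) (x : ℝ) : ℕ := {N : ℤ | N ∈ S ∧ N < 0 ∧ Odd N ∧ -x ≤ (N : ℝ)}.ncard

theorem cS_fin (S : Set ℤ) (x : ℝ) : {N : ℤ | N ∈ S ∧ N < 0 ∧ Odd N ∧ -x ≤ (N : ℝ)}.Finite := by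
  apply Set.Finite.subset (Set.finite_Ico (-⌈x⌉) 0)
  rintro N ⟨_, h1, _, h2⟩
  rw [Set.mem_Ico]
  refine ⟨?_, h1⟩
  have h3 := Int.le_ceil x
  have h4 : (-(⌈x⌉ : ℤ) : ℝ) ≤ (N : ℝ) := by linarith
  exact_mod_cast h4

theorem cS_floor (S : Set ℤ) {x : ℝ} (hx : 0 ≤ x) : cS S x = cS S (⌊x⌋₊ : ℝ) := by
  unfold cS
  congr 1
  ext N
  simp only [Set.mem_ofPred_eq]
  constructor
  · rintro ⟨h1, h2, h3, h4⟩
    refine ⟨h1, h2, h3, ?_⟩
    have h5 : (((-N).toNat : ℕ) : ℝ) ≤ x := by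
      have : (((-N).toNat : ℕ) : ℤ) = -N := Int.toNat_of_nonneg (by omega)
      have h6 : (((-N).toNat : ℕ) : ℝ) = -(N : ℝ) := by exact_mod_cast congrArg (Int.cast : ℤ → ℝ) this
      rw [h6]; linarith
    have h6 := Nat.le_floor h5
    have h7 : -(⌊x⌋₊ : ℤ) ≤ N := by omega
    exact_mod_cast h7
  · rintro ⟨h1, h2, h3, h4⟩
    refine ⟨h1, h2, h3, ?_⟩
    have := Nat.floor_le hx
    linarith

theorem cS_eq (S : Set ℤ) (X : ℕ) : ((cS S (X : ℝ) : ℕ) : ℝ) = Nc (phi S) X - Nc (phi S) (X / 2) := by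
  classical
  have h1 : Nc (phi S) X = ∑ n ∈ (Finset.Icc (-(X : ℤ)) X).filter (fun n => Odd n), phi S n +
      ∑ n ∈ (Finset.Icc (-(X : ℤ)) X).filter (fun n => ¬ Odd n), phi S n := by
    unfold Nc
    exact (Finset.sum_filter_add_sum_filter_not _ _ _).symm
  have h2 : ∑ n ∈ (Finset.Icc (-(X : ℤ)) X).filter (fun n => ¬ Odd n), phi S n = Nc (phi S) (X / 2) := by
    unfold Nc
    symm
    apply Finset.sum_nbij' (fun n => 2 * n) (fun n => n / 2)
    · intro n hn
      rw [Finset.mem_Icc] at hn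
      rw [Finset.mem_filter, Finset.mem_Icc, Int.not_odd_iff_even]
      refine ⟨by omega, n, by ring⟩
    · intro n hn
      rw [Finset.mem_filter, Finset.mem_Icc, Int.not_odd_iff_even] at hn
      obtain ⟨hn1, k, hk⟩ := hn
      rw [Finset.mem_Icc]
      omega
    · intro n _
      omega
    · intro n hn
      rw [Finset.mem_filter, Finset.mem_Icc, Int.not_odd_iff_even] at hn
      obtain ⟨hn1, k, hk⟩ := hn
      omega
    · intro n _
      unfold phi
      exact if_congr (PS_two n).symm rfl rfl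
  have h3 : ∑ n ∈ (Finset.Icc (-(X : ℤ)) X).filter (fun n => Odd n), phi S n = ((cS S (X : ℝ) : ℕ) : ℝ) := by
    unfold phi
    rw [← Finset.sum_filter, Finset.sum_const, nsmul_eq_mul, mul_one]
    unfold cS
    congr 1
    rw [← Set.ncard_coe_finset]
    congr 1
    ext N
    simp only [Finset.coe_filter, Finset.mem_filter, Finset.mem_Icc, Set.mem_ofPred_eq]
    constructor
    · rintro ⟨⟨⟨a1, a2⟩, a3⟩, a4⟩
      rw [PS_odd a3] at a4
      exact ⟨a4.2, a4.1, a3, by exact_mod_cast a1⟩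
    · rintro ⟨a1, a2, a3, a4⟩
      have h5 : -(X : ℤ) ≤ N := by exact_mod_cast a4
      exact ⟨⟨⟨h5, by omega⟩, a3⟩, (PS_odd a3).mpr ⟨a2, a1⟩⟩
  rw [h1, h2, h3]; ring

/-- **existence of the natural density** -/
theorem dens_exists {S : Set ℤ} (hS : SInv S) : ∃ d : ℝ, Tendsto (fun x : ℝ => ((cS S x : ℕ) : ℝ) / x) atTop (𝓝 d) := by
  obtain ⟨c, hc⟩ := nat_dens le_rfl (phi_inv hS)
  refine ⟨c - c * (1 / 2), ?_⟩
  have h1 : Tendsto (fun X : ℕ => ((X / 2 : ℕ) : ℝ) / X) atTop (𝓝 (1 / 2)) := by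
    have h2 : Tendsto (fun X : ℕ => (1 : ℝ) / 2 - 1 * ((1 : ℝ) / X)) atTop (𝓝 (1 / 2 - 1 * 0)) :=
      (tendsto_one_div_atTop_nhds_zero_nat.const_mul 1).const_sub (1 / 2)
    rw [mul_zero, sub_zero] at h2
    apply tendsto_of_tendsto_of_tendsto_of_le_of_le' h2 tendsto_const_nhds
    · filter_upwards [eventually_ge_atTop 1] with X hX
      have hX0 : (0 : ℝ) < X := by exact_mod_cast hX
      rw [le_div_iff₀ hX0, sub_mul, one_mul, one_div_mul_cancel hX0.ne']
      have : X ≤ 2 * (X / 2) + 1 := by omega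
      have : (X : ℝ) ≤ 2 * ((X / 2 : ℕ) : ℝ) + 1 := by exact_mod_cast this
      linarith
    · filter_upwards [eventually_ge_atTop 1] with X hX
      have hX0 : (0 : ℝ) < X := by exact_mod_cast hX
      rw [div_le_iff₀ hX0]
      have : 2 * (X / 2) ≤ X := by omega
      have : 2 * ((X / 2 : ℕ) : ℝ) ≤ X := by exact_mod_cast this
      linarith
  have hhalf : Tendsto (fun X : ℕ => X / 2) atTop atTop := Nat.tendsto_div_const_atTop (by norm_num)
  have h2 : Tendsto (fun X : ℕ => ((cS S (X : ℝ) : ℕ) : ℝ) / X) atTop (𝓝 (c - c * (1 / 2))) := by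
    have h3 := hc.sub ((hc.comp hhalf).mul h1)
    refine h3.congr' ?_
    filter_upwards [eventually_ge_atTop 2] with X hX
    have hX0 : (X : ℝ) ≠ 0 := by
      have : (0 : ℝ) < X := by exact_mod_cast (by omega : 0 < X)
      exact this.ne'
    have hX2 : ((X / 2 : ℕ) : ℝ) ≠ 0 := by
      have : 0 < X / 2 := by omega
      exact_mod_cast this.ne'
    rw [cS_eq]
    simp only [Function.comp]
    field_simp
  have h3 : Tendsto (fun x : ℝ => (((cS S ((⌊x⌋₊ : ℕ) : ℝ) : ℕ) : ℝ) / (⌊x⌋₊ : ℕ)) * (((⌊x⌋₊ : ℕ) : ℝ) / x)) atTop (𝓝 ((c - c * (1 / 2)) * 1)) :=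
    (h2.comp tendsto_nat_floor_atTop).mul tendsto_nat_floor_div_atTop
  rw [mul_one] at h3
  refine h3.congr' ?_
  filter_upwards [eventually_ge_atTop 1] with x hx
  have h4 : ((⌊x⌋₊ : ℕ) : ℝ) ≠ 0 := by
    have : 1 ≤ ⌊x⌋₊ := Nat.le_floor (by exact_mod_cast hx)
    exact_mod_cast (by omega : ⌊x⌋₊ ≠ 0)
  rw [cS_floor S (show 0 ≤ x by linarith)]
  field_simp

end Pool.Agent.Helper3.TD
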