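import Pool.Agent.Helper3.TD.Band2

/-! Averages over residues; reduction of the band estimate to good digits. -/

namespace Pool.Agent.Helper3.TD

open Pool.Agent.Helper3.ND

theorem Av_mono {N : ℕ} {f g : ℤ → ℝ} (h : ∀ x, f x ≤ g x) : Av N f ≤ Av N g := by
  unfold Av
  gcongr
  exact h _

theorem Av_nonneg {N : ℕ} {f : ℤ → ℝ} (h : ∀ x, 0 ≤ f x) : 0 ≤ Av N f := by
  unfold Av
  apply div_nonneg (Finset.sum_nonneg (fun x _ => h _)) (by positivity)

theorem Av_add (N : ℕ) (f g : ℤ → ℝ) : Av N (fun x => f x + g x) = Av N f + Av N g := by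
  unfold Av
  rw [Finset.sum_add_distrib, add_div]

theorem Av_const_mul (N : ℕ) (c : ℝ) (f : ℤ → ℝ) : Av N (fun x => c * f x) = c * Av N f := by
  unfold Av
  rw [← Finset.mul_sum, mul_div_assoc]

theorem Av_sum {ι : Type*} (N : ℕ) (s : Finset ι) (f : ι → ℤ → ℝ) :
    Av N (fun x => ∑ i ∈ s, f i x) = ∑ i ∈ s, Av N (f i) := by
  unfold Av
  rw [Finset.sum_comm, Finset.sum_div]

def Per (n : ℕ) (f : ℤ → ℝ) : Prop := ∀ x : ℤ, f (x + 3 ^ n) = f x

theorem Per.succ {n : ℕ} {f : ℤ → ℝ} (h : Per n f) : Per (n + 1) f := by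
  intro x
  have e : x + 3 ^ (n + 1) = x + 3 ^ n + 3 ^ n + 3 ^ n := by rw [pow_succ]; ring
  rw [e, h, h, h]

theorem Per.le {n N : ℕ} {f : ℤ → ℝ} (h : Per n f) (hN : n ≤ N) : Per N f := by
  induction N, hN using Nat.le_induction with
  | base => exact h
  | succ k _ ih => exact ih.succ

theorem Av_succ {n : ℕ} {f : ℤ → ℝ} (h : Per n f) : Av (n + 1) f = Av n f := by
  unfold Av
  have e : 3 ^ (n + 1) = 3 ^ n + 3 ^ n + 3 ^ n := by rw [pow_succ]; ring
  have h1 : ∀ x : ℕ, f (((3 ^ n + x : ℕ)) : ℤ) = f (x : ℤ) := by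
    intro x
    rw [← h (x : ℤ)]
    congr 1
    push_cast
    ring
  have h2 : ∀ x : ℕ, f (((3 ^ n + 3 ^ n + x : ℕ)) : ℤ) = f (x : ℤ) := by
    intro x
    rw [← h1 x, ← h1 (3 ^ n + x), add_assoc]
  rw [e, Finset.sum_range_add, Finset.sum_range_add, Finset.sum_congr rfl (fun x _ => h1 x),
    Finset.sum_congr rfl (fun x _ => h2 x), pow_succ]
  field_simp
  ring

theorem Av_le {n N : ℕ} {f : ℤ → ℝ} (h : Per n f) (hN : n ≤ N) : Av N f = Av n f := by
  induction N, hN using Nat.le_induction with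
  | base => rfl
  | succ k hk ih => rw [Av_succ (h.le hk), ih]

theorem D_per (n t k : ℕ) (P : ℕ → Prop) : Per n (D n t k P) := by
  classical
  intro x
  unfold D
  apply Finset.sum_congr rfl
  intro r _
  have h1 : (3 : ℤ) ^ n ∣ x + 3 ^ n - T^[t] (r : ℤ) ↔ (3 : ℤ) ^ n ∣ x - T^[t] (r : ℤ) := by
    rw [show x + 3 ^ n - T^[t] (r : ℤ) = (x - T^[t] (r : ℤ)) + 3 ^ n by ring]
    exact dvd_add_self_right
  exact if_congr (and_congr_right (fun _ => and_congr_right (fun _ => h1))) rfl rfl

theorem D_nonneg (n t k : ℕ) (P : ℕ → Prop) (x : ℤ) : 0 ≤ D n t k P x := by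
  classical
  unfold D
  apply Finset.sum_nonneg
  intro r _
  split_ifs <;> positivity

theorem one_residue (n : ℕ) (a : ℤ) : ∑ x ∈ Finset.range (3 ^ n), (if (3 : ℤ) ^ n ∣ (x : ℤ) - a then (1 : ℝ) else 0) = 1 := by
  classical
  have hp : (0 : ℤ) < 3 ^ n := by positivity
  obtain ⟨b, hb⟩ : ∃ b : ℕ, (b : ℤ) = a % 3 ^ n := ⟨(a % 3 ^ n).toNat, Int.toNat_of_nonneg (Int.emod_nonneg _ hp.ne')⟩
  have hblt : b < 3 ^ n := by
    have := Int.emod_lt_of_pos a hp
    rw [← hb] at this
    exact_mod_cast this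
  rw [Finset.sum_eq_single_of_mem b (Finset.mem_range.mpr hblt)]
  · rw [if_pos]
    rw [hb, dvd_sub_comm]
    exact Int.dvd_self_sub_emod
  · intro x hx hne
    rw [if_neg]
    intro hd
    rw [Finset.mem_range] at hx
    apply hne
    have h1 : (3 : ℤ) ^ n ∣ (x : ℤ) - b := by
      rw [hb]
      have h2 : (3 : ℤ) ^ n ∣ a - a % 3 ^ n := Int.dvd_self_sub_emod
      have := dvd_add hd h2
      rwa [show (x : ℤ) - a + (a - a % 3 ^ n) = (x : ℤ) - a % 3 ^ n by ring] at this
    have h3 : |(x : ℤ) - b| < 3 ^ n := by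
      have a1 : (x : ℤ) < 3 ^ n := by exact_mod_cast hx
      have a2 : (b : ℤ) < 3 ^ n := by exact_mod_cast hblt
      rw [abs_lt]
      constructor <;> linarith [Int.natCast_nonneg x, Int.natCast_nonneg b]
    have := Int.eq_zero_of_abs_lt_dvd h1 h3
    omega

open Classical in
/-- mass of trajectories -/
noncomputable def mass (t k : ℕ) (P : ℕ → Prop) : ℝ :=
  ((Finset.range (2 ^ t)).filter (fun r : ℕ => od t (r : ℤ) = k ∧ P r)).card / 2 ^ t

theorem Av_D (n t k : ℕ) (P : ℕ → Prop) : Av n (D n t k P) = mass t k P := by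
  classical
  unfold Av D mass
  rw [Finset.sum_comm, div_eq_div_iff (by positivity) (by positivity)]
  have h1 : ∀ r ∈ Finset.range (2 ^ t), ∑ x ∈ Finset.range (3 ^ n), (if od t (r : ℤ) = k ∧ P r ∧ (3 : ℤ) ^ n ∣ (x : ℤ) - T^[t] (r : ℤ) then (3 : ℝ) ^ n / 2 ^ t else 0) =
      if od t (r : ℤ) = k ∧ P r then (3 : ℝ) ^ n / 2 ^ t else 0 := by
    intro r _
    by_cases h : od t (r : ℤ) = k ∧ P r
    · rw [if_pos h]
      have h2 : ∀ x ∈ Finset.range (3 ^ n), (if od t (r : ℤ) = k ∧ P r ∧ (3 : ℤ) ^ n ∣ (x : ℤ) - T^[t] (r : ℤ) then (3 : ℝ) ^ n / 2 ^ t else 0) =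
          (3 : ℝ) ^ n / 2 ^ t * (if (3 : ℤ) ^ n ∣ (x : ℤ) - T^[t] (r : ℤ) then (1 : ℝ) else 0) := by
        intro x _
        by_cases h3 : (3 : ℤ) ^ n ∣ (x : ℤ) - T^[t] (r : ℤ)
        · rw [if_pos ⟨h.1, h.2, h3⟩, if_pos h3, mul_one]
        · rw [if_neg (fun h4 => h3 h4.2.2), if_neg h3, mul_zero]
      rw [Finset.sum_congr rfl h2, ← Finset.mul_sum, one_residue, mul_one]
    · rw [if_neg h]
      apply Finset.sum_eq_zero
      intro x _
      rw [if_neg (fun h4 => h ⟨h4.1, h4.2.1⟩)]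
  rw [Finset.sum_congr rfl h1, ← Finset.sum_filter, Finset.sum_const, nsmul_eq_mul]
  field_simp

theorem D_split (n t k : ℕ) (P : ℕ → Prop) (x : ℤ) :
    D n t k (fun _ => True) x = D n t k P x + D n t k (fun r => ¬ P r) x := by
  classical
  unfold D
  rw [← Finset.sum_add_distrib]
  apply Finset.sum_congr rfl
  intro r _
  by_cases h : P r <;> simp [h]

/-- the difference of full densities is controlled by good and bad parts -/
theorem Av_diff (m t k : ℕ) (P : ℕ → Prop) :
    Av (m + 1) (fun M => |D (m + 1) t k (fun _ => True) M - D m t k (fun _ => True) M|) ≤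
      Av (m + 1) (fun M => |D (m + 1) t k P M - D m t k P M|) + 2 * mass t k (fun r => ¬ P r) := by
  have h1 : ∀ M, |D (m + 1) t k (fun _ => True) M - D m t k (fun _ => True) M| ≤
      |D (m + 1) t k P M - D m t k P M| + (D (m + 1) t k (fun r => ¬ P r) M + D m t k (fun r => ¬ P r) M) := by
    intro M
    rw [D_split (m + 1) t k P, D_split m t k P]
    have a1 := D_nonneg (m + 1) t k (fun r => ¬ P r) M
    have a2 := D_nonneg m t k (fun r => ¬ P r) M
    have a3 : |D (m + 1) t k (fun r => ¬ P r) M - D m t k (fun r => ¬ P r) M| ≤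
        D (m + 1) t k (fun r => ¬ P r) M + D m t k (fun r => ¬ P r) M := by
      rw [abs_le]; constructor <;> linarith
    calc |D (m + 1) t k P M + D (m + 1) t k (fun r => ¬ P r) M - (D m t k P M + D m t k (fun r => ¬ P r) M)|
        = |(D (m + 1) t k P M - D m t k P M) + (D (m + 1) t k (fun r => ¬ P r) M - D m t k (fun r => ¬ P r) M)| := by
          congr 1; ring
      _ ≤ _ := le_trans (abs_add_le _ _) (by linarith)
  refine le_trans (Av_mono h1) ?_
  rw [Av_add, Av_add, Av_D, Av_succ (D_per m t k _), Av_D]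
  linarith

/-- telescoping -/
theorem Av_tele (t k m : ℕ) (hm : m ≤ k) :
    Av k (fun M => |D k t k (fun _ => True) M - D m t k (fun _ => True) M|) ≤
      ∑ n ∈ Finset.Ico m k, Av (n + 1) (fun M => |D (n + 1) t k (fun _ => True) M - D n t k (fun _ => True) M|) := by
  have key : ∀ N, m ≤ N → Av N (fun M => |D N t k (fun _ => True) M - D m t k (fun _ => True) M|) ≤
      ∑ n ∈ Finset.Ico m N, Av (n + 1) (fun M => |D (n + 1) t k (fun _ => True) M - D n t k (fun _ => True) M|) := by
    intro N hN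
    induction N, hN using Nat.le_induction with
    | base => simp [Av]
    | succ N hN ih =>
      rw [Finset.sum_Ico_succ_top hN]
      have h1 : ∀ M, |D (N + 1) t k (fun _ => True) M - D m t k (fun _ => True) M| ≤
          |D N t k (fun _ => True) M - D m t k (fun _ => True) M| +
            |D (N + 1) t k (fun _ => True) M - D N t k (fun _ => True) M| := by
        intro M
        have := abs_add_le (D N t k (fun _ => True) M - D m t k (fun _ => True) M)
          (D (N + 1) t k (fun _ => True) M - D N t k (fun _ => True) M)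
        rw [show D N t k (fun _ => True) M - D m t k (fun _ => True) M +
          (D (N + 1) t k (fun _ => True) M - D N t k (fun _ => True) M) =
          D (N + 1) t k (fun _ => True) M - D m t k (fun _ => True) M by ring] at this
        exact this
      refine le_trans (Av_mono h1) ?_
      rw [Av_add]
      have hper : Per N (fun M => |D N t k (fun _ => True) M - D m t k (fun _ => True) M|) := by
        intro x
        simp only
        rw [D_per N t k _ x, (D_per m t k (fun _ => True)).le hN x]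
      rw [Av_succ hper]
      linarith
  exact key k hm

end Pool.Agent.Helper3.TD
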