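import Pool.Agent.Helper3.TD.Char

/-! Parseval and the sum over units. -/

namespace Pool.Agent.Helper3.TD

open Complex

theorem star_char {N : ℕ} [NeZero N] (x : ZMod N) :
    (starRingEnd ℂ) (ZMod.stdAddChar x : ℂ) = (ZMod.stdAddChar (-x) : ℂ) := by
  have h1 : (ZMod.stdAddChar x : ℂ) * (ZMod.stdAddChar (-x) : ℂ) = 1 := by
    rw [← AddChar.map_add_eq_mul, add_neg_cancel, AddChar.map_zero_eq_one]
  have h2 : (ZMod.stdAddChar x : ℂ) * (starRingEnd ℂ) (ZMod.stdAddChar x : ℂ) = 1 := by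
    rw [Complex.mul_conj, Complex.normSq_eq_norm_sq, norm_char]; norm_num
  have h3 : (ZMod.stdAddChar x : ℂ) ≠ 0 := by
    intro h0; rw [h0, zero_mul] at h1; exact zero_ne_one h1
  exact mul_left_cancel₀ h3 (h2.trans h1.symm)

theorem char_sum {N : ℕ} [NeZero N] (b : ZMod N) :
    ∑ x : ZMod N, (ZMod.stdAddChar (x * b) : ℂ) = if b = 0 then (N : ℂ) else 0 := by
  have := AddChar.sum_mulShift b (ZMod.isPrimitive_stdAddChar N)
  rw [this, ZMod.card]
  split_ifs <;> simp

theorem pars {N : ℕ} [NeZero N] (c : ZMod N → ℂ) :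
    ∑ x : ZMod N, ‖∑ ξ : ZMod N, c ξ * (ZMod.stdAddChar (ξ * x) : ℂ)‖ ^ 2 = N * ∑ ξ : ZMod N, ‖c ξ‖ ^ 2 := by
  have h1 : ((∑ x : ZMod N, ‖∑ ξ : ZMod N, c ξ * (ZMod.stdAddChar (ξ * x) : ℂ)‖ ^ 2 : ℝ) : ℂ) =
      ((N * ∑ ξ : ZMod N, ‖c ξ‖ ^ 2 : ℝ) : ℂ) := by
    push_cast
    have h2 : ∀ x : ZMod N, ((‖∑ ξ : ZMod N, c ξ * (ZMod.stdAddChar (ξ * x) : ℂ)‖ : ℝ) : ℂ) ^ 2 =
        ∑ ξ : ZMod N, ∑ η : ZMod N, (c ξ * (starRingEnd ℂ) (c η)) * (ZMod.stdAddChar (x * (ξ - η)) : ℂ) := by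
      intro x
      rw [← Complex.mul_conj', map_sum, Finset.sum_mul_sum]
      apply Finset.sum_congr rfl
      intro ξ _
      apply Finset.sum_congr rfl
      intro η _
      rw [map_mul (starRingEnd ℂ), star_char]
      have : (ZMod.stdAddChar (x * (ξ - η)) : ℂ) = (ZMod.stdAddChar (ξ * x) : ℂ) * (ZMod.stdAddChar (-(η * x)) : ℂ) := by
        rw [← AddChar.map_add_eq_mul]; congr 1; ring
      rw [this]; ring
    rw [Finset.sum_congr rfl (fun x _ => h2 x), Finset.sum_comm]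
    rw [Finset.mul_sum]
    apply Finset.sum_congr rfl
    intro ξ _
    rw [Finset.sum_comm]
    rw [Finset.sum_eq_single ξ]
    · rw [← Finset.mul_sum, sub_self]
      simp only [mul_zero, AddChar.map_zero_eq_one, Finset.sum_const, Finset.card_univ, ZMod.card, nsmul_eq_mul, mul_one]
      rw [Complex.mul_conj']
      ring
    · intro η _ hη
      rw [← Finset.mul_sum, char_sum, if_neg (sub_ne_zero.mpr hη.symm), mul_zero]
    · intro h; exact absurd (Finset.mem_univ _) h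
  exact_mod_cast h1

theorem sum_zmod {N : ℕ} [NeZero N] {M : Type*} [AddCommMonoid M] (F : ZMod N → M) :
    ∑ x : ZMod N, F x = ∑ i ∈ Finset.range N, F (i : ZMod N) := by
  apply Finset.sum_nbij' (fun x : ZMod N => x.val) (fun i : ℕ => (i : ZMod N))
  · intro x _; rw [Finset.mem_range]; exact ZMod.val_lt x
  · intro i _; exact Finset.mem_univ _
  · intro x _; exact ZMod.natCast_zmod_val x
  · intro i hi; rw [Finset.mem_range] at hi; exact ZMod.val_cast_of_lt hi
  · intro x _; rw [ZMod.natCast_zmod_val]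

open Classical in
theorem nonunits_sum (m : ℕ) (a : ZMod (Q (m + 1))) :
    ∑ ξ : ZMod (Q (m + 1)), (if IsUnit ξ then 0 else (ZMod.stdAddChar (ξ * a) : ℂ)) =
      if 3 * a = 0 then (3 : ℂ) ^ m else 0 := by
  rw [sum_zmod, ← Finset.sum_filter_add_sum_filter_not _ (fun i => 3 ∣ i)]
  have h1 : ∑ i ∈ (Finset.range (Q (m + 1))).filter (fun i => ¬ 3 ∣ i),
      (if IsUnit ((i : ℕ) : ZMod (Q (m + 1))) then 0 else (ZMod.stdAddChar (((i : ℕ) : ZMod (Q (m + 1))) * a) : ℂ)) = 0 := by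
    apply Finset.sum_eq_zero
    intro i hi
    rw [Finset.mem_filter] at hi
    rw [if_pos]
    rw [ZMod.isUnit_iff_coprime]
    unfold Q
    exact Nat.Coprime.pow_right _ ((Nat.Prime.coprime_iff_not_dvd Nat.prime_three).mpr hi.2).symm
  have h2 : ∑ i ∈ (Finset.range (Q (m + 1))).filter (fun i => 3 ∣ i),
      (if IsUnit ((i : ℕ) : ZMod (Q (m + 1))) then 0 else (ZMod.stdAddChar (((i : ℕ) : ZMod (Q (m + 1))) * a) : ℂ)) =
      ∑ i ∈ Finset.range (3 ^ m), (ZMod.stdAddChar (3 * a) : ℂ) ^ i := by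
    symm
    apply Finset.sum_nbij' (fun i => 3 * i) (fun i => i / 3)
    · intro i hi
      rw [Finset.mem_range] at hi
      rw [Finset.mem_filter, Finset.mem_range]
      refine ⟨?_, dvd_mul_right 3 i⟩
      unfold Q
      rw [pow_succ]
      omega
    · intro i hi
      rw [Finset.mem_filter, Finset.mem_range] at hi
      rw [Finset.mem_range]
      unfold Q at hi
      rw [pow_succ] at hi
      omega
    · intro i _
      simp
    · intro i hi
      rw [Finset.mem_filter] at hi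
      exact Nat.mul_div_cancel' hi.2
    · intro i hi
      rw [if_neg]
      · rw [← AddChar.map_nsmul_eq_pow]
        congr 1
        push_cast
        rw [nsmul_eq_mul]
        ring
      · rw [ZMod.isUnit_iff_coprime]
        unfold Q
        intro hc
        have := Nat.Coprime.coprime_dvd_left (dvd_mul_right 3 i) hc
        have h3 := Nat.Coprime.coprime_dvd_right (dvd_pow_self 3 (Nat.succ_ne_zero m)) this
        norm_num at h3
  rw [h1, h2, add_zero]
  split_ifs with h3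
  · rw [h3]
    simp
  · have hne : (ZMod.stdAddChar (3 * a) : ℂ) ≠ 1 := by
      intro h4
      apply h3
      apply ZMod.injective_stdAddChar
      rw [h4, AddChar.map_zero_eq_one]
    have h5 : (ZMod.stdAddChar (3 * a) : ℂ) ^ (3 ^ m) = 1 := by
      rw [← AddChar.map_nsmul_eq_pow]
      have : (3 ^ m : ℕ) • (3 * a) = 0 := by
        rw [nsmul_eq_mul]
        push_cast
        have h6 : ((Q (m + 1) : ℕ) : ZMod (Q (m + 1))) = 0 := ZMod.natCast_self _
        have h7 : (3 : ZMod (Q (m + 1))) ^ m * (3 * a) = ((Q (m + 1) : ℕ) : ZMod (Q (m + 1))) * a := by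
          have h8 : ((Q (m + 1) : ℕ) : ZMod (Q (m + 1))) = (3 : ZMod (Q (m + 1))) ^ (m + 1) := by
            have : Q (m + 1) = 3 ^ (m + 1) := rfl
            rw [this]; push_cast; rfl
          rw [h8, pow_succ (3 : ZMod (Q (m + 1))) m]
          ring
        rw [h7, h6, zero_mul]
      rw [this, AddChar.map_zero_eq_one]
    have h6 := mul_geom_sum (ZMod.stdAddChar (3 * a) : ℂ) (3 ^ m)
    rw [h5, sub_self] at h6
    rcases mul_eq_zero.mp h6 with h7 | h7
    · exact absurd (sub_eq_zero.mp h7) hne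
    · exact h7

open Classical in
theorem units_sum (m : ℕ) (a : ZMod (Q (m + 1))) :
    ∑ ξ : ZMod (Q (m + 1)), (if IsUnit ξ then (ZMod.stdAddChar (ξ * a) : ℂ) else 0) =
      (if a = 0 then (3 : ℂ) ^ (m + 1) else 0) - (if 3 * a = 0 then (3 : ℂ) ^ m else 0) := by
  rw [← nonunits_sum, eq_sub_iff_add_eq, ← Finset.sum_add_distrib]
  have h1 := char_sum a
  have h2 : ((Q (m + 1) : ℕ) : ℂ) = 3 ^ (m + 1) := by unfold Q; push_cast; rfl
  rw [h2] at h1
  rw [← h1]
  apply Finset.sum_congr rfl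
  intro ξ _
  split_ifs <;> simp

end Pool.Agent.Helper3.TD
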