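import Pool.Agent.Helper3.TD.Fs
import Pool.Agent.Helper3.TD.Pars

/-! The square mean estimate for one frequency band. -/

namespace Pool.Agent.Helper3.TD

open Pool.Agent.Helper3.ND

theorem cc_inj {u : ℕ} {y y' : ℕ} (hy : y < 2 ^ u) (hy' : y' < 2 ^ u) (hod : od u (y : ℤ) = od u (y' : ℤ))
    (hcc : cc u (y : ℤ) = cc u (y' : ℤ)) : y = y' := by
  have h1 := affine u (y : ℤ)
  have h2 := affine u (y' : ℤ)
  rw [← hod, ← hcc] at h2
  have h3 : (3 : ℤ) ^ od u (y : ℤ) * ((y : ℤ) - y') = 2 ^ u * (T^[u] (y : ℤ) - T^[u] (y' : ℤ)) := by linarith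
  have h4 : (2 : ℤ) ^ u ∣ (y : ℤ) - y' := by
    have h5 : (2 : ℤ) ^ u ∣ 3 ^ od u (y : ℤ) * ((y : ℤ) - y') := ⟨_, h3⟩
    apply IsCoprime.dvd_of_dvd_mul_left _ h5
    apply IsCoprime.pow
    norm_num [Int.isCoprime_iff_gcd_eq_one]
  have h6 : |(y : ℤ) - y'| < 2 ^ u := by
    have a1 : (y : ℤ) < 2 ^ u := by exact_mod_cast hy
    have a2 : (y' : ℤ) < 2 ^ u := by exact_mod_cast hy'
    rw [abs_lt]
    constructor <;> linarith [Int.natCast_nonneg y, Int.natCast_nonneg y']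
  have := Int.eq_zero_of_abs_lt_dvd h4 h6
  omega

theorem zmod_inj {n u : ℕ} {a b : ℤ} (ha0 : 0 ≤ a) (ha : a < 3 ^ n) (hb0 : 0 ≤ b) (hb : b < 3 ^ n)
    (h : hf n ^ u * (a : ZMod (Q n)) = hf n ^ u * (b : ZMod (Q n))) : a = b := by
  have h1 : (a : ZMod (Q n)) = (b : ZMod (Q n)) := ((hf_unit n).pow u).mul_left_cancel h
  have h2 := dvd_of_cast h1
  have h3 : |a - b| < 3 ^ n := by rw [abs_lt]; constructor <;> linarith
  have := Int.eq_zero_of_abs_lt_dvd h2 h3
  omega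

open Classical in
/-- inner character sum over the good last digits -/
noncomputable def Ib (n u : ℕ) (G : ℕ → Prop) (B : ℕ) (ξ : ZMod (Q n)) : ℂ :=
  ∑ y ∈ Finset.range (2 ^ u), if G y ∧ od u (y : ℤ) = B then
    (ZMod.stdAddChar (ξ * hf n ^ u * ((cc u (y : ℤ) : ℤ) : ZMod (Q n))) : ℂ) else 0

open Classical in
theorem Ib_sq (n u : ℕ) (G : ℕ → Prop) (B : ℕ) (hG : ∀ y < 2 ^ u, G y → cc u (y : ℤ) < 3 ^ n) :
    ∑ ξ : ZMod (Q n), ‖Ib n u G B ξ‖ ^ 2 ≤
      (Q n : ℝ) * ((Finset.range (2 ^ u)).filter (fun y : ℕ => G y ∧ od u (y : ℤ) = B)).card := by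
  obtain ⟨S, hS⟩ : ∃ S, S = (Finset.range (2 ^ u)).filter (fun y : ℕ => G y ∧ od u (y : ℤ) = B) := ⟨_, rfl⟩
  obtain ⟨b, hb⟩ : ∃ b : ℕ → ZMod (Q n), b = fun y : ℕ => hf n ^ u * ((cc u (y : ℤ) : ℤ) : ZMod (Q n)) := ⟨_, rfl⟩
  rw [← hS]
  have hinj : Set.InjOn b (S : Set ℕ) := by
    intro y hy y' hy' h
    rw [hS, Finset.mem_coe, Finset.mem_filter, Finset.mem_range] at hy hy'
    rw [hb] at h
    simp only at h
    apply cc_inj hy.1 hy'.1 (by rw [hy.2.2, hy'.2.2])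
    exact zmod_inj (cc_nonneg _ _) (hG _ hy.1 hy.2.1) (cc_nonneg _ _) (hG _ hy'.1 hy'.2.1) h
  obtain ⟨c, hc⟩ : ∃ c : ZMod (Q n) → ℂ, c = fun x => if x ∈ S.image b then 1 else 0 := ⟨_, rfl⟩
  have h1 : ∀ ξ, Ib n u G B ξ = ∑ x : ZMod (Q n), c x * (ZMod.stdAddChar (x * ξ) : ℂ) := by
    intro ξ
    unfold Ib
    rw [← Finset.sum_filter, ← hS, hc]
    simp only [ite_mul, one_mul, zero_mul]
    rw [← Finset.sum_filter, Finset.filter_mem_eq_inter, Finset.univ_inter, Finset.sum_image hinj]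
    apply Finset.sum_congr rfl
    intro y _
    rw [hb]
    congr 1
    ring
  rw [Finset.sum_congr rfl (fun ξ _ => by rw [h1 ξ]), pars]
  have h2 : ∑ ξ : ZMod (Q n), ‖c ξ‖ ^ 2 = (S.card : ℝ) := by
    rw [hc]
    have : ∀ ξ : ZMod (Q n), ‖(if ξ ∈ S.image b then (1 : ℂ) else 0)‖ ^ 2 = if ξ ∈ S.image b then (1 : ℝ) else 0 := by
      intro ξ; split_ifs <;> simp
    rw [Finset.sum_congr rfl (fun ξ _ => this ξ), ← Finset.sum_filter, Finset.filter_mem_eq_inter,
      Finset.univ_inter, Finset.sum_const, nsmul_eq_mul, mul_one, Finset.card_image_of_injOn hinj]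
  rw [h2]

open Classical in
/-- the weighted character sum -/
noncomputable def Cw (n s u k : ℕ) (G : ℕ → Prop) (ξ : ZMod (Q n)) : ℂ :=
  ∑ r ∈ Finset.range (2 ^ (s + u)), if od (s + u) (r : ℤ) = k then
    (if G (yy s u r) then 1 else 0) * (ZMod.stdAddChar (ξ * ((T^[s + u] (r : ℤ) : ℤ) : ZMod (Q n))) : ℂ) else 0

theorem three_pow_zero {n k : ℕ} (hk : n ≤ k) : (3 : ZMod (Q n)) ^ k = 0 := by
  have h1 : ((Q n : ℕ) : ZMod (Q n)) = 0 := ZMod.natCast_self _
  have h2 : ((Q n : ℕ) : ZMod (Q n)) = (3 : ZMod (Q n)) ^ n := by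
    have : Q n = 3 ^ n := rfl
    rw [this]; push_cast; rfl
  obtain ⟨d, rfl⟩ := Nat.exists_eq_add_of_le hk
  rw [pow_add, ← h2, h1, zero_mul]

open Classical in
theorem Cw_eq (n s u k : ℕ) (hk : n ≤ k) (G : ℕ → Prop) (ξ : ZMod (Q n)) :
    Cw n s u k G ξ = ∑ B ∈ Finset.range (u + 1),
      (if B ≤ k then X n s (ξ * hf n ^ u * 3 ^ B) (k - B) else 0) * Ib n u G B ξ := by
  unfold Cw
  have hz : ξ * 3 ^ k = 0 := by rw [three_pow_zero hk, mul_zero]
  rw [Fs_split n s u k ξ hz (fun y => if G y then 1 else 0)]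
  unfold Ib
  rw [Finset.sum_congr rfl (fun B _ => Finset.mul_sum _ _ _), Finset.sum_comm]
  apply Finset.sum_congr rfl
  intro y _
  have hB : od u (y : ℤ) ∈ Finset.range (u + 1) := by
    rw [Finset.mem_range]; have := od_le u (y : ℤ); omega
  rw [Finset.sum_eq_single_of_mem _ hB]
  · by_cases h1 : od u (y : ℤ) ≤ k
    · rw [if_pos h1, if_pos h1]
      have hz2 : ξ * hf n ^ u * 3 ^ od u (y : ℤ) * 3 ^ (k - od u (y : ℤ)) = 0 := by
        rw [mul_assoc, ← pow_add, Nat.add_sub_cancel' h1, three_pow_zero hk, mul_zero]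
      rw [Fs_eq_X n s _ _ hz2]
      by_cases h2 : G y
      · simp [h2]; ring
      · simp [h2]
    · rw [if_neg h1, if_neg h1, zero_mul]
  · intro B _ hne
    have h3 : ¬ (G y ∧ od u (y : ℤ) = B) := fun h => hne h.2.symm
    rw [if_neg h3, mul_zero]

open Classical in
theorem Cw_sq (n s u k : ℕ) (hk : n ≤ k) (G : ℕ → Prop) (hG : ∀ y < 2 ^ u, G y → cc u (y : ℤ) < 3 ^ n) (β : ℝ)
    (hβ0 : 0 ≤ β)
    (hβ : ∀ ξ : ZMod (Q n), IsUnit ξ → ∀ y < 2 ^ u, G y → od u (y : ℤ) ≤ k →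
      ‖X n s (ξ * 3 ^ od u (y : ℤ)) (k - od u (y : ℤ))‖ ≤ β * 2 ^ s) :
    ∑ ξ : ZMod (Q n), (if IsUnit ξ then ‖Cw n s u k G ξ‖ ^ 2 else 0) ≤
      (u + 1) * (β * 2 ^ s) ^ 2 * ((Q n : ℝ) * 2 ^ u) := by
  have h1 : ∀ ξ : ZMod (Q n), (if IsUnit ξ then ‖Cw n s u k G ξ‖ ^ 2 else 0) ≤
      (u + 1) * (β * 2 ^ s) ^ 2 * ∑ B ∈ Finset.range (u + 1), ‖Ib n u G B ξ‖ ^ 2 := by
    intro ξ
    split_ifs with hξ
    · rw [Cw_eq n s u k hk]
      have h2 : ∀ B ∈ Finset.range (u + 1), ‖(if B ≤ k then X n s (ξ * hf n ^ u * 3 ^ B) (k - B) else 0) * Ib n u G B ξ‖ ≤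
          (β * 2 ^ s) * ‖Ib n u G B ξ‖ := by
        intro B _
        by_cases hI : Ib n u G B ξ = 0
        · rw [hI]; simp
        · rw [norm_mul]
          apply mul_le_mul_of_nonneg_right _ (norm_nonneg _)
          have hex : ∃ y < 2 ^ u, G y ∧ od u (y : ℤ) = B := by
            by_contra hc
            apply hI
            unfold Ib
            apply Finset.sum_eq_zero
            intro y hy
            rw [Finset.mem_range] at hy
            rw [if_neg]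
            intro h
            exact hc ⟨y, hy, h⟩
          obtain ⟨y, hy, hGy, hod⟩ := hex
          split_ifs with hB
          · rw [← hod]
            rw [← hod] at hB
            exact hβ _ (hξ.mul ((hf_unit n).pow u)) y hy hGy hB
          · rw [norm_zero]; positivity
      calc ‖∑ B ∈ Finset.range (u + 1), (if B ≤ k then X n s (ξ * hf n ^ u * 3 ^ B) (k - B) else 0) * Ib n u G B ξ‖ ^ 2
          ≤ (∑ B ∈ Finset.range (u + 1), (β * 2 ^ s) * ‖Ib n u G B ξ‖) ^ 2 := by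
            apply pow_le_pow_left₀ (norm_nonneg _)
            exact le_trans (norm_sum_le _ _) (Finset.sum_le_sum h2)
        _ = (β * 2 ^ s) ^ 2 * (∑ B ∈ Finset.range (u + 1), ‖Ib n u G B ξ‖) ^ 2 := by
            rw [← Finset.mul_sum, mul_pow]
        _ ≤ (β * 2 ^ s) ^ 2 * ((Finset.range (u + 1)).card * ∑ B ∈ Finset.range (u + 1), ‖Ib n u G B ξ‖ ^ 2) := by
            apply mul_le_mul_of_nonneg_left _ (by positivity)
            exact sq_sum_le_card_mul_sum_sq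
        _ = _ := by rw [Finset.card_range]; push_cast; ring
    · have : 0 ≤ ∑ B ∈ Finset.range (u + 1), ‖Ib n u G B ξ‖ ^ 2 := Finset.sum_nonneg (fun _ _ => by positivity)
      positivity
  refine le_trans (Finset.sum_le_sum (fun ξ _ => h1 ξ)) ?_
  rw [← Finset.mul_sum]
  apply mul_le_mul_of_nonneg_left _ (by positivity)
  rw [Finset.sum_comm]
  calc ∑ B ∈ Finset.range (u + 1), ∑ ξ : ZMod (Q n), ‖Ib n u G B ξ‖ ^ 2
      ≤ ∑ B ∈ Finset.range (u + 1), (Q n : ℝ) * ((Finset.range (2 ^ u)).filter (fun y : ℕ => G y ∧ od u (y : ℤ) = B)).card :=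
        Finset.sum_le_sum (fun B _ => Ib_sq n u G B hG)
    _ = (Q n : ℝ) * ((∑ B ∈ Finset.range (u + 1), ((Finset.range (2 ^ u)).filter (fun y : ℕ => G y ∧ od u (y : ℤ) = B)).card : ℕ) : ℝ) := by
        rw [← Finset.mul_sum]; push_cast; rfl
    _ ≤ (Q n : ℝ) * ((2 ^ u : ℕ) : ℝ) := by
        apply mul_le_mul_of_nonneg_left _ (by positivity)
        have h3 : ∑ B ∈ Finset.range (u + 1), ((Finset.range (2 ^ u)).filter (fun y : ℕ => G y ∧ od u (y : ℤ) = B)).card ≤ 2 ^ u := by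
          calc ∑ B ∈ Finset.range (u + 1), ((Finset.range (2 ^ u)).filter (fun y : ℕ => G y ∧ od u (y : ℤ) = B)).card
              ≤ ∑ B ∈ Finset.range (u + 1), ((Finset.range (2 ^ u)).filter (fun y : ℕ => od u (y : ℤ) = B)).card := by
                apply Finset.sum_le_sum
                intro B _
                apply Finset.card_le_card
                intro y hy
                rw [Finset.mem_filter] at hy ⊢
                exact ⟨hy.1, hy.2.2⟩
            _ = (Finset.range (2 ^ u)).card := by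
                rw [← Finset.card_eq_sum_card_fiberwise]
                intro y _
                simp only [Finset.coe_range, Set.mem_Iio]
                have := od_le u (y : ℤ)
                omega
            _ = 2 ^ u := Finset.card_range _
        exact_mod_cast h3
    _ = _ := by push_cast; rfl

end Pool.Agent.Helper3.TD
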