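import Pool.Agent.Helper3.TD.Decay

/-! Character sums over parity strings are controlled by the weighted walk. -/

namespace Pool.Agent.Helper3.TD

open Complex

/-- the modulus `3 ^ n` -/
abbrev Q (n : ℕ) : ℕ := 3 ^ n

instance (n : ℕ) : NeZero (Q n) := ⟨by unfold Q; positivity⟩

/-- inverse of `2` -/
noncomputable def hf (n : ℕ) : ZMod (Q n) := (2 : ZMod (Q n))⁻¹

theorem two_hf (n : ℕ) : (2 : ZMod (Q n)) * hf n = 1 := by
  have h : Nat.Coprime 2 (Q n) := by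
    unfold Q
    exact Nat.Coprime.pow_right n (by norm_num)
  have := ZMod.coe_mul_inv_eq_one 2 h
  unfold hf
  exact_mod_cast this

/-- character sum over parity strings of length `t` with `k` ones -/
noncomputable def X (n : ℕ) : ℕ → ZMod (Q n) → ℕ → ℂ
  | 0, _, k => if k = 0 then 1 else 0
  | t + 1, z, 0 => X n t (hf n * z) 0
  | t + 1, z, k + 1 => X n t (hf n * z) (k + 1) + ZMod.stdAddChar (hf n * z) * X n t (3 * (hf n * z)) k

theorem norm_char {N : ℕ} [NeZero N] (x : ZMod N) : ‖(ZMod.stdAddChar x : ℂ)‖ = 1 := by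
  rw [ZMod.stdAddChar_apply]; exact Circle.norm_coe _

theorem X_le_choose (n t : ℕ) : ∀ z k, ‖X n t z k‖ ≤ (t.choose k : ℝ) := by
  induction t with
  | zero =>
    intro z k
    cases k with
    | zero => simp [X]
    | succ k => simp [X]
  | succ t ih =>
    intro z k
    cases k with
    | zero =>
      have := ih (hf n * z) 0
      simpa [X] using this
    | succ k =>
      have h1 := ih (hf n * z) (k + 1)
      have h2 := ih (3 * (hf n * z)) k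
      rw [Nat.choose_succ_succ]
      push_cast
      calc ‖X n (t + 1) z (k + 1)‖ ≤ ‖X n t (hf n * z) (k + 1)‖ + ‖(ZMod.stdAddChar (hf n * z) : ℂ) * X n t (3 * (hf n * z)) k‖ := by
            simp only [X]; exact norm_add_le _ _
        _ = ‖X n t (hf n * z) (k + 1)‖ + ‖X n t (3 * (hf n * z)) k‖ := by
            rw [norm_mul, norm_char, one_mul]
        _ ≤ _ := by linarith

/-- value with index shift, zero for negative index -/
noncomputable def Xm (n t : ℕ) (z : ZMod (Q n)) (k s : ℕ) : ℂ := if s ≤ k then X n t z (k - s) else 0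

theorem X_two (n t : ℕ) (z : ZMod (Q n)) (k : ℕ) :
    ‖X n (t + 2) z k‖ ≤ ‖Xm n t (hf n ^ 2 * z) k 0‖ +
      ‖1 + (ZMod.stdAddChar (hf n ^ 2 * z) : ℂ)‖ * ‖Xm n t (3 * (hf n ^ 2 * z)) k 1‖ +
      ‖Xm n t (9 * (hf n ^ 2 * z)) k 2‖ := by
  have e1 : hf n * (hf n * z) = hf n ^ 2 * z := by ring
  have e2 : hf n * (3 * (hf n * z)) = 3 * (hf n ^ 2 * z) := by ring
  have e3 : 3 * (3 * (hf n ^ 2 * z)) = 9 * (hf n ^ 2 * z) := by ring
  have e4 : hf n * z = 2 * (hf n ^ 2 * z) := by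
    have := two_hf n
    calc hf n * z = (2 * hf n) * (hf n * z) := by rw [this, one_mul]
      _ = _ := by ring
  rcases k with _ | _ | k
  · simp only [X, Xm, e1]
    simp
  · simp only [X, Xm, zero_add, e1, e2]
    have h1 : X n t (hf n ^ 2 * z) 1 + (ZMod.stdAddChar (hf n ^ 2 * z) : ℂ) * X n t (3 * (hf n ^ 2 * z)) 0 +
        (ZMod.stdAddChar (hf n * z) : ℂ) * X n t (3 * (hf n ^ 2 * z)) 0 =
        X n t (hf n ^ 2 * z) 1 + (ZMod.stdAddChar (hf n ^ 2 * z) : ℂ) *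
          ((1 + (ZMod.stdAddChar (hf n ^ 2 * z) : ℂ)) * X n t (3 * (hf n ^ 2 * z)) 0) := by
      have : (ZMod.stdAddChar (hf n * z) : ℂ) = (ZMod.stdAddChar (hf n ^ 2 * z) : ℂ) * (ZMod.stdAddChar (hf n ^ 2 * z) : ℂ) := by
        rw [← AddChar.map_add_eq_mul]; congr 1; rw [e4]; ring
      rw [this]; ring
    rw [h1]
    refine le_trans (norm_add_le _ _) ?_
    rw [norm_mul, norm_char, one_mul, norm_mul]
    simp
  · simp only [X, Xm, e1, e2, e3]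
    have h1 : X n t (hf n ^ 2 * z) (k + 1 + 1) + (ZMod.stdAddChar (hf n ^ 2 * z) : ℂ) * X n t (3 * (hf n ^ 2 * z)) (k + 1) +
        (ZMod.stdAddChar (hf n * z) : ℂ) * (X n t (3 * (hf n ^ 2 * z)) (k + 1) +
          (ZMod.stdAddChar (3 * (hf n ^ 2 * z)) : ℂ) * X n t (9 * (hf n ^ 2 * z)) k) =
        X n t (hf n ^ 2 * z) (k + 1 + 1) + (ZMod.stdAddChar (hf n ^ 2 * z) : ℂ) *
          ((1 + (ZMod.stdAddChar (hf n ^ 2 * z) : ℂ)) * X n t (3 * (hf n ^ 2 * z)) (k + 1)) +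
        (ZMod.stdAddChar (hf n * z) : ℂ) * ((ZMod.stdAddChar (3 * (hf n ^ 2 * z)) : ℂ) * X n t (9 * (hf n ^ 2 * z)) k) := by
      have : (ZMod.stdAddChar (hf n * z) : ℂ) = (ZMod.stdAddChar (hf n ^ 2 * z) : ℂ) * (ZMod.stdAddChar (hf n ^ 2 * z) : ℂ) := by
        rw [← AddChar.map_add_eq_mul]; congr 1; rw [e4]; ring
      rw [this]; ring
    rw [h1]
    refine le_trans (norm_add_le _ _) ?_
    refine add_le_add (le_trans (norm_add_le _ _) ?_) ?_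
    · rw [norm_mul, norm_char, one_mul, norm_mul]
      simp
    · rw [norm_mul, norm_char, one_mul, norm_mul, norm_char, one_mul]
      simp

/-- lattice values -/
noncomputable def xv (n : ℕ) (ξ : ZMod (Q n)) (j h : ℕ) : ZMod (Q n) := ξ * 3 ^ h * (hf n ^ 2) ^ (j + 1)

noncomputable def pv (n : ℕ) (ξ : ZMod (Q n)) (j h : ℕ) : ℤ := (xv n ξ j h).valMinAbs

noncomputable def gv (n : ℕ) (ξ : ZMod (Q n)) (j h : ℕ) : ℝ := ‖1 + (ZMod.stdAddChar (xv n ξ j h) : ℂ)‖ / 2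

theorem X_le_V (n : ℕ) (ξ : ZMod (Q n)) (t : ℕ) (S : ℝ) (hS : ∀ k, (t.choose k : ℝ) ≤ S) (R : ℕ) :
    ∀ j h k, ‖X n (2 * R + t) (ξ * 3 ^ h * (hf n ^ 2) ^ j) k‖ ≤ 4 ^ R * S * V (gv n ξ) R j h := by
  have hS0 : 0 ≤ S := le_trans (by positivity) (hS 0)
  have hg0 : ∀ j h, 0 ≤ gv n ξ j h := fun j h => by unfold gv; positivity
  induction R with
  | zero =>
    intro j h k
    rw [V_zero]
    simpa using le_trans (X_le_choose n t _ k) (hS k)
  | succ R ih =>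
    intro j h k
    have hm : ∀ h' s, ‖Xm n (2 * R + t) (ξ * 3 ^ h' * (hf n ^ 2) ^ (j + 1)) k s‖ ≤ 4 ^ R * S * V (gv n ξ) R (j + 1) h' := by
      intro h' s
      unfold Xm
      split_ifs with hs
      · exact ih (j + 1) h' _
      · rw [norm_zero]
        exact mul_nonneg (mul_nonneg (by positivity) hS0) (V_nonneg hg0 _ _ _)
    have e : 2 * (R + 1) + t = (2 * R + t) + 2 := by ring
    have e0 : hf n ^ 2 * (ξ * 3 ^ h * (hf n ^ 2) ^ j) = ξ * 3 ^ h * (hf n ^ 2) ^ (j + 1) := by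
      rw [pow_succ]; ring
    have e1 : 3 * (ξ * 3 ^ h * (hf n ^ 2) ^ (j + 1)) = ξ * 3 ^ (h + 1) * (hf n ^ 2) ^ (j + 1) := by
      rw [pow_succ 3]; ring
    have e2 : 9 * (ξ * 3 ^ h * (hf n ^ 2) ^ (j + 1)) = ξ * 3 ^ (h + 2) * (hf n ^ 2) ^ (j + 1) := by
      rw [pow_add]; ring
    rw [e]
    refine le_trans (X_two n _ _ k) ?_
    rw [e0, e1, e2]
    have a0 := hm h 0
    have a1 := hm (h + 1) 1
    have a2 := hm (h + 2) 2
    have hgx : ‖1 + (ZMod.stdAddChar (ξ * 3 ^ h * (hf n ^ 2) ^ (j + 1)) : ℂ)‖ = 2 * gv n ξ j h := by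
      unfold gv xv; ring
    rw [hgx]
    have a3 := mul_le_mul_of_nonneg_left a1 (show 0 ≤ 2 * gv n ξ j h by linarith [hg0 j h])
    rw [V_succ, pow_succ (4 : ℝ) R]
    linarith

theorem pv_cast (n : ℕ) (ξ : ZMod (Q n)) (j h : ℕ) : ((pv n ξ j h : ℤ) : ZMod (Q n)) = xv n ξ j h :=
  ZMod.coe_valMinAbs _

theorem four_hf (n : ℕ) : (4 : ZMod (Q n)) * hf n ^ 2 = 1 := by
  have := two_hf n
  calc (4 : ZMod (Q n)) * hf n ^ 2 = (2 * hf n) * (2 * hf n) := by ring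
    _ = 1 := by rw [this, one_mul]

theorem Q_cast (n : ℕ) : ((Q n : ℕ) : ℤ) = 3 ^ n := by unfold Q; push_cast; rfl

theorem dvd_of_cast {n : ℕ} {a b : ℤ} (h : (a : ZMod (Q n)) = (b : ZMod (Q n))) : (3 : ℤ) ^ n ∣ a - b := by
  rw [← Q_cast, ← ZMod.intCast_zmod_eq_zero_iff_dvd, Int.cast_sub, h, sub_self]

theorem arr_pv (n : ℕ) (ξ : ZMod (Q n)) : Arr (3 ^ n) (pv n ξ) where
  pos := by positivity
  half := by
    intro j h
    have := ZMod.valMinAbs_mem_Ioc (xv n ξ j h)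
    rw [Set.mem_Ioc, Q_cast] at this
    have h2 : (2 : ℤ) * |pv n ξ j h| = |pv n ξ j h * 2| := by rw [abs_mul]; norm_num; ring
    rw [h2, abs_le]
    exact ⟨this.1.le, this.2⟩
  up := by
    intro j h
    apply dvd_of_cast
    push_cast
    rw [pv_cast, pv_cast]
    unfold xv
    rw [pow_succ 3]; ring
  right := by
    intro j h
    apply dvd_of_cast
    push_cast
    rw [pv_cast, pv_cast]
    unfold xv
    have := four_hf n
    calc ξ * 3 ^ h * (hf n ^ 2) ^ (j + 1) = (4 * hf n ^ 2) * (ξ * 3 ^ h * (hf n ^ 2) ^ (j + 1)) := by rw [this, one_mul]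
      _ = _ := by rw [pow_succ _ (j + 1)]; ring

theorem hf_unit (n : ℕ) : IsUnit (hf n) := IsUnit.of_mul_eq_one_right _ (two_hf n)

theorem pow_three_ne (n h : ℕ) (hh : h < n) : (3 : ZMod (Q n)) ^ h ≠ 0 := by
  intro h0
  have h1 : ((3 ^ h : ℕ) : ZMod (Q n)) = 0 := by push_cast; exact h0
  rw [ZMod.natCast_eq_zero_iff] at h1
  have := Nat.le_of_dvd (by positivity) h1
  have h2 : 3 ^ h < 3 ^ n := Nat.pow_lt_pow_right (by norm_num) hh
  unfold Q at this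
  omega

theorem size_pv (n : ℕ) (ξ : ZMod (Q n)) (hξ : IsUnit ξ) (j h : ℕ) (hh : h < n) : 3 ^ h ≤ |pv n ξ j h| := by
  have hne : pv n ξ j h ≠ 0 := by
    intro h0
    have h1 := pv_cast n ξ j h
    rw [h0, Int.cast_zero] at h1
    unfold xv at h1
    have h2 : IsUnit (ξ * (hf n ^ 2) ^ (j + 1)) := hξ.mul (((hf_unit n).pow 2).pow (j + 1))
    have h3 : (ξ * (hf n ^ 2) ^ (j + 1)) * 3 ^ h = 0 := by rw [h1]; ring
    rw [h2.mul_right_eq_zero] at h3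
    exact pow_three_ne n h hh h3
  have hdvd : (3 : ℤ) ^ h ∣ pv n ξ j h := by
    obtain ⟨w, hw⟩ : ∃ w : ℤ, (w : ZMod (Q n)) = ξ * (hf n ^ 2) ^ (j + 1) :=
      ⟨(ξ * (hf n ^ 2) ^ (j + 1)).valMinAbs, ZMod.coe_valMinAbs _⟩
    have h1 : ((pv n ξ j h : ℤ) : ZMod (Q n)) = ((3 ^ h * w : ℤ) : ZMod (Q n)) := by
      rw [pv_cast]; push_cast; rw [hw]; unfold xv; ring
    have h2 := dvd_of_cast h1
    have h3 : (3 : ℤ) ^ h ∣ 3 ^ n := pow_dvd_pow 3 hh.le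
    have h4 := dvd_trans h3 h2
    have h5 := dvd_add h4 (Dvd.intro w rfl : (3 : ℤ) ^ h ∣ 3 ^ h * w)
    simpa using h5
  exact Int.le_of_dvd (abs_pos.mpr hne) ((dvd_abs _ _).mpr hdvd)

/-- the constant for white points -/
noncomputable def θ0 : ℝ := (1 + Real.sqrt ((1 + Real.cos (Real.pi / 50)) / 2)) / 2

theorem cos_lt : Real.cos (Real.pi / 50) < 1 := by
  rw [← Real.cos_zero]
  apply Real.cos_lt_cos_of_nonneg_of_le_pi le_rfl (by linarith [Real.pi_pos]) (by linarith [Real.pi_pos])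

theorem θ0_nonneg : 0 ≤ θ0 := by unfold θ0; positivity

theorem θ0_lt : θ0 < 1 := by
  unfold θ0
  have h1 : Real.sqrt ((1 + Real.cos (Real.pi / 50)) / 2) < 1 := by
    rw [Real.sqrt_lt' one_pos]
    linarith [cos_lt]
  linarith

theorem norm_one_add_exp (φ : ℝ) : ‖1 + cexp (φ * I)‖ ^ 2 = 2 + 2 * Real.cos φ := by
  rw [← Complex.normSq_eq_norm_sq, Complex.normSq_apply, Complex.exp_mul_I]
  simp [← Complex.ofReal_cos, ← Complex.ofReal_sin]
  nlinarith [Real.sin_sq_add_cos_sq φ]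

theorem gv_white (n : ℕ) (ξ : ZMod (Q n)) (j h : ℕ) (hw : ¬ bl (3 ^ n) (pv n ξ) j h) :
    (1 + gv n ξ j h) / 2 ≤ θ0 := by
  unfold bl at hw
  push Not at hw
  have hhalf := (arr_pv n ξ).half j h
  have hx := pv_cast n ξ j h
  obtain ⟨p, hp⟩ : ∃ p, p = pv n ξ j h := ⟨_, rfl⟩
  rw [← hp] at hw hhalf hx
  obtain ⟨q, hq⟩ : ∃ q : ℝ, q = (3 : ℝ) ^ n := ⟨_, rfl⟩
  have hqpos : 0 < q := by rw [hq]; positivity
  obtain ⟨φ, hφ⟩ : ∃ φ : ℝ, φ = 2 * Real.pi * p / q := ⟨_, rfl⟩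
  have hchar : (ZMod.stdAddChar (xv n ξ j h) : ℂ) = cexp (φ * I) := by
    rw [← hx, ZMod.stdAddChar_coe, hφ, hq]
    congr 1
    push_cast
    ring
  have hpr : |(p : ℝ)| ≤ q / 2 := by
    have : (2 : ℝ) * |(p : ℝ)| ≤ 3 ^ n := by exact_mod_cast hhalf
    rw [hq]; linarith
  have hpr2 : q / 100 ≤ |(p : ℝ)| := by
    have : (3 : ℝ) ^ n ≤ 100 * |(p : ℝ)| := by exact_mod_cast hw
    rw [hq]; linarith
  have hφabs : |φ| = 2 * Real.pi * |(p : ℝ)| / q := by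
    rw [hφ, abs_div, abs_mul, abs_mul, abs_two, abs_of_pos Real.pi_pos, abs_of_pos hqpos]
  have h1 : Real.pi / 50 ≤ |φ| := by
    rw [hφabs, le_div_iff₀ hqpos]
    nlinarith [Real.pi_pos]
  have h2 : |φ| ≤ Real.pi := by
    rw [hφabs, div_le_iff₀ hqpos]
    nlinarith [Real.pi_pos]
  have hcos : Real.cos φ ≤ Real.cos (Real.pi / 50) := by
    rw [← Real.cos_abs φ]
    exact Real.cos_le_cos_of_nonneg_of_le_pi (by positivity) h2 h1
  have hg : gv n ξ j h ≤ Real.sqrt ((1 + Real.cos (Real.pi / 50)) / 2) := by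
    apply Real.le_sqrt_of_sq_le
    unfold gv
    rw [hchar, div_pow, norm_one_add_exp]
    linarith
  unfold θ0
  linarith

theorem good (n : ℕ) (ξ : ZMod (Q n)) (hξ : IsUnit ξ) : Good n (pv n ξ) (gv n ξ) θ0 where
  arr := arr_pv n ξ
  size := fun j h hh => size_pv n ξ hξ j h hh
  g0 := fun j h => by unfold gv; positivity
  g1 := fun j h => by
    unfold gv
    have : ‖1 + (ZMod.stdAddChar (xv n ξ j h) : ℂ)‖ ≤ 2 := by
      refine le_trans (norm_add_le _ _) ?_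
      rw [norm_one, norm_char]; norm_num
    linarith
  gw := fun j h hw => gv_white n ξ j h hw

/-- **Decay of character sums** -/
theorem X_decay (a : ℕ) : ∃ C : ℝ, 0 < C ∧ ∀ (n : ℕ) (ξ : ZMod (Q n)), IsUnit ξ → ∀ (h M R y t k : ℕ) (S : ℝ),
    h + M = n → (y : ℝ) ≤ (M : ℝ) ^ (3 / 5 : ℝ) → M ≤ R + y → (∀ k, (t.choose k : ℝ) ≤ S) →
      ‖X n (2 * R + t) (ξ * 3 ^ h) k‖ * (M : ℝ) ^ a ≤ C * (4 ^ R * S) := by
  obtain ⟨C, hC, hC2⟩ := decay θ0 θ0_nonneg θ0_lt a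
  refine ⟨C, hC, ?_⟩
  intro n ξ hξ h M R y t k S hM hy hR hS
  have h1 := X_le_V n ξ t S hS R 0 h k
  rw [pow_zero, mul_one] at h1
  have h2 := hC2 n _ _ (good n ξ hξ) 0 h M R y hM hy hR
  have hS0 : 0 ≤ S := le_trans (by positivity) (hS 0)
  calc ‖X n (2 * R + t) (ξ * 3 ^ h) k‖ * (M : ℝ) ^ a ≤ (4 ^ R * S * V (gv n ξ) R 0 h) * (M : ℝ) ^ a := by gcongr
    _ = (4 ^ R * S) * (V (gv n ξ) R 0 h * (M : ℝ) ^ a) := by ring
    _ ≤ (4 ^ R * S) * C := by gcongr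
    _ = _ := by ring

end Pool.Agent.Helper3.TD
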