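import Pool.Agent.Helper3.TD.Kern2

/-! The kernel theorem. -/

namespace Pool.Agent.Helper3.TD

open Pool.Agent.Helper3.ND

theorem exp_neg_le_inv {x : ℝ} (hx : 0 < x) : Real.exp (-x) ≤ 1 / x := by
  rw [Real.exp_neg, inv_eq_one_div]
  apply one_div_le_one_div_of_le hx
  linarith [Real.add_one_le_exp x]

theorem KS_spec {t m k : ℕ} (h : k ∈ KS t m) : m ≤ k ∧ TypK t k := by
  classical
  unfold KS at h
  exact (Finset.mem_filter.mp h).2

/-- replacing the density at time `t` by the limiting density -/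
theorem stepD {Φ : ℤ → ℝ} (hΦ0 : ∀ N, 0 ≤ Φ N) (hΦ1 : ∀ N, Φ N ≤ 1) {s1 s m : ℕ} (ht : 10 ^ 3 ≤ s1 + s) (hm : 5 * m ≤ 2 * (s1 + s))
    (hs : 3 * m ≤ s) (hs1 : 1 ≤ s) {b W : ℝ} (hW : 0 < W) (hg : ∀ k ∈ KS (s1 + s) m, 4 * 3 ^ k ≤ Real.exp (b - W))
    (hgm : 4 * 3 ^ m ≤ Real.exp (b - W)) (X : ℤ) :
    |∑ M ∈ Finset.Icc (-X) X, Φ M * om b W M * ∑ k ∈ KS (s1 + s) m, D k (s1 + s) k (fun _ => True) M - SD Φ X m s b W| ≤
      2 * (2 * W + 1) * (∑ k ∈ KS (s1 + s) m, Av k (fun M => |D k (s1 + s) k (fun _ => True) M - D m (s1 + s) k (fun _ => True) M|) +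
        (2 * Real.exp (-((s : ℝ) / 18)) + 2 * Real.exp (-(((s1 + s : ℕ) : ℝ) ^ (1 / 10 : ℝ))))) := by
  classical
  obtain ⟨K, hK⟩ : ∃ K, K = KS (s1 + s) m := ⟨_, rfl⟩
  rw [← hK] at hg ⊢
  obtain ⟨h, hh⟩ : ∃ h : ℤ → ℝ, h = fun M => ∑ k ∈ K, D m (s1 + s) k (fun r => ¬ m ≤ od s (yy s1 s r : ℤ)) M +
      ∑ k ∈ Finset.range (s1 + s + 1) \ K, D m (s1 + s) k (fun r => m ≤ od s (yy s1 s r : ℤ)) M := ⟨_, rfl⟩
  have hh0 : ∀ M, 0 ≤ h M := by
    intro M
    rw [hh]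
    exact add_nonneg (Finset.sum_nonneg (fun k _ => D_nonneg _ _ _ _ _)) (Finset.sum_nonneg (fun k _ => D_nonneg _ _ _ _ _))
  have hhp : Per m h := by
    intro M
    rw [hh]
    simp only
    congr 1
    · exact Finset.sum_congr rfl (fun k _ => D_per m (s1 + s) k _ M)
    · exact Finset.sum_congr rfl (fun k _ => D_per m (s1 + s) k _ M)
  have hAvh : Av m h ≤ 2 * Real.exp (-((s : ℝ) / 18)) + 2 * Real.exp (-(((s1 + s : ℕ) : ℝ) ^ (1 / 10 : ℝ))) := by
    rw [hh, Av_add, Av_sum, Av_sum]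
    apply add_le_add
    · rw [Finset.sum_congr rfl (fun k _ => Av_D m (s1 + s) k _)]
      exact few_odd m s1 s hs hs1 K
    · rw [Finset.sum_congr rfl (fun k _ => Av_D m (s1 + s) k _)]
      refine le_trans (mass_set (s1 + s) _ _) ?_
      exact card_out ht hm _ (fun k hk => by rw [← hK]; exact (Finset.mem_sdiff.mp hk).2)
  have h1 : |∑ M ∈ Finset.Icc (-X) X, Φ M * om b W M * ∑ k ∈ K, D k (s1 + s) k (fun _ => True) M - SD Φ X m s b W| ≤
      ∑ M ∈ Finset.Icc (-X) X, (∑ k ∈ K, (if |Real.log |(M : ℝ)| - b| ≤ W then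
        |D k (s1 + s) k (fun _ => True) M - D m (s1 + s) k (fun _ => True) M| / |(M : ℝ)| else 0) +
        (if |Real.log |(M : ℝ)| - b| ≤ W then h M / |(M : ℝ)| else 0)) := by
    unfold SD
    rw [← Finset.sum_sub_distrib]
    refine le_trans (Finset.abs_sum_le_sum_abs _ _) (Finset.sum_le_sum ?_)
    intro M _
    have e1 : Φ M * om b W M * ∑ k ∈ K, D k (s1 + s) k (fun _ => True) M - Φ M * dl m s M * om b W M =
        Φ M * (om b W M * (∑ k ∈ K, (D k (s1 + s) k (fun _ => True) M - D m (s1 + s) k (fun _ => True) M) +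
          (∑ k ∈ K, D m (s1 + s) k (fun _ => True) M - dl m s M))) := by
      rw [Finset.sum_sub_distrib]; ring
    have h2 : |∑ k ∈ K, (D k (s1 + s) k (fun _ => True) M - D m (s1 + s) k (fun _ => True) M) +
          (∑ k ∈ K, D m (s1 + s) k (fun _ => True) M - dl m s M)| ≤
        ∑ k ∈ K, |D k (s1 + s) k (fun _ => True) M - D m (s1 + s) k (fun _ => True) M| + h M := by
      refine le_trans (abs_add_le _ _) (add_le_add (Finset.abs_sum_le_sum_abs _ _) ?_)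
      have := D_dl (m := m) (s1 := s1) (s := s) M
      rw [← hK] at this
      rw [hh]
      exact this
    rw [e1, abs_mul, abs_mul, abs_of_nonneg (hΦ0 M), abs_of_nonneg (om_nonneg _ _ _)]
    have h3 := om_le_win (a := b) hW M
    have h4 : 0 ≤ |∑ k ∈ K, (D k (s1 + s) k (fun _ => True) M - D m (s1 + s) k (fun _ => True) M) +
          (∑ k ∈ K, D m (s1 + s) k (fun _ => True) M - dl m s M)| := abs_nonneg _
    have h5 : om b W M * |∑ k ∈ K, (D k (s1 + s) k (fun _ => True) M - D m (s1 + s) k (fun _ => True) M) +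
          (∑ k ∈ K, D m (s1 + s) k (fun _ => True) M - dl m s M)| ≤
        (if |Real.log |(M : ℝ)| - b| ≤ W then 1 / |(M : ℝ)| else 0) *
          (∑ k ∈ K, |D k (s1 + s) k (fun _ => True) M - D m (s1 + s) k (fun _ => True) M| + h M) := by
      apply mul_le_mul h3 h2 h4
      split_ifs <;> positivity
    refine le_trans (mul_le_mul (hΦ1 M) h5 (mul_nonneg (om_nonneg _ _ _) h4) (by norm_num)) (le_of_eq ?_)
    rw [one_mul]
    split_ifs
    · rw [mul_add, Finset.mul_sum]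
      congr 1
      · apply Finset.sum_congr rfl
        intro k _
        ring
      · ring
    · simp
  refine le_trans h1 ?_
  rw [Finset.sum_add_distrib, Finset.sum_comm]
  have h2 : ∀ k ∈ K, ∑ M ∈ Finset.Icc (-X) X, (if |Real.log |(M : ℝ)| - b| ≤ W then
        |D k (s1 + s) k (fun _ => True) M - D m (s1 + s) k (fun _ => True) M| / |(M : ℝ)| else 0) ≤
      2 * Av k (fun M => |D k (s1 + s) k (fun _ => True) M - D m (s1 + s) k (fun _ => True) M|) * (2 * W + 1) := by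
    intro k hk
    have hmk : m ≤ k := by
      rw [hK] at hk
      unfold KS at hk
      exact (Finset.mem_filter.mp hk).2.1
    have hp : Per k (fun M => |D k (s1 + s) k (fun _ => True) M - D m (s1 + s) k (fun _ => True) M|) := by
      intro x
      simp only
      rw [D_per k (s1 + s) k _ x, (D_per m (s1 + s) k (fun _ => True)).le hmk x]
    exact win_sum3 hp (fun x => abs_nonneg _) hW.le (hg k hk) X
  have h3 := win_sum3 hhp hh0 hW.le hgm X
  have h4 : 2 * Av m h * (2 * W + 1) ≤ 2 * (2 * Real.exp (-((s : ℝ) / 18)) + 2 * Real.exp (-(((s1 + s : ℕ) : ℝ) ^ (1 / 10 : ℝ)))) * (2 * W + 1) := by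
    gcongr
  calc _ ≤ ∑ k ∈ K, 2 * Av k (fun M => |D k (s1 + s) k (fun _ => True) M - D m (s1 + s) k (fun _ => True) M|) * (2 * W + 1) +
        2 * (2 * Real.exp (-((s : ℝ) / 18)) + 2 * Real.exp (-(((s1 + s : ℕ) : ℝ) ^ (1 / 10 : ℝ)))) * (2 * W + 1) :=
          add_le_add (Finset.sum_le_sum h2) (le_trans h3 h4)
    _ = _ := by
        rw [← Finset.sum_mul, ← Finset.mul_sum]
        ring

/-- **Kernel theorem**: the logarithmic sum at `a` against the weighted logarithmic sum at `a - mu t` -/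
theorem kernel : ∃ C : ℝ, 0 < C ∧ ∃ t0 : ℕ, 10 ^ 3 ≤ t0 ∧ ∀ t m s : ℕ, t0 ≤ t → t ≤ 100 * m → 3 * m ≤ s → 2 * s ≤ t →
    ∀ a W : ℝ, 2 * (t : ℝ) ^ (11 / 20 : ℝ) ≤ W → W ≤ t → 16 * W * 10 ^ t ≤ Real.exp (a - W) →
    ∀ X : ℤ, 2 ^ t * Real.exp (a + W) ≤ X → ∀ Φ : ℤ → ℝ, (∀ N, 0 ≤ Φ N) → (∀ N, Φ N ≤ 1) →
    (∀ N : ℤ, Real.exp (a - W) < |(N : ℝ)| → Φ (T^[t] N) = Φ N) →
    |SS Φ X a W - SD Φ X m s (a - mu * t) W| ≤ C * (t : ℝ) ^ (11 / 20 : ℝ) := by
  obtain ⟨C, hC, n0, hn0, H⟩ := mixing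
  obtain ⟨F, hF, hF0⟩ : ∃ F : ℝ, F = (Nat.factorial 20 : ℝ) ∧ 0 < F := ⟨_, rfl, by positivity⟩
  refine ⟨12 * F + 30 + 600 * C + (6 * (3600 + 2 * F)), by positivity, 100 * n0, by omega, ?_⟩
  intro t m s ht htm hs hst a W hW1 hWt hz X hX Φ hΦ0 hΦ1 hinv
  have ht3 : 10 ^ 3 ≤ t := by omega
  have ht' : (10 ^ 3 : ℝ) ≤ t := by exact_mod_cast ht3
  have ht0 : (0 : ℝ) < t := by linarith
  have hmn : n0 ≤ m := by omega
  have hm0 : (0 : ℝ) < m := by
    have : 0 < m := by omega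
    exact_mod_cast this
  obtain ⟨s1, hs1⟩ : ∃ s1, t = s1 + s := ⟨t - s, by omega⟩
  obtain ⟨τ, hτ⟩ : ∃ τ : ℝ, τ = (t : ℝ) ^ (11 / 20 : ℝ) := ⟨_, rfl⟩
  have hτ1 : 1 ≤ τ := by rw [hτ]; exact Real.one_le_rpow (by linarith) (by norm_num)
  have hW : 1 ≤ W := by rw [← hτ] at hW1; linarith
  have hW0 : 0 < W := by linarith
  have hA := stepA hΦ0 hΦ1 ht3 (show 5 * m ≤ 2 * t by omega) hW hz X hinv
  have hB := stepB hΦ0 hΦ1 (m := m) ht3 hW hz X hX
  have hgr : ∀ k, TypK t k → 4 * (3 : ℝ) ^ k ≤ Real.exp (a - mu * t - W) := by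
    intro k hk
    refine le_trans (grow ht3 hk hW hz) ?_
    apply Real.exp_le_exp.mpr
    have : 0 < (t : ℝ) ^ (11 / 20 : ℝ) := Real.rpow_pos_of_pos ht0 _
    linarith
  have hgm : 4 * (3 : ℝ) ^ m ≤ Real.exp (a - mu * t - W) := by
    -- compare with `k = t / 2`
    have hk : TypK t (t / 2) := by
      unfold TypK
      rw [← hτ]
      have h1 : (t : ℝ) / 2 - 1 / 2 ≤ ((t / 2 : ℕ) : ℝ) := by
        have : t ≤ 2 * (t / 2) + 1 := by omega
        have : (t : ℝ) ≤ 2 * ((t / 2 : ℕ) : ℝ) + 1 := by exact_mod_cast this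
        linarith
      have h2 : ((t / 2 : ℕ) : ℝ) ≤ (t : ℝ) / 2 := by
        have : 2 * (t / 2) ≤ t := by omega
        have : 2 * ((t / 2 : ℕ) : ℝ) ≤ (t : ℝ) := by exact_mod_cast this
        linarith
      rw [abs_le]
      constructor <;> linarith
    refine le_trans ?_ (hgr _ hk)
    have : (3 : ℝ) ^ m ≤ 3 ^ (t / 2) := pow_le_pow_right₀ (by norm_num) (by omega)
    linarith
  have hD := stepD hΦ0 hΦ1 (s1 := s1) (s := s) (m := m) (by omega) (by omega) hs (by omega) hW0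
    (b := a - mu * t) (fun k hk => hgr k (by
      rw [← hs1] at hk
      exact (KS_spec hk).2)) hgm X
  rw [← hs1] at hD
  have hM := H t m hmn (by omega)
  -- numerical bounds
  have e1 : Real.exp (-((t : ℝ) ^ (1 / 10 : ℝ))) ≤ F / (t : ℝ) ^ 2 := by
    rw [hF]; exact exp_tail (by linarith)
  have e2 : Real.exp (-((s : ℝ) / 18)) ≤ 18 * 100 / t := by
    have hs0 : (0 : ℝ) < s := by
      have : 0 < s := by omega
      exact_mod_cast this
    refine le_trans (exp_neg_le_inv (show 0 < (s : ℝ) / 18 by positivity)) ?_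
    rw [one_div_div, div_le_div_iff₀ hs0 ht0]
    have : (t : ℝ) ≤ 100 * s := by
      have : t ≤ 100 * s := by omega
      exact_mod_cast this
    nlinarith
  have e3 : (2 * W + 1) ≤ 3 * t := by linarith
  have e4 : F / (t : ℝ) ^ 2 ≤ F / t := by
    apply div_le_div_of_nonneg_left hF0.le ht0
    nlinarith
  have b1 : 4 * Real.exp (-((t : ℝ) ^ (1 / 10 : ℝ))) * (2 * W + 1) ≤ 12 * F := by
    calc 4 * Real.exp (-((t : ℝ) ^ (1 / 10 : ℝ))) * (2 * W + 1) ≤ 4 * (F / t) * (3 * t) := by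
          gcongr
          exact le_trans e1 e4
      _ = 12 * F := by field_simp; norm_num
  have b2 : 2 * (2 * (W + 2 * τ) + 1) * ((2 * τ + 1) / W) ≤ 30 * τ := by
    rw [← hτ] at hW1
    rw [mul_div_assoc', div_le_iff₀ hW0]
    nlinarith
  have b3 : 2 * (2 * W + 1) * (∑ k ∈ KS t m, Av k (fun M => |D k t k (fun _ => True) M - D m t k (fun _ => True) M|) +
        (2 * Real.exp (-((s : ℝ) / 18)) + 2 * Real.exp (-((t : ℝ) ^ (1 / 10 : ℝ))))) ≤ 600 * C * τ + 6 * (3600 + 2 * F) := by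
    have b4 : C * (t : ℝ) ^ (1 / 20 : ℝ) / m ≤ 100 * C * (t : ℝ) ^ (1 / 20 : ℝ) / t := by
      rw [div_le_div_iff₀ hm0 ht0]
      have h1 : (t : ℝ) ≤ 100 * m := by exact_mod_cast htm
      have h2 : 0 < (t : ℝ) ^ (1 / 20 : ℝ) := Real.rpow_pos_of_pos ht0 _
      have h3 : 0 < C * (t : ℝ) ^ (1 / 20 : ℝ) := by positivity
      nlinarith
    have b5 : (t : ℝ) ^ (1 / 20 : ℝ) ≤ τ := by
      rw [hτ]
      exact Real.rpow_le_rpow_of_exponent_le (by linarith) (by norm_num)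
    have c1 := le_trans hM b4
    have c2 := le_trans e1 e4
    have c3 : ∑ k ∈ KS t m, Av k (fun M => |D k t k (fun _ => True) M - D m t k (fun _ => True) M|) +
        (2 * Real.exp (-((s : ℝ) / 18)) + 2 * Real.exp (-((t : ℝ) ^ (1 / 10 : ℝ)))) ≤
        100 * C * (t : ℝ) ^ (1 / 20 : ℝ) / t + (2 * (18 * 100 / t) + 2 * (F / t)) := by linarith
    have c4 : 0 ≤ 100 * C * (t : ℝ) ^ (1 / 20 : ℝ) / t + (2 * (18 * 100 / t) + 2 * (F / t)) := by positivity
    calc _ ≤ 2 * (3 * t) * (100 * C * (t : ℝ) ^ (1 / 20 : ℝ) / t + (2 * (18 * 100 / t) + 2 * (F / t))) := by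
          apply mul_le_mul _ c3 _ (by positivity)
          · linarith
          · have : 0 ≤ ∑ k ∈ KS t m, Av k (fun M => |D k t k (fun _ => True) M - D m t k (fun _ => True) M|) :=
              Finset.sum_nonneg (fun k _ => Av_nonneg (fun x => abs_nonneg _))
            positivity
      _ = 600 * C * (t : ℝ) ^ (1 / 20 : ℝ) + 6 * (3600 + 2 * F) := by field_simp; ring
      _ ≤ _ := by gcongr
  clear hgr hgm H
  have htri := abs_sub_le (SS Φ X a W) (∑ N ∈ Finset.Icc (-X) X, (if od t N ∈ KS t m then Φ (T^[t] N) * om a W N else 0)) (SD Φ X m s (a - mu * t) W)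
  have htri2 := abs_sub_le (∑ N ∈ Finset.Icc (-X) X, (if od t N ∈ KS t m then Φ (T^[t] N) * om a W N else 0))
    (∑ M ∈ Finset.Icc (-X) X, Φ M * om (a - mu * t) W M * ∑ k ∈ KS t m, D k t k (fun _ => True) M) (SD Φ X m s (a - mu * t) W)
  rw [← hτ] at hB ⊢
  have hF12 : 12 * F ≤ 12 * F * τ := le_mul_of_one_le_right (by positivity) hτ1
  have hF13 : 6 * (3600 + 2 * F) ≤ 6 * (3600 + 2 * F) * τ := le_mul_of_one_le_right (by positivity) hτ1
  have hA' := le_trans hA b1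
  have hB' := le_trans hB b2
  have hD' := le_trans hD b3
  refine le_trans htri (le_trans (add_le_add hA' (le_trans htri2 (add_le_add hB' hD'))) ?_)
  calc 12 * F + (30 * τ + (600 * C * τ + 6 * (3600 + 2 * F))) ≤ 12 * F * τ + (30 * τ + (600 * C * τ + 6 * (3600 + 2 * F) * τ)) := by
        exact add_le_add hF12 (add_le_add le_rfl (add_le_add le_rfl hF13))
    _ = _ := by ring

end Pool.Agent.Helper3.TD
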