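import Pool.Agent.Helper3.TD.Fine1
import Pool.Agent.Helper3.TD.Kern3

/-! The exact kernel for narrow windows. -/

namespace Pool.Agent.Helper3.TD

open Pool.Agent.Helper3.ND

/-- collecting the residues by the number of odd steps, weights depending on that number -/
theorem D_collect' (t : ℕ) (S : Finset ℕ) (c : ℕ → ℝ) (M : ℤ) :
    ∑ r ∈ Finset.range (2 ^ t), (if od t (r : ℤ) ∈ S ∧ (3 : ℤ) ^ od t (r : ℤ) ∣ M - T^[t] (r : ℤ) then
      (3 : ℝ) ^ od t (r : ℤ) / 2 ^ t * c (od t (r : ℤ)) else 0) = ∑ k ∈ S, D k t k (fun _ => True) M * c k := by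
  classical
  unfold D
  rw [Finset.sum_congr rfl (fun k _ => Finset.sum_mul _ _ _)]
  rw [Finset.sum_comm]
  apply Finset.sum_congr rfl
  intro r _
  by_cases h1 : od t (r : ℤ) ∈ S
  · rw [Finset.sum_eq_single_of_mem _ h1]
    · by_cases h2 : (3 : ℤ) ^ od t (r : ℤ) ∣ M - T^[t] (r : ℤ)
      · rw [if_pos ⟨h1, h2⟩, if_pos ⟨rfl, trivial, h2⟩]
      · rw [if_neg (fun h => h2 h.2), if_neg (fun h => h2 h.2.2), zero_mul]
    · intro k _ hne
      rw [if_neg (fun h => hne h.1.symm), zero_mul]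
  · rw [if_neg (fun h => h1 h.1), Finset.sum_eq_zero]
    intro k hk
    rw [if_neg, zero_mul]
    intro h
    rw [h.1] at h1
    exact h1 hk

theorem finecond {t k : ℕ} {a W : ℝ} (hW0 : 0 < W) (hW1 : W ≤ 1) (hz : 16 * 10 ^ t ≤ W * Real.exp (a - W)) :
    4 * 3 ^ k ≤ Real.exp (bk a t k - (W + 1)) := by
  have h1 : bk a t k - (W + 1) = bk a t k + (-(W + 1)) := by ring
  rw [h1, exp_bk]
  have h2 : a + -(W + 1) = (a - W) + (-1) := by ring
  rw [h2, Real.exp_add]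
  have h3 := Real.exp_one_lt_d9
  have h4 : (1 : ℝ) / 3 ≤ Real.exp (-1) := by
    rw [Real.exp_neg, one_div]
    apply inv_anti₀ (Real.exp_pos _)
    linarith
  have h5 : (16 : ℝ) * 10 ^ t ≤ Real.exp (a - W) := by
    have : W * Real.exp (a - W) ≤ 1 * Real.exp (a - W) := mul_le_mul_of_nonneg_right hW1 (Real.exp_pos _).le
    linarith
  have h6 : (2 : ℝ) ^ t ≤ 10 ^ t := pow_le_pow_left₀ (by norm_num) (by norm_num) t
  have h7 : (0 : ℝ) < 2 ^ t := by positivity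
  rw [le_div_iff₀ h7]
  have h8 : (0 : ℝ) < 3 ^ k := by positivity
  have h9 : 4 * (2 : ℝ) ^ t ≤ Real.exp (a - W) * Real.exp (-1) := by
    have := Real.exp_pos (a - W)
    nlinarith
  nlinarith

theorem fineB {Φ : ℤ → ℝ} (hΦ0 : ∀ N, 0 ≤ Φ N) (hΦ1 : ∀ N, Φ N ≤ 1) {t m : ℕ}
    {a W : ℝ} (hW0 : 0 < W) (hW1 : W ≤ 1) (hz : 16 * 10 ^ t ≤ W * Real.exp (a - W)) (X : ℤ) (hX : 2 ^ t * Real.exp (a + W) ≤ X) :
    |∑ N ∈ Finset.Icc (-X) X, (if od t N ∈ KS t m then Φ (T^[t] N) * om a W N else 0) -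
      ∑ M ∈ Finset.Icc (-X) X, Φ M * ∑ k ∈ KS t m, D k t k (fun _ => True) M * om (bk a t k) W M| ≤
      10 * (1 / 5) ^ t := by
  classical
  obtain ⟨c, hc⟩ : ∃ c : ℝ, c = (1 / 5 : ℝ) ^ t := ⟨_, rfl⟩
  have hc0 : 0 ≤ c := by rw [hc]; positivity
  have hω : ∀ N, om a W N ≠ 0 → 2 ^ t * |N| ≤ X := by
    intro N hN
    obtain ⟨h2, h3⟩ := om_ne_zero hW0 hN
    rw [abs_lt] at h3
    have h4 : |(N : ℝ)| < Real.exp (a + W) := by
      rw [← Real.log_lt_iff_lt_exp h2]; linarith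
    have h5 : (2 : ℝ) ^ t * |(N : ℝ)| ≤ X := by
      refine le_trans ?_ hX
      gcongr
    exact_mod_cast h5
  rw [change t X Φ (om a W) (fun k => k ∈ KS t m) hω, ← Finset.sum_sub_distrib]
  refine le_trans (Finset.abs_sum_le_sum_abs _ _) ?_
  have h1 : ∀ M ∈ Finset.Icc (-X) X, |∑ r ∈ Finset.range (2 ^ t),
      (if od t (r : ℤ) ∈ KS t m ∧ (3 : ℤ) ^ od t (r : ℤ) ∣ M - T^[t] (r : ℤ) then Φ M * om a W (nn t r M) else 0) -
      Φ M * ∑ k ∈ KS t m, D k t k (fun _ => True) M * om (bk a t k) W M| ≤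
      ∑ k ∈ KS t m, (if |Real.log |(M : ℝ)| - bk a t k| ≤ W + 1 then D k t k (fun _ => True) M / |(M : ℝ)| else 0) * c := by
    intro M _
    rw [← D_collect' t (KS t m) (fun k => om (bk a t k) W M) M, Finset.mul_sum, ← Finset.sum_sub_distrib]
    have h2 : ∀ r ∈ Finset.range (2 ^ t), |(if od t (r : ℤ) ∈ KS t m ∧ (3 : ℤ) ^ od t (r : ℤ) ∣ M - T^[t] (r : ℤ) then Φ M * om a W (nn t r M) else 0) -
        Φ M * (if od t (r : ℤ) ∈ KS t m ∧ (3 : ℤ) ^ od t (r : ℤ) ∣ M - T^[t] (r : ℤ) then (3 : ℝ) ^ od t (r : ℤ) / 2 ^ t * om (bk a t (od t (r : ℤ))) W M else 0)| ≤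
        (if od t (r : ℤ) ∈ KS t m ∧ (3 : ℤ) ^ od t (r : ℤ) ∣ M - T^[t] (r : ℤ) then (3 : ℝ) ^ od t (r : ℤ) / 2 ^ t *
          (fun k => if |Real.log |(M : ℝ)| - bk a t k| ≤ W + 1 then c / |(M : ℝ)| else 0) (od t (r : ℤ)) else 0) := by
      intro r _
      by_cases h3 : od t (r : ℤ) ∈ KS t m ∧ (3 : ℤ) ^ od t (r : ℤ) ∣ M - T^[t] (r : ℤ)
      · rw [if_pos h3, if_pos h3, if_pos h3]
        have h4 := finepair hW0 hW1 hz h3.2
        rw [← mul_sub, abs_mul, abs_of_nonneg (hΦ0 M)]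
        rw [← hc] at h4
        refine le_trans (mul_le_mul (hΦ1 M) h4 (abs_nonneg _) (by norm_num)) (le_of_eq ?_)
        rw [one_mul]
        simp only
        split_ifs
        · ring
        · ring
      · rw [if_neg h3, if_neg h3, if_neg h3, mul_zero, sub_zero, abs_zero]
    refine le_trans (Finset.abs_sum_le_sum_abs _ _) (le_trans (Finset.sum_le_sum h2) (le_of_eq ?_))
    rw [D_collect' t (KS t m) (fun k => if |Real.log |(M : ℝ)| - bk a t k| ≤ W + 1 then c / |(M : ℝ)| else 0) M]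
    apply Finset.sum_congr rfl
    intro k _
    split_ifs
    · ring
    · ring
  refine le_trans (Finset.sum_le_sum h1) ?_
  rw [Finset.sum_comm]
  have h2 : ∀ k ∈ KS t m, ∑ M ∈ Finset.Icc (-X) X, (if |Real.log |(M : ℝ)| - bk a t k| ≤ W + 1 then D k t k (fun _ => True) M / |(M : ℝ)| else 0) * c ≤
      mass t k (fun _ => True) * (10 * c) := by
    intro k hk
    rw [← Finset.sum_mul]
    have h3 := win_sum3 (D_per k t k (fun _ => True)) (D_nonneg k t k (fun _ => True)) (b := bk a t k)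
      (v := W + 1) (by linarith) (finecond (k := k) hW0 hW1 hz) X
    rw [Av_D] at h3
    have hm0 : 0 ≤ mass t k (fun _ => True) := by unfold mass; positivity
    calc _ ≤ (2 * mass t k (fun _ => True) * (2 * (W + 1) + 1)) * c := mul_le_mul_of_nonneg_right h3 hc0
      _ ≤ (2 * mass t k (fun _ => True) * 5) * c := by
          apply mul_le_mul_of_nonneg_right _ hc0
          apply mul_le_mul_of_nonneg_left _ (by positivity)
          linarith
      _ = _ := by ring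
  refine le_trans (Finset.sum_le_sum h2) ?_
  rw [← Finset.sum_mul]
  have h3 := mass_le_one t (KS t m) (fun _ => True)
  calc _ ≤ 1 * (10 * c) := by
        apply mul_le_mul_of_nonneg_right h3 (by positivity)
    _ = _ := by rw [one_mul, hc]

theorem finewin {W : ℝ} (hW0 : 0 < W) (b : ℝ) {n : ℕ} {f : ℤ → ℝ} (h : Per n f) (hf : ∀ x, 0 ≤ f x)
    (hb : 4 * 3 ^ n ≤ Real.exp (b - (W + 1))) (X : ℤ) :
    ∑ M ∈ Finset.Icc (-X) X, f M * om b W M ≤ 2 * Av n f * (2 * W + 1) := by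
  have h1 := win_sum3 h hf (b := b) (v := W) hW0.le (by
    refine le_trans hb (Real.exp_le_exp.mpr ?_)
    linarith) X
  refine le_trans (Finset.sum_le_sum ?_) h1
  intro M _
  have h2 := om_le_win (a := b) hW0 M
  split_ifs at h2 ⊢
  · calc f M * om b W M ≤ f M * (1 / |(M : ℝ)|) := mul_le_mul_of_nonneg_left h2 (hf M)
      _ = _ := by ring
  · have : om b W M = 0 := le_antisymm h2 (om_nonneg _ _ _)
    rw [this, mul_zero]

/-- replacing the density modulo `3 ^ k` by the density modulo `3 ^ m` -/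
theorem fineD {Φ : ℤ → ℝ} (hΦ0 : ∀ N, 0 ≤ Φ N) (hΦ1 : ∀ N, Φ N ≤ 1) {t m : ℕ}
    {a W : ℝ} (hW0 : 0 < W) (hW1 : W ≤ 1) (hz : 16 * 10 ^ t ≤ W * Real.exp (a - W)) (X : ℤ) :
    |∑ M ∈ Finset.Icc (-X) X, Φ M * ∑ k ∈ KS t m, D k t k (fun _ => True) M * om (bk a t k) W M -
      ∑ M ∈ Finset.Icc (-X) X, Φ M * ∑ k ∈ KS t m, D m t k (fun _ => True) M * om (bk a t k) W M| ≤
      6 * ∑ k ∈ KS t m, Av k (fun M => |D k t k (fun _ => True) M - D m t k (fun _ => True) M|) := by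
  classical
  rw [← Finset.sum_sub_distrib]
  refine le_trans (Finset.abs_sum_le_sum_abs _ _) ?_
  have h1 : ∀ M ∈ Finset.Icc (-X) X, |Φ M * ∑ k ∈ KS t m, D k t k (fun _ => True) M * om (bk a t k) W M -
      Φ M * ∑ k ∈ KS t m, D m t k (fun _ => True) M * om (bk a t k) W M| ≤
      ∑ k ∈ KS t m, |D k t k (fun _ => True) M - D m t k (fun _ => True) M| * om (bk a t k) W M := by
    intro M _
    rw [← mul_sub, ← Finset.sum_sub_distrib, abs_mul, abs_of_nonneg (hΦ0 M)]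
    refine le_trans (mul_le_mul (hΦ1 M) (Finset.abs_sum_le_sum_abs _ _) (abs_nonneg _) (by norm_num)) ?_
    rw [one_mul]
    apply Finset.sum_le_sum
    intro k _
    rw [← sub_mul, abs_mul, abs_of_nonneg (om_nonneg _ _ _)]
  refine le_trans (Finset.sum_le_sum h1) ?_
  rw [Finset.sum_comm, Finset.mul_sum]
  apply Finset.sum_le_sum
  intro k hk
  have hmk := (KS_spec hk).1
  have hp : Per k (fun M => |D k t k (fun _ => True) M - D m t k (fun _ => True) M|) := by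
    intro x
    simp only
    rw [D_per k t k _ x, (D_per m t k (fun _ => True)).le hmk x]
  have h2 := finewin hW0 (bk a t k) hp (fun x => abs_nonneg _) (finecond (k := k) hW0 hW1 hz) X
  have h3 : 0 ≤ Av k (fun M => |D k t k (fun _ => True) M - D m t k (fun _ => True) M|) := Av_nonneg (fun x => abs_nonneg _)
  refine le_trans h2 ?_
  have h4 : 2 * W + 1 ≤ 3 := by linarith
  calc _ ≤ 2 * Av k (fun M => |D k t k (fun _ => True) M - D m t k (fun _ => True) M|) * 3 := by gcongr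
    _ = _ := by ring

end Pool.Agent.Helper3.TD
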