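import Pool.Agent.Helper3.TD.Wide

/-! Limits of the narrow logarithmic sums. -/

namespace Pool.Agent.Helper3.TD

open Pool.Agent.Helper3.ND Filter Topology

theorem wide_double : ∃ C : ℝ, 0 < C ∧ ∀ w : ℝ, 0 < w → w ≤ 1 / 32 → ∀ Y : ℝ, 0 ≤ Y → ∃ A0 : ℝ, 2 ^ 16 ≤ A0 ∧ ∀ A : ℝ, A0 ≤ A →
    ∀ Φ : ℤ → ℝ, Inv Φ Y → |Gs Φ (w * (2 * A)) (2 * A) - 2 * Gs Φ (w * A) A| ≤ C * A ^ (11 / 20 : ℝ) := by
  obtain ⟨C, hC, H⟩ := wide_shift
  refine ⟨2 * C, by positivity, ?_⟩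
  intro w hw0 hw1 Y hY
  obtain ⟨A0, hA0, H2⟩ := H w hw0 hw1 Y hY
  refine ⟨A0, hA0, ?_⟩
  intro A hA Φ hΦ
  have hA' : 2 ^ 16 ≤ A := le_trans hA0 hA
  have hApos : 0 < A := by linarith [show (0 : ℝ) < 2 ^ 16 by norm_num]
  have hwA : 0 < w * A := by positivity
  have hwA2 : w * A ≤ A / 32 := by nlinarith
  rw [show w * (2 * A) = 2 * (w * A) by ring, Gs_double Φ hwA]
  have h1 := H2 A hA Φ hΦ A (2 * A - w * A) le_rfl (by linarith) (by linarith)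
  have h2 := H2 A hA Φ hΦ A (2 * A) le_rfl (by linarith) (by linarith)
  have h3 := H2 A hA Φ hΦ A (2 * A + w * A) le_rfl (by linarith) (by linarith)
  rw [abs_le] at h1 h2 h3 ⊢
  constructor <;> linarith

theorem two_pow_rpow (j : ℕ) (y : ℝ) : ((2 : ℝ) ^ j) ^ y = ((2 : ℝ) ^ y) ^ j := by
  rw [← Real.rpow_natCast, ← Real.rpow_mul (by norm_num), ← Real.rpow_natCast, ← Real.rpow_mul (by norm_num), mul_comm]

theorem rpow_split (A : ℝ) (hA : 0 < A) : A ^ (11 / 20 : ℝ) = A * A ^ (-(9 / 20) : ℝ) := by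
  nth_rewrite 2 [← Real.rpow_one A]
  rw [← Real.rpow_add hA]; norm_num

theorem exists_two_pow (x : ℝ) : ∃ j0 : ℕ, ∀ j : ℕ, j0 ≤ j → x ≤ 2 ^ j := by
  obtain ⟨j0, hj0⟩ := pow_unbounded_of_one_lt x (by norm_num : (1 : ℝ) < 2)
  exact ⟨j0, fun j hj => le_trans hj0.le (pow_le_pow_right₀ (by norm_num) hj)⟩

theorem wide_limit {w : ℝ} (hw0 : 0 < w) (hw1 : w ≤ 1 / 32) {Y : ℝ} (hY : 0 ≤ Y) {Φ : ℤ → ℝ} (hΦ : Inv Φ Y) :
    ∃ c : ℝ, Tendsto (fun j : ℕ => Gs Φ (w * 2 ^ j) (2 ^ j) / (w * 2 ^ j)) atTop (𝓝 c) := by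
  obtain ⟨C, hC, H⟩ := wide_double
  obtain ⟨A0, hA0, H2⟩ := H w hw0 hw1 Y hY
  obtain ⟨j0, hj0⟩ := exists_two_pow A0
  obtain ⟨r, hr⟩ : ∃ r : ℝ, r = (2 : ℝ) ^ (-(9 / 20) : ℝ) := ⟨_, rfl⟩
  have hr1 : r < 1 := by rw [hr]; exact Real.rpow_lt_one_of_one_lt_of_neg (by norm_num) (by norm_num)
  have hr0 : 0 < r := by rw [hr]; exact Real.rpow_pos_of_pos (by norm_num) _
  obtain ⟨u, hu⟩ : ∃ u : ℕ → ℝ, u = fun j : ℕ => Gs Φ (w * 2 ^ j) (2 ^ j) / (w * 2 ^ j) := ⟨_, rfl⟩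
  have hstep : ∀ j, j0 ≤ j → dist (u j) (u (j + 1)) ≤ C / (2 * w) * r ^ j := by
    intro j hj
    have h1 := H2 (2 ^ j) (hj0 j hj) Φ hΦ
    have hp : (0 : ℝ) < 2 ^ j := by positivity
    rw [rpow_split _ hp, two_pow_rpow, ← hr] at h1
    rw [dist_comm, Real.dist_eq, hu]
    simp only
    have e : (2 : ℝ) ^ (j + 1) = 2 * 2 ^ j := by rw [pow_succ]; ring
    rw [e]
    have e2 : Gs Φ (w * (2 * 2 ^ j)) (2 * 2 ^ j) / (w * (2 * 2 ^ j)) - Gs Φ (w * 2 ^ j) (2 ^ j) / (w * 2 ^ j) =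
        (Gs Φ (w * (2 * 2 ^ j)) (2 * 2 ^ j) - 2 * Gs Φ (w * 2 ^ j) (2 ^ j)) / (2 * w * 2 ^ j) := by
      field_simp
    rw [e2, abs_div, abs_of_pos (show 0 < 2 * w * 2 ^ j by positivity), div_le_iff₀ (by positivity)]
    refine le_trans h1 (le_of_eq ?_)
    field_simp
  have hc : CauchySeq (fun j => u (j + j0)) := by
    apply cauchySeq_of_le_geometric r (C / (2 * w) * r ^ j0) hr1
    intro j
    have := hstep (j + j0) (by omega)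
    rw [show j + 1 + j0 = j + j0 + 1 by ring]
    refine le_trans this (le_of_eq ?_)
    rw [pow_add]; ring
  obtain ⟨c, hc'⟩ := cauchySeq_tendsto_of_complete hc
  refine ⟨c, ?_⟩
  rw [← hu]
  exact (tendsto_add_atTop_iff_nat j0).mp hc'

/-- assembling a wide window from narrow ones -/
theorem tile {Φ : ℤ → ℝ} {δ ε g : ℝ} (hδ : 0 < δ) (p : ℕ) :
    ∀ a : ℝ, (∀ b, |b - a| ≤ 2 ^ p * δ → |Gs Φ δ b - g| ≤ ε) → |Gs Φ (2 ^ p * δ) a - 2 ^ p * g| ≤ 2 ^ p * ε := by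
  induction p with
  | zero =>
    intro a h
    simpa using h a (by simp [hδ.le])
  | succ p ih =>
    intro a h
    have hp : (0 : ℝ) < 2 ^ p := by positivity
    have hpd : 0 < 2 ^ p * δ := by positivity
    have e : (2 : ℝ) ^ (p + 1) * δ = 2 * (2 ^ p * δ) := by rw [pow_succ]; ring
    rw [e] at h ⊢
    rw [Gs_double Φ hpd]
    have h1 := ih (a - 2 ^ p * δ) (fun b hb => h b (by
      rw [abs_le] at hb ⊢
      constructor <;> linarith))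
    have h2 := ih a (fun b hb => h b (by linarith))
    have h3 := ih (a + 2 ^ p * δ) (fun b hb => h b (by
      rw [abs_le] at hb ⊢
      constructor <;> linarith))
    rw [pow_succ]
    rw [abs_le] at h1 h2 h3 ⊢
    constructor <;> linarith

theorem near_const' {W : ℝ} (hW0 : 0 < W) (hW1 : W ≤ 1) {Y : ℝ} (hY : 0 ≤ Y) {ε : ℝ} (hε : 0 < ε) : ∃ w : ℝ, 0 < w ∧ ∃ A0 : ℝ,
    ∀ A : ℝ, A0 ≤ A → ∀ Φ : ℤ → ℝ, Inv Φ Y → ∀ b : ℝ, |b - A| ≤ w * A → |Gs Φ W b - Gs Φ W A| ≤ ε := by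
  obtain ⟨w, hw, A0, hA0, H⟩ := near_const hW0 hW1 hY hε
  refine ⟨min w (1 / 10), by positivity, A0, ?_⟩
  intro A hA Φ hΦ b hb
  have hA5 : (10 ^ 5 : ℝ) ≤ A := by linarith
  have h1 : |b - A| ≤ w * A := by
    refine le_trans hb ?_
    apply mul_le_mul_of_nonneg_right (min_le_left _ _) (by linarith)
  have h2 : |b - A| ≤ 1 / 10 * A := by
    refine le_trans hb ?_
    apply mul_le_mul_of_nonneg_right (min_le_right _ _) (by linarith)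
  rw [abs_le] at h1 h2
  rcases le_total A b with h | h
  · exact H A hA Φ hΦ A b (by linarith) (by linarith) h (by linarith)
  · rw [abs_sub_comm]
    exact H A hA Φ hΦ b A (by linarith) (by linarith) h (by linarith)

/-- existence of the limit for dyadic widths -/
theorem Gs_lim_exists {Y : ℝ} (hY : 0 ≤ Y) {Φ : ℤ → ℝ} (hΦ : Inv Φ Y) (l : ℕ) :
    ∃ L : ℝ, Tendsto (fun a : ℝ => Gs Φ ((1 / 2) ^ l) a) atTop (𝓝 L) := by
  obtain ⟨δ, hδ⟩ : ∃ δ : ℝ, δ = (1 / 2) ^ l := ⟨_, rfl⟩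
  have hδ0 : 0 < δ := by rw [hδ]; positivity
  have hδ1 : δ ≤ 1 := by rw [hδ]; exact pow_le_one₀ (by norm_num) (by norm_num)
  rw [← hδ]
  apply cauchySeq_tendsto_of_complete
  rw [Metric.cauchySeq_iff']
  intro ε hε
  -- reduce to an approximation by a constant
  have key : ∃ c : ℝ, ∃ A0 : ℝ, ∀ a : ℝ, A0 ≤ a → |Gs Φ δ a - c| ≤ ε / 3 := by
    obtain ⟨w0, hw0, A1, H1⟩ := near_const' hδ0 hδ1 hY (show 0 < ε / 9 by positivity)
    obtain ⟨k, hk⟩ := exists_pow_lt_of_lt_one (show 0 < min w0 (1 / 32) by positivity) (show (1 / 2 : ℝ) < 1 by norm_num)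
    obtain ⟨w, hw⟩ : ∃ w : ℝ, w = (1 / 2) ^ k := ⟨_, rfl⟩
    rw [← hw] at hk
    have hwpos : 0 < w := by rw [hw]; positivity
    have hww0 : w ≤ w0 := le_trans hk.le (min_le_left _ _)
    have hw32 : w ≤ 1 / 32 := le_trans hk.le (min_le_right _ _)
    obtain ⟨c, hc⟩ := wide_limit hwpos hw32 hY hΦ
    obtain ⟨C, hC, H2⟩ := wide_shift
    obtain ⟨A2, hA2, H3⟩ := H2 w hwpos hw32 Y hY
    obtain ⟨A3, hA3⟩ := small_rpow (C / w * δ) (show (0 : ℝ) < 9 / 20 by norm_num) (show 0 < ε / 9 by positivity)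
    rw [Metric.tendsto_atTop] at hc
    obtain ⟨j1, hj1⟩ := hc (ε / 9) (by positivity)
    obtain ⟨j2, hj2⟩ := exists_two_pow (max A1 (max A2 A3))
    refine ⟨δ * c, 2 ^ (j1 + j2 + k + 1), ?_⟩
    intro a ha
    -- find the dyadic scale
    have ha1 : 1 ≤ a := le_trans (one_le_pow₀ (by norm_num)) ha
    obtain ⟨j, hj⟩ : ∃ j, j = Nat.log 2 ⌊a⌋₊ := ⟨_, rfl⟩
    have hfl : ⌊a⌋₊ ≠ 0 := by
      have := Nat.le_floor (show ((1 : ℕ) : ℝ) ≤ a by exact_mod_cast ha1)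
      omega
    have hja : (2 : ℝ) ^ j ≤ a := by
      have h1 : 2 ^ j ≤ ⌊a⌋₊ := by rw [hj]; exact Nat.pow_log_le_self 2 hfl
      have h2 : ((2 ^ j : ℕ) : ℝ) ≤ a := le_trans (by exact_mod_cast h1) (Nat.floor_le (by linarith))
      exact_mod_cast h2
    have hja2 : a ≤ 2 * 2 ^ j := by
      have h1 : ⌊a⌋₊ < 2 ^ (j + 1) := by rw [hj]; exact Nat.lt_pow_succ_log_self (by norm_num) _
      have h2 : a < ((⌊a⌋₊ + 1 : ℕ) : ℝ) := by push_cast; exact Nat.lt_floor_add_one a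
      have h3 : ((⌊a⌋₊ + 1 : ℕ) : ℝ) ≤ ((2 ^ (j + 1) : ℕ) : ℝ) := by exact_mod_cast h1
      have h4 : ((2 ^ (j + 1) : ℕ) : ℝ) = 2 * 2 ^ j := by push_cast; rw [pow_succ]; ring
      linarith
    have hjbig : j1 + j2 + k ≤ j := by
      by_contra hcon
      have h1 : (2 : ℝ) ^ j < 2 ^ (j1 + j2 + k) := pow_lt_pow_right₀ (by norm_num) (by omega)
      have h2 : (2 : ℝ) ^ (j1 + j2 + k + 1) = 2 * 2 ^ (j1 + j2 + k) := by rw [pow_succ]; ring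
      linarith
    have hjA := hj2 j (by omega)
    have hjA1 : A1 ≤ 2 ^ j := le_trans (le_max_left _ _) hjA
    have hjA2 : A2 ≤ 2 ^ j := le_trans (le_trans (le_max_left _ _) (le_max_right _ _)) hjA
    have hjA3 : A3 ≤ 2 ^ j := le_trans (le_trans (le_max_right _ _) (le_max_right _ _)) hjA
    have hp : (0 : ℝ) < 2 ^ j := by positivity
    -- the wide window in terms of narrow ones
    obtain ⟨p, hpdef⟩ : ∃ p, p = j - k + l := ⟨_, rfl⟩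
    have hW : w * 2 ^ j = 2 ^ p * δ := by
      rw [hw, hδ, hpdef]
      have : (2 : ℝ) ^ j = 2 ^ (j - k) * 2 ^ k := by rw [← pow_add]; congr 1; omega
      rw [this, pow_add, one_div_pow, one_div_pow]
      field_simp
    have hpp : (0 : ℝ) < 2 ^ p := by positivity
    have h1 := tile (Φ := Φ) (g := Gs Φ δ a) (ε := ε / 9) hδ0 p a (fun b hb => H1 a (by linarith) Φ hΦ b (by
      rw [← hW] at hb
      refine le_trans hb ?_
      calc w * 2 ^ j ≤ w0 * 2 ^ j := by gcongr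
        _ ≤ w0 * a := by gcongr))
    rw [← hW] at h1
    have h2 := H3 (2 ^ j) hjA2 Φ hΦ (2 ^ j) a le_rfl hja (by linarith)
    rw [rpow_split _ hp] at h2
    have h3 := hj1 j (by omega)
    rw [Real.dist_eq] at h3
    have h4 := hA3 (2 ^ j) hjA3
    -- divide by the width
    have hwj : 0 < w * 2 ^ j := by positivity
    have e1 : |Gs Φ (w * 2 ^ j) a / (2 ^ p) - Gs Φ δ a| ≤ ε / 9 := by
      have : Gs Φ (w * 2 ^ j) a / (2 ^ p) - Gs Φ δ a = (Gs Φ (w * 2 ^ j) a - 2 ^ p * Gs Φ δ a) / 2 ^ p := by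
        field_simp
      rw [this, abs_div, abs_of_pos hpp, div_le_iff₀ hpp]
      linarith
    have e2 : |Gs Φ (w * 2 ^ j) a / (2 ^ p) - Gs Φ (w * 2 ^ j) (2 ^ j) / 2 ^ p| ≤ ε / 9 := by
      rw [← sub_div, abs_div, abs_of_pos hpp, div_le_iff₀ hpp]
      refine le_trans h2 ?_
      have h5 : (2 : ℝ) ^ p = w * 2 ^ j / δ := by rw [hW]; field_simp
      rw [h5]
      calc C * (2 ^ j * (2 ^ j) ^ (-(9 / 20) : ℝ)) = (C / w * δ * (2 ^ j) ^ (-(9 / 20) : ℝ)) * (w * 2 ^ j / δ) := by field_simp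
        _ ≤ ε / 9 * (w * 2 ^ j / δ) := mul_le_mul_of_nonneg_right h4 (by positivity)
    have e3 : |Gs Φ (w * 2 ^ j) (2 ^ j) / 2 ^ p - δ * c| ≤ ε / 9 := by
      have h5 : Gs Φ (w * 2 ^ j) (2 ^ j) / 2 ^ p - δ * c = δ * (Gs Φ (w * 2 ^ j) (2 ^ j) / (w * 2 ^ j) - c) := by
        rw [hW]
        field_simp
      rw [h5, abs_mul, abs_of_pos hδ0]
      calc δ * |Gs Φ (w * 2 ^ j) (2 ^ j) / (w * 2 ^ j) - c| ≤ 1 * (ε / 9) := mul_le_mul hδ1 h3.le (abs_nonneg _) (by norm_num)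
        _ = _ := one_mul _
    rw [abs_le] at e1 e2 e3 ⊢
    constructor <;> linarith
  obtain ⟨c, A0, H⟩ := key
  refine ⟨A0, ?_⟩
  intro a ha
  have h1 := H a ha
  have h2 := H A0 le_rfl
  rw [Real.dist_eq]
  rw [abs_le] at h1 h2
  rw [abs_lt]
  constructor <;> linarith

/-- **limit of the narrow logarithmic sums** -/
theorem Gs_lim {Y : ℝ} (hY : 0 ≤ Y) {Φ : ℤ → ℝ} (hΦ : Inv Φ Y) :
    ∃ c : ℝ, ∀ l : ℕ, Tendsto (fun a : ℝ => Gs Φ ((1 / 2) ^ l) a) atTop (𝓝 (c * (1 / 2) ^ l)) := by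
  obtain ⟨c, hc⟩ := Gs_lim_exists hY hΦ 0
  refine ⟨c, ?_⟩
  intro l
  induction l with
  | zero => simpa using hc
  | succ l ih =>
    obtain ⟨L, hL⟩ := Gs_lim_exists hY hΦ (l + 1)
    obtain ⟨δ, hδ⟩ : ∃ δ : ℝ, δ = (1 / 2) ^ (l + 1) := ⟨_, rfl⟩
    have hδ0 : 0 < δ := by rw [hδ]; positivity
    have e : ((1 : ℝ) / 2) ^ l = 2 * δ := by rw [hδ, pow_succ]; ring
    rw [← hδ] at hL ⊢
    rw [e] at ih
    have h1 : Tendsto (fun a : ℝ => Gs Φ δ (a - δ)) atTop (𝓝 L) := hL.comp (tendsto_atTop_add_const_right atTop (-δ) tendsto_id)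
    have h2 : Tendsto (fun a : ℝ => Gs Φ δ (a + δ)) atTop (𝓝 L) := hL.comp (tendsto_atTop_add_const_right atTop δ tendsto_id)
    have h3 : Tendsto (fun a : ℝ => 1 / 2 * Gs Φ δ (a - δ) + Gs Φ δ a + 1 / 2 * Gs Φ δ (a + δ)) atTop (𝓝 (1 / 2 * L + L + 1 / 2 * L)) :=
      ((h1.const_mul (1 / 2)).add hL).add (h2.const_mul (1 / 2))
    have h4 : (fun a : ℝ => 1 / 2 * Gs Φ δ (a - δ) + Gs Φ δ a + 1 / 2 * Gs Φ δ (a + δ)) = fun a : ℝ => Gs Φ (2 * δ) a := by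
      funext a
      rw [Gs_double Φ hδ0]
    rw [h4] at h3
    have h5 := tendsto_nhds_unique h3 ih
    have h6 : L = c * δ := by linarith
    rw [← h6]
    exact hL

end Pool.Agent.Helper3.TD
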