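import Pool.Agent.Helper3.TD.Beta
import Pool.Agent.Helper3.TD.Typ

/-! The limiting density modulo `3 ^ m`. -/

namespace Pool.Agent.Helper3.TD

open Pool.Agent.Helper3.ND

/-- limiting density -/
noncomputable def dl (m s : ℕ) (M : ℤ) : ℝ :=
  ∑ y ∈ Finset.range (2 ^ s), if m ≤ od s (y : ℤ) ∧ (3 : ℤ) ^ m ∣ 2 ^ s * M - cc s (y : ℤ) then (3 : ℝ) ^ m / 2 ^ s else 0

theorem dl_nonneg (m s : ℕ) (M : ℤ) : 0 ≤ dl m s M := by
  unfold dl
  apply Finset.sum_nonneg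
  intro y _
  split_ifs <;> positivity

theorem dl_per (m s : ℕ) : Per m (dl m s) := by
  intro x
  unfold dl
  apply Finset.sum_congr rfl
  intro y _
  have h1 : (3 : ℤ) ^ m ∣ 2 ^ s * (x + 3 ^ m) - cc s (y : ℤ) ↔ (3 : ℤ) ^ m ∣ 2 ^ s * x - cc s (y : ℤ) := by
    rw [show 2 ^ s * (x + 3 ^ m) - cc s (y : ℤ) = (2 ^ s * x - cc s (y : ℤ)) + 3 ^ m * 2 ^ s by ring]
    exact dvd_add_left (Dvd.intro _ rfl)
  exact if_congr (and_congr_right (fun _ => h1)) rfl rfl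

theorem dvd_iff_last (m s1 s : ℕ) (r : ℕ) (M : ℤ) (h : m ≤ od s (yy s1 s r : ℤ)) :
    (3 : ℤ) ^ m ∣ M - T^[s1 + s] (r : ℤ) ↔ (3 : ℤ) ^ m ∣ 2 ^ s * M - cc s (yy s1 s r : ℤ) := by
  have h1 := T_split s1 s (r : ℤ)
  have hc : IsCoprime ((3 : ℤ) ^ m) (2 ^ s) := by
    apply IsCoprime.pow
    norm_num [Int.isCoprime_iff_gcd_eq_one]
  have h2 : 2 ^ s * (M - T^[s1 + s] (r : ℤ)) = (2 ^ s * M - cc s (yy s1 s r : ℤ)) - 3 ^ od s (yy s1 s r : ℤ) * T^[s1] (r : ℤ) := by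
    rw [mul_sub, h1]; ring
  have h3 : (3 : ℤ) ^ m ∣ 3 ^ od s (yy s1 s r : ℤ) * T^[s1] (r : ℤ) := Dvd.dvd.mul_right (pow_dvd_pow 3 h) _
  constructor
  · intro h4
    have h5 : (3 : ℤ) ^ m ∣ 2 ^ s * (M - T^[s1 + s] (r : ℤ)) := Dvd.dvd.mul_left h4 _
    rw [h2] at h5
    have := dvd_add h5 h3
    rwa [sub_add_cancel] at this
  · intro h4
    have h5 := dvd_sub h4 h3
    rw [← h2] at h5
    exact hc.dvd_of_dvd_mul_left h5

/-- sum over the number of odd steps -/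
theorem D_sum (m s1 s : ℕ) (M : ℤ) :
    ∑ k ∈ Finset.range (s1 + s + 1), D m (s1 + s) k (fun r => m ≤ od s (yy s1 s r : ℤ)) M = dl m s M := by
  classical
  obtain ⟨f, hf⟩ : ∃ f : ℕ → ℝ, f = fun y : ℕ => if m ≤ od s (y : ℤ) ∧ (3 : ℤ) ^ m ∣ 2 ^ s * M - cc s (y : ℤ) then (3 : ℝ) ^ m / 2 ^ (s1 + s) else 0 := ⟨_, rfl⟩
  unfold D
  rw [Finset.sum_comm]
  have hstep : ∀ r ∈ Finset.range (2 ^ (s1 + s)), (∑ k ∈ Finset.range (s1 + s + 1),
      (if od (s1 + s) (r : ℤ) = k ∧ (fun r : ℕ => m ≤ od s (yy s1 s r : ℤ)) r ∧ (3 : ℤ) ^ m ∣ M - T^[s1 + s] (r : ℤ) then (3 : ℝ) ^ m / 2 ^ (s1 + s) else 0)) =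
      (fun _ y => f y) (r % 2 ^ s1) (yy s1 s r) := by
    intro r _
    have hmem : od (s1 + s) (r : ℤ) ∈ Finset.range (s1 + s + 1) := by
      rw [Finset.mem_range]; have := od_le (s1 + s) (r : ℤ); omega
    rw [Finset.sum_eq_single_of_mem _ hmem]
    · rw [hf]
      simp only
      by_cases h2 : m ≤ od s (yy s1 s r : ℤ)
      · have h3 := dvd_iff_last m s1 s r M h2
        by_cases h4 : (3 : ℤ) ^ m ∣ M - T^[s1 + s] (r : ℤ)
        · rw [if_pos ⟨trivial, h2, h4⟩, if_pos ⟨h2, h3.mp h4⟩]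
        · rw [if_neg (fun h => h4 h.2.2), if_neg (fun h => h4 (h3.mpr h.2))]
      · rw [if_neg (fun h => h2 h.2.1), if_neg (fun h => h2 h.1)]
    · intro k _ hne
      rw [if_neg (fun h => hne h.1.symm)]
  refine Eq.trans (Finset.sum_congr rfl (fun r hr => Eq.trans ?_ (hstep r hr))) ?_
  · apply Finset.sum_congr rfl
    intro k _
    congr
  rw [sum_split s1 s (fun _ y => f y), Finset.sum_const, Finset.card_range, nsmul_eq_mul]
  unfold dl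
  rw [Finset.mul_sum, hf]
  apply Finset.sum_congr rfl
  intro y _
  simp only
  by_cases h2 : m ≤ od s (y : ℤ) ∧ (3 : ℤ) ^ m ∣ 2 ^ s * M - cc s (y : ℤ)
  · rw [if_pos h2, if_pos h2]
    push_cast
    rw [pow_add]
    field_simp
  · rw [if_neg h2, if_neg h2, mul_zero]

theorem card_od_le (t k : ℕ) : (((Finset.range (2 ^ t)).filter (fun r : ℕ => od t (r : ℤ) = k)).card : ℝ) ≤ (t.choose k : ℝ) := by
  have h1 := Fs_eq_X 0 t k 0 (by simp)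
  have h2 := X_le_choose 0 t 0 k
  rw [← h1] at h2
  unfold Fs at h2
  simp only [zero_mul, AddChar.map_zero_eq_one] at h2
  rw [← Finset.sum_filter, Finset.sum_const, nsmul_eq_mul, mul_one, Complex.norm_natCast] at h2
  exact h2

/-- each single number of odd steps carries a small part of the density -/
theorem D_le_dl (m s1 s k : ℕ) (hs1 : 1 ≤ s1) (M : ℤ) :
    D m (s1 + s) k (fun r => m ≤ od s (yy s1 s r : ℤ)) M ≤ dl m s M / Real.sqrt s1 := by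
  classical
  have hs1' : (0 : ℝ) < s1 := by exact_mod_cast hs1
  have hsq := Real.sqrt_pos.mpr hs1'
  obtain ⟨f, hf⟩ : ∃ f : ℕ → ℕ → ℝ, f = fun r1 y : ℕ => if od s1 (r1 : ℤ) = k - od s (y : ℤ) then
      (if m ≤ od s (y : ℤ) ∧ (3 : ℤ) ^ m ∣ 2 ^ s * M - cc s (y : ℤ) then (3 : ℝ) ^ m / 2 ^ (s1 + s) else 0) else 0 := ⟨_, rfl⟩
  have h1 : D m (s1 + s) k (fun r => m ≤ od s (yy s1 s r : ℤ)) M ≤ ∑ r ∈ Finset.range (2 ^ (s1 + s)), f (r % 2 ^ s1) (yy s1 s r) := by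
    unfold D
    apply Finset.sum_le_sum
    intro r _
    rw [hf]
    simp only
    by_cases h : od (s1 + s) (r : ℤ) = k ∧ m ≤ od s (yy s1 s r : ℤ) ∧ (3 : ℤ) ^ m ∣ M - T^[s1 + s] (r : ℤ)
    · obtain ⟨a1, a2, a3⟩ := h
      have a4 := od_split s1 s (r : ℤ)
      have a5 := od_mod s1 r
      rw [if_pos ⟨a1, a2, a3⟩, if_pos (by omega), if_pos ⟨a2, (dvd_iff_last m s1 s r M a2).mp a3⟩]
    · rw [if_neg h]
      split_ifs <;> positivity
  refine le_trans h1 ?_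
  rw [sum_split, Finset.sum_comm]
  unfold dl
  rw [Finset.sum_div]
  apply Finset.sum_le_sum
  intro y _
  rw [hf]
  simp only
  rw [← Finset.sum_filter, Finset.sum_const, nsmul_eq_mul]
  split_ifs with h2
  · have h3 := le_trans (card_od_le s1 (k - od s (y : ℤ))) (choose_bound s1 _ hs1)
    calc (((Finset.range (2 ^ s1)).filter (fun r : ℕ => od s1 (r : ℤ) = k - od s (y : ℤ))).card : ℝ) * ((3 : ℝ) ^ m / 2 ^ (s1 + s))
        ≤ (2 ^ s1 / Real.sqrt s1) * ((3 : ℝ) ^ m / 2 ^ (s1 + s)) := by gcongr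
      _ = (3 : ℝ) ^ m / 2 ^ s / Real.sqrt s1 := by rw [pow_add]; field_simp
  · simp

/-- mass of trajectories with few odd steps at the end -/
theorem few_odd (m s1 s : ℕ) (hs : 3 * m ≤ s) (hs1 : 1 ≤ s) (S : Finset ℕ) :
    ∑ k ∈ S, mass (s1 + s) k (fun r => ¬ m ≤ od s (yy s1 s r : ℤ)) ≤ 2 * Real.exp (-((s : ℝ) / 18)) := by
  classical
  obtain ⟨B, hB⟩ : ∃ B : ℕ → Prop, B = fun y : ℕ => ¬ m ≤ od s (y : ℤ) := ⟨_, rfl⟩
  have hB' : ∀ y, B y ↔ ¬ m ≤ od s (y : ℤ) := fun y => by rw [hB]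
  have e0 : (fun r : ℕ => ¬ m ≤ od s (yy s1 s r : ℤ)) = fun r : ℕ => B (yy s1 s r) := by rw [hB]
  rw [e0]
  have h1 := mass_sum s1 s B S
  refine le_trans h1 ?_
  have hs' : (0 : ℝ) < s := by exact_mod_cast hs1
  have h2 := card_od s hs1 ((s : ℝ) / 6) (by positivity)
  rw [div_le_iff₀ (by positivity)]
  have h3 : 2 * ((s : ℝ) / 6) ^ 2 / s = (s : ℝ) / 18 := by field_simp; ring
  rw [h3] at h2
  refine le_trans ?_ (le_trans h2 (le_of_eq (by ring)))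
  apply Nat.cast_le.mpr
  apply Finset.card_le_card
  intro y hy
  rw [Finset.mem_filter] at hy ⊢
  refine ⟨hy.1, ?_⟩
  have h4 : (od s (y : ℤ) : ℝ) ≤ m := by exact_mod_cast (not_le.mp ((hB' y).mp hy.2)).le
  have h5 : (3 : ℝ) * m ≤ s := by exact_mod_cast hs
  rw [le_abs]
  right; linarith

end Pool.Agent.Helper3.TD
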