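import Mathlib

/-! Arrays of centred residues: black and white lattice points. -/

namespace Pool.Agent.Helper3.TD

/-- `p j h` is the centred residue modulo `q` of `ξ 3 ^ h 4 ^ (-j)`. -/
structure Arr (q : ℤ) (p : ℕ → ℕ → ℤ) : Prop where
  pos : 0 < q
  half : ∀ j h, 2 * |p j h| ≤ q
  up : ∀ j h, q ∣ p j (h + 1) - 3 * p j h
  right : ∀ j h, q ∣ p j h - 4 * p (j + 1) h

def bl (q : ℤ) (p : ℕ → ℕ → ℤ) (j h : ℕ) : Prop := 100 * |p j h| < q

/-- black from `j` to `j + S` -/
def run (q : ℤ) (p : ℕ → ℕ → ℤ) (j h S : ℕ) : Prop := ∀ i ≤ S, bl q p (j + i) h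

/-- black at `j`, stays black, first white column is `e` -/
def Ex (q : ℤ) (p : ℕ → ℕ → ℤ) (j h e : ℕ) : Prop := j < e ∧ (∀ i, j ≤ i → i < e → bl q p i h) ∧ ¬ bl q p e h

variable {q : ℤ} {p : ℕ → ℕ → ℤ}

theorem eq_of_dvd_small {q a b : ℤ} (hq : 0 < q) (hd : q ∣ a - b) (ha : 2 * |a| ≤ q) (hb : 2 * |b| < q) : a = b := by
  obtain ⟨k, hk⟩ := hd
  have h1 : |a - b| < q := by
    have := abs_sub a b
    linarith
  rw [hk, abs_mul, abs_of_pos hq] at h1
  have h2 : |k| < 1 := by
    by_contra hc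
    push Not at hc
    nlinarith
  have h3 : k = 0 := by
    rw [abs_lt] at h2; omega
  rw [h3] at hk
  linarith

theorem Arr.dvd_up (A : Arr q p) (j h i : ℕ) : q ∣ p j (h + i) - 3 ^ i * p j h := by
  induction i with
  | zero => simp
  | succ i ih =>
    have h1 := A.up j (h + i)
    have h2 : p j (h + (i + 1)) - 3 ^ (i + 1) * p j h =
        (p j (h + i + 1) - 3 * p j (h + i)) + 3 * (p j (h + i) - 3 ^ i * p j h) := by
      rw [← add_assoc]; ring
    rw [h2]
    exact dvd_add h1 (Dvd.dvd.mul_left ih 3)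

theorem Arr.dvd_right (A : Arr q p) (j h i : ℕ) : q ∣ p j h - 4 ^ i * p (j + i) h := by
  induction i with
  | zero => simp
  | succ i ih =>
    have h1 := A.right (j + i) h
    have h2 : p j h - 4 ^ (i + 1) * p (j + (i + 1)) h =
        (p j h - 4 ^ i * p (j + i) h) + 4 ^ i * (p (j + i) h - 4 * p (j + i + 1) h) := by
      rw [← add_assoc]; ring
    rw [h2]
    exact dvd_add ih (Dvd.dvd.mul_left h1 _)

theorem Arr.up_eq (A : Arr q p) {j h i : ℕ} (hs : 2 * (3 ^ i * |p j h|) < q) : p j (h + i) = 3 ^ i * p j h := by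
  apply eq_of_dvd_small A.pos (A.dvd_up j h i) (A.half _ _)
  rw [abs_mul, abs_of_pos (by positivity)]
  exact hs

theorem Arr.right_eq (A : Arr q p) {j h i : ℕ} (hs : 2 * (4 ^ i * |p (j + i) h|) < q) :
    p j h = 4 ^ i * p (j + i) h := by
  apply eq_of_dvd_small A.pos (A.dvd_right j h i) (A.half _ _)
  rw [abs_mul, abs_of_pos (by positivity)]
  exact hs

/-- consecutive black points in a row -/
theorem Arr.run_eq (A : Arr q p) {j h S : ℕ} (hr : run q p j h S) : ∀ i ≤ S, p j h = 4 ^ i * p (j + i) h := by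
  intro i
  induction i with
  | zero => intro _; simp
  | succ i ih =>
    intro hi
    have h1 := ih (by omega)
    have h2 := hr (i + 1) hi
    unfold bl at h2
    have h3 : p (j + i) h = 4 ^ 1 * p (j + i + 1) h := by
      apply A.right_eq
      rw [add_assoc]
      have := abs_nonneg (p (j + (i + 1)) h)
      linarith
    rw [h1, h3, ← add_assoc]
    ring

theorem Ex.run {j h e : ℕ} (E : Ex q p j h e) : run q p j h (e - 1 - j) := by
  intro i hi
  have := E.1
  exact E.2.1 _ (by omega) (by omega)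

/-- the column after the end of a black run is strongly white, also above -/
theorem Arr.exit_white (A : Arr q p) {j h i : ℕ} (hb : bl q p j h) (hw : ¬ bl q p (j + 1) h)
    (hi : 100 * (3 ^ i * |p j h|) < 9 * q) : q ≤ 5 * |p (j + 1) (h + i)| := by
  have hq := A.pos
  unfold bl at hb hw
  push Not at hw
  obtain ⟨k, hk⟩ := A.right j h
  obtain ⟨l, hl⟩ := A.dvd_up (j + 1) h i
  have hh := A.half (j + 1) h
  -- k is between -2 and 2, nonzero
  have hk1 : |q * k| ≤ |p j h| + 4 * |p (j + 1) h| := by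
    rw [← hk]
    calc |p j h - 4 * p (j + 1) h| ≤ |p j h| + |4 * p (j + 1) h| := abs_sub _ _
      _ = _ := by rw [abs_mul]; norm_num
  rw [abs_mul, abs_of_pos hq] at hk1
  have hk2 : |k| ≤ 2 := by
    by_contra hc
    push Not at hc
    have : 3 ≤ |k| := hc
    nlinarith
  have hk0 : k ≠ 0 := by
    rintro rfl
    have h1 : p j h = 4 * p (j + 1) h := by linarith
    have h2 : |p j h| = 4 * |p (j + 1) h| := by rw [h1, abs_mul]; norm_num
    linarith [abs_nonneg (p (j + 1) h)]
  have hk4 : ¬ (4 : ℤ) ∣ k := by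
    intro h4
    have := Int.le_of_dvd (abs_pos.mpr hk0) ((dvd_abs 4 k).mpr h4)
    omega
  have h3 : ¬ (4 : ℤ) ∣ 3 ^ i * k := by
    intro h4
    apply hk4
    apply IsCoprime.dvd_of_dvd_mul_left _ h4
    exact IsCoprime.pow_right (by norm_num [Int.isCoprime_iff_gcd_eq_one])
  have h5 : 4 * p (j + 1) (h + i) = 3 ^ i * p j h + (4 * l - 3 ^ i * k) * q := by
    have e1 : p (j + 1) (h + i) = 3 ^ i * p (j + 1) h + q * l := by linarith
    have e2 : 4 * p (j + 1) h = p j h - q * k := by linarith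
    calc 4 * p (j + 1) (h + i) = 3 ^ i * (4 * p (j + 1) h) + 4 * (q * l) := by rw [e1]; ring
      _ = _ := by rw [e2]; ring
  have h6 : 4 * l - 3 ^ i * k ≠ 0 := by
    intro h7
    apply h3
    exact ⟨l, by linarith⟩
  have h7 : 1 ≤ |4 * l - 3 ^ i * k| := Int.one_le_abs h6
  have h8 : q - 3 ^ i * |p j h| ≤ |4 * p (j + 1) (h + i)| := by
    rw [h5]
    have e3 : |(4 * l - 3 ^ i * k) * q| ≤ |3 ^ i * p j h + (4 * l - 3 ^ i * k) * q| + |3 ^ i * p j h| := by
      have := abs_sub (3 ^ i * p j h + (4 * l - 3 ^ i * k) * q) (3 ^ i * p j h)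
      rw [show 3 ^ i * p j h + (4 * l - 3 ^ i * k) * q - 3 ^ i * p j h = (4 * l - 3 ^ i * k) * q by ring] at this
      exact this
    rw [abs_mul, abs_of_pos hq, abs_mul (3 ^ i), abs_of_pos (show (0 : ℤ) < 3 ^ i by positivity)] at e3
    nlinarith
  rw [abs_mul, show |(4 : ℤ)| = 4 by norm_num] at h8
  linarith

theorem not_bl_of_strong (A : Arr q p) {j h : ℕ} (hs : q ≤ 5 * |p j h|) : ¬ bl q p j h := by
  unfold bl
  have := A.pos
  push Not
  linarith [abs_nonneg (p j h)]

/-- the walk from a black point stays in the same run system until the exit column -/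
theorem Arr.walk (A : Arr q p) {j h e s : ℕ} (E : Ex q p j h e) (hs : s ≤ 2) :
    ¬ bl q p (j + 1) (h + s) ∨ Ex q p (j + 1) (h + s) e := by
  obtain ⟨hje, hb, hw⟩ := E
  have hq := A.pos
  have h3s : (3 : ℤ) ^ s ≤ 9 := by
    calc (3 : ℤ) ^ s ≤ 3 ^ 2 := pow_le_pow_right₀ (by norm_num) hs
      _ = 9 := by norm_num
  by_cases hb1 : bl q p (j + 1) (h + s)
  swap
  · left; exact hb1
  right
  have hje1 : j + 1 < e := by
    by_contra hc
    have he : e = j + 1 := by omega
    subst he
    have h1 := A.exit_white (i := s) (hb j le_rfl hje) hw (by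
      have := hb j le_rfl hje
      unfold bl at this
      nlinarith [abs_nonneg (p j h)])
    exact not_bl_of_strong A h1 hb1
  have hrun : run q p (j + 1) h (e - 1 - (j + 1)) := by
    intro i hi
    exact hb _ (by omega) (by omega)
  -- heights above in the black columns
  have key : ∀ i, j + 1 ≤ i → i < e → p i (h + s) = 3 ^ s * p i h := by
    intro i h1 h2
    apply A.up_eq
    have := hb i (by omega) h2
    unfold bl at this
    nlinarith [abs_nonneg (p i h)]
  have hsz : 100 * (3 ^ s * |p (j + 1) h|) < q := by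
    have := hb1
    unfold bl at this
    rw [key (j + 1) le_rfl hje1, abs_mul, abs_of_pos (by positivity)] at this
    exact this
  have hle : ∀ i, j + 1 ≤ i → i < e → |p i h| ≤ |p (j + 1) h| := by
    intro i h1 h2
    obtain ⟨d, rfl⟩ := Nat.exists_eq_add_of_le h1
    have := A.run_eq hrun d (by omega)
    have h3 : (1 : ℤ) ≤ 4 ^ d := one_le_pow₀ (by norm_num)
    have h4 : |p (j + 1) h| = 4 ^ d * |p (j + 1 + d) h| := by
      rw [this, abs_mul, abs_of_pos (show (0 : ℤ) < 4 ^ d by positivity)]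
    rw [h4]
    nlinarith [abs_nonneg (p (j + 1 + d) h)]
  refine ⟨hje1, ?_, ?_⟩
  · intro i h1 h2
    unfold bl
    rw [key i h1 h2, abs_mul, abs_of_pos (by positivity)]
    have := hle i h1 h2
    have h4 : (0 : ℤ) < 3 ^ s := by positivity
    nlinarith
  · obtain ⟨e', rfl⟩ : ∃ e', e = e' + 1 := ⟨e - 1, by omega⟩
    apply not_bl_of_strong A
    apply A.exit_white (hb e' (by omega) (by omega)) hw
    have := hb e' (by omega) (by omega)
    unfold bl at this
    nlinarith [abs_nonneg (p e' h)]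

/-- **Sparsity** of the heights of long black runs -/
theorem Arr.sparse (A : Arr q p) {e H h i S : ℕ} (hw : q ≤ 5 * |p e h|)
    (h1 : run q p (e + H) h S) (h2 : run q p (e + H) (h + i) S) (hi : 3 ^ i ≤ 4 ^ S) : 3 ^ i < 4 ^ H := by
  have hq := A.pos
  have a1 := A.run_eq h1 S le_rfl
  have a2 := A.run_eq h2 S le_rfl
  have b1 := h1 0 (by omega)
  have b2 := h2 0 (by omega)
  unfold bl at b1 b2
  rw [add_zero] at b1 b2
  have hi' : (3 : ℤ) ^ i ≤ 4 ^ S := by exact_mod_cast hi
  have c1 : |p (e + H) h| = 4 ^ S * |p (e + H + S) h| := by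
    rw [a1, abs_mul, abs_of_pos (by positivity)]
  have c2 : p (e + H + S) (h + i) = 3 ^ i * p (e + H + S) h := by
    apply A.up_eq
    have : 3 ^ i * |p (e + H + S) h| ≤ 4 ^ S * |p (e + H + S) h| :=
      mul_le_mul_of_nonneg_right hi' (abs_nonneg _)
    linarith [abs_nonneg (p (e + H) h)]
  have c3 : p (e + H) (h + i) = 3 ^ i * p (e + H) h := by
    rw [a2, c2, a1]; ring
  rw [c3, abs_mul, abs_of_pos (by positivity)] at b2
  -- p e h is at most 4^H p(e+H,h) in size or large
  have d1 : q ≤ 5 * (4 ^ H * |p (e + H) h|) := by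
    by_contra hc
    push Not at hc
    have d2 : p e h = 4 ^ H * p (e + H) h := by
      apply A.right_eq
      have : 0 ≤ 4 ^ H * |p (e + H) h| := by positivity
      linarith
    rw [d2, abs_mul, abs_of_pos (by positivity)] at hw
    linarith
  have hpos : 0 < |p (e + H) h| := by
    by_contra hc
    have : |p (e + H) h| = 0 := le_antisymm (not_lt.mp hc) (abs_nonneg _)
    rw [this] at d1
    simp at d1
    linarith
  have hfin : (3 : ℤ) ^ i < 4 ^ H := by
    by_contra hc
    push Not at hc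
    have : 4 ^ H * |p (e + H) h| ≤ 3 ^ i * |p (e + H) h| := mul_le_mul_of_nonneg_right hc (abs_nonneg _)
    linarith
  exact_mod_cast hfin

end Pool.Agent.Helper3.TD
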