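import Pool.Agent.Helper3.TD.Band

/-! The mean absolute difference of consecutive densities. -/

namespace Pool.Agent.Helper3.TD

open Pool.Agent.Helper3.ND

open Classical in
/-- density of the `t`-step trajectories with `k` odd steps and property `P` that end at `M` modulo `3 ^ n` -/
noncomputable def D (n t k : ℕ) (P : ℕ → Prop) (M : ℤ) : ℝ :=
  ∑ r ∈ Finset.range (2 ^ t), if od t (r : ℤ) = k ∧ P r ∧ (3 : ℤ) ^ n ∣ M - T^[t] (r : ℤ) then (3 : ℝ) ^ n / 2 ^ t else 0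

/-- average over residues -/
noncomputable def Av (N : ℕ) (f : ℤ → ℝ) : ℝ := (∑ x ∈ Finset.range (3 ^ N), f (x : ℤ)) / 3 ^ N

open Classical in
/-- difference as a function on residues -/
noncomputable def fz (m s u k : ℕ) (G : ℕ → Prop) (x : ZMod (Q (m + 1))) : ℝ :=
  ∑ r ∈ Finset.range (2 ^ (s + u)), if od (s + u) (r : ℤ) = k ∧ G (yy s u r) then
    ((if ((T^[s + u] (r : ℤ) : ℤ) : ZMod (Q (m + 1))) - x = 0 then (3 : ℝ) ^ (m + 1) else 0) -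
      (if 3 * (((T^[s + u] (r : ℤ) : ℤ) : ZMod (Q (m + 1))) - x) = 0 then (3 : ℝ) ^ m else 0)) / 2 ^ (s + u) else 0

theorem zmod_zero_iff (n : ℕ) (a : ℤ) : ((a : ℤ) : ZMod (Q n)) = 0 ↔ (3 : ℤ) ^ n ∣ a := by
  rw [ZMod.intCast_zmod_eq_zero_iff_dvd, Q_cast]

theorem dvd_three_iff (m : ℕ) (a : ℤ) : (3 : ℤ) ^ (m + 1) ∣ 3 * a ↔ (3 : ℤ) ^ m ∣ a := by
  rw [pow_succ, mul_comm]
  exact mul_dvd_mul_iff_left (by norm_num)

theorem fz_eq (m s u k : ℕ) (G : ℕ → Prop) (x : ℤ) :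
    fz m s u k G (x : ZMod (Q (m + 1))) = D (m + 1) (s + u) k (fun r => G (yy s u r)) x -
      D m (s + u) k (fun r => G (yy s u r)) x := by
  classical
  unfold fz D
  rw [← Finset.sum_sub_distrib]
  apply Finset.sum_congr rfl
  intro r _
  have h1 : ((T^[s + u] (r : ℤ) : ℤ) : ZMod (Q (m + 1))) - (x : ZMod (Q (m + 1))) = 0 ↔ (3 : ℤ) ^ (m + 1) ∣ x - T^[s + u] (r : ℤ) := by
    rw [← Int.cast_sub, zmod_zero_iff, dvd_sub_comm]
  have h2 : 3 * (((T^[s + u] (r : ℤ) : ℤ) : ZMod (Q (m + 1))) - (x : ZMod (Q (m + 1)))) = 0 ↔ (3 : ℤ) ^ m ∣ x - T^[s + u] (r : ℤ) := by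
    have : (3 : ZMod (Q (m + 1))) * (((T^[s + u] (r : ℤ) : ℤ) : ZMod (Q (m + 1))) - (x : ZMod (Q (m + 1)))) =
        ((3 * (T^[s + u] (r : ℤ) - x) : ℤ) : ZMod (Q (m + 1))) := by push_cast; rfl
    rw [this, zmod_zero_iff, dvd_three_iff, dvd_sub_comm]
  rw [if_congr h1 rfl rfl, if_congr h2 rfl rfl]
  by_cases h3 : od (s + u) (r : ℤ) = k <;> by_cases h4 : G (yy s u r) <;> simp [h3, h4, sub_div, ite_div]

open Classical in
theorem fz_fourier (m s u k : ℕ) (G : ℕ → Prop) (x : ZMod (Q (m + 1))) :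
    ((fz m s u k G x : ℝ) : ℂ) = ∑ ξ : ZMod (Q (m + 1)),
      (if IsUnit ξ then Cw (m + 1) s u k G ξ / 2 ^ (s + u) else 0) * (ZMod.stdAddChar (ξ * (-x)) : ℂ) := by
  have h1 : ∀ ξ : ZMod (Q (m + 1)), (if IsUnit ξ then Cw (m + 1) s u k G ξ / 2 ^ (s + u) else 0) * (ZMod.stdAddChar (ξ * (-x)) : ℂ) =
      ∑ r ∈ Finset.range (2 ^ (s + u)), if od (s + u) (r : ℤ) = k ∧ G (yy s u r) then
        (if IsUnit ξ then (ZMod.stdAddChar (ξ * (((T^[s + u] (r : ℤ) : ℤ) : ZMod (Q (m + 1))) - x)) : ℂ) else 0) / 2 ^ (s + u) else 0 := by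
    intro ξ
    by_cases hξ : IsUnit ξ
    · simp only [hξ, if_true]
      unfold Cw
      rw [Finset.sum_div, Finset.sum_mul]
      apply Finset.sum_congr rfl
      intro r _
      have : (ZMod.stdAddChar (ξ * (((T^[s + u] (r : ℤ) : ℤ) : ZMod (Q (m + 1))) - x)) : ℂ) =
          (ZMod.stdAddChar (ξ * ((T^[s + u] (r : ℤ) : ℤ) : ZMod (Q (m + 1)))) : ℂ) * (ZMod.stdAddChar (ξ * (-x)) : ℂ) := by
        rw [← AddChar.map_add_eq_mul]; congr 1; ring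
      rw [this]
      by_cases h3 : od (s + u) (r : ℤ) = k <;> by_cases h4 : G (yy s u r) <;> simp [h3, h4]
      ring
    · simp only [hξ, if_false, zero_mul]
      symm
      apply Finset.sum_eq_zero
      intro r _
      split_ifs <;> simp
  rw [Finset.sum_congr rfl (fun ξ _ => h1 ξ), Finset.sum_comm]
  unfold fz
  push_cast
  apply Finset.sum_congr rfl
  intro r _
  by_cases h3 : od (s + u) (r : ℤ) = k ∧ G (yy s u r)
  · simp only [if_pos h3]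
    rw [← Finset.sum_div, units_sum]
    congr 1
    split_ifs <;> push_cast <;> rfl
  · simp only [if_neg h3]
    simp

open Classical in
theorem band (m s u k : ℕ) (hk : m + 1 ≤ k) (G : ℕ → Prop) (hG : ∀ y < 2 ^ u, G y → cc u (y : ℤ) < 3 ^ (m + 1)) (β : ℝ)
    (hβ0 : 0 ≤ β)
    (hβ : ∀ ξ : ZMod (Q (m + 1)), IsUnit ξ → ∀ y < 2 ^ u, G y → od u (y : ℤ) ≤ k →
      ‖X (m + 1) s (ξ * 3 ^ od u (y : ℤ)) (k - od u (y : ℤ))‖ ≤ β * 2 ^ s) :
    Av (m + 1) (fun M => |D (m + 1) (s + u) k (fun r => G (yy s u r)) M - D m (s + u) k (fun r => G (yy s u r)) M|) ≤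
      Real.sqrt ((u + 1) * β ^ 2 * (3 ^ (m + 1) / 2 ^ u)) := by
  obtain ⟨N, hN⟩ : ∃ N : ℝ, N = (3 : ℝ) ^ (m + 1) := ⟨_, rfl⟩
  have hNpos : 0 < N := by rw [hN]; positivity
  have hQN : ((Q (m + 1) : ℕ) : ℝ) = N := by rw [hN]; unfold Q; push_cast; rfl
  have h1 : ∑ x : ZMod (Q (m + 1)), (fz m s u k G x) ^ 2 ≤ N * ((u + 1) * β ^ 2 * (N / 2 ^ u)) := by
    have e1 : ∀ x : ZMod (Q (m + 1)), (fz m s u k G x) ^ 2 = ‖∑ ξ : ZMod (Q (m + 1)),
      (if IsUnit ξ then Cw (m + 1) s u k G ξ / 2 ^ (s + u) else 0) * (ZMod.stdAddChar (ξ * (-x)) : ℂ)‖ ^ 2 := by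
      intro x
      rw [← fz_fourier, Complex.norm_real, Real.norm_eq_abs, sq_abs]
    rw [Finset.sum_congr rfl (fun x _ => e1 x)]
    have e0 := Equiv.sum_comp (Equiv.neg (ZMod (Q (m + 1)))) (fun x => ‖∑ ξ : ZMod (Q (m + 1)),
      (if IsUnit ξ then Cw (m + 1) s u k G ξ / 2 ^ (s + u) else 0) * (ZMod.stdAddChar (ξ * x) : ℂ)‖ ^ 2)
    simp only [Equiv.neg_apply] at e0
    rw [e0, pars, hQN]
    apply mul_le_mul_of_nonneg_left _ hNpos.le
    have e2 : ∀ ξ : ZMod (Q (m + 1)), ‖(if IsUnit ξ then Cw (m + 1) s u k G ξ / 2 ^ (s + u) else 0)‖ ^ 2 =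
        (if IsUnit ξ then ‖Cw (m + 1) s u k G ξ‖ ^ 2 else 0) / (2 ^ (s + u)) ^ 2 := by
      intro ξ
      split_ifs
      · rw [norm_div, div_pow, norm_pow, Complex.norm_ofNat]
      · simp
    rw [Finset.sum_congr rfl (fun ξ _ => e2 ξ), ← Finset.sum_div, div_le_iff₀ (by positivity)]
    refine le_trans (Cw_sq (m + 1) s u k hk G hG β hβ0 hβ) (le_of_eq ?_)
    rw [hQN, pow_add]
    field_simp
  have h2 : ∑ x : ZMod (Q (m + 1)), |fz m s u k G x| ≤ Real.sqrt (N * (N * ((u + 1) * β ^ 2 * (N / 2 ^ u)))) := by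
    apply Real.le_sqrt_of_sq_le
    have e3 := @sq_sum_le_card_mul_sum_sq (ZMod (Q (m + 1))) ℝ _ _ _ _ Finset.univ (fun x => |fz m s u k G x|)
    rw [Finset.card_univ, ZMod.card, hQN] at e3
    refine le_trans e3 ?_
    apply mul_le_mul_of_nonneg_left _ hNpos.le
    simpa only [sq_abs] using h1
  unfold Av
  have h3 : ∑ x ∈ Finset.range (3 ^ (m + 1)), |D (m + 1) (s + u) k (fun r => G (yy s u r)) ((x : ℕ) : ℤ) -
      D m (s + u) k (fun r => G (yy s u r)) ((x : ℕ) : ℤ)| = ∑ x : ZMod (Q (m + 1)), |fz m s u k G x| := by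
    rw [sum_zmod]
    apply Finset.sum_congr rfl
    intro x _
    rw [← fz_eq]
    push_cast
    rfl
  rw [h3, ← hN, div_le_iff₀ hNpos]
  refine le_trans h2 ?_
  have h4 : N * (N * ((u + 1) * β ^ 2 * (N / 2 ^ u))) = N ^ 2 * ((u + 1) * β ^ 2 * (N / 2 ^ u)) := by ring
  rw [h4, Real.sqrt_mul (by positivity), Real.sqrt_sq hNpos.le, mul_comm]

end Pool.Agent.Helper3.TD
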