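import Pool.Agent.Helper3.TD.Kern3

/-! Shifts of the window. -/

namespace Pool.Agent.Helper3.TD

open Pool.Agent.Helper3.ND

/-- functions with values in `[0,1]`, invariant under `T` above `Y` -/
structure Inv (Φ : ℤ → ℝ) (Y : ℝ) : Prop where
  nonneg : ∀ N, 0 ≤ Φ N
  le_one : ∀ N, Φ N ≤ 1
  inv : ∀ N : ℤ, Y < |(N : ℝ)| → Φ (T N) = Φ N

theorem Inv.iter {Φ : ℤ → ℝ} {Y : ℝ} (h : Inv Φ Y) (t : ℕ) (N : ℤ) (hN : Y * 2 ^ t < |(N : ℝ)|) (hY : 0 ≤ Y) :
    Φ (T^[t] N) = Φ N := by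
  induction t with
  | zero => rfl
  | succ t ih =>
    have h1 : Y * 2 ^ t ≤ Y * 2 ^ (t + 1) := by
      apply mul_le_mul_of_nonneg_left _ hY
      exact pow_le_pow_right₀ (by norm_num) (by omega)
    rw [Function.iterate_succ_apply', ← ih (lt_of_le_of_lt h1 hN)]
    apply h.inv
    have h2 := abs_T_iter_ge t N
    have h3 : |(N : ℝ)| ≤ 2 ^ t * |((T^[t] N : ℤ) : ℝ)| := by exact_mod_cast h2
    have h4 : (0 : ℝ) < 2 ^ t := by positivity
    have h5 : 2 ^ t * Y < 2 ^ t * |((T^[t] N : ℤ) : ℝ)| := by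
      refine lt_of_lt_of_le ?_ h3
      refine lt_of_le_of_lt ?_ hN
      rw [mul_comm]; exact h1
    exact lt_of_mul_lt_mul_left h5 h4.le

/-- shift of the window by `mu t` -/
theorem shift_win : ∃ C : ℝ, 0 < C ∧ ∃ t0 : ℕ, 10 ^ 3 ≤ t0 ∧ ∀ t : ℕ, t0 ≤ t →
    ∀ a W : ℝ, 4 * (t : ℝ) ^ (11 / 20 : ℝ) ≤ W → W ≤ t → 16 * W * 100 ^ t ≤ Real.exp (a - W) →
    ∀ (Y : ℝ) (Φ : ℤ → ℝ), Inv Φ Y → 0 ≤ Y → Y * 4 ^ t < Real.exp (a - W) →
    ∀ X : ℤ, 4 ^ t * Real.exp (a + mu * t + W) ≤ X →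
    |SS Φ X (a + mu * t) W - SS Φ X a W| ≤ C * (t : ℝ) ^ (11 / 20 : ℝ) := by
  obtain ⟨C, hC, t0, ht0, H⟩ := kernel
  refine ⟨3 * C, by positivity, t0, ht0, ?_⟩
  intro t ht a W hW1 hW2 hz Y Φ hΦ hY hYz X hX
  have ht3 : 10 ^ 3 ≤ t := by omega
  have ht' : (10 ^ 3 : ℝ) ≤ t := by exact_mod_cast ht3
  have htpos : (0 : ℝ) < t := by linarith
  obtain ⟨τ, hτ⟩ : ∃ τ : ℝ, τ = (t : ℝ) ^ (11 / 20 : ℝ) := ⟨_, rfl⟩
  have hτ1 : 1 ≤ τ := by rw [hτ]; exact Real.one_le_rpow (by linarith) (by norm_num)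
  have hW0 : 0 < W := by rw [← hτ] at hW1; linarith
  have hmu := mu_pos
  have h2t : ((2 * t : ℕ) : ℝ) ^ (11 / 20 : ℝ) ≤ 2 * τ := by
    push_cast
    rw [hτ]
    exact rpow_mul_le (by norm_num) htpos.le
  have hp1 : (10 : ℝ) ^ t ≤ 100 ^ t := pow_le_pow_left₀ (by norm_num) (by norm_num) t
  have hp2 : (10 : ℝ) ^ (2 * t) = 100 ^ t := by rw [pow_mul]; norm_num
  have hp3 : (2 : ℝ) ^ (2 * t) = 4 ^ t := by rw [pow_mul]; norm_num
  have hp4 : (2 : ℝ) ^ t ≤ 4 ^ t := pow_le_pow_left₀ (by norm_num) (by norm_num) t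
  have hshift : Real.exp (a - W) ≤ Real.exp (a + mu * t - W) := by
    apply Real.exp_le_exp.mpr
    have : 0 ≤ mu * t := by positivity
    linarith
  have k1 := H (2 * t) (t / 40) (3 * (t / 40)) (by omega) (by omega) le_rfl (by omega) (a + mu * t) W
    (by rw [← hτ] at hW1; linarith) (by push_cast; linarith) (by rw [hp2]; linarith) X
    (by rw [hp3]; exact hX) Φ hΦ.nonneg hΦ.le_one (by
      intro N hN
      apply hΦ.iter _ _ _ hY
      rw [hp3]; linarith)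
  have k2 := H t (t / 40) (3 * (t / 40)) (by omega) (by omega) le_rfl (by omega) a W
    (by rw [← hτ] at hW1 ⊢; linarith) hW2 (by
      refine le_trans ?_ hz
      gcongr) X
    (by
      refine le_trans ?_ hX
      have : Real.exp (a + W) ≤ Real.exp (a + mu * t + W) := by
        apply Real.exp_le_exp.mpr
        have : 0 ≤ mu * t := by positivity
        linarith
      gcongr) Φ hΦ.nonneg hΦ.le_one (by
      intro N hN
      apply hΦ.iter _ _ _ hY
      have : Y * 2 ^ t ≤ Y * 4 ^ t := by gcongr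
      linarith)
  have e : a + mu * t - mu * ((2 * t : ℕ) : ℝ) = a - mu * t := by push_cast; ring
  rw [e] at k1
  have htri := abs_sub_le (SS Φ X (a + mu * t) W) (SD Φ X (t / 40) (3 * (t / 40)) (a - mu * t) W) (SS Φ X a W)
  rw [abs_sub_comm (SD Φ X (t / 40) (3 * (t / 40)) (a - mu * t) W)] at htri
  rw [← hτ] at k2 ⊢
  have h3 : C * ((2 * t : ℕ) : ℝ) ^ (11 / 20 : ℝ) ≤ C * (2 * τ) := mul_le_mul_of_nonneg_left h2t hC.le
  linarith

/-- repeated shifts -/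
theorem shift_wins : ∃ C : ℝ, 0 < C ∧ ∃ t0 : ℕ, 10 ^ 3 ≤ t0 ∧ ∀ t : ℕ, t0 ≤ t →
    ∀ a W : ℝ, 4 * (t : ℝ) ^ (11 / 20 : ℝ) ≤ W → W ≤ t → 16 * W * 100 ^ t ≤ Real.exp (a - W) →
    ∀ (Y : ℝ) (Φ : ℤ → ℝ), Inv Φ Y → 0 ≤ Y → Y * 4 ^ t < Real.exp (a - W) →
    ∀ (n : ℕ) (X : ℤ), 4 ^ t * Real.exp (a + n * (mu * t) + W) ≤ X →
    |SS Φ X (a + n * (mu * t)) W - SS Φ X a W| ≤ n * (C * (t : ℝ) ^ (11 / 20 : ℝ)) := by
  obtain ⟨C, hC, t0, ht0, H⟩ := shift_win
  refine ⟨C, hC, t0, ht0, ?_⟩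
  intro t ht a W hW1 hW2 hz Y Φ hΦ hY hYz n
  have hmu := mu_pos
  induction n with
  | zero => intro X _; simp
  | succ n ih =>
    intro X hX
    have e1 : a + ((n + 1 : ℕ) : ℝ) * (mu * t) = (a + n * (mu * t)) + mu * t := by push_cast; ring
    rw [e1] at hX ⊢
    have hmt : 0 ≤ mu * t := by positivity
    have hX' : 4 ^ t * Real.exp (a + n * (mu * t) + W) ≤ X := by
      refine le_trans ?_ hX
      have : Real.exp (a + n * (mu * t) + W) ≤ Real.exp (a + n * (mu * t) + mu * t + W) := by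
        apply Real.exp_le_exp.mpr; linarith
      gcongr
    have h1 := ih X hX'
    have hle : Real.exp (a - W) ≤ Real.exp (a + n * (mu * t) - W) := by
      apply Real.exp_le_exp.mpr
      have : 0 ≤ n * (mu * t) := by positivity
      linarith
    have h2 := H t ht (a + n * (mu * t)) W hW1 hW2 (le_trans hz hle) Y Φ hΦ hY (lt_of_lt_of_le hYz hle) X hX
    have h3 := abs_sub_le (SS Φ X (a + n * (mu * t) + mu * t) W) (SS Φ X (a + n * (mu * t)) W) (SS Φ X a W)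
    push_cast
    linarith

/-- refinement of tents -/
theorem tent_double (x : ℝ) : tent (x / 2) = 1 / 2 * tent (x + 1) + tent x + 1 / 2 * tent (x - 1) := by
  unfold tent
  rcases le_total x 0 with h0 | h0
  · rw [abs_of_nonpos h0, abs_of_nonpos (show x - 1 ≤ 0 by linarith), abs_of_nonpos (show x / 2 ≤ 0 by linarith)]
    rw [max_eq_left (show 1 - -(x - 1) ≤ 0 by linarith)]
    rcases le_total x (-1) with h1 | h1
    · rw [abs_of_nonpos (show x + 1 ≤ 0 by linarith), max_eq_left (show 1 - -x ≤ 0 by linarith)]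
      rcases le_total x (-2) with h2 | h2
      · rw [max_eq_left (show 1 - -(x / 2) ≤ 0 by linarith), max_eq_left (show 1 - -(x + 1) ≤ 0 by linarith)]; ring
      · rw [max_eq_right (show 0 ≤ 1 - -(x / 2) by linarith), max_eq_right (show 0 ≤ 1 - -(x + 1) by linarith)]; ring
    · rw [abs_of_nonneg (show 0 ≤ x + 1 by linarith), max_eq_right (show 0 ≤ 1 - -x by linarith),
        max_eq_right (show 0 ≤ 1 - -(x / 2) by linarith), max_eq_right (show 0 ≤ 1 - (x + 1) by linarith)]; ring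
  · rw [abs_of_nonneg h0, abs_of_nonneg (show 0 ≤ x + 1 by linarith), abs_of_nonneg (show 0 ≤ x / 2 by linarith)]
    rw [max_eq_left (show 1 - (x + 1) ≤ 0 by linarith)]
    rcases le_total x 1 with h1 | h1
    · rw [abs_of_nonpos (show x - 1 ≤ 0 by linarith), max_eq_right (show 0 ≤ 1 - x by linarith),
        max_eq_right (show 0 ≤ 1 - x / 2 by linarith), max_eq_right (show 0 ≤ 1 - -(x - 1) by linarith)]; ring
    · rw [abs_of_nonneg (show 0 ≤ x - 1 by linarith), max_eq_left (show 1 - x ≤ 0 by linarith)]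
      rcases le_total x 2 with h2 | h2
      · rw [max_eq_right (show 0 ≤ 1 - x / 2 by linarith), max_eq_right (show 0 ≤ 1 - (x - 1) by linarith)]; ring
      · rw [max_eq_left (show 1 - x / 2 ≤ 0 by linarith), max_eq_left (show 1 - (x - 1) ≤ 0 by linarith)]; ring

theorem SS_double (Φ : ℤ → ℝ) (X : ℤ) (a : ℝ) {W : ℝ} (hW : 0 < W) :
    SS Φ X a (2 * W) = 1 / 2 * SS Φ X (a - W) W + SS Φ X a W + 1 / 2 * SS Φ X (a + W) W := by
  unfold SS
  rw [Finset.mul_sum, Finset.mul_sum, ← Finset.sum_add_distrib, ← Finset.sum_add_distrib]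
  apply Finset.sum_congr rfl
  intro N _
  unfold om
  have h1 : (Real.log |(N : ℝ)| - a) / (2 * W) = ((Real.log |(N : ℝ)| - a) / W) / 2 := by field_simp
  have h2 : (Real.log |(N : ℝ)| - (a - W)) / W = (Real.log |(N : ℝ)| - a) / W + 1 := by field_simp; ring
  have h3 : (Real.log |(N : ℝ)| - (a + W)) / W = (Real.log |(N : ℝ)| - a) / W - 1 := by field_simp; ring
  rw [h1, h2, h3, tent_double]
  ring

end Pool.Agent.Helper3.TD
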