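import Pool.Agent.Helper3.ND.Final
import Pool.Agent.Helper3.TD.Shift

/-! The exceptional set and its size at the initial scale. -/

namespace Pool.Agent.Helper3.TD

open Pool.Agent.Helper3.ND

/-- the orbit never comes below `Y` -/
def bad (Y : ℝ) (N : ℤ) : Prop := ∀ t : ℕ, Y < |((T^[t] N : ℤ) : ℝ)|

open Classical in
noncomputable def PhiB (Y : ℝ) (N : ℤ) : ℝ := if bad Y N then 1 else 0

theorem PhiB_inv (Y : ℝ) : Inv (PhiB Y) Y := by
  classical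
  refine ⟨?_, ?_, ?_⟩
  · intro N; unfold PhiB; split_ifs <;> norm_num
  · intro N; unfold PhiB; split_ifs <;> norm_num
  · intro N hN
    unfold PhiB
    have : bad Y (T N) ↔ bad Y N := by
      unfold bad
      constructor
      · intro h t
        rcases t with _ | t
        · simpa using hN
        · rw [Function.iterate_succ_apply]; exact h t
      · intro h t
        have := h (t + 1)
        rwa [Function.iterate_succ_apply] at this
    exact if_congr this rfl rfl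

/-- the counting function of the exceptional set -/
noncomputable def cnt (Y x : ℝ) : ℝ := ({N : ℤ | |(N : ℝ)| ≤ x ∧ bad Y N}.ncard : ℝ)

theorem fin_abs (x : ℝ) (P : ℤ → Prop) : {N : ℤ | |(N : ℝ)| ≤ x ∧ P N}.Finite := by
  apply Set.Finite.subset (Set.finite_Icc ⌈-x⌉ ⌊x⌋)
  rintro n ⟨h1, _⟩
  rw [abs_le] at h1
  exact ⟨Int.ceil_le.mpr h1.1, Int.le_floor.mpr h1.2⟩

theorem cnt_le_main (x Y : ℝ) (hx : 2 ≤ x) (hY : 1 ≤ Y) :
    cnt Y x ≤ 4 * 10 ^ 10 * x * Real.log x ^ 2 * Y ^ (-(1 / 22) : ℝ) := by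
  refine le_trans ?_ (main x Y hx hY)
  unfold cnt
  have : {N : ℤ | |(N : ℝ)| ≤ x ∧ bad Y N} ⊆ {N : ℤ | |(N : ℝ)| ≤ x ∧ ∀ t : ℕ, (t : ℝ) ≤ 600 * Real.log x → Y < |((T^[t] N : ℤ) : ℝ)|} := by
    rintro N ⟨h1, h2⟩
    exact ⟨h1, fun t _ => h2 t⟩
  exact_mod_cast Set.ncard_le_ncard this (fin_abs x _)

theorem cnt_mono (Y : ℝ) {x x' : ℝ} (h : x ≤ x') : cnt Y x ≤ cnt Y x' := by
  unfold cnt
  have : {N : ℤ | |(N : ℝ)| ≤ x ∧ bad Y N} ⊆ {N : ℤ | |(N : ℝ)| ≤ x' ∧ bad Y N} := by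
    rintro N ⟨h1, h2⟩
    exact ⟨le_trans h1 h, h2⟩
  exact_mod_cast Set.ncard_le_ncard this (fin_abs x' _)

theorem cnt_zero {Y x : ℝ} (h : x ≤ Y) : cnt Y x = 0 := by
  unfold cnt
  have : {N : ℤ | |(N : ℝ)| ≤ x ∧ bad Y N} = ∅ := by
    rw [Set.eq_empty_iff_forall_notMem]
    rintro N ⟨h1, h2⟩
    have := h2 0
    simp only [Function.iterate_zero, id_eq] at this
    linarith
  rw [this, Set.ncard_empty, Nat.cast_zero]

open Classical in
theorem sum_Phi_le (Y x : ℝ) (X : ℤ) :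
    ∑ N ∈ Finset.Icc (-X) X, (if |(N : ℝ)| ≤ x then PhiB Y N else 0) ≤ cnt Y x := by
  have e : ∀ N ∈ Finset.Icc (-X) X, (if |(N : ℝ)| ≤ x then PhiB Y N else 0) = if |(N : ℝ)| ≤ x ∧ bad Y N then (1 : ℝ) else 0 := by
    intro N _
    unfold PhiB
    by_cases h1 : |(N : ℝ)| ≤ x
    · by_cases h2 : bad Y N
      · rw [if_pos h1, if_pos h2, if_pos ⟨h1, h2⟩]
      · rw [if_pos h1, if_neg h2, if_neg (fun h => h2 h.2)]
    · rw [if_neg h1, if_neg (fun h => h1 h.1)]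
  rw [Finset.sum_congr rfl e, ← Finset.sum_filter, Finset.sum_const, nsmul_eq_mul, mul_one]
  unfold cnt
  have h1 : (((Finset.Icc (-X) X).filter (fun N : ℤ => |(N : ℝ)| ≤ x ∧ bad Y N) : Finset ℤ) : Set ℤ) ⊆ {N : ℤ | |(N : ℝ)| ≤ x ∧ bad Y N} := by
    intro N hN
    rw [Finset.mem_coe, Finset.mem_filter] at hN
    exact hN.2
  have h2 := Set.ncard_le_ncard h1 (fin_abs x _)
  rw [Set.ncard_coe_finset] at h2
  exact_mod_cast h2

/-- the initial scale -/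
theorem base_bound {Y : ℝ} (hY : 1 ≤ Y) {A : ℝ} (hA : 2 ^ 16 ≤ A) (X : ℤ) (a : ℝ) (ha1 : A ≤ a) (ha2 : a ≤ 4 * A) :
    SS (PhiB Y) X a (A / 32) ≤ A / 32 * (2 * 10 ^ 13 * A ^ 2 * Y ^ (-(1 / 22) : ℝ)) := by
  classical
  have hA' : (65536 : ℝ) ≤ A := by linarith [show (65536 : ℝ) = 2 ^ 16 by norm_num]
  obtain ⟨W, hW⟩ : ∃ W : ℝ, W = A / 32 := ⟨_, rfl⟩
  have hW0 : 0 < W := by rw [hW]; positivity
  have hW1 : 1 ≤ W := by rw [hW]; linarith
  rw [← hW]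
  obtain ⟨j0, hj0⟩ : ∃ j0, j0 = ⌈a - W⌉₊ := ⟨_, rfl⟩
  obtain ⟨j1, hj1⟩ : ∃ j1, j1 = ⌈a + W⌉₊ := ⟨_, rfl⟩
  have hj1r : (j1 : ℝ) < a + W + 1 := by rw [hj1]; exact Nat.ceil_lt_add_one (by linarith)
  have hj0r : a - W ≤ j0 := by rw [hj0]; exact Nat.le_ceil _
  have hj0p : (1 : ℝ) ≤ j0 := by linarith
  have hp : ∀ N ∈ Finset.Icc (-X) X, PhiB Y N * om a W N ≤
      ∑ j ∈ Finset.Icc j0 j1, Real.exp (1 - j) * (if |(N : ℝ)| ≤ Real.exp j then PhiB Y N else 0) := by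
    intro N _
    have hΦ0 := (PhiB_inv Y).nonneg N
    have hnn : ∀ j ∈ Finset.Icc j0 j1, 0 ≤ Real.exp (1 - j) * (if |(N : ℝ)| ≤ Real.exp j then PhiB Y N else 0) := by
      intro j _
      apply mul_nonneg (Real.exp_pos _).le
      split_ifs
      · exact hΦ0
      · exact le_rfl
    by_cases h0 : om a W N = 0
    · rw [h0, mul_zero]; exact Finset.sum_nonneg hnn
    · obtain ⟨h1, h2⟩ := om_ne_zero hW0 h0
      rw [abs_lt] at h2
      obtain ⟨j, hj⟩ : ∃ j, j = ⌈Real.log |(N : ℝ)|⌉₊ := ⟨_, rfl⟩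
      have hlog0 : 0 ≤ Real.log |(N : ℝ)| := by linarith
      have hjle : Real.log |(N : ℝ)| ≤ j := by rw [hj]; exact Nat.le_ceil _
      have hjlt : (j : ℝ) < Real.log |(N : ℝ)| + 1 := by rw [hj]; exact Nat.ceil_lt_add_one hlog0
      have hmem : j ∈ Finset.Icc j0 j1 := by
        rw [Finset.mem_Icc, hj, hj0, hj1]
        exact ⟨Nat.ceil_le_ceil (by linarith), Nat.ceil_le_ceil (by linarith)⟩
      refine le_trans ?_ (Finset.single_le_sum hnn hmem)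
      rw [if_pos ((Real.log_le_iff_le_exp h1).mp hjle), mul_comm]
      apply mul_le_mul_of_nonneg_right _ hΦ0
      refine le_trans (om_le a W N) ?_
      have h3 : Real.exp (j - 1) ≤ |(N : ℝ)| := by
        rw [← Real.le_log_iff_exp_le h1]; linarith
      calc 1 / |(N : ℝ)| ≤ 1 / Real.exp (j - 1) := one_div_le_one_div_of_le (Real.exp_pos _) h3
        _ = Real.exp (1 - j) := by rw [one_div, ← Real.exp_neg]; congr 1; ring
  have h1 : SS (PhiB Y) X a W ≤ ∑ j ∈ Finset.Icc j0 j1, Real.exp (1 - j) * cnt Y (Real.exp j) := by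
    unfold SS
    refine le_trans (Finset.sum_le_sum hp) ?_
    rw [Finset.sum_comm]
    apply Finset.sum_le_sum
    intro j _
    rw [← Finset.mul_sum]
    exact mul_le_mul_of_nonneg_left (sum_Phi_le Y (Real.exp j) X) (Real.exp_pos _).le
  refine le_trans h1 ?_
  have hY0 : 0 < Y ^ (-(1 / 22) : ℝ) := Real.rpow_pos_of_pos (by linarith) _
  have h2 : ∀ j ∈ Finset.Icc j0 j1, Real.exp (1 - j) * cnt Y (Real.exp j) ≤ 3 * (4 * 10 ^ 10) * (5 * A) ^ 2 * Y ^ (-(1 / 22) : ℝ) := by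
    intro j hj
    rw [Finset.mem_Icc] at hj
    have hjr : (j0 : ℝ) ≤ j := by exact_mod_cast hj.1
    have hjr1 : (j : ℝ) ≤ j1 := by exact_mod_cast hj.2
    have h3 : 2 ≤ Real.exp j := by
      have := Real.add_one_le_exp (j : ℝ)
      linarith
    have h4 := cnt_le_main (Real.exp j) Y h3 hY
    rw [Real.log_exp] at h4
    have h5 : (j : ℝ) ≤ 5 * A := by linarith
    have h6 : Real.exp (1 - j) * Real.exp j ≤ 3 := by
      rw [← Real.exp_add, sub_add_cancel]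
      have := Real.exp_one_lt_d9
      linarith
    calc Real.exp (1 - j) * cnt Y (Real.exp j) ≤ Real.exp (1 - j) * (4 * 10 ^ 10 * Real.exp j * (j : ℝ) ^ 2 * Y ^ (-(1 / 22) : ℝ)) :=
          mul_le_mul_of_nonneg_left h4 (Real.exp_pos _).le
      _ = (Real.exp (1 - j) * Real.exp j) * (4 * 10 ^ 10) * (j : ℝ) ^ 2 * Y ^ (-(1 / 22) : ℝ) := by ring
      _ ≤ _ := by gcongr
  refine le_trans (Finset.sum_le_sum h2) ?_
  rw [Finset.sum_const, nsmul_eq_mul, Nat.card_Icc]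
  have h3 : ((j1 + 1 - j0 : ℕ) : ℝ) ≤ 5 * W := by
    rcases le_total j0 (j1 + 1) with h | h
    · rw [Nat.cast_sub h]; push_cast; linarith
    · rw [Nat.sub_eq_zero_of_le h]; push_cast; positivity
  calc ((j1 + 1 - j0 : ℕ) : ℝ) * (3 * (4 * 10 ^ 10) * (5 * A) ^ 2 * Y ^ (-(1 / 22) : ℝ))
      ≤ (5 * W) * (3 * (4 * 10 ^ 10) * (5 * A) ^ 2 * Y ^ (-(1 / 22) : ℝ)) := by gcongr
    _ = W * (1500 * 10 ^ 10 * A ^ 2 * Y ^ (-(1 / 22) : ℝ)) := by ring
    _ ≤ _ := by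
        apply mul_le_mul_of_nonneg_left _ hW0.le
        have : 0 ≤ A ^ 2 * Y ^ (-(1 / 22) : ℝ) := by positivity
        nlinarith

end Pool.Agent.Helper3.TD
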