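import Pool.Agent.Helper3.ND.Basic
import Pool.Agent.Helper3.TD.Char

/-! Choice of parameters and the bound for the inner character sums. -/

namespace Pool.Agent.Helper3.TD

open Pool.Agent.Helper3.ND

theorem choose_bound (m k : ℕ) (hm : 1 ≤ m) : (m.choose k : ℝ) ≤ 2 ^ m / Real.sqrt m := by
  have key : ∀ a i : ℕ, (((2 * a).choose i : ℕ) : ℝ) ≤ 4 ^ a / Real.sqrt (2 * a + 1) := by
    intro a i
    have h1 := central_real a
    rw [div_le_div_iff₀ (by positivity) (Real.sqrt_pos.mpr (by positivity)), one_mul] at h1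
    rw [le_div_iff₀ (Real.sqrt_pos.mpr (by positivity))]
    refine le_trans ?_ h1
    gcongr
    exact choose_le_central a i
  rcases Nat.even_or_odd' m with ⟨a, rfl | rfl⟩
  · refine le_trans (key a k) ?_
    have e : (2 : ℝ) ^ (2 * a) = 4 ^ a := by rw [pow_mul]; norm_num
    rw [e]
    have hpos : 0 < Real.sqrt ((2 * a : ℕ) : ℝ) := Real.sqrt_pos.mpr (by exact_mod_cast hm)
    apply div_le_div_of_nonneg_left (by positivity) hpos
    apply Real.sqrt_le_sqrt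
    push_cast; linarith
  · have e : (2 : ℝ) ^ (2 * a + 1) = 2 * 4 ^ a := by rw [pow_succ, pow_mul]; norm_num; ring
    rw [e]
    have e2 : ((2 * a + 1 : ℕ) : ℝ) = 2 * a + 1 := by push_cast; ring
    rw [e2]
    cases k with
    | zero =>
      have := key a 0
      simp only [Nat.choose_zero_right, Nat.cast_one] at this ⊢
      have h0 : 0 ≤ (4 : ℝ) ^ a / Real.sqrt (2 * a + 1) := by positivity
      rw [mul_div_assoc]; linarith
    | succ k =>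
      rw [Nat.choose_succ_succ]
      push_cast
      have h1 := key a k
      have h2 := key a (k + 1)
      rw [mul_div_assoc]; linarith

/-- the number of last digits used for frequency `3 ^ n` -/
noncomputable def uu (n : ℕ) : ℕ := Nat.log 2 (3 ^ n / n ^ 4)

theorem pow_four_le (n : ℕ) (hn : 8 ≤ n) : n ^ 4 ≤ 3 ^ n := by
  induction n, hn using Nat.le_induction with
  | base => norm_num
  | succ n hn ih =>
    calc (n + 1) ^ 4 ≤ 3 * n ^ 4 := by nlinarith [Nat.pow_le_pow_left hn 2, Nat.pow_le_pow_left hn 3, Nat.pow_le_pow_left hn 4, mul_nonneg (Nat.zero_le n) (Nat.zero_le n), mul_le_mul hn (le_refl (n^3)) (by positivity) (by positivity), mul_le_mul hn (le_refl (n^2)) (by positivity) (by positivity)]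
      _ ≤ 3 * 3 ^ n := by omega
      _ = _ := by rw [pow_succ]; ring

theorem uu_le (n : ℕ) (hn : 8 ≤ n) : n ^ 4 * 2 ^ uu n ≤ 3 ^ n := by
  have h1 := pow_four_le n hn
  have hpos : 0 < n ^ 4 := by positivity
  have hne : 3 ^ n / n ^ 4 ≠ 0 := by
    have := Nat.div_pos h1 hpos
    omega
  have h2 := Nat.pow_log_le_self 2 hne
  calc n ^ 4 * 2 ^ uu n ≤ n ^ 4 * (3 ^ n / n ^ 4) := Nat.mul_le_mul_left _ h2
    _ ≤ 3 ^ n := Nat.mul_div_le _ _

theorem uu_gt (n : ℕ) (hn : 1 ≤ n) : 3 ^ n < n ^ 4 * (2 * 2 ^ uu n) := by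
  have hpos : 0 < n ^ 4 := by positivity
  have h2 := Nat.lt_pow_succ_log_self (show 1 < 2 by norm_num) (3 ^ n / n ^ 4)
  have h3 : 3 ^ n / n ^ 4 < 2 ^ (uu n + 1) := h2
  rw [Nat.div_lt_iff_lt_mul hpos] at h3
  calc 3 ^ n < 2 ^ (uu n + 1) * n ^ 4 := h3
    _ = _ := by rw [pow_succ]; ring

theorem uu_bound (n : ℕ) (hn : 8 ≤ n) : 5 * uu n ≤ 8 * n := by
  have h1 := uu_le n hn
  have h2 : 2 ^ uu n ≤ 3 ^ n := le_trans (Nat.le_mul_of_pos_left _ (by positivity)) h1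
  by_contra hc
  push Not at hc
  have h3 : (2 ^ uu n) ^ 5 ≤ (3 ^ n) ^ 5 := Nat.pow_le_pow_left h2 5
  have h4 : (3 ^ n) ^ 5 ≤ 2 ^ (8 * n) := by
    calc (3 ^ n) ^ 5 = 243 ^ n := by rw [← pow_mul, mul_comm, pow_mul]; norm_num
      _ ≤ 256 ^ n := Nat.pow_le_pow_left (by norm_num) n
      _ = 2 ^ (8 * n) := by rw [pow_mul]; norm_num
  have h5 : 2 ^ (8 * n) < (2 ^ uu n) ^ 5 := by
    rw [← pow_mul, mul_comm (uu n) 5]
    exact Nat.pow_lt_pow_right (by norm_num) hc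
  omega

/-- good last digits -/
def GG (n : ℕ) (y : ℕ) : Prop :=
  (cc (uu n) (y : ℤ) : ℝ) < (n : ℝ) ^ 4 * 2 ^ uu n ∧ |(od (uu n) (y : ℤ) : ℝ) - uu n / 2| < (n : ℝ) ^ (11 / 20 : ℝ)

theorem rpow_small {x : ℝ} (hx : 10 ^ 3 ≤ x) : x ^ (11 / 20 : ℝ) ≤ x / 10 := by
  have hx0 : 0 < x := by linarith
  have h1 : (10 : ℝ) ≤ x ^ (9 / 20 : ℝ) := by
    calc (10 : ℝ) ≤ ((10 : ℝ) ^ (3 : ℝ)) ^ (9 / 20 : ℝ) := by
          rw [← Real.rpow_mul (by norm_num)]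
          calc (10 : ℝ) = (10 : ℝ) ^ (1 : ℝ) := by rw [Real.rpow_one]
            _ ≤ _ := Real.rpow_le_rpow_of_exponent_le (by norm_num) (by norm_num)
      _ ≤ x ^ (9 / 20 : ℝ) := by
          apply Real.rpow_le_rpow (by positivity) _ (by norm_num)
          have : (10 : ℝ) ^ (3 : ℝ) = 10 ^ 3 := by norm_cast
          rw [this]; exact hx
  have h2 : x ^ (11 / 20 : ℝ) * x ^ (9 / 20 : ℝ) = x := by
    rw [← Real.rpow_add hx0]; norm_num
  have h3 : 0 < x ^ (11 / 20 : ℝ) := Real.rpow_pos_of_pos hx0 _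
  nlinarith

theorem rpow_big {M : ℝ} (hM : 51 ^ 20 ≤ M) : 51 * M ^ (11 / 20 : ℝ) ≤ M ^ (3 / 5 : ℝ) := by
  have hM0 : 0 < M := lt_of_lt_of_le (by positivity) hM
  have h1 : (51 : ℝ) ≤ M ^ (1 / 20 : ℝ) := by
    calc (51 : ℝ) = ((51 : ℝ) ^ (20 : ℝ)) ^ (1 / 20 : ℝ) := by
          rw [← Real.rpow_mul (by norm_num)]; norm_num
      _ ≤ M ^ (1 / 20 : ℝ) := by
          apply Real.rpow_le_rpow (by positivity) _ (by norm_num)
          have : (51 : ℝ) ^ (20 : ℝ) = 51 ^ 20 := by norm_cast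
          rw [this]; exact hM
  have h2 : M ^ (3 / 5 : ℝ) = M ^ (1 / 20 : ℝ) * M ^ (11 / 20 : ℝ) := by
    rw [← Real.rpow_add hM0]; norm_num
  rw [h2]
  have h3 : 0 < M ^ (11 / 20 : ℝ) := Real.rpow_pos_of_pos hM0 _
  exact mul_le_mul_of_nonneg_right h1 h3.le

theorem rpow_mul_le {c M : ℝ} (hc : 1 ≤ c) (hM : 0 ≤ M) : (c * M) ^ (11 / 20 : ℝ) ≤ c * M ^ (11 / 20 : ℝ) := by
  rw [Real.mul_rpow (by linarith) hM]
  have h1 : c ^ (11 / 20 : ℝ) ≤ c := by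
    calc c ^ (11 / 20 : ℝ) ≤ c ^ (1 : ℝ) := Real.rpow_le_rpow_of_exponent_le hc (by norm_num)
      _ = c := Real.rpow_one c
  exact mul_le_mul_of_nonneg_right h1 (Real.rpow_nonneg hM _)

/-- the range of the number of odd steps -/
def TypK (t k : ℕ) : Prop := |(k : ℝ) - t / 2| ≤ (t : ℝ) ^ (11 / 20 : ℝ)

theorem uu_le_t {n t k : ℕ} (hn : 10 ^ 3 ≤ n) (hnk : n ≤ k) (hkt : k ≤ t) (hk : TypK t k) : uu n ≤ t := by
  have h1 := uu_bound n (by omega)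
  have ht : (10 ^ 3 : ℝ) ≤ t := by
    have : 10 ^ 3 ≤ t := by omega
    exact_mod_cast this
  have h2 := rpow_small ht
  unfold TypK at hk
  rw [abs_le] at hk
  have h3 : (n : ℝ) ≤ k := by exact_mod_cast hnk
  have h4 : (5 : ℝ) * uu n ≤ 8 * n := by exact_mod_cast h1
  have h5 : (uu n : ℝ) ≤ t := by linarith [hk.2]
  exact_mod_cast h5

theorem beta_bound : ∃ C : ℝ, 0 < C ∧ ∃ n0 : ℕ, 10 ^ 3 ≤ n0 ∧ ∀ n, n0 ≤ n → ∀ t k : ℕ, n ≤ k → k ≤ t → TypK t k →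
    ∀ ξ : ZMod (Q n), IsUnit ξ → ∀ y : ℕ, GG n y → od (uu n) (y : ℤ) ≤ k →
      ‖X n (t - uu n) (ξ * 3 ^ od (uu n) (y : ℤ)) (k - od (uu n) (y : ℤ))‖ ≤
        (C / ((n : ℝ) ^ 5 * Real.sqrt t)) * 2 ^ (t - uu n) := by
  obtain ⟨C1, hC1, H1⟩ := X_decay 6
  obtain ⟨C2, hC2, H2⟩ := X_decay 5
  refine ⟨2 * 10 ^ 6 * C1 + 4 * 10 ^ 5 * C2, by positivity, 10 * 51 ^ 20, by norm_num, ?_⟩
  intro n hn t k hnk hkt hk ξ hξ y hy hyk
  have hn3 : 10 ^ 3 ≤ n := by omega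
  have hut := uu_le_t hn3 hnk hkt hk
  have hub := uu_bound n (by omega)
  obtain ⟨u, hu⟩ : ∃ u, u = uu n := ⟨_, rfl⟩
  obtain ⟨A, hA⟩ : ∃ A, A = od (uu n) (y : ℤ) := ⟨_, rfl⟩
  obtain ⟨_, hy2⟩ := hy
  rw [← hA] at hy2 hyk ⊢
  rw [← hu] at hy2 hut hub ⊢
  have hnr : (10 ^ 3 : ℝ) ≤ n := by exact_mod_cast hn3
  have hn0 : (0 : ℝ) < n := by linarith
  have hsm := rpow_small hnr
  have htr : (n : ℝ) ≤ t := by exact_mod_cast (le_trans hnk hkt)
  have ht3 : (10 ^ 3 : ℝ) ≤ t := by linarith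
  have ht0 : (0 : ℝ) < t := by linarith
  have hubr : (5 : ℝ) * u ≤ 8 * n := by exact_mod_cast hub
  rw [abs_lt] at hy2
  have hA9 : (A : ℝ) ≤ 9 / 10 * n := by linarith [hy2.2]
  have hAn : A ≤ n := by
    have : (A : ℝ) ≤ n := by linarith
    exact_mod_cast this
  obtain ⟨M, hM⟩ : ∃ M, A + M = n := ⟨n - A, by omega⟩
  have hMr : (M : ℝ) = n - A := by rw [← hM]; push_cast; ring
  have hM10 : (n : ℝ) ≤ 10 * M := by rw [hMr]; linarith
  have hMn : (M : ℝ) ≤ n := by rw [hMr]; have : (0 : ℝ) ≤ A := by positivity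
                               linarith
  have hMpos : (0 : ℝ) < M := by linarith
  have hM51 : (51 : ℝ) ^ 20 ≤ M := by
    have : ((10 * 51 ^ 20 : ℕ) : ℝ) ≤ n := by exact_mod_cast hn
    push_cast at this
    linarith
  have hkr : (n : ℝ) ≤ k := by exact_mod_cast hnk
  unfold TypK at hk
  rw [abs_le] at hk
  have hsqt : 0 < Real.sqrt t := Real.sqrt_pos.mpr ht0
  have hsr : ((t - u : ℕ) : ℝ) = t - u := by rw [Nat.cast_sub hut]
  by_cases hcase : t ≤ 4 * n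
  · -- large frequency
    have h4 : (t : ℝ) ≤ 4 * n := by exact_mod_cast hcase
    obtain ⟨R, hR⟩ : ∃ R, R = (t - u) / 2 := ⟨_, rfl⟩
    obtain ⟨t', ht'⟩ : ∃ t', t' = (t - u) % 2 := ⟨_, rfl⟩
    have hRt : t - u = 2 * R + t' := by omega
    have ht1 : t' ≤ 1 := by omega
    have hR2 : (t : ℝ) - u ≤ 2 * R + 1 := by
      rw [← hsr, hRt]; push_cast
      have : (t' : ℝ) ≤ 1 := by exact_mod_cast ht1
      linarith
    have hyM : ((M - R : ℕ) : ℝ) ≤ (M : ℝ) ^ (3 / 5 : ℝ) := by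
      have e1 : ((M - R : ℕ) : ℝ) ≤ max ((M : ℝ) - R) 0 := by
        rcases le_total R M with h | h
        · rw [Nat.cast_sub h]; exact le_max_left _ _
        · rw [Nat.sub_eq_zero_of_le h]; simp
      refine le_trans e1 (max_le ?_ (Real.rpow_nonneg hMpos.le _))
      have e2 : (t : ℝ) ^ (11 / 20 : ℝ) ≤ 40 * (M : ℝ) ^ (11 / 20 : ℝ) := by
        refine le_trans ?_ (rpow_mul_le (by norm_num) hMpos.le)
        apply Real.rpow_le_rpow ht0.le _ (by norm_num)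
        linarith
      have e3 : (n : ℝ) ^ (11 / 20 : ℝ) ≤ 10 * (M : ℝ) ^ (11 / 20 : ℝ) := by
        refine le_trans ?_ (rpow_mul_le (by norm_num) hMpos.le)
        apply Real.rpow_le_rpow hn0.le _ (by norm_num)
        linarith
      have e4 := rpow_big hM51
      have e5 : (1 : ℝ) ≤ (M : ℝ) ^ (11 / 20 : ℝ) := by
        apply Real.one_le_rpow _ (by norm_num)
        have : (1 : ℝ) ≤ 51 ^ 20 := by norm_num
        linarith
      rw [hMr] at *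
      linarith [hk.2, hy2.1]
    have h5 := H1 n ξ hξ A M R (M - R) t' (k - A) (2 ^ t') hM hyM (by omega) (fun i => by exact_mod_cast Nat.choose_le_two_pow t' i)
    rw [← hRt] at h5
    have h6 : (4 : ℝ) ^ R * 2 ^ t' = 2 ^ (t - u) := by
      rw [hRt, pow_add, pow_mul]; norm_num
    rw [h6] at h5
    have h7 : ‖X n (t - u) (ξ * 3 ^ A) (k - A)‖ ≤ C1 * 2 ^ (t - u) / (M : ℝ) ^ 6 := by
      rw [le_div_iff₀ (by positivity)]; exact h5
    refine le_trans h7 ?_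
    have h8 : C1 / (M : ℝ) ^ 6 ≤ (2 * 10 ^ 6 * C1 + 4 * 10 ^ 5 * C2) / ((n : ℝ) ^ 5 * Real.sqrt t) := by
      rw [div_le_div_iff₀ (by positivity) (by positivity)]
      have a1 : Real.sqrt t ≤ 2 * n := by
        rw [Real.sqrt_le_left (by positivity)]
        nlinarith
      have a2 : (n : ℝ) ^ 6 ≤ 10 ^ 6 * (M : ℝ) ^ 6 := by
        rw [← mul_pow]; exact pow_le_pow_left₀ hn0.le hM10 6
      calc C1 * ((n : ℝ) ^ 5 * Real.sqrt t) ≤ C1 * ((n : ℝ) ^ 5 * (2 * n)) := by gcongr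
        _ = 2 * C1 * (n : ℝ) ^ 6 := by ring
        _ ≤ 2 * C1 * (10 ^ 6 * (M : ℝ) ^ 6) := by gcongr
        _ ≤ (2 * 10 ^ 6 * C1 + 4 * 10 ^ 5 * C2) * (M : ℝ) ^ 6 := by
            have : 0 ≤ 4 * 10 ^ 5 * C2 * (M : ℝ) ^ 6 := by positivity
            linarith
    calc C1 * 2 ^ (t - u) / (M : ℝ) ^ 6 = C1 / (M : ℝ) ^ 6 * 2 ^ (t - u) := by ring
      _ ≤ _ := mul_le_mul_of_nonneg_right h8 (by positivity)
  · push Not at hcase
    have h4 : (4 : ℝ) * n < t := by exact_mod_cast hcase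
    obtain ⟨t', ht'⟩ : ∃ t', t' = t - u - 2 * n := ⟨_, rfl⟩
    have h2n : 2 * n ≤ t - u := by
      have : (2 : ℝ) * n ≤ ((t - u : ℕ) : ℝ) := by rw [hsr]; linarith
      exact_mod_cast this
    have hRt : t - u = 2 * n + t' := by omega
    have ht'r : (t : ℝ) / 10 ≤ t' := by
      have : ((t - u : ℕ) : ℝ) = 2 * n + t' := by rw [hRt]; push_cast; ring
      rw [hsr] at this
      linarith
    have ht'pos : (0 : ℝ) < t' := by linarith
    have ht'1 : 1 ≤ t' := by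
      have : 0 < t' := by exact_mod_cast ht'pos
      omega
    have h5 := H2 n ξ hξ A M n 0 t' (k - A) (2 ^ t' / Real.sqrt t') hM (by simpa using Real.rpow_nonneg hMpos.le _)
      (by omega) (fun i => choose_bound t' i ht'1)
    rw [← hRt] at h5
    have h6 : (4 : ℝ) ^ n * (2 ^ t' / Real.sqrt t') = 2 ^ (t - u) / Real.sqrt t' := by
      rw [hRt, pow_add, pow_mul]; norm_num; ring
    rw [h6] at h5
    have h7 : ‖X n (t - u) (ξ * 3 ^ A) (k - A)‖ ≤ C2 * (2 ^ (t - u) / Real.sqrt t') / (M : ℝ) ^ 5 := by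
      rw [le_div_iff₀ (by positivity)]; exact h5
    refine le_trans h7 ?_
    have hsq' : 0 < Real.sqrt t' := Real.sqrt_pos.mpr ht'pos
    have h8 : C2 / (Real.sqrt t' * (M : ℝ) ^ 5) ≤ (2 * 10 ^ 6 * C1 + 4 * 10 ^ 5 * C2) / ((n : ℝ) ^ 5 * Real.sqrt t) := by
      rw [div_le_div_iff₀ (by positivity) (by positivity)]
      have a1 : Real.sqrt t ≤ 4 * Real.sqrt t' := by
        rw [Real.sqrt_le_left (by positivity), mul_pow, Real.sq_sqrt ht'pos.le]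
        linarith
      have a2 : (n : ℝ) ^ 5 ≤ 10 ^ 5 * (M : ℝ) ^ 5 := by
        rw [← mul_pow]; exact pow_le_pow_left₀ hn0.le hM10 5
      calc C2 * ((n : ℝ) ^ 5 * Real.sqrt t) ≤ C2 * ((10 ^ 5 * (M : ℝ) ^ 5) * (4 * Real.sqrt t')) := by gcongr
        _ = 4 * 10 ^ 5 * C2 * (Real.sqrt t' * (M : ℝ) ^ 5) := by ring
        _ ≤ (2 * 10 ^ 6 * C1 + 4 * 10 ^ 5 * C2) * (Real.sqrt t' * (M : ℝ) ^ 5) := by
            have : 0 ≤ 2 * 10 ^ 6 * C1 * (Real.sqrt t' * (M : ℝ) ^ 5) := by positivity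
            linarith
    calc C2 * (2 ^ (t - u) / Real.sqrt t') / (M : ℝ) ^ 5 = C2 / (Real.sqrt t' * (M : ℝ) ^ 5) * 2 ^ (t - u) := by
          field_simp
      _ ≤ _ := mul_le_mul_of_nonneg_right h8 (by positivity)

end Pool.Agent.Helper3.TD
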