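import Pool.Agent.Helper3.TD.Beta

/-! Mixing with an arbitrary power of decay: choice of parameters. -/

namespace Pool.Agent.Helper3.TD

open Pool.Agent.Helper3.ND Filter Topology

/-- the number of last digits used for frequency `3 ^ n` -/
noncomputable def uk (p n : ℕ) : ℕ := Nat.log 2 (3 ^ n / n ^ (2 * p))

theorem pow_le_three (p : ℕ) : ∃ n0 : ℕ, 10 ^ 3 ≤ n0 ∧ ∀ n, n0 ≤ n → 2 * n ^ (2 * p) ≤ 3 ^ n := by
  have h1 := tendsto_pow_const_div_const_pow_of_one_lt (2 * p) (show (1 : ℝ) < 3 by norm_num)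
  have h2 := h1.eventually (ge_mem_nhds (show (0 : ℝ) < 1 / 2 by norm_num))
  obtain ⟨n0, hn0⟩ := eventually_atTop.mp h2
  refine ⟨max n0 (10 ^ 3), le_max_right _ _, ?_⟩
  intro n hn
  have h3 := hn0 n (le_trans (le_max_left _ _) hn)
  rw [div_le_iff₀ (by positivity)] at h3
  have h4 : (2 : ℝ) * (n : ℝ) ^ (2 * p) ≤ 3 ^ n := by linarith
  exact_mod_cast h4

theorem uk_le {p n : ℕ} (h : 2 * n ^ (2 * p) ≤ 3 ^ n) (hn : 1 ≤ n) : n ^ (2 * p) * 2 ^ uk p n ≤ 3 ^ n := by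
  have hpos : 0 < n ^ (2 * p) := by positivity
  have hne : 3 ^ n / n ^ (2 * p) ≠ 0 := by
    have := Nat.div_pos (show n ^ (2 * p) ≤ 3 ^ n by omega) hpos
    omega
  have h2 := Nat.pow_log_le_self 2 hne
  calc n ^ (2 * p) * 2 ^ uk p n ≤ n ^ (2 * p) * (3 ^ n / n ^ (2 * p)) := Nat.mul_le_mul_left _ h2
    _ ≤ 3 ^ n := Nat.mul_div_le _ _

theorem uk_gt (p n : ℕ) (hn : 1 ≤ n) : 3 ^ n < n ^ (2 * p) * (2 * 2 ^ uk p n) := by
  have hpos : 0 < n ^ (2 * p) := by positivity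
  have h2 := Nat.lt_pow_succ_log_self (show 1 < 2 by norm_num) (3 ^ n / n ^ (2 * p))
  have h3 : 3 ^ n / n ^ (2 * p) < 2 ^ (uk p n + 1) := h2
  rw [Nat.div_lt_iff_lt_mul hpos] at h3
  calc 3 ^ n < 2 ^ (uk p n + 1) * n ^ (2 * p) := h3
    _ = _ := by rw [pow_succ]; ring

theorem uk_pos {p n : ℕ} (h : 2 * n ^ (2 * p) ≤ 3 ^ n) (hn : 1 ≤ n) : 1 ≤ uk p n := by
  have hpos : 0 < n ^ (2 * p) := by positivity
  have h1 : 2 ≤ 3 ^ n / n ^ (2 * p) := (Nat.le_div_iff_mul_le hpos).mpr h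
  unfold uk
  exact Nat.log_pos (by norm_num) h1

theorem uk_bound {p n : ℕ} (h : 2 * n ^ (2 * p) ≤ 3 ^ n) (hn : 1 ≤ n) : 5 * uk p n ≤ 8 * n := by
  have h1 := uk_le h hn
  have h2 : 2 ^ uk p n ≤ 3 ^ n := le_trans (Nat.le_mul_of_pos_left _ (by positivity)) h1
  by_contra hc
  push Not at hc
  have h3 : (2 ^ uk p n) ^ 5 ≤ (3 ^ n) ^ 5 := Nat.pow_le_pow_left h2 5
  have h4 : (3 ^ n) ^ 5 ≤ 2 ^ (8 * n) := by
    calc (3 ^ n) ^ 5 = 243 ^ n := by rw [← pow_mul, mul_comm, pow_mul]; norm_num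
      _ ≤ 256 ^ n := Nat.pow_le_pow_left (by norm_num) n
      _ = 2 ^ (8 * n) := by rw [pow_mul]; norm_num
  have h5 : 2 ^ (8 * n) < (2 ^ uk p n) ^ 5 := by
    rw [← pow_mul, mul_comm (uk p n) 5]
    exact Nat.pow_lt_pow_right (by norm_num) hc
  omega

/-- good last digits -/
def GK (p n : ℕ) (y : ℕ) : Prop :=
  (cc (uk p n) (y : ℤ) : ℝ) < (n : ℝ) ^ (2 * p) * 2 ^ uk p n ∧ |(od (uk p n) (y : ℤ) : ℝ) - uk p n / 2| < (n : ℝ) ^ (11 / 20 : ℝ)

theorem uk_le_t {p n t k : ℕ} (h : 2 * n ^ (2 * p) ≤ 3 ^ n) (hn : 10 ^ 3 ≤ n) (hnk : n ≤ k) (hkt : k ≤ t) (hk : TypK t k) : uk p n ≤ t := by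
  have h1 := uk_bound h (by omega)
  have ht : (10 ^ 3 : ℝ) ≤ t := by
    have : 10 ^ 3 ≤ t := by omega
    exact_mod_cast this
  have h2 := rpow_small ht
  unfold TypK at hk
  rw [abs_le] at hk
  have h3 : (n : ℝ) ≤ k := by exact_mod_cast hnk
  have h4 : (5 : ℝ) * uk p n ≤ 8 * n := by exact_mod_cast h1
  have h5 : (uk p n : ℝ) ≤ t := by linarith [hk.2]
  exact_mod_cast h5

/-- exponentially small tail in power form -/
theorem exp_tailK (p : ℕ) {t : ℝ} (ht : 1 ≤ t) : Real.exp (-(t ^ (1 / 10 : ℝ))) ≤ (Nat.factorial (10 * p) : ℝ) / t ^ p := by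
  have ht0 : 0 < t := by linarith
  have e4 := Real.pow_div_factorial_le_exp (t ^ (1 / 10 : ℝ)) (by positivity) (10 * p)
  have e5 : (t ^ (1 / 10 : ℝ)) ^ (10 * p) = t ^ p := by
    rw [← Real.rpow_natCast, ← Real.rpow_mul ht0.le]
    push_cast
    rw [show (1 / 10 : ℝ) * (10 * p) = p by ring, Real.rpow_natCast]
  rw [e5] at e4
  rw [Real.exp_neg, le_div_iff₀ (by positivity), inv_mul_le_iff₀ (Real.exp_pos _)]
  rw [div_le_iff₀ (by positivity)] at e4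
  linarith

theorem beta_boundK (p B : ℕ) : ∃ C : ℝ, 0 < C ∧ ∃ n0 : ℕ, 10 ^ 3 ≤ n0 ∧ (∀ n, n0 ≤ n → 2 * n ^ (2 * p) ≤ 3 ^ n) ∧ ∀ n, n0 ≤ n → ∀ t k : ℕ, n ≤ k → k ≤ t → TypK t k →
    ∀ ξ : ZMod (Q n), IsUnit ξ → ∀ y : ℕ, GK p n y → od (uk p n) (y : ℤ) ≤ k →
      ‖X n (t - uk p n) (ξ * 3 ^ od (uk p n) (y : ℤ)) (k - od (uk p n) (y : ℤ))‖ ≤
        (C / ((n : ℝ) ^ B * Real.sqrt t)) * 2 ^ (t - uk p n) := by
  obtain ⟨C1, hC1, H1⟩ := X_decay (B + 1)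
  obtain ⟨C2, hC2, H2⟩ := X_decay B
  obtain ⟨N0, hN0, HN⟩ := pow_le_three p
  refine ⟨2 * 10 ^ (B + 1) * C1 + 4 * 10 ^ B * C2, by positivity, max N0 (10 * 51 ^ 20), le_trans hN0 (le_max_left _ _), fun n hn => HN n (le_trans (le_max_left _ _) hn), ?_⟩
  intro n hnn t k hnk hkt hk ξ hξ y hy hyk
  have hn : 10 * 51 ^ 20 ≤ n := le_trans (le_max_right _ _) hnn
  have hpn := HN n (le_trans (le_max_left _ _) hnn)
  have hn3 : 10 ^ 3 ≤ n := by omega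
  have hut := uk_le_t hpn hn3 hnk hkt hk
  have hub := uk_bound hpn (by omega)
  obtain ⟨u, hu⟩ : ∃ u, u = uk p n := ⟨_, rfl⟩
  obtain ⟨A, hA⟩ : ∃ A, A = od (uk p n) (y : ℤ) := ⟨_, rfl⟩
  obtain ⟨_, hy2⟩ := hy
  rw [← hA] at hy2 hyk ⊢
  rw [← hu] at hy2 hut hub ⊢
  have hnr : (10 ^ 3 : ℝ) ≤ n := by exact_mod_cast hn3
  have hn0 : (0 : ℝ) < n := by linarith
  have hsm := rpow_small hnr
  have htr : (n : ℝ) ≤ t := by exact_mod_cast (le_trans hnk hkt)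
  have ht3 : (10 ^ 3 : ℝ) ≤ t := by linarith
  have ht0 : (0 : ℝ) < t := by linarith
  have hubr : (5 : ℝ) * u ≤ 8 * n := by exact_mod_cast hub
  rw [abs_lt] at hy2
  have hA9 : (A : ℝ) ≤ 9 / 10 * n := by linarith [hy2.2]
  have hAn : A ≤ n := by
    have : (A : ℝ) ≤ n := by linarith
    exact_mod_cast this
  obtain ⟨M, hM⟩ : ∃ M, A + M = n := ⟨n - A, by omega⟩
  have hMr : (M : ℝ) = n - A := by rw [← hM]; push_cast; ring
  have hM10 : (n : ℝ) ≤ 10 * M := by rw [hMr]; linarith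
  have hMn : (M : ℝ) ≤ n := by rw [hMr]; have : (0 : ℝ) ≤ A := by positivity
                               linarith
  have hMpos : (0 : ℝ) < M := by linarith
  have hM51 : (51 : ℝ) ^ 20 ≤ M := by
    have : ((10 * 51 ^ 20 : ℕ) : ℝ) ≤ n := by exact_mod_cast hn
    push_cast at this
    linarith
  have hkr : (n : ℝ) ≤ k := by exact_mod_cast hnk
  unfold TypK at hk
  rw [abs_le] at hk
  have hsqt : 0 < Real.sqrt t := Real.sqrt_pos.mpr ht0
  have hsr : ((t - u : ℕ) : ℝ) = t - u := by rw [Nat.cast_sub hut]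
  by_cases hcase : t ≤ 4 * n
  · -- large frequency
    have h4 : (t : ℝ) ≤ 4 * n := by exact_mod_cast hcase
    obtain ⟨R, hR⟩ : ∃ R, R = (t - u) / 2 := ⟨_, rfl⟩
    obtain ⟨t', ht'⟩ : ∃ t', t' = (t - u) % 2 := ⟨_, rfl⟩
    have hRt : t - u = 2 * R + t' := by omega
    have ht1 : t' ≤ 1 := by omega
    have hR2 : (t : ℝ) - u ≤ 2 * R + 1 := by
      rw [← hsr, hRt]; push_cast
      have : (t' : ℝ) ≤ 1 := by exact_mod_cast ht1
      linarith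
    have hyM : ((M - R : ℕ) : ℝ) ≤ (M : ℝ) ^ (3 / 5 : ℝ) := by
      have e1 : ((M - R : ℕ) : ℝ) ≤ max ((M : ℝ) - R) 0 := by
        rcases le_total R M with h | h
        · rw [Nat.cast_sub h]; exact le_max_left _ _
        · rw [Nat.sub_eq_zero_of_le h]; simp
      refine le_trans e1 (max_le ?_ (Real.rpow_nonneg hMpos.le _))
      have e2 : (t : ℝ) ^ (11 / 20 : ℝ) ≤ 40 * (M : ℝ) ^ (11 / 20 : ℝ) := by
        refine le_trans ?_ (rpow_mul_le (by norm_num) hMpos.le)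
        apply Real.rpow_le_rpow ht0.le _ (by norm_num)
        linarith
      have e3 : (n : ℝ) ^ (11 / 20 : ℝ) ≤ 10 * (M : ℝ) ^ (11 / 20 : ℝ) := by
        refine le_trans ?_ (rpow_mul_le (by norm_num) hMpos.le)
        apply Real.rpow_le_rpow hn0.le _ (by norm_num)
        linarith
      have e4 := rpow_big hM51
      have e5 : (1 : ℝ) ≤ (M : ℝ) ^ (11 / 20 : ℝ) := by
        apply Real.one_le_rpow _ (by norm_num)
        have : (1 : ℝ) ≤ 51 ^ 20 := by norm_num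
        linarith
      rw [hMr] at *
      linarith [hk.2, hy2.1]
    have h5 := H1 n ξ hξ A M R (M - R) t' (k - A) (2 ^ t') hM hyM (by omega) (fun i => by exact_mod_cast Nat.choose_le_two_pow t' i)
    rw [← hRt] at h5
    have h6 : (4 : ℝ) ^ R * 2 ^ t' = 2 ^ (t - u) := by
      rw [hRt, pow_add, pow_mul]; norm_num
    rw [h6] at h5
    have h7 : ‖X n (t - u) (ξ * 3 ^ A) (k - A)‖ ≤ C1 * 2 ^ (t - u) / (M : ℝ) ^ (B + 1) := by
      rw [le_div_iff₀ (by positivity)]; exact h5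
    refine le_trans h7 ?_
    have h8 : C1 / (M : ℝ) ^ (B + 1) ≤ (2 * 10 ^ (B + 1) * C1 + 4 * 10 ^ B * C2) / ((n : ℝ) ^ B * Real.sqrt t) := by
      rw [div_le_div_iff₀ (by positivity) (by positivity)]
      have a1 : Real.sqrt t ≤ 2 * n := by
        rw [Real.sqrt_le_left (by positivity)]
        nlinarith
      have a2 : (n : ℝ) ^ (B + 1) ≤ 10 ^ (B + 1) * (M : ℝ) ^ (B + 1) := by
        rw [← mul_pow]; exact pow_le_pow_left₀ hn0.le hM10 (B + 1)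
      calc C1 * ((n : ℝ) ^ B * Real.sqrt t) ≤ C1 * ((n : ℝ) ^ B * (2 * n)) := by gcongr
        _ = 2 * C1 * (n : ℝ) ^ (B + 1) := by ring
        _ ≤ 2 * C1 * (10 ^ (B + 1) * (M : ℝ) ^ (B + 1)) := by gcongr
        _ ≤ (2 * 10 ^ (B + 1) * C1 + 4 * 10 ^ B * C2) * (M : ℝ) ^ (B + 1) := by
            have : 0 ≤ 4 * 10 ^ B * C2 * (M : ℝ) ^ (B + 1) := by positivity
            linarith
    calc C1 * 2 ^ (t - u) / (M : ℝ) ^ (B + 1) = C1 / (M : ℝ) ^ (B + 1) * 2 ^ (t - u) := by ring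
      _ ≤ _ := mul_le_mul_of_nonneg_right h8 (by positivity)
  · push Not at hcase
    have h4 : (4 : ℝ) * n < t := by exact_mod_cast hcase
    obtain ⟨t', ht'⟩ : ∃ t', t' = t - u - 2 * n := ⟨_, rfl⟩
    have h2n : 2 * n ≤ t - u := by
      have : (2 : ℝ) * n ≤ ((t - u : ℕ) : ℝ) := by rw [hsr]; linarith
      exact_mod_cast this
    have hRt : t - u = 2 * n + t' := by omega
    have ht'r : (t : ℝ) / 10 ≤ t' := by
      have : ((t - u : ℕ) : ℝ) = 2 * n + t' := by rw [hRt]; push_cast; ring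
      rw [hsr] at this
      linarith
    have ht'pos : (0 : ℝ) < t' := by linarith
    have ht'1 : 1 ≤ t' := by
      have : 0 < t' := by exact_mod_cast ht'pos
      omega
    have h5 := H2 n ξ hξ A M n 0 t' (k - A) (2 ^ t' / Real.sqrt t') hM (by simpa using Real.rpow_nonneg hMpos.le _)
      (by omega) (fun i => choose_bound t' i ht'1)
    rw [← hRt] at h5
    have h6 : (4 : ℝ) ^ n * (2 ^ t' / Real.sqrt t') = 2 ^ (t - u) / Real.sqrt t' := by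
      rw [hRt, pow_add, pow_mul]; norm_num; ring
    rw [h6] at h5
    have h7 : ‖X n (t - u) (ξ * 3 ^ A) (k - A)‖ ≤ C2 * (2 ^ (t - u) / Real.sqrt t') / (M : ℝ) ^ B := by
      rw [le_div_iff₀ (by positivity)]; exact h5
    refine le_trans h7 ?_
    have hsq' : 0 < Real.sqrt t' := Real.sqrt_pos.mpr ht'pos
    have h8 : C2 / (Real.sqrt t' * (M : ℝ) ^ B) ≤ (2 * 10 ^ (B + 1) * C1 + 4 * 10 ^ B * C2) / ((n : ℝ) ^ B * Real.sqrt t) := by
      rw [div_le_div_iff₀ (by positivity) (by positivity)]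
      have a1 : Real.sqrt t ≤ 4 * Real.sqrt t' := by
        rw [Real.sqrt_le_left (by positivity), mul_pow, Real.sq_sqrt ht'pos.le]
        linarith
      have a2 : (n : ℝ) ^ B ≤ 10 ^ B * (M : ℝ) ^ B := by
        rw [← mul_pow]; exact pow_le_pow_left₀ hn0.le hM10 B
      calc C2 * ((n : ℝ) ^ B * Real.sqrt t) ≤ C2 * ((10 ^ B * (M : ℝ) ^ B) * (4 * Real.sqrt t')) := by gcongr
        _ = 4 * 10 ^ B * C2 * (Real.sqrt t' * (M : ℝ) ^ B) := by ring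
        _ ≤ (2 * 10 ^ (B + 1) * C1 + 4 * 10 ^ B * C2) * (Real.sqrt t' * (M : ℝ) ^ B) := by
            have : 0 ≤ 2 * 10 ^ (B + 1) * C1 * (Real.sqrt t' * (M : ℝ) ^ B) := by positivity
            linarith
    calc C2 * (2 ^ (t - u) / Real.sqrt t') / (M : ℝ) ^ B = C2 / (Real.sqrt t' * (M : ℝ) ^ B) * 2 ^ (t - u) := by
          field_simp
      _ ≤ _ := mul_le_mul_of_nonneg_right h8 (by positivity)

end Pool.Agent.Helper3.TD
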