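import Pool.Agent.Helper3.TD.Shift

/-! Propagation of smallness through the scales. -/

namespace Pool.Agent.Helper3.TD

open Pool.Agent.Helper3.ND

theorem mu_ge : 0.14 ≤ mu := by
  unfold mu
  have h1 := Real.log_two_gt_d9
  have h2 := log_three_le
  linarith

theorem hundred_le : (100 : ℝ) ≤ Real.exp 5 := by
  have h1 := Real.exp_one_gt_d9
  have h2 : Real.exp 5 = Real.exp 1 ^ 5 := by rw [← Real.exp_nat_mul]; norm_num
  rw [h2]
  calc (100 : ℝ) ≤ 2.7 ^ 5 := by norm_num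
    _ ≤ _ := by gcongr; linarith

theorem hundred_pow (t : ℕ) : (100 : ℝ) ^ t ≤ Real.exp (5 * t) := by
  rw [show 5 * (t : ℝ) = t * 5 by ring, Real.exp_nat_mul]
  exact pow_le_pow_left₀ (by norm_num) hundred_le t

theorem four_pow (t : ℕ) : (4 : ℝ) ^ t ≤ Real.exp (2 * t) := by
  have h1 : (4 : ℝ) ≤ Real.exp 2 := by
    have h1 := Real.exp_one_gt_d9
    have h2 : Real.exp 2 = Real.exp 1 * Real.exp 1 := by rw [← Real.exp_add]; norm_num
    rw [h2]; nlinarith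
  rw [show 2 * (t : ℝ) = t * 2 by ring, Real.exp_nat_mul]
  exact pow_le_pow_left₀ (by norm_num) h1 t

theorem rpow_A {A : ℝ} (hA : 2 ^ 16 ≤ A) : 128 * A ^ (11 / 20 : ℝ) ≤ A := by
  have h0 : 0 < A := by linarith [show (0 : ℝ) < 2 ^ 16 by norm_num]
  have h1 : (128 : ℝ) ≤ A ^ (9 / 20 : ℝ) := by
    have h2 : ((2 : ℝ) ^ 16) ^ (9 / 20 : ℝ) ≤ A ^ (9 / 20 : ℝ) := Real.rpow_le_rpow (by norm_num) hA (by norm_num)
    refine le_trans ?_ h2
    rw [← Real.rpow_natCast, ← Real.rpow_mul (by norm_num)]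
    have h3 : (128 : ℝ) = (2 : ℝ) ^ (7 : ℝ) := by norm_num
    rw [h3]
    apply Real.rpow_le_rpow_of_exponent_le (by norm_num)
    norm_num
  have h2 : A = A ^ (9 / 20 : ℝ) * A ^ (11 / 20 : ℝ) := by
    rw [← Real.rpow_add h0]; norm_num
  have h3 : 0 < A ^ (11 / 20 : ℝ) := Real.rpow_pos_of_pos h0 _
  calc 128 * A ^ (11 / 20 : ℝ) ≤ A ^ (9 / 20 : ℝ) * A ^ (11 / 20 : ℝ) := by gcongr
    _ = A := h2.symm

/-- the admissible parameters at scale `A` -/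
theorem scale_ok {A : ℝ} (hA : 2 ^ 16 ≤ A) {t : ℕ} (ht : t = ⌊A / 16⌋₊) {a : ℝ} (ha : A ≤ a) :
    (t : ℝ) ≤ A / 16 ∧ A / 32 ≤ t ∧ 4 * (t : ℝ) ^ (11 / 20 : ℝ) ≤ A / 32 ∧
    16 * (A / 32) * 100 ^ t ≤ Real.exp (a - A / 32) ∧ (∀ Y : ℝ, Y ≤ Real.exp (A / 2) → Y * 4 ^ t < Real.exp (a - A / 32)) ∧
    (t : ℝ) ^ (11 / 20 : ℝ) ≤ A ^ (11 / 20 : ℝ) := by
  have hA' : (65536 : ℝ) ≤ A := by linarith [show (65536 : ℝ) = 2 ^ 16 by norm_num]
  have h1 : (t : ℝ) ≤ A / 16 := by rw [ht]; exact Nat.floor_le (by positivity)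
  have h2 : A / 16 - 1 < t := by rw [ht]; exact Nat.sub_one_lt_floor _
  have h3 : A / 32 ≤ t := by linarith
  have h4 : (t : ℝ) ^ (11 / 20 : ℝ) ≤ A ^ (11 / 20 : ℝ) := Real.rpow_le_rpow (by positivity) (by linarith) (by norm_num)
  have h5 := rpow_A hA
  refine ⟨h1, h3, by linarith, ?_, ?_, h4⟩
  · calc 16 * (A / 32) * 100 ^ t ≤ Real.exp (A / 2) * Real.exp (5 * t) := by
          apply mul_le_mul _ (hundred_pow t) (by positivity) (Real.exp_pos _).le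
          have := Real.add_one_le_exp (A / 2)
          linarith
      _ = Real.exp (A / 2 + 5 * t) := by rw [Real.exp_add]
      _ ≤ _ := by apply Real.exp_le_exp.mpr; linarith
  · intro Y hY
    calc Y * 4 ^ t ≤ Real.exp (A / 2) * Real.exp (2 * t) := by
          apply mul_le_mul hY (four_pow t) (by positivity) (Real.exp_pos _).le
      _ = Real.exp (A / 2 + 2 * t) := by rw [Real.exp_add]
      _ < _ := by apply Real.exp_lt_exp.mpr; linarith

theorem chain_step : ∃ K : ℝ, 0 < K ∧ ∃ A1 : ℝ, 2 ^ 16 ≤ A1 ∧ ∀ A : ℝ, A1 ≤ A → ∀ (Y : ℝ) (Φ : ℤ → ℝ), Inv Φ Y → 0 ≤ Y →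
    Y ≤ Real.exp (A / 2) → ∀ X : ℤ, Real.exp (9 * A) ≤ X → ∀ ε : ℝ,
    (∀ a, A ≤ a → a ≤ 4 * A → SS Φ X a (A / 32) ≤ A / 32 * ε) →
    ∀ a, 2 * A ≤ a → a ≤ 4 * (2 * A) → SS Φ X a (2 * A / 32) ≤ 2 * A / 32 * (ε + K * A ^ (-(9 / 20) : ℝ)) := by
  obtain ⟨C, hC, t0, ht0, H⟩ := shift_wins
  refine ⟨32000 * C, by positivity, max (2 ^ 16) (16 * (t0 + 1)), le_max_left _ _, ?_⟩
  intro A hA1 Y Φ hΦ hY hYA X hX ε hε a ha1 ha2
  have hA : 2 ^ 16 ≤ A := le_trans (le_max_left _ _) hA1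
  have hA2 : 16 * ((t0 : ℝ) + 1) ≤ A := le_trans (le_max_right _ _) hA1
  have hA' : (65536 : ℝ) ≤ A := by linarith [show (65536 : ℝ) = 2 ^ 16 by norm_num]
  have hA0 : 0 < A := by linarith
  obtain ⟨t, ht⟩ : ∃ t, t = ⌊A / 16⌋₊ := ⟨_, rfl⟩
  have htt0 : t0 ≤ t := by
    rw [ht]; apply Nat.le_floor; linarith
  obtain ⟨P, hP⟩ : ∃ P : ℝ, P = A ^ (11 / 20 : ℝ) := ⟨_, rfl⟩
  have hP0 : 0 < P := by rw [hP]; exact Real.rpow_pos_of_pos hA0 _
  have hmu := mu_ge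
  have hmu1 := mu_le
  -- windows in the larger range
  have key : ∀ b, 2 * A - A / 32 ≤ b → b ≤ 8 * A + A / 32 → SS Φ X b (A / 32) ≤ A / 32 * ε + 1000 * C * P := by
    intro b hb1 hb2
    obtain ⟨q1, q2, -, -, -, -⟩ := scale_ok hA ht (le_refl A)
    obtain ⟨δ, hδ⟩ : ∃ δ : ℝ, δ = mu * t := ⟨_, rfl⟩
    have hδ1 : 0.14 * (A / 32) ≤ δ := by
      rw [hδ]
      exact mul_le_mul hmu q2 (by positivity) mu_pos.le
    have hδ2 : δ ≤ A / 16 := by
      rw [hδ]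
      calc mu * t ≤ 1 * t := by gcongr
        _ ≤ _ := by linarith
    have hδ0 : 0 < δ := by linarith [show 0 < 0.14 * (A / 32) by positivity]
    obtain ⟨n, hn⟩ : ∃ n, n = ⌈(b - 4 * A) / δ⌉₊ := ⟨_, rfl⟩
    have hn1 : (b - 4 * A) / δ ≤ n := by rw [hn]; exact Nat.le_ceil _
    rw [div_le_iff₀ hδ0] at hn1
    have hb3 : b - n * δ ≤ 4 * A := by linarith
    have hb4 : A ≤ b - n * δ ∧ (n : ℝ) ≤ 1000 := by
      rcases le_total b (4 * A) with h | h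
      · have : n = 0 := by
          rw [hn, Nat.ceil_eq_zero]
          exact div_nonpos_of_nonpos_of_nonneg (by linarith) hδ0.le
        rw [this]
        push_cast
        constructor <;> linarith
      · have h1 : (n : ℝ) < (b - 4 * A) / δ + 1 := by
          rw [hn]; exact Nat.ceil_lt_add_one (div_nonneg (by linarith) hδ0.le)
        have h2 : (n : ℝ) * δ < (b - 4 * A) + δ := by
          have := mul_lt_mul_of_pos_right h1 hδ0
          rwa [add_mul, div_mul_cancel₀ _ hδ0.ne', one_mul] at this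
        refine ⟨by linarith, ?_⟩
        have h3 : (b - 4 * A) / δ ≤ 950 := by
          rw [div_le_iff₀ hδ0]
          linarith
        linarith
    obtain ⟨hb5, hn1000⟩ := hb4
    obtain ⟨p1, p2, p3, p4, p5, p6⟩ := scale_ok hA ht hb5
    have h1 := H t htt0 (b - n * δ) (A / 32) p3 p2 p4 Y Φ hΦ hY (p5 Y hYA) n X (by
      rw [← hδ]
      refine le_trans ?_ hX
      calc 4 ^ t * Real.exp (b - n * δ + n * δ + A / 32) ≤ Real.exp (2 * t) * Real.exp (b - n * δ + n * δ + A / 32) := by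
            gcongr; exact four_pow t
        _ = Real.exp (2 * t + (b - n * δ + n * δ + A / 32)) := (Real.exp_add _ _).symm
        _ ≤ _ := by apply Real.exp_le_exp.mpr; linarith)
    rw [← hδ] at h1
    rw [show b - n * δ + n * δ = b by ring] at h1
    have h2 := hε _ hb5 hb3
    rw [abs_le] at h1
    have h3 : (n : ℝ) * (C * (t : ℝ) ^ (11 / 20 : ℝ)) ≤ 1000 * (C * P) := by
      rw [hP]
      gcongr
    linarith
  have h2 := SS_double Φ X a (show 0 < A / 32 by positivity)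
  rw [show 2 * A / 32 = 2 * (A / 32) by ring, h2]
  have k1 := key (a - A / 32) (by linarith) (by linarith)
  have k2 := key a (by linarith) (by linarith)
  have k3 := key (a + A / 32) (by linarith) (by linarith)
  have e : 2 * (A / 32) * (32000 * C * A ^ (-(9 / 20) : ℝ)) = 2000 * C * P := by
    have : A * A ^ (-(9 / 20) : ℝ) = P := by
      rw [hP]
      nth_rewrite 1 [← Real.rpow_one A]
      rw [← Real.rpow_add hA0]; norm_num
    calc _ = 2000 * C * (A * A ^ (-(9 / 20) : ℝ)) := by ring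
      _ = _ := by rw [this]
  rw [mul_add, e]
  linarith

theorem rpow_half {x : ℝ} (hx : 0 < x) : (2 * x) ^ (-(9 / 20) : ℝ) ≤ 3 / 4 * x ^ (-(9 / 20) : ℝ) := by
  rw [Real.mul_rpow (by norm_num) hx.le]
  apply mul_le_mul_of_nonneg_right _ (Real.rpow_nonneg hx.le _)
  -- 2 ^ (-9/20) ≤ 3/4
  rw [Real.rpow_neg (by norm_num)]
  have h1 : (4 / 3 : ℝ) ≤ 2 ^ (9 / 20 : ℝ) := by
    have h2 : ((4 / 3 : ℝ) ^ (20 : ℕ)) ^ (1 / 20 : ℝ) ≤ ((2 : ℝ) ^ (9 : ℕ)) ^ (1 / 20 : ℝ) := by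
      apply Real.rpow_le_rpow (by positivity) _ (by norm_num)
      norm_num
    rw [← Real.rpow_natCast, ← Real.rpow_natCast, ← Real.rpow_mul (by norm_num), ← Real.rpow_mul (by norm_num)] at h2
    norm_num at h2
    exact h2
  rw [inv_le_comm₀ (by positivity) (by norm_num)]
  norm_num
  exact h1

/-- **Chain** -/
theorem chain : ∃ K : ℝ, 0 < K ∧ ∃ A1 : ℝ, 2 ^ 16 ≤ A1 ∧ ∀ A : ℝ, A1 ≤ A → ∀ (Y : ℝ) (Φ : ℤ → ℝ), Inv Φ Y → 0 ≤ Y →
    Y ≤ Real.exp (A / 2) → ∀ (X : ℤ) (ε : ℝ), (∀ a, A ≤ a → a ≤ 4 * A → SS Φ X a (A / 32) ≤ A / 32 * ε) →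
    ∀ j : ℕ, Real.exp (9 * (2 ^ j * A)) ≤ X →
    ∀ a, 2 ^ j * A ≤ a → a ≤ 4 * (2 ^ j * A) → SS Φ X a (2 ^ j * A / 32) ≤ 2 ^ j * A / 32 * (ε + K * A ^ (-(9 / 20) : ℝ)) := by
  obtain ⟨K, hK, A1, hA1, H⟩ := chain_step
  refine ⟨4 * K, by positivity, A1, hA1, ?_⟩
  intro A hA Y Φ hΦ hY hYA X ε hε
  have hA0 : 0 < A := by linarith [show (0 : ℝ) < 2 ^ 16 by norm_num]
  have key : ∀ j : ℕ, Real.exp (9 * (2 ^ j * A)) ≤ X →
      ∀ a, 2 ^ j * A ≤ a → a ≤ 4 * (2 ^ j * A) → SS Φ X a (2 ^ j * A / 32) ≤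
        2 ^ j * A / 32 * (ε + 4 * K * (A ^ (-(9 / 20) : ℝ) - (2 ^ j * A) ^ (-(9 / 20) : ℝ))) := by
    intro j
    induction j with
    | zero =>
      intro _ a h1 h2
      simp only [pow_zero, one_mul] at h1 h2 ⊢
      rw [sub_self, mul_zero, add_zero]
      exact hε a h1 h2
    | succ j ih =>
      intro hX a h1 h2
      have hle : A ≤ 2 ^ j * A := by
        have : (1 : ℝ) ≤ 2 ^ j := one_le_pow₀ (by norm_num)
        nlinarith
      have hX' : Real.exp (9 * (2 ^ j * A)) ≤ X := by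
        refine le_trans (Real.exp_le_exp.mpr ?_) hX
        rw [pow_succ]
        nlinarith
      have e1 : (2 : ℝ) ^ (j + 1) * A = 2 * (2 ^ j * A) := by rw [pow_succ]; ring
      rw [e1] at h1 h2 ⊢
      have h3 := H (2 ^ j * A) (le_trans hA hle) Y Φ hΦ hY (le_trans hYA (Real.exp_le_exp.mpr (by linarith))) X hX' _ (ih hX') a h1 h2
      refine le_trans h3 ?_
      apply mul_le_mul_of_nonneg_left _ (by positivity)
      have h4 := rpow_half (show 0 < 2 ^ j * A by positivity)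
      nlinarith
  intro j hX a h1 h2
  refine le_trans (key j hX a h1 h2) ?_
  apply mul_le_mul_of_nonneg_left _ (by positivity)
  have : 0 ≤ (2 ^ j * A) ^ (-(9 / 20) : ℝ) := Real.rpow_nonneg (by positivity) _
  nlinarith

end Pool.Agent.Helper3.TD
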