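import Pool.Agent.Helper3.ND.Stage

/-! Change of variables `N ↦ (T^t N, N mod 2^t)`. -/

namespace Pool.Agent.Helper3.TD

open Pool.Agent.Helper3.ND

/-- the preimage of `M` in the class of `r` -/
def nn (t : ℕ) (r : ℕ) (M : ℤ) : ℤ := r + 2 ^ t * ((M - T^[t] (r : ℤ)) / 3 ^ od t (r : ℤ))

theorem nn_od (t r : ℕ) (M : ℤ) : od t (nn t r M) = od t (r : ℤ) := (shift t _ _).1

theorem nn_T (t r : ℕ) (M : ℤ) (h : (3 : ℤ) ^ od t (r : ℤ) ∣ M - T^[t] (r : ℤ)) : T^[t] (nn t r M) = M := by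
  unfold nn
  rw [(shift t _ _).2, Int.mul_ediv_cancel' h]
  ring

theorem nn_mod (t r : ℕ) (hr : r < 2 ^ t) (M : ℤ) : nn t r M % 2 ^ t = r := by
  unfold nn
  rw [Int.add_mul_emod_self_left]
  exact Int.emod_eq_of_lt (by positivity) (by exact_mod_cast hr)

theorem nn_self (t : ℕ) (N : ℤ) : (3 : ℤ) ^ od t (((N % 2 ^ t).toNat : ℕ) : ℤ) ∣ T^[t] N - T^[t] (((N % 2 ^ t).toNat : ℕ) : ℤ) ∧
    nn t (N % 2 ^ t).toNat (T^[t] N) = N := by
  have hp : (0 : ℤ) < 2 ^ t := by positivity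
  have h1 : (((N % 2 ^ t).toNat : ℕ) : ℤ) = N % 2 ^ t := Int.toNat_of_nonneg (Int.emod_nonneg _ hp.ne')
  rw [h1]
  have h2 := shift t (N % 2 ^ t) (N / 2 ^ t)
  rw [Int.emod_add_mul_ediv] at h2
  have h3 : T^[t] N - T^[t] (N % 2 ^ t) = 3 ^ od t (N % 2 ^ t) * (N / 2 ^ t) := by rw [h2.2]; ring
  refine ⟨⟨_, h3⟩, ?_⟩
  unfold nn
  rw [h1, h3, Int.mul_ediv_cancel_left _ (by positivity)]
  exact Int.emod_add_mul_ediv N (2 ^ t)

theorem abs_T_le (n : ℤ) : |T n| ≤ 2 * |n| := by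
  rcases par_cases n with h | h
  · have h1 : |n| = 2 * |T n| := by
      have h6 : |2 * T n| = 2 * |T n| := by rw [abs_mul, abs_two]
      rwa [T_even h] at h6
    linarith [abs_nonneg (T n)]
  · have h6 := T_odd h
    have h7 : |2 * T n| = 2 * |T n| := by rw [abs_mul, abs_two]
    have h8 : |3 * n + 1| ≤ 3 * |n| + 1 := by
      have := abs_add_le (3 * n) 1
      rwa [abs_mul, show |(3 : ℤ)| = 3 by norm_num, show |(1 : ℤ)| = 1 by norm_num] at this
    have h9 : 1 ≤ |n| := Int.one_le_abs (by rintro rfl; simp at h)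
    rw [← h6] at h8
    linarith

theorem abs_T_iter_le (t : ℕ) (n : ℤ) : |T^[t] n| ≤ 2 ^ t * |n| := by
  induction t with
  | zero => simp
  | succ t ih =>
    rw [Function.iterate_succ_apply', pow_succ]
    have := abs_T_le (T^[t] n)
    linarith

theorem abs_T_iter_ge (t : ℕ) (n : ℤ) : |n| ≤ 2 ^ t * |T^[t] n| := by
  induction t with
  | zero => simp
  | succ t ih =>
    rw [Function.iterate_succ_apply', pow_succ]
    have := T_ge (n := T^[t] n)
    have h2 : (0 : ℤ) < 2 ^ t := by positivity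
    nlinarith

/-- **Change of variables** -/
theorem change (t : ℕ) (X : ℤ) (g ω : ℤ → ℝ) (P : ℕ → Prop) [DecidablePred P] (hω : ∀ N, ω N ≠ 0 → 2 ^ t * |N| ≤ X) :
    ∑ N ∈ Finset.Icc (-X) X, (if P (od t N) then g (T^[t] N) * ω N else 0) =
      ∑ M ∈ Finset.Icc (-X) X, ∑ r ∈ Finset.range (2 ^ t),
        if P (od t (r : ℤ)) ∧ (3 : ℤ) ^ od t (r : ℤ) ∣ M - T^[t] (r : ℤ) then g M * ω (nn t r M) else 0 := by
  classical
  have hp : (0 : ℤ) < 2 ^ t := by positivity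
  rw [← Finset.sum_product']
  -- left side restricted
  have hL : ∑ N ∈ Finset.Icc (-X) X, (if P (od t N) then g (T^[t] N) * ω N else 0) =
      ∑ N ∈ (Finset.Icc (-X) X).filter (fun N => |T^[t] N| ≤ X ∧ P (od t N)), g (T^[t] N) * ω N := by
    rw [Finset.sum_filter]
    apply Finset.sum_congr rfl
    intro N _
    by_cases h1 : P (od t N)
    · by_cases h2 : |T^[t] N| ≤ X
      · rw [if_pos h1, if_pos ⟨h2, h1⟩]
      · rw [if_pos h1, if_neg (fun h => h2 h.1)]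
        have : ω N = 0 := by
          by_contra hne
          exact h2 (le_trans (abs_T_iter_le t N) (hω N hne))
        rw [this, mul_zero]
    · rw [if_neg h1, if_neg (fun h => h1 h.2)]
  have hR : ∑ x ∈ Finset.Icc (-X) X ×ˢ Finset.range (2 ^ t),
      (if P (od t (x.2 : ℤ)) ∧ (3 : ℤ) ^ od t (x.2 : ℤ) ∣ x.1 - T^[t] (x.2 : ℤ) then g x.1 * ω (nn t x.2 x.1) else 0) =
      ∑ x ∈ (Finset.Icc (-X) X ×ˢ Finset.range (2 ^ t)).filter (fun x => (P (od t (x.2 : ℤ)) ∧ (3 : ℤ) ^ od t (x.2 : ℤ) ∣ x.1 - T^[t] (x.2 : ℤ)) ∧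
        |nn t x.2 x.1| ≤ X), g x.1 * ω (nn t x.2 x.1) := by
    rw [Finset.sum_filter]
    apply Finset.sum_congr rfl
    intro x _
    by_cases h1 : P (od t (x.2 : ℤ)) ∧ (3 : ℤ) ^ od t (x.2 : ℤ) ∣ x.1 - T^[t] (x.2 : ℤ)
    · by_cases h2 : |nn t x.2 x.1| ≤ X
      · rw [if_pos h1, if_pos ⟨h1, h2⟩]
      · rw [if_pos h1, if_neg (fun h => h2 h.2)]
        have : ω (nn t x.2 x.1) = 0 := by
          by_contra hne
          apply h2
          have h3 := hω _ hne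
          have h4 : (1 : ℤ) ≤ 2 ^ t := one_le_pow₀ (by norm_num)
          nlinarith [abs_nonneg (nn t x.2 x.1)]
        rw [this, mul_zero]
    · rw [if_neg h1, if_neg (fun h => h1 h.1)]
  rw [hL, hR]
  apply Finset.sum_nbij' (fun N => (T^[t] N, (N % 2 ^ t).toNat)) (fun x => nn t x.2 x.1)
  · intro N hN
    rw [Finset.mem_filter, Finset.mem_Icc] at hN
    obtain ⟨hN1, hN2, hN3⟩ := hN
    have h1 : (((N % 2 ^ t).toNat : ℕ) : ℤ) = N % 2 ^ t := Int.toNat_of_nonneg (Int.emod_nonneg _ hp.ne')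
    obtain ⟨h2, h3⟩ := nn_self t N
    rw [Finset.mem_filter, Finset.mem_product, Finset.mem_Icc, Finset.mem_range]
    refine ⟨⟨abs_le.mp hN2, ?_⟩, ⟨?_, h2⟩, ?_⟩
    · have := Int.emod_lt_of_pos N hp
      rw [← h1] at this
      exact_mod_cast this
    · simp only
      rw [h1, od_emod]; exact hN3
    · simp only
      rw [h3, abs_le]; exact hN1
  · intro x hx
    rw [Finset.mem_filter, Finset.mem_product, Finset.mem_Icc, Finset.mem_range] at hx
    obtain ⟨⟨hx1, hx2⟩, ⟨hx3, hx4⟩, hx5⟩ := hx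
    rw [Finset.mem_filter, Finset.mem_Icc]
    refine ⟨abs_le.mp hx5, ?_, ?_⟩
    · rw [nn_T t x.2 x.1 hx4]; exact abs_le.mpr hx1
    · rw [nn_od]; exact hx3
  · intro N _
    exact (nn_self t N).2
  · intro x hx
    rw [Finset.mem_filter, Finset.mem_product, Finset.mem_Icc, Finset.mem_range] at hx
    obtain ⟨⟨hx1, hx2⟩, ⟨hx3, hx4⟩, hx5⟩ := hx
    rw [nn_T t x.2 x.1 hx4, nn_mod t x.2 hx2]
    simp
  · intro N _
    rw [(nn_self t N).2]

end Pool.Agent.Helper3.TD
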