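import Pool.Agent.Helper3.TD.Cls
import Pool.Agent.Helper3.TD.Syr

/-! Countable additivity of the natural density on invariant sets. -/

namespace Pool.Agent.Helper3.TD

open Pool.Agent.Helper3.ND Filter Topology

theorem SInv.iter {S : Set ℤ} (hS : SInv S) {N : ℤ} (h0 : N < 0) (ho : Odd N) (hN : N ∈ S) (k : ℕ) :
    syr^[k] N < 0 ∧ Odd (syr^[k] N) ∧ syr^[k] N ∈ S := by
  induction k with
  | zero => exact ⟨h0, ho, hN⟩
  | succ k ih =>
    obtain ⟨h1, h2, h3⟩ := ih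
    rw [Function.iterate_succ_apply']
    obtain ⟨_, _, h4⟩ := syr_spec h2
    exact ⟨syr_neg h1 h2, h4, (hS _ h1 h2).mp h3⟩

theorem SInv.iUnion {ι : Sort*} {S : ι → Set ℤ} (hS : ∀ i, SInv (S i)) : SInv (⋃ i, S i) := by
  intro N h0 ho
  rw [Set.mem_iUnion, Set.mem_iUnion]
  exact exists_congr (fun i => hS i N h0 ho)

theorem cS_add {A B : Set ℤ} (h : Disjoint A B) (x : ℝ) : cS (A ∪ B) x = cS A x + cS B x := by
  unfold cS
  rw [← Set.ncard_union_eq _ (cS_fin A x) (cS_fin B x)]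
  · congr 1
    ext N
    simp only [Set.mem_ofPred_eq, Set.mem_union]
    constructor
    · rintro ⟨h1 | h1, h2⟩
      · exact Or.inl ⟨h1, h2⟩
      · exact Or.inr ⟨h1, h2⟩
    · rintro (⟨h1, h2⟩ | ⟨h1, h2⟩)
      · exact ⟨Or.inl h1, h2⟩
      · exact ⟨Or.inr h1, h2⟩
  · rw [Set.disjoint_left] at h ⊢
    rintro N ⟨h1, _⟩ ⟨h2, _⟩
    exact h h1 h2

/-- sets avoiding a long initial interval have small density -/
theorem tail_small {ε : ℝ} (hε : 0 < ε) : ∃ M : ℕ, ∀ S : Set ℤ, SInv S → (∀ N ∈ S, N < 0 → Odd N → N < -(M : ℤ)) →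
    ∀ x : ℝ, 0 < x → ((cS S x : ℕ) : ℝ) ≤ ε * x := by
  obtain ⟨C, hC, H⟩ := dens_syr
  have h1 : Tendsto (fun Y : ℝ => C * Real.log Y ^ (-(2 / 5) : ℝ)) atTop (𝓝 (C * 0)) := by
    apply Tendsto.const_mul
    exact (tendsto_rpow_neg_atTop (show (0 : ℝ) < 2 / 5 by norm_num)).comp Real.tendsto_log_atTop
  rw [mul_zero] at h1
  obtain ⟨Y, hY1, hY2⟩ := ((h1.eventually (gt_mem_nhds hε)).and (eventually_ge_atTop (2 : ℝ))).exists
  refine ⟨⌈Y⌉₊, ?_⟩
  intro S hS hM x hx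
  have h2 := H Y hY2 x hx {N : ℤ | N ∈ S ∧ N < 0 ∧ Odd N ∧ -x ≤ (N : ℝ)} (by
    rintro N ⟨a1, a2, a3, a4⟩
    have hneg : (N : ℝ) < 0 := by exact_mod_cast a2
    refine ⟨a3, by rw [abs_of_neg hneg]; linarith, ?_⟩
    intro k
    obtain ⟨b1, b2, b3⟩ := hS.iter a2 a3 a1 k
    have h3 := hM _ b3 b1 b2
    have h4 : ((syr^[k] N : ℤ) : ℝ) < -((⌈Y⌉₊ : ℤ) : ℝ) := by exact_mod_cast h3
    have h5 := Nat.le_ceil Y
    have h6 : ((⌈Y⌉₊ : ℤ) : ℝ) = ((⌈Y⌉₊ : ℕ) : ℝ) := by push_cast; rfl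
    rw [h6] at h4
    have hneg2 : ((syr^[k] N : ℤ) : ℝ) < 0 := by exact_mod_cast b1
    rw [abs_of_neg hneg2]
    linarith)
  calc ((cS S x : ℕ) : ℝ) ≤ C * x * Real.log Y ^ (-(2 / 5) : ℝ) := h2
    _ = (C * Real.log Y ^ (-(2 / 5) : ℝ)) * x := by ring
    _ ≤ ε * x := mul_le_mul_of_nonneg_right hY1.le hx.le

/-- **countable additivity** -/
theorem count_add (S : ℕ → Set ℤ) (hS : ∀ i, SInv (S i)) (hdis : ∀ i j, i ≠ j → Disjoint (S i) (S j)) :
    ∃ d : ℕ → ℝ, (∀ i, 0 ≤ d i) ∧ (∀ i, Tendsto (fun x : ℝ => ((cS (S i) x : ℕ) : ℝ) / x) atTop (𝓝 (d i))) ∧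
      Summable d ∧ Tendsto (fun x : ℝ => ((cS (⋃ i, S i) x : ℕ) : ℝ) / x) atTop (𝓝 (∑' i, d i)) := by
  choose d hd using fun i => dens_exists (hS i)
  obtain ⟨D, hD⟩ := dens_exists (SInv.iUnion hS)
  have hd0 : ∀ i, 0 ≤ d i := by
    intro i
    refine ge_of_tendsto (hd i) ?_
    filter_upwards [eventually_ge_atTop 0] with x hx
    positivity
  -- initial and final unions
  obtain ⟨P, hP⟩ : ∃ P : ℕ → Set ℤ, P = fun n => ⋃ i, ⋃ (_ : i < n), S i := ⟨_, rfl⟩
  obtain ⟨R, hR⟩ : ∃ R : ℕ → Set ℤ, R = fun n => ⋃ i, ⋃ (_ : n ≤ i), S i := ⟨_, rfl⟩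
  have hPinv : ∀ n, SInv (P n) := by
    intro n; rw [hP]; exact SInv.iUnion (fun i => SInv.iUnion (fun _ => hS i))
  have hRinv : ∀ n, SInv (R n) := by
    intro n; rw [hR]; exact SInv.iUnion (fun i => SInv.iUnion (fun _ => hS i))
  have hmemP : ∀ n N, N ∈ P n ↔ ∃ i, i < n ∧ N ∈ S i := by
    intro n N; rw [hP]; simp
  have hmemR : ∀ n N, N ∈ R n ↔ ∃ i, n ≤ i ∧ N ∈ S i := by
    intro n N; rw [hR]; simp
  have hPsucc : ∀ n, P (n + 1) = P n ∪ S n := by
    intro n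
    ext N
    rw [Set.mem_union, hmemP, hmemP]
    constructor
    · rintro ⟨i, h1, h2⟩
      rcases Nat.lt_or_ge i n with h3 | h3
      · exact Or.inl ⟨i, h3, h2⟩
      · have : i = n := by omega
        rw [this] at h2
        exact Or.inr h2
    · rintro (⟨i, h1, h2⟩ | h2)
      · exact ⟨i, by omega, h2⟩
      · exact ⟨n, by omega, h2⟩
  have hPS : ∀ n, Disjoint (P n) (S n) := by
    intro n
    rw [Set.disjoint_left]
    intro N h1 h2
    rw [hmemP] at h1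
    obtain ⟨i, h3, h4⟩ := h1
    exact Set.disjoint_left.mp (hdis i n (by omega)) h4 h2
  have hPR : ∀ n, Disjoint (P n) (R n) := by
    intro n
    rw [Set.disjoint_left]
    intro N h1 h2
    rw [hmemP] at h1
    rw [hmemR] at h2
    obtain ⟨i, h3, h4⟩ := h1
    obtain ⟨j, h5, h6⟩ := h2
    exact Set.disjoint_left.mp (hdis i j (by omega)) h4 h6
  have hU : ∀ n, (⋃ i, S i) = P n ∪ R n := by
    intro n
    ext N
    rw [Set.mem_iUnion, Set.mem_union, hmemP, hmemR]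
    constructor
    · rintro ⟨i, h1⟩
      rcases Nat.lt_or_ge i n with h3 | h3
      · exact Or.inl ⟨i, h3, h1⟩
      · exact Or.inr ⟨i, h3, h1⟩
    · rintro (⟨i, _, h2⟩ | ⟨i, _, h2⟩)
      · exact ⟨i, h2⟩
      · exact ⟨i, h2⟩
  have hPd : ∀ n, Tendsto (fun x : ℝ => ((cS (P n) x : ℕ) : ℝ) / x) atTop (𝓝 (∑ i ∈ Finset.range n, d i)) := by
    intro n
    induction n with
    | zero =>
      have h0 : P 0 = ∅ := by
        ext N; rw [hmemP]; simp
      have h1 : ∀ x : ℝ, ((cS (P 0) x : ℕ) : ℝ) / x = 0 := by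
        intro x
        rw [h0]
        unfold cS
        simp
      simp only [h1, Finset.range_zero, Finset.sum_empty]
      exact tendsto_const_nhds
    | succ n ih =>
      rw [Finset.sum_range_succ]
      refine (ih.add (hd n)).congr (fun x => ?_)
      rw [hPsucc, cS_add (hPS n)]
      push_cast
      ring
  have hRd : ∀ n, Tendsto (fun x : ℝ => ((cS (R n) x : ℕ) : ℝ) / x) atTop (𝓝 (D - ∑ i ∈ Finset.range n, d i)) := by
    intro n
    refine (hD.sub (hPd n)).congr (fun x => ?_)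
    rw [hU n, cS_add (hPR n)]
    push_cast
    ring
  -- the tail tends to zero
  have htail : Tendsto (fun n => D - ∑ i ∈ Finset.range n, d i) atTop (𝓝 0) := by
    rw [Metric.tendsto_atTop]
    intro ε hε
    obtain ⟨M, hM⟩ := tail_small (show 0 < ε / 2 by positivity)
    -- indices of the sets meeting the interval
    have hidx : ∀ m : ℕ, ∃ n : ℕ, ∀ i, -(m : ℤ) ∈ S i → i < n := by
      intro m
      by_cases h : ∃ i, -(m : ℤ) ∈ S i
      · obtain ⟨i, hi⟩ := h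
        refine ⟨i + 1, fun j hj => ?_⟩
        by_contra hc
        exact Set.disjoint_left.mp (hdis i j (by omega)) hi hj
      · exact ⟨0, fun i hi => absurd ⟨i, hi⟩ h⟩
    choose g hg using hidx
    refine ⟨∑ m ∈ Finset.range (M + 1), g m, ?_⟩
    intro n hn
    have havoid : ∀ N ∈ R n, N < 0 → Odd N → N < -(M : ℤ) := by
      intro N hN h0 _
      by_contra hc
      rw [hmemR] at hN
      obtain ⟨i, hi1, hi2⟩ := hN
      obtain ⟨m, hm⟩ := Int.eq_ofNat_of_zero_le (show 0 ≤ -N by omega)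
      have hm2 : N = -(m : ℤ) := by omega
      rw [hm2] at hi2
      have h1 := hg m i hi2
      have h2 := Finset.single_le_sum (f := g) (fun j _ => Nat.zero_le _) (show m ∈ Finset.range (M + 1) by
        rw [Finset.mem_range]; omega)
      omega
    have h1 := hM (R n) (hRinv n) havoid
    have h2 : D - ∑ i ∈ Finset.range n, d i ≤ ε / 2 := by
      refine le_of_tendsto (hRd n) ?_
      filter_upwards [eventually_gt_atTop 0] with x hx
      rw [div_le_iff₀ hx]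
      exact h1 x hx
    have h3 : 0 ≤ D - ∑ i ∈ Finset.range n, d i := by
      refine ge_of_tendsto (hRd n) ?_
      filter_upwards [eventually_ge_atTop 0] with x hx
      positivity
    rw [Real.dist_eq, sub_zero, abs_of_nonneg h3]
    linarith
  have hsum : HasSum d D := by
    rw [hasSum_iff_tendsto_nat_of_nonneg hd0]
    have := htail.const_sub D
    simpa using this
  refine ⟨d, hd0, hd, hsum.summable, ?_⟩
  rw [hsum.tsum_eq]
  exact hD

end Pool.Agent.Helper3.TD
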