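import Pool.Agent.Helper3.TD.Uniform

/-! Decay of the weighted walk. -/

namespace Pool.Agent.Helper3.TD

/-- weighted walk -/
noncomputable def V (g : ℕ → ℕ → ℝ) : ℕ → ℕ → ℕ → ℝ
  | 0, _, _ => 1
  | R + 1, j, h => (V g R (j + 1) h + 2 * g j h * V g R (j + 1) (h + 1) + V g R (j + 1) (h + 2)) / 4

variable {g : ℕ → ℕ → ℝ}

theorem V_zero (j h : ℕ) : V g 0 j h = 1 := rfl

theorem V_succ (R j h : ℕ) : V g (R + 1) j h =
    (V g R (j + 1) h + 2 * g j h * V g R (j + 1) (h + 1) + V g R (j + 1) (h + 2)) / 4 := rfl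

theorem V_nonneg (hg0 : ∀ j h, 0 ≤ g j h) (R : ℕ) : ∀ j h, 0 ≤ V g R j h := by
  induction R with
  | zero => intro j h; rw [V_zero]; norm_num
  | succ R ih =>
    intro j h
    rw [V_succ]
    have := mul_nonneg (hg0 j h) (ih (j + 1) (h + 1))
    linarith [ih (j + 1) h, ih (j + 1) (h + 2)]

theorem V_le_one (hg0 : ∀ j h, 0 ≤ g j h) (hg1 : ∀ j h, g j h ≤ 1) (R : ℕ) : ∀ j h, V g R j h ≤ 1 := by
  induction R with
  | zero => intro j h; rw [V_zero]
  | succ R ih =>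
    intro j h
    rw [V_succ]
    have := mul_le_mul (hg1 j h) (ih (j + 1) (h + 1)) (V_nonneg hg0 _ _ _) zero_le_one
    linarith [ih (j + 1) h, ih (j + 1) (h + 2)]

theorem V_le_U {q : ℤ} {p : ℕ → ℕ → ℤ} (hg0 : ∀ j h, 0 ≤ g j h) (hg1 : ∀ j h, g j h ≤ 1) {θ : ℝ} (hθ0 : 0 ≤ θ)
    (hθ1 : θ ≤ 1) (hgw : ∀ j h, ¬ bl q p j h → (1 + g j h) / 2 ≤ θ) (R : ℕ) :
    ∀ K j h, V g R j h ≤ U q p R K j h + θ ^ K := by
  induction R with
  | zero =>
    intro K j h
    rw [V_zero]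
    cases K with
    | zero => rw [U_K_zero]; simp
    | succ K => rw [U_zero_succ]; linarith [pow_nonneg hθ0 (K + 1)]
  | succ R ih =>
    intro K j h
    cases K with
    | zero => rw [U_K_zero]; simpa using V_le_one hg0 hg1 _ _ _
    | succ K =>
      rw [V_succ]
      by_cases hb : bl q p j h
      · rw [U_black hb]
        unfold av
        have a0 := ih (K + 1) (j + 1) h
        have a1 := ih (K + 1) (j + 1) (h + 1)
        have a2 := ih (K + 1) (j + 1) (h + 2)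
        have a3 : g j h * V g R (j + 1) (h + 1) ≤ V g R (j + 1) (h + 1) := by
          have := mul_le_mul_of_nonneg_right (hg1 j h) (V_nonneg hg0 R (j + 1) (h + 1))
          linarith
        linarith
      · rw [U_white hb]
        unfold av
        have a0 := ih K (j + 1) h
        have a1 := ih K (j + 1) (h + 1)
        have a2 := ih K (j + 1) (h + 2)
        have hu := U_nonneg (q := q) (p := p) R K (j + 1) (h + 1)
        have a3 : g j h * V g R (j + 1) (h + 1) ≤ U q p R K (j + 1) (h + 1) + g j h * θ ^ K := by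
          have b1 := mul_le_mul_of_nonneg_left a1 (hg0 j h)
          have b2 := mul_le_mul_of_nonneg_right (hg1 j h) hu
          linarith
        have a4 : (1 + g j h) / 2 * θ ^ K ≤ θ * θ ^ K := mul_le_mul_of_nonneg_right (hgw j h hb) (pow_nonneg hθ0 K)
        rw [pow_succ]
        linarith

theorem V_stage (hg0 : ∀ j h, 0 ≤ g j h) (hg1 : ∀ j h, g j h ≤ 1) (B : ℕ → Prop) {s : ℝ} (hs : 0 ≤ s) (R' : ℕ) (Ra : ℕ) :
    ∀ j h, (∀ h', ¬ B h' → V g R' (j + Ra) h' ≤ s) → V g (Ra + R') j h ≤ s * V g Ra j h + W Ra (ind B) h := by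
  induction Ra with
  | zero =>
    intro j h H
    rw [zero_add, V_zero, W_zero, mul_one]
    by_cases hB : B h
    · have : ind B h = 1 := by unfold ind; rw [if_pos hB]
      rw [this]
      linarith [V_le_one hg0 hg1 R' j h]
    · have := H h hB
      rw [add_zero] at this
      linarith [ind_nonneg B h]
  | succ Ra ih =>
    intro j h H
    have e : Ra + 1 + R' = (Ra + R') + 1 := by ring
    have e2 : j + (Ra + 1) = j + 1 + Ra := by ring
    rw [e2] at H
    rw [e, V_succ, V_succ, W_succ]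
    have a0 := ih (j + 1) h H
    have a1 := ih (j + 1) (h + 1) H
    have a2 := ih (j + 1) (h + 2) H
    have hw := W_nonneg Ra (ind_nonneg B) (h + 1)
    have a3 : g j h * V g (Ra + R') (j + 1) (h + 1) ≤ s * (g j h * V g Ra (j + 1) (h + 1)) + W Ra (ind B) (h + 1) := by
      have b1 := mul_le_mul_of_nonneg_left a1 (hg0 j h)
      have b2 := mul_le_mul_of_nonneg_right (hg1 j h) hw
      nlinarith
    linarith

/-- data for the decay theorem -/
structure Good (n : ℕ) (p : ℕ → ℕ → ℤ) (g : ℕ → ℕ → ℝ) (θ : ℝ) : Prop where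
  arr : Arr (3 ^ n) p
  size : ∀ j h, h < n → 3 ^ h ≤ |p j h|
  g0 : ∀ j h, 0 ≤ g j h
  g1 : ∀ j h, g j h ≤ 1
  gw : ∀ j h, ¬ bl (3 ^ n) p j h → (1 + g j h) / 2 ≤ θ

theorem small_V (θ : ℝ) (hθ0 : 0 ≤ θ) (hθ1 : θ < 1) (κ : ℝ) (hκ : 0 < κ) : ∃ M0, ∀ (n : ℕ) (p : ℕ → ℕ → ℤ)
    (g : ℕ → ℕ → ℝ), Good n p g θ → ∀ j h M R, h + M = n → M0 ≤ M → 17 * M ≤ 20 * R → V g R j h ≤ κ := by
  obtain ⟨K, hK⟩ := exists_pow_lt_of_lt_one (show 0 < κ / 2 by linarith) hθ1
  obtain ⟨M0, hM0⟩ := uniform K (κ / 2) (by linarith)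
  refine ⟨M0, ?_⟩
  intro n p g G j h M R h1 h2 h3
  have a1 := V_le_U (q := 3 ^ n) (p := p) G.g0 G.g1 hθ0 hθ1.le G.gw R K j h
  have a2 := hM0 n p G.arr G.size j h M R h1 h2 h3
  linarith

theorem iterate_V (θ : ℝ) (hθ0 : 0 ≤ θ) (hθ1 : θ < 1) (κ : ℝ) (hκ : 0 < κ) (hκ1 : κ ≤ 1) : ∃ M0 : ℕ, ∀ (n : ℕ) (p : ℕ → ℕ → ℤ)
    (g : ℕ → ℕ → ℝ), Good n p g θ → ∀ k j h M R x y, h + M = n → 10 ^ k * (10 * (y + k * x) + M0) ≤ M → M ≤ R + y →
      V g R j h ≤ κ ^ k + 2 * k * Real.exp (-((x : ℝ) ^ 2 / M)) := by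
  obtain ⟨M1, hM1⟩ := small_V θ hθ0 hθ1 κ hκ
  refine ⟨max M1 24, ?_⟩
  intro n p g G k
  induction k with
  | zero =>
    intro j h M R x y _ _ _
    simpa using V_le_one G.g0 G.g1 R j h
  | succ k ih =>
    intro j h M R x y hM hk hR
    obtain ⟨m0, hm0⟩ : ∃ m0, m0 = max M1 24 := ⟨_, rfl⟩
    rw [← hm0] at ih hk
    have hm24 : 24 ≤ m0 := by rw [hm0]; exact le_max_right _ _
    have hmM1 : M1 ≤ m0 := by rw [hm0]; exact le_max_left _ _
    obtain ⟨Q, hQ⟩ : ∃ Q, Q = 10 ^ k * (10 * (y + (k + 1) * x) + m0) := ⟨_, rfl⟩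
    have hk' : 10 * Q ≤ M := by
      rw [hQ]
      calc 10 * (10 ^ k * (10 * (y + (k + 1) * x) + m0)) = 10 ^ (k + 1) * (10 * (y + (k + 1) * x) + m0) := by
            rw [pow_succ]; ring
        _ ≤ M := hk
    have hpk : 1 ≤ 10 ^ k := Nat.one_le_pow _ _ (by norm_num)
    have hQ1 : 10 * (y + (k + 1) * x) + m0 ≤ Q := by rw [hQ]; exact Nat.le_mul_of_pos_left _ (by omega)
    have hkx : x ≤ (k + 1) * x := Nat.le_mul_of_pos_left _ (by omega)
    obtain ⟨Ra, hRa⟩ : ∃ Ra, Ra = (17 * M + 19) / 20 := ⟨_, rfl⟩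
    have hRa1 : 17 * M ≤ 20 * Ra := by omega
    have hRa2 : 20 * Ra ≤ 17 * M + 19 := by omega
    have hx100 : 100 * x ≤ M := by
      have : 10 * (y + (k + 1) * x) ≤ Q := by omega
      nlinarith
    have hy100 : 100 * y ≤ M := by
      have : 10 * (y + (k + 1) * x) ≤ Q := by omega
      nlinarith
    have hMbig : 240 ≤ M := by omega
    obtain ⟨R', hR'⟩ : ∃ R', R = Ra + R' := ⟨R - Ra, by omega⟩
    have hRaM : Ra ≤ M := by omega
    obtain ⟨e, he⟩ : ∃ e, e = Real.exp (-((x : ℝ) ^ 2 / M)) := ⟨_, rfl⟩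
    have he0 : 0 < e := by rw [he]; exact Real.exp_pos _
    have hM' : (0 : ℝ) < M := by have : 0 < M := by omega
                                 exact_mod_cast this
    rw [← he]
    let B : ℕ → Prop := fun h' => ¬ ((h : ℝ) + Ra - x < h' ∧ (h' : ℝ) < h + Ra + x)
    have hV1 : V g Ra j h ≤ κ := hM1 n p g G j h M Ra hM (by omega) hRa1
    have hst := V_stage G.g0 G.g1 B (s := κ ^ k + 2 * k * e) (by positivity) R' Ra j h ?_
    · have htail : W Ra (ind B) h ≤ 2 * e := by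
        have h1 := tail Ra (by omega) x (by positivity) h (ind B) (fun h' => by
          unfold ind
          by_cases hc : (h : ℝ) + Ra - x < h' ∧ (h' : ℝ) < h + Ra + x
          · rw [if_neg (by simpa [B] using hc), if_pos hc]
          · rw [if_pos (by simpa [B] using hc), if_neg hc])
        refine le_trans h1 ?_
        rw [he]
        have hRapos : (0 : ℝ) < Ra := by have : 0 < Ra := by omega
                                         exact_mod_cast this
        have hRaM' : (Ra : ℝ) ≤ M := by exact_mod_cast hRaM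
        have : (x : ℝ) ^ 2 / M ≤ (x : ℝ) ^ 2 / Ra := div_le_div_of_nonneg_left (by positivity) hRapos hRaM'
        have := Real.exp_le_exp.mpr (neg_le_neg this)
        linarith
      rw [hR']
      refine le_trans hst ?_
      have hs0 : 0 ≤ κ ^ k + 2 * k * e := by positivity
      have h2 : (κ ^ k + 2 * k * e) * V g Ra j h ≤ (κ ^ k + 2 * k * e) * κ := mul_le_mul_of_nonneg_left hV1 hs0
      have h3 : 2 * k * e * κ ≤ 2 * k * e := by
        have : 0 ≤ 2 * k * e := by positivity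
        nlinarith
      rw [pow_succ]
      push_cast
      linarith
    · intro h' hB
      have hB' : (h : ℝ) + Ra - x < h' ∧ (h' : ℝ) < h + Ra + x := by
        simpa [B] using hB
      obtain ⟨b1, b2⟩ := hB'
      have b1' : h + Ra < h' + x := by
        have : (h : ℝ) + Ra < h' + x := by linarith
        exact_mod_cast this
      have b2' : h' < h + Ra + x := by exact_mod_cast b2
      obtain ⟨M', hM2⟩ : ∃ M', h' + M' = n := ⟨n - h', by omega⟩
      have hMM : M' ≤ M := by omega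
      have hM10 : M ≤ 10 * M' := by omega
      have h1 := ih (j + Ra) h' M' R' x (y + x) hM2 (by
        have e1 : y + x + k * x = y + (k + 1) * x := by ring
        rw [e1, ← hQ]
        omega) (by omega)
      refine le_trans h1 ?_
      have hM'pos : (0 : ℝ) < M' := by have : 0 < M' := by omega
                                       exact_mod_cast this
      have h2 : Real.exp (-((x : ℝ) ^ 2 / M')) ≤ e := by
        rw [he]
        apply Real.exp_le_exp.mpr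
        apply neg_le_neg
        apply div_le_div_of_nonneg_left (by positivity) hM'pos
        exact_mod_cast hMM
      gcongr

/-- **Polynomial decay of every order** -/
theorem decay (θ : ℝ) (hθ0 : 0 ≤ θ) (hθ1 : θ < 1) (a : ℕ) : ∃ C : ℝ, 0 < C ∧ ∀ (n : ℕ) (p : ℕ → ℕ → ℤ)
    (g : ℕ → ℕ → ℝ), Good n p g θ → ∀ j h M R y : ℕ, h + M = n → (y : ℝ) ≤ (M : ℝ) ^ (3 / 5 : ℝ) → M ≤ R + y →
      V g R j h * (M : ℝ) ^ a ≤ C := by
  obtain ⟨M0, hM0⟩ := iterate_V θ hθ0 hθ1 (1 / 10 ^ (8 * (a + 1))) (by positivity) (by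
    rw [div_le_one (by positivity)]
    exact one_le_pow₀ (by norm_num))
  obtain ⟨k1, hk1⟩ : ∃ k1 : ℕ, k1 = max M0 24 := ⟨_, rfl⟩
  obtain ⟨m, hm⟩ : ∃ m, m = 8 * a + 1 := ⟨_, rfl⟩
  refine ⟨((10 : ℝ) ^ 8) ^ (k1 * a) + ((10 : ℝ) ^ (8 * a) + 2 * 10 ^ (8 * a) * (m.factorial * (10 ^ 8) ^ m)), by positivity, ?_⟩
  intro n p g G j h M R y hM hy hR
  have hV0 := V_nonneg G.g0 R j h
  have hV1 := V_le_one G.g0 G.g1 R j h
  by_cases hsmall : M < (10 ^ 8) ^ k1
  · have h1 : (M : ℝ) ^ a ≤ ((10 : ℝ) ^ 8) ^ (k1 * a) := by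
      rw [pow_mul]
      apply pow_le_pow_left₀ (by positivity)
      exact_mod_cast hsmall.le
    have h2 : V g R j h * (M : ℝ) ^ a ≤ 1 * ((10 : ℝ) ^ 8) ^ (k1 * a) := by
      apply mul_le_mul hV1 h1 (by positivity) (by norm_num)
    have h3 : 0 ≤ ((10 : ℝ) ^ (8 * a) + 2 * 10 ^ (8 * a) * (m.factorial * (10 ^ 8) ^ m)) := by positivity
    linarith
  · push Not at hsmall
    have hMne : M ≠ 0 := by
      have : 0 < (10 ^ 8) ^ k1 := by positivity
      omega
    obtain ⟨k, hk⟩ : ∃ k, k = Nat.log (10 ^ 8) M := ⟨_, rfl⟩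
    have hk2 : (10 ^ 8) ^ k ≤ M := by rw [hk]; exact Nat.pow_log_le_self _ hMne
    have hk3 : M < (10 ^ 8) ^ (k + 1) := by rw [hk]; exact Nat.lt_pow_succ_log_self (by norm_num) M
    have hkk1 : k1 ≤ k := by
      by_contra hc
      push Not at hc
      have : (10 ^ 8) ^ (k + 1) ≤ (10 ^ 8) ^ k1 := Nat.pow_le_pow_right (by norm_num) hc
      omega
    have hk24 : 24 ≤ k := le_trans (by rw [hk1]; exact le_max_right _ _) hkk1
    have hkM0 : M0 ≤ k := le_trans (by rw [hk1]; exact le_max_left _ _) hkk1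
    obtain ⟨N, hN⟩ : ∃ N : ℕ, N = 10 ^ k := ⟨_, rfl⟩
    have hkN : k < N := by rw [hN]; exact Nat.lt_pow_self (by norm_num)
    have hM8 : N ^ 8 ≤ M := by
      rw [hN, ← pow_mul, mul_comm k 8, pow_mul]; exact hk2
    have hMup : M < 10 ^ 8 * N ^ 8 := by
      rw [hN, ← pow_mul, mul_comm k 8, pow_mul, ← pow_succ']; exact hk3
    have hN24 : 10 ^ 24 ≤ N := by rw [hN]; exact Nat.pow_le_pow_right (by norm_num) hk24
    -- y ≤ N^5
    have hy5 : y ≤ N ^ 5 := by
      have h1 : (y : ℝ) ^ 5 ≤ (M : ℝ) ^ 3 := by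
        calc (y : ℝ) ^ 5 ≤ ((M : ℝ) ^ (3 / 5 : ℝ)) ^ 5 := by gcongr
          _ = (M : ℝ) ^ 3 := by
              rw [← Real.rpow_natCast, ← Real.rpow_mul (by positivity)]
              norm_num
      have h2 : y ^ 5 ≤ M ^ 3 := by exact_mod_cast h1
      have h3 : y ^ 5 ≤ (N ^ 5) ^ 5 := by
        calc y ^ 5 ≤ M ^ 3 := h2
          _ ≤ (10 ^ 8 * N ^ 8) ^ 3 := Nat.pow_le_pow_left hMup.le 3
          _ = 10 ^ 24 * N ^ 24 := by ring
          _ ≤ N * N ^ 24 := Nat.mul_le_mul_right _ hN24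
          _ = (N ^ 5) ^ 5 := by ring
      exact le_of_not_gt fun hc => by
        have := Nat.pow_lt_pow_left hc (show 5 ≠ 0 by norm_num)
        omega
    have hcond : 10 ^ k * (10 * (y + k * N ^ 5) + M0) ≤ M := by
      rw [← hN]
      have hNpos : 1 ≤ N := by omega
      have a1 : 10 * (y + k * N ^ 5) + M0 ≤ 30 * N ^ 6 := by
        have b1 : k * N ^ 5 ≤ N * N ^ 5 := Nat.mul_le_mul_right _ hkN.le
        have b2 : N ^ 5 ≤ N * N ^ 5 := Nat.le_mul_of_pos_left _ hNpos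
        have b3 : N ≤ N * N ^ 5 := Nat.le_mul_of_pos_right _ (by positivity)
        have b4 : N * N ^ 5 = N ^ 6 := by ring
        omega
      calc N * (10 * (y + k * N ^ 5) + M0) ≤ N * (30 * N ^ 6) := Nat.mul_le_mul_left _ a1
        _ = 30 * N ^ 7 := by ring
        _ ≤ N * N ^ 7 := Nat.mul_le_mul_right _ (by omega)
        _ = N ^ 8 := by ring
        _ ≤ M := hM8
    have hmain := hM0 n p g G k j h M R (N ^ 5) y hM hcond hR
    have hNr : (1 : ℝ) ≤ N := by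
      have : 1 ≤ N := by omega
      exact_mod_cast this
    have hMr : (M : ℝ) ≤ 10 ^ 8 * N ^ 8 := by exact_mod_cast hMup.le
    have hMpos : (0 : ℝ) < M := by have : 0 < M := by omega
                                   exact_mod_cast this
    have hMa : (M : ℝ) ^ a ≤ 10 ^ (8 * a) * N ^ (8 * a) := by
      calc (M : ℝ) ^ a ≤ (10 ^ 8 * N ^ 8) ^ a := by gcongr
        _ = _ := by rw [mul_pow, ← pow_mul, ← pow_mul]
    have c1 : (1 / 10 ^ (8 * (a + 1)) : ℝ) ^ k * (M : ℝ) ^ a ≤ 10 ^ (8 * a) := by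
      have d1 : (1 / 10 ^ (8 * (a + 1)) : ℝ) ^ k = 1 / N ^ (8 * (a + 1)) := by
        rw [one_div_pow, hN]
        push_cast
        rw [← pow_mul, ← pow_mul, mul_comm]
      rw [d1, one_div_mul_eq_div, div_le_iff₀ (by positivity)]
      calc (M : ℝ) ^ a ≤ 10 ^ (8 * a) * N ^ (8 * a) := hMa
        _ ≤ 10 ^ (8 * a) * N ^ (8 * (a + 1)) :=
            mul_le_mul_of_nonneg_left (pow_le_pow_right₀ hNr (by omega)) (by positivity)
    have c2 : 2 * (k : ℝ) * Real.exp (-(((N ^ 5 : ℕ) : ℝ) ^ 2 / M)) * (M : ℝ) ^ a ≤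
        2 * 10 ^ (8 * a) * (m.factorial * (10 ^ 8) ^ m) := by
      have d1 : (N : ℝ) / 10 ^ 8 ≤ ((N ^ 5 : ℕ) : ℝ) ^ 2 / M := by
        rw [div_le_div_iff₀ (by positivity) hMpos]
        calc (N : ℝ) * M ≤ N * (10 ^ 8 * N ^ 8) := by gcongr
          _ = 10 ^ 8 * N ^ 9 := by ring
          _ ≤ 10 ^ 8 * N ^ 10 :=
              mul_le_mul_of_nonneg_left (pow_le_pow_right₀ hNr (by norm_num)) (by positivity)
          _ = _ := by push_cast; ring
      have d2 : Real.exp (-(((N ^ 5 : ℕ) : ℝ) ^ 2 / M)) ≤ Real.exp (-((N : ℝ) / 10 ^ 8)) :=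
        Real.exp_le_exp.mpr (neg_le_neg d1)
      have d3 : Real.exp (-((N : ℝ) / 10 ^ 8)) * N ^ m ≤ m.factorial * (10 ^ 8) ^ m := by
        have e1 := Real.pow_div_factorial_le_exp ((N : ℝ) / 10 ^ 8) (by positivity) m
        rw [div_le_iff₀ (by positivity), div_pow, div_le_iff₀ (by positivity)] at e1
        rw [Real.exp_neg, inv_mul_le_iff₀ (Real.exp_pos _)]
        linarith
      have hkr : (k : ℝ) ≤ N := by exact_mod_cast hkN.le
      calc 2 * (k : ℝ) * Real.exp (-(((N ^ 5 : ℕ) : ℝ) ^ 2 / M)) * (M : ℝ) ^ a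
          ≤ 2 * N * Real.exp (-((N : ℝ) / 10 ^ 8)) * (10 ^ (8 * a) * N ^ (8 * a)) := by gcongr
        _ = 2 * 10 ^ (8 * a) * (Real.exp (-((N : ℝ) / 10 ^ 8)) * N ^ m) := by rw [hm, pow_succ]; ring
        _ ≤ _ := by gcongr
    have hfin : V g R j h * (M : ℝ) ^ a ≤
        ((1 / 10 ^ (8 * (a + 1)) : ℝ) ^ k + 2 * k * Real.exp (-(((N ^ 5 : ℕ) : ℝ) ^ 2 / M))) * (M : ℝ) ^ a :=
      mul_le_mul_of_nonneg_right hmain (by positivity)
    rw [add_mul] at hfin
    have h0 : (0 : ℝ) ≤ ((10 : ℝ) ^ 8) ^ (k1 * a) := by positivity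
    exact le_trans hfin (le_trans (add_le_add c1 c2) (le_add_of_nonneg_left h0))

end Pool.Agent.Helper3.TD
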