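import Pool.Agent.Helper3.TD.Jump1
import Pool.Agent.Helper3.TD.Shift

/-! Narrow windows: one fixed time. -/

namespace Pool.Agent.Helper3.TD

open Pool.Agent.Helper3.ND

open Classical in
/-- central numbers of odd steps -/
noncomputable def KB (t m : ℕ) (B : ℝ) : Finset ℕ := (KS t m).filter (fun k => |(k : ℝ) - t / 2| ≤ B * Real.sqrt t)

theorem KB_spec {t m k : ℕ} {B : ℝ} (h : k ∈ KB t m B) : k ∈ KS t m ∧ |(k : ℝ) - t / 2| ≤ B * Real.sqrt t := by
  classical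
  unfold KB at h
  exact Finset.mem_filter.mp h

theorem KB_sub {t m : ℕ} {B : ℝ} : KB t m B ⊆ KS t m := fun _ h => (KB_spec h).1

theorem J1 {Φ : ℤ → ℝ} {Y : ℝ} (hΦ : Inv Φ Y) {t m : ℕ} (ht : 10 ^ 3 ≤ t) (hm : 5 * m ≤ 2 * t) {B : ℝ} (hB0 : 0 ≤ B)
    (hB : B * Real.sqrt t ≤ (t : ℝ) ^ (11 / 20 : ℝ)) {a : ℝ} (hz : 100 * 10 ^ t ≤ Real.exp (a - 1)) (X : ℤ)
    (hinv : ∀ N : ℤ, Real.exp (a - 1) < |(N : ℝ)| → Φ (T^[t] N) = Φ N) :
    SS Φ X a 1 ≤ ∑ N ∈ Finset.Icc (-X) X, (if od t N ∈ KB t m B then Φ (T^[t] N) * om a 1 N else 0) +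
      12 * Real.exp (-(2 * B ^ 2)) := by
  classical
  have ht' : (10 ^ 3 : ℝ) ≤ t := by exact_mod_cast ht
  have ht0 : (0 : ℝ) < t := by linarith
  obtain ⟨f, hf⟩ : ∃ f : ℤ → ℝ, f = fun N => if od t N ∈ KB t m B then 0 else 1 := ⟨_, rfl⟩
  have hf0 : ∀ x, 0 ≤ f x := by
    intro x; rw [hf]; simp only; split_ifs <;> norm_num
  have hfp : ∀ x : ℤ, f (x + ((2 ^ t : ℕ) : ℤ)) = f x := by
    intro x
    rw [hf]
    simp only
    have := (shift t x 1).1
    rw [mul_one] at this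
    push_cast
    rw [this]
  have h1 : SS Φ X a 1 ≤ ∑ N ∈ Finset.Icc (-X) X, (if od t N ∈ KB t m B then Φ (T^[t] N) * om a 1 N else 0) +
      ∑ N ∈ Finset.Icc (-X) X, (if |Real.log |(N : ℝ)| - a| ≤ 1 then f N / |(N : ℝ)| else 0) := by
    unfold SS
    rw [← Finset.sum_add_distrib]
    apply Finset.sum_le_sum
    intro N _
    by_cases h0 : om a 1 N = 0
    · rw [h0]
      have : (0 : ℝ) ≤ if |Real.log |(N : ℝ)| - a| ≤ 1 then f N / |(N : ℝ)| else 0 := by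
        split_ifs
        · exact div_nonneg (hf0 _) (abs_nonneg _)
        · exact le_rfl
      simpa using this
    · obtain ⟨h2, h3⟩ := om_ne_zero one_pos h0
      have h4 : Real.exp (a - 1) < |(N : ℝ)| := by
        rw [← Real.lt_log_iff_exp_lt h2]
        rw [abs_lt] at h3
        linarith
      rw [hinv N h4, if_pos h3.le]
      by_cases h5 : od t N ∈ KB t m B
      · rw [if_pos h5]
        have : 0 ≤ f N / |(N : ℝ)| := div_nonneg (hf0 _) (abs_nonneg _)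
        linarith
      · rw [if_neg h5, zero_add, hf]
        simp only
        rw [if_neg h5]
        calc Φ N * om a 1 N ≤ 1 * (1 / |(N : ℝ)|) := by
              apply mul_le_mul (hΦ.le_one _) (om_le _ _ _) (om_nonneg _ _ _) (by norm_num)
          _ = _ := by rw [one_mul]
  have hq : 4 * ((2 ^ t : ℕ) : ℝ) ≤ Real.exp (a - 1) := by
    refine le_trans ?_ hz
    push_cast
    have h6 : (2 : ℝ) ^ t ≤ 10 ^ t := pow_le_pow_left₀ (by norm_num) (by norm_num) t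
    have h7 : (0 : ℝ) < 10 ^ t := by positivity
    nlinarith
  have h2 := win_sum (Nat.one_le_pow t 2 (by norm_num)) hfp hf0 zero_le_one hq X
  have h3 : AvQ (2 ^ t) f ≤ 2 * Real.exp (-(2 * B ^ 2)) := by
    have h4 := card_od t (by omega) (B * Real.sqrt t) (by positivity)
    have e1 : 2 * (B * Real.sqrt t) ^ 2 / t = 2 * B ^ 2 := by
      rw [mul_pow, Real.sq_sqrt ht0.le]; field_simp
    rw [e1] at h4
    unfold AvQ
    push_cast
    rw [div_le_iff₀ (by positivity)]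
    refine le_trans ?_ (le_trans h4 (le_of_eq (by ring)))
    rw [← mul_one (((Finset.range (2 ^ t)).filter (fun y : ℕ => B * Real.sqrt t ≤ |(od t (y : ℤ) : ℝ) - t / 2|)).card : ℝ),
      ← nsmul_eq_mul, ← Finset.sum_const, Finset.sum_filter]
    apply Finset.sum_le_sum
    intro r _
    rw [hf]
    simp only
    by_cases h7 : B * Real.sqrt t ≤ |(od t (r : ℤ) : ℝ) - t / 2|
    · rw [if_pos h7]
      split_ifs <;> norm_num
    · rw [if_neg h7, if_pos]
      have h8 := (not_le.mp h7).le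
      have h9 := le_trans h8 hB
      have h10 := od_le t (r : ℤ)
      unfold KB KS
      rw [Finset.mem_filter, Finset.mem_filter, Finset.mem_range]
      refine ⟨⟨by omega, ?_, h9⟩, h8⟩
      have h6 := rpow_small ht'
      rw [abs_le] at h9
      have hm' : (5 : ℝ) * m ≤ 2 * t := by exact_mod_cast hm
      have : (m : ℝ) ≤ (od t (r : ℤ) : ℝ) := by linarith
      exact_mod_cast this
  refine le_trans h1 (add_le_add le_rfl (le_trans h2 ?_))
  linarith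

theorem J2 {Φ : ℤ → ℝ} {Y : ℝ} (hΦ : Inv Φ Y) {t m : ℕ} {B : ℝ} {a : ℝ} (hz : 100 * 10 ^ t ≤ Real.exp (a - 1)) (X : ℤ)
    (hX : 2 ^ t * Real.exp (a + 1) ≤ X) :
    ∑ N ∈ Finset.Icc (-X) X, (if od t N ∈ KB t m B then Φ (T^[t] N) * om a 1 N else 0) ≤
      ∑ k ∈ KB t m B, ∑ M ∈ Finset.Icc (-X) X,
        (if |Real.log |(M : ℝ)| - (a - t * Real.log 2 + k * Real.log 3)| ≤ 5 / 4 then
          2 * Φ M * D k t k (fun _ => True) M / |(M : ℝ)| else 0) := by
  classical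
  have hω : ∀ N, om a 1 N ≠ 0 → 2 ^ t * |N| ≤ X := by
    intro N hN
    obtain ⟨h2, h3⟩ := om_ne_zero one_pos hN
    rw [abs_lt] at h3
    have h4 : |(N : ℝ)| < Real.exp (a + 1) := by
      rw [← Real.log_lt_iff_lt_exp h2]; linarith
    have h5 : (2 : ℝ) ^ t * |(N : ℝ)| ≤ X := by
      refine le_trans ?_ hX
      gcongr
    exact_mod_cast h5
  have hz16 : 16 * (10 : ℝ) ^ t ≤ Real.exp (a - 1) := by
    refine le_trans ?_ hz
    have : (0 : ℝ) < 10 ^ t := by positivity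
    linarith
  rw [change t X Φ (om a 1) (fun k => k ∈ KB t m B) hω, Finset.sum_comm (s := KB t m B)]
  apply Finset.sum_le_sum
  intro M _
  have h1 : ∀ r ∈ Finset.range (2 ^ t), (if od t (r : ℤ) ∈ KB t m B ∧ (3 : ℤ) ^ od t (r : ℤ) ∣ M - T^[t] (r : ℤ) then Φ M * om a 1 (nn t r M) else 0) ≤
      ∑ k ∈ KB t m B, (if od t (r : ℤ) = k ∧ True ∧ (3 : ℤ) ^ k ∣ M - T^[t] (r : ℤ) then (3 : ℝ) ^ k / 2 ^ t else 0) *
        (if |Real.log |(M : ℝ)| - (a - t * Real.log 2 + k * Real.log 3)| ≤ 5 / 4 then 2 * Φ M / |(M : ℝ)| else 0) := by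
    intro r _
    have hnn : ∀ k ∈ KB t m B, 0 ≤ (if od t (r : ℤ) = k ∧ True ∧ (3 : ℤ) ^ k ∣ M - T^[t] (r : ℤ) then (3 : ℝ) ^ k / 2 ^ t else 0) *
        (if |Real.log |(M : ℝ)| - (a - t * Real.log 2 + k * Real.log 3)| ≤ 5 / 4 then 2 * Φ M / |(M : ℝ)| else 0) := by
      intro k _
      have := hΦ.nonneg M
      apply mul_nonneg
      · split_ifs <;> positivity
      · split_ifs <;> positivity
    by_cases h2 : od t (r : ℤ) ∈ KB t m B ∧ (3 : ℤ) ^ od t (r : ℤ) ∣ M - T^[t] (r : ℤ)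
    · rw [if_pos h2]
      refine le_trans ?_ (Finset.single_le_sum hnn h2.1)
      rw [if_pos ⟨rfl, trivial, h2.2⟩]
      have h3 := pair_narrow hz16 h2.2
      calc Φ M * om a 1 (nn t r M) ≤ Φ M * (if |Real.log |(M : ℝ)| - (a - t * Real.log 2 + od t (r : ℤ) * Real.log 3)| ≤ 5 / 4 then
              2 * (3 ^ od t (r : ℤ) / 2 ^ t) / |(M : ℝ)| else 0) := mul_le_mul_of_nonneg_left h3 (hΦ.nonneg M)
        _ = _ := by
            split_ifs
            · ring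
            · ring
    · rw [if_neg h2]
      exact Finset.sum_nonneg hnn
  refine le_trans (Finset.sum_le_sum h1) (le_of_eq ?_)
  rw [Finset.sum_comm]
  apply Finset.sum_congr rfl
  intro k _
  rw [← Finset.sum_mul]
  have e : ∑ r ∈ Finset.range (2 ^ t), (if od t (r : ℤ) = k ∧ True ∧ (3 : ℤ) ^ k ∣ M - T^[t] (r : ℤ) then (3 : ℝ) ^ k / 2 ^ t else 0) =
      D k t k (fun _ => True) M := by
    unfold D
    apply Finset.sum_congr rfl
    intro r _
    congr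
  rw [e]
  split_ifs
  · ring
  · ring

theorem J3 {Φ : ℤ → ℝ} {Y : ℝ} (hΦ : Inv Φ Y) {s1 s m k : ℕ} (hs1 : 1 ≤ s1) (hmk : m ≤ k) {b : ℝ}
    (hg : 4 * 3 ^ k ≤ Real.exp (b - 5 / 4)) (X : ℤ) :
    ∑ M ∈ Finset.Icc (-X) X, (if |Real.log |(M : ℝ)| - b| ≤ 5 / 4 then
      2 * Φ M * D k (s1 + s) k (fun _ => True) M / |(M : ℝ)| else 0) ≤
    14 * Av k (fun M => |D k (s1 + s) k (fun _ => True) M - D m (s1 + s) k (fun _ => True) M|) +
    14 * mass (s1 + s) k (fun r => ¬ m ≤ od s (yy s1 s r : ℤ)) +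
    2 / Real.sqrt s1 * ∑ M ∈ Finset.Icc (-X) X, (if |Real.log |(M : ℝ)| - b| ≤ 5 / 4 then Φ M * dl m s M / |(M : ℝ)| else 0) := by
  classical
  have hs1' : (0 : ℝ) < s1 := by exact_mod_cast hs1
  have hsq := Real.sqrt_pos.mpr hs1'
  have hp : Per k (fun M => |D k (s1 + s) k (fun _ => True) M - D m (s1 + s) k (fun _ => True) M|) := by
    intro x
    simp only
    rw [D_per k (s1 + s) k _ x, (D_per m (s1 + s) k (fun _ => True)).le hmk x]
  have h1 := win_sum3 hp (fun x => abs_nonneg _) (show (0 : ℝ) ≤ 5 / 4 by norm_num) hg X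
  have hgm : 4 * (3 : ℝ) ^ m ≤ Real.exp (b - 5 / 4) := by
    refine le_trans ?_ hg
    have : (3 : ℝ) ^ m ≤ 3 ^ k := pow_le_pow_right₀ (by norm_num) hmk
    linarith
  have h2 := win_sum3 (D_per m (s1 + s) k (fun r => ¬ m ≤ od s (yy s1 s r : ℤ))) (D_nonneg m (s1 + s) k _)
    (show (0 : ℝ) ≤ 5 / 4 by norm_num) hgm X
  rw [Av_D] at h2
  have h3 : ∀ M ∈ Finset.Icc (-X) X, (if |Real.log |(M : ℝ)| - b| ≤ 5 / 4 then
      2 * Φ M * D k (s1 + s) k (fun _ => True) M / |(M : ℝ)| else 0) ≤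
      2 * (if |Real.log |(M : ℝ)| - b| ≤ 5 / 4 then |D k (s1 + s) k (fun _ => True) M - D m (s1 + s) k (fun _ => True) M| / |(M : ℝ)| else 0) +
      2 * (if |Real.log |(M : ℝ)| - b| ≤ 5 / 4 then D m (s1 + s) k (fun r => ¬ m ≤ od s (yy s1 s r : ℤ)) M / |(M : ℝ)| else 0) +
      2 / Real.sqrt s1 * (if |Real.log |(M : ℝ)| - b| ≤ 5 / 4 then Φ M * dl m s M / |(M : ℝ)| else 0) := by
    intro M _
    by_cases h4 : |Real.log |(M : ℝ)| - b| ≤ 5 / 4
    · rw [if_pos h4, if_pos h4, if_pos h4, if_pos h4]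
      have h5 := D_split m (s1 + s) k (fun r => m ≤ od s (yy s1 s r : ℤ)) M
      have h6 := D_le_dl m s1 s k hs1 M
      have h7 := le_abs_self (D k (s1 + s) k (fun _ => True) M - D m (s1 + s) k (fun _ => True) M)
      have h8 := D_nonneg m (s1 + s) k (fun r => ¬ m ≤ od s (yy s1 s r : ℤ)) M
      have h9 := D_nonneg k (s1 + s) k (fun _ => True) M
      have hΦ0 := hΦ.nonneg M
      have hΦ1 := hΦ.le_one M
      have h10 : Φ M * D k (s1 + s) k (fun _ => True) M ≤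
          |D k (s1 + s) k (fun _ => True) M - D m (s1 + s) k (fun _ => True) M| +
          D m (s1 + s) k (fun r => ¬ m ≤ od s (yy s1 s r : ℤ)) M + Φ M * (dl m s M / Real.sqrt s1) := by
        have a1 : D k (s1 + s) k (fun _ => True) M ≤ |D k (s1 + s) k (fun _ => True) M - D m (s1 + s) k (fun _ => True) M| +
          D m (s1 + s) k (fun r => ¬ m ≤ od s (yy s1 s r : ℤ)) M + dl m s M / Real.sqrt s1 := by linarith
        have a2 := mul_le_mul_of_nonneg_left a1 hΦ0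
        have a3 : Φ M * |D k (s1 + s) k (fun _ => True) M - D m (s1 + s) k (fun _ => True) M| ≤
            |D k (s1 + s) k (fun _ => True) M - D m (s1 + s) k (fun _ => True) M| := mul_le_of_le_one_left (abs_nonneg _) hΦ1
        have a4 : Φ M * D m (s1 + s) k (fun r => ¬ m ≤ od s (yy s1 s r : ℤ)) M ≤ D m (s1 + s) k (fun r => ¬ m ≤ od s (yy s1 s r : ℤ)) M :=
          mul_le_of_le_one_left h8 hΦ1
        linarith
      have h11 : 0 ≤ |(M : ℝ)| := abs_nonneg _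
      have h12 := div_le_div_of_nonneg_right h10 h11
      calc 2 * Φ M * D k (s1 + s) k (fun _ => True) M / |(M : ℝ)| = 2 * (Φ M * D k (s1 + s) k (fun _ => True) M / |(M : ℝ)|) := by ring
        _ ≤ 2 * ((|D k (s1 + s) k (fun _ => True) M - D m (s1 + s) k (fun _ => True) M| +
          D m (s1 + s) k (fun r => ¬ m ≤ od s (yy s1 s r : ℤ)) M + Φ M * (dl m s M / Real.sqrt s1)) / |(M : ℝ)|) := by linarith
        _ = _ := by ring
    · rw [if_neg h4, if_neg h4, if_neg h4, if_neg h4]; simp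
  refine le_trans (Finset.sum_le_sum h3) ?_
  rw [Finset.sum_add_distrib, Finset.sum_add_distrib, ← Finset.mul_sum, ← Finset.mul_sum, ← Finset.mul_sum]
  linarith

theorem J4 {Φ : ℤ → ℝ} {Y : ℝ} (hΦ : Inv Φ Y) {t m s : ℕ} {B : ℝ} {a : ℝ} (X : ℤ) :
    ∑ k ∈ KB t m B, ∑ M ∈ Finset.Icc (-X) X, (if |Real.log |(M : ℝ)| - (a - t * Real.log 2 + k * Real.log 3)| ≤ 5 / 4 then
      Φ M * dl m s M / |(M : ℝ)| else 0) ≤
    7 / 2 * ∑ M ∈ Finset.Icc (-X) X, (if |Real.log |(M : ℝ)| - (a - mu * t)| ≤ 1.1 * (B * Real.sqrt t) + 5 / 4 then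
      Φ M * dl m s M / |(M : ℝ)| else 0) := by
  classical
  rw [Finset.sum_comm, Finset.mul_sum]
  apply Finset.sum_le_sum
  intro M _
  have h0 : 0 ≤ Φ M * dl m s M / |(M : ℝ)| :=
    div_nonneg (mul_nonneg (hΦ.nonneg M) (dl_nonneg m s M)) (abs_nonneg _)
  rw [← Finset.sum_filter, Finset.sum_const, nsmul_eq_mul]
  have hl3 := log_three_ge
  have hl3' := log_three_le
  by_cases h1 : |Real.log |(M : ℝ)| - (a - mu * t)| ≤ 1.1 * (B * Real.sqrt t) + 5 / 4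
  · rw [if_pos h1]
    apply mul_le_mul_of_nonneg_right _ h0
    have h2 := card_short ((KB t m B).filter (fun k : ℕ => |Real.log |(M : ℝ)| - (a - t * Real.log 2 + k * Real.log 3)| ≤ 5 / 4))
      (Real.log |(M : ℝ)| - a + t * Real.log 2) (c := Real.log 3) (v := 5 / 4) (by linarith) (by norm_num) (by
        intro k hk
        rw [Finset.mem_filter] at hk
        rw [show Real.log |(M : ℝ)| - a + t * Real.log 2 - k * Real.log 3 = Real.log |(M : ℝ)| - (a - t * Real.log 2 + k * Real.log 3) by ring]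
        exact hk.2)
    refine le_trans h2 ?_
    have h3 : 2 * (5 / 4) / Real.log 3 ≤ 2 * (5 / 4) / 1 := div_le_div_of_nonneg_left (by norm_num) (by norm_num) hl3
    linarith
  · rw [if_neg h1, mul_zero]
    apply le_of_eq
    have : (KB t m B).filter (fun k : ℕ => |Real.log |(M : ℝ)| - (a - t * Real.log 2 + k * Real.log 3)| ≤ 5 / 4) = ∅ := by
      rw [Finset.filter_eq_empty_iff]
      intro k hk hc
      apply h1
      obtain ⟨_, h2⟩ := KB_spec hk
      have e : Real.log |(M : ℝ)| - (a - mu * t) = (Real.log |(M : ℝ)| - (a - t * Real.log 2 + k * Real.log 3)) + ((k : ℝ) - t / 2) * Real.log 3 := by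
        unfold mu; ring
      rw [e]
      refine le_trans (abs_add_le _ _) ?_
      rw [abs_mul, abs_of_pos (show 0 < Real.log 3 by linarith)]
      have h3 : |(k : ℝ) - t / 2| * Real.log 3 ≤ (B * Real.sqrt t) * 1.1 :=
        mul_le_mul h2 hl3' (by linarith) (le_trans (abs_nonneg _) h2)
      linarith
    rw [this]
    simp

/-- narrow windows at one fixed time -/
theorem jump_t {Φ : ℤ → ℝ} {Y : ℝ} (hΦ : Inv Φ Y) {s1 s m : ℕ} (ht : 10 ^ 3 ≤ s1 + s) (hm : 5 * m ≤ 2 * (s1 + s)) (hs1 : 1 ≤ s1)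
    (hs : 3 * m ≤ s) (hs0 : 1 ≤ s) {B : ℝ} (hB0 : 0 ≤ B)
    (hB : B * Real.sqrt ((s1 + s : ℕ) : ℝ) ≤ ((s1 + s : ℕ) : ℝ) ^ (11 / 20 : ℝ)) {a : ℝ} (hz : 100 * 10 ^ (s1 + s) ≤ Real.exp (a - 1)) (X : ℤ)
    (hX : 2 ^ (s1 + s) * Real.exp (a + 1) ≤ X)
    (hinv : ∀ N : ℤ, Real.exp (a - 1) < |(N : ℝ)| → Φ (T^[s1 + s] N) = Φ N) :
    SS Φ X a 1 ≤ 12 * Real.exp (-(2 * B ^ 2)) +
      14 * ∑ k ∈ KS (s1 + s) m, Av k (fun M => |D k (s1 + s) k (fun _ => True) M - D m (s1 + s) k (fun _ => True) M|) +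
      28 * Real.exp (-((s : ℝ) / 18)) +
      7 / Real.sqrt s1 * ∑ M ∈ Finset.Icc (-X) X, (if |Real.log |(M : ℝ)| - (a - mu * ((s1 + s : ℕ) : ℝ))| ≤ 1.1 * (B * Real.sqrt ((s1 + s : ℕ) : ℝ)) + 5 / 4 then
      Φ M * dl m s M / |(M : ℝ)| else 0) := by
  classical
  have h1 := J1 hΦ ht hm hB0 hB hz X hinv
  have h2 := J2 hΦ (m := m) (B := B) hz X hX
  have hs1' : (0 : ℝ) < s1 := by exact_mod_cast hs1
  have hsq := Real.sqrt_pos.mpr hs1'
  have hl3' := log_three_le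
  have hl3 := log_three_ge
  have h3 : ∀ k ∈ KB (s1 + s) m B, ∑ M ∈ Finset.Icc (-X) X,
      (if |Real.log |(M : ℝ)| - (a - ((s1 + s : ℕ) : ℝ) * Real.log 2 + k * Real.log 3)| ≤ 5 / 4 then
        2 * Φ M * D k (s1 + s) k (fun _ => True) M / |(M : ℝ)| else 0) ≤
      14 * Av k (fun M => |D k (s1 + s) k (fun _ => True) M - D m (s1 + s) k (fun _ => True) M|) +
      14 * mass (s1 + s) k (fun r => ¬ m ≤ od s (yy s1 s r : ℤ)) +
      2 / Real.sqrt s1 * ∑ M ∈ Finset.Icc (-X) X, (if |Real.log |(M : ℝ)| - (a - ((s1 + s : ℕ) : ℝ) * Real.log 2 + k * Real.log 3)| ≤ 5 / 4 then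
        Φ M * dl m s M / |(M : ℝ)| else 0) := by
    intro k hk
    have hk2 := KS_spec (KB_sub hk)
    apply J3 hΦ hs1 hk2.1
    have h4 := grow (a := a) (W := 5 / 4) ht hk2.2 (by norm_num) (by
      have e : Real.exp (a - 5 / 4) = Real.exp (a - 1) * Real.exp (-(1 / 4)) := by rw [← Real.exp_add]; congr 1; ring
      have h5 := Real.add_one_le_exp (-(1 / 4) : ℝ)
      rw [e]
      have h6 : (0 : ℝ) < 10 ^ (s1 + s) := by positivity
      have h7 := Real.exp_pos (a - 1)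
      nlinarith)
    refine le_trans h4 (Real.exp_le_exp.mpr ?_)
    have h5 := hk2.2
    unfold TypK at h5
    have h6 : |((k : ℝ) - ((s1 + s : ℕ) : ℝ) / 2) * Real.log 3| ≤ ((s1 + s : ℕ) : ℝ) ^ (11 / 20 : ℝ) * 1.1 := by
      rw [abs_mul, abs_of_pos (show 0 < Real.log 3 by linarith)]
      exact mul_le_mul h5 hl3' (by linarith) (by positivity)
    rw [abs_le] at h6
    have h7 : (0 : ℝ) ≤ ((s1 + s : ℕ) : ℝ) ^ (11 / 20 : ℝ) := by positivity
    unfold mu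
    linarith
  have h4 := J4 hΦ (t := s1 + s) (m := m) (s := s) (B := B) (a := a) X
  have h5 := Finset.sum_le_sum h3
  rw [Finset.sum_add_distrib, Finset.sum_add_distrib, ← Finset.mul_sum, ← Finset.mul_sum, ← Finset.mul_sum] at h5
  have h6 := few_odd m s1 s hs hs0 (KB (s1 + s) m B)
  have h7 : ∑ k ∈ KB (s1 + s) m B, Av k (fun M => |D k (s1 + s) k (fun _ => True) M - D m (s1 + s) k (fun _ => True) M|) ≤
      ∑ k ∈ KS (s1 + s) m, Av k (fun M => |D k (s1 + s) k (fun _ => True) M - D m (s1 + s) k (fun _ => True) M|) :=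
    Finset.sum_le_sum_of_subset_of_nonneg KB_sub (fun k _ _ => Av_nonneg (fun x => abs_nonneg _))
  have h8 := mul_le_mul_of_nonneg_left h4 (show 0 ≤ 2 / Real.sqrt s1 by positivity)
  have e9 : 2 / Real.sqrt s1 * (7 / 2 * ∑ M ∈ Finset.Icc (-X) X, (if |Real.log |(M : ℝ)| - (a - mu * ((s1 + s : ℕ) : ℝ))| ≤ 1.1 * (B * Real.sqrt ((s1 + s : ℕ) : ℝ)) + 5 / 4 then
      Φ M * dl m s M / |(M : ℝ)| else 0)) = 7 / Real.sqrt s1 * ∑ M ∈ Finset.Icc (-X) X, (if |Real.log |(M : ℝ)| - (a - mu * ((s1 + s : ℕ) : ℝ))| ≤ 1.1 * (B * Real.sqrt ((s1 + s : ℕ) : ℝ)) + 5 / 4 then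
      Φ M * dl m s M / |(M : ℝ)| else 0) := by
    ring
  rw [e9] at h8
  linarith

end Pool.Agent.Helper3.TD
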