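import Pool.Agent.Helper3.TD.Chain
import Pool.Agent.Helper3.TD.Jump2

/-! Narrow windows. -/

namespace Pool.Agent.Helper3.TD

open Pool.Agent.Helper3.ND

theorem rpow_A2 {A : ℝ} (hA : 2 ^ 20 ≤ A) : 512 * A ^ (11 / 20 : ℝ) ≤ A := by
  have h0 : 0 < A := by linarith [show (0 : ℝ) < 2 ^ 20 by norm_num]
  have h1 : (512 : ℝ) ≤ A ^ (9 / 20 : ℝ) := by
    have h2 : ((2 : ℝ) ^ 20) ^ (9 / 20 : ℝ) ≤ A ^ (9 / 20 : ℝ) := Real.rpow_le_rpow (by norm_num) hA (by norm_num)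
    refine le_trans ?_ h2
    rw [← Real.rpow_natCast, ← Real.rpow_mul (by norm_num)]
    have h3 : (512 : ℝ) = (2 : ℝ) ^ (9 : ℝ) := by norm_num
    rw [h3]
    apply Real.rpow_le_rpow_of_exponent_le (by norm_num)
    norm_num
  have h2 : A = A ^ (9 / 20 : ℝ) * A ^ (11 / 20 : ℝ) := by
    rw [← Real.rpow_add h0]; norm_num
  have h3 : 0 < A ^ (11 / 20 : ℝ) := Real.rpow_pos_of_pos h0 _
  calc 512 * A ^ (11 / 20 : ℝ) ≤ A ^ (9 / 20 : ℝ) * A ^ (11 / 20 : ℝ) := by gcongr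
    _ = A := h2.symm

theorem SD_lower {Φ : ℤ → ℝ} {Y : ℝ} (hΦ : Inv Φ Y) (X : ℤ) (m s : ℕ) (c : ℝ) {W : ℝ} (hW : 0 < W) :
    ∑ M ∈ Finset.Icc (-X) X, (if |Real.log |(M : ℝ)| - c| ≤ W / 2 then Φ M * dl m s M / |(M : ℝ)| else 0) ≤
      2 * SD Φ X m s c W := by
  unfold SD
  rw [Finset.mul_sum]
  apply Finset.sum_le_sum
  intro M _
  have h0 : 0 ≤ Φ M * dl m s M := mul_nonneg (hΦ.nonneg M) (dl_nonneg m s M)
  have h1 := om_nonneg c W M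
  by_cases h2 : |Real.log |(M : ℝ)| - c| ≤ W / 2
  · rw [if_pos h2]
    have h3 : 1 / 2 / |(M : ℝ)| ≤ om c W M := by
      unfold om
      apply div_le_div_of_nonneg_right _ (abs_nonneg _)
      unfold tent
      apply le_max_of_le_right
      rw [abs_div, abs_of_pos hW]
      have : |Real.log |(M : ℝ)| - c| / W ≤ 1 / 2 := by
        rw [div_le_iff₀ hW]; linarith
      linarith
    have h4 := mul_le_mul_of_nonneg_left h3 h0
    calc Φ M * dl m s M / |(M : ℝ)| = 2 * (Φ M * dl m s M * (1 / 2 / |(M : ℝ)|)) := by ring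
      _ ≤ _ := by linarith
  · rw [if_neg h2]
    positivity

/-- one time -/
theorem jump_one {A : ℝ} (hA' : 1048576 ≤ A) {T0 m s i : ℕ} (hT1 : (T0 : ℝ) ≤ A / 32) (hT3 : A / 64 ≤ T0) (hm : m = T0 / 40)
    (hs : s = 3 * m) (hm80 : T0 ≤ 80 * m) (hT1000 : 10 ^ 3 ≤ T0) (hi : i < T0) {Y : ℝ} {Φ : ℤ → ℝ} (hΦ : Inv Φ Y) (hY : 0 ≤ Y)
    (hYA : Y ≤ Real.exp (A / 2)) {X : ℤ} (hX : Real.exp (9 * A) ≤ X) {a : ℝ} (ha1 : 3 / 2 * A ≤ a) (ha2 : a ≤ 3 * A)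
    {B : ℝ} (hB1 : 1 ≤ B) (hBt : ∀ t : ℕ, T0 ≤ t → B * Real.sqrt t ≤ (t : ℝ) ^ (11 / 20 : ℝ)) {C1 : ℝ} (hC1 : 0 < C1)
    (hmix : ∑ k ∈ KS (T0 + i) m, Av k (fun M => |D k (T0 + i) k (fun _ => True) M - D m (T0 + i) k (fun _ => True) M|) ≤
      C1 * ((T0 + i : ℕ) : ℝ) ^ (1 / 20 : ℝ) / m) {v : ℝ} (hv : v = 1.6 * (B * Real.sqrt T0) + 5 / 4) {g : ℤ → ℝ}
    (hg : g = fun M => Φ M * dl m s M / |(M : ℝ)|) (hg0 : ∀ M, 0 ≤ g M) :
    SS Φ X a 1 ≤ 12 * Real.exp (-(2 * B ^ 2)) + (71680 * C1 + 860160) * A ^ (-(9 / 20) : ℝ) +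
      10 / Real.sqrt T0 * ∑ M ∈ Finset.Icc (-X) X, (if |(a - mu * T0 - Real.log |(M : ℝ)|) - i * mu| ≤ v then g M else 0) := by
  have hA0 : 0 < A := by linarith
  have hT0pos : (0 : ℝ) < T0 := by linarith
  have hm80r : (T0 : ℝ) ≤ 80 * m := by exact_mod_cast hm80
  have hm0 : (0 : ℝ) < m := by linarith
  have hs0 : (0 : ℝ) < s := by rw [hs]; push_cast; linarith
  obtain ⟨P, hP⟩ : ∃ P : ℝ, P = A ^ (11 / 20 : ℝ) := ⟨_, rfl⟩
  obtain ⟨Q', hQ⟩ : ∃ Q' : ℝ, Q' = A ^ (-(9 / 20) : ℝ) := ⟨_, rfl⟩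
  have hQ0 : 0 < Q' := by rw [hQ]; exact Real.rpow_pos_of_pos hA0 _
  have hPQ : P = A * Q' := by
    rw [hP, hQ]
    nth_rewrite 2 [← Real.rpow_one A]
    rw [← Real.rpow_add hA0]; norm_num
  have hsT := Real.sqrt_pos.mpr hT0pos
  obtain ⟨s1, hs1⟩ : ∃ s1, T0 + i = s1 + s := ⟨T0 + i - s, by omega⟩
  have hs1T : T0 ≤ 2 * s1 := by omega
  have hs1r : (T0 : ℝ) ≤ 2 * s1 := by exact_mod_cast hs1T
  have hs1pos : (0 : ℝ) < s1 := by linarith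
  have hir : (i : ℝ) ≤ T0 := by exact_mod_cast hi.le
  have hz : 100 * (10 : ℝ) ^ (s1 + s) ≤ Real.exp (a - 1) := by
    rw [← hs1]
    have h1 : (10 : ℝ) ^ (T0 + i) ≤ Real.exp (5 * ((T0 + i : ℕ) : ℝ)) :=
      le_trans (pow_le_pow_left₀ (by norm_num) (by norm_num) _) (hundred_pow _)
    calc 100 * (10 : ℝ) ^ (T0 + i) ≤ Real.exp 5 * Real.exp (5 * ((T0 + i : ℕ) : ℝ)) := by
          apply mul_le_mul hundred_le h1 (by positivity) (Real.exp_pos _).le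
      _ = Real.exp (5 + 5 * ((T0 + i : ℕ) : ℝ)) := (Real.exp_add _ _).symm
      _ ≤ _ := by apply Real.exp_le_exp.mpr; push_cast; linarith
  have hXi : (2 : ℝ) ^ (s1 + s) * Real.exp (a + 1) ≤ X := by
    rw [← hs1]
    refine le_trans ?_ hX
    have h1 : (2 : ℝ) ^ (T0 + i) ≤ Real.exp (2 * ((T0 + i : ℕ) : ℝ)) :=
      le_trans (pow_le_pow_left₀ (by norm_num) (by norm_num) _) (four_pow _)
    calc (2 : ℝ) ^ (T0 + i) * Real.exp (a + 1) ≤ Real.exp (2 * ((T0 + i : ℕ) : ℝ)) * Real.exp (a + 1) := by gcongr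
      _ = Real.exp (2 * ((T0 + i : ℕ) : ℝ) + (a + 1)) := (Real.exp_add _ _).symm
      _ ≤ _ := by apply Real.exp_le_exp.mpr; push_cast; linarith
  have hinv : ∀ N : ℤ, Real.exp (a - 1) < |(N : ℝ)| → Φ (T^[s1 + s] N) = Φ N := by
    intro N hN
    apply hΦ.iter _ _ _ hY
    refine lt_of_le_of_lt ?_ hN
    rw [← hs1]
    have h1 : (2 : ℝ) ^ (T0 + i) ≤ Real.exp (2 * ((T0 + i : ℕ) : ℝ)) :=
      le_trans (pow_le_pow_left₀ (by norm_num) (by norm_num) _) (four_pow _)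
    calc Y * 2 ^ (T0 + i) ≤ Real.exp (A / 2) * Real.exp (2 * ((T0 + i : ℕ) : ℝ)) := by
          apply mul_le_mul hYA h1 (by positivity) (Real.exp_pos _).le
      _ = Real.exp (A / 2 + 2 * ((T0 + i : ℕ) : ℝ)) := (Real.exp_add _ _).symm
      _ ≤ _ := by apply Real.exp_le_exp.mpr; push_cast; linarith
  have hBs : B * Real.sqrt ((s1 + s : ℕ) : ℝ) ≤ ((s1 + s : ℕ) : ℝ) ^ (11 / 20 : ℝ) := by
    rw [← hs1]; exact hBt _ (by omega)
  have h1 := jump_t hΦ (s1 := s1) (s := s) (m := m) (B := B) (by omega) (by omega) (by omega) (by omega) (by omega)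
    (by linarith) hBs hz X hXi hinv
  rw [← hs1] at h1
  have htr : ((T0 + i : ℕ) : ℝ) ≤ A := by push_cast; linarith
  have h3 : C1 * ((T0 + i : ℕ) : ℝ) ^ (1 / 20 : ℝ) / m ≤ 80 * 64 * C1 * Q' := by
    have h4 : ((T0 + i : ℕ) : ℝ) ^ (1 / 20 : ℝ) ≤ A ^ (1 / 20 : ℝ) := Real.rpow_le_rpow (by positivity) htr (by norm_num)
    have h5 : A ^ (1 / 20 : ℝ) ≤ P := by
      rw [hP]; exact Real.rpow_le_rpow_of_exponent_le (by linarith) (by norm_num)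
    rw [div_le_iff₀ hm0]
    have h6 : A ≤ 80 * 64 * m := by linarith
    calc C1 * ((T0 + i : ℕ) : ℝ) ^ (1 / 20 : ℝ) ≤ C1 * P := by gcongr; linarith
      _ = C1 * (A * Q') := by rw [hPQ]
      _ ≤ C1 * ((80 * 64 * m) * Q') := by gcongr
      _ = _ := by ring
  have h4 : Real.exp (-((s : ℝ) / 18)) ≤ 30720 * Q' := by
    refine le_trans (exp_neg_le_inv (show 0 < (s : ℝ) / 18 by positivity)) ?_
    rw [one_div_div, div_le_iff₀ hs0]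
    have h5 : A ≤ 80 * 64 * m := by linarith
    have h6 : 1 ≤ P := by rw [hP]; exact Real.one_le_rpow (by linarith) (by norm_num)
    have h7 : 1 ≤ (80 * 64 * m) * Q' := by
      calc (1 : ℝ) ≤ A * Q' := by rw [← hPQ]; exact h6
        _ ≤ _ := by gcongr
    rw [hs]
    push_cast
    linarith
  have h5 : 7 / Real.sqrt s1 ≤ 10 / Real.sqrt T0 := by
    rw [div_le_div_iff₀ (Real.sqrt_pos.mpr hs1pos) hsT]
    have h6 : Real.sqrt T0 ≤ Real.sqrt (2 * s1) := Real.sqrt_le_sqrt hs1r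
    rw [Real.sqrt_mul (by norm_num)] at h6
    have h7 : Real.sqrt 2 ≤ 1.4143 := by rw [Real.sqrt_le_left (by norm_num)]; norm_num
    have h8 := Real.sqrt_nonneg (s1 : ℝ)
    have h9 : Real.sqrt 2 * Real.sqrt s1 ≤ 1.4143 * Real.sqrt s1 := by gcongr
    linarith
  have h6 : ∑ M ∈ Finset.Icc (-X) X, (if |Real.log |(M : ℝ)| - (a - mu * ((T0 + i : ℕ) : ℝ))| ≤ 1.1 * (B * Real.sqrt ((T0 + i : ℕ) : ℝ)) + 5 / 4 then
      Φ M * dl m s M / |(M : ℝ)| else 0) ≤ ∑ M ∈ Finset.Icc (-X) X, (if |(a - mu * T0 - Real.log |(M : ℝ)|) - i * mu| ≤ v then g M else 0) := by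
    apply Finset.sum_le_sum
    intro M _
    have h7 : 1.1 * (B * Real.sqrt ((T0 + i : ℕ) : ℝ)) + 5 / 4 ≤ v := by
      rw [hv]
      have h8 : Real.sqrt ((T0 + i : ℕ) : ℝ) ≤ Real.sqrt (2 * T0) := by
        apply Real.sqrt_le_sqrt; push_cast; linarith
      rw [Real.sqrt_mul (by norm_num)] at h8
      have h9 : Real.sqrt 2 ≤ 1.4143 := by rw [Real.sqrt_le_left (by norm_num)]; norm_num
      have h10 : Real.sqrt ((T0 + i : ℕ) : ℝ) ≤ 1.4143 * Real.sqrt T0 := le_trans h8 (by gcongr)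
      have h11 : B * Real.sqrt ((T0 + i : ℕ) : ℝ) ≤ B * (1.4143 * Real.sqrt T0) := by gcongr
      have h12 : 0 ≤ B * Real.sqrt T0 := by positivity
      linarith
    by_cases h8 : |Real.log |(M : ℝ)| - (a - mu * ((T0 + i : ℕ) : ℝ))| ≤ 1.1 * (B * Real.sqrt ((T0 + i : ℕ) : ℝ)) + 5 / 4
    · rw [if_pos h8, if_pos, hg]
      rw [abs_sub_comm] at h8
      rw [show a - mu * T0 - Real.log |(M : ℝ)| - i * mu = a - mu * ((T0 + i : ℕ) : ℝ) - Real.log |(M : ℝ)| by push_cast; ring]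
      exact le_trans h8 h7
    · rw [if_neg h8]
      split_ifs
      · exact hg0 M
      · exact le_rfl
  have h7 : 0 ≤ ∑ M ∈ Finset.Icc (-X) X, (if |Real.log |(M : ℝ)| - (a - mu * ((T0 + i : ℕ) : ℝ))| ≤ 1.1 * (B * Real.sqrt ((T0 + i : ℕ) : ℝ)) + 5 / 4 then
      Φ M * dl m s M / |(M : ℝ)| else 0) := by
    apply Finset.sum_nonneg
    intro M _
    split_ifs
    · exact div_nonneg (mul_nonneg (hΦ.nonneg M) (dl_nonneg m s M)) (abs_nonneg _)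
    · exact le_rfl
  have h8 := mul_le_mul h5 h6 h7 (by positivity)
  have h9 := le_trans hmix h3
  rw [← hQ]
  linarith

/-- the number of admissible times -/
theorem jump_count {A : ℝ} (hA' : 1048576 ≤ A) {T0 : ℕ} (hT1 : (T0 : ℝ) ≤ A / 32) (hT3 : A / 64 ≤ T0) {B : ℝ} (hB1 : 1 ≤ B)
    (hBT : 512 * (B * Real.sqrt T0) ≤ A) {v : ℝ} (hv : v = 1.6 * (B * Real.sqrt T0) + 5 / 4) {G : ℝ} (hG : 0 ≤ G) {a x c0 : ℝ}
    (hc0 : c0 = a - 3 / 2 * mu * T0) :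
    ∑ i ∈ Finset.range T0, (if |(a - mu * T0 - x) - i * mu| ≤ v then G else 0) ≤
      42 * (B * Real.sqrt T0) * (if |x - c0| ≤ A / 32 / 2 then G else 0) := by
  classical
  have hmu := mu_ge
  have hmu' := mu_le'
  have hmu0 := mu_pos
  have hT0pos : (0 : ℝ) < T0 := by linarith
  have hsT1 : 1 ≤ Real.sqrt T0 := by rw [Real.one_le_sqrt]; linarith
  rw [← Finset.sum_filter, Finset.sum_const, nsmul_eq_mul]
  have h12 : 1 ≤ B * Real.sqrt T0 := by nlinarith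
  have hv0 : 0 ≤ v := by rw [hv]; positivity
  by_cases h1 : |x - c0| ≤ A / 32 / 2
  · rw [if_pos h1]
    apply mul_le_mul_of_nonneg_right _ hG
    have h2 := card_short ((Finset.range T0).filter (fun i : ℕ => |(a - mu * T0 - x) - i * mu| ≤ v))
      (a - mu * T0 - x) hmu0 hv0 (by
        intro k hk
        rw [Finset.mem_filter] at hk
        exact hk.2)
    refine le_trans h2 ?_
    have h3 : 2 * v / mu ≤ 2 * v / 0.14 := div_le_div_of_nonneg_left (by positivity) (by norm_num) hmu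
    have h4 : 2 * v / 0.14 ≤ 41 * (B * Real.sqrt T0) := by
      rw [div_le_iff₀ (by norm_num), hv]
      linarith
    linarith
  · rw [if_neg h1, mul_zero]
    apply le_of_eq
    have : (Finset.range T0).filter (fun i : ℕ => |(a - mu * T0 - x) - i * mu| ≤ v) = ∅ := by
      rw [Finset.filter_eq_empty_iff]
      intro i hi hc
      apply h1
      rw [Finset.mem_range] at hi
      have hir : (i : ℝ) ≤ T0 := by exact_mod_cast hi.le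
      have hi0 : (0 : ℝ) ≤ i := by positivity
      have h5 : v ≤ A / 300 := by rw [hv]; linarith
      have h6 : |mu * (i - T0 / 2)| ≤ 0.2 * (T0 / 2) := by
        rw [abs_mul, abs_of_pos hmu0]
        apply mul_le_mul hmu' _ (abs_nonneg _) (by norm_num)
        rw [abs_le]; constructor <;> linarith
      rw [abs_le] at hc h6 ⊢
      rw [hc0]
      constructor <;> linarith
    rw [this]
    simp

/-- the weighted sum at the lower scale -/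
theorem jump_lower {A : ℝ} (hA16 : 2 ^ 16 ≤ A) {T0 m s : ℕ} (hT0 : T0 = ⌊A / 32⌋₊) (hT3 : A / 64 ≤ T0) (hm : m = T0 / 40)
    (hs : s = 3 * m) (hm80 : T0 ≤ 80 * m) (hT1000 : 10 ^ 3 ≤ T0) {Y : ℝ} {Φ : ℤ → ℝ} (hΦ : Inv Φ Y) (hY : 0 ≤ Y)
    (hYA : Y ≤ Real.exp (A / 2)) {X : ℤ} (hX : Real.exp (9 * A) ≤ X) {a : ℝ} (ha1 : 3 / 2 * A ≤ a) (ha2 : a ≤ 3 * A) {t0 : ℕ}
    (ht0 : t0 ≤ T0) {C2 ε c0 : ℝ} (hC2 : 0 < C2) (hc0 : c0 = a - 3 / 2 * mu * T0)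
    (hε : ∀ a, A ≤ a → a ≤ 4 * A → SS Φ X a (A / 32) ≤ A / 32 * ε)
    (Hk : ∀ t m s : ℕ, t0 ≤ t → t ≤ 100 * m → 3 * m ≤ s → 2 * s ≤ t →
    ∀ a W : ℝ, 2 * (t : ℝ) ^ (11 / 20 : ℝ) ≤ W → W ≤ t → 16 * W * 10 ^ t ≤ Real.exp (a - W) →
    ∀ X : ℤ, 2 ^ t * Real.exp (a + W) ≤ X → ∀ Φ : ℤ → ℝ, (∀ N, 0 ≤ Φ N) → (∀ N, Φ N ≤ 1) →
    (∀ N : ℤ, Real.exp (a - W) < |(N : ℝ)| → Φ (T^[t] N) = Φ N) →
    |SS Φ X a W - SD Φ X m s (a - mu * t) W| ≤ C2 * (t : ℝ) ^ (11 / 20 : ℝ)) :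
    SD Φ X m s c0 (A / 32) ≤ A / 32 * ε + C2 * A ^ (11 / 20 : ℝ) := by
  have hA' : (65536 : ℝ) ≤ A := by linarith [show (65536 : ℝ) = 2 ^ 16 by norm_num]
  have hmu := mu_ge
  have hmu' := mu_le'
  have hmu0 := mu_pos
  obtain ⟨t', ht'⟩ : ∃ t', t' = ⌊A / 16⌋₊ := ⟨_, rfl⟩
  have htt : T0 ≤ t' := by
    rw [hT0, ht']; apply Nat.floor_le_floor; linarith
  have hT1 : (T0 : ℝ) ≤ A / 32 := by rw [hT0]; exact Nat.floor_le (by positivity)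
  have hT2 : A / 32 - 1 < T0 := by rw [hT0]; exact Nat.sub_one_lt_floor _
  have ht'1 : (t' : ℝ) ≤ A / 16 := by rw [ht']; exact Nat.floor_le (by positivity)
  have htt2 : t' ≤ 2 * T0 + 2 := by
    have h2 : (t' : ℝ) ≤ ((2 * T0 + 2 : ℕ) : ℝ) := by push_cast; linarith
    exact_mod_cast h2
  have htT : (T0 : ℝ) ≤ t' := by exact_mod_cast htt
  have hm1 : mu * t' ≤ 0.2 * (A / 16) := mul_le_mul hmu' ht'1 (by positivity) (by norm_num)
  have hm2 : mu * T0 ≤ 0.2 * (A / 32) := mul_le_mul hmu' hT1 (by positivity) (by norm_num)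
  have hm3 : 0 ≤ mu * t' := by positivity
  have hm4 : 0 ≤ mu * T0 := by positivity
  have ha'1 : A ≤ c0 + mu * t' := by rw [hc0]; linarith
  have ha'2 : c0 + mu * t' ≤ 4 * A := by rw [hc0]; linarith
  obtain ⟨p1, p2, p3, p4, p5, p6⟩ := scale_ok hA16 ht' ha'1
  have q1 : 2 * (t' : ℝ) ^ (11 / 20 : ℝ) ≤ A / 32 := by
    have : 0 ≤ (t' : ℝ) ^ (11 / 20 : ℝ) := by positivity
    linarith
  have q2 : 16 * (A / 32) * 10 ^ t' ≤ Real.exp (c0 + mu * t' - A / 32) := by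
    refine le_trans ?_ p4
    have : (10 : ℝ) ^ t' ≤ 100 ^ t' := pow_le_pow_left₀ (by norm_num) (by norm_num) _
    gcongr
  have q3 : (2 : ℝ) ^ t' * Real.exp (c0 + mu * t' + A / 32) ≤ X := by
    refine le_trans ?_ hX
    have h1 : (2 : ℝ) ^ t' ≤ Real.exp (2 * t') :=
      le_trans (pow_le_pow_left₀ (by norm_num) (by norm_num) _) (four_pow _)
    calc (2 : ℝ) ^ t' * Real.exp (c0 + mu * t' + A / 32) ≤ Real.exp (2 * t') * Real.exp (c0 + mu * t' + A / 32) := by gcongr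
      _ = Real.exp (2 * t' + (c0 + mu * t' + A / 32)) := (Real.exp_add _ _).symm
      _ ≤ _ := by apply Real.exp_le_exp.mpr; linarith
  have q4 : ∀ N : ℤ, Real.exp (c0 + mu * t' - A / 32) < |(N : ℝ)| → Φ (T^[t'] N) = Φ N := by
    intro N hN
    apply hΦ.iter _ _ _ hY
    refine lt_of_le_of_lt ?_ (lt_trans (p5 Y hYA) hN)
    have : (2 : ℝ) ^ t' ≤ 4 ^ t' := pow_le_pow_left₀ (by norm_num) (by norm_num) _
    gcongr
  have hk := Hk t' m s (by omega) (by omega) (by omega) (by omega) (c0 + mu * t') (A / 32) q1 p2 q2 X q3 Φ hΦ.nonneg hΦ.le_one q4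
  rw [show c0 + mu * t' - mu * t' = c0 by ring, abs_le] at hk
  have h1 := hε _ ha'1 ha'2
  have h2 : C2 * (t' : ℝ) ^ (11 / 20 : ℝ) ≤ C2 * A ^ (11 / 20 : ℝ) := by gcongr
  linarith

/-- **Jump** -/
theorem jump : ∃ C : ℝ, 0 < C ∧ ∃ A2 : ℝ, 2 ^ 20 ≤ A2 ∧ ∀ A : ℝ, A2 ≤ A → ∀ (Y : ℝ) (Φ : ℤ → ℝ), Inv Φ Y → 0 ≤ Y →
    Y ≤ Real.exp (A / 2) → ∀ X : ℤ, Real.exp (9 * A) ≤ X → ∀ ε : ℝ, 0 ≤ ε →
    (∀ a, A ≤ a → a ≤ 4 * A → SS Φ X a (A / 32) ≤ A / 32 * ε) →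
    ∀ a, 3 / 2 * A ≤ a → a ≤ 3 * A → ∀ B : ℝ, 1 ≤ B → B ≤ (A / 64) ^ (1 / 20 : ℝ) →
      SS Φ X a 1 ≤ C * (B * (ε + A ^ (-(9 / 20) : ℝ)) + Real.exp (-(2 * B ^ 2))) := by
  classical
  obtain ⟨C1, hC1, n0, hn0, Hm⟩ := mixing
  obtain ⟨C2, hC2, t0, ht0, Hk⟩ := kernel
  refine ⟨12 + 1680 + 53760 * C2 + (71680 * C1 + 860160), by positivity, max (2 ^ 20) (max (64 * 80 * n0) (64 * t0)), le_max_left _ _, ?_⟩
  intro A hA2 Y Φ hΦ hY hYA X hX ε hε0 hε a ha1 ha2 B hB1 hB2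
  have hA : 2 ^ 20 ≤ A := le_trans (le_max_left _ _) hA2
  have hAn : 64 * 80 * (n0 : ℝ) ≤ A := le_trans (le_trans (le_max_left _ _) (le_max_right _ _)) hA2
  have hAt : 64 * (t0 : ℝ) ≤ A := le_trans (le_trans (le_max_right _ _) (le_max_right _ _)) hA2
  have hA' : (1048576 : ℝ) ≤ A := by linarith [show (1048576 : ℝ) = 2 ^ 20 by norm_num]
  have hA16 : (2 : ℝ) ^ 16 ≤ A := by linarith [show (65536 : ℝ) = 2 ^ 16 by norm_num]
  have hA0 : 0 < A := by linarith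
  obtain ⟨T0, hT0⟩ : ∃ T0, T0 = ⌊A / 32⌋₊ := ⟨_, rfl⟩
  have hT1 : (T0 : ℝ) ≤ A / 32 := by rw [hT0]; exact Nat.floor_le (by positivity)
  have hT2 : A / 32 - 1 < T0 := by rw [hT0]; exact Nat.sub_one_lt_floor _
  have hT3 : A / 64 ≤ T0 := by linarith
  have hT0pos : (0 : ℝ) < T0 := by linarith
  have hTn : 80 * n0 ≤ T0 := by
    have : ((80 * n0 : ℕ) : ℝ) ≤ T0 := by push_cast; linarith
    exact_mod_cast this
  have hTt : t0 ≤ T0 := by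
    have : ((t0 : ℕ) : ℝ) ≤ T0 := by linarith
    exact_mod_cast this
  obtain ⟨m, hm⟩ : ∃ m, m = T0 / 40 := ⟨_, rfl⟩
  obtain ⟨s, hs⟩ : ∃ s, s = 3 * m := ⟨_, rfl⟩
  have hm80 : T0 ≤ 80 * m := by omega
  have hmn : n0 ≤ m := by omega
  have hP512 := rpow_A2 hA
  have hBt : ∀ t : ℕ, T0 ≤ t → B * Real.sqrt t ≤ (t : ℝ) ^ (11 / 20 : ℝ) := by
    intro t ht
    have h1 : (T0 : ℝ) ≤ t := by exact_mod_cast ht
    have h2 : (0 : ℝ) < t := by linarith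
    have h3 : (A / 64) ^ (1 / 20 : ℝ) ≤ (t : ℝ) ^ (1 / 20 : ℝ) := Real.rpow_le_rpow (by positivity) (by linarith) (by norm_num)
    calc B * Real.sqrt t ≤ (t : ℝ) ^ (1 / 20 : ℝ) * Real.sqrt t := by
          apply mul_le_mul_of_nonneg_right (le_trans hB2 h3) (Real.sqrt_nonneg _)
      _ = _ := by rw [Real.sqrt_eq_rpow, ← Real.rpow_add h2]; norm_num
  have hBT : 512 * (B * Real.sqrt T0) ≤ A := by
    have h1 := hBt T0 le_rfl
    have h2 : (T0 : ℝ) ^ (11 / 20 : ℝ) ≤ A ^ (11 / 20 : ℝ) := Real.rpow_le_rpow (by positivity) (by linarith) (by norm_num)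
    linarith
  obtain ⟨g, hg⟩ : ∃ g : ℤ → ℝ, g = fun M => Φ M * dl m s M / |(M : ℝ)| := ⟨_, rfl⟩
  have hg0 : ∀ M, 0 ≤ g M := by
    intro M; rw [hg]
    exact div_nonneg (mul_nonneg (hΦ.nonneg M) (dl_nonneg m s M)) (abs_nonneg _)
  obtain ⟨v, hv⟩ : ∃ v : ℝ, v = 1.6 * (B * Real.sqrt T0) + 5 / 4 := ⟨_, rfl⟩
  obtain ⟨c0, hc0⟩ : ∃ c0 : ℝ, c0 = a - 3 / 2 * mu * T0 := ⟨_, rfl⟩
  have hE : ∀ i ∈ Finset.range T0, SS Φ X a 1 ≤ 12 * Real.exp (-(2 * B ^ 2)) + (71680 * C1 + 860160) * A ^ (-(9 / 20) : ℝ) +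
      10 / Real.sqrt T0 * ∑ M ∈ Finset.Icc (-X) X, (if |(a - mu * T0 - Real.log |(M : ℝ)|) - i * mu| ≤ v then g M else 0) := by
    intro i hi
    rw [Finset.mem_range] at hi
    exact jump_one hA' hT1 hT3 hm hs hm80 (by omega) hi hΦ hY hYA hX ha1 ha2 hB1 hBt hC1 (Hm (T0 + i) m hmn (by omega)) hv hg hg0
  have hcount : ∀ M ∈ Finset.Icc (-X) X, ∑ i ∈ Finset.range T0, (if |(a - mu * T0 - Real.log |(M : ℝ)|) - i * mu| ≤ v then g M else 0) ≤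
      42 * (B * Real.sqrt T0) * (if |Real.log |(M : ℝ)| - c0| ≤ A / 32 / 2 then g M else 0) := by
    intro M _
    exact jump_count hA' hT1 hT3 hB1 hBT hv (hg0 M) hc0
  have hSD := jump_lower hA16 hT0 hT3 hm hs hm80 (by omega) hΦ hY hYA hX ha1 ha2 hTt hC2 hc0 hε Hk
  have hlow := SD_lower hΦ X m s c0 (show 0 < A / 32 by positivity)
  clear Hm Hk hε
  have hlow' : ∑ M ∈ Finset.Icc (-X) X, (if |Real.log |(M : ℝ)| - c0| ≤ A / 32 / 2 then g M else 0) ≤ 2 * SD Φ X m s c0 (A / 32) := by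
    rw [hg]; exact hlow
  have hsum := Finset.sum_le_sum hE
  rw [Finset.sum_const, Finset.card_range, nsmul_eq_mul, Finset.sum_add_distrib, Finset.sum_const, Finset.card_range, nsmul_eq_mul,
    ← Finset.mul_sum, Finset.sum_comm] at hsum
  have hsum2 := Finset.sum_le_sum hcount
  rw [← Finset.mul_sum] at hsum2
  clear hE hcount hlow
  obtain ⟨S1, hS1⟩ : ∃ S1, S1 = ∑ M ∈ Finset.Icc (-X) X, ∑ i ∈ Finset.range T0, (if |(a - mu * T0 - Real.log |(M : ℝ)|) - i * mu| ≤ v then g M else 0) := ⟨_, rfl⟩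
  obtain ⟨S2, hS2⟩ : ∃ S2, S2 = ∑ M ∈ Finset.Icc (-X) X, (if |Real.log |(M : ℝ)| - c0| ≤ A / 32 / 2 then g M else 0) := ⟨_, rfl⟩
  rw [← hS1] at hsum hsum2
  rw [← hS2] at hsum2 hlow'
  obtain ⟨Q', hQ⟩ : ∃ Q' : ℝ, Q' = A ^ (-(9 / 20) : ℝ) := ⟨_, rfl⟩
  have hQ0 : 0 < Q' := by rw [hQ]; exact Real.rpow_pos_of_pos hA0 _
  have hPQ : A ^ (11 / 20 : ℝ) = A * Q' := by
    rw [hQ]
    nth_rewrite 2 [← Real.rpow_one A]
    rw [← Real.rpow_add hA0]; norm_num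
  rw [← hQ] at hsum ⊢
  rw [hPQ] at hSD
  have hsT := Real.sqrt_pos.mpr hT0pos
  obtain ⟨E, hE'⟩ : ∃ E, E = Real.exp (-(2 * B ^ 2)) := ⟨_, rfl⟩
  rw [← hE'] at hsum ⊢
  have e1 : 0 ≤ E := by rw [hE']; exact (Real.exp_pos _).le
  have h10 : 10 / Real.sqrt T0 * S1 ≤ 840 * B * (A / 32 * ε + C2 * (A * Q')) := by
    calc _ ≤ 10 / Real.sqrt T0 * (42 * (B * Real.sqrt T0) * (2 * (A / 32 * ε + C2 * (A * Q')))) := by
          apply mul_le_mul_of_nonneg_left _ (by positivity)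
          refine le_trans hsum2 ?_
          apply mul_le_mul_of_nonneg_left _ (by positivity)
          linarith
      _ = _ := by field_simp; norm_num
  have h14 : 840 * B * (A / 32 * ε + C2 * (A * Q')) ≤ 840 * B * (64 * T0 / 32 * ε + C2 * (64 * T0 * Q')) := by
    have : A ≤ 64 * T0 := by linarith
    gcongr
  have h13 : (T0 : ℝ) * SS Φ X a 1 ≤ T0 * (12 * E + (71680 * C1 + 860160) * Q' + 840 * B * (2 * ε + C2 * (64 * Q'))) := by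
    refine le_trans (le_trans hsum (add_le_add le_rfl (le_trans h10 h14))) (le_of_eq ?_)
    ring
  have h12 := le_of_mul_le_mul_left h13 hT0pos
  refine le_trans h12 ?_
  have hBε : 0 ≤ B * ε := by positivity
  have hBQ : Q' ≤ B * Q' := by nlinarith
  have hBQ0 : 0 ≤ B * Q' := by positivity
  have f1 : (71680 * C1 + 860160) * Q' ≤ (71680 * C1 + 860160) * (B * Q') := by gcongr
  have f2 : 0 ≤ C1 * E := by positivity
  have f3 : 0 ≤ C2 * E := by positivity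
  have f4 : 0 ≤ C1 * (B * ε) := by positivity
  have f5 : 0 ≤ C2 * (B * ε) := by positivity
  linarith

end Pool.Agent.Helper3.TD
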