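import Pool.Agent.Helper3.TD.Base
import Pool.Agent.Helper3.TD.Jump3

/-! The exceptional set has small natural density. -/

namespace Pool.Agent.Helper3.TD

open Pool.Agent.Helper3.ND

theorem find_scale {A a : ℝ} (hA : 0 < A) (ha : 3 / 2 * A ≤ a) : ∃ j : ℕ, 3 / 2 * (2 ^ j * A) ≤ a ∧ a ≤ 3 * (2 ^ j * A) := by
  obtain ⟨q, hq⟩ : ∃ q : ℝ, q = a / (3 / 2 * A) := ⟨_, rfl⟩
  have hq1 : 1 ≤ q := by rw [hq, le_div_iff₀ (by positivity)]; linarith
  have hqa : q * (3 / 2 * A) = a := by rw [hq]; field_simp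
  have hf : ⌊q⌋₊ ≠ 0 := by
    have : 1 ≤ ⌊q⌋₊ := Nat.le_floor (by exact_mod_cast hq1)
    omega
  refine ⟨Nat.log 2 ⌊q⌋₊, ?_, ?_⟩
  · have h1 : 2 ^ Nat.log 2 ⌊q⌋₊ ≤ ⌊q⌋₊ := Nat.pow_log_le_self 2 hf
    have h2 : (2 : ℝ) ^ Nat.log 2 ⌊q⌋₊ ≤ q := le_trans (by exact_mod_cast h1) (Nat.floor_le (by linarith))
    rw [← hqa]
    nlinarith
  · have h1 : ⌊q⌋₊ < 2 ^ (Nat.log 2 ⌊q⌋₊ + 1) := Nat.lt_pow_succ_log_self (by norm_num) _
    have h2 : ((⌊q⌋₊ : ℝ) + 1) ≤ 2 ^ (Nat.log 2 ⌊q⌋₊ + 1) := by exact_mod_cast h1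
    have h3 := (Nat.lt_floor_add_one q).le
    have h4 : q ≤ 2 ^ Nat.log 2 ⌊q⌋₊ * 2 := by
      rw [pow_succ] at h2; linarith
    rw [← hqa]
    nlinarith

/-- narrow windows at all large scales -/
theorem narrow : ∃ C : ℝ, 0 < C ∧ ∃ y0 : ℝ, 1 ≤ y0 ∧ ∀ Y : ℝ, 1 ≤ Y → y0 ≤ Real.log Y → ∀ a : ℝ, 3 * Real.log Y ≤ a →
    ∀ X' : ℤ, ∃ X : ℤ, X' ≤ X ∧ SS (PhiB Y) X a 1 ≤ C * Real.log Y ^ (-(2 / 5) : ℝ) := by
  obtain ⟨K, hK, A1, hA1, Hc⟩ := chain
  obtain ⟨C, hC, A2, hA2, Hj⟩ := jump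
  obtain ⟨F, hF, hF0⟩ : ∃ F : ℝ, F = (Nat.factorial 20 : ℝ) ∧ 0 < F := ⟨_, rfl, by positivity⟩
  obtain ⟨K0, hK0⟩ : ∃ K0 : ℝ, K0 = 2 * 10 ^ 13 * (6 * 44 ^ 3) := ⟨_, rfl⟩
  have hK0p : 0 < K0 := by rw [hK0]; norm_num
  refine ⟨C * (K0 + K + 1 + 4096 * F), by positivity, max A1 A2, ?_, ?_⟩
  · refine le_trans ?_ (le_max_left _ _)
    linarith [show (1 : ℝ) ≤ 2 ^ 16 by norm_num]
  intro Y hY hy a ha X'
  obtain ⟨y, hydef⟩ : ∃ y, y = Real.log Y := ⟨_, rfl⟩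
  rw [← hydef] at hy ha ⊢
  obtain ⟨A, hA⟩ : ∃ A, A = 2 * y := ⟨_, rfl⟩
  have hA1' : A1 ≤ A := by linarith [le_trans (le_max_left A1 A2) hy, show (0 : ℝ) < 2 ^ 16 by norm_num]
  have hA2' : A2 ≤ A := by linarith [le_trans (le_max_right A1 A2) hy, show (0 : ℝ) < 2 ^ 20 by norm_num]
  have hA20 : (2 : ℝ) ^ 20 ≤ A := le_trans hA2 hA2'
  have hA16 : (2 : ℝ) ^ 16 ≤ A := le_trans hA1 hA1'
  have hAr : (1048576 : ℝ) ≤ A := by linarith [show (1048576 : ℝ) = 2 ^ 20 by norm_num]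
  have hA0 : 0 < A := by linarith
  have hYA : Y ≤ Real.exp (A / 2) := by
    rw [hA, hydef, mul_div_cancel_left₀ _ (by norm_num), Real.exp_log (by linarith)]
  have hY22 : Y ^ (-(1 / 22) : ℝ) = Real.exp (-(A / 44)) := by
    rw [Real.rpow_def_of_pos (by linarith), ← hydef]
    congr 1
    rw [hA]; ring
  obtain ⟨Q', hQ⟩ : ∃ Q' : ℝ, Q' = A ^ (-(9 / 20) : ℝ) := ⟨_, rfl⟩
  have hQ0 : 0 < Q' := by rw [hQ]; exact Real.rpow_pos_of_pos hA0 _
  have hinvQ : 1 / A ≤ Q' := by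
    rw [hQ, one_div, ← Real.rpow_neg_one]
    exact Real.rpow_le_rpow_of_exponent_le (by linarith) (by norm_num)
  have hε0 : 2 * 10 ^ 13 * A ^ 2 * Y ^ (-(1 / 22) : ℝ) ≤ K0 * Q' := by
    have h1 := Real.pow_div_factorial_le_exp (A / 44) (by positivity) 3
    have h2 : Real.exp (-(A / 44)) ≤ 6 * 44 ^ 3 / A ^ 3 := by
      rw [Real.exp_neg, inv_le_comm₀ (Real.exp_pos _) (by positivity)]
      refine le_trans (le_of_eq ?_) h1
      rw [inv_div, div_pow]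
      norm_num [Nat.factorial]
      ring
    rw [hY22]
    calc 2 * 10 ^ 13 * A ^ 2 * Real.exp (-(A / 44)) ≤ 2 * 10 ^ 13 * A ^ 2 * (6 * 44 ^ 3 / A ^ 3) := by gcongr
      _ = K0 * (1 / A) := by rw [hK0]; field_simp
      _ ≤ _ := by gcongr
  obtain ⟨j, hj1, hj2⟩ := find_scale hA0 (show 3 / 2 * A ≤ a by linarith)
  obtain ⟨X, hX⟩ : ∃ X, X = max X' ⌈Real.exp (9 * (2 ^ j * A))⌉ := ⟨_, rfl⟩
  have hXr : Real.exp (9 * (2 ^ j * A)) ≤ X := by
    have h1 : ⌈Real.exp (9 * (2 ^ j * A))⌉ ≤ X := by rw [hX]; exact le_max_right _ _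
    exact le_trans (Int.le_ceil _) (by exact_mod_cast h1)
  refine ⟨X, by rw [hX]; exact le_max_left _ _, ?_⟩
  have hinv := PhiB_inv Y
  have hbase : ∀ b, A ≤ b → b ≤ 4 * A → SS (PhiB Y) X b (A / 32) ≤ A / 32 * (K0 * Q') := by
    intro b hb1 hb2
    refine le_trans (base_bound hY hA16 X b hb1 hb2) ?_
    apply mul_le_mul_of_nonneg_left hε0 (by positivity)
  have hch := Hc A hA1' Y (PhiB Y) hinv (by linarith) hYA X (K0 * Q') hbase j hXr
  rw [← hQ] at hch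
  have hle : A ≤ 2 ^ j * A := by
    have : (1 : ℝ) ≤ 2 ^ j := one_le_pow₀ (by norm_num)
    nlinarith
  obtain ⟨B, hB⟩ : ∃ B : ℝ, B = (A / 64) ^ (1 / 20 : ℝ) := ⟨_, rfl⟩
  have hB1 : 1 ≤ B := by rw [hB]; exact Real.one_le_rpow (by linarith) (by norm_num)
  have hB2 : B ≤ (2 ^ j * A / 64) ^ (1 / 20 : ℝ) := by
    rw [hB]; exact Real.rpow_le_rpow (by positivity) (by linarith) (by norm_num)
  have hj := Hj (2 ^ j * A) (le_trans hA2' hle) Y (PhiB Y) hinv (by linarith)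
    (le_trans hYA (Real.exp_le_exp.mpr (by linarith))) X hXr (K0 * Q' + K * Q') (by positivity) hch a hj1 hj2 B hB1 hB2
  refine le_trans hj ?_
  have hQj : (2 ^ j * A) ^ (-(9 / 20) : ℝ) ≤ Q' := by
    rw [hQ]; exact Real.rpow_le_rpow_of_nonpos hA0 hle (by norm_num)
  have hBA : B ≤ A ^ (1 / 20 : ℝ) := by
    rw [hB]; exact Real.rpow_le_rpow (by positivity) (by linarith) (by norm_num)
  have hexp : Real.exp (-(2 * B ^ 2)) ≤ 4096 * F * Q' := by
    have h1 : B ^ 2 = (A / 64) ^ (1 / 10 : ℝ) := by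
      rw [hB, ← Real.rpow_natCast, ← Real.rpow_mul (by positivity)]; norm_num
    have h2 : Real.exp (-(2 * B ^ 2)) ≤ Real.exp (-((A / 64) ^ (1 / 10 : ℝ))) := by
      apply Real.exp_le_exp.mpr
      rw [← h1]
      nlinarith [sq_nonneg B]
    have h3 := exp_tail (t := A / 64) (by linarith)
    rw [← hF] at h3
    have h4 : F / (A / 64) ^ 2 = 4096 * F * (1 / A ^ 2) := by field_simp; norm_num
    have h5 : 1 / A ^ 2 ≤ 1 / A := by
      apply one_div_le_one_div_of_le hA0; nlinarith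
    rw [h4] at h3
    calc _ ≤ _ := h2
      _ ≤ _ := h3
      _ ≤ 4096 * F * Q' := by gcongr; linarith
  have hfin1 : B * Q' ≤ A ^ (-(2 / 5) : ℝ) := by
    calc B * Q' ≤ A ^ (1 / 20 : ℝ) * Q' := by gcongr
      _ = _ := by rw [hQ, ← Real.rpow_add hA0]; norm_num
  have hfin2 : Q' ≤ A ^ (-(2 / 5) : ℝ) := by
    rw [hQ]; exact Real.rpow_le_rpow_of_exponent_le (by linarith) (by norm_num)
  have hfin3 : A ^ (-(2 / 5) : ℝ) ≤ y ^ (-(2 / 5) : ℝ) :=
    Real.rpow_le_rpow_of_nonpos (by linarith) (by linarith) (by norm_num)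
  calc C * (B * (K0 * Q' + K * Q' + (2 ^ j * A) ^ (-(9 / 20) : ℝ)) + Real.exp (-(2 * B ^ 2)))
      ≤ C * (B * (K0 * Q' + K * Q' + Q') + 4096 * F * Q') := by gcongr
    _ = C * ((K0 + K + 1) * (B * Q') + 4096 * F * Q') := by ring
    _ ≤ C * ((K0 + K + 1) * y ^ (-(2 / 5) : ℝ) + 4096 * F * y ^ (-(2 / 5) : ℝ)) := by
        gcongr
        · linarith
        · linarith
    _ = _ := by ring

/-- from narrow windows to counting -/
theorem block {Y : ℝ} {x : ℝ} (hx : 0 < x) {ε : ℝ}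
    (h : ∀ X' : ℤ, ∃ X : ℤ, X' ≤ X ∧ SS (PhiB Y) X (Real.log x - 1 / 2) 1 ≤ ε) :
    cnt Y x ≤ cnt Y (x / Real.exp 1) + 2 * x * ε := by
  classical
  obtain ⟨X, hX1, hX2⟩ := h ⌈x⌉
  have hXx : x ≤ X := le_trans (Int.le_ceil x) (by exact_mod_cast hX1)
  have he : 0 < Real.exp 1 := Real.exp_pos 1
  obtain ⟨S, hS⟩ : ∃ S : Finset ℤ, S = (Finset.Icc (-X) X).filter (fun N : ℤ => (x / Real.exp 1 < |(N : ℝ)| ∧ |(N : ℝ)| ≤ x) ∧ bad Y N) := ⟨_, rfl⟩
  have hsub : {N : ℤ | |(N : ℝ)| ≤ x ∧ bad Y N} ⊆ {N : ℤ | |(N : ℝ)| ≤ x / Real.exp 1 ∧ bad Y N} ∪ (S : Set ℤ) := by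
    rintro N ⟨h1, h2⟩
    rcases le_or_gt |(N : ℝ)| (x / Real.exp 1) with h3 | h3
    · left; exact ⟨h3, h2⟩
    · right
      rw [hS, Finset.mem_coe, Finset.mem_filter, Finset.mem_Icc]
      refine ⟨?_, ⟨h3, h1⟩, h2⟩
      rw [← abs_le]
      have : |(N : ℝ)| ≤ X := le_trans h1 hXx
      exact_mod_cast this
  have h1 : cnt Y x ≤ cnt Y (x / Real.exp 1) + S.card := by
    unfold cnt
    have h2 := Set.ncard_le_ncard hsub ((fin_abs _ _).union (Finset.finite_toSet S))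
    have h3 := Set.ncard_union_le {N : ℤ | |(N : ℝ)| ≤ x / Real.exp 1 ∧ bad Y N} (S : Set ℤ)
    rw [Set.ncard_coe_finset] at h3
    exact_mod_cast le_trans h2 h3
  have h2 : (S.card : ℝ) ≤ 2 * x * SS (PhiB Y) X (Real.log x - 1 / 2) 1 := by
    unfold SS
    have h3 : (S.card : ℝ) = ∑ N ∈ S, (1 : ℝ) := by rw [Finset.sum_const, nsmul_eq_mul, mul_one]
    rw [h3, Finset.mul_sum]
    have h4 : ∑ N ∈ S, (1 : ℝ) ≤ ∑ N ∈ S, 2 * x * (PhiB Y N * om (Real.log x - 1 / 2) 1 N) := by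
      apply Finset.sum_le_sum
      intro N hN
      rw [hS, Finset.mem_filter] at hN
      obtain ⟨_, ⟨h5, h6⟩, h7⟩ := hN
      have hN0 : 0 < |(N : ℝ)| := lt_trans (by positivity) h5
      have e1 : PhiB Y N = 1 := by unfold PhiB; rw [if_pos h7]
      have h8 : Real.log x - 1 < Real.log |(N : ℝ)| := by
        have := Real.log_lt_log (by positivity) h5
        rwa [Real.log_div hx.ne' he.ne', Real.log_exp] at this
      have h9 : Real.log |(N : ℝ)| ≤ Real.log x := Real.log_le_log hN0 h6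
      rw [e1, one_mul]
      unfold om
      have h10 : 1 / 2 ≤ tent ((Real.log |(N : ℝ)| - (Real.log x - 1 / 2)) / 1) := by
        unfold tent
        apply le_max_of_le_right
        rw [div_one]
        have : |Real.log |(N : ℝ)| - (Real.log x - 1 / 2)| ≤ 1 / 2 := by
          rw [abs_le]; constructor <;> linarith
        linarith
      rw [mul_div_assoc', le_div_iff₀ hN0]
      nlinarith
    refine le_trans h4 ?_
    apply Finset.sum_le_sum_of_subset_of_nonneg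
    · rw [hS]; exact Finset.filter_subset _ _
    · intro N _ _
      have := (PhiB_inv Y).nonneg N
      have := om_nonneg (Real.log x - 1 / 2) 1 N
      positivity
  have h3 : 2 * x * SS (PhiB Y) X (Real.log x - 1 / 2) 1 ≤ 2 * x * ε := by gcongr
  linarith

/-- **Natural density theorem**, large thresholds -/
theorem dens_large : ∃ C : ℝ, 0 < C ∧ ∃ y0 : ℝ, 1 ≤ y0 ∧ ∀ Y : ℝ, 2 ≤ Y → y0 ≤ Real.log Y → ∀ x : ℝ, 0 < x →
    cnt Y x ≤ C * x * Real.log Y ^ (-(2 / 5) : ℝ) := by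
  obtain ⟨C, hC, y0, hy0, H⟩ := narrow
  obtain ⟨K, hK⟩ : ∃ K : ℝ, K = 4 * 10 ^ 10 * 16 * (6 * 22 ^ 3) := ⟨_, rfl⟩
  have hKp : 0 < K := by rw [hK]; norm_num
  refine ⟨K + 4 * C, by positivity, y0, hy0, ?_⟩
  intro Y hY hy
  obtain ⟨y, hydef⟩ : ∃ y, y = Real.log Y := ⟨_, rfl⟩
  have H' := H Y (by linarith) hy
  rw [← hydef] at hy H' ⊢
  have hy1 : 1 ≤ y := le_trans hy0 hy
  have hypos : 0 < y := by linarith
  obtain ⟨q, hq⟩ : ∃ q : ℝ, q = y ^ (-(2 / 5) : ℝ) := ⟨_, rfl⟩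
  have hq0 : 0 < q := by rw [hq]; exact Real.rpow_pos_of_pos hypos _
  rw [← hq] at H' ⊢
  have hY22 : Y ^ (-(1 / 22) : ℝ) = Real.exp (-(y / 22)) := by
    rw [Real.rpow_def_of_pos (by linarith), ← hydef]
    congr 1; ring
  have hexp : Real.exp (-(y / 22)) ≤ 6 * 22 ^ 3 / y ^ 3 := by
    have h1 := Real.pow_div_factorial_le_exp (y / 22) (by positivity) 3
    rw [Real.exp_neg, inv_le_comm₀ (Real.exp_pos _) (by positivity)]
    refine le_trans (le_of_eq ?_) h1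
    rw [inv_div, div_pow]
    norm_num [Nat.factorial]
    ring
  have hinvq : 1 / y ≤ q := by
    rw [hq, one_div, ← Real.rpow_neg_one]
    exact Real.rpow_le_rpow_of_exponent_le hy1 (by norm_num)
  have key : ∀ n : ℕ, ∀ x : ℝ, 0 < x → x ≤ Real.exp (3 * y + 1 + n) → cnt Y x ≤ (K + 4 * C) * q * x := by
    intro n
    induction n with
    | zero =>
      intro x hx hx2
      rcases le_or_gt x 2 with h2 | h2
      · rw [cnt_zero (by linarith)]; positivity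
      · have h3 := cnt_le_main x Y h2.le (by linarith)
        have h4 : Real.log x ≤ 4 * y := by
          have := (Real.log_le_iff_le_exp hx).mpr hx2
          simp only [Nat.cast_zero, add_zero] at this
          linarith
        have h5 : 0 ≤ Real.log x := Real.log_nonneg (by linarith)
        rw [hY22] at h3
        calc _ ≤ _ := h3
          _ ≤ 4 * 10 ^ 10 * x * (4 * y) ^ 2 * (6 * 22 ^ 3 / y ^ 3) := by gcongr
          _ = K * (1 / y) * x := by rw [hK]; field_simp; ring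
          _ ≤ K * q * x := by gcongr
          _ ≤ _ := by
              have : 0 ≤ 4 * C * q * x := by positivity
              linarith
    | succ n ih =>
      intro x hx hx2
      rcases le_or_gt x (Real.exp (3 * y + 1 + n)) with h1 | h1
      · exact ih x hx h1
      · have he : 0 < Real.exp 1 := Real.exp_pos 1
        have hlog : 3 * y + 1 + n < Real.log x := by
          rw [Real.lt_log_iff_exp_lt hx]; exact h1
        have hn : (0 : ℝ) ≤ n := by positivity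
        have h2 := block hx (H' (Real.log x - 1 / 2) (by linarith))
        have h3 := ih (x / Real.exp 1) (by positivity) (by
          rw [div_le_iff₀ he, ← Real.exp_add]
          refine le_trans hx2 (Real.exp_le_exp.mpr ?_)
          push_cast; linarith)
        refine le_trans h2 ?_
        have h4 : x / Real.exp 1 ≤ x / 2 := by
          apply div_le_div_of_nonneg_left hx.le (by norm_num)
          have := Real.exp_one_gt_d9; linarith
        calc cnt Y (x / Real.exp 1) + 2 * x * (C * q) ≤ (K + 4 * C) * q * (x / Real.exp 1) + 2 * x * (C * q) := by linarith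
          _ ≤ (K + 4 * C) * q * (x / 2) + 2 * x * (C * q) := by gcongr
          _ ≤ _ := by
              have : 0 ≤ K * q * x := by positivity
              linarith
  intro x hx
  obtain ⟨n, hn⟩ := exists_nat_ge (Real.log x)
  have h1 := key n x hx (by
    rw [← Real.log_le_iff_le_exp hx]; linarith)
  linarith

/-- **Natural density theorem** -/
theorem dens : ∃ C : ℝ, 0 < C ∧ ∀ Y : ℝ, 2 ≤ Y → ∀ x : ℝ, 0 < x →
    cnt Y x ≤ C * x * Real.log Y ^ (-(2 / 5) : ℝ) := by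
  obtain ⟨C, hC, y0, hy0, H⟩ := dens_large
  obtain ⟨p, hp⟩ : ∃ p : ℝ, p = y0 ^ (-(2 / 5) : ℝ) := ⟨_, rfl⟩
  have hp0 : 0 < p := by rw [hp]; exact Real.rpow_pos_of_pos (by linarith) _
  refine ⟨C + 3 / p, by positivity, ?_⟩
  intro Y hY x hx
  have hy : 0 < Real.log Y := Real.log_pos (by linarith)
  have hq0 : 0 < Real.log Y ^ (-(2 / 5) : ℝ) := Real.rpow_pos_of_pos hy _
  rcases le_or_gt y0 (Real.log Y) with h | h
  · refine le_trans (H Y hY h x hx) ?_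
    have : 0 ≤ 3 / p * x * Real.log Y ^ (-(2 / 5) : ℝ) := by positivity
    linarith
  · have h1 : p ≤ Real.log Y ^ (-(2 / 5) : ℝ) := by
      rw [hp]; exact Real.rpow_le_rpow_of_nonpos hy h.le (by norm_num)
    have h2 : cnt Y x ≤ 3 * x := by
      rcases le_or_gt x 1 with h3 | h3
      · rw [cnt_zero (by linarith)]; positivity
      · unfold cnt
        have h4 : {N : ℤ | |(N : ℝ)| ≤ x ∧ bad Y N} ⊆ ((Finset.Icc (-⌊x⌋) ⌊x⌋ : Finset ℤ) : Set ℤ) := by
          rintro N ⟨h5, _⟩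
          rw [Finset.mem_coe, Finset.mem_Icc]
          rw [abs_le] at h5
          refine ⟨?_, Int.le_floor.mpr h5.2⟩
          rw [neg_le]
          apply Int.le_floor.mpr
          push_cast
          linarith
        have h5 := Set.ncard_le_ncard h4 (Finset.finite_toSet _)
        rw [Set.ncard_coe_finset, Int.card_Icc] at h5
        have h6 : 0 ≤ ⌊x⌋ := Int.floor_nonneg.mpr (by linarith)
        have h7 : (((⌊x⌋ + 1 - -⌊x⌋).toNat : ℕ) : ℝ) = 2 * (⌊x⌋ : ℝ) + 1 := by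
          have : (((⌊x⌋ + 1 - -⌊x⌋).toNat : ℕ) : ℤ) = 2 * ⌊x⌋ + 1 := by
            rw [Int.toNat_of_nonneg (by linarith)]; ring
          exact_mod_cast this
        have h8 := Int.floor_le x
        have h9 : (({N : ℤ | |(N : ℝ)| ≤ x ∧ bad Y N}.ncard : ℕ) : ℝ) ≤ 2 * (⌊x⌋ : ℝ) + 1 := by
          rw [← h7]; exact_mod_cast h5
        linarith
    have h3 : 3 * x ≤ 3 / p * x * Real.log Y ^ (-(2 / 5) : ℝ) := by
      calc 3 * x = 3 / p * x * p := by field_simp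
        _ ≤ _ := by gcongr
    have h4 : 0 ≤ C * x * Real.log Y ^ (-(2 / 5) : ℝ) := by positivity
    linarith

end Pool.Agent.Helper3.TD
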