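import Pool.Agent.Helper3.ND.Bad

/-! Splitting a trajectory into first and last steps. -/

namespace Pool.Agent.Helper3.TD

open Pool.Agent.Helper3.ND

theorem cc_shift (u : ℕ) (n m : ℤ) : cc u (n + 2 ^ u * m) = cc u n := by
  have h1 := affine u n
  have h2 := affine u (n + 2 ^ u * m)
  obtain ⟨h3, h4⟩ := shift u n m
  rw [h3, h4] at h2
  linarith

theorem cc_emod (i : ℕ) (n : ℤ) : cc i (n % 2 ^ i) = cc i n := by
  have h := cc_shift i (n % 2 ^ i) (n / 2 ^ i)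
  rw [Int.emod_add_mul_ediv] at h
  exact h.symm

/-- residue modulo `2 ^ u` at time `s` -/
def yy (s u : ℕ) (r : ℤ) : ℕ := (T^[s] r % 2 ^ u).toNat

theorem yy_cast (s u : ℕ) (r : ℤ) : ((yy s u r : ℕ) : ℤ) = T^[s] r % 2 ^ u := by
  unfold yy
  exact Int.toNat_of_nonneg (Int.emod_nonneg _ (by positivity))

theorem yy_lt (s u : ℕ) (r : ℤ) : yy s u r < 2 ^ u := by
  have h1 := yy_cast s u r
  have h2 := Int.emod_lt_of_pos (T^[s] r) (show (0 : ℤ) < 2 ^ u by positivity)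
  rw [← h1] at h2
  exact_mod_cast h2

theorem od_split (s u : ℕ) (r : ℤ) : od (s + u) r = od s r + od u (yy s u r) := by
  rw [od_add, yy_cast, od_emod]

theorem T_split (s u : ℕ) (r : ℤ) : 2 ^ u * T^[s + u] r = 3 ^ od u (yy s u r) * T^[s] r + cc u (yy s u r) := by
  rw [yy_cast, od_emod, cc_emod, add_comm s u, Function.iterate_add_apply]
  exact affine u _

theorem sum_range_pow_add {M : Type*} [AddCommMonoid M] (s u : ℕ) (g : ℕ → M) :
    ∑ r ∈ Finset.range (2 ^ (s + u)), g r = ∑ r1 ∈ Finset.range (2 ^ s), ∑ r2 ∈ Finset.range (2 ^ u), g (r1 + 2 ^ s * r2) := by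
  rw [← Finset.sum_product']
  symm
  have hp : 0 < 2 ^ s := by positivity
  apply Finset.sum_nbij' (fun x : ℕ × ℕ => x.1 + 2 ^ s * x.2) (fun r => (r % 2 ^ s, r / 2 ^ s))
  · rintro ⟨a, b⟩ hab
    rw [Finset.mem_product, Finset.mem_range, Finset.mem_range] at hab
    rw [Finset.mem_range]
    simp only at hab ⊢
    calc a + 2 ^ s * b < 2 ^ s + 2 ^ s * b := by omega
      _ = 2 ^ s * (b + 1) := by ring
      _ ≤ 2 ^ s * 2 ^ u := Nat.mul_le_mul_left _ hab.2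
      _ = 2 ^ (s + u) := by rw [pow_add]
  · intro r hr
    rw [Finset.mem_range] at hr
    rw [Finset.mem_product, Finset.mem_range, Finset.mem_range]
    refine ⟨Nat.mod_lt _ hp, ?_⟩
    rw [Nat.div_lt_iff_lt_mul hp]
    rw [pow_add, mul_comm] at hr
    exact hr
  · rintro ⟨a, b⟩ hab
    rw [Finset.mem_product, Finset.mem_range, Finset.mem_range] at hab
    simp only at hab ⊢
    rw [Nat.add_mul_mod_self_left, Nat.mod_eq_of_lt hab.1, Nat.add_mul_div_left _ _ hp, Nat.div_eq_of_lt hab.1, zero_add]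
  · intro r _
    simp only
    exact Nat.mod_add_div r (2 ^ s)
  · rintro ⟨a, b⟩ _
    rfl

/-- multiplication by a power of three permutes residues modulo `2 ^ u` -/
theorem sum_equi {M : Type*} [AddCommMonoid M] (u m : ℕ) (a : ℤ) (f : ℕ → M) :
    ∑ r ∈ Finset.range (2 ^ u), f (((a + 3 ^ m * (r : ℤ)) % 2 ^ u).toNat) = ∑ y ∈ Finset.range (2 ^ u), f y := by
  have hp : (0 : ℤ) < 2 ^ u := by positivity
  have hcast : ∀ r : ℕ, ((((a + 3 ^ m * (r : ℤ)) % 2 ^ u).toNat : ℕ) : ℤ) = (a + 3 ^ m * (r : ℤ)) % 2 ^ u := fun r =>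
    Int.toNat_of_nonneg (Int.emod_nonneg _ hp.ne')
  have hmem : ∀ r ∈ Finset.range (2 ^ u), ((a + 3 ^ m * (r : ℤ)) % 2 ^ u).toNat ∈ Finset.range (2 ^ u) := by
    intro r _
    rw [Finset.mem_range]
    have h1 := Int.emod_lt_of_pos (a + 3 ^ m * (r : ℤ)) hp
    rw [← hcast] at h1
    exact_mod_cast h1
  have hinj : Set.InjOn (fun r : ℕ => ((a + 3 ^ m * (r : ℤ)) % 2 ^ u).toNat) (Finset.range (2 ^ u) : Set ℕ) := by
    intro r hr r' hr' h
    rw [Finset.coe_range, Set.mem_Iio] at hr hr'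
    simp only at h
    have h1 : (a + 3 ^ m * (r : ℤ)) % 2 ^ u = (a + 3 ^ m * (r' : ℤ)) % 2 ^ u := by
      rw [← hcast r, ← hcast r', h]
    have h2 : (2 : ℤ) ^ u ∣ (a + 3 ^ m * (r : ℤ)) - (a + 3 ^ m * (r' : ℤ)) :=
      Int.ModEq.dvd h1.symm
    have h3 : (a + 3 ^ m * (r : ℤ)) - (a + 3 ^ m * (r' : ℤ)) = 3 ^ m * ((r : ℤ) - r') := by ring
    rw [h3] at h2
    have h4 : (2 : ℤ) ^ u ∣ (r : ℤ) - r' := by
      apply IsCoprime.dvd_of_dvd_mul_left _ h2
      apply IsCoprime.pow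
      norm_num [Int.isCoprime_iff_gcd_eq_one]
    have h5 : |(r : ℤ) - r'| < 2 ^ u := by
      rw [abs_lt]
      have a1 : (r : ℤ) < 2 ^ u := by exact_mod_cast hr
      have a2 : (r' : ℤ) < 2 ^ u := by exact_mod_cast hr'
      constructor <;> linarith [Int.natCast_nonneg r, Int.natCast_nonneg r']
    have h6 := Int.eq_zero_of_abs_lt_dvd h4 h5
    omega
  have himg : (Finset.range (2 ^ u)).image (fun r : ℕ => ((a + 3 ^ m * (r : ℤ)) % 2 ^ u).toNat) = Finset.range (2 ^ u) := by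
    apply Finset.eq_of_subset_of_card_le
    · intro y hy
      rw [Finset.mem_image] at hy
      obtain ⟨r, hr, rfl⟩ := hy
      exact hmem r hr
    · rw [Finset.card_image_of_injOn hinj]
  conv_rhs => rw [← himg]
  rw [Finset.sum_image hinj]

/-- independence of the first `s` digits and the residue at time `s` -/
theorem sum_split {M : Type*} [AddCommMonoid M] (s u : ℕ) (f : ℕ → ℕ → M) :
    ∑ r ∈ Finset.range (2 ^ (s + u)), f (r % 2 ^ s) (yy s u r) =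
      ∑ r1 ∈ Finset.range (2 ^ s), ∑ y ∈ Finset.range (2 ^ u), f r1 y := by
  rw [sum_range_pow_add]
  apply Finset.sum_congr rfl
  intro r1 hr1
  rw [Finset.mem_range] at hr1
  rw [← sum_equi u (od s r1) (T^[s] (r1 : ℤ)) (fun y => f r1 y)]
  apply Finset.sum_congr rfl
  intro r2 _
  rw [Nat.add_mul_mod_self_left, Nat.mod_eq_of_lt hr1]
  congr 1
  unfold yy
  have h1 := (shift s (r1 : ℤ) (r2 : ℤ)).2
  rw [← h1]
  push_cast
  rfl

theorem emod_T (s : ℕ) (r : ℕ) : ∃ m : ℤ, T^[s] (r : ℤ) = T^[s] ((r % 2 ^ s : ℕ) : ℤ) + 3 ^ od s (r : ℤ) * m := by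
  refine ⟨((r / 2 ^ s : ℕ) : ℤ), ?_⟩
  have h0 : ((r : ℕ) : ℤ) = ((r % 2 ^ s : ℕ) : ℤ) + 2 ^ s * ((r / 2 ^ s : ℕ) : ℤ) := by
    have := Nat.mod_add_div r (2 ^ s)
    exact_mod_cast this.symm
  obtain ⟨h1, h2⟩ := shift s ((r % 2 ^ s : ℕ) : ℤ) ((r / 2 ^ s : ℕ) : ℤ)
  rw [← h0] at h1 h2
  rw [h2, h1]

theorem od_mod (s : ℕ) (r : ℕ) : od s (r : ℤ) = od s ((r % 2 ^ s : ℕ) : ℤ) := by
  have := od_emod s (r : ℤ)
  rw [← this]
  push_cast
  rfl

end Pool.Agent.Helper3.TD
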