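import Pool.Agent.Helper3.TD.Typ

/-! Averages over the number of odd steps. -/

namespace Pool.Agent.Helper3.TD

open Pool.Agent.Helper3.ND

/-- average over the number of odd steps in `n` steps -/
noncomputable def Eo (n : ℕ) (g : ℕ → ℝ) : ℝ := (∑ r ∈ Finset.range (2 ^ n), g (od n (r : ℤ))) / 2 ^ n

theorem sum_od_succ (n : ℕ) (g : ℕ → ℝ) : ∑ r ∈ Finset.range (2 ^ (n + 1)), g (od (n + 1) (r : ℤ)) =
    ∑ r ∈ Finset.range (2 ^ n), (g (od n (r : ℤ)) + g (od n (r : ℤ) + 1)) := sum_last n (fun k _ => g k)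

theorem Eo_mono {n : ℕ} {g h : ℕ → ℝ} (H : ∀ j, g j ≤ h j) : Eo n g ≤ Eo n h := by
  unfold Eo
  gcongr
  exact H _

theorem Eo_mono' {n : ℕ} {g h : ℕ → ℝ} (H : ∀ j ≤ n, g j ≤ h j) : Eo n g ≤ Eo n h := by
  unfold Eo
  gcongr
  exact H _ (od_le n _)

theorem Eo_add_fun (n : ℕ) (g h : ℕ → ℝ) : Eo n (fun j => g j + h j) = Eo n g + Eo n h := by
  unfold Eo
  rw [Finset.sum_add_distrib, add_div]

theorem Eo_sub_fun (n : ℕ) (g h : ℕ → ℝ) : Eo n (fun j => g j - h j) = Eo n g - Eo n h := by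
  unfold Eo
  rw [Finset.sum_sub_distrib, sub_div]

theorem Eo_mul (n : ℕ) (c : ℝ) (g : ℕ → ℝ) : Eo n (fun j => c * g j) = c * Eo n g := by
  unfold Eo
  rw [← Finset.mul_sum, mul_div_assoc]

theorem Eo_const (n : ℕ) (c : ℝ) : Eo n (fun _ => c) = c := by
  unfold Eo
  rw [Finset.sum_const, Finset.card_range, nsmul_eq_mul]
  push_cast
  field_simp

theorem Eo_abs (n : ℕ) (g : ℕ → ℝ) : |Eo n g| ≤ Eo n (fun j => |g j|) := by
  unfold Eo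
  rw [abs_div, abs_of_pos (show (0 : ℝ) < 2 ^ n by positivity)]
  gcongr
  exact Finset.abs_sum_le_sum_abs _ _

theorem Eo_abs_le {n : ℕ} {g : ℕ → ℝ} {c : ℝ} (h : ∀ j ≤ n, |g j| ≤ c) : |Eo n g| ≤ c := by
  refine le_trans (Eo_abs n g) ?_
  rw [← Eo_const n c]
  exact Eo_mono' h

/-- semigroup property -/
theorem Eo_add (n p : ℕ) (g : ℕ → ℝ) : Eo (n + p) g = Eo n (fun i => Eo p (fun j => g (i + j))) := by
  unfold Eo
  have h1 : ∑ r ∈ Finset.range (2 ^ (n + p)), g (od (n + p) (r : ℤ)) =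
      ∑ r ∈ Finset.range (2 ^ (n + p)), (fun (a b : ℕ) => g (od n (a : ℤ) + od p (b : ℤ))) (r % 2 ^ n) (yy n p r) := by
    apply Finset.sum_congr rfl
    intro r _
    simp only
    rw [od_split n p (r : ℤ), od_mod n r]
  rw [h1, sum_split n p (fun (a b : ℕ) => g (od n (a : ℤ) + od p (b : ℤ))), ← Finset.sum_div, pow_add, div_div,
    mul_comm ((2 : ℝ) ^ p)]

theorem Eo_succ (n : ℕ) (g : ℕ → ℝ) : Eo (n + 1) g = 1 / 2 * Eo n g + 1 / 2 * Eo n (fun j => g (j + 1)) := by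
  unfold Eo
  rw [sum_od_succ, Finset.sum_add_distrib, pow_succ]
  field_simp

theorem second_moment (n : ℕ) : ∑ r ∈ Finset.range (2 ^ n), (2 * (od n (r : ℤ) : ℝ) - (n : ℝ)) ^ 2 = (n : ℝ) * 2 ^ n := by
  induction n with
  | zero => simp [od]
  | succ n ih =>
    rw [sum_od_succ n (fun k => (2 * (k : ℝ) - ((n + 1 : ℕ) : ℝ)) ^ 2)]
    have h1 : ∀ r ∈ Finset.range (2 ^ n), ((2 * ((od n (r : ℤ) : ℕ) : ℝ) - ((n + 1 : ℕ) : ℝ)) ^ 2 +
        (2 * (((od n (r : ℤ) + 1 : ℕ)) : ℝ) - ((n + 1 : ℕ) : ℝ)) ^ 2) = 2 * (2 * (od n (r : ℤ) : ℝ) - n) ^ 2 + 2 := by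
      intro r _
      push_cast
      ring
    rw [Finset.sum_congr rfl h1, Finset.sum_add_distrib, ← Finset.mul_sum, ih, Finset.sum_const, Finset.card_range, nsmul_eq_mul, pow_succ]
    push_cast
    ring

theorem first_moment (n : ℕ) : Eo n (fun j => |2 * (j : ℝ) - n|) ≤ Real.sqrt n := by
  unfold Eo
  rw [div_le_iff₀ (by positivity)]
  have h1 := Finset.sum_mul_sq_le_sq_mul_sq (Finset.range (2 ^ n)) (fun r : ℕ => |2 * (od n (r : ℤ) : ℝ) - n|) (fun _ => (1 : ℝ))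
  simp only [mul_one, one_pow, sq_abs] at h1
  rw [second_moment, Finset.sum_const, Finset.card_range, nsmul_eq_mul, mul_one] at h1
  push_cast at h1
  have h2 : (∑ r ∈ Finset.range (2 ^ n), |2 * (od n (r : ℤ) : ℝ) - n|) ^ 2 ≤ (Real.sqrt n * 2 ^ n) ^ 2 := by
    rw [mul_pow, Real.sq_sqrt (by positivity)]
    linarith
  exact (abs_le_of_sq_le_sq' h2 (by positivity)).2

/-- summation by parts -/
theorem parts (n : ℕ) : ∀ g : ℕ → ℝ, ∑ r ∈ Finset.range (2 ^ (n + 1)), (2 * (od (n + 1) (r : ℤ) : ℝ) - ((n + 1 : ℕ) : ℝ)) * g (od (n + 1) (r : ℤ)) =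
    ((n + 1 : ℕ) : ℝ) * ∑ r ∈ Finset.range (2 ^ n), (g (od n (r : ℤ) + 1) - g (od n (r : ℤ))) := by
  induction n with
  | zero =>
    intro g
    rw [sum_od_succ 0 (fun k => (2 * (k : ℝ) - ((0 + 1 : ℕ) : ℝ)) * g k)]
    simp [od]
    ring
  | succ n ih =>
    intro g
    rw [sum_od_succ (n + 1) (fun k => (2 * (k : ℝ) - ((n + 1 + 1 : ℕ) : ℝ)) * g k)]
    have h1 : ∀ r ∈ Finset.range (2 ^ (n + 1)), ((2 * ((od (n + 1) (r : ℤ) : ℕ) : ℝ) - ((n + 1 + 1 : ℕ) : ℝ)) * g (od (n + 1) (r : ℤ)) +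
        (2 * ((od (n + 1) (r : ℤ) + 1 : ℕ) : ℝ) - ((n + 1 + 1 : ℕ) : ℝ)) * g (od (n + 1) (r : ℤ) + 1)) =
        (2 * (od (n + 1) (r : ℤ) : ℝ) - ((n + 1 : ℕ) : ℝ)) * (g (od (n + 1) (r : ℤ)) + g (od (n + 1) (r : ℤ) + 1)) +
          (g (od (n + 1) (r : ℤ) + 1) - g (od (n + 1) (r : ℤ))) := by
      intro r _
      push_cast
      ring
    rw [Finset.sum_congr rfl h1, Finset.sum_add_distrib, ih (fun k => g k + g (k + 1)),
      sum_od_succ n (fun k => g (k + 1) - g k)]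
    have h2 : ∀ r ∈ Finset.range (2 ^ n), (g (od n (r : ℤ) + 1) + g (od n (r : ℤ) + 1 + 1) - (g (od n (r : ℤ)) + g (od n (r : ℤ) + 1))) =
        (g (od n (r : ℤ) + 1) - g (od n (r : ℤ)) + (g (od n (r : ℤ) + 1 + 1) - g (od n (r : ℤ) + 1))) := by
      intro r _; ring
    rw [Finset.sum_congr rfl h2]
    push_cast
    ring

/-- the average changes little under a shift -/
theorem Eo_shift (n : ℕ) {g : ℕ → ℝ} {c : ℝ} (hc : 0 ≤ c) (h : ∀ j ≤ n + 1, |g j| ≤ c) :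
    |Eo n (fun j => g (j + 1)) - Eo n g| ≤ 2 * c / Real.sqrt ((n + 1 : ℕ) : ℝ) := by
  have hN : (0 : ℝ) < ((n + 1 : ℕ) : ℝ) := by positivity
  have hsq := Real.sqrt_pos.mpr hN
  have h1 := parts n g
  have h2 : Eo n (fun j => g (j + 1)) - Eo n g =
      2 / ((n + 1 : ℕ) : ℝ) * Eo (n + 1) (fun j => (2 * (j : ℝ) - ((n + 1 : ℕ) : ℝ)) * g j) := by
    rw [← Eo_sub_fun]
    unfold Eo
    rw [h1, pow_succ]
    field_simp
  rw [h2, abs_mul, abs_of_pos (show 0 < 2 / ((n + 1 : ℕ) : ℝ) by positivity)]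
  have h3 : |Eo (n + 1) (fun j => (2 * (j : ℝ) - ((n + 1 : ℕ) : ℝ)) * g j)| ≤ c * Real.sqrt ((n + 1 : ℕ) : ℝ) := by
    refine le_trans (Eo_abs _ _) ?_
    calc Eo (n + 1) (fun j => |(2 * (j : ℝ) - ((n + 1 : ℕ) : ℝ)) * g j|)
        ≤ Eo (n + 1) (fun j => c * |2 * (j : ℝ) - ((n + 1 : ℕ) : ℝ)|) := by
          apply Eo_mono'
          intro j hj
          rw [abs_mul, mul_comm]
          exact mul_le_mul_of_nonneg_right (h j hj) (abs_nonneg _)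
      _ = c * Eo (n + 1) (fun j => |2 * (j : ℝ) - ((n + 1 : ℕ) : ℝ)|) := Eo_mul _ _ _
      _ ≤ _ := mul_le_mul_of_nonneg_left (first_moment (n + 1)) hc
  calc 2 / ((n + 1 : ℕ) : ℝ) * |Eo (n + 1) (fun j => (2 * (j : ℝ) - ((n + 1 : ℕ) : ℝ)) * g j)|
      ≤ 2 / ((n + 1 : ℕ) : ℝ) * (c * Real.sqrt ((n + 1 : ℕ) : ℝ)) := by gcongr
    _ = 2 * c / Real.sqrt ((n + 1 : ℕ) : ℝ) := by
        rw [div_mul_eq_mul_div, div_eq_div_iff hN.ne' hsq.ne']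
        have := Real.mul_self_sqrt hN.le
        linear_combination 2 * c * this

end Pool.Agent.Helper3.TD
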