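import Mathlib

/-! The lazy walk on heights: each step adds `0, 1, 2` with probabilities `1/4, 1/2, 1/4`. -/

namespace Pool.Agent.Helper3.TD

/-- one step average -/
noncomputable def av (f : ℕ → ℝ) (h : ℕ) : ℝ := (f h + 2 * f (h + 1) + f (h + 2)) / 4

/-- `n` step average -/
noncomputable def W : ℕ → (ℕ → ℝ) → ℕ → ℝ
  | 0, f => f
  | n + 1, f => av (W n f)

theorem W_zero (f : ℕ → ℝ) : W 0 f = f := rfl

theorem W_succ (n : ℕ) (f : ℕ → ℝ) (h : ℕ) :
    W (n + 1) f h = (W n f h + 2 * W n f (h + 1) + W n f (h + 2)) / 4 := rfl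

theorem av_mono {f g : ℕ → ℝ} {h : ℕ} (h0 : f h ≤ g h) (h1 : f (h + 1) ≤ g (h + 1))
    (h2 : f (h + 2) ≤ g (h + 2)) : av f h ≤ av g h := by
  unfold av; linarith

/-- monotone on the reachable range -/
theorem W_mono_on (n : ℕ) : ∀ {f g : ℕ → ℝ} {h : ℕ}, (∀ h', h ≤ h' → h' ≤ h + 2 * n → f h' ≤ g h') →
    W n f h ≤ W n g h := by
  induction n with
  | zero => intro f g h H; exact H h le_rfl (by omega)
  | succ n ih =>
    intro f g h H
    rw [W_succ, W_succ]
    have a0 := ih (f := f) (g := g) (h := h) (fun h' h1 h2 => H h' (by omega) (by omega))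
    have a1 := ih (f := f) (g := g) (h := h + 1) (fun h' h1 h2 => H h' (by omega) (by omega))
    have a2 := ih (f := f) (g := g) (h := h + 2) (fun h' h1 h2 => H h' (by omega) (by omega))
    linarith

theorem W_mono (n : ℕ) {f g : ℕ → ℝ} (H : ∀ h', f h' ≤ g h') (h : ℕ) : W n f h ≤ W n g h :=
  W_mono_on n (fun h' _ _ => H h')

theorem W_const (n : ℕ) (c : ℝ) (h : ℕ) : W n (fun _ => c) h = c := by
  induction n generalizing h with
  | zero => rfl
  | succ n ih => rw [W_succ, ih, ih, ih]; ring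

theorem W_add (n : ℕ) (f g : ℕ → ℝ) (h : ℕ) : W n (fun x => f x + g x) h = W n f h + W n g h := by
  induction n generalizing h with
  | zero => rfl
  | succ n ih => rw [W_succ, W_succ, W_succ, ih, ih, ih]; ring

theorem W_smul (n : ℕ) (c : ℝ) (f : ℕ → ℝ) (h : ℕ) : W n (fun x => c * f x) h = c * W n f h := by
  induction n generalizing h with
  | zero => rfl
  | succ n ih => rw [W_succ, W_succ, ih, ih, ih]; ring

theorem W_comp (m n : ℕ) (f : ℕ → ℝ) (h : ℕ) : W (m + n) f h = W m (W n f) h := by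
  induction m generalizing h with
  | zero => simp [W_zero]
  | succ m ih =>
    have e : m + 1 + n = (m + n) + 1 := by ring
    rw [e, W_succ, W_succ, ih, ih, ih]

theorem W_succ' (n : ℕ) (f : ℕ → ℝ) (h : ℕ) : W (n + 1) f h = W n (av f) h := by
  rw [W_comp n 1 f h]; rfl

theorem W_nonneg (n : ℕ) {f : ℕ → ℝ} (H : ∀ h', 0 ≤ f h') (h : ℕ) : 0 ≤ W n f h := by
  have := W_mono n (f := fun _ => 0) (g := f) H h
  rwa [W_const] at this

theorem W_le_one (n : ℕ) {f : ℕ → ℝ} (H : ∀ h', f h' ≤ 1) (h : ℕ) : W n f h ≤ 1 := by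
  have := W_mono n (f := f) (g := fun _ => 1) H h
  rwa [W_const] at this

/-- binomial formula -/
theorem W_eq (n : ℕ) (f : ℕ → ℝ) (h : ℕ) :
    W n f h = (∑ i ∈ Finset.range (2 * n + 1), ((2 * n).choose i : ℝ) * f (h + i)) / 4 ^ n := by
  have key : ∀ m : ℕ, ∀ f : ℕ → ℝ, ∀ h : ℕ, ∑ i ∈ Finset.range (m + 2), ((m + 1).choose i : ℝ) * f (h + i) =
      ∑ i ∈ Finset.range (m + 1), (m.choose i : ℝ) * (f (h + i) + f (h + 1 + i)) := by
    intro m f h
    rw [Finset.sum_range_succ']
    simp only [Nat.choose_succ_succ, Nat.cast_add, add_mul, Finset.sum_add_distrib, Nat.choose_zero_right,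
      Nat.cast_one, one_mul, add_zero, mul_add]
    have e1 : ∑ i ∈ Finset.range (m + 1), ((m.choose (i + 1) : ℕ) : ℝ) * f (h + (i + 1)) + f h =
        ∑ i ∈ Finset.range (m + 1), ((m.choose i : ℕ) : ℝ) * f (h + i) := by
      have := Finset.sum_range_succ' (fun i => ((m.choose i : ℕ) : ℝ) * f (h + i)) (m + 1)
      rw [Finset.sum_range_succ] at this
      simp only [Nat.choose_succ_self, Nat.cast_zero, zero_mul, add_zero, Nat.choose_zero_right,
        Nat.cast_one, one_mul] at this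
      linarith
    have e2 : ∑ i ∈ Finset.range (m + 1), ((m.choose i : ℕ) : ℝ) * f (h + (i + 1)) =
        ∑ i ∈ Finset.range (m + 1), ((m.choose i : ℕ) : ℝ) * f (h + 1 + i) := by
      apply Finset.sum_congr rfl; intro i _; congr 2; ring
    linarith
  induction n generalizing f h with
  | zero => simp [W_zero]
  | succ n ih =>
    rw [W_succ', ih]
    have e : 2 * (n + 1) + 1 = (2 * n + 1) + 2 := by ring
    have e' : 2 * (n + 1) = (2 * n + 1) + 1 := by ring
    rw [e, e', key (2 * n + 1) f h]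
    have k2 := key (2 * n) (fun x => f x + f (x + 1)) h
    have e3 : ∑ i ∈ Finset.range (2 * n + 1 + 1), (((2 * n + 1).choose i : ℕ) : ℝ) * (f (h + i) + f (h + 1 + i)) =
        ∑ i ∈ Finset.range (2 * n + 2), (((2 * n + 1).choose i : ℕ) : ℝ) * (f (h + i) + f (h + i + 1)) := by
      apply Finset.sum_congr rfl; intro i _
      rw [show h + 1 + i = h + i + 1 by ring]
    rw [e3, k2, pow_succ, eq_div_iff (by positivity), div_mul_eq_mul_div, div_eq_iff (by positivity),
      Finset.sum_mul, Finset.sum_mul]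
    apply Finset.sum_congr rfl
    intro i _
    unfold av
    rw [show h + 1 + i = h + i + 1 by ring, show h + i + 1 + 1 = h + i + 2 by ring]
    ring

/-- central binomial bound -/
theorem central (n : ℕ) : (2 * n).choose n ^ 2 * (2 * n + 1) ≤ 16 ^ n := by
  induction n with
  | zero => simp
  | succ n ih =>
    have h1 := Nat.succ_mul_centralBinom_succ n
    rw [Nat.centralBinom, Nat.centralBinom] at h1
    have h2 : (n + 1) ^ 2 * ((2 * (n + 1)).choose (n + 1) ^ 2 * (2 * (n + 1) + 1)) ≤ (n + 1) ^ 2 * 16 ^ (n + 1) := by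
      calc (n + 1) ^ 2 * ((2 * (n + 1)).choose (n + 1) ^ 2 * (2 * (n + 1) + 1))
          = ((n + 1) * (2 * (n + 1)).choose (n + 1)) ^ 2 * (2 * n + 3) := by ring
        _ = (2 * (2 * n + 1) * (2 * n).choose n) ^ 2 * (2 * n + 3) := by rw [h1]
        _ = ((2 * n).choose n ^ 2 * (2 * n + 1)) * (4 * ((2 * n + 1) * (2 * n + 3))) := by ring
        _ ≤ 16 ^ n * (4 * ((2 * n + 1) * (2 * n + 3))) := Nat.mul_le_mul_right _ ih
        _ ≤ 16 ^ n * (4 * (4 * (n + 1) ^ 2)) := by
            apply Nat.mul_le_mul_left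
            apply Nat.mul_le_mul_left
            nlinarith
        _ = _ := by ring
    exact Nat.le_of_mul_le_mul_left h2 (by positivity)

theorem central_real (n : ℕ) : ((2 * n).choose n : ℝ) / 4 ^ n ≤ 1 / Real.sqrt (2 * n + 1) := by
  have h1 : (((2 * n).choose n : ℝ)) ^ 2 * (2 * n + 1) ≤ 16 ^ n := by exact_mod_cast central n
  have h2 : (0 : ℝ) < 2 * n + 1 := by positivity
  have h3 : 0 < Real.sqrt (2 * n + 1) := Real.sqrt_pos.mpr h2
  rw [div_le_div_iff₀ (by positivity) h3, one_mul]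
  apply le_of_sq_le_sq _ (by positivity)
  rw [mul_pow, Real.sq_sqrt h2.le]
  calc (((2 * n).choose n : ℝ)) ^ 2 * (2 * n + 1) ≤ 16 ^ n := h1
    _ = _ := by rw [← pow_mul, mul_comm n 2, pow_mul]; norm_num

theorem choose_le_central (n i : ℕ) : (2 * n).choose i ≤ (2 * n).choose n := Nat.choose_le_centralBinom i n

/-- bound for the probability of hitting a finite set -/
theorem W_indicator_le (n : ℕ) (Z : Finset ℕ) (f : ℕ → ℝ) (h : ℕ) (hf : ∀ x, f x ≤ if x ∈ Z then 1 else 0) :
    W n f h ≤ Z.card / Real.sqrt (2 * n + 1) := by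
  have h1 : W n f h ≤ W n (fun x => if x ∈ Z then 1 else 0) h := W_mono n hf h
  refine le_trans h1 ?_
  rw [W_eq]
  have h2 : ∑ i ∈ Finset.range (2 * n + 1), ((2 * n).choose i : ℝ) * (if h + i ∈ Z then 1 else 0) ≤
      Z.card * ((2 * n).choose n : ℝ) := by
    have h3 : ∀ i ∈ Finset.range (2 * n + 1), ((2 * n).choose i : ℝ) * (if h + i ∈ Z then 1 else 0) ≤
        ((2 * n).choose n : ℝ) * (if h + i ∈ Z then 1 else 0) := by
      intro i _
      apply mul_le_mul_of_nonneg_right
      · exact_mod_cast choose_le_central n i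
      · split_ifs <;> norm_num
    refine le_trans (Finset.sum_le_sum h3) ?_
    rw [← Finset.mul_sum, mul_comm]
    apply mul_le_mul_of_nonneg_right _ (by positivity)
    rw [← Finset.sum_filter, Finset.sum_const, nsmul_eq_mul, mul_one]
    have h4 : ((Finset.range (2 * n + 1)).filter (fun i => h + i ∈ Z)).card ≤ Z.card := by
      apply Finset.card_le_card_of_injOn (fun i => h + i)
      · intro i hi
        simp only [Finset.coe_filter, Set.mem_ofPred_eq] at hi
        exact hi.2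
      · intro i _ j _ hij
        simpa using hij
    exact_mod_cast h4
  calc (∑ i ∈ Finset.range (2 * n + 1), ((2 * n).choose i : ℝ) * (if h + i ∈ Z then 1 else 0)) / 4 ^ n
      ≤ (Z.card * ((2 * n).choose n : ℝ)) / 4 ^ n := by gcongr
    _ = Z.card * (((2 * n).choose n : ℝ) / 4 ^ n) := by ring
    _ ≤ Z.card * (1 / Real.sqrt (2 * n + 1)) := by
        apply mul_le_mul_of_nonneg_left (central_real n) (by positivity)
    _ = _ := by ring

/-- exponential moments -/
theorem W_exp (n : ℕ) (l : ℝ) (h : ℕ) :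
    W n (fun x => Real.exp (l * x)) h = Real.exp (l * h) * (((1 + Real.exp l) / 2) ^ 2) ^ n := by
  induction n generalizing h with
  | zero => simp [W_zero]
  | succ n ih =>
    rw [W_succ, ih, ih, ih]
    push_cast
    rw [mul_add, mul_add, Real.exp_add, Real.exp_add, mul_one, pow_succ, show l * 2 = l + l by ring, Real.exp_add]
    ring

theorem cosh_form (l : ℝ) (n : ℕ) : (((1 + Real.exp l) / 2) ^ 2) ^ n ≤ Real.exp (l * n + l ^ 2 * n / 4) := by
  have h1 : (1 + Real.exp l) / 2 = Real.exp (l / 2) * Real.cosh (l / 2) := by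
    rw [Real.cosh_eq, mul_div_assoc', mul_add, ← Real.exp_add, ← Real.exp_add]
    rw [show l / 2 + l / 2 = l by ring, show l / 2 + -(l / 2) = 0 by ring, Real.exp_zero]
    ring
  have h2 := Real.cosh_le_exp_half_sq (l / 2)
  have h3 : (1 + Real.exp l) / 2 ≤ Real.exp (l / 2 + l ^ 2 / 8) := by
    rw [h1, Real.exp_add]
    apply mul_le_mul_of_nonneg_left _ (Real.exp_pos _).le
    refine le_trans h2 (le_of_eq ?_)
    congr 1; ring
  calc (((1 + Real.exp l) / 2) ^ 2) ^ n ≤ ((Real.exp (l / 2 + l ^ 2 / 8)) ^ 2) ^ n := by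
        have : 0 < (1 + Real.exp l) / 2 := by positivity
        gcongr
    _ = _ := by
        rw [← pow_mul, ← Real.exp_nat_mul]
        congr 1; push_cast; ring

/-- upper tail -/
theorem tail_up (n : ℕ) (hn : 1 ≤ n) (x : ℝ) (hx : 0 ≤ x) (h : ℕ) (f : ℕ → ℝ)
    (hf : ∀ h' : ℕ, f h' ≤ if (h : ℝ) + n + x ≤ h' then 1 else 0) : W n f h ≤ Real.exp (-(x ^ 2 / n)) := by
  have hn' : (0 : ℝ) < n := by exact_mod_cast hn
  obtain ⟨l, hl⟩ : ∃ l, l = 2 * x / n := ⟨_, rfl⟩
  have hl0 : 0 ≤ l := by rw [hl]; positivity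
  have h1 : ∀ h' : ℕ, f h' ≤ Real.exp (-(l * (h + n + x))) * Real.exp (l * h') := by
    intro h'
    refine le_trans (hf h') ?_
    rw [← Real.exp_add]
    split_ifs with h2
    · rw [← Real.exp_zero]
      apply Real.exp_le_exp.mpr
      nlinarith
    · exact (Real.exp_pos _).le
  refine le_trans (W_mono n h1 h) ?_
  rw [W_smul, W_exp]
  calc Real.exp (-(l * (h + n + x))) * (Real.exp (l * h) * (((1 + Real.exp l) / 2) ^ 2) ^ n)
      ≤ Real.exp (-(l * (h + n + x))) * (Real.exp (l * h) * Real.exp (l * n + l ^ 2 * n / 4)) := by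
        gcongr; exact cosh_form l n
    _ = Real.exp (-(x ^ 2 / n)) := by
        rw [← Real.exp_add, ← Real.exp_add]
        congr 1
        rw [hl]
        field_simp
        ring

/-- lower tail -/
theorem tail_down (n : ℕ) (hn : 1 ≤ n) (x : ℝ) (hx : 0 ≤ x) (h : ℕ) (f : ℕ → ℝ)
    (hf : ∀ h' : ℕ, f h' ≤ if (h' : ℝ) + x ≤ h + n then 1 else 0) : W n f h ≤ Real.exp (-(x ^ 2 / n)) := by
  have hn' : (0 : ℝ) < n := by exact_mod_cast hn
  obtain ⟨l, hl⟩ : ∃ l, l = -(2 * x / n) := ⟨_, rfl⟩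
  have hl0 : l ≤ 0 := by rw [hl]; have : 0 ≤ 2 * x / n := by positivity
                         linarith
  have h1 : ∀ h' : ℕ, f h' ≤ Real.exp (-(l * (h + n - x))) * Real.exp (l * h') := by
    intro h'
    refine le_trans (hf h') ?_
    rw [← Real.exp_add]
    split_ifs with h2
    · rw [← Real.exp_zero]
      apply Real.exp_le_exp.mpr
      nlinarith
    · exact (Real.exp_pos _).le
  refine le_trans (W_mono n h1 h) ?_
  rw [W_smul, W_exp]
  calc Real.exp (-(l * (h + n - x))) * (Real.exp (l * h) * (((1 + Real.exp l) / 2) ^ 2) ^ n)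
      ≤ Real.exp (-(l * (h + n - x))) * (Real.exp (l * h) * Real.exp (l * n + l ^ 2 * n / 4)) := by
        gcongr; exact cosh_form l n
    _ = Real.exp (-(x ^ 2 / n)) := by
        rw [← Real.exp_add, ← Real.exp_add]
        congr 1
        rw [hl]
        field_simp
        ring

/-- two sided tail -/
theorem tail (n : ℕ) (hn : 1 ≤ n) (x : ℝ) (hx : 0 ≤ x) (h : ℕ) (f : ℕ → ℝ)
    (hf : ∀ h' : ℕ, f h' ≤ if (h : ℝ) + n - x < h' ∧ (h' : ℝ) < h + n + x then 0 else 1) :
    W n f h ≤ 2 * Real.exp (-(x ^ 2 / n)) := by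
  have h1 : ∀ h' : ℕ, f h' ≤ (if (h : ℝ) + n + x ≤ h' then (1 : ℝ) else 0) + (if (h' : ℝ) + x ≤ h + n then (1 : ℝ) else 0) := by
    intro h'
    refine le_trans (hf h') ?_
    split_ifs with a b c d e f' <;> first | linarith | skip
    all_goals norm_num
    exact absurd ⟨by linarith, by linarith⟩ a
  refine le_trans (W_mono n h1 h) ?_
  rw [W_add]
  have a1 := tail_up n hn x hx h (fun h' => if (h : ℝ) + n + x ≤ h' then (1 : ℝ) else 0) (fun _ => le_rfl)
  have a2 := tail_down n hn x hx h (fun h' => if (h' : ℝ) + x ≤ h + n then (1 : ℝ) else 0) (fun _ => le_rfl)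
  linarith

end Pool.Agent.Helper3.TD
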