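import Pool.Agent.Helper3.TD.Arr
import Pool.Agent.Helper3.TD.Walk

/-! After leaving a long black run the walk is unlikely to be in a long black run at given later times. -/

namespace Pool.Agent.Helper3.TD

open Classical in
noncomputable def ind (P : ℕ → Prop) : ℕ → ℝ := fun x => if P x then 1 else 0

theorem ind_nonneg (P : ℕ → Prop) (x : ℕ) : 0 ≤ ind P x := by
  unfold ind; split_ifs <;> norm_num

theorem ind_le_one (P : ℕ → Prop) (x : ℕ) : ind P x ≤ 1 := by
  unfold ind; split_ifs <;> norm_num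

/-- a set with gaps is small -/
theorem card_gap {Z : Finset ℕ} {a L S H : ℕ} (hS : 1 ≤ S) (hZ : ∀ z ∈ Z, a ≤ z ∧ z < a + L)
    (hgap : ∀ z ∈ Z, ∀ i, z + i ∈ Z → i ≤ S → i < 2 * H) (hH : 1 ≤ H) :
    Z.card ≤ 2 * H * (L / S + 1) := by
  classical
  have h1 := Finset.card_le_mul_card_image_of_maps_to (s := Z) (t := Finset.range (L / S + 1))
    (f := fun z => (z - a) / S) ?_ (2 * H) ?_
  · simpa using h1
  · intro z hz
    have h2 := hZ z hz
    simp only [Finset.mem_range]
    have : (z - a) / S ≤ L / S := Nat.div_le_div_right (by omega)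
    omega
  · intro k _
    rcases Finset.eq_empty_or_nonempty (Z.filter (fun z => (z - a) / S = k)) with h0 | hne
    · rw [h0]; simp
    · obtain ⟨m, hm⟩ : ∃ m, m = (Z.filter (fun z => (z - a) / S = k)).min' hne := ⟨_, rfl⟩
      have hmem := Finset.min'_mem _ hne
      rw [← hm, Finset.mem_filter] at hmem
      have hsub : Z.filter (fun z => (z - a) / S = k) ⊆ Finset.Ico m (m + 2 * H) := by
        intro z hz
        have hle : m ≤ z := by rw [hm]; exact Finset.min'_le _ _ hz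
        rw [Finset.mem_filter] at hz
        rw [Finset.mem_Ico]
        refine ⟨hle, ?_⟩
        obtain ⟨i, rfl⟩ := Nat.exists_eq_add_of_le hle
        have hi : i ≤ S := by
          have e1 : (m - a) / S = (m + i - a) / S := by rw [hmem.2, hz.2]
          have e2 := hZ m hmem.1
          have e3 : m + i - a = (m - a) + i := by omega
          rw [e3] at e1
          by_contra hc
          push Not at hc
          have e4 : (m - a + S) / S ≤ (m - a + i) / S := Nat.div_le_div_right (by omega)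
          rw [Nat.add_div_right _ (by omega)] at e4
          omega
        have := hgap m hmem.1 i hz.1 hi
        omega
      calc (Z.filter (fun z => (z - a) / S = k)).card ≤ (Finset.Ico m (m + 2 * H)).card := Finset.card_le_card hsub
        _ = 2 * H := by rw [Nat.card_Ico]; omega

theorem three_four {i t : ℕ} (h : 4 * i ≤ 5 * t) : 3 ^ i ≤ 4 ^ t := by
  have h1 : (3 ^ i) ^ 4 ≤ (4 ^ t) ^ 4 := by
    calc (3 ^ i) ^ 4 = 3 ^ (4 * i) := by rw [← pow_mul, mul_comm]
      _ ≤ 3 ^ (5 * t) := Nat.pow_le_pow_right (by norm_num) h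
      _ = 243 ^ t := by rw [pow_mul]; norm_num
      _ ≤ 256 ^ t := Nat.pow_le_pow_left (by norm_num) t
      _ = (4 ^ t) ^ 4 := by rw [← pow_mul, mul_comm t 4, pow_mul]; norm_num
  by_contra hc
  push Not at hc
  have := Nat.pow_lt_pow_left hc (show 4 ≠ 0 by norm_num)
  omega

variable {q : ℤ} {p : ℕ → ℕ → ℤ}

/-- heights above the starting height are strongly white at the exit column -/
theorem strong_at_exit (A : Arr q p) {j h t i : ℕ} (ht : 1 ≤ t) (E : Ex q p j h (j + t)) (hi : 4 * i ≤ 5 * t) :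
    q ≤ 5 * |p (j + t) (h + i)| := by
  obtain ⟨d, rfl⟩ : ∃ d, t = d + 1 := ⟨t - 1, by omega⟩
  have hq := A.pos
  have hr := E.run
  have h1 := A.run_eq hr d (by omega)
  have h2 := E.2.1 j le_rfl E.1
  have h3 := three_four hi
  have h4 : (3 : ℤ) ^ i ≤ 4 * 4 ^ d := by
    have : (3 : ℤ) ^ i ≤ 4 ^ (d + 1) := by exact_mod_cast h3
    rw [pow_succ] at this; linarith
  rw [show j + (d + 1) = j + d + 1 by ring]
  apply A.exit_white (E.2.1 (j + d) (by omega) (by omega))
  · have := E.2.2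
    rwa [show j + (d + 1) = j + d + 1 by ring] at this
  · unfold bl at h2
    rw [h1, abs_mul, abs_of_pos (show (0 : ℤ) < 4 ^ d by positivity)] at h2
    have h5 : 3 ^ i * |p (j + d) h| ≤ 4 * 4 ^ d * |p (j + d) h| := mul_le_mul_of_nonneg_right h4 (abs_nonneg _)
    linarith

/-- one time bound with explicit window -/
theorem exit_window (A : Arr q p) {j h t H S x : ℕ} (ht : 1 ≤ t) (hH : 1 ≤ H) (hS : 1 ≤ S) (E : Ex q p j h (j + t))
    (hx : 4 * (H + x) ≤ t) :
    W (t + H) (ind (fun z => run q p (j + t + H) z S)) h ≤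
      (2 * H * ((2 * x + 1) / S + 1) : ℕ) / Real.sqrt (2 * (t + H : ℕ) + 1) +
        2 * Real.exp (-((x : ℝ) ^ 2 / (t + H : ℕ))) := by
  classical
  obtain ⟨n, hn⟩ : ∃ n, n = t + H := ⟨_, rfl⟩
  rw [← hn]
  obtain ⟨Z, hZ⟩ : ∃ Z, Z = (Finset.Ico (h + n - x) (h + n - x + (2 * x + 1))).filter
    (fun z => run q p (j + t + H) z S) := ⟨_, rfl⟩
  have hcard : Z.card ≤ 2 * H * ((2 * x + 1) / S + 1) := by
    apply card_gap (a := h + n - x) hS
    · intro z hz
      rw [hZ, Finset.mem_filter, Finset.mem_Ico] at hz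
      exact hz.1
    · intro z hz i hzi hi
      rw [hZ, Finset.mem_filter, Finset.mem_Ico] at hz hzi
      obtain ⟨i0, rfl⟩ : ∃ i0, z = h + i0 := ⟨z - h, by omega⟩
      have hs := strong_at_exit A (i := i0) ht E (by omega)
      have h3 : 3 ^ i ≤ 4 ^ S := three_four (by omega)
      have h4 := A.sparse hs hz.2 hzi.2 h3
      -- 3^i < 4^H → i < 2H
      by_contra hc
      push Not at hc
      have h5 : 4 ^ H ≤ 3 ^ i := by
        calc 4 ^ H ≤ 9 ^ H := Nat.pow_le_pow_left (by norm_num) H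
          _ = 3 ^ (2 * H) := by rw [pow_mul]; norm_num
          _ ≤ 3 ^ i := Nat.pow_le_pow_right (by norm_num) hc
      omega
    · exact hH
  have h1 : ∀ z : ℕ, ind (fun z => run q p (j + t + H) z S) z ≤ (if z ∈ Z then (1 : ℝ) else 0) +
      (if (h : ℝ) + n - x < z ∧ (z : ℝ) < h + n + x then (0 : ℝ) else 1) := by
    intro z
    have n1 : (0 : ℝ) ≤ (if z ∈ Z then (1 : ℝ) else 0) := by split_ifs <;> norm_num
    have n2 : (0 : ℝ) ≤ (if (h : ℝ) + n - x < z ∧ (z : ℝ) < h + n + x then (0 : ℝ) else 1) := by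
      split_ifs <;> norm_num
    by_cases a : run q p (j + t + H) z S
    · have e0 : ind (fun z => run q p (j + t + H) z S) z = 1 := by unfold ind; rw [if_pos a]
      rw [e0]
      by_cases c : (h : ℝ) + n - x < z ∧ (z : ℝ) < h + n + x
      · have hzZ : z ∈ Z := by
          rw [hZ, Finset.mem_filter, Finset.mem_Ico]
          obtain ⟨c1, c2⟩ := c
          have c1' : h + n < z + x := by
            have : (h : ℝ) + n < z + x := by linarith
            exact_mod_cast this
          have c2' : z < h + n + x := by exact_mod_cast c2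
          exact ⟨by omega, a⟩
        rw [if_pos hzZ]; linarith
      · rw [if_neg c]; linarith
    · have e0 : ind (fun z => run q p (j + t + H) z S) z = 0 := by unfold ind; rw [if_neg a]
      rw [e0]; linarith
  refine le_trans (W_mono n h1 h) ?_
  rw [W_add]
  apply add_le_add
  · refine le_trans (W_indicator_le n Z _ h (fun _ => le_rfl)) ?_
    gcongr
  · exact tail n (by omega) x (by positivity) h _ (fun _ => le_rfl)

theorem exit_prob (δ : ℝ) (hδ : 0 < δ) (H : ℕ) (hH : 1 ≤ H) :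
    ∃ S, 1 ≤ S ∧ ∃ t0, ∀ t, t0 ≤ t → ∀ (q : ℤ) (p : ℕ → ℕ → ℤ), Arr q p → ∀ j h, Ex q p j h (j + t) →
      W (t + H) (ind (fun z => run q p (j + t + H) z S)) h ≤ δ := by
  -- choose Λ
  obtain ⟨Λ, hΛ1, hΛ⟩ : ∃ Λ : ℝ, 1 ≤ Λ ∧ 2 * Real.exp (-(Λ ^ 2)) ≤ δ / 2 := by
    have h1 : Filter.Tendsto (fun x : ℝ => Real.exp (-x)) Filter.atTop (nhds 0) := Real.tendsto_exp_neg_atTop_nhds_zero
    obtain ⟨N, hN⟩ := (h1.eventually (gt_mem_nhds (show (0 : ℝ) < δ / 4 by linarith))).exists_forall_of_atTop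
    refine ⟨max N 1, le_max_right _ _, ?_⟩
    have h2 : N ≤ (max N 1) ^ 2 := by
      have h3 : (1 : ℝ) ≤ max N 1 := le_max_right _ _
      have h4 : N ≤ max N 1 := le_max_left _ _
      nlinarith
    have := hN _ h2
    linarith
  obtain ⟨S, hS⟩ := exists_nat_ge (16 * H * Λ / δ)
  obtain ⟨t0, ht0⟩ := exists_nat_ge (max (max (8 * (H : ℝ) + 16) (256 * Λ ^ 2)) ((32 * H / δ) ^ 2))
  have hH' : (1 : ℝ) ≤ H := by exact_mod_cast hH
  have hSpos : 1 ≤ S := by
    have h1 : 0 < 16 * H * Λ / δ := by positivity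
    have h2 : (0 : ℝ) < S := lt_of_lt_of_le h1 hS
    have h3 : 0 < S := by exact_mod_cast h2
    omega
  refine ⟨S, hSpos, t0, ?_⟩
  intro t ht q p A j h E
  have ht' : (t0 : ℝ) ≤ t := by exact_mod_cast ht
  have b1 : 8 * (H : ℝ) + 16 ≤ t := le_trans (le_trans (le_trans (le_max_left _ _) (le_max_left _ _)) ht0) ht'
  have b2 : 256 * Λ ^ 2 ≤ t := le_trans (le_trans (le_trans (le_max_right _ _) (le_max_left _ _)) ht0) ht'
  have b3 : (32 * H / δ) ^ 2 ≤ t := le_trans (le_trans (le_max_right _ _) ht0) ht'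
  have htpos : (0 : ℝ) < t := by linarith
  obtain ⟨n, hn⟩ : ∃ n : ℕ, n = t + H := ⟨_, rfl⟩
  have hn' : (n : ℝ) = t + H := by rw [hn]; push_cast; ring
  have hnpos : (0 : ℝ) < n := by rw [hn']; positivity
  have hsq : 0 < Real.sqrt n := Real.sqrt_pos.mpr hnpos
  obtain ⟨x, hx⟩ : ∃ x : ℕ, x = ⌈Λ * Real.sqrt n⌉₊ := ⟨_, rfl⟩
  have hx1 : Λ * Real.sqrt n ≤ x := by rw [hx]; exact Nat.le_ceil _
  have hx2 : (x : ℝ) ≤ Λ * Real.sqrt n + 1 := by rw [hx]; exact (Nat.ceil_lt_add_one (by positivity)).le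
  -- sqrt n ≤ sqrt (2t), Λ sqrt n ≤ t/8
  have c1 : Λ * Real.sqrt n ≤ t / 8 := by
    have : (Λ * Real.sqrt n) ^ 2 ≤ (t / 8) ^ 2 := by
      rw [mul_pow, Real.sq_sqrt hnpos.le]
      have : (n : ℝ) ≤ 2 * t := by rw [hn']; linarith
      nlinarith [mul_le_mul b2 this hnpos.le htpos.le]
    exact le_of_sq_le_sq this (by positivity)
  have hxt : 4 * (H + x) ≤ t := by
    have : 4 * ((H : ℝ) + x) ≤ t := by linarith
    exact_mod_cast this
  have hw := exit_window A (x := x) (S := S) (by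
    have : (1 : ℝ) ≤ t := by linarith
    exact_mod_cast this) hH hSpos E hxt
  refine le_trans hw ?_
  rw [← hn]
  have d1 : 2 * Real.exp (-((x : ℝ) ^ 2 / n)) ≤ δ / 2 := by
    refine le_trans ?_ hΛ
    gcongr
    rw [le_div_iff₀ hnpos]
    calc Λ ^ 2 * n = (Λ * Real.sqrt n) ^ 2 := by rw [mul_pow, Real.sq_sqrt hnpos.le]
      _ ≤ (x : ℝ) ^ 2 := by gcongr
  have d2 : ((2 * H * ((2 * x + 1) / S + 1) : ℕ) : ℝ) ≤ 2 * H * ((2 * x + 1) / S + 1) := by
    push_cast
    gcongr
    have := @Nat.cast_div_le ℝ _ _ _ (2 * x + 1) S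
    push_cast at this
    exact this
  have hS' : (1 : ℝ) ≤ S := by exact_mod_cast hSpos
  have d3 : ((2 * H * ((2 * x + 1) / S + 1) : ℕ) : ℝ) / Real.sqrt (2 * n + 1) ≤ δ / 2 := by
    have e1 : Real.sqrt n ≤ Real.sqrt (2 * n + 1) := Real.sqrt_le_sqrt (by linarith)
    calc ((2 * H * ((2 * x + 1) / S + 1) : ℕ) : ℝ) / Real.sqrt (2 * n + 1)
        ≤ (2 * H * ((2 * x + 1) / S + 1)) / Real.sqrt n := by gcongr
      _ ≤ (2 * H * ((2 * (Λ * Real.sqrt n + 1) + 1) / S + 1)) / Real.sqrt n := by gcongr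
      _ = 4 * H * Λ / S + (2 * H * (3 / S + 1)) / Real.sqrt n := by
          field_simp
          ring
      _ ≤ 4 * H * Λ / S + (2 * H * (3 / 1 + 1)) / Real.sqrt n := by gcongr
      _ ≤ δ / 4 + δ / 4 := by
          apply add_le_add
          · rw [div_le_iff₀ (by linarith)]
            rw [div_le_iff₀ hδ] at hS
            nlinarith
          · rw [div_le_iff₀ hsq]
            have e2 : 32 * H / δ ≤ Real.sqrt n := by
              apply Real.le_sqrt_of_sq_le
              refine le_trans b3 ?_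
              rw [hn']; linarith
            rw [div_le_iff₀ hδ] at e2
            nlinarith
      _ = δ / 2 := by ring
  linarith

end Pool.Agent.Helper3.TD
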