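import Pool.Agent.Helper3.TD.Kern2

/-! Narrow windows: restriction to typical trajectories and exact comparison of weights. -/

namespace Pool.Agent.Helper3.TD

open Pool.Agent.Helper3.ND

/-- restriction to typical numbers of odd steps -/
theorem fineA {Φ : ℤ → ℝ} (hΦ0 : ∀ N, 0 ≤ Φ N) (hΦ1 : ∀ N, Φ N ≤ 1) {t m : ℕ} (ht : 10 ^ 3 ≤ t) (hm : 5 * m ≤ 2 * t)
    {a W : ℝ} (hW0 : 0 < W) (hq : 4 * (2 : ℝ) ^ t ≤ Real.exp (a - W)) (X : ℤ)
    (hinv : ∀ N : ℤ, Real.exp (a - W) < |(N : ℝ)| → Φ (T^[t] N) = Φ N) :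
    |SS Φ X a W - ∑ N ∈ Finset.Icc (-X) X, (if od t N ∈ KS t m then Φ (T^[t] N) * om a W N else 0)| ≤
      4 * Real.exp (-((t : ℝ) ^ (1 / 10 : ℝ))) * (2 * W + 1) := by
  classical
  obtain ⟨f, hf⟩ : ∃ f : ℤ → ℝ, f = fun N => if od t N ∈ KS t m then 0 else 1 := ⟨_, rfl⟩
  have hf0 : ∀ x, 0 ≤ f x := by
    intro x; rw [hf]; simp only; split_ifs <;> norm_num
  have hfp : ∀ x : ℤ, f (x + ((2 ^ t : ℕ) : ℤ)) = f x := by
    intro x
    rw [hf]
    simp only
    have := (shift t x 1).1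
    rw [mul_one] at this
    push_cast
    rw [this]
  have h1 : |SS Φ X a W - ∑ N ∈ Finset.Icc (-X) X, (if od t N ∈ KS t m then Φ (T^[t] N) * om a W N else 0)| ≤
      ∑ N ∈ Finset.Icc (-X) X, (if |Real.log |(N : ℝ)| - a| ≤ W then f N / |(N : ℝ)| else 0) := by
    unfold SS
    rw [← Finset.sum_sub_distrib]
    refine le_trans (Finset.abs_sum_le_sum_abs _ _) (Finset.sum_le_sum ?_)
    intro N _
    by_cases h0 : om a W N = 0
    · rw [h0]
      have : (0 : ℝ) ≤ if |Real.log |(N : ℝ)| - a| ≤ W then f N / |(N : ℝ)| else 0 := by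
        split_ifs
        · exact div_nonneg (hf0 _) (abs_nonneg _)
        · exact le_rfl
      simpa using this
    · obtain ⟨h2, h3⟩ := om_ne_zero hW0 h0
      have h4 : Real.exp (a - W) < |(N : ℝ)| := by
        rw [← Real.lt_log_iff_exp_lt h2]
        rw [abs_lt] at h3
        linarith
      rw [hinv N h4, if_pos h3.le]
      by_cases h5 : od t N ∈ KS t m
      · rw [if_pos h5, sub_self, abs_zero]
        exact div_nonneg (hf0 _) (abs_nonneg _)
      · rw [if_neg h5, sub_zero, hf]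
        simp only
        rw [if_neg h5, abs_of_nonneg (mul_nonneg (hΦ0 _) (om_nonneg _ _ _))]
        calc Φ N * om a W N ≤ 1 * (1 / |(N : ℝ)|) := by
              apply mul_le_mul (hΦ1 _) (om_le _ _ _) (om_nonneg _ _ _) (by norm_num)
          _ = _ := by rw [one_mul]
  have hq' : 4 * ((2 ^ t : ℕ) : ℝ) ≤ Real.exp (a - W) := by
    push_cast; exact hq
  have h2 := win_sum (Nat.one_le_pow t 2 (by norm_num)) hfp hf0 hW0.le hq' X
  refine le_trans h1 (le_trans h2 ?_)
  have h3 : AvQ (2 ^ t) f ≤ 2 * Real.exp (-((t : ℝ) ^ (1 / 10 : ℝ))) := by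
    have h4 := card_out ht hm (Finset.range (t + 1) \ KS t m) (fun k hk => (Finset.mem_sdiff.mp hk).2)
    refine le_trans (le_of_eq ?_) h4
    unfold AvQ
    push_cast
    congr 1
    have h5 : ∀ r ∈ Finset.range (2 ^ t), f (r : ℤ) = if od t (r : ℤ) ∈ Finset.range (t + 1) \ KS t m then (1 : ℝ) else 0 := by
      intro r _
      rw [hf]
      simp only
      have h6 : od t (r : ℤ) ∈ Finset.range (t + 1) := by
        rw [Finset.mem_range]; have := od_le t (r : ℤ); omega
      by_cases h7 : od t (r : ℤ) ∈ KS t m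
      · rw [if_pos h7, if_neg (fun h8 => (Finset.mem_sdiff.mp h8).2 h7)]
      · rw [if_neg h7, if_pos (Finset.mem_sdiff.mpr ⟨h6, h7⟩)]
    rw [Finset.sum_congr rfl h5, ← Finset.sum_filter, Finset.sum_const, nsmul_eq_mul, mul_one]
  calc 2 * AvQ (2 ^ t) f * (2 * W + 1) ≤ 2 * (2 * Real.exp (-((t : ℝ) ^ (1 / 10 : ℝ)))) * (2 * W + 1) := by gcongr
    _ = _ := by ring

/-- centre of the window after `t` steps with `k` odd steps -/
noncomputable def bk (a : ℝ) (t k : ℕ) : ℝ := a - t * Real.log 2 + k * Real.log 3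

theorem exp_bk (a : ℝ) (t k : ℕ) (x : ℝ) : Real.exp (bk a t k + x) = Real.exp (a + x) * 3 ^ k / 2 ^ t := by
  unfold bk
  rw [show a - t * Real.log 2 + k * Real.log 3 + x = (a + x) + k * Real.log 3 - t * Real.log 2 by ring,
    Real.exp_sub, Real.exp_add, Real.exp_nat_mul, Real.exp_nat_mul, Real.exp_log (by norm_num), Real.exp_log (by norm_num)]

/-- exact comparison of the weight of `N` and of its image -/
theorem finepair {t : ℕ} {a W : ℝ} (hW0 : 0 < W) (hW1 : W ≤ 1) (hz : 16 * 10 ^ t ≤ W * Real.exp (a - W)) {r : ℕ} {M : ℤ}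
    (hd : (3 : ℤ) ^ od t (r : ℤ) ∣ M - T^[t] (r : ℤ)) :
    |om a W (nn t r M) - 3 ^ od t (r : ℤ) / 2 ^ t * om (bk a t (od t (r : ℤ))) W M| ≤
      if |Real.log |(M : ℝ)| - bk a t (od t (r : ℤ))| ≤ W + 1 then
        (3 ^ od t (r : ℤ) / 2 ^ t) / |(M : ℝ)| * (1 / 5) ^ t else 0 := by
  obtain ⟨N, hN⟩ : ∃ N, N = nn t r M := ⟨_, rfl⟩
  obtain ⟨k, hkdef⟩ : ∃ k, k = od t (r : ℤ) := ⟨_, rfl⟩
  have hodN : od t N = k := by rw [hN, nn_od, hkdef]
  have hTN : T^[t] N = M := by rw [hN]; exact nn_T t r M hd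
  have haff := affine t N
  rw [hTN, hodN] at haff
  have hcc0 := cc_nonneg t N
  have hcc1 := cc_le t N
  rw [hodN] at hcc1
  rw [← hN, ← hkdef]
  obtain ⟨A, hA⟩ : ∃ A : ℝ, A = 3 ^ k := ⟨_, rfl⟩
  obtain ⟨B, hB⟩ : ∃ B : ℝ, B = 2 ^ t := ⟨_, rfl⟩
  obtain ⟨z, hzdef⟩ : ∃ z, z = Real.exp (a - W) := ⟨_, rfl⟩
  rw [← hzdef] at hz
  rw [← hA, ← hB]
  have hApos : 0 < A := by rw [hA]; positivity
  have hBpos : 0 < B := by rw [hB]; positivity
  have hzpos : 0 < z := by rw [hzdef]; exact Real.exp_pos _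
  obtain ⟨n, hn⟩ : ∃ n, n = |(N : ℝ)| := ⟨_, rfl⟩
  obtain ⟨mm, hmm⟩ : ∃ mm, mm = |(M : ℝ)| := ⟨_, rfl⟩
  have hn0 : 0 ≤ n := by rw [hn]; exact abs_nonneg _
  have hmm0 : 0 ≤ mm := by rw [hmm]; exact abs_nonneg _
  have hbasic : |B * mm - A * n| ≤ A * B := by
    have h1 : (2 : ℝ) ^ t * (M : ℝ) = 3 ^ k * (N : ℝ) + (cc t N : ℝ) := by exact_mod_cast haff
    have h2 : (0 : ℝ) ≤ (cc t N : ℝ) := by exact_mod_cast hcc0
    have h3 : (cc t N : ℝ) ≤ 3 ^ k * 2 ^ t := by exact_mod_cast hcc1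
    rw [← hA, ← hB] at h3
    rw [← hA, ← hB] at h1
    have e1 : B * mm = |B * (M : ℝ)| := by rw [abs_mul, abs_of_pos hBpos, hmm]
    have e2 : A * n = |A * (N : ℝ)| := by rw [abs_mul, abs_of_pos hApos, hn]
    rw [e1, e2]
    refine le_trans (abs_abs_sub_abs_le_abs_sub _ _) ?_
    rw [h1, show A * (N : ℝ) + (cc t N : ℝ) - A * (N : ℝ) = (cc t N : ℝ) by ring, abs_of_nonneg h2]
    exact h3
  obtain ⟨δ, hδ⟩ : ∃ δ : ℝ, δ = 2 * B / z := ⟨_, rfl⟩
  have hδ0 : 0 < δ := by rw [hδ]; positivity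
  have h15 : (10 : ℝ) ^ t * (1 / 5) ^ t = B := by rw [hB, ← mul_pow]; norm_num
  have h15pos : (0 : ℝ) < (1 / 5) ^ t := by positivity
  have h15le : (1 / 5 : ℝ) ^ t ≤ 1 := pow_le_one₀ (by norm_num) (by norm_num)
  have hδW : 8 * δ ≤ W * (1 / 5) ^ t := by
    rw [hδ, mul_div_assoc', div_le_iff₀ hzpos, ← h15]
    nlinarith
  have hδ8 : δ ≤ 1 / 8 := by
    have : W * (1 / 5 : ℝ) ^ t ≤ 1 * 1 := mul_le_mul hW1 h15le h15pos.le (by norm_num)
    linarith
  have main : 0 < mm → A / mm ≤ δ → (|Real.log n - a| < W ∨ |Real.log mm - bk a t k| < W) →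
      |om a W N - A / B * om (bk a t k) W M| ≤
        if |Real.log mm - bk a t k| ≤ W + 1 then (A / B) / mm * (1 / 5) ^ t else 0 := by
    intro hmpos hsmall hor
    obtain ⟨ρ, hρ⟩ : ∃ ρ, ρ = A * n / (B * mm) := ⟨_, rfl⟩
    have hρ1 : |ρ - 1| ≤ δ := by
      have e1 : ρ - 1 = (A * n - B * mm) / (B * mm) := by rw [hρ]; field_simp
      rw [e1, abs_div, abs_of_pos (show 0 < B * mm by positivity), abs_sub_comm]
      refine le_trans (div_le_div_of_nonneg_right hbasic (by positivity)) (le_trans (le_of_eq ?_) hsmall)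
      field_simp
    have hρ2 := hρ1
    rw [abs_le] at hρ2
    have hρpos : 0 < ρ := by linarith
    have hnpos : 0 < n := by
      rw [hρ] at hρpos
      have : 0 < A * n := by
        by_contra hc
        have : A * n / (B * mm) ≤ 0 := div_nonpos_of_nonpos_of_nonneg (not_lt.mp hc) (by positivity)
        linarith
      exact (mul_pos_iff_of_pos_left hApos).mp this
    have hneq : n = ρ * (B / A * mm) := by rw [hρ]; field_simp
    have hlog : Real.log n = Real.log ρ + (Real.log (B / A) + Real.log mm) := by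
      rw [hneq, Real.log_mul hρpos.ne' (by positivity), Real.log_mul (by positivity) hmpos.ne']
    have hlogBA : Real.log (B / A) = t * Real.log 2 - k * Real.log 3 := by
      rw [Real.log_div hBpos.ne' hApos.ne', hA, hB, Real.log_pow, Real.log_pow]
    have hlρ := log_near hρ1 hδ8
    have e1 : (Real.log n - a) - (Real.log mm - bk a t k) = Real.log ρ := by
      rw [hlog, hlogBA]; unfold bk; ring
    have hdiff : |(Real.log n - a) - (Real.log mm - bk a t k)| ≤ 2 * δ := by
      rw [e1]; exact hlρ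
    have hwin : |Real.log mm - bk a t k| ≤ W + 1 := by
      rcases hor with h | h
      · have h4 := abs_sub_abs_le_abs_sub (Real.log mm - bk a t k) (Real.log n - a)
        rw [abs_sub_comm (Real.log mm - bk a t k)] at h4
        linarith
      · linarith
    rw [if_pos hwin]
    have hom1 : om a W N = A / (B * mm) * (tent ((Real.log n - a) / W) / ρ) := by
      unfold om
      rw [← hn, hneq]
      field_simp
    have hom2 : A / B * om (bk a t k) W M = A / (B * mm) * tent ((Real.log mm - bk a t k) / W) := by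
      unfold om
      rw [← hmm]
      field_simp
    rw [hom1, hom2, ← mul_sub, abs_mul, abs_of_pos (show 0 < A / (B * mm) by positivity)]
    have e3 : A / B / mm = A / (B * mm) := by rw [div_div]
    rw [e3]
    apply mul_le_mul_of_nonneg_left _ (by positivity)
    have t1 := tent_lip ((Real.log n - a) / W) ((Real.log mm - bk a t k) / W)
    rw [← sub_div, abs_div, abs_of_pos hW0] at t1
    have t2 : |(Real.log n - a) - (Real.log mm - bk a t k)| / W ≤ 1 / 4 * (1 / 5) ^ t := by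
      rw [div_le_iff₀ hW0]
      linarith
    have t3 : |tent ((Real.log n - a) / W) / ρ - tent ((Real.log n - a) / W)| ≤ 1 / 4 * (1 / 5) ^ t := by
      have e4 : tent ((Real.log n - a) / W) / ρ - tent ((Real.log n - a) / W) = tent ((Real.log n - a) / W) * ((1 - ρ) / ρ) := by
        field_simp
      rw [e4, abs_mul, abs_of_nonneg (tent_nonneg _), abs_div, abs_of_pos hρpos, abs_sub_comm]
      have h7 : (7 : ℝ) / 8 ≤ ρ := by linarith
      calc tent ((Real.log n - a) / W) * (|ρ - 1| / ρ) ≤ 1 * (δ / (7 / 8)) := by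
            apply mul_le_mul (tent_le_one _) _ (by positivity) (by norm_num)
            exact div_le_div₀ hδ0.le hρ1 (by norm_num) h7
        _ ≤ 1 / 4 * (1 / 5) ^ t := by
            have : W * (1 / 5 : ℝ) ^ t ≤ 1 * (1 / 5) ^ t := mul_le_mul_of_nonneg_right hW1 h15pos.le
            rw [one_mul, div_le_iff₀ (by norm_num)]
            linarith
    have t4 := abs_sub_le (tent ((Real.log n - a) / W) / ρ) (tent ((Real.log n - a) / W)) (tent ((Real.log mm - bk a t k) / W))
    linarith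
  rw [← hmm]
  by_cases hom : om a W N = 0
  · by_cases hot : om (bk a t k) W M = 0
    · rw [hom, hot, mul_zero, sub_zero, abs_zero]
      split_ifs
      · positivity
      · exact le_rfl
    · obtain ⟨h1, h2⟩ := om_ne_zero hW0 hot
      rw [← hmm] at h1 h2
      apply main h1 _ (Or.inr h2)
      rw [abs_lt] at h2
      have h3 : z * A / B ≤ mm := by
        have h4 : bk a t k + (-W) < Real.log mm := by linarith
        have h5 := (Real.lt_log_iff_exp_lt h1).mp h4
        rw [exp_bk, ← hA, ← hB, ← sub_eq_add_neg, ← hzdef] at h5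
        exact h5.le
      rw [hδ, div_le_div_iff₀ h1 hzpos]
      rw [div_le_iff₀ hBpos] at h3
      have : 0 < mm * B := by positivity
      linarith
  · obtain ⟨h1, h2⟩ := om_ne_zero hW0 hom
    rw [← hn] at h1 h2
    rw [abs_lt] at h2
    have h3 : z < n := by
      rw [hzdef, ← Real.lt_log_iff_exp_lt h1]
      linarith
    have hB2 : 2 * B ≤ n := by
      have h4 : B ≤ 10 ^ t := by rw [hB]; exact pow_le_pow_left₀ (by norm_num) (by norm_num) t
      have h5 : (0 : ℝ) < 10 ^ t := by positivity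
      have h6 : W * z ≤ 1 * z := mul_le_mul_of_nonneg_right hW1 hzpos.le
      linarith
    have h6 : A * n / 2 ≤ B * mm := by
      rw [abs_le] at hbasic
      nlinarith
    have hmpos : 0 < mm := by
      by_contra hc
      have : mm = 0 := le_antisymm (not_lt.mp hc) hmm0
      rw [this] at h6
      have : 0 < A * n := by positivity
      linarith
    apply main hmpos _ (Or.inl (abs_lt.mpr h2))
    rw [hδ, div_le_div_iff₀ hmpos hzpos]
    calc A * z ≤ A * n := by gcongr
      _ ≤ 2 * B * mm := by linarith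

end Pool.Agent.Helper3.TD
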