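import Pool.Agent.Helper3.TD.Eo
import Pool.Agent.Helper3.TD.Fine2

/-! The exact kernel for narrow windows: the final form. -/

namespace Pool.Agent.Helper3.TD

open Pool.Agent.Helper3.ND

theorem finecond' {t m k : ℕ} (hm : m ≤ t) {a W : ℝ} (hW0 : 0 < W) (hW1 : W ≤ 1) (hz : 16 * 10 ^ t ≤ W * Real.exp (a - W)) :
    4 * 3 ^ m ≤ Real.exp (bk a t k - (W + 1)) := by
  have h1 := finecond (k := 0) hW0 hW1 hz
  have h2 : bk a t k - (W + 1) = bk a t k + (-(W + 1)) := by ring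
  rw [h2, exp_bk]
  have h3 : a + -(W + 1) = (a - W) + (-1) := by ring
  rw [h3, Real.exp_add]
  have h4 := Real.exp_one_lt_d9
  have h5 : (1 : ℝ) / 3 ≤ Real.exp (-1) := by
    rw [Real.exp_neg, one_div]
    apply inv_anti₀ (Real.exp_pos _)
    linarith
  have h6 : (16 : ℝ) * 10 ^ t ≤ Real.exp (a - W) := by
    have : W * Real.exp (a - W) ≤ 1 * Real.exp (a - W) := mul_le_mul_of_nonneg_right hW1 (Real.exp_pos _).le
    linarith
  have h7 : (0 : ℝ) < 2 ^ t := by positivity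
  rw [le_div_iff₀ h7]
  have h8 : (1 : ℝ) ≤ 3 ^ k := one_le_pow₀ (by norm_num)
  have h9 : (3 : ℝ) ^ m * 2 ^ t ≤ 10 ^ t := by
    calc (3 : ℝ) ^ m * 2 ^ t ≤ 3 ^ t * 2 ^ t := by
          apply mul_le_mul_of_nonneg_right _ h7.le
          exact pow_le_pow_right₀ (by norm_num) hm
      _ = 6 ^ t := by rw [← mul_pow]; norm_num
      _ ≤ 10 ^ t := pow_le_pow_left₀ (by norm_num) (by norm_num) t
  have h10 : (0 : ℝ) < 10 ^ t := by positivity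
  have h11 := Real.exp_pos (a - W)
  have h12 : 4 * (10 : ℝ) ^ t ≤ Real.exp (a - W) * Real.exp (-1) := by nlinarith
  calc 4 * (3 : ℝ) ^ m * 2 ^ t ≤ 4 * 10 ^ t := by linarith
    _ ≤ Real.exp (a - W) * Real.exp (-1) * 1 := by linarith
    _ ≤ _ := mul_le_mul_of_nonneg_left h8 (by positivity)

theorem finemass {t m k : ℕ} (hm : m ≤ t) {a W : ℝ} (hW0 : 0 < W) (hW1 : W ≤ 1) (hz : 16 * 10 ^ t ≤ W * Real.exp (a - W))
    (P : ℕ → Prop) (X : ℤ) :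
    ∑ M ∈ Finset.Icc (-X) X, D m t k P M * om (bk a t k) W M ≤ 6 * mass t k P := by
  have h1 := finewin hW0 (bk a t k) (D_per m t k P) (D_nonneg m t k P) (finecond' hm hW0 hW1 hz) X
  rw [Av_D] at h1
  refine le_trans h1 ?_
  have h2 : 0 ≤ mass t k P := by unfold mass; positivity
  calc 2 * mass t k P * (2 * W + 1) ≤ 2 * mass t k P * 3 := by
        apply mul_le_mul_of_nonneg_left _ (by positivity)
        linarith
    _ = _ := by ring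

/-- restricting to trajectories with many odd steps at the end -/
theorem fineE {Φ : ℤ → ℝ} (hΦ0 : ∀ N, 0 ≤ Φ N) (hΦ1 : ∀ N, Φ N ≤ 1) {s1 s m : ℕ} (ht : 10 ^ 3 ≤ s1 + s) (hm : 5 * m ≤ 2 * (s1 + s))
    (hs : 3 * m ≤ s) (hs1 : 1 ≤ s)
    {a W : ℝ} (hW0 : 0 < W) (hW1 : W ≤ 1) (hz : 16 * 10 ^ (s1 + s) ≤ W * Real.exp (a - W)) (X : ℤ) :
    |∑ M ∈ Finset.Icc (-X) X, Φ M * ∑ k ∈ KS (s1 + s) m, D m (s1 + s) k (fun _ => True) M * om (bk a (s1 + s) k) W M -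
      ∑ M ∈ Finset.Icc (-X) X, Φ M * ∑ k ∈ Finset.range (s1 + s + 1), D m (s1 + s) k (fun r => m ≤ od s (yy s1 s r : ℤ)) M * om (bk a (s1 + s) k) W M| ≤
      6 * (2 * Real.exp (-((s : ℝ) / 18)) + 2 * Real.exp (-(((s1 + s : ℕ) : ℝ) ^ (1 / 10 : ℝ)))) := by
  classical
  obtain ⟨t, ht'⟩ : ∃ t, t = s1 + s := ⟨_, rfl⟩
  obtain ⟨P, hP⟩ : ∃ P : ℕ → Prop, P = fun r : ℕ => m ≤ od s (yy s1 s r : ℤ) := ⟨_, rfl⟩
  have hf := few_odd m s1 s hs hs1 (KS (s1 + s) m)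
  have ho := le_trans (mass_set (s1 + s) (Finset.range (s1 + s + 1) \ KS (s1 + s) m) (fun r : ℕ => m ≤ od s (yy s1 s r : ℤ)))
    (card_out ht hm _ (fun k hk => (Finset.mem_sdiff.mp hk).2))
  have hsub : KS (s1 + s) m ⊆ Finset.range (s1 + s + 1) := by unfold KS; exact Finset.filter_subset _ _
  have hmt : m ≤ s1 + s := by omega
  have hPn : (fun r : ℕ => ¬ m ≤ od s (yy s1 s r : ℤ)) = fun r => ¬ P r := by rw [hP]
  rw [hPn] at hf
  rw [← hP] at ho ⊢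
  rw [← ht'] at hf ho hsub hmt hz ⊢
  obtain ⟨K, hK⟩ : ∃ K, K = KS t m := ⟨_, rfl⟩
  rw [← hK] at hf ho hsub ⊢
  rw [← Finset.sum_sub_distrib]
  refine le_trans (Finset.abs_sum_le_sum_abs _ _) ?_
  have h1 : ∀ M ∈ Finset.Icc (-X) X, |Φ M * ∑ k ∈ K, D m t k (fun _ => True) M * om (bk a t k) W M -
      Φ M * ∑ k ∈ Finset.range (t + 1), D m t k P M * om (bk a t k) W M| ≤
      ∑ k ∈ K, D m t k (fun r => ¬ P r) M * om (bk a t k) W M +
      ∑ k ∈ Finset.range (t + 1) \ K, D m t k P M * om (bk a t k) W M := by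
    intro M _
    have e1 : ∑ k ∈ K, D m t k (fun _ => True) M * om (bk a t k) W M =
        ∑ k ∈ K, D m t k P M * om (bk a t k) W M + ∑ k ∈ K, D m t k (fun r => ¬ P r) M * om (bk a t k) W M := by
      rw [← Finset.sum_add_distrib]
      apply Finset.sum_congr rfl
      intro k _
      rw [D_split m t k P M]; ring
    have e2 := Finset.sum_sdiff (f := fun k => D m t k P M * om (bk a t k) W M) hsub
    have p1 : 0 ≤ ∑ k ∈ K, D m t k (fun r => ¬ P r) M * om (bk a t k) W M :=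
      Finset.sum_nonneg (fun k _ => mul_nonneg (D_nonneg _ _ _ _ _) (om_nonneg _ _ _))
    have p2 : 0 ≤ ∑ k ∈ Finset.range (t + 1) \ K, D m t k P M * om (bk a t k) W M :=
      Finset.sum_nonneg (fun k _ => mul_nonneg (D_nonneg _ _ _ _ _) (om_nonneg _ _ _))
    rw [← mul_sub, abs_mul, abs_of_nonneg (hΦ0 M), e1, ← e2]
    refine le_trans (mul_le_mul_of_nonneg_right (hΦ1 M) (abs_nonneg _)) ?_
    rw [one_mul, abs_le]
    constructor <;> linarith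
  refine le_trans (Finset.sum_le_sum h1) ?_
  rw [Finset.sum_add_distrib, Finset.sum_comm, Finset.sum_comm (s := Finset.Icc (-X) X) (t := Finset.range (t + 1) \ K)]
  have h2 : ∑ k ∈ K, ∑ M ∈ Finset.Icc (-X) X, D m t k (fun r => ¬ P r) M * om (bk a t k) W M ≤
      6 * ∑ k ∈ K, mass t k (fun r => ¬ P r) := by
    rw [Finset.mul_sum]
    exact Finset.sum_le_sum (fun k _ => finemass hmt hW0 hW1 hz _ X)
  have h3 : ∑ k ∈ Finset.range (t + 1) \ K, ∑ M ∈ Finset.Icc (-X) X, D m t k P M * om (bk a t k) W M ≤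
      6 * ∑ k ∈ Finset.range (t + 1) \ K, mass t k P := by
    rw [Finset.mul_sum]
    exact Finset.sum_le_sum (fun k _ => finemass hmt hW0 hW1 hz _ X)
  linarith

/-- the limiting profile -/
noncomputable def ee (Φ : ℤ → ℝ) (X : ℤ) (m s : ℕ) (W b : ℝ) : ℝ :=
  ∑ M ∈ Finset.Icc (-X) X, Φ M * ∑ y ∈ Finset.range (2 ^ s),
    if m ≤ od s (y : ℤ) ∧ (3 : ℤ) ^ m ∣ 2 ^ s * M - cc s (y : ℤ) then (3 : ℝ) ^ m / 2 ^ s * om (bk b s (od s (y : ℤ))) W M else 0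

theorem bk_bk (a : ℝ) (s1 s j k : ℕ) : bk (bk a s1 j) s k = bk a (s1 + s) (j + k) := by
  unfold bk; push_cast; ring

theorem inner_id (m s1 s : ℕ) (h : ℕ → ℝ) (M : ℤ) :
    ∑ k ∈ Finset.range (s1 + s + 1), D m (s1 + s) k (fun r => m ≤ od s (yy s1 s r : ℤ)) M * h k =
    ∑ x ∈ Finset.range (2 ^ s1), ∑ y ∈ Finset.range (2 ^ s),
      if m ≤ od s (y : ℤ) ∧ (3 : ℤ) ^ m ∣ 2 ^ s * M - cc s (y : ℤ) then (3 : ℝ) ^ m / 2 ^ (s1 + s) * h (od s1 (x : ℤ) + od s (y : ℤ)) else 0 := by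
  classical
  obtain ⟨f, hf⟩ : ∃ f : ℕ → ℕ → ℝ, f = fun x y : ℕ => if m ≤ od s (y : ℤ) ∧ (3 : ℤ) ^ m ∣ 2 ^ s * M - cc s (y : ℤ) then (3 : ℝ) ^ m / 2 ^ (s1 + s) * h (od s1 (x : ℤ) + od s (y : ℤ)) else 0 := ⟨_, rfl⟩
  have e : ∑ x ∈ Finset.range (2 ^ s1), ∑ y ∈ Finset.range (2 ^ s),
      (if m ≤ od s (y : ℤ) ∧ (3 : ℤ) ^ m ∣ 2 ^ s * M - cc s (y : ℤ) then (3 : ℝ) ^ m / 2 ^ (s1 + s) * h (od s1 (x : ℤ) + od s (y : ℤ)) else 0) =
      ∑ x ∈ Finset.range (2 ^ s1), ∑ y ∈ Finset.range (2 ^ s), f x y := by rw [hf]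
  rw [e, ← sum_split s1 s f]
  unfold D
  rw [Finset.sum_congr rfl (fun k _ => Finset.sum_mul _ _ _), Finset.sum_comm]
  apply Finset.sum_congr rfl
  intro r _
  have hmem : od (s1 + s) (r : ℤ) ∈ Finset.range (s1 + s + 1) := by
    rw [Finset.mem_range]; have := od_le (s1 + s) (r : ℤ); omega
  rw [Finset.sum_eq_single_of_mem _ hmem]
  · have e1 : od (s1 + s) (r : ℤ) = od s1 ((r % 2 ^ s1 : ℕ) : ℤ) + od s (yy s1 s r : ℤ) := by
      rw [od_split, od_mod]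
    rw [hf]
    simp only
    by_cases h2 : m ≤ od s (yy s1 s r : ℤ)
    · have h3 := dvd_iff_last m s1 s r M h2
      by_cases h4 : (3 : ℤ) ^ m ∣ M - T^[s1 + s] (r : ℤ)
      · rw [if_pos ⟨trivial, h2, h4⟩, if_pos ⟨h2, h3.mp h4⟩, e1]
      · rw [if_neg (fun h => h4 h.2.2), if_neg (fun h => h4 (h3.mpr h.2)), zero_mul]
    · rw [if_neg (fun h => h2 h.2.1), if_neg (fun h => h2 h.1), zero_mul]
  · intro k _ hne
    rw [if_neg (fun h => hne h.1.symm), zero_mul]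

theorem main_id (Φ : ℤ → ℝ) (X : ℤ) (m s1 s : ℕ) (a W : ℝ) :
    ∑ M ∈ Finset.Icc (-X) X, Φ M * ∑ k ∈ Finset.range (s1 + s + 1), D m (s1 + s) k (fun r => m ≤ od s (yy s1 s r : ℤ)) M * om (bk a (s1 + s) k) W M =
    Eo s1 (fun j => ee Φ X m s W (bk a s1 j)) := by
  have h1 : ∀ M ∈ Finset.Icc (-X) X, Φ M * ∑ k ∈ Finset.range (s1 + s + 1), D m (s1 + s) k (fun r => m ≤ od s (yy s1 s r : ℤ)) M * om (bk a (s1 + s) k) W M =
      ∑ x ∈ Finset.range (2 ^ s1), Φ M * (∑ y ∈ Finset.range (2 ^ s),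
        if m ≤ od s (y : ℤ) ∧ (3 : ℤ) ^ m ∣ 2 ^ s * M - cc s (y : ℤ) then (3 : ℝ) ^ m / 2 ^ s * om (bk (bk a s1 (od s1 (x : ℤ))) s (od s (y : ℤ))) W M else 0) / 2 ^ s1 := by
    intro M _
    rw [inner_id m s1 s (fun k => om (bk a (s1 + s) k) W M) M, Finset.mul_sum]
    apply Finset.sum_congr rfl
    intro x _
    rw [mul_div_assoc, Finset.sum_div]
    congr 1
    apply Finset.sum_congr rfl
    intro y _
    rw [bk_bk]
    split_ifs
    · rw [pow_add]; field_simp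
    · rw [zero_div]
  rw [Finset.sum_congr rfl h1, Finset.sum_comm]
  unfold Eo ee
  rw [Finset.sum_div]
  apply Finset.sum_congr rfl
  intro x _
  rw [Finset.sum_div]

theorem Eo_zero (g : ℕ → ℝ) : Eo 0 g = g 0 := by
  unfold Eo
  simp [od]

theorem ee_nonneg {Φ : ℤ → ℝ} (hΦ0 : ∀ N, 0 ≤ Φ N) (X : ℤ) (m s : ℕ) (W b : ℝ) : 0 ≤ ee Φ X m s W b := by
  unfold ee
  apply Finset.sum_nonneg
  intro M _
  apply mul_nonneg (hΦ0 M)
  apply Finset.sum_nonneg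
  intro y _
  split_ifs
  · exact mul_nonneg (by positivity) (om_nonneg _ _ _)
  · exact le_rfl

theorem ee_le {Φ : ℤ → ℝ} (hΦ1 : ∀ N, Φ N ≤ 1) (X : ℤ) {m s : ℕ} (hm : m ≤ s) {W b : ℝ}
    (hW0 : 0 < W) (hW1 : W ≤ 1) (hz : 16 * 10 ^ s ≤ W * Real.exp (b - W)) : ee Φ X m s W b ≤ 6 := by
  have h1 := main_id Φ X m 0 s b W
  rw [Eo_zero] at h1
  have h2 : bk b 0 0 = b := by unfold bk; simp
  rw [h2] at h1
  rw [← h1, zero_add]
  have h3 : ∀ M ∈ Finset.Icc (-X) X, Φ M * ∑ k ∈ Finset.range (s + 1), D m s k (fun r => m ≤ od s (yy 0 s r : ℤ)) M * om (bk b s k) W M ≤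
      ∑ k ∈ Finset.range (s + 1), D m s k (fun r => m ≤ od s (yy 0 s r : ℤ)) M * om (bk b s k) W M := by
    intro M _
    apply mul_le_of_le_one_left _ (hΦ1 M)
    exact Finset.sum_nonneg (fun k _ => mul_nonneg (D_nonneg _ _ _ _ _) (om_nonneg _ _ _))
  refine le_trans (Finset.sum_le_sum h3) ?_
  rw [Finset.sum_comm]
  refine le_trans (Finset.sum_le_sum (fun k _ => finemass hm hW0 hW1 hz _ X)) ?_
  rw [← Finset.mul_sum]
  have := mass_le_one s (Finset.range (s + 1)) (fun r => m ≤ od s (yy 0 s r : ℤ))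
  linarith

end Pool.Agent.Helper3.TD
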