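import Pool.Agent.Helper3.TD.Fine3

/-! The exact kernel theorem. -/

namespace Pool.Agent.Helper3.TD

open Pool.Agent.Helper3.ND

theorem inv_le_rpow {t : ℝ} (ht : 1 ≤ t) : 1 / t ≤ t ^ (-(19 / 20) : ℝ) := by
  rw [one_div, ← Real.rpow_neg_one]
  exact Real.rpow_le_rpow_of_exponent_le ht (by norm_num)

/-- **Exact kernel** -/
theorem fine : ∃ C : ℝ, 0 < C ∧ ∃ t0 : ℕ, 10 ^ 3 ≤ t0 ∧ ∀ s1 s m : ℕ, t0 ≤ s1 + s → s1 + s ≤ 100 * m → 3 * m ≤ s →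
    ∀ a W : ℝ, 0 < W → W ≤ 1 → 16 * 10 ^ (s1 + s) ≤ W * Real.exp (a - W) →
    ∀ X : ℤ, 2 ^ (s1 + s) * Real.exp (a + W) ≤ X → ∀ Φ : ℤ → ℝ, (∀ N, 0 ≤ Φ N) → (∀ N, Φ N ≤ 1) →
    (∀ N : ℤ, Real.exp (a - W) < |(N : ℝ)| → Φ (T^[s1 + s] N) = Φ N) →
    |SS Φ X a W - Eo s1 (fun j => ee Φ X m s W (bk a s1 j))| ≤ C * ((s1 + s : ℕ) : ℝ) ^ (-(19 / 20) : ℝ) := by
  obtain ⟨C, hC, n0, hn0, H⟩ := mixing
  obtain ⟨F, hF, hF0⟩ : ∃ F : ℝ, F = (Nat.factorial 20 : ℝ) ∧ 0 < F := ⟨_, rfl, by positivity⟩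
  refine ⟨24 * F + 10 + 600 * C + 12 * 1800, by positivity, 100 * n0, by omega, ?_⟩
  intro s1 s m ht htm hs a W hW0 hW1 hz X hX Φ hΦ0 hΦ1 hinv
  have ht3 : 10 ^ 3 ≤ s1 + s := by omega
  have hM := H (s1 + s) m (by omega) (by omega)
  have hA := fineA hΦ0 hΦ1 ht3 (show 5 * m ≤ 2 * (s1 + s) by omega) hW0 (by
    have h5 : (16 : ℝ) * 10 ^ (s1 + s) ≤ Real.exp (a - W) := by
      have : W * Real.exp (a - W) ≤ 1 * Real.exp (a - W) := mul_le_mul_of_nonneg_right hW1 (Real.exp_pos _).le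
      linarith
    have h6 : (2 : ℝ) ^ (s1 + s) ≤ 10 ^ (s1 + s) := pow_le_pow_left₀ (by norm_num) (by norm_num) _
    have h7 : (0 : ℝ) < 2 ^ (s1 + s) := by positivity
    linarith) X hinv
  have hB := fineB hΦ0 hΦ1 (m := m) hW0 hW1 hz X hX
  have hD := fineD hΦ0 hΦ1 (m := m) hW0 hW1 hz X
  have hE := fineE hΦ0 hΦ1 ht3 (show 5 * m ≤ 2 * (s1 + s) by omega) hs (by omega) hW0 hW1 hz X
  rw [main_id] at hE
  obtain ⟨t, htdef⟩ : ∃ t, t = s1 + s := ⟨_, rfl⟩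
  rw [← htdef] at ht ht3 htm hM hA hB hD hE ⊢
  have ht' : (10 ^ 3 : ℝ) ≤ t := by exact_mod_cast ht3
  have ht0 : (0 : ℝ) < t := by linarith
  have hm0 : (0 : ℝ) < m := by
    have : 0 < m := by omega
    exact_mod_cast this
  have e1 : Real.exp (-((t : ℝ) ^ (1 / 10 : ℝ))) ≤ F / (t : ℝ) ^ 2 := by
    rw [hF]; exact exp_tail (by linarith)
  have e1' : Real.exp (-((t : ℝ) ^ (1 / 10 : ℝ))) ≤ F * (1 / t) := by
    refine le_trans e1 ?_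
    rw [mul_one_div]
    apply div_le_div_of_nonneg_left hF0.le ht0
    nlinarith
  have e2 : Real.exp (-((s : ℝ) / 18)) ≤ 1800 * (1 / t) := by
    have hs0 : (0 : ℝ) < s := by
      have : 0 < s := by omega
      exact_mod_cast this
    refine le_trans (exp_neg_le_inv (show 0 < (s : ℝ) / 18 by positivity)) ?_
    rw [one_div_div, mul_one_div, div_le_div_iff₀ hs0 ht0]
    have : (t : ℝ) ≤ 100 * s := by
      have : t ≤ 100 * s := by omega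
      exact_mod_cast this
    linarith
  have e3 : (1 / 5 : ℝ) ^ t ≤ 1 / t := by
    rw [one_div_pow]
    apply one_div_le_one_div_of_le ht0
    have h1 : t < 5 ^ t := Nat.lt_pow_self (by norm_num)
    have h2 : (t : ℝ) < ((5 ^ t : ℕ) : ℝ) := by exact_mod_cast h1
    push_cast at h2
    exact h2.le
  have e4 : C * (t : ℝ) ^ (1 / 20 : ℝ) / m ≤ 100 * C * (t : ℝ) ^ (-(19 / 20) : ℝ) := by
    have h0 : (t : ℝ) ^ (-(19 / 20) : ℝ) = (t : ℝ) ^ (1 / 20 : ℝ) / t := by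
      rw [eq_div_iff ht0.ne']
      nth_rewrite 2 [← Real.rpow_one (t : ℝ)]
      rw [← Real.rpow_add ht0]
      norm_num
    rw [h0, mul_div_assoc', div_le_div_iff₀ hm0 ht0]
    have h1 : (t : ℝ) ≤ 100 * m := by exact_mod_cast htm
    have h2 : 0 < (t : ℝ) ^ (1 / 20 : ℝ) := Real.rpow_pos_of_pos ht0 _
    have h3 : 0 < C * (t : ℝ) ^ (1 / 20 : ℝ) := by positivity
    nlinarith
  have e5 := inv_le_rpow (show (1 : ℝ) ≤ t by linarith)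
  obtain ⟨R, hR⟩ : ∃ R : ℝ, R = (t : ℝ) ^ (-(19 / 20) : ℝ) := ⟨_, rfl⟩
  obtain ⟨I, hI⟩ : ∃ I : ℝ, I = 1 / (t : ℝ) := ⟨_, rfl⟩
  rw [← hR] at e4 e5 ⊢
  rw [← hI] at e1' e2 e3 e5
  have hI0 : 0 < I := by rw [hI]; positivity
  have b1 : 4 * Real.exp (-((t : ℝ) ^ (1 / 10 : ℝ))) * (2 * W + 1) ≤ 12 * F * I := by
    calc 4 * Real.exp (-((t : ℝ) ^ (1 / 10 : ℝ))) * (2 * W + 1) ≤ 4 * (F * I) * 3 := by
          apply mul_le_mul _ (by linarith) (by linarith) (by positivity)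
          linarith
      _ = _ := by ring
  have b2 := le_trans hM e4
  have t1 := abs_sub_le (SS Φ X a W) (∑ N ∈ Finset.Icc (-X) X, (if od t N ∈ KS t m then Φ (T^[t] N) * om a W N else 0))
    (Eo s1 (fun j => ee Φ X m s W (bk a s1 j)))
  have t2 := abs_sub_le (∑ N ∈ Finset.Icc (-X) X, (if od t N ∈ KS t m then Φ (T^[t] N) * om a W N else 0))
    (∑ M ∈ Finset.Icc (-X) X, Φ M * ∑ k ∈ KS t m, D k t k (fun _ => True) M * om (bk a t k) W M)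
    (Eo s1 (fun j => ee Φ X m s W (bk a s1 j)))
  have t3 := abs_sub_le (∑ M ∈ Finset.Icc (-X) X, Φ M * ∑ k ∈ KS t m, D k t k (fun _ => True) M * om (bk a t k) W M)
    (∑ M ∈ Finset.Icc (-X) X, Φ M * ∑ k ∈ KS t m, D m t k (fun _ => True) M * om (bk a t k) W M)
    (Eo s1 (fun j => ee Φ X m s W (bk a s1 j)))
  have f1 : F * I ≤ F * R := mul_le_mul_of_nonneg_left e5 hF0.le
  calc |SS Φ X a W - Eo s1 (fun j => ee Φ X m s W (bk a s1 j))| ≤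
      12 * F * I + (10 * I + (6 * (100 * C * R) + 6 * (2 * (1800 * I) + 2 * (F * I)))) := by linarith
    _ ≤ 12 * F * R + (10 * R + (6 * (100 * C * R) + 6 * (2 * (1800 * R) + 2 * (F * R)))) := by linarith
    _ = _ := by ring

end Pool.Agent.Helper3.TD
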