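import Pool.Agent.Helper3.TD.Fine3
import Pool.Agent.Helper3.TD.MixK

/-! The exact kernel with an arbitrary power of decay and with a time budget. -/

namespace Pool.Agent.Helper3.TD

open Pool.Agent.Helper3.ND

/-- restriction to typical numbers of odd steps -/
theorem fineA2 {Φ Ψ : ℤ → ℝ} (hΦ0 : ∀ N, 0 ≤ Φ N) (hΦ1 : ∀ N, Φ N ≤ 1) {t m : ℕ} (ht : 10 ^ 3 ≤ t) (hm : 5 * m ≤ 2 * t)
    {a W : ℝ} (hW0 : 0 < W) (hq : 4 * (2 : ℝ) ^ t ≤ Real.exp (a - W)) (X : ℤ)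
    (hinv : ∀ N : ℤ, Real.exp (a - W) < |(N : ℝ)| → Ψ (T^[t] N) = Φ N) :
    |SS Φ X a W - ∑ N ∈ Finset.Icc (-X) X, (if od t N ∈ KS t m then Ψ (T^[t] N) * om a W N else 0)| ≤
      4 * Real.exp (-((t : ℝ) ^ (1 / 10 : ℝ))) * (2 * W + 1) := by
  classical
  obtain ⟨f, hf⟩ : ∃ f : ℤ → ℝ, f = fun N => if od t N ∈ KS t m then 0 else 1 := ⟨_, rfl⟩
  have hf0 : ∀ x, 0 ≤ f x := by
    intro x; rw [hf]; simp only; split_ifs <;> norm_num
  have hfp : ∀ x : ℤ, f (x + ((2 ^ t : ℕ) : ℤ)) = f x := by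
    intro x
    rw [hf]
    simp only
    have := (shift t x 1).1
    rw [mul_one] at this
    push_cast
    rw [this]
  have h1 : |SS Φ X a W - ∑ N ∈ Finset.Icc (-X) X, (if od t N ∈ KS t m then Ψ (T^[t] N) * om a W N else 0)| ≤
      ∑ N ∈ Finset.Icc (-X) X, (if |Real.log |(N : ℝ)| - a| ≤ W then f N / |(N : ℝ)| else 0) := by
    unfold SS
    rw [← Finset.sum_sub_distrib]
    refine le_trans (Finset.abs_sum_le_sum_abs _ _) (Finset.sum_le_sum ?_)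
    intro N _
    by_cases h0 : om a W N = 0
    · rw [h0]
      have : (0 : ℝ) ≤ if |Real.log |(N : ℝ)| - a| ≤ W then f N / |(N : ℝ)| else 0 := by
        split_ifs
        · exact div_nonneg (hf0 _) (abs_nonneg _)
        · exact le_rfl
      simpa using this
    · obtain ⟨h2, h3⟩ := om_ne_zero hW0 h0
      have h4 : Real.exp (a - W) < |(N : ℝ)| := by
        rw [← Real.lt_log_iff_exp_lt h2]
        rw [abs_lt] at h3
        linarith
      rw [hinv N h4, if_pos h3.le]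
      by_cases h5 : od t N ∈ KS t m
      · rw [if_pos h5, sub_self, abs_zero]
        exact div_nonneg (hf0 _) (abs_nonneg _)
      · rw [if_neg h5, sub_zero, hf]
        simp only
        rw [if_neg h5, abs_of_nonneg (mul_nonneg (hΦ0 _) (om_nonneg _ _ _))]
        calc Φ N * om a W N ≤ 1 * (1 / |(N : ℝ)|) := by
              apply mul_le_mul (hΦ1 _) (om_le _ _ _) (om_nonneg _ _ _) (by norm_num)
          _ = _ := by rw [one_mul]
  have hq' : 4 * ((2 ^ t : ℕ) : ℝ) ≤ Real.exp (a - W) := by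
    push_cast; exact hq
  have h2 := win_sum (Nat.one_le_pow t 2 (by norm_num)) hfp hf0 hW0.le hq' X
  refine le_trans h1 (le_trans h2 ?_)
  have h3 : AvQ (2 ^ t) f ≤ 2 * Real.exp (-((t : ℝ) ^ (1 / 10 : ℝ))) := by
    have h4 := card_out ht hm (Finset.range (t + 1) \ KS t m) (fun k hk => (Finset.mem_sdiff.mp hk).2)
    refine le_trans (le_of_eq ?_) h4
    unfold AvQ
    push_cast
    congr 1
    have h5 : ∀ r ∈ Finset.range (2 ^ t), f (r : ℤ) = if od t (r : ℤ) ∈ Finset.range (t + 1) \ KS t m then (1 : ℝ) else 0 := by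
      intro r _
      rw [hf]
      simp only
      have h6 : od t (r : ℤ) ∈ Finset.range (t + 1) := by
        rw [Finset.mem_range]; have := od_le t (r : ℤ); omega
      by_cases h7 : od t (r : ℤ) ∈ KS t m
      · rw [if_pos h7, if_neg (fun h8 => (Finset.mem_sdiff.mp h8).2 h7)]
      · rw [if_neg h7, if_pos (Finset.mem_sdiff.mpr ⟨h6, h7⟩)]
    rw [Finset.sum_congr rfl h5, ← Finset.sum_filter, Finset.sum_const, nsmul_eq_mul, mul_one]
  calc 2 * AvQ (2 ^ t) f * (2 * W + 1) ≤ 2 * (2 * Real.exp (-((t : ℝ) ^ (1 / 10 : ℝ)))) * (2 * W + 1) := by gcongr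
    _ = _ := by ring


theorem exp_neg_powK (q : ℕ) {x : ℝ} (hx : 0 < x) : Real.exp (-x) ≤ (Nat.factorial q : ℝ) / x ^ q := by
  have h1 := Real.pow_div_factorial_le_exp x hx.le q
  rw [Real.exp_neg, le_div_iff₀ (by positivity), inv_mul_le_iff₀ (Real.exp_pos _)]
  rw [div_le_iff₀ (by positivity)] at h1
  linarith

/-- **Exact kernel**, arbitrary power -/
theorem fineK (q : ℕ) : ∃ C : ℝ, 0 < C ∧ ∃ t0 : ℕ, 10 ^ 3 ≤ t0 ∧ ∀ s1 s m : ℕ, t0 ≤ s1 + s → s1 + s ≤ 100 * m → 3 * m ≤ s →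
    ∀ a W : ℝ, 0 < W → W ≤ 1 → 16 * 10 ^ (s1 + s) ≤ W * Real.exp (a - W) →
    ∀ X : ℤ, 2 ^ (s1 + s) * Real.exp (a + W) ≤ X → ∀ Φ Ψ : ℤ → ℝ, (∀ N, 0 ≤ Φ N) → (∀ N, Φ N ≤ 1) →
    (∀ N, 0 ≤ Ψ N) → (∀ N, Ψ N ≤ 1) →
    (∀ N : ℤ, Real.exp (a - W) < |(N : ℝ)| → Ψ (T^[s1 + s] N) = Φ N) →
    |SS Φ X a W - Eo s1 (fun j => ee Ψ X m s W (bk a s1 j))| ≤ C / ((s1 + s : ℕ) : ℝ) ^ q := by
  obtain ⟨C, hC, n0, hn0, H⟩ := mixingK q
  obtain ⟨F, hF, hF0⟩ : ∃ F : ℝ, F = (Nat.factorial (10 * q) : ℝ) ∧ 0 < F := ⟨_, rfl, by positivity⟩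
  obtain ⟨F2, hF2, hF20⟩ : ∃ F2 : ℝ, F2 = (Nat.factorial q : ℝ) * 1800 ^ q ∧ 0 < F2 := ⟨_, rfl, by positivity⟩
  obtain ⟨F3, hF3, hF30⟩ : ∃ F3 : ℝ, F3 = (Nat.factorial q : ℝ) ∧ 0 < F3 := ⟨_, rfl, by positivity⟩
  refine ⟨24 * F + 10 * F3 + 6 * (C * 100 ^ (q + 1)) + 12 * F2, by positivity, 100 * n0, by omega, ?_⟩
  intro s1 s m ht htm hs a W hW0 hW1 hz X hX Φ Ψ hΦ0 hΦ1 hΨ0 hΨ1 hinv
  have ht3 : 10 ^ 3 ≤ s1 + s := by omega
  have hM := H (s1 + s) m (by omega) (by omega)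
  have hA := fineA2 hΦ0 hΦ1 ht3 (show 5 * m ≤ 2 * (s1 + s) by omega) hW0 (by
    have h5 : (16 : ℝ) * 10 ^ (s1 + s) ≤ Real.exp (a - W) := by
      have : W * Real.exp (a - W) ≤ 1 * Real.exp (a - W) := mul_le_mul_of_nonneg_right hW1 (Real.exp_pos _).le
      linarith
    have h6 : (2 : ℝ) ^ (s1 + s) ≤ 10 ^ (s1 + s) := pow_le_pow_left₀ (by norm_num) (by norm_num) _
    have h7 : (0 : ℝ) < 2 ^ (s1 + s) := by positivity
    linarith) X hinv
  have hB := fineB hΨ0 hΨ1 (m := m) hW0 hW1 hz X hX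
  have hD := fineD hΨ0 hΨ1 (m := m) hW0 hW1 hz X
  have hE := fineE hΨ0 hΨ1 ht3 (show 5 * m ≤ 2 * (s1 + s) by omega) hs (by omega) hW0 hW1 hz X
  rw [main_id] at hE
  obtain ⟨t, htdef⟩ : ∃ t, t = s1 + s := ⟨_, rfl⟩
  rw [← htdef] at ht ht3 htm hM hA hB hD hE ⊢
  have ht' : (10 ^ 3 : ℝ) ≤ t := by exact_mod_cast ht3
  have ht0 : (0 : ℝ) < t := by linarith
  have hm0 : (0 : ℝ) < m := by
    have : 0 < m := by omega
    exact_mod_cast this
  obtain ⟨I, hI⟩ : ∃ I : ℝ, I = 1 / (t : ℝ) ^ q := ⟨_, rfl⟩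
  have hI0 : 0 < I := by rw [hI]; positivity
  have e1' : Real.exp (-((t : ℝ) ^ (1 / 10 : ℝ))) ≤ F * I := by
    rw [hF, hI, mul_one_div]; exact exp_tailK q (by linarith)
  have e2 : Real.exp (-((s : ℝ) / 18)) ≤ F2 * I := by
    have hs0 : (0 : ℝ) < s := by
      have : 0 < s := by omega
      exact_mod_cast this
    refine le_trans (exp_neg_powK q (show 0 < (s : ℝ) / 18 by positivity)) ?_
    rw [hF2, hI, mul_one_div, div_le_div_iff₀ (by positivity) (by positivity)]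
    have h1 : (t : ℝ) ≤ 100 * s := by
      have : t ≤ 100 * s := by omega
      exact_mod_cast this
    have h2 : (t : ℝ) ^ q ≤ (1800 * (s / 18)) ^ q := by
      apply pow_le_pow_left₀ ht0.le
      linarith
    rw [mul_pow] at h2
    calc (Nat.factorial q : ℝ) * (t : ℝ) ^ q ≤ (Nat.factorial q : ℝ) * (1800 ^ q * (s / 18) ^ q) := by gcongr
      _ = _ := by ring
  have e3 : (1 / 5 : ℝ) ^ t ≤ F3 * I := by
    have h1 : (1 / 5 : ℝ) ^ t ≤ Real.exp (-t) := by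
      rw [show -(t : ℝ) = t * (-1) by ring, Real.exp_nat_mul]
      apply pow_le_pow_left₀ (by norm_num)
      rw [Real.exp_neg, one_div]
      apply inv_anti₀ (Real.exp_pos _)
      have := Real.exp_one_lt_d9
      linarith
    refine le_trans h1 ?_
    rw [hF3, hI, mul_one_div]
    exact exp_neg_powK q ht0
  have e4 : C * (t : ℝ) ^ (1 / 20 : ℝ) / (m : ℝ) ^ (q + 1) ≤ C * 100 ^ (q + 1) * I := by
    rw [hI, mul_one_div, div_le_div_iff₀ (by positivity) (by positivity)]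
    have h1 : (t : ℝ) ≤ 100 * m := by exact_mod_cast htm
    have h2 : (t : ℝ) ^ (1 / 20 : ℝ) ≤ t := by
      calc (t : ℝ) ^ (1 / 20 : ℝ) ≤ (t : ℝ) ^ (1 : ℝ) := Real.rpow_le_rpow_of_exponent_le (by linarith) (by norm_num)
        _ = t := Real.rpow_one _
    calc C * (t : ℝ) ^ (1 / 20 : ℝ) * (t : ℝ) ^ q ≤ C * t * (t : ℝ) ^ q := by gcongr
      _ = C * (t : ℝ) ^ (q + 1) := by rw [pow_succ]; ring
      _ ≤ C * (100 * m) ^ (q + 1) := by gcongr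
      _ = _ := by rw [mul_pow]; ring
  have b1 : 4 * Real.exp (-((t : ℝ) ^ (1 / 10 : ℝ))) * (2 * W + 1) ≤ 12 * F * I := by
    calc 4 * Real.exp (-((t : ℝ) ^ (1 / 10 : ℝ))) * (2 * W + 1) ≤ 4 * (F * I) * 3 := by
          apply mul_le_mul _ (by linarith) (by linarith) (by positivity)
          linarith
      _ = _ := by ring
  have b2 := le_trans hM e4
  have t1 := abs_sub_le (SS Φ X a W) (∑ N ∈ Finset.Icc (-X) X, (if od t N ∈ KS t m then Ψ (T^[t] N) * om a W N else 0))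
    (Eo s1 (fun j => ee Ψ X m s W (bk a s1 j)))
  have t2 := abs_sub_le (∑ N ∈ Finset.Icc (-X) X, (if od t N ∈ KS t m then Ψ (T^[t] N) * om a W N else 0))
    (∑ M ∈ Finset.Icc (-X) X, Ψ M * ∑ k ∈ KS t m, D k t k (fun _ => True) M * om (bk a t k) W M)
    (Eo s1 (fun j => ee Ψ X m s W (bk a s1 j)))
  have t3 := abs_sub_le (∑ M ∈ Finset.Icc (-X) X, Ψ M * ∑ k ∈ KS t m, D k t k (fun _ => True) M * om (bk a t k) W M)
    (∑ M ∈ Finset.Icc (-X) X, Ψ M * ∑ k ∈ KS t m, D m t k (fun _ => True) M * om (bk a t k) W M)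
    (Eo s1 (fun j => ee Ψ X m s W (bk a s1 j)))
  have hfin : (24 * F + 10 * F3 + 6 * (C * 100 ^ (q + 1)) + 12 * F2) / (t : ℝ) ^ q =
      12 * F * I + (10 * (F3 * I) + (6 * (C * 100 ^ (q + 1) * I) + 6 * (2 * (F2 * I) + 2 * (F * I)))) := by
    rw [hI]; ring
  rw [hfin]
  linarith

end Pool.Agent.Helper3.TD
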