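import Pool.Agent.Helper3.TD.Char
import Pool.Agent.Helper3.TD.Digits

/-! Character sums over trajectories. -/

namespace Pool.Agent.Helper3.TD

open Pool.Agent.Helper3.ND

/-- character sum over trajectories of length `t` with `k` odd steps -/
noncomputable def Fs (n t k : ℕ) (z : ZMod (Q n)) : ℂ :=
  ∑ r ∈ Finset.range (2 ^ t), if od t (r : ℤ) = k then (ZMod.stdAddChar (z * ((T^[t] (r : ℤ) : ℤ) : ZMod (Q n))) : ℂ) else 0

theorem hf_pow (n u : ℕ) : (2 : ZMod (Q n)) ^ u * hf n ^ u = 1 := by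
  rw [← mul_pow, two_hf, one_pow]

theorem T_zmod (n s u k : ℕ) (z : ZMod (Q n)) (hz : z * 3 ^ k = 0) (r : ℕ) (hk : od (s + u) (r : ℤ) = k) :
    z * ((T^[s + u] (r : ℤ) : ℤ) : ZMod (Q n)) =
      z * hf n ^ u * ((cc u (yy s u r) : ℤ) : ZMod (Q n)) +
        z * hf n ^ u * 3 ^ od u (yy s u r) * ((T^[s] ((r % 2 ^ s : ℕ) : ℤ) : ℤ) : ZMod (Q n)) := by
  have h1 := T_split s u (r : ℤ)
  have h2 : ((2 ^ u * T^[s + u] (r : ℤ) : ℤ) : ZMod (Q n)) =
      ((3 ^ od u (yy s u r) * T^[s] (r : ℤ) + cc u (yy s u r) : ℤ) : ZMod (Q n)) := by rw [h1]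
  push_cast at h2
  obtain ⟨m, hm⟩ := emod_T s r
  have h3 : ((T^[s] (r : ℤ) : ℤ) : ZMod (Q n)) = ((T^[s] ((r % 2 ^ s : ℕ) : ℤ) : ℤ) : ZMod (Q n)) + 3 ^ od s (r : ℤ) * (m : ZMod (Q n)) := by
    rw [hm]; push_cast; rfl
  have h4 : z * 3 ^ od u (yy s u r) * 3 ^ od s (r : ℤ) = 0 := by
    rw [mul_assoc, ← pow_add, add_comm, ← od_split, hk, hz]
  calc z * ((T^[s + u] (r : ℤ) : ℤ) : ZMod (Q n)) = z * (2 ^ u * hf n ^ u) * ((T^[s + u] (r : ℤ) : ℤ) : ZMod (Q n)) := by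
        rw [hf_pow, mul_one]
    _ = z * hf n ^ u * (2 ^ u * ((T^[s + u] (r : ℤ) : ℤ) : ZMod (Q n))) := by ring
    _ = z * hf n ^ u * ((cc u (yy s u r) : ℤ) : ZMod (Q n)) +
        z * hf n ^ u * 3 ^ od u (yy s u r) * ((T^[s] ((r % 2 ^ s : ℕ) : ℤ) : ℤ) : ZMod (Q n)) +
        hf n ^ u * (z * 3 ^ od u (yy s u r) * 3 ^ od s (r : ℤ)) * m := by
          rw [h2, h3]; ring
    _ = _ := by rw [h4]; ring

theorem Fs_split (n s u k : ℕ) (z : ZMod (Q n)) (hz : z * 3 ^ k = 0) (w : ℕ → ℂ) :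
    (∑ r ∈ Finset.range (2 ^ (s + u)), if od (s + u) (r : ℤ) = k then
        w (yy s u r) * (ZMod.stdAddChar (z * ((T^[s + u] (r : ℤ) : ℤ) : ZMod (Q n))) : ℂ) else 0) =
      ∑ y ∈ Finset.range (2 ^ u), if od u (y : ℤ) ≤ k then
        w y * (ZMod.stdAddChar (z * hf n ^ u * ((cc u (y : ℤ) : ℤ) : ZMod (Q n))) : ℂ) *
          Fs n s (k - od u (y : ℤ)) (z * hf n ^ u * 3 ^ od u (y : ℤ)) else 0 := by
  obtain ⟨f, hf'⟩ : ∃ f : ℕ → ℕ → ℂ, f = fun r1 y : ℕ => if od s (r1 : ℤ) + od u (y : ℤ) = k then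
        w y * ((ZMod.stdAddChar (z * hf n ^ u * ((cc u (y : ℤ) : ℤ) : ZMod (Q n))) : ℂ) *
        (ZMod.stdAddChar (z * hf n ^ u * 3 ^ od u (y : ℤ) * ((T^[s] (r1 : ℤ) : ℤ) : ZMod (Q n))) : ℂ)) else 0 := ⟨_, rfl⟩
  have h1 : (∑ r ∈ Finset.range (2 ^ (s + u)), if od (s + u) (r : ℤ) = k then
        w (yy s u r) * (ZMod.stdAddChar (z * ((T^[s + u] (r : ℤ) : ℤ) : ZMod (Q n))) : ℂ) else 0) =
      ∑ r ∈ Finset.range (2 ^ (s + u)), f (r % 2 ^ s) (yy s u r) := by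
    apply Finset.sum_congr rfl
    intro r _
    rw [hf']
    simp only
    rw [← od_mod, ← od_split]
    split_ifs with hk
    · rw [T_zmod n s u k z hz r hk, AddChar.map_add_eq_mul]
    · rfl
  rw [h1, sum_split, Finset.sum_comm]
  apply Finset.sum_congr rfl
  intro y _
  rw [hf']
  simp only
  split_ifs with hy
  · unfold Fs
    rw [Finset.mul_sum]
    apply Finset.sum_congr rfl
    intro r1 _
    by_cases h2 : od s (r1 : ℤ) + od u (y : ℤ) = k
    · rw [if_pos h2, if_pos (by omega)]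
      ring
    · rw [if_neg h2, if_neg (by omega), mul_zero]
  · apply Finset.sum_eq_zero
    intro r1 _
    rw [if_neg (by omega)]

theorem Fs_eq_X (n t : ℕ) : ∀ (k : ℕ) (z : ZMod (Q n)), z * 3 ^ k = 0 → Fs n t k z = X n t z k := by
  induction t with
  | zero =>
    intro k z hz
    unfold Fs
    simp only [pow_zero, Finset.range_one, Finset.sum_singleton, Nat.cast_zero, od, Function.iterate_zero, id_eq,
      Int.cast_zero, mul_zero, AddChar.map_zero_eq_one]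
    cases k <;> simp [X]
  | succ t ih =>
    intro k z hz
    have h1 := Fs_split n t 1 k z hz (fun _ => 1)
    simp only [one_mul, pow_one] at h1
    unfold Fs
    rw [h1]
    have o0 : od 1 ((0 : ℕ) : ℤ) = 0 := by simp [od]
    have o1 : od 1 ((1 : ℕ) : ℤ) = 1 := by simp [od]
    have c0 : cc 1 ((0 : ℕ) : ℤ) = 0 := by simp [cc]
    have c1 : cc 1 ((1 : ℕ) : ℤ) = 1 := by simp [cc, od]
    rw [Finset.sum_range_succ, Finset.sum_range_one, o0, o1, c0, c1]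
    cases k with
    | zero =>
      simp only [le_refl, if_true, Int.cast_zero, mul_zero, AddChar.map_zero_eq_one, one_mul, pow_zero, mul_one]
      rw [if_neg (by omega), add_zero, ih 0 _ (by rw [pow_zero, mul_one] at hz ⊢; rw [hz, zero_mul])]
      simp only [X]
      rw [mul_comm]
    | succ k =>
      simp only [Nat.zero_le, if_true, Int.cast_zero, mul_zero, AddChar.map_zero_eq_one, one_mul, pow_zero, mul_one,
        Nat.sub_zero, Int.cast_one, pow_one]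
      rw [if_pos (by omega), Nat.add_sub_cancel, ih (k + 1) _ ?_, ih k _ ?_]
      · simp only [X]
        rw [mul_comm z (hf n), mul_comm (hf n * z) 3]
      · have : z * hf n * 3 * 3 ^ k = (z * 3 ^ (k + 1)) * hf n := by rw [pow_succ]; ring
        rw [this, hz, zero_mul]
      · have : z * hf n * 3 ^ (k + 1) = (z * 3 ^ (k + 1)) * hf n := by ring
        rw [this, hz, zero_mul]

end Pool.Agent.Helper3.TD
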