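import Pool.Agent.Helper3.TD.Harn3
import Pool.Agent.Helper3.TD.NatE

/-! The gap inequality for natural counting functions. -/

namespace Pool.Agent.Helper3.TD

open Pool.Agent.Helper3.ND Filter Topology

theorem Nc_triv {Φ : ℤ → ℝ} (hΦ1 : ∀ N, Φ N ≤ 1) (X : ℕ) : Nc Φ X ≤ 2 * X + 1 := by
  unfold Nc
  refine le_trans (Finset.sum_le_sum (fun n _ => hΦ1 n)) ?_
  rw [Finset.sum_const, nsmul_eq_mul, mul_one, Int.card_Icc]
  have : ((X : ℤ) + 1 - -(X : ℤ)).toNat = 2 * X + 1 := by omega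
  rw [this]
  push_cast
  exact le_rfl

/-- **gap inequality** -/
theorem gap_Nc : ∃ κ : ℝ, 0 < κ ∧ ∀ q : ℕ, ∃ C : ℝ, 0 < C ∧ ∀ X : ℕ, 2 ≤ X → ∀ Y : ℝ, 0 ≤ Y → Y ^ 16 ≤ X →
    ∀ Φ : ℤ → ℝ, Inv Φ Y → ∀ c : ℝ, Tendsto (fun X : ℕ => Nc Φ X / X) atTop (𝓝 c) →
    Nc Φ X ≤ κ * c * X * Real.log X + C * X / Real.log X ^ q := by
  obtain ⟨κ', hκ', H⟩ := gap_Gs
  refine ⟨5 * κ', by positivity, ?_⟩
  intro q
  obtain ⟨C', hC', A0, hA0, H2⟩ := H q
  refine ⟨5 * (C' * 2 ^ q) + 4 * ((Nat.factorial q : ℝ) * 2 ^ q) + Nat.factorial q + 3 * (2 * A0) ^ q, by positivity, ?_⟩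
  intro X hX Y hY hYX Φ hΦ c hc
  have hXr : (2 : ℝ) ≤ X := by exact_mod_cast hX
  have hX0 : (0 : ℝ) < X := by linarith
  have hL : 0 < Real.log X := Real.log_pos (by linarith)
  obtain ⟨L, hLL⟩ : ∃ L, L = Real.log X := ⟨_, rfl⟩
  rw [← hLL] at hL ⊢
  have hc0 : 0 ≤ c := by
    refine ge_of_tendsto hc ?_
    filter_upwards [eventually_ge_atTop 1] with Z hZ
    apply div_nonneg _ (by positivity)
    unfold Nc
    exact Finset.sum_nonneg (fun n _ => hΦ.nonneg n)
  have hmain0 : 0 ≤ 5 * κ' * c * X * L := by positivity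
  have hLq : 0 < L ^ q := by positivity
  rcases lt_or_ge L (2 * A0) with h | h
  · have h1 := Nc_triv hΦ.le_one X
    have h2 : 3 * (X : ℝ) ≤ 3 * (2 * A0) ^ q * X / L ^ q := by
      rw [le_div_iff₀ hLq]
      have h3 : L ^ q ≤ (2 * A0) ^ q := pow_le_pow_left₀ hL.le h.le q
      nlinarith
    have h3 : 0 ≤ (5 * (C' * 2 ^ q) + 4 * ((Nat.factorial q : ℝ) * 2 ^ q) + Nat.factorial q) * X / L ^ q := by positivity
    have e : (5 * (C' * 2 ^ q) + 4 * ((Nat.factorial q : ℝ) * 2 ^ q) + Nat.factorial q + 3 * (2 * A0) ^ q) * X / L ^ q =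
      (5 * (C' * 2 ^ q) + 4 * ((Nat.factorial q : ℝ) * 2 ^ q) + Nat.factorial q) * X / L ^ q + 3 * (2 * A0) ^ q * X / L ^ q := by ring
    rw [e]
    linarith
  · obtain ⟨c', hc'⟩ := Gs_lim hY hΦ
    have hcc : c' = c := tendsto_nhds_unique (nat_dens_of hΦ hc') hc
    rw [hcc] at hc'
    have hG1 := hc' 0
    simp only [pow_zero, mul_one] at hG1
    obtain ⟨K, hK⟩ : ∃ K, K = ⌊L⌋₊ := ⟨_, rfl⟩
    have hK1 : (K : ℝ) ≤ L := by rw [hK]; exact Nat.floor_le hL.le
    have hK2 : L - 1 < K := by rw [hK]; exact Nat.sub_one_lt_floor _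
    have h1 := Nc_upper hΦ.nonneg hΦ.le_one (δ := 1 / 2) (by norm_num) K (show 1 ≤ X by omega)
    rw [← hLL] at h1
    -- the scales
    have h2 : ∀ i ∈ Finset.range (K + 1), Real.exp (-(i * (1 / 2)) + 1 / 2) * Gs Φ (1 / 2) (L - i * (1 / 2)) ≤
        Real.exp (-(i * (1 / 2)) + 1 / 2) * (κ' * L * c + C' * 2 ^ q / L ^ q) := by
      intro i hi
      rw [Finset.mem_range] at hi
      have hiK : (i : ℝ) ≤ K := by exact_mod_cast (by omega : i ≤ K)
      apply mul_le_mul_of_nonneg_left _ (Real.exp_pos _).le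
      have hLi : L / 2 ≤ L - i * (1 / 2) := by linarith
      have hi0 : (0 : ℝ) ≤ i := by positivity
      have hYe : Y ≤ Real.exp ((L - i * (1 / 2)) / 8) := by
        have h3 : Real.exp (L / 16) ≤ Real.exp ((L - i * (1 / 2)) / 8) := Real.exp_le_exp.mpr (by linarith)
        refine le_trans ?_ h3
        by_contra hcon
        rw [not_le] at hcon
        have h4 := pow_lt_pow_left₀ hcon (Real.exp_pos _).le (show (16 : ℕ) ≠ 0 by norm_num)
        rw [← Real.exp_nat_mul, show ((16 : ℕ) : ℝ) * (L / 16) = L by push_cast; ring, hLL, Real.exp_log hX0] at h4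
        linarith
      have h3 := H2 (L - i * (1 / 2)) (by linarith) Y hY hYe Φ hΦ c hG1
      refine le_trans h3 ?_
      apply add_le_add
      · apply mul_le_mul_of_nonneg_right _ hc0
        apply mul_le_mul_of_nonneg_left _ hκ'.le
        linarith
      · rw [div_le_div_iff₀ (by
          have : 0 < L - i * (1 / 2) := by linarith
          positivity) hLq]
        have h4 : L ^ q ≤ (2 * (L - i * (1 / 2))) ^ q := pow_le_pow_left₀ hL.le (by linarith) q
        rw [mul_pow] at h4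
        calc C' * L ^ q ≤ C' * (2 ^ q * (L - i * (1 / 2)) ^ q) := mul_le_mul_of_nonneg_left h4 hC'.le
          _ = _ := by ring
    have h3 := Finset.sum_le_sum h2
    rw [← Finset.sum_mul] at h3
    have h4 : ∑ i ∈ Finset.range (K + 1), Real.exp (-(i * (1 / 2)) + 1 / 2) ≤ 5 := by
      have h5 := geo_upper (show (0 : ℝ) < 1 / 2 by norm_num) (K + 1)
      have e : ∑ i ∈ Finset.range (K + 1), Real.exp (-((i : ℝ) * (1 / 2)) + 1 / 2) =
          Real.exp (1 / 2) * ∑ i ∈ Finset.range (K + 1), Real.exp (-((i : ℝ) * (1 / 2))) := by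
        rw [Finset.mul_sum]
        apply Finset.sum_congr rfl
        intro i _
        rw [Real.exp_add, mul_comm]
      rw [e]
      have h6 : Real.exp (1 / 2) ≤ 5 / 3 := by
        have h7 := Real.exp_one_lt_d9
        have h8 : Real.exp (1 / 2) ^ 2 = Real.exp 1 := by rw [← Real.exp_nat_mul]; norm_num
        nlinarith [Real.exp_pos (1 / 2 : ℝ)]
      calc Real.exp (1 / 2) * ∑ i ∈ Finset.range (K + 1), Real.exp (-((i : ℝ) * (1 / 2))) ≤ 5 / 3 * 3 := by
            apply mul_le_mul h6 _ (Finset.sum_nonneg (fun i _ => (Real.exp_pos _).le)) (by norm_num)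
            refine le_trans h5 (by norm_num)
        _ = 5 := by norm_num
    have h5 : 0 ≤ κ' * L * c + C' * 2 ^ q / L ^ q := by positivity
    have h6 := mul_le_mul_of_nonneg_right h4 h5
    have h7 : Real.exp (-(K * (1 / 2))) ≤ 2 * ((Nat.factorial q : ℝ) * 2 ^ q / L ^ q) := by
      have h8 : Real.exp (-(K * (1 / 2))) ≤ Real.exp (1 / 2) * Real.exp (-(L / 2)) := by
        rw [← Real.exp_add]
        exact Real.exp_le_exp.mpr (by linarith)
      have h9 : Real.exp (1 / 2) ≤ 2 := by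
        have h7 := Real.exp_one_lt_d9
        have h8 : Real.exp (1 / 2) ^ 2 = Real.exp 1 := by rw [← Real.exp_nat_mul]; norm_num
        nlinarith [Real.exp_pos (1 / 2 : ℝ)]
      have h10 : Real.exp (-(L / 2)) ≤ (Nat.factorial q : ℝ) * 2 ^ q / L ^ q := by
        refine le_trans (exp_neg_powK q (show 0 < L / 2 by positivity)) (le_of_eq ?_)
        rw [div_pow]
        field_simp
      exact le_trans h8 (mul_le_mul h9 h10 (Real.exp_pos _).le (by norm_num))
    have h8 : 1 ≤ X * ((Nat.factorial q : ℝ) / L ^ q) := by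
      have h9 := exp_neg_powK q hL
      have h10 : X * Real.exp (-L) = 1 := by
        rw [hLL, Real.exp_neg, Real.exp_log hX0]
        exact mul_inv_cancel₀ hX0.ne'
      rw [← h10]
      exact mul_le_mul_of_nonneg_left h9 hX0.le
    calc Nc Φ X ≤ X * ∑ i ∈ Finset.range (K + 1), Real.exp (-(i * (1 / 2)) + 1 / 2) * Gs Φ (1 / 2) (L - i * (1 / 2)) +
          (2 * (X * Real.exp (-(K * (1 / 2)))) + 1) := h1
      _ ≤ X * (5 * (κ' * L * c + C' * 2 ^ q / L ^ q)) + (2 * (X * (2 * ((Nat.factorial q : ℝ) * 2 ^ q / L ^ q))) + X * ((Nat.factorial q : ℝ) / L ^ q)) := by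
          apply add_le_add
          · exact mul_le_mul_of_nonneg_left (le_trans h3 h6) hX0.le
          · apply add_le_add _ h8
            have := mul_le_mul_of_nonneg_left h7 hX0.le
            linarith
      _ = 5 * κ' * c * X * L + (5 * (C' * 2 ^ q) + 4 * ((Nat.factorial q : ℝ) * 2 ^ q) + Nat.factorial q) * X / L ^ q := by ring
      _ ≤ _ := by
          have : 0 ≤ 3 * (2 * A0) ^ q * X / L ^ q := by positivity
          have e : (5 * (C' * 2 ^ q) + 4 * ((Nat.factorial q : ℝ) * 2 ^ q) + Nat.factorial q + 3 * (2 * A0) ^ q) * X / L ^ q =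
            (5 * (C' * 2 ^ q) + 4 * ((Nat.factorial q : ℝ) * 2 ^ q) + Nat.factorial q) * X / L ^ q + 3 * (2 * A0) ^ q * X / L ^ q := by ring
          rw [e]
          linarith

end Pool.Agent.Helper3.TD
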