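import Pool.Agent.Helper3.TD.Shift

/-! The logarithmic sum over a narrow window as a function of its centre. -/

namespace Pool.Agent.Helper3.TD

open Pool.Agent.Helper3.ND

/-- logarithmic sum over a window, without truncation -/
noncomputable def Gs (Φ : ℤ → ℝ) (W a : ℝ) : ℝ := SS Φ ⌈Real.exp (a + W)⌉ a W

theorem SS_trunc (Φ : ℤ → ℝ) {a W : ℝ} (hW : 0 < W) {X X' : ℤ} (hX : Real.exp (a + W) ≤ X) (hXX : X ≤ X') :
    SS Φ X' a W = SS Φ X a W := by
  unfold SS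
  symm
  apply Finset.sum_subset
  · exact Finset.Icc_subset_Icc (by omega) hXX
  · intro N _ hN
    by_contra hne
    apply hN
    have h0 : om a W N ≠ 0 := fun h => hne (by rw [h, mul_zero])
    obtain ⟨h2, h3⟩ := om_ne_zero hW h0
    rw [abs_lt] at h3
    have h4 : |(N : ℝ)| < Real.exp (a + W) := by
      rw [← Real.log_lt_iff_lt_exp h2]; linarith
    have h5 : |(N : ℝ)| ≤ X := by linarith
    rw [Finset.mem_Icc]
    have h6 : |N| ≤ X := by exact_mod_cast h5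
    exact abs_le.mp h6

theorem Gs_eq (Φ : ℤ → ℝ) {a W : ℝ} (hW : 0 < W) {X : ℤ} (hX : Real.exp (a + W) ≤ X) : SS Φ X a W = Gs Φ W a := by
  unfold Gs
  apply SS_trunc Φ hW (Int.le_ceil _)
  exact Int.ceil_le.mpr hX

theorem Gs_nonneg {Φ : ℤ → ℝ} (hΦ0 : ∀ N, 0 ≤ Φ N) (W a : ℝ) : 0 ≤ Gs Φ W a := by
  unfold Gs SS
  exact Finset.sum_nonneg (fun N _ => mul_nonneg (hΦ0 N) (om_nonneg _ _ _))

theorem Gs_double (Φ : ℤ → ℝ) {W : ℝ} (hW : 0 < W) (a : ℝ) :
    Gs Φ (2 * W) a = 1 / 2 * Gs Φ W (a - W) + Gs Φ W a + 1 / 2 * Gs Φ W (a + W) := by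
  obtain ⟨X, hX⟩ : ∃ X : ℤ, X = ⌈Real.exp (a + 2 * W)⌉ := ⟨_, rfl⟩
  have hX1 : Real.exp (a + 2 * W) ≤ X := by rw [hX]; exact Int.le_ceil _
  have h1 : Real.exp (a - W + W) ≤ Real.exp (a + 2 * W) := Real.exp_le_exp.mpr (by linarith)
  have h2 : Real.exp (a + W) ≤ Real.exp (a + 2 * W) := Real.exp_le_exp.mpr (by linarith)
  have h3 : Real.exp (a + W + W) ≤ Real.exp (a + 2 * W) := Real.exp_le_exp.mpr (by linarith)
  rw [← Gs_eq Φ (by linarith : 0 < 2 * W) hX1, ← Gs_eq Φ hW (le_trans h1 hX1), ← Gs_eq Φ hW (le_trans h2 hX1),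
    ← Gs_eq Φ hW (le_trans h3 hX1)]
  exact SS_double Φ X a hW

/-- Lipschitz bound -/
theorem Gs_lip {Φ : ℤ → ℝ} (hΦ0 : ∀ N, 0 ≤ Φ N) (hΦ1 : ∀ N, Φ N ≤ 1) {W : ℝ} (hW0 : 0 < W) (hW1 : W ≤ 1) {a b : ℝ}
    (hab : |a - b| ≤ 1) (ha : 4 ≤ a) : |Gs Φ W a - Gs Φ W b| ≤ 10 / W * |a - b| := by
  obtain ⟨X, hX⟩ : ∃ X : ℤ, X = ⌈Real.exp (a + 2)⌉ := ⟨_, rfl⟩
  have hX1 : Real.exp (a + 2) ≤ X := by rw [hX]; exact Int.le_ceil _
  have hab2 := hab
  rw [abs_le] at hab2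
  have h1 : Real.exp (a + W) ≤ Real.exp (a + 2) := Real.exp_le_exp.mpr (by linarith)
  have h2 : Real.exp (b + W) ≤ Real.exp (a + 2) := Real.exp_le_exp.mpr (by linarith)
  rw [← Gs_eq Φ hW0 (le_trans h1 hX1), ← Gs_eq Φ hW0 (le_trans h2 hX1)]
  unfold SS
  rw [← Finset.sum_sub_distrib]
  refine le_trans (Finset.abs_sum_le_sum_abs _ _) ?_
  have h3 := win_sum (q := 1) (f := fun _ => (1 : ℝ)) le_rfl (fun _ => rfl) (fun _ => by norm_num) (b := a) (v := 2)
    (by norm_num) (by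
      have h4 := Real.exp_one_gt_d9
      have h5 : Real.exp 2 = Real.exp 1 * Real.exp 1 := by rw [← Real.exp_add]; norm_num
      have h6 : Real.exp 2 ≤ Real.exp (a - 2) := Real.exp_le_exp.mpr (by linarith)
      push_cast
      nlinarith) X
  have hav : AvQ 1 (fun _ => (1 : ℝ)) = 1 := by unfold AvQ; simp
  rw [hav] at h3
  have h4 : ∀ N ∈ Finset.Icc (-X) X, |Φ N * om a W N - Φ N * om b W N| ≤
      (|a - b| / W) * (if |Real.log |(N : ℝ)| - a| ≤ 2 then 1 / |(N : ℝ)| else 0) := by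
    intro N _
    rw [← mul_sub, abs_mul, abs_of_nonneg (hΦ0 N)]
    refine le_trans (mul_le_mul_of_nonneg_right (hΦ1 N) (abs_nonneg _)) ?_
    rw [one_mul]
    by_cases h5 : |Real.log |(N : ℝ)| - a| ≤ 2
    · rw [if_pos h5]
      unfold om
      rw [← sub_div, abs_div, abs_abs, mul_one_div]
      apply div_le_div_of_nonneg_right _ (abs_nonneg _)
      refine le_trans (tent_lip _ _) (le_of_eq ?_)
      rw [← sub_div, abs_div, abs_of_pos hW0]
      congr 1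
      rw [show Real.log |(N : ℝ)| - a - (Real.log |(N : ℝ)| - b) = -(a - b) by ring, abs_neg]
    · rw [if_neg h5, mul_zero]
      have e1 : om a W N = 0 := by
        by_contra hne
        apply h5
        have := (om_ne_zero hW0 hne).2
        linarith
      have e2 : om b W N = 0 := by
        by_contra hne
        apply h5
        have := (om_ne_zero hW0 hne).2
        rw [abs_lt] at this
        rw [abs_le]
        constructor <;> linarith
      rw [e1, e2, sub_zero, abs_zero]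
  refine le_trans (Finset.sum_le_sum h4) ?_
  rw [← Finset.mul_sum]
  have h5 : 0 ≤ |a - b| / W := by positivity
  have h6 : (|a - b| / W) * ∑ N ∈ Finset.Icc (-X) X, (if |Real.log |(N : ℝ)| - a| ≤ 2 then 1 / |(N : ℝ)| else 0) ≤
      (|a - b| / W) * 10 := mul_le_mul_of_nonneg_left (by linarith) h5
  refine le_trans h6 (le_of_eq ?_)
  ring

end Pool.Agent.Helper3.TD
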