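import Pool.Agent.Helper3.TD.Fine4
import Pool.Agent.Helper3.TD.Gs1

/-! Near invariance of the narrow logarithmic sums under shifts. -/

namespace Pool.Agent.Helper3.TD

open Pool.Agent.Helper3.ND

theorem ten_le : (10 : ℝ) ≤ Real.exp 3 := by
  have h1 := Real.exp_one_gt_d9
  have h2 : Real.exp 3 = Real.exp 1 ^ 3 := by rw [← Real.exp_nat_mul]; norm_num
  rw [h2]
  calc (10 : ℝ) ≤ 2.7 ^ 3 := by norm_num
    _ ≤ _ := by gcongr; linarith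

theorem ten_pow (t : ℕ) : (10 : ℝ) ^ t ≤ Real.exp (3 * t) := by
  rw [show 3 * (t : ℝ) = t * 3 by ring, Real.exp_nat_mul]
  exact pow_le_pow_left₀ (by norm_num) ten_le t

theorem two_pow (t : ℕ) : (2 : ℝ) ^ t ≤ Real.exp t := by
  have h1 : (2 : ℝ) ≤ Real.exp 1 := by
    have := Real.exp_one_gt_d9
    linarith
  rw [show (t : ℝ) = t * 1 by ring, Real.exp_nat_mul]
  exact pow_le_pow_left₀ (by norm_num) h1 t

theorem cond {W : ℝ} (hW0 : 0 < W) (hW1 : W ≤ 1) {Y : ℝ} (hY : 0 ≤ Y) {A : ℝ} (hA : 10 ^ 5 + 200 / W + 10 * Y ≤ A)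
    {t : ℕ} (ht : (t : ℝ) ≤ A / 30) {a : ℝ} (ha : A / 4 ≤ a) :
    16 * 10 ^ t ≤ W * Real.exp (a - W) ∧ Y * 2 ^ t < Real.exp (a - W) := by
  have hWp : 0 < 200 / W := by positivity
  have h0 : Real.exp (A / 4 - 1) ≤ Real.exp (a - W) := Real.exp_le_exp.mpr (by linarith)
  have e1 : Real.exp (A / 4 - 1) = Real.exp (A / 10) * Real.exp (3 * A / 20 - 1) := by
    rw [← Real.exp_add]; congr 1; ring
  have e2 : Real.exp (A / 4 - 1) = Real.exp (A / 30) * Real.exp (13 * A / 60 - 1) := by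
    rw [← Real.exp_add]; congr 1; ring
  constructor
  · have h1 : (10 : ℝ) ^ t ≤ Real.exp (A / 10) := le_trans (ten_pow t) (Real.exp_le_exp.mpr (by linarith))
    have h2 : 3 * A / 20 ≤ Real.exp (3 * A / 20 - 1) := by
      have := Real.add_one_le_exp (3 * A / 20 - 1)
      linarith
    have h3 : 16 ≤ W * Real.exp (3 * A / 20 - 1) := by
      have h4 : 16 / W ≤ Real.exp (3 * A / 20 - 1) := by
        refine le_trans ?_ h2
        have : 200 / W = 12.5 * (16 / W) := by ring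
        have h5 : 0 < 16 / W := by positivity
        linarith
      rw [div_le_iff₀ hW0] at h4
      linarith
    calc 16 * (10 : ℝ) ^ t ≤ 16 * Real.exp (A / 10) := by linarith
      _ ≤ (W * Real.exp (3 * A / 20 - 1)) * Real.exp (A / 10) := mul_le_mul_of_nonneg_right h3 (Real.exp_pos _).le
      _ = W * Real.exp (A / 4 - 1) := by rw [e1]; ring
      _ ≤ _ := mul_le_mul_of_nonneg_left h0 hW0.le
  · have h1 : (2 : ℝ) ^ t ≤ Real.exp (A / 30) := le_trans (two_pow t) (Real.exp_le_exp.mpr ht)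
    have h2 : 13 * A / 60 ≤ Real.exp (13 * A / 60 - 1) := by
      have := Real.add_one_le_exp (13 * A / 60 - 1)
      linarith
    have h3 : Y < Real.exp (13 * A / 60 - 1) := by linarith
    calc Y * 2 ^ t ≤ Y * Real.exp (A / 30) := mul_le_mul_of_nonneg_left h1 hY
      _ < Real.exp (13 * A / 60 - 1) * Real.exp (A / 30) := mul_lt_mul_of_pos_right h3 (Real.exp_pos _)
      _ = Real.exp (A / 4 - 1) := by rw [e2]; ring
      _ ≤ _ := h0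

theorem fineG : ∃ C : ℝ, 0 < C ∧ ∀ W : ℝ, 0 < W → W ≤ 1 → ∀ Y : ℝ, 0 ≤ Y → ∃ A0 : ℝ, 10 ^ 5 + 200 / W + 10 * Y ≤ A0 ∧
    ∀ A : ℝ, A0 ≤ A → ∀ T m : ℕ, T = ⌊A / 100⌋₊ → m = T / 20 → ∀ Φ : ℤ → ℝ, Inv Φ Y →
    ∀ s1 : ℕ, T ≤ s1 → s1 ≤ 3 * T → ∀ a : ℝ, A / 2 ≤ a → a ≤ 2 * A → ∀ X : ℤ, Real.exp (3 * A) ≤ X →
    |Gs Φ W a - Eo s1 (fun j => ee Φ X m (3 * m) W (bk a s1 j))| ≤ C * A ^ (-(19 / 20) : ℝ) := by
  obtain ⟨C, hC, t0, ht0, H⟩ := fine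
  refine ⟨200 * C, by positivity, ?_⟩
  intro W hW0 hW1 Y hY
  refine ⟨10 ^ 5 + 200 / W + 10 * Y + 100 * (t0 + 1), by
    have : (0 : ℝ) ≤ 100 * ((t0 : ℝ) + 1) := by positivity
    linarith, ?_⟩
  intro A hA T m hT hm Φ hΦ s1 hs1 hs3 a ha1 ha2 X hX
  have hWp : 0 < 200 / W := by positivity
  have ht0p : (0 : ℝ) ≤ t0 := by positivity
  have hA5 : (10 ^ 5 : ℝ) ≤ A := by linarith
  have hA0 : 0 < A := by linarith
  have hT1 : (T : ℝ) ≤ A / 100 := by rw [hT]; exact Nat.floor_le (by positivity)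
  have hT2 : A / 100 - 1 < T := by rw [hT]; exact Nat.sub_one_lt_floor _
  have hT50 : 50 ≤ T := by
    have : (50 : ℝ) ≤ T := by linarith
    exact_mod_cast this
  have hTt0 : t0 ≤ T := by
    have : (t0 : ℝ) ≤ T := by linarith
    exact_mod_cast this
  have ht30 : ((s1 + 3 * m : ℕ) : ℝ) ≤ A / 30 := by
    have h1 : 20 * (s1 + 3 * m) ≤ 63 * T := by omega
    have h2 : (20 : ℝ) * ((s1 + 3 * m : ℕ) : ℝ) ≤ 63 * (T : ℝ) := by exact_mod_cast h1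
    linarith
  obtain ⟨c1, c2⟩ := cond hW0 hW1 hY (A := A) (by linarith) ht30 (show A / 4 ≤ a by linarith)
  have hX2 : 2 ^ (s1 + 3 * m) * Real.exp (a + W) ≤ X := by
    refine le_trans ?_ hX
    calc 2 ^ (s1 + 3 * m) * Real.exp (a + W) ≤ Real.exp ((s1 + 3 * m : ℕ) : ℝ) * Real.exp (a + W) :=
          mul_le_mul_of_nonneg_right (two_pow _) (Real.exp_pos _).le
      _ = Real.exp (((s1 + 3 * m : ℕ) : ℝ) + (a + W)) := (Real.exp_add _ _).symm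
      _ ≤ _ := Real.exp_le_exp.mpr (by linarith)
  have h1 := H s1 (3 * m) m (by omega) (by omega) le_rfl a W hW0 hW1 c1 X hX2 Φ hΦ.nonneg hΦ.le_one
    (fun N hN => hΦ.iter _ _ (lt_trans c2 hN) hY)
  rw [Gs_eq Φ hW0 (by
    refine le_trans ?_ hX
    exact Real.exp_le_exp.mpr (by linarith))] at h1
  refine le_trans h1 ?_
  have h2 : ((s1 + 3 * m : ℕ) : ℝ) ^ (-(19 / 20) : ℝ) ≤ 200 * A ^ (-(19 / 20) : ℝ) := by
    have h3 : A / 200 ≤ ((s1 + 3 * m : ℕ) : ℝ) := by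
      have : T ≤ s1 + 3 * m := by omega
      have : (T : ℝ) ≤ ((s1 + 3 * m : ℕ) : ℝ) := by exact_mod_cast this
      linarith
    have h4 : ((s1 + 3 * m : ℕ) : ℝ) ^ (-(19 / 20) : ℝ) ≤ (A / 200) ^ (-(19 / 20) : ℝ) :=
      Real.rpow_le_rpow_of_nonpos (by positivity) h3 (by norm_num)
    refine le_trans h4 ?_
    rw [Real.div_rpow hA0.le (by norm_num), Real.rpow_neg (by norm_num : (0 : ℝ) ≤ 200), div_inv_eq_mul, mul_comm]
    apply mul_le_mul_of_nonneg_right _ (Real.rpow_nonneg hA0.le _)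
    calc (200 : ℝ) ^ (19 / 20 : ℝ) ≤ 200 ^ (1 : ℝ) := Real.rpow_le_rpow_of_exponent_le (by norm_num) (by norm_num)
      _ = 200 := Real.rpow_one _
  calc C * ((s1 + 3 * m : ℕ) : ℝ) ^ (-(19 / 20) : ℝ) ≤ C * (200 * A ^ (-(19 / 20) : ℝ)) := mul_le_mul_of_nonneg_left h2 hC.le
    _ = _ := by ring

theorem bk_bounds {a : ℝ} {n i : ℕ} (hi : i ≤ n) : a - n ≤ bk a n i ∧ bk a n i ≤ a + n := by
  unfold bk
  have h1 := Real.log_two_lt_d9
  have h2 := Real.log_two_gt_d9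
  have h3 := log_three_le
  have h4 : 0 < Real.log 3 := Real.log_pos (by norm_num)
  have h5 : (i : ℝ) ≤ n := by exact_mod_cast hi
  have h6 : (0 : ℝ) ≤ i := by positivity
  constructor <;> nlinarith

/-- averaging over `n` steps -/
theorem avgG : ∃ C : ℝ, 0 < C ∧ ∀ W : ℝ, 0 < W → W ≤ 1 → ∀ Y : ℝ, 0 ≤ Y → ∃ A0 : ℝ, 10 ^ 5 ≤ A0 ∧
    ∀ A : ℝ, A0 ≤ A → ∀ Φ : ℤ → ℝ, Inv Φ Y → ∀ n : ℕ, (n : ℝ) ≤ A / 100 → ∀ a : ℝ, 3 / 5 * A ≤ a → a ≤ 19 / 10 * A →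
    |Gs Φ W a - Eo n (fun i => Gs Φ W (bk a n i))| ≤ C * A ^ (-(19 / 20) : ℝ) := by
  obtain ⟨C, hC, H⟩ := fineG
  refine ⟨2 * C, by positivity, ?_⟩
  intro W hW0 hW1 Y hY
  obtain ⟨A0, hA0, H2⟩ := H W hW0 hW1 Y hY
  have hWp : 0 < 200 / W := by positivity
  refine ⟨A0, by linarith, ?_⟩
  intro A hA Φ hΦ n hn a ha1 ha2
  have hA5 : (10 ^ 5 : ℝ) ≤ A := by linarith
  obtain ⟨T, hT⟩ : ∃ T, T = ⌊A / 100⌋₊ := ⟨_, rfl⟩
  obtain ⟨m, hm⟩ : ∃ m, m = T / 20 := ⟨_, rfl⟩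
  obtain ⟨X, hX⟩ : ∃ X : ℤ, Real.exp (3 * A) ≤ X := ⟨⌈Real.exp (3 * A)⌉, Int.le_ceil _⟩
  have hnT : n ≤ T := by rw [hT]; exact Nat.le_floor hn
  have h1 := H2 A hA T m hT hm Φ hΦ (n + T) (by omega) (by omega) a (by linarith) (by linarith) X hX
  rw [Eo_add] at h1
  have h2 : |Eo n (fun i => Eo T (fun j => ee Φ X m (3 * m) W (bk a (n + T) (i + j)))) - Eo n (fun i => Gs Φ W (bk a n i))| ≤
      C * A ^ (-(19 / 20) : ℝ) := by
    rw [← Eo_sub_fun]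
    apply Eo_abs_le
    intro i hi
    obtain ⟨b1, b2⟩ := bk_bounds (a := a) hi
    have h3 := H2 A hA T m hT hm Φ hΦ T le_rfl (by omega) (bk a n i) (by linarith) (by linarith) X hX
    rw [abs_sub_comm] at h3
    have e : (fun j => ee Φ X m (3 * m) W (bk (bk a n i) T j)) = fun j => ee Φ X m (3 * m) W (bk a (n + T) (i + j)) := by
      funext j; rw [bk_bk]
    rw [e] at h3
    exact h3
  have h3 := abs_sub_le (Gs Φ W a) (Eo n (fun i => Eo T (fun j => ee Φ X m (3 * m) W (bk a (n + T) (i + j))))) (Eo n (fun i => Gs Φ W (bk a n i)))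
  linarith

/-- shift by `log 3` -/
theorem shiftG3 : ∃ C : ℝ, 0 < C ∧ ∀ W : ℝ, 0 < W → W ≤ 1 → ∀ Y : ℝ, 0 ≤ Y → ∃ A0 : ℝ, 10 ^ 5 ≤ A0 ∧
    ∀ A : ℝ, A0 ≤ A → ∀ Φ : ℤ → ℝ, Inv Φ Y → ∀ a : ℝ, A / 2 ≤ a → a ≤ 19 / 10 * A →
    |Gs Φ W (a + Real.log 3) - Gs Φ W a| ≤ C * A ^ (-(1 / 2) : ℝ) := by
  obtain ⟨C, hC, H⟩ := fineG
  refine ⟨2 * C + 200, by positivity, ?_⟩
  intro W hW0 hW1 Y hY
  obtain ⟨A0, hA0, H2⟩ := H W hW0 hW1 Y hY
  have hWp : 0 < 200 / W := by positivity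
  refine ⟨A0, by linarith, ?_⟩
  intro A hA Φ hΦ a ha1 ha2
  have hA5 : (10 ^ 5 : ℝ) ≤ A := by linarith
  have hApos : 0 < A := by linarith
  have hl3 := log_three_le
  have hl3' : 0 < Real.log 3 := Real.log_pos (by norm_num)
  have hl2 := Real.log_two_lt_d9
  obtain ⟨T, hT⟩ : ∃ T, T = ⌊A / 100⌋₊ := ⟨_, rfl⟩
  obtain ⟨m, hm⟩ : ∃ m, m = T / 20 := ⟨_, rfl⟩
  have hT1 : (T : ℝ) ≤ A / 100 := by rw [hT]; exact Nat.floor_le (by positivity)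
  have hT2 : A / 100 - 1 < T := by rw [hT]; exact Nat.sub_one_lt_floor _
  obtain ⟨X, hX⟩ : ∃ X : ℤ, Real.exp (3 * A) ≤ X := ⟨⌈Real.exp (3 * A)⌉, Int.le_ceil _⟩
  have h1 := H2 A hA T m hT hm Φ hΦ T le_rfl (by omega) a ha1 (by linarith) X hX
  have h2 := H2 A hA T m hT hm Φ hΦ T le_rfl (by omega) (a + Real.log 3) (by linarith) (by linarith) X hX
  obtain ⟨g, hg⟩ : ∃ g : ℕ → ℝ, g = fun j => ee Φ X m (3 * m) W (bk a T j) := ⟨_, rfl⟩
  have e : (fun j => ee Φ X m (3 * m) W (bk (a + Real.log 3) T j)) = fun j => g (j + 1) := by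
    rw [hg]
    funext j
    simp only
    congr 1
    unfold bk
    push_cast
    ring
  rw [e] at h2
  rw [← hg] at h1
  have h3 : ∀ j ≤ T + 1, |g j| ≤ 6 := by
    intro j _
    rw [hg]
    simp only
    rw [abs_of_nonneg (ee_nonneg hΦ.nonneg _ _ _ _ _)]
    have h30 : ((3 * m : ℕ) : ℝ) ≤ A / 30 := by
      have h1 : 20 * (3 * m) ≤ 63 * T := by omega
      have h2 : (20 : ℝ) * ((3 * m : ℕ) : ℝ) ≤ 63 * (T : ℝ) := by exact_mod_cast h1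
      linarith
    refine ee_le hΦ.le_one X (by omega) hW0 hW1 (cond hW0 hW1 hY (A := A) (by linarith) h30 ?_).1
    unfold bk
    have : (0 : ℝ) ≤ j * Real.log 3 := by positivity
    have hTp : (0 : ℝ) ≤ T := by positivity
    nlinarith
  have h4 := Eo_shift T (c := 6) (by norm_num) h3
  have h5 : 2 * 6 / Real.sqrt ((T + 1 : ℕ) : ℝ) ≤ 200 * A ^ (-(1 / 2) : ℝ) := by
    have h6 : A ^ (-(1 / 2) : ℝ) = 1 / Real.sqrt A := by
      rw [Real.rpow_neg hApos.le, ← Real.sqrt_eq_rpow, one_div]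
    have h7 : Real.sqrt A / 10 ≤ Real.sqrt ((T + 1 : ℕ) : ℝ) := by
      have h8 : Real.sqrt A / 10 = Real.sqrt (A / 100) := by
        rw [Real.sqrt_div hApos.le, show (100 : ℝ) = 10 ^ 2 by norm_num, Real.sqrt_sq (by norm_num)]
      rw [h8]
      apply Real.sqrt_le_sqrt
      push_cast
      linarith
    have h9 : 0 < Real.sqrt A := Real.sqrt_pos.mpr hApos
    rw [h6, mul_one_div, div_le_div_iff₀ (by linarith) h9]
    nlinarith
  have h6 : A ^ (-(19 / 20) : ℝ) ≤ A ^ (-(1 / 2) : ℝ) := Real.rpow_le_rpow_of_exponent_le (by linarith) (by norm_num)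
  have h7 : C * A ^ (-(19 / 20) : ℝ) ≤ C * A ^ (-(1 / 2) : ℝ) := mul_le_mul_of_nonneg_left h6 hC.le
  have t1 := abs_sub_le (Gs Φ W (a + Real.log 3)) (Eo T (fun j => g (j + 1))) (Gs Φ W a)
  have t2 := abs_sub_le (Eo T (fun j => g (j + 1))) (Eo T g) (Gs Φ W a)
  rw [abs_sub_comm (Eo T g) (Gs Φ W a)] at t2
  linarith

end Pool.Agent.Helper3.TD
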