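import Pool.Agent.Helper3.TD.Gs2

/-! Shifts by combinations of `log 2` and `log 3`. -/

namespace Pool.Agent.Helper3.TD

open Pool.Agent.Helper3.ND

theorem steps_nat {G : ℝ → ℝ} {x y d ε : ℝ} (hd : 0 ≤ d) (h : ∀ a, x ≤ a → a ≤ y → |G (a + d) - G a| ≤ ε) (k : ℕ) :
    ∀ a, x ≤ a → a + k * d ≤ y → |G (a + k * d) - G a| ≤ k * ε := by
  induction k with
  | zero => intro a _ _; simp
  | succ k ih =>
    intro a h1 h2
    push_cast at h2 ⊢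
    have hk : (0 : ℝ) ≤ k * d := by positivity
    have h3 := ih a h1 (by linarith)
    have h4 := h (a + k * d) (by linarith) (by linarith)
    have e : a + (k + 1) * d = a + k * d + d := by ring
    rw [e]
    have h5 := abs_sub_le (G (a + k * d + d)) (G (a + k * d)) (G a)
    linarith

theorem steps_int {G : ℝ → ℝ} {x y d ε : ℝ} (hd : 0 ≤ d) (h : ∀ a, x ≤ a → a ≤ y → |G (a + d) - G a| ≤ ε) (k : ℤ)
    {a : ℝ} (h1 : x ≤ a) (h2 : a ≤ y) (h3 : x ≤ a + k * d) (h4 : a + k * d ≤ y) : |G (a + k * d) - G a| ≤ |(k : ℝ)| * ε := by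
  rcases le_total 0 k with hk | hk
  · obtain ⟨n, rfl⟩ := Int.eq_ofNat_of_zero_le hk
    have := steps_nat hd h n a h1 (by exact_mod_cast h4)
    simpa using this
  · obtain ⟨n, hn⟩ := Int.eq_ofNat_of_zero_le (show 0 ≤ -k by omega)
    have hk' : (k : ℝ) = -(n : ℝ) := by
      have : k = -(n : ℤ) := by omega
      rw [this]; push_cast; ring
    rw [hk'] at h3 h4 ⊢
    have e : a + -(n : ℝ) * d + n * d = a := by ring
    have := steps_nat hd h n (a + -(n : ℝ) * d) h3 (by rw [e]; exact h2)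
    rw [e, abs_sub_comm] at this
    rw [abs_neg, abs_of_nonneg (show (0 : ℝ) ≤ n by positivity)]
    exact this

/-- shift by `log 2` -/
theorem shiftG2 : ∃ C : ℝ, 0 < C ∧ ∀ W : ℝ, 0 < W → W ≤ 1 → ∀ Y : ℝ, 0 ≤ Y → ∃ A0 : ℝ, 10 ^ 5 ≤ A0 ∧
    ∀ A : ℝ, A0 ≤ A → ∀ Φ : ℤ → ℝ, Inv Φ Y → ∀ a : ℝ, 3 / 5 * A ≤ a → a ≤ 18 / 10 * A →
    |Gs Φ W (a + Real.log 3) - Gs Φ W a| ≤ C * A ^ (-(1 / 2) : ℝ) ∧
    |Gs Φ W (a + Real.log 2) - Gs Φ W a| ≤ C * A ^ (-(1 / 2) : ℝ) := by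
  obtain ⟨C, hC, H⟩ := avgG
  obtain ⟨C', hC', H'⟩ := shiftG3
  refine ⟨C + C', by positivity, ?_⟩
  intro W hW0 hW1 Y hY
  obtain ⟨A0, hA0, H2⟩ := H W hW0 hW1 Y hY
  obtain ⟨A0', hA0', H2'⟩ := H' W hW0 hW1 Y hY
  refine ⟨max A0 A0', le_trans hA0 (le_max_left _ _), ?_⟩
  intro A hA Φ hΦ a ha1 ha2
  have hA1 := le_trans (le_max_left _ _) hA
  have hA2 := le_trans (le_max_right _ _) hA
  have hA5 : (10 ^ 5 : ℝ) ≤ A := by linarith
  have hl2 := Real.log_two_lt_d9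
  have hl2' : 0 < Real.log 2 := Real.log_pos (by norm_num)
  have h1 := H2 A hA1 Φ hΦ 1 (by push_cast; linarith) (a + Real.log 2) (by linarith) (by linarith)
  have h2 := H2' A hA2 Φ hΦ a (by linarith) (by linarith)
  have h6 : A ^ (-(19 / 20) : ℝ) ≤ A ^ (-(1 / 2) : ℝ) := Real.rpow_le_rpow_of_exponent_le (by linarith) (by norm_num)
  have h7 : C * A ^ (-(19 / 20) : ℝ) ≤ C * A ^ (-(1 / 2) : ℝ) := mul_le_mul_of_nonneg_left h6 hC.le
  have e := Eo_succ 0 (fun i => Gs Φ W (bk (a + Real.log 2) 1 i))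
  rw [zero_add, Eo_zero, Eo_zero] at e
  have e1 : bk (a + Real.log 2) 1 0 = a := by unfold bk; push_cast; ring
  have e2 : bk (a + Real.log 2) 1 (0 + 1) = a + Real.log 3 := by unfold bk; push_cast; ring
  rw [e1, e2] at e
  rw [e] at h1
  have hp : 0 < A ^ (-(1 / 2) : ℝ) := Real.rpow_pos_of_pos (by linarith) _
  have hCp : 0 < C * A ^ (-(1 / 2) : ℝ) := by positivity
  have hCp' : 0 < C' * A ^ (-(1 / 2) : ℝ) := by positivity
  constructor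
  · linarith
  · rw [abs_le] at h1 h2 ⊢
    constructor <;> linarith

/-- shifts by combinations of `log 2` and `log 3` -/
theorem shiftG_int : ∃ C : ℝ, 0 < C ∧ ∀ W : ℝ, 0 < W → W ≤ 1 → ∀ Y : ℝ, 0 ≤ Y → ∃ A0 : ℝ, 10 ^ 5 ≤ A0 ∧
    ∀ A : ℝ, A0 ≤ A → ∀ Φ : ℤ → ℝ, Inv Φ Y → ∀ a : ℝ, 7 / 10 * A ≤ a → a ≤ 16 / 10 * A → ∀ p q : ℤ,
    |(p : ℝ)| ≤ A / 40 → |(q : ℝ)| ≤ A / 40 →
    |Gs Φ W (a + p * Real.log 2 + q * Real.log 3) - Gs Φ W a| ≤ (|(p : ℝ)| + |(q : ℝ)|) * (C * A ^ (-(1 / 2) : ℝ)) := by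
  obtain ⟨C, hC, H⟩ := shiftG2
  refine ⟨C, hC, ?_⟩
  intro W hW0 hW1 Y hY
  obtain ⟨A0, hA0, H2⟩ := H W hW0 hW1 Y hY
  refine ⟨A0, hA0, ?_⟩
  intro A hA Φ hΦ a ha1 ha2 p q hp hq
  have hA5 : (10 ^ 5 : ℝ) ≤ A := by linarith
  have hl2 := Real.log_two_lt_d9
  have hl2' : 0 < Real.log 2 := Real.log_pos (by norm_num)
  have hl3 := log_three_le
  have hl3' : 0 < Real.log 3 := Real.log_pos (by norm_num)
  have h3 := fun a h1 h2 => (H2 A hA Φ hΦ a h1 h2).1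
  have h2 := fun a h1 h2 => (H2 A hA Φ hΦ a h1 h2).2
  have hpb : |(p : ℝ) * Real.log 2| ≤ A / 40 := by
    rw [abs_mul, abs_of_pos hl2']
    calc |(p : ℝ)| * Real.log 2 ≤ |(p : ℝ)| * 1 := by gcongr; linarith
      _ ≤ _ := by linarith
  have hqb : |(q : ℝ) * Real.log 3| ≤ A / 20 := by
    rw [abs_mul, abs_of_pos hl3']
    calc |(q : ℝ)| * Real.log 3 ≤ |(q : ℝ)| * 2 := by gcongr; linarith
      _ ≤ _ := by linarith
  rw [abs_le] at hpb hqb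
  have k1 := steps_int hl2'.le h2 p (a := a) (by linarith) (by linarith) (by linarith) (by linarith)
  have k2 := steps_int hl3'.le h3 q (a := a + p * Real.log 2) (by linarith) (by linarith) (by linarith) (by linarith)
  have h5 := abs_sub_le (Gs Φ W (a + p * Real.log 2 + q * Real.log 3)) (Gs Φ W (a + p * Real.log 2)) (Gs Φ W a)
  linarith

/-- shift by `2 n mu` -/
theorem shiftG_mu : ∃ C : ℝ, 0 < C ∧ ∀ W : ℝ, 0 < W → W ≤ 1 → ∀ Y : ℝ, 0 ≤ Y → ∃ A0 : ℝ, 10 ^ 5 ≤ A0 ∧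
    ∀ A : ℝ, A0 ≤ A → ∀ Φ : ℤ → ℝ, Inv Φ Y → ∀ a : ℝ, 7 / 10 * A ≤ a → a ≤ 16 / 10 * A → ∀ n : ℕ, (n : ℝ) ≤ A / 200 →
    |Gs Φ W (a + n * (2 * mu)) - Gs Φ W a| ≤ C * (Real.sqrt (n / A) + A ^ (-(19 / 20) : ℝ)) := by
  obtain ⟨C, hC, H⟩ := avgG
  obtain ⟨C', hC', H'⟩ := shiftG2
  refine ⟨C + C', by positivity, ?_⟩
  intro W hW0 hW1 Y hY
  obtain ⟨A0, hA0, H2⟩ := H W hW0 hW1 Y hY
  obtain ⟨A0', hA0', H2'⟩ := H' W hW0 hW1 Y hY
  refine ⟨max A0 A0', le_trans hA0 (le_max_left _ _), ?_⟩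
  intro A hA Φ hΦ a ha1 ha2 n hn
  have hA1 := le_trans (le_max_left _ _) hA
  have hA2 := le_trans (le_max_right _ _) hA
  have hA5 : (10 ^ 5 : ℝ) ≤ A := by linarith
  have hApos : 0 < A := by linarith
  have hl3 := log_three_le
  have hl3' : 0 < Real.log 3 := Real.log_pos (by norm_num)
  have hmu := mu_pos
  have hmu1 := mu_le
  have hn0 : (0 : ℝ) ≤ n := by positivity
  have h3 := fun a h1 h2 => (H2' A hA2 Φ hΦ a h1 h2).1
  have hnm : n * (2 * mu) ≤ A / 100 := by nlinarith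
  have hnm0 : 0 ≤ n * (2 * mu) := by positivity
  have h1 := H2 A hA1 Φ hΦ (2 * n) (by push_cast; linarith) (a + n * (2 * mu)) (by linarith) (by linarith)
  have e : (fun i => Gs Φ W (bk (a + n * (2 * mu)) (2 * n) i)) = fun i : ℕ => Gs Φ W (a + (((i : ℤ) - n : ℤ) : ℝ) * Real.log 3) := by
    funext i
    congr 1
    unfold bk mu
    push_cast
    ring
  rw [e] at h1
  obtain ⟨ε, hε⟩ : ∃ ε, ε = C' * A ^ (-(1 / 2) : ℝ) := ⟨_, rfl⟩
  have hε0 : 0 ≤ ε := by rw [hε]; positivity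
  have h4 : |Eo (2 * n) (fun i : ℕ => Gs Φ W (a + (((i : ℤ) - n : ℤ) : ℝ) * Real.log 3)) - Gs Φ W a| ≤ ε * Real.sqrt n := by
    have e2 : Eo (2 * n) (fun i : ℕ => Gs Φ W (a + (((i : ℤ) - n : ℤ) : ℝ) * Real.log 3)) - Gs Φ W a =
        Eo (2 * n) (fun i : ℕ => Gs Φ W (a + (((i : ℤ) - n : ℤ) : ℝ) * Real.log 3) - Gs Φ W a) := by
      rw [Eo_sub_fun, Eo_const]
    rw [e2]
    refine le_trans (Eo_abs _ _) ?_
    have h5 : Eo (2 * n) (fun i : ℕ => |Gs Φ W (a + (((i : ℤ) - n : ℤ) : ℝ) * Real.log 3) - Gs Φ W a|) ≤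
        Eo (2 * n) (fun i : ℕ => (ε / 2) * |2 * (i : ℝ) - ((2 * n : ℕ) : ℝ)|) := by
      apply Eo_mono'
      intro i hi
      have hin : |(((i : ℤ) - n : ℤ) : ℝ)| ≤ n := by
        push_cast
        have : (i : ℝ) ≤ 2 * n := by exact_mod_cast hi
        have h0 : (0 : ℝ) ≤ i := by positivity
        rw [abs_le]
        constructor <;> linarith
      have hin2 : |(((i : ℤ) - n : ℤ) : ℝ) * Real.log 3| ≤ A / 100 := by
        rw [abs_mul, abs_of_pos hl3']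
        calc |(((i : ℤ) - n : ℤ) : ℝ)| * Real.log 3 ≤ n * 2 := by gcongr; linarith
          _ ≤ _ := by linarith
      rw [abs_le] at hin2
      have k1 := steps_int hl3'.le h3 ((i : ℤ) - n) (a := a) (by linarith) (by linarith) (by linarith) (by linarith)
      rw [← hε] at k1
      refine le_trans k1 (le_of_eq ?_)
      have e3 : |2 * (i : ℝ) - ((2 * n : ℕ) : ℝ)| = 2 * |(((i : ℤ) - n : ℤ) : ℝ)| := by
        rw [← abs_two (α := ℝ), ← abs_mul, abs_two]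
        congr 1
        push_cast
        ring
      rw [e3]
      ring
    refine le_trans h5 ?_
    rw [Eo_mul]
    have h6 := first_moment (2 * n)
    have h7 : Real.sqrt ((2 * n : ℕ) : ℝ) ≤ 2 * Real.sqrt n := by
      push_cast
      rw [Real.sqrt_mul (by norm_num)]
      have h8 : Real.sqrt 2 ≤ 2 := by
        rw [Real.sqrt_le_left (by norm_num)]; norm_num
      gcongr
    calc ε / 2 * Eo (2 * n) (fun i : ℕ => |2 * (i : ℝ) - ((2 * n : ℕ) : ℝ)|) ≤ ε / 2 * (2 * Real.sqrt n) :=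
          mul_le_mul_of_nonneg_left (le_trans h6 h7) (by positivity)
      _ = _ := by ring
  have h5 : ε * Real.sqrt n = C' * Real.sqrt (n / A) := by
    rw [hε, Real.sqrt_div hn0, Real.rpow_neg hApos.le, ← Real.sqrt_eq_rpow]
    ring
  rw [h5] at h4
  have h6 := abs_sub_le (Gs Φ W (a + n * (2 * mu))) (Eo (2 * n) (fun i : ℕ => Gs Φ W (a + (((i : ℤ) - n : ℤ) : ℝ) * Real.log 3))) (Gs Φ W a)
  have h7 : 0 ≤ C * Real.sqrt (n / A) := by positivity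
  have h8 : 0 ≤ C' * A ^ (-(19 / 20) : ℝ) := by positivity
  calc |Gs Φ W (a + n * (2 * mu)) - Gs Φ W a| ≤ C * A ^ (-(19 / 20) : ℝ) + C' * Real.sqrt (n / A) := by linarith
    _ ≤ (C + C') * (Real.sqrt (n / A) + A ^ (-(19 / 20) : ℝ)) := by
        have : (C + C') * (Real.sqrt (n / A) + A ^ (-(19 / 20) : ℝ)) = C * Real.sqrt (n / A) + C' * Real.sqrt (n / A) +
          (C * A ^ (-(19 / 20) : ℝ) + C' * A ^ (-(19 / 20) : ℝ)) := by ring
        linarith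

end Pool.Agent.Helper3.TD
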