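import Pool.Agent.Helper3.TD.Chain
import Pool.Agent.Helper3.TD.Gs3
import Mathlib.Topology.Instances.AddCircle.DenseSubgroup

/-! Near constancy of the narrow logarithmic sums. -/

namespace Pool.Agent.Helper3.TD

open Pool.Agent.Helper3.ND

theorem irr_log : Irrational (Real.log 2 / Real.log 3) := by
  rw [irrational_iff_ne_rational]
  intro a b hb h
  have hl3 : 0 < Real.log 3 := Real.log_pos (by norm_num)
  have hl2 : 0 < Real.log 2 := Real.log_pos (by norm_num)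
  have hb' : (b : ℝ) ≠ 0 := by exact_mod_cast hb
  rw [div_eq_div_iff hl3.ne' hb'] at h
  -- log 2 * b = a * log 3
  have key : ∀ a b : ℤ, 0 < b → Real.log 2 * b = a * Real.log 3 → False := by
    intro a b hb h
    have ha : 0 < a := by
      by_contra hc
      have h1 : (a : ℝ) ≤ 0 := by exact_mod_cast (not_lt.mp hc)
      have h2 : (0 : ℝ) < b := by exact_mod_cast hb
      have h3 : 0 < Real.log 2 * b := by positivity
      nlinarith
    obtain ⟨m, rfl⟩ := Int.eq_ofNat_of_zero_le hb.le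
    obtain ⟨n, rfl⟩ := Int.eq_ofNat_of_zero_le ha.le
    have h1 : Real.log ((2 : ℝ) ^ m) = Real.log ((3 : ℝ) ^ n) := by
      rw [Real.log_pow, Real.log_pow]
      push_cast at h
      linarith
    have h2 : (2 : ℝ) ^ m = 3 ^ n := Real.log_injOn_pos (Set.mem_Ioi.mpr (by positivity)) (Set.mem_Ioi.mpr (by positivity)) h1
    have h3 : 2 ^ m = 3 ^ n := by exact_mod_cast h2
    have hm : m ≠ 0 := by rintro rfl; simp at hb
    have h4 : 2 ∣ 3 ^ n := by rw [← h3]; exact dvd_pow_self 2 hm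
    have h5 := Nat.Prime.dvd_of_dvd_pow Nat.prime_two h4
    omega
  rcases lt_or_gt_of_ne hb with h0 | h0
  · refine key (-a) (-b) (by omega) ?_
    push_cast
    linarith
  · exact key a b h0 h

theorem dens_pair (x : ℝ) {η : ℝ} (hη : 0 < η) : ∃ p q : ℤ, |x - (p * Real.log 2 + q * Real.log 3)| < η := by
  have h1 := dense_addSubgroupClosure_pair_iff.mpr irr_log
  obtain ⟨y, hy, hd⟩ := h1.exists_dist_lt x hη
  rw [SetLike.mem_coe, AddSubgroup.mem_closure_pair] at hy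
  obtain ⟨p, q, rfl⟩ := hy
  refine ⟨p, q, ?_⟩
  rw [Real.dist_eq] at hd
  simpa [zsmul_eq_mul] using hd

theorem dens_unif {η : ℝ} (hη : 0 < η) : ∃ P : ℝ, 0 < P ∧ ∀ r : ℝ, 0 ≤ r → r ≤ 1 →
    ∃ p q : ℤ, |(p : ℝ)| ≤ P ∧ |(q : ℝ)| ≤ P ∧ |r - (p * Real.log 2 + q * Real.log 3)| ≤ η := by
  obtain ⟨K, hK⟩ := exists_nat_gt (2 / η)
  have hKpos : (0 : ℝ) < K := lt_trans (by positivity) hK
  have h1 : ∀ i : ℕ, ∃ p q : ℤ, |(i : ℝ) / K - (p * Real.log 2 + q * Real.log 3)| < η / 2 := fun i => dens_pair _ (by positivity)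
  choose p q hpq using h1
  refine ⟨1 + ∑ i ∈ Finset.range (K + 1), (|(p i : ℝ)| + |(q i : ℝ)|), by positivity, ?_⟩
  intro r hr0 hr1
  obtain ⟨i, hi⟩ : ∃ i, i = ⌊r * K⌋₊ := ⟨_, rfl⟩
  have hi1 : (i : ℝ) ≤ r * K := by rw [hi]; exact Nat.floor_le (by positivity)
  have hi2 : r * K < i + 1 := by rw [hi]; exact Nat.lt_floor_add_one _
  have hiK : i ∈ Finset.range (K + 1) := by
    rw [Finset.mem_range]
    have : (i : ℝ) ≤ K := by nlinarith
    have : i ≤ K := by exact_mod_cast this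
    omega
  have hs := Finset.single_le_sum (f := fun i => |(p i : ℝ)| + |(q i : ℝ)|) (fun j _ => by positivity) hiK
  have a1 := abs_nonneg (p i : ℝ)
  have a2 := abs_nonneg (q i : ℝ)
  refine ⟨p i, q i, by linarith, by linarith, ?_⟩
  have h2 := hpq i
  have h3 : |r - (i : ℝ) / K| ≤ η / 2 := by
    have h4 : r - (i : ℝ) / K = (r * K - i) / K := by field_simp
    rw [h4, abs_div, abs_of_pos hKpos, abs_of_nonneg (by linarith), div_le_iff₀ hKpos]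
    rw [div_lt_iff₀ hη] at hK
    linarith
  have h4 := abs_sub_le r ((i : ℝ) / K) (p i * Real.log 2 + q i * Real.log 3)
  linarith

theorem small_rpow (c : ℝ) {y ε : ℝ} (hy : 0 < y) (hε : 0 < ε) : ∃ A0 : ℝ, ∀ A : ℝ, A0 ≤ A → c * A ^ (-y) ≤ ε := by
  have h1 := (tendsto_rpow_neg_atTop hy).const_mul c
  rw [mul_zero] at h1
  have h2 := h1.eventually (ge_mem_nhds hε)
  obtain ⟨A0, hA0⟩ := Filter.eventually_atTop.mp h2
  exact ⟨A0, hA0⟩

/-- bounded shifts -/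
theorem shift_small {W : ℝ} (hW0 : 0 < W) (hW1 : W ≤ 1) {Y : ℝ} (hY : 0 ≤ Y) {ε : ℝ} (hε : 0 < ε) : ∃ A0 : ℝ, 10 ^ 5 ≤ A0 ∧
    ∀ A : ℝ, A0 ≤ A → ∀ Φ : ℤ → ℝ, Inv Φ Y → ∀ a : ℝ, 7 / 10 * A ≤ a → a ≤ 16 / 10 * A → ∀ r : ℝ, 0 ≤ r → r ≤ 1 →
    |Gs Φ W (a + r) - Gs Φ W a| ≤ ε := by
  obtain ⟨C, hC, H⟩ := shiftG_int
  obtain ⟨A0, hA0, H2⟩ := H W hW0 hW1 Y hY
  obtain ⟨η, hη, hη1, hηε⟩ : ∃ η : ℝ, 0 < η ∧ η ≤ 1 ∧ 10 / W * η ≤ ε / 2 := by
    refine ⟨min 1 (ε * W / 20), by positivity, min_le_left _ _, ?_⟩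
    calc 10 / W * min 1 (ε * W / 20) ≤ 10 / W * (ε * W / 20) := mul_le_mul_of_nonneg_left (min_le_right _ _) (by positivity)
      _ = ε / 2 := by field_simp; ring
  obtain ⟨P, hP, HP⟩ := dens_unif hη
  obtain ⟨A1, hA1⟩ := small_rpow ((P + P) * C) (show (0 : ℝ) < 1 / 2 by norm_num) (show 0 < ε / 2 by positivity)
  refine ⟨max A0 (max A1 (40 * P)), le_trans hA0 (le_max_left _ _), ?_⟩
  intro A hA Φ hΦ a ha1 ha2 r hr0 hr1
  have hA1' : A0 ≤ A := le_trans (le_max_left _ _) hA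
  have hA2 : A1 ≤ A := le_trans (le_trans (le_max_left _ _) (le_max_right _ _)) hA
  have hA3 : 40 * P ≤ A := le_trans (le_trans (le_max_right _ _) (le_max_right _ _)) hA
  have hA5 : (10 ^ 5 : ℝ) ≤ A := by linarith
  obtain ⟨p, q, hp, hq, hpq⟩ := HP r hr0 hr1
  have h1 := H2 A hA1' Φ hΦ a ha1 ha2 p q (by linarith) (by linarith)
  have hRp : 0 ≤ C * A ^ (-(1 / 2) : ℝ) := mul_nonneg hC.le (Real.rpow_nonneg (by linarith) _)
  have h2 : (|(p : ℝ)| + |(q : ℝ)|) * (C * A ^ (-(1 / 2) : ℝ)) ≤ ε / 2 := by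
    calc (|(p : ℝ)| + |(q : ℝ)|) * (C * A ^ (-(1 / 2) : ℝ)) ≤ (P + P) * (C * A ^ (-(1 / 2) : ℝ)) :=
          mul_le_mul_of_nonneg_right (by linarith) hRp
      _ = (P + P) * C * A ^ (-(1 / 2) : ℝ) := by ring
      _ ≤ _ := hA1 A hA2
  have h3 : |(a + r) - (a + p * Real.log 2 + q * Real.log 3)| ≤ η := by
    have e : (a + r) - (a + p * Real.log 2 + q * Real.log 3) = r - (p * Real.log 2 + q * Real.log 3) := by ring
    rw [e]; exact hpq
  have h4 := Gs_lip hΦ.nonneg hΦ.le_one hW0 hW1 (a := a + r) (b := a + p * Real.log 2 + q * Real.log 3) (by linarith) (by linarith)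
  have h5 : 10 / W * |(a + r) - (a + p * Real.log 2 + q * Real.log 3)| ≤ 10 / W * η := mul_le_mul_of_nonneg_left h3 (by positivity)
  have h6 := abs_sub_le (Gs Φ W (a + r)) (Gs Φ W (a + p * Real.log 2 + q * Real.log 3)) (Gs Φ W a)
  linarith

/-- near constancy on long windows -/
theorem near_const {W : ℝ} (hW0 : 0 < W) (hW1 : W ≤ 1) {Y : ℝ} (hY : 0 ≤ Y) {ε : ℝ} (hε : 0 < ε) : ∃ w : ℝ, 0 < w ∧ ∃ A0 : ℝ, 10 ^ 5 ≤ A0 ∧
    ∀ A : ℝ, A0 ≤ A → ∀ Φ : ℤ → ℝ, Inv Φ Y → ∀ a b : ℝ, 8 / 10 * A ≤ a → a ≤ 15 / 10 * A → a ≤ b → b ≤ a + w * A →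
    |Gs Φ W b - Gs Φ W a| ≤ ε := by
  obtain ⟨A0, hA0, H⟩ := shift_small hW0 hW1 hY (show 0 < ε / 2 by positivity)
  obtain ⟨C, hC, H'⟩ := shiftG_mu
  obtain ⟨A0', hA0', H2⟩ := H' W hW0 hW1 Y hY
  obtain ⟨A1, hA1⟩ := small_rpow C (show (0 : ℝ) < 19 / 20 by norm_num) (show 0 < ε / 4 by positivity)
  obtain ⟨w, hw, hw1, hw2⟩ : ∃ w : ℝ, 0 < w ∧ w ≤ 1 / 1000 ∧ C * Real.sqrt (4 * w) ≤ ε / 4 := by
    obtain ⟨z, hz, hz1, hz2⟩ : ∃ z : ℝ, 0 < z ∧ z ≤ 1 / 1000 ∧ C * z ≤ ε / 4 := by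
      refine ⟨min (1 / 1000) (ε / (4 * C)), by positivity, min_le_left _ _, ?_⟩
      calc C * min (1 / 1000) (ε / (4 * C)) ≤ C * (ε / (4 * C)) := mul_le_mul_of_nonneg_left (min_le_right _ _) hC.le
        _ = ε / 4 := by field_simp
    refine ⟨(z / 2) ^ 2, by positivity, by nlinarith, ?_⟩
    rw [show 4 * (z / 2) ^ 2 = z ^ 2 by ring, Real.sqrt_sq hz.le]
    exact hz2
  refine ⟨w, hw, max A0 (max A0' A1), le_trans hA0 (le_max_left _ _), ?_⟩
  intro A hA Φ hΦ a b ha1 ha2 hab hb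
  have hA1' : A0 ≤ A := le_trans (le_max_left _ _) hA
  have hA2 : A0' ≤ A := le_trans (le_trans (le_max_left _ _) (le_max_right _ _)) hA
  have hA3 : A1 ≤ A := le_trans (le_trans (le_max_right _ _) (le_max_right _ _)) hA
  have hA5 : (10 ^ 5 : ℝ) ≤ A := by linarith
  have hApos : 0 < A := by linarith
  have hmu := mu_ge
  have hmu' : 2 * mu ≤ 1 := by
    unfold mu
    have h1 := Real.log_two_lt_d9
    have h2 : Real.log 2 ≤ Real.log 3 := Real.log_le_log (by norm_num) (by norm_num)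
    have h3 := Real.log_two_gt_d9
    linarith
  have hmu0 : 0 < 2 * mu := by linarith
  obtain ⟨n, hn⟩ : ∃ n, n = ⌊(b - a) / (2 * mu)⌋₊ := ⟨_, rfl⟩
  have hn1 : (n : ℝ) ≤ (b - a) / (2 * mu) := by
    rw [hn]; exact Nat.floor_le (div_nonneg (by linarith) hmu0.le)
  have hn2 : (b - a) / (2 * mu) < n + 1 := by rw [hn]; exact Nat.lt_floor_add_one _
  have hn3 : (n : ℝ) * (2 * mu) ≤ b - a := by rwa [le_div_iff₀ hmu0] at hn1
  have hn4 : b - a < (n + 1) * (2 * mu) := by rwa [div_lt_iff₀ hmu0] at hn2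
  have hn0 : (0 : ℝ) ≤ n := by positivity
  have hn5 : (n : ℝ) ≤ 4 * w * A := by
    have : (n : ℝ) * 0.28 ≤ n * (2 * mu) := mul_le_mul_of_nonneg_left (by linarith) hn0
    have hwA : 0 < w * A := by positivity
    linarith
  have hwA1 : w * A ≤ A / 1000 := by nlinarith
  have h1 := H2 A hA2 Φ hΦ a (by linarith) (by linarith) n (by linarith)
  have h2 := H A hA1' Φ hΦ (a + n * (2 * mu)) (by
    have : 0 ≤ n * (2 * mu) := by positivity
    linarith) (by linarith) (b - (a + n * (2 * mu))) (by linarith) (by linarith)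
  rw [show a + n * (2 * mu) + (b - (a + n * (2 * mu))) = b by ring] at h2
  have h3 : C * (Real.sqrt (n / A) + A ^ (-(19 / 20) : ℝ)) ≤ ε / 2 := by
    have h4 : Real.sqrt (n / A) ≤ Real.sqrt (4 * w) := by
      apply Real.sqrt_le_sqrt
      rw [div_le_iff₀ hApos]
      exact hn5
    have h5 := hA1 A hA3
    have h6 : C * Real.sqrt (n / A) ≤ C * Real.sqrt (4 * w) := mul_le_mul_of_nonneg_left h4 hC.le
    linarith
  have h4 := abs_sub_le (Gs Φ W b) (Gs Φ W (a + n * (2 * mu))) (Gs Φ W a)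
  linarith

end Pool.Agent.Helper3.TD
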