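import Pool.Agent.Helper3.TD.FineK
import Pool.Agent.Helper3.TD.Gs2

/-! Averaging formula with an arbitrary power of decay and with a time budget. -/

namespace Pool.Agent.Helper3.TD

open Pool.Agent.Helper3.ND

/-- families of functions with a time budget -/
structure Fam (Φ : ℕ → ℤ → ℝ) (Y : ℝ) : Prop where
  nonneg : ∀ j N, 0 ≤ Φ j N
  le_one : ∀ j N, Φ j N ≤ 1
  inv : ∀ j (N : ℤ), Y < |(N : ℝ)| → Φ j (T N) = Φ (j + 1) N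

theorem Fam.iter {Φ : ℕ → ℤ → ℝ} {Y : ℝ} (h : Fam Φ Y) (hY : 0 ≤ Y) (t : ℕ) : ∀ (j : ℕ) (N : ℤ), Y * 2 ^ t < |(N : ℝ)| →
    Φ j (T^[t] N) = Φ (j + t) N := by
  induction t with
  | zero => intro j N _; rfl
  | succ t ih =>
    intro j N hN
    have h1 : Y * 2 ^ t ≤ Y * 2 ^ (t + 1) := by
      apply mul_le_mul_of_nonneg_left _ hY
      exact pow_le_pow_right₀ (by norm_num) (by omega)
    have h0 : Φ j (T^[t + 1] N) = Φ (j + 1) (T^[t] N) := by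
      rw [Function.iterate_succ_apply']
      apply h.inv
      have h2 := abs_T_iter_ge t N
      have h3 : |(N : ℝ)| ≤ 2 ^ t * |((T^[t] N : ℤ) : ℝ)| := by exact_mod_cast h2
      have h4 : (0 : ℝ) < 2 ^ t := by positivity
      have h5 : 2 ^ t * Y < 2 ^ t * |((T^[t] N : ℤ) : ℝ)| := by
        refine lt_of_lt_of_le ?_ h3
        refine lt_of_le_of_lt ?_ hN
        rw [mul_comm]; exact h1
      exact lt_of_mul_lt_mul_left h5 h4.le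
    rw [h0, ih (j + 1) N (lt_of_le_of_lt h1 hN)]
    congr 1
    omega

theorem Inv.fam {Φ : ℤ → ℝ} {Y : ℝ} (h : Inv Φ Y) : Fam (fun _ => Φ) Y :=
  ⟨fun _ => h.nonneg, fun _ => h.le_one, fun _ N hN => h.inv N hN⟩

theorem condK {W : ℝ} (hW0 : 0 < W) (hW1 : W ≤ 1) {A : ℝ} (hA : 10 ^ 5 + 200 / W ≤ A) {Y : ℝ} (hYA : Y ≤ Real.exp (A / 8))
    {t : ℕ} (ht : (t : ℝ) ≤ A / 30) {a : ℝ} (ha : A / 4 ≤ a) :
    16 * 10 ^ t ≤ W * Real.exp (a - W) ∧ Y * 2 ^ t < Real.exp (a - W) := by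
  constructor
  · exact (cond hW0 hW1 le_rfl (A := A) (by linarith) ht ha).1
  · have hWp : 0 < 200 / W := by positivity
    have h1 : (2 : ℝ) ^ t ≤ Real.exp (A / 30) := le_trans (two_pow t) (Real.exp_le_exp.mpr ht)
    calc Y * 2 ^ t ≤ Real.exp (A / 8) * Real.exp (A / 30) := mul_le_mul hYA h1 (by positivity) (Real.exp_pos _).le
      _ = Real.exp (A / 8 + A / 30) := (Real.exp_add _ _).symm
      _ < _ := Real.exp_lt_exp.mpr (by linarith)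

theorem fineGK (q : ℕ) : ∃ C : ℝ, 0 < C ∧ ∀ W : ℝ, 0 < W → W ≤ 1 → ∃ A0 : ℝ, 10 ^ 5 + 200 / W ≤ A0 ∧
    ∀ A : ℝ, A0 ≤ A → ∀ Y : ℝ, 0 ≤ Y → Y ≤ Real.exp (A / 8) → ∀ T m : ℕ, T = ⌊A / 100⌋₊ → m = T / 20 → ∀ Φ : ℕ → ℤ → ℝ, Fam Φ Y →
    ∀ s1 : ℕ, T ≤ s1 → s1 ≤ 3 * T → ∀ j : ℕ, ∀ a : ℝ, A / 2 ≤ a → a ≤ 2 * A → ∀ X : ℤ, Real.exp (3 * A) ≤ X →
    |Gs (Φ (j + (s1 + 3 * m))) W a - Eo s1 (fun i => ee (Φ j) X m (3 * m) W (bk a s1 i))| ≤ C / A ^ q := by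
  obtain ⟨C, hC, t0, ht0, H⟩ := fineK q
  refine ⟨C * 200 ^ q, by positivity, ?_⟩
  intro W hW0 hW1
  refine ⟨10 ^ 5 + 200 / W + 100 * (t0 + 1), by
    have : (0 : ℝ) ≤ 100 * ((t0 : ℝ) + 1) := by positivity
    linarith, ?_⟩
  intro A hA Y hY hYA T m hT hm Φ hΦ s1 hs1 hs3 j a ha1 ha2 X hX
  have hWp : 0 < 200 / W := by positivity
  have ht0p : (0 : ℝ) ≤ t0 := by positivity
  have hA5 : (10 ^ 5 : ℝ) ≤ A := by linarith
  have hA0 : 0 < A := by linarith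
  have hT1 : (T : ℝ) ≤ A / 100 := by rw [hT]; exact Nat.floor_le (by positivity)
  have hT2 : A / 100 - 1 < T := by rw [hT]; exact Nat.sub_one_lt_floor _
  have hT50 : 50 ≤ T := by
    have : (50 : ℝ) ≤ T := by linarith
    exact_mod_cast this
  have hTt0 : t0 ≤ T := by
    have : (t0 : ℝ) ≤ T := by linarith
    exact_mod_cast this
  have ht30 : ((s1 + 3 * m : ℕ) : ℝ) ≤ A / 30 := by
    have h1 : 20 * (s1 + 3 * m) ≤ 63 * T := by omega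
    have h2 : (20 : ℝ) * ((s1 + 3 * m : ℕ) : ℝ) ≤ 63 * (T : ℝ) := by exact_mod_cast h1
    linarith
  obtain ⟨c1, c2⟩ := condK hW0 hW1 (A := A) (by linarith) hYA ht30 (show A / 4 ≤ a by linarith)
  have hX2 : 2 ^ (s1 + 3 * m) * Real.exp (a + W) ≤ X := by
    refine le_trans ?_ hX
    calc 2 ^ (s1 + 3 * m) * Real.exp (a + W) ≤ Real.exp ((s1 + 3 * m : ℕ) : ℝ) * Real.exp (a + W) :=
          mul_le_mul_of_nonneg_right (two_pow _) (Real.exp_pos _).le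
      _ = Real.exp (((s1 + 3 * m : ℕ) : ℝ) + (a + W)) := (Real.exp_add _ _).symm
      _ ≤ _ := Real.exp_le_exp.mpr (by linarith)
  have h1 := H s1 (3 * m) m (by omega) (by omega) le_rfl a W hW0 hW1 c1 X hX2 (Φ (j + (s1 + 3 * m))) (Φ j)
    (hΦ.nonneg _) (hΦ.le_one _) (hΦ.nonneg _) (hΦ.le_one _)
    (fun N hN => hΦ.iter hY _ j N (lt_trans c2 hN))
  rw [Gs_eq _ hW0 (by
    refine le_trans ?_ hX
    exact Real.exp_le_exp.mpr (by linarith))] at h1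
  refine le_trans h1 ?_
  have h3 : A / 200 ≤ ((s1 + 3 * m : ℕ) : ℝ) := by
    have : T ≤ s1 + 3 * m := by omega
    have : (T : ℝ) ≤ ((s1 + 3 * m : ℕ) : ℝ) := by exact_mod_cast this
    linarith
  have h4 : (A / 200) ^ q ≤ ((s1 + 3 * m : ℕ) : ℝ) ^ q := pow_le_pow_left₀ (by positivity) h3 q
  calc C / ((s1 + 3 * m : ℕ) : ℝ) ^ q ≤ C / (A / 200) ^ q := div_le_div_of_nonneg_left hC.le (by positivity) h4
    _ = C * 200 ^ q / A ^ q := by rw [div_pow]; field_simp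

/-- averaging over `n` steps -/
theorem avgK (q : ℕ) : ∃ C : ℝ, 0 < C ∧ ∀ W : ℝ, 0 < W → W ≤ 1 → ∃ A0 : ℝ, 10 ^ 5 + 200 / W ≤ A0 ∧
    ∀ A : ℝ, A0 ≤ A → ∀ Y : ℝ, 0 ≤ Y → Y ≤ Real.exp (A / 8) → ∀ Φ : ℕ → ℤ → ℝ, Fam Φ Y → ∀ n : ℕ, (n : ℝ) ≤ A / 100 →
    ∀ j : ℕ, A / 80 ≤ j → ∀ a : ℝ, 3 / 5 * A ≤ a → a ≤ 19 / 10 * A →
    |Gs (Φ (j + n)) W a - Eo n (fun i => Gs (Φ j) W (bk a n i))| ≤ C / A ^ q := by
  obtain ⟨C, hC, H⟩ := fineGK q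
  refine ⟨2 * C, by positivity, ?_⟩
  intro W hW0 hW1
  obtain ⟨A0, hA0, H2⟩ := H W hW0 hW1
  have hWp : 0 < 200 / W := by positivity
  refine ⟨A0, hA0, ?_⟩
  intro A hA Y hY hYA Φ hΦ n hn j hj a ha1 ha2
  have hA5 : (10 ^ 5 : ℝ) ≤ A := by linarith
  obtain ⟨T, hT⟩ : ∃ T, T = ⌊A / 100⌋₊ := ⟨_, rfl⟩
  obtain ⟨m, hm⟩ : ∃ m, m = T / 20 := ⟨_, rfl⟩
  obtain ⟨X, hX⟩ : ∃ X : ℤ, Real.exp (3 * A) ≤ X := ⟨⌈Real.exp (3 * A)⌉, Int.le_ceil _⟩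
  have hT1 : (T : ℝ) ≤ A / 100 := by rw [hT]; exact Nat.floor_le (by positivity)
  have hnT : n ≤ T := by rw [hT]; exact Nat.le_floor hn
  have hjT : T + 3 * m ≤ j := by
    have h1 : 20 * (T + 3 * m) ≤ 23 * T := by omega
    have h2 : (20 : ℝ) * ((T + 3 * m : ℕ) : ℝ) ≤ 23 * (T : ℝ) := by exact_mod_cast h1
    have h3 : ((T + 3 * m : ℕ) : ℝ) ≤ j := by linarith
    exact_mod_cast h3
  obtain ⟨j', hj'⟩ : ∃ j', j = j' + (T + 3 * m) := ⟨j - (T + 3 * m), by omega⟩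
  have h1 := H2 A hA Y hY hYA T m hT hm Φ hΦ (n + T) (by omega) (by omega) j' a (by linarith) (by linarith) X hX
  rw [Eo_add, show j' + (n + T + 3 * m) = j + n by omega] at h1
  have h2 : |Eo n (fun i => Eo T (fun k => ee (Φ j') X m (3 * m) W (bk a (n + T) (i + k)))) - Eo n (fun i => Gs (Φ j) W (bk a n i))| ≤
      C / A ^ q := by
    rw [← Eo_sub_fun]
    apply Eo_abs_le
    intro i hi
    obtain ⟨b1, b2⟩ := bk_bounds (a := a) hi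
    have h3 := H2 A hA Y hY hYA T m hT hm Φ hΦ T le_rfl (by omega) j' (bk a n i) (by linarith) (by linarith) X hX
    rw [abs_sub_comm, ← hj'] at h3
    have e : (fun k => ee (Φ j') X m (3 * m) W (bk (bk a n i) T k)) = fun k => ee (Φ j') X m (3 * m) W (bk a (n + T) (i + k)) := by
      funext k; rw [bk_bk]
    rw [e] at h3
    exact h3
  have h3 := abs_sub_le (Gs (Φ (j + n)) W a) (Eo n (fun i => Eo T (fun k => ee (Φ j') X m (3 * m) W (bk a (n + T) (i + k))))) (Eo n (fun i => Gs (Φ j) W (bk a n i)))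
  have e : 2 * C / A ^ q = C / A ^ q + C / A ^ q := by ring
  rw [e]
  linarith

end Pool.Agent.Helper3.TD
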