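import Pool.Agent.Helper3.TD.Gs4

/-! Harnack inequality and propagation of lower bounds. -/

namespace Pool.Agent.Helper3.TD

open Pool.Agent.Helper3.ND

/-- a single value has at least its binomial weight in the average -/
theorem Eo_ge (n : ℕ) : ∀ {g : ℕ → ℝ}, (∀ j, 0 ≤ g j) → ∀ i : ℕ, (n.choose i : ℝ) / 2 ^ n * g i ≤ Eo n g := by
  induction n with
  | zero =>
    intro g hg i
    rw [Eo_zero]
    rcases i with _ | i
    · simp
    · simpa using hg 0
  | succ n ih =>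
    intro g hg i
    rw [Eo_succ]
    rcases i with _ | i
    · have h1 := ih hg 0
      have h2 : 0 ≤ Eo n (fun j => g (j + 1)) := by
        have := Eo_mono (n := n) (g := fun _ => 0) (h := fun j => g (j + 1)) (fun j => hg _)
        rwa [Eo_const] at this
      simp only [Nat.choose_zero_right, Nat.cast_one] at h1 ⊢
      rw [pow_succ]
      have e : 1 / (2 ^ n * 2) * g 0 = 1 / 2 * (1 / 2 ^ n * g 0) := by field_simp
      rw [e]
      linarith
    · have h1 := ih hg (i + 1)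
      have h2 := ih (g := fun j => g (j + 1)) (fun j => hg _) i
      rw [Nat.choose_succ_succ, pow_succ]
      push_cast
      have e : ((n.choose i : ℝ) + (n.choose (i + 1) : ℝ)) / (2 ^ n * 2) * g (i + 1) =
          1 / 2 * ((n.choose (i + 1) : ℝ) / 2 ^ n * g (i + 1)) + 1 / 2 * ((n.choose i : ℝ) / 2 ^ n * g (i + 1)) := by
        field_simp
        ring
      rw [e]
      linarith

theorem central_ge {n : ℕ} (hn : 1 ≤ n) : 1 / (2 * (n : ℝ)) ≤ ((2 * n).choose n : ℝ) / 2 ^ (2 * n) := by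
  have h1 := Nat.four_pow_le_two_mul_self_mul_centralBinom n (by omega)
  rw [Nat.centralBinom_eq_two_mul_choose] at h1
  have h2 : (4 : ℝ) ^ n ≤ 2 * n * ((2 * n).choose n : ℝ) := by exact_mod_cast h1
  have hn0 : (0 : ℝ) < n := by exact_mod_cast hn
  rw [pow_mul, show (2 : ℝ) ^ 2 = 4 by norm_num, div_le_div_iff₀ (by positivity) (by positivity)]
  linarith

/-- comparison of windows of different widths -/
theorem Gs_half {Φ : ℤ → ℝ} (hΦ0 : ∀ N, 0 ≤ Φ N) {a b : ℝ} (hab : |a - b| ≤ 1 / 8) : 3 / 8 * Gs Φ (1 / 2) a ≤ Gs Φ 1 b := by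
  obtain ⟨X, hX⟩ : ∃ X : ℤ, X = ⌈Real.exp (a + 2)⌉ := ⟨_, rfl⟩
  have hX1 : Real.exp (a + 2) ≤ X := by rw [hX]; exact Int.le_ceil _
  have hab2 := hab
  rw [abs_le] at hab2
  have h1 : Real.exp (a + 1 / 2) ≤ Real.exp (a + 2) := Real.exp_le_exp.mpr (by linarith)
  have h2 : Real.exp (b + 1) ≤ Real.exp (a + 2) := Real.exp_le_exp.mpr (by linarith)
  rw [← Gs_eq Φ (by norm_num) (le_trans h1 hX1), ← Gs_eq Φ (by norm_num) (le_trans h2 hX1)]
  unfold SS
  rw [Finset.mul_sum]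
  apply Finset.sum_le_sum
  intro N _
  rw [mul_left_comm]
  apply mul_le_mul_of_nonneg_left _ (hΦ0 N)
  by_cases h0 : om a (1 / 2) N = 0
  · rw [h0, mul_zero]; exact om_nonneg _ _ _
  · obtain ⟨h3, h4⟩ := om_ne_zero (by norm_num) h0
    unfold om
    rw [mul_div_assoc']
    apply div_le_div_of_nonneg_right _ (abs_nonneg _)
    have h5 : 3 / 8 ≤ tent ((Real.log |(N : ℝ)| - b) / 1) := by
      unfold tent
      refine le_trans ?_ (le_max_right _ _)
      rw [div_one]
      have : |Real.log |(N : ℝ)| - b| ≤ 5 / 8 := by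
        rw [abs_lt] at h4
        rw [abs_le]
        constructor <;> linarith
      linarith
    have h6 := tent_le_one ((Real.log |(N : ℝ)| - a) / (1 / 2))
    linarith

/-- approximation of small shifts by differences `p log 2 - i log 3` with `i ≤ p` -/
theorem dens_pos : ∃ P : ℕ, ∀ r : ℝ, 0 ≤ r → r ≤ 1 → ∃ n0 p i : ℕ, n0 ≤ P ∧ p ≤ P ∧ i ≤ p ∧
    |r + n0 * (2 * mu) - (p * Real.log 2 - i * Real.log 3)| ≤ 1 / 8 := by
  obtain ⟨P0, hP0, H⟩ := dens_unif (show (0 : ℝ) < 1 / 8 by norm_num)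
  obtain ⟨K, hK⟩ := exists_nat_ge P0
  refine ⟨5 * K, ?_⟩
  intro r hr0 hr1
  obtain ⟨p, q, hp, hq, h⟩ := H r hr0 hr1
  rw [abs_le] at hp hq
  have hp1 : -(K : ℤ) ≤ p := by
    have : (-(K : ℤ) : ℝ) ≤ (p : ℝ) := by push_cast; linarith
    exact_mod_cast this
  have hp2 : p ≤ K := by
    have : (p : ℝ) ≤ (K : ℤ) := by push_cast; linarith
    exact_mod_cast this
  have hq1 : -(K : ℤ) ≤ q := by
    have : (-(K : ℤ) : ℝ) ≤ (q : ℝ) := by push_cast; linarith
    exact_mod_cast this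
  have hq2 : q ≤ K := by
    have : (q : ℝ) ≤ (K : ℤ) := by push_cast; linarith
    exact_mod_cast this
  obtain ⟨p', hp'⟩ := Int.eq_ofNat_of_zero_le (show 0 ≤ p + 4 * K by omega)
  obtain ⟨i', hi'⟩ := Int.eq_ofNat_of_zero_le (show 0 ≤ 2 * K - q by omega)
  refine ⟨2 * K, p', i', by omega, by omega, by omega, ?_⟩
  have e1 : (p' : ℝ) = p + 4 * K := by
    have : ((p' : ℤ) : ℝ) = ((p + 4 * K : ℤ) : ℝ) := by rw [hp']
    push_cast at this
    exact this
  have e2 : (i' : ℝ) = 2 * K - q := by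
    have : ((i' : ℤ) : ℝ) = ((2 * K - q : ℤ) : ℝ) := by rw [hi']
    push_cast at this
    exact this
  rw [e1, e2]
  refine le_trans (le_of_eq ?_) h
  congr 1
  unfold mu
  push_cast
  ring

end Pool.Agent.Helper3.TD
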