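import Pool.Agent.Helper3.TD.Pair

/-! Preparations for narrow windows. -/

namespace Pool.Agent.Helper3.TD

open Pool.Agent.Helper3.ND

theorem log_three_ge : 1 ≤ Real.log 3 := by
  rw [Real.le_log_iff_exp_le (by norm_num)]
  have := Real.exp_one_lt_d9
  linarith

theorem mu_le' : mu ≤ 0.2 := by
  unfold mu
  have h1 := Real.log_two_lt_d9
  have h2 := log_three_ge
  linarith

/-- narrow windows: the weight of the preimage -/
theorem pair_narrow {t : ℕ} {a : ℝ} (hz : 16 * 10 ^ t ≤ Real.exp (a - 1)) {r : ℕ} {M : ℤ}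
    (hd : (3 : ℤ) ^ od t (r : ℤ) ∣ M - T^[t] (r : ℤ)) :
    om a 1 (nn t r M) ≤
      if |Real.log |(M : ℝ)| - (a - t * Real.log 2 + od t (r : ℤ) * Real.log 3)| ≤ 5 / 4 then
        2 * (3 ^ od t (r : ℤ) / 2 ^ t) / |(M : ℝ)| else 0 := by
  obtain ⟨N, hN⟩ : ∃ N, N = nn t r M := ⟨_, rfl⟩
  obtain ⟨k, hkdef⟩ : ∃ k, k = od t (r : ℤ) := ⟨_, rfl⟩
  have hodN : od t N = k := by rw [hN, nn_od, hkdef]
  have hTN : T^[t] N = M := by rw [hN]; exact nn_T t r M hd
  have haff := affine t N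
  rw [hTN, hodN] at haff
  have hcc0 := cc_nonneg t N
  have hcc1 := cc_le t N
  rw [hodN] at hcc1
  rw [← hN, ← hkdef]
  obtain ⟨A, hA⟩ : ∃ A : ℝ, A = 3 ^ k := ⟨_, rfl⟩
  obtain ⟨B, hB⟩ : ∃ B : ℝ, B = 2 ^ t := ⟨_, rfl⟩
  obtain ⟨z, hzdef⟩ : ∃ z, z = Real.exp (a - 1) := ⟨_, rfl⟩
  rw [← hzdef] at hz
  rw [← hA, ← hB]
  have hApos : 0 < A := by rw [hA]; positivity
  have hBpos : 0 < B := by rw [hB]; positivity
  have hzpos : 0 < z := by rw [hzdef]; exact Real.exp_pos _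
  obtain ⟨n, hn⟩ : ∃ n, n = |(N : ℝ)| := ⟨_, rfl⟩
  obtain ⟨mm, hmm⟩ : ∃ mm, mm = |(M : ℝ)| := ⟨_, rfl⟩
  have hmm0 : 0 ≤ mm := by rw [hmm]; exact abs_nonneg _
  by_cases hom : om a 1 N = 0
  · rw [hom]
    split_ifs
    · rw [← hmm]; positivity
    · exact le_rfl
  have hbasic : |B * mm - A * n| ≤ A * B := by
    have h1 : (2 : ℝ) ^ t * (M : ℝ) = 3 ^ k * (N : ℝ) + (cc t N : ℝ) := by exact_mod_cast haff
    have h2 : (0 : ℝ) ≤ (cc t N : ℝ) := by exact_mod_cast hcc0
    have h3 : (cc t N : ℝ) ≤ 3 ^ k * 2 ^ t := by exact_mod_cast hcc1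
    rw [← hA, ← hB] at h3
    rw [← hA, ← hB] at h1
    have e1 : B * mm = |B * (M : ℝ)| := by rw [abs_mul, abs_of_pos hBpos, hmm]
    have e2 : A * n = |A * (N : ℝ)| := by rw [abs_mul, abs_of_pos hApos, hn]
    rw [e1, e2]
    refine le_trans (abs_abs_sub_abs_le_abs_sub _ _) ?_
    rw [h1, show A * (N : ℝ) + (cc t N : ℝ) - A * (N : ℝ) = (cc t N : ℝ) by ring, abs_of_nonneg h2]
    exact h3
  obtain ⟨h1, h2⟩ := om_ne_zero one_pos hom
  rw [← hn] at h1 h2
  rw [abs_lt] at h2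
  have h3 : z < n := by
    rw [hzdef, ← Real.lt_log_iff_exp_lt h1]
    linarith
  have hB16 : 16 * B ≤ n := by
    have h4 : B ≤ 10 ^ t := by rw [hB]; exact pow_le_pow_left₀ (by norm_num) (by norm_num) t
    linarith
  have h6 : A * n / 2 ≤ B * mm := by
    rw [abs_le] at hbasic
    nlinarith
  have hmpos : 0 < mm := by
    by_contra hc
    have : mm = 0 := le_antisymm (not_lt.mp hc) hmm0
    rw [this] at h6
    have : 0 < A * n := by positivity
    linarith
  obtain ⟨ρ, hρ⟩ : ∃ ρ, ρ = A * n / (B * mm) := ⟨_, rfl⟩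
  have hρ1 : |ρ - 1| ≤ 1 / 8 := by
    have e1 : ρ - 1 = (A * n - B * mm) / (B * mm) := by rw [hρ]; field_simp
    rw [e1, abs_div, abs_of_pos (show 0 < B * mm by positivity), abs_sub_comm, div_le_iff₀ (by positivity)]
    refine le_trans hbasic ?_
    have : A * (16 * B) ≤ A * n := by gcongr
    linarith
  have hlρ := log_near hρ1 le_rfl
  rw [abs_le] at hρ1
  have hρpos : 0 < ρ := by linarith
  have hneq : n = ρ * (B / A * mm) := by rw [hρ]; field_simp
  have hlog : Real.log n = Real.log ρ + (Real.log (B / A) + Real.log mm) := by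
    rw [hneq, Real.log_mul hρpos.ne' (by positivity), Real.log_mul (by positivity) hmpos.ne']
  have hlogBA : Real.log (B / A) = t * Real.log 2 - k * Real.log 3 := by
    rw [Real.log_div hBpos.ne' hApos.ne', hA, hB, Real.log_pow, Real.log_pow]
  rw [← hmm, if_pos]
  · refine le_trans (om_le a 1 N) ?_
    have h7 : 7 / 8 * (B * mm) ≤ A * n := by
      have h8 : 7 / 8 ≤ ρ := by linarith
      rw [hρ, le_div_iff₀ (by positivity)] at h8
      exact h8
    rw [← hn, mul_div_assoc', div_div, div_le_div_iff₀ h1 (by positivity)]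
    have : 0 < B * mm := by positivity
    linarith
  · rw [abs_le] at hlρ ⊢
    constructor <;> linarith

/-- few integers in a short interval -/
theorem card_short (S : Finset ℕ) (x : ℝ) {c v : ℝ} (hc : 0 < c) (hv : 0 ≤ v) (hS : ∀ k ∈ S, |x - k * c| ≤ v) :
    (S.card : ℝ) ≤ 2 * v / c + 1 := by
  classical
  rcases S.eq_empty_or_nonempty with h | h
  · rw [h]
    simp only [Finset.card_empty, Nat.cast_zero]
    positivity
  · have h1 := hS _ (S.min'_mem h)
    have h2 := hS _ (S.max'_mem h)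
    have hle : S.min' h ≤ S.max' h := S.min'_le_max' h
    have hsub : S ⊆ Finset.Icc (S.min' h) (S.max' h) := by
      intro k hk
      rw [Finset.mem_Icc]
      exact ⟨S.min'_le _ hk, S.le_max' _ hk⟩
    have h3 := Finset.card_le_card hsub
    rw [Nat.card_Icc] at h3
    have h4 : (S.card : ℝ) ≤ (S.max' h : ℝ) + 1 - S.min' h := by
      have h5 : S.card + S.min' h ≤ S.max' h + 1 := by omega
      have h6 : (S.card : ℝ) + S.min' h ≤ S.max' h + 1 := by exact_mod_cast h5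
      linarith
    rw [abs_le] at h1 h2
    have h5 : ((S.max' h : ℝ) - S.min' h) * c ≤ 2 * v := by linarith
    rw [← le_div_iff₀ hc] at h5
    linarith

end Pool.Agent.Helper3.TD
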