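import Pool.Agent.Helper3.TD.GsK
import Pool.Agent.Helper3.TD.Harn
import Pool.Agent.Helper3.TD.Jump1

/-! Harnack inequality between scales. -/

namespace Pool.Agent.Helper3.TD

open Pool.Agent.Helper3.ND

theorem Eo_pick {n : ℕ} {g : ℕ → ℝ} (hg : ∀ j, 0 ≤ g j) {p i : ℕ} (hnp : n = p) (hi : i ≤ p) : 1 / 2 ^ p * g i ≤ Eo n g := by
  subst hnp
  refine le_trans ?_ (Eo_ge n hg i)
  apply mul_le_mul_of_nonneg_right _ (hg i)
  apply div_le_div_of_nonneg_right _ (by positivity)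
  have := Nat.choose_pos hi
  exact_mod_cast this

/-- **Harnack inequality**: mass at scale `a0` forces mass at all scales slightly above -/
theorem harnack : ∃ κ : ℝ, 0 < κ ∧ ∀ q : ℕ, ∃ C : ℝ, 0 < C ∧ ∃ A0 : ℝ, 10 ^ 6 ≤ A0 ∧
    ∀ A : ℝ, A0 ≤ A → ∀ Y : ℝ, 0 ≤ Y → Y ≤ Real.exp (A / 8) → ∀ Φ : ℤ → ℝ, Inv Φ Y →
    ∀ a : ℝ, A + A / 10000 ≤ a → a ≤ A + A / 1000 → κ / A * Gs Φ (1 / 2) A - C / A ^ q ≤ Gs Φ 1 a := by
  obtain ⟨P, hP⟩ := dens_pos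
  refine ⟨1 / 2 ^ P * (3 / 8), by positivity, ?_⟩
  intro q
  obtain ⟨C, hC, H⟩ := avgK q
  obtain ⟨A0, hA0, H2⟩ := H 1 (by norm_num) le_rfl
  refine ⟨2 * C, by positivity, max A0 (10 ^ 6 + 10 ^ 5 * P), ?_, ?_⟩
  · refine le_trans ?_ (le_max_right _ _)
    have : (0 : ℝ) ≤ P := by positivity
    linarith
  intro A hA Y hY hYA Φ hΦ a ha1 ha2
  have hAA : A0 ≤ A := le_trans (le_max_left _ _) hA
  have hA6 : 10 ^ 6 + 10 ^ 5 * (P : ℝ) ≤ A := le_trans (le_max_right _ _) hA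
  have hP0 : (0 : ℝ) ≤ P := by positivity
  have hA0' : 0 < A := by linarith
  have hm1 := mu_ge
  have hm2 := mu_le'
  have hmpos : 0 < mu := by linarith
  obtain ⟨n, hn⟩ : ∃ n, n = ⌊(a - A) / (2 * mu)⌋₊ := ⟨_, rfl⟩
  have hn1 : (n : ℝ) ≤ (a - A) / (2 * mu) := by
    rw [hn]; exact Nat.floor_le (div_nonneg (by linarith) (by linarith))
  have hn2 : (a - A) / (2 * mu) < n + 1 := by rw [hn]; exact Nat.lt_floor_add_one _
  rw [le_div_iff₀ (by positivity)] at hn1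
  rw [div_lt_iff₀ (by positivity)] at hn2
  obtain ⟨r, hr⟩ : ∃ r, r = (a - A) - n * (2 * mu) := ⟨_, rfl⟩
  obtain ⟨n0, p, i, h1, h2, h3, h4⟩ := hP r (by linarith) (by nlinarith)
  have hnP : (P : ℝ) + 1 ≤ n := by nlinarith
  have hn0P : (n0 : ℝ) ≤ P := by exact_mod_cast h1
  have hn0n : n0 ≤ n := by
    have : (n0 : ℝ) ≤ n := by linarith
    exact_mod_cast this
  obtain ⟨n', hn'⟩ : ∃ n', n = n0 + n' := ⟨n - n0, by omega⟩
  have hnr : (n : ℝ) = n0 + n' := by rw [hn']; push_cast; ring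
  have hn'1 : 1 ≤ n' := by
    have : (1 : ℝ) ≤ n' := by linarith
    exact_mod_cast this
  have hn'r : (1 : ℝ) ≤ n' := by exact_mod_cast hn'1
  have hn'A : ((2 * n' : ℕ) : ℝ) ≤ A / 100 := by
    push_cast
    have : (n' : ℝ) * (2 * mu) ≤ A / 1000 := by
      have : (n' : ℝ) * (2 * mu) ≤ n * (2 * mu) := by
        apply mul_le_mul_of_nonneg_right _ (by positivity)
        linarith
      linarith
    nlinarith
  have hpP : (p : ℝ) ≤ P := by exact_mod_cast h2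
  -- the first jump
  have hfam := hΦ.fam
  obtain ⟨j, hj⟩ := exists_nat_ge (A / 80)
  have s1 := H2 A hAA Y hY hYA _ hfam (2 * n') hn'A j hj a (by linarith) (by linarith)
  have e1 : bk a (2 * n') n' = a - n' * (2 * mu) := by unfold bk mu; push_cast; ring
  have s2 := Eo_ge (2 * n') (g := fun i => Gs Φ 1 (bk a (2 * n') i)) (fun i => Gs_nonneg hΦ.nonneg _ _) n'
  have s3 := central_ge hn'1
  simp only [e1] at s2
  have hG1 : 0 ≤ Gs Φ 1 (a - n' * (2 * mu)) := Gs_nonneg hΦ.nonneg _ _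
  have s4 : 1 / (2 * (n' : ℝ)) * Gs Φ 1 (a - n' * (2 * mu)) ≤ Eo (2 * n') (fun i => Gs Φ 1 (bk a (2 * n') i)) :=
    le_trans (mul_le_mul_of_nonneg_right s3 hG1) s2
  -- the second jump
  have hpA : (p : ℝ) ≤ A / 100 := by linarith
  have e2 : a - n' * (2 * mu) = A + r + n0 * (2 * mu) := by rw [hr, hnr]; ring
  have t1 := H2 A hAA Y hY hYA _ hfam p hpA j hj (a - n' * (2 * mu)) (by
    rw [e2]
    have : 0 ≤ (n0 : ℝ) * (2 * mu) := by positivity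
    linarith) (by
    have : 0 ≤ (n' : ℝ) * (2 * mu) := by positivity
    linarith)
  have t2 := Eo_pick (n := p) (g := fun k => Gs Φ 1 (bk (a - n' * (2 * mu)) p k)) (fun i => Gs_nonneg hΦ.nonneg _ _) rfl h3
  obtain ⟨b, hb⟩ : ∃ b, b = bk (a - n' * (2 * mu)) p i := ⟨_, rfl⟩
  have hb2 : |A - b| ≤ 1 / 8 := by
    rw [abs_sub_comm, hb, e2]
    refine le_trans (le_of_eq ?_) h4
    congr 1
    unfold bk
    ring
  have t3 := Gs_half hΦ.nonneg hb2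
  have hGb : 0 ≤ Gs Φ 1 b := Gs_nonneg hΦ.nonneg _ _
  have hGA : 0 ≤ Gs Φ (1 / 2) A := Gs_nonneg hΦ.nonneg _ _
  have t4 : 1 / 2 ^ P * Gs Φ 1 b ≤ 1 / 2 ^ p * Gs Φ 1 b := by
    apply mul_le_mul_of_nonneg_right _ hGb
    apply one_div_le_one_div_of_le (by positivity)
    exact pow_le_pow_right₀ (by norm_num) h2
  simp only [← hb] at t2
  rw [abs_le] at s1 t1
  have hq : 0 < C / A ^ q := by positivity
  have u1 : 1 / 2 ^ P * (3 / 8) * Gs Φ (1 / 2) A - C / A ^ q ≤ Gs Φ 1 (a - n' * (2 * mu)) := by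
    have : 1 / 2 ^ P * (3 / 8) * Gs Φ (1 / 2) A ≤ 1 / 2 ^ P * Gs Φ 1 b := by
      rw [mul_assoc]
      exact mul_le_mul_of_nonneg_left t3 (by positivity)
    linarith [t1.1]
  obtain ⟨w, hw⟩ : ∃ w : ℝ, w = 1 / (2 * (n' : ℝ)) := ⟨_, rfl⟩
  have hw0 : 0 < w := by rw [hw]; positivity
  have hw1 : w ≤ 1 := by
    rw [hw, div_le_one (by positivity)]; linarith
  have hwA : 1 / A ≤ w := by
    rw [hw]
    apply one_div_le_one_div_of_le (by positivity)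
    push_cast at hn'A
    linarith
  have u2 : w * (1 / 2 ^ P * (3 / 8) * Gs Φ (1 / 2) A) - C / A ^ q ≤ w * Gs Φ 1 (a - n' * (2 * mu)) := by
    have := mul_le_mul_of_nonneg_left u1 hw0.le
    have h5 : w * (C / A ^ q) ≤ 1 * (C / A ^ q) := mul_le_mul_of_nonneg_right hw1 hq.le
    linarith
  have u3 : 1 / 2 ^ P * (3 / 8) / A * Gs Φ (1 / 2) A ≤ w * (1 / 2 ^ P * (3 / 8) * Gs Φ (1 / 2) A) := by
    have : 1 / 2 ^ P * (3 / 8) / A * Gs Φ (1 / 2) A = 1 / A * (1 / 2 ^ P * (3 / 8) * Gs Φ (1 / 2) A) := by ring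
    rw [this]
    exact mul_le_mul_of_nonneg_right hwA (by positivity)
  rw [← hw] at s4
  have e3 : 2 * C / A ^ q = C / A ^ q + C / A ^ q := by ring
  rw [e3]
  linarith [s1.1]

end Pool.Agent.Helper3.TD
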