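import Pool.Agent.Helper3.TD.Chain
import Pool.Agent.Helper3.TD.GsK

/-! Propagation of smallness through all scales. -/

namespace Pool.Agent.Helper3.TD

open Pool.Agent.Helper3.ND

theorem Gs_bdd {Φ : ℤ → ℝ} (hΦ1 : ∀ N, Φ N ≤ 1) {a : ℝ} (ha : 3 ≤ a) : Gs Φ 1 a ≤ 6 := by
  have h3 := win_sum (q := 1) (f := fun _ => (1 : ℝ)) le_rfl (fun _ => rfl) (fun _ => by norm_num) (b := a) (v := 1)
    (by norm_num) (by
      have h4 := Real.exp_one_gt_d9
      have h5 : Real.exp 2 = Real.exp 1 * Real.exp 1 := by rw [← Real.exp_add]; norm_num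
      have h6 : Real.exp 2 ≤ Real.exp (a - 1) := Real.exp_le_exp.mpr (by linarith)
      push_cast
      nlinarith) ⌈Real.exp (a + 1)⌉
  have hav : AvQ 1 (fun _ => (1 : ℝ)) = 1 := by unfold AvQ; simp
  rw [hav] at h3
  refine le_trans ?_ (le_trans h3 (by norm_num))
  unfold Gs SS
  apply Finset.sum_le_sum
  intro N _
  refine le_trans (mul_le_mul_of_nonneg_right (hΦ1 N) (om_nonneg _ _ _)) ?_
  rw [one_mul]
  exact om_le_win (by norm_num) N

theorem Eo_tail {n : ℕ} (hn : 1 ≤ n) : Eo n (fun i => if (n : ℝ) / 100 ≤ |(i : ℝ) - n / 2| then (1 : ℝ) else 0) ≤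
    2 * Real.exp (-((n : ℝ) / 5000)) := by
  classical
  have hn0 : (0 : ℝ) < n := by exact_mod_cast hn
  have h1 := card_od n hn ((n : ℝ) / 100) (by positivity)
  unfold Eo
  rw [div_le_iff₀ (by positivity), ← Finset.sum_filter, Finset.sum_const, nsmul_eq_mul, mul_one]
  have e : 2 * ((n : ℝ) / 100) ^ 2 / n = n / 5000 := by field_simp; norm_num
  rw [e] at h1
  linarith

theorem bk_typ {A : ℝ} {n i : ℕ} (h : |(i : ℝ) - n / 2| < n / 100) : bk A n i ≤ A - 0.129 * n := by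
  have h1 := mu_ge
  have h2 := log_three_le
  have h3 : 0 < Real.log 3 := Real.log_pos (by norm_num)
  have e : bk A n i = A - n * mu + ((i : ℝ) - n / 2) * Real.log 3 := by unfold bk mu; ring
  rw [e]
  rw [abs_lt] at h
  have hn0 : (0 : ℝ) ≤ n := by positivity
  nlinarith

theorem prop_step (q : ℕ) : ∃ C : ℝ, 0 < C ∧ ∃ A0 : ℝ, 10 ^ 5 + 200 ≤ A0 ∧
    ∀ A : ℝ, A0 ≤ A → ∀ Y : ℝ, 0 ≤ Y → Y ≤ Real.exp (A / 8) → ∀ Φ : ℕ → ℤ → ℝ, Fam Φ Y → ∀ B lo : ℝ, 0 ≤ B → lo ≤ 0.99 * A →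
    (∀ b : ℝ, lo ≤ b → b ≤ A - 1 → ∀ j : ℕ, 900 * b ≤ j → Gs (Φ j) 1 b ≤ B) →
    ∀ j : ℕ, 900 * A ≤ j → Gs (Φ j) 1 A ≤ B + C / A ^ q := by
  obtain ⟨C, hC, H⟩ := avgK q
  obtain ⟨A0, hA0, H2⟩ := H 1 (by norm_num) le_rfl
  refine ⟨C + 12 * ((Nat.factorial q : ℝ) * (10 ^ 6) ^ q), by positivity, A0, by linarith, ?_⟩
  intro A hA Y hY hYA Φ hΦ B lo hB hlo hyp j hj
  have hA5 : (10 ^ 5 : ℝ) ≤ A := by linarith
  have hApos : 0 < A := by linarith
  obtain ⟨n, hn⟩ : ∃ n, n = ⌊A / 100⌋₊ := ⟨_, rfl⟩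
  have hn1 : (n : ℝ) ≤ A / 100 := by rw [hn]; exact Nat.floor_le (by positivity)
  have hn2 : A / 100 - 1 < n := by rw [hn]; exact Nat.sub_one_lt_floor _
  have hn3 : A / 200 ≤ n := by linarith
  have hn0 : (0 : ℝ) < n := by linarith
  have hnj : n ≤ j := by
    have : (n : ℝ) ≤ j := by linarith
    exact_mod_cast this
  obtain ⟨j', hj'⟩ : ∃ j', j = j' + n := ⟨j - n, by omega⟩
  have hjr : (j : ℝ) = j' + n := by rw [hj']; push_cast; ring
  have h1 := H2 A hA Y hY hYA Φ hΦ n hn1 j' (by linarith) A (by linarith) (by linarith)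
  rw [← hj'] at h1
  have h2 : Eo n (fun i => Gs (Φ j') 1 (bk A n i)) ≤ B + 6 * (2 * Real.exp (-((n : ℝ) / 5000))) := by
    have h3 : Eo n (fun i => Gs (Φ j') 1 (bk A n i)) ≤ Eo n (fun i => B + 6 * (if (n : ℝ) / 100 ≤ |(i : ℝ) - n / 2| then (1 : ℝ) else 0)) := by
      apply Eo_mono'
      intro i hi
      obtain ⟨b1, b2⟩ := bk_bounds (a := A) hi
      split_ifs with h4
      · have := Gs_bdd (hΦ.le_one j') (a := bk A n i) (by linarith)
        linarith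
      · rw [not_le] at h4
        have h5 := bk_typ (A := A) h4
        have := hyp (bk A n i) (by linarith) (by linarith) j' (by linarith)
        linarith
    refine le_trans h3 ?_
    rw [Eo_add_fun, Eo_const, Eo_mul]
    have := Eo_tail (n := n) (by
      have : (0 : ℝ) < n := hn0
      exact_mod_cast this)
    linarith
  have h3 : Real.exp (-((n : ℝ) / 5000)) ≤ (Nat.factorial q : ℝ) * (10 ^ 6) ^ q / A ^ q := by
    refine le_trans (exp_neg_powK q (show 0 < (n : ℝ) / 5000 by positivity)) ?_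
    rw [div_le_div_iff₀ (by positivity) (by positivity)]
    have h4 : A ^ q ≤ (10 ^ 6 * (n / 5000)) ^ q := by
      apply pow_le_pow_left₀ hApos.le
      linarith
    rw [mul_pow] at h4
    calc (Nat.factorial q : ℝ) * A ^ q ≤ (Nat.factorial q : ℝ) * ((10 ^ 6) ^ q * (n / 5000) ^ q) := by gcongr
      _ = _ := by ring
  rw [abs_le] at h1
  have e : (C + 12 * ((Nat.factorial q : ℝ) * (10 ^ 6) ^ q)) / A ^ q = C / A ^ q + 12 * ((Nat.factorial q : ℝ) * (10 ^ 6) ^ q / A ^ q) := by ring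
  rw [e]
  linarith

/-- **propagation** -/
theorem prop_all (q : ℕ) : ∃ C : ℝ, 0 < C ∧ ∃ A0 : ℝ, 10 ^ 5 + 200 ≤ A0 ∧
    ∀ N0 : ℕ, A0 ≤ N0 → ∀ Y : ℝ, 0 ≤ Y → Y ≤ Real.exp ((N0 : ℝ) / 8) → ∀ Φ : ℕ → ℤ → ℝ, Fam Φ Y → ∀ B : ℝ, 0 ≤ B →
    (∀ b : ℝ, (N0 : ℝ) ≤ b → b ≤ 2 * N0 → ∀ j : ℕ, 900 * b ≤ j → Gs (Φ j) 1 b ≤ B) →
    ∀ a : ℝ, (N0 : ℝ) ≤ a → ∀ j : ℕ, 900 * a ≤ j → Gs (Φ j) 1 a ≤ B + C / (N0 : ℝ) ^ q := by
  obtain ⟨C', hC', A0', hA0', H'⟩ := prop_step (q + 2)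
  refine ⟨2 ^ (q + 1) * C', by positivity, A0', hA0', ?_⟩
  intro N0 hN0 Y hY hYN Φ hΦ B hB hyp
  have hN5 : (10 ^ 5 : ℝ) ≤ N0 := by linarith
  have hN0pos : (0 : ℝ) < N0 := by linarith
  have hN1 : 2 ≤ N0 := by
    have : (2 : ℝ) ≤ N0 := by linarith
    exact_mod_cast this
  have key : ∀ n : ℕ, ∀ a : ℝ, (N0 : ℝ) ≤ a → a ≤ 2 * N0 + n → ∀ j : ℕ, 900 * a ≤ j →
      Gs (Φ j) 1 a ≤ B + C' * ∑ i ∈ Finset.range n, 1 / ((N0 : ℝ) + i) ^ (q + 2) := by
    intro n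
    induction n with
    | zero =>
      intro a h1 h2 j hj
      simpa using hyp a h1 (by simpa using h2) j hj
    | succ n ih =>
      intro a h1 h2 j hj
      rw [Finset.sum_range_succ, mul_add, ← add_assoc]
      have hpos : 0 ≤ C' * (1 / ((N0 : ℝ) + n) ^ (q + 2)) := by positivity
      rcases le_total a (2 * N0 + n) with h | h
      · have := ih a h1 h j hj
        linarith
      · push_cast at h2
        have hn0 : (0 : ℝ) ≤ n := by positivity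
        have h3 := H' a (by linarith) Y hY (le_trans hYN (Real.exp_le_exp.mpr (by linarith))) Φ hΦ
          (B + C' * ∑ i ∈ Finset.range n, 1 / ((N0 : ℝ) + i) ^ (q + 2)) N0 (by
            have : 0 ≤ ∑ i ∈ Finset.range n, 1 / ((N0 : ℝ) + i) ^ (q + 2) := Finset.sum_nonneg (fun i _ => by positivity)
            positivity) (by linarith) (fun b hb1 hb2 j' hj' => ih b hb1 (by linarith) j' hj') j hj
        refine le_trans h3 ?_
        have h4 : C' / a ^ (q + 2) ≤ C' * (1 / ((N0 : ℝ) + n) ^ (q + 2)) := by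
          rw [mul_one_div]
          apply div_le_div_of_nonneg_left hC'.le (by positivity)
          apply pow_le_pow_left₀ (by positivity)
          linarith
        linarith
  intro a ha j hj
  obtain ⟨n, hn⟩ := exists_nat_ge (a - 2 * N0)
  have h1 := key n a ha (by linarith) j hj
  have h2 : ∑ i ∈ Finset.range n, 1 / ((N0 : ℝ) + i) ^ (q + 2) ≤ 2 ^ (q + 1) / (N0 : ℝ) ^ (q + 1) := by
    have h3 := sum_inv_pow q (N0 - 1) (N0 - 1 + n) (by omega)
    rw [Finset.sum_Ico_eq_sum_range, Nat.add_sub_cancel_left] at h3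
    have h4 : ∀ i ∈ Finset.range n, 1 / ((N0 : ℝ) + i) ^ (q + 2) = 1 / (((N0 - 1 + i + 1 : ℕ) : ℝ)) ^ (q + 2) := by
      intro i _
      congr 2
      have : N0 - 1 + i + 1 = N0 + i := by omega
      rw [this]; push_cast; ring
    rw [Finset.sum_congr rfl h4]
    refine le_trans h3 ?_
    rw [div_le_div_iff₀ (by
      have : (0 : ℝ) < ((N0 - 1 : ℕ) : ℝ) := by exact_mod_cast (by omega : 0 < N0 - 1)
      positivity) (by positivity), one_mul, ← mul_pow]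
    apply pow_le_pow_left₀ hN0pos.le
    have : N0 ≤ 2 * (N0 - 1) := by omega
    exact_mod_cast this
  refine le_trans h1 ?_
  have h3 : C' * ∑ i ∈ Finset.range n, 1 / ((N0 : ℝ) + i) ^ (q + 2) ≤ C' * (2 ^ (q + 1) / (N0 : ℝ) ^ (q + 1)) :=
    mul_le_mul_of_nonneg_left h2 hC'.le
  have h4 : C' * (2 ^ (q + 1) / (N0 : ℝ) ^ (q + 1)) ≤ 2 ^ (q + 1) * C' / (N0 : ℝ) ^ q := by
    rw [mul_div_assoc', mul_comm C']
    apply div_le_div_of_nonneg_left (by positivity) (by positivity)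
    apply pow_le_pow_right₀ (by linarith) (by omega)
  linarith

end Pool.Agent.Helper3.TD
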