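import Pool.Agent.Helper3.TD.Harn2
import Pool.Agent.Helper3.TD.PropK

/-! Propagation of lower bounds. -/

namespace Pool.Agent.Helper3.TD

open Pool.Agent.Helper3.ND Filter Topology

theorem low_step (q : ℕ) : ∃ C : ℝ, 0 < C ∧ ∃ A0 : ℝ, 10 ^ 6 ≤ A0 ∧
    ∀ A : ℝ, A0 ≤ A → ∀ Y : ℝ, 0 ≤ Y → Y ≤ Real.exp (A / 8) → ∀ Φ : ℤ → ℝ, Inv Φ Y → ∀ g lo : ℝ, g ≤ 6 → lo ≤ 0.9997 * A →
    (∀ b : ℝ, lo ≤ b → b ≤ A - 1 → g ≤ Gs Φ 1 b) → g - C / A ^ q ≤ Gs Φ 1 A := by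
  obtain ⟨C, hC, H⟩ := avgK q
  obtain ⟨A0, hA0, H2⟩ := H 1 (by norm_num) le_rfl
  refine ⟨C + 12 * ((Nat.factorial q : ℝ) * (4 * 10 ^ 7) ^ q), by positivity, max A0 (10 ^ 6), le_max_right _ _, ?_⟩
  intro A hA Y hY hYA Φ hΦ g lo hg hlo hyp
  have hAA : A0 ≤ A := le_trans (le_max_left _ _) hA
  have hA5 : (10 ^ 6 : ℝ) ≤ A := le_trans (le_max_right _ _) hA
  have hApos : 0 < A := by linarith
  obtain ⟨n, hn⟩ : ∃ n, n = ⌊A / 4000⌋₊ := ⟨_, rfl⟩
  have hn1 : (n : ℝ) ≤ A / 4000 := by rw [hn]; exact Nat.floor_le (by positivity)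
  have hn2 : A / 4000 - 1 < n := by rw [hn]; exact Nat.sub_one_lt_floor _
  have hn3 : A / 8000 ≤ n := by linarith
  have hn0 : (0 : ℝ) < n := by linarith
  obtain ⟨j, hj⟩ := exists_nat_ge (A / 80)
  have h1 := H2 A hAA Y hY hYA _ hΦ.fam n (by linarith) j hj A (by linarith) (by linarith)
  have hpos : 0 < (C + 12 * ((Nat.factorial q : ℝ) * (4 * 10 ^ 7) ^ q)) / A ^ q := by positivity
  rcases le_total g 0 with hg0 | hg0
  · have := Gs_nonneg hΦ.nonneg 1 A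
    linarith
  have h2 : g - 6 * (2 * Real.exp (-((n : ℝ) / 5000))) ≤ Eo n (fun i => Gs Φ 1 (bk A n i)) := by
    have h3 : Eo n (fun i => g + (-6) * (if (n : ℝ) / 100 ≤ |(i : ℝ) - n / 2| then (1 : ℝ) else 0)) ≤ Eo n (fun i => Gs Φ 1 (bk A n i)) := by
      apply Eo_mono'
      intro i hi
      obtain ⟨b1, b2⟩ := bk_bounds (a := A) hi
      split_ifs with h4
      · have := Gs_nonneg hΦ.nonneg 1 (bk A n i)
        linarith
      · rw [not_le] at h4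
        have h5 := bk_typ (A := A) h4
        have := hyp (bk A n i) (by linarith) (by linarith)
        linarith
    refine le_trans ?_ h3
    rw [Eo_add_fun, Eo_const, Eo_mul]
    have := Eo_tail (n := n) (by
      have : (0 : ℝ) < n := hn0
      exact_mod_cast this)
    linarith
  have h3 : Real.exp (-((n : ℝ) / 5000)) ≤ (Nat.factorial q : ℝ) * (4 * 10 ^ 7) ^ q / A ^ q := by
    refine le_trans (exp_neg_powK q (show 0 < (n : ℝ) / 5000 by positivity)) ?_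
    rw [div_le_div_iff₀ (by positivity) (by positivity)]
    have h4 : A ^ q ≤ (4 * 10 ^ 7 * (n / 5000)) ^ q := by
      apply pow_le_pow_left₀ hApos.le
      linarith
    rw [mul_pow] at h4
    calc (Nat.factorial q : ℝ) * A ^ q ≤ (Nat.factorial q : ℝ) * ((4 * 10 ^ 7) ^ q * (n / 5000) ^ q) := by gcongr
      _ = _ := by ring
  rw [abs_le] at h1
  have e : (C + 12 * ((Nat.factorial q : ℝ) * (4 * 10 ^ 7) ^ q)) / A ^ q = C / A ^ q + 12 * ((Nat.factorial q : ℝ) * (4 * 10 ^ 7) ^ q / A ^ q) := by ring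
  rw [e]
  linarith [h1.1]

/-- a lower bound on one stretch of scales persists for ever -/
theorem low_all (q : ℕ) : ∃ C : ℝ, 0 < C ∧ ∃ A0 : ℝ, 10 ^ 6 ≤ A0 ∧
    ∀ A : ℝ, A0 ≤ A → ∀ Y : ℝ, 0 ≤ Y → Y ≤ Real.exp (A / 8) → ∀ Φ : ℤ → ℝ, Inv Φ Y → ∀ g : ℝ, g ≤ 6 →
    (∀ b : ℝ, A + A / 10000 ≤ b → b ≤ A + A / 1000 → g ≤ Gs Φ 1 b) →
    ∀ a : ℝ, A + A / 10000 ≤ a → g - C / A ^ q ≤ Gs Φ 1 a := by
  obtain ⟨C', hC', A0', hA0', H'⟩ := low_step (q + 2)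
  refine ⟨2 ^ (q + 1) * C', by positivity, A0', hA0', ?_⟩
  intro A hA Y hY hYA Φ hΦ g hg hyp
  have hA6 : (10 ^ 6 : ℝ) ≤ A := by linarith
  obtain ⟨N0, hN0⟩ : ∃ N0, N0 = ⌊A⌋₊ := ⟨_, rfl⟩
  have hN1 : (N0 : ℝ) ≤ A := by rw [hN0]; exact Nat.floor_le (by linarith)
  have hN2 : A - 1 < N0 := by rw [hN0]; exact Nat.sub_one_lt_floor _
  have hN3 : 2 ≤ N0 := by
    have : (2 : ℝ) ≤ N0 := by linarith
    exact_mod_cast this
  have key : ∀ n : ℕ, ∀ a : ℝ, A + A / 10000 ≤ a → a ≤ A + A / 1000 + n →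
      g - C' * ∑ i ∈ Finset.range n, 1 / ((N0 : ℝ) + i) ^ (q + 2) ≤ Gs Φ 1 a := by
    intro n
    induction n with
    | zero =>
      intro a h1 h2
      simpa using hyp a h1 (by simpa using h2)
    | succ n ih =>
      intro a h1 h2
      have hpos : 0 ≤ C' * (1 / ((N0 : ℝ) + n) ^ (q + 2)) := by positivity
      rw [Finset.sum_range_succ, mul_add]
      rcases le_total a (A + A / 1000 + n) with h | h
      · have := ih a h1 h
        linarith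
      · push_cast at h2
        have hn0 : (0 : ℝ) ≤ n := by positivity
        have hsum : 0 ≤ C' * ∑ i ∈ Finset.range n, 1 / ((N0 : ℝ) + i) ^ (q + 2) :=
          mul_nonneg hC'.le (Finset.sum_nonneg (fun i _ => by positivity))
        have h3 := H' a (by linarith) Y hY (le_trans hYA (Real.exp_le_exp.mpr (by linarith))) Φ hΦ
          (g - C' * ∑ i ∈ Finset.range n, 1 / ((N0 : ℝ) + i) ^ (q + 2)) (A + A / 10000) (by linarith) (by linarith)
          (fun b hb1 hb2 => ih b hb1 (by linarith))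
        have h4 : C' / a ^ (q + 2) ≤ C' * (1 / ((N0 : ℝ) + n) ^ (q + 2)) := by
          rw [mul_one_div]
          apply div_le_div_of_nonneg_left hC'.le (by positivity)
          apply pow_le_pow_left₀ (by positivity)
          linarith
        linarith
  intro a ha
  obtain ⟨n, hn⟩ := exists_nat_ge (a - (A + A / 1000))
  have h1 := key n a ha (by linarith)
  have h2 : ∑ i ∈ Finset.range n, 1 / ((N0 : ℝ) + i) ^ (q + 2) ≤ 2 ^ (q + 1) / A ^ (q + 1) := by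
    have h3 := sum_inv_pow q (N0 - 1) (N0 - 1 + n) (by omega)
    rw [Finset.sum_Ico_eq_sum_range, Nat.add_sub_cancel_left] at h3
    have h4 : ∀ i ∈ Finset.range n, 1 / ((N0 : ℝ) + i) ^ (q + 2) = 1 / (((N0 - 1 + i + 1 : ℕ) : ℝ)) ^ (q + 2) := by
      intro i _
      congr 2
      have : N0 - 1 + i + 1 = N0 + i := by omega
      rw [this]; push_cast; ring
    rw [Finset.sum_congr rfl h4]
    refine le_trans h3 ?_
    have h5 : A ≤ 2 * ((N0 - 1 : ℕ) : ℝ) := by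
      rw [Nat.cast_sub (by omega)]; push_cast; linarith
    have h6 : (0 : ℝ) < ((N0 - 1 : ℕ) : ℝ) := by linarith
    rw [div_le_div_iff₀ (by positivity) (by positivity), one_mul, ← mul_pow]
    exact pow_le_pow_left₀ (by linarith) h5 _
  have h3 : C' * ∑ i ∈ Finset.range n, 1 / ((N0 : ℝ) + i) ^ (q + 2) ≤ C' * (2 ^ (q + 1) / A ^ (q + 1)) :=
    mul_le_mul_of_nonneg_left h2 hC'.le
  have h4 : C' * (2 ^ (q + 1) / A ^ (q + 1)) ≤ 2 ^ (q + 1) * C' / A ^ q := by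
    rw [mul_div_assoc', mul_comm C']
    apply div_le_div_of_nonneg_left (by positivity) (by positivity)
    apply pow_le_pow_right₀ (by linarith) (by omega)
  linarith

/-- **gap inequality** for the narrow logarithmic sums -/
theorem gap_Gs : ∃ κ : ℝ, 0 < κ ∧ ∀ q : ℕ, ∃ C : ℝ, 0 < C ∧ ∃ A0 : ℝ, 10 ^ 6 ≤ A0 ∧
    ∀ A : ℝ, A0 ≤ A → ∀ Y : ℝ, 0 ≤ Y → Y ≤ Real.exp (A / 8) → ∀ Φ : ℤ → ℝ, Inv Φ Y → ∀ c : ℝ,
    Tendsto (fun a => Gs Φ 1 a) atTop (𝓝 c) → Gs Φ (1 / 2) A ≤ κ * A * c + C / A ^ q := by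
  obtain ⟨κ, hκ, H⟩ := harnack
  refine ⟨1 / κ, by positivity, ?_⟩
  intro q
  obtain ⟨C1, hC1, A1, hA1, H1⟩ := H (q + 1)
  obtain ⟨C2, hC2, A2, hA2, H2⟩ := low_all (q + 1)
  refine ⟨(C1 + C2) / κ, by positivity, max (max A1 A2) κ, ?_, ?_⟩
  · exact le_trans hA1 (le_trans (le_max_left _ _) (le_max_left _ _))
  intro A hA Y hY hYA Φ hΦ c hc
  have hAA1 : A1 ≤ A := le_trans (le_trans (le_max_left _ _) (le_max_left _ _)) hA
  have hAA2 : A2 ≤ A := le_trans (le_trans (le_max_right _ _) (le_max_left _ _)) hA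
  have hAκ : κ ≤ A := le_trans (le_max_right _ _) hA
  have hA6 : (10 ^ 6 : ℝ) ≤ A := by linarith
  have hA0 : 0 < A := by linarith
  obtain ⟨g, hg⟩ : ∃ g, g = κ / A * Gs Φ (1 / 2) A - C1 / A ^ (q + 1) := ⟨_, rfl⟩
  have hGA : 0 ≤ Gs Φ (1 / 2) A := Gs_nonneg hΦ.nonneg _ _
  have hGs6 : Gs Φ (1 / 2) A ≤ 8 / 3 * 6 := by
    have h1 := Gs_half hΦ.nonneg (a := A) (b := A) (by simp)
    have h2 := Gs_bdd hΦ.le_one (a := A) (by linarith)
    linarith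
  have hmain : ∀ b : ℝ, A + A / 10000 ≤ b → b ≤ A + A / 1000 → g ≤ Gs Φ 1 b := by
    intro b hb1 hb2
    rw [hg]
    exact H1 A hAA1 Y hY hYA Φ hΦ b hb1 hb2
  have hg6 : g ≤ 6 := by
    have h1 := hmain (A + A / 1000) (by linarith) le_rfl
    have h2 := Gs_bdd hΦ.le_one (a := A + A / 1000) (by linarith)
    linarith
  have h1 := H2 A hAA2 Y hY hYA Φ hΦ g hg6 hmain
  have h2 : g - C2 / A ^ (q + 1) ≤ c := by
    refine ge_of_tendsto hc ?_
    filter_upwards [eventually_ge_atTop (A + A / 10000)] with a ha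
    exact h1 a ha
  rw [hg] at h2
  have h3 : κ / A * Gs Φ (1 / 2) A ≤ c + (C1 + C2) / A ^ (q + 1) := by
    rw [add_div]; linarith
  have h4 : Gs Φ (1 / 2) A = A / κ * (κ / A * Gs Φ (1 / 2) A) := by field_simp
  rw [h4]
  calc A / κ * (κ / A * Gs Φ (1 / 2) A) ≤ A / κ * (c + (C1 + C2) / A ^ (q + 1)) :=
        mul_le_mul_of_nonneg_left h3 (by positivity)
    _ = 1 / κ * A * c + (C1 + C2) / κ / A ^ q := by rw [pow_succ]; field_simp

end Pool.Agent.Helper3.TD
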