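import Pool.Agent.Helper3.TD.Beta
import Pool.Agent.Helper3.TD.Change

/-! Weights and comparison of weights along trajectories. -/

namespace Pool.Agent.Helper3.TD

open Pool.Agent.Helper3.ND

noncomputable def tent (x : ℝ) : ℝ := max 0 (1 - |x|)

theorem tent_nonneg (x : ℝ) : 0 ≤ tent x := le_max_left _ _

theorem tent_le_one (x : ℝ) : tent x ≤ 1 := max_le (by norm_num) (by linarith [abs_nonneg x])

theorem tent_lip (x y : ℝ) : |tent x - tent y| ≤ |x - y| := by
  unfold tent
  have h1 : |max 0 (1 - |x|) - max 0 (1 - |y|)| ≤ |(1 - |x|) - (1 - |y|)| := by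
    rw [max_comm 0, max_comm 0]
    exact abs_max_sub_max_le_abs _ _ _
  refine le_trans h1 ?_
  rw [show (1 - |x|) - (1 - |y|) = -(|x| - |y|) by ring, abs_neg]
  exact abs_abs_sub_abs_le_abs_sub x y

theorem tent_ne_zero {x : ℝ} (h : tent x ≠ 0) : |x| < 1 := by
  by_contra hc
  apply h
  unfold tent
  exact max_eq_left (by linarith)

/-- weight of an integer -/
noncomputable def om (a W : ℝ) (N : ℤ) : ℝ := tent ((Real.log |(N : ℝ)| - a) / W) / |(N : ℝ)|

noncomputable def mu : ℝ := Real.log 2 - Real.log 3 / 2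

theorem om_nonneg (a W : ℝ) (N : ℤ) : 0 ≤ om a W N := div_nonneg (tent_nonneg _) (abs_nonneg _)

theorem om_ne_zero {a W : ℝ} (hW : 0 < W) {N : ℤ} (h : om a W N ≠ 0) :
    0 < |(N : ℝ)| ∧ |Real.log |(N : ℝ)| - a| < W := by
  unfold om at h
  have h1 : |(N : ℝ)| ≠ 0 := fun h0 => h (by rw [h0, div_zero])
  have h2 : tent ((Real.log |(N : ℝ)| - a) / W) ≠ 0 := fun h0 => h (by rw [h0, zero_div])
  refine ⟨lt_of_le_of_ne (abs_nonneg _) h1.symm, ?_⟩
  have h3 := tent_ne_zero h2
  rwa [abs_div, abs_of_pos hW, div_lt_one hW] at h3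

theorem om_le (a W : ℝ) (N : ℤ) : om a W N ≤ 1 / |(N : ℝ)| := by
  unfold om
  exact div_le_div_of_nonneg_right (tent_le_one _) (abs_nonneg _)

theorem log_three_le : Real.log 3 ≤ 1.1 := by
  have h1 : (3 : ℝ) ≤ Real.exp 1.1 := by
    have h2 := Real.exp_one_gt_d9
    have h3 : Real.exp 1.1 = Real.exp 1 * Real.exp 0.1 := by rw [← Real.exp_add]; norm_num
    have h4 : (1.1 : ℝ) ≤ Real.exp 0.1 := by
      have h5 := Real.add_one_le_exp (0.1 : ℝ)
      linarith
    have h6 : (1.105 : ℝ) ≤ Real.exp 0.1 := by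
      have := Real.quadratic_le_exp_of_nonneg (show (0 : ℝ) ≤ 0.1 by norm_num)
      linarith
    rw [h3]
    nlinarith [Real.exp_pos 0.1, Real.exp_pos 1]
  rw [Real.log_le_iff_le_exp (by norm_num)]
  exact h1

theorem mu_pos : 0 < mu := by
  unfold mu
  have h1 : Real.log 3 < 2 * Real.log 2 := by
    rw [← Real.log_rpow (by norm_num)]
    exact Real.log_lt_log (by norm_num) (by norm_num)
  linarith

theorem mu_le : mu ≤ 1 := by
  unfold mu
  have h1 := Real.log_two_lt_d9
  have h2 : 0 < Real.log 3 := Real.log_pos (by norm_num)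
  linarith

theorem log_near {ρ δ : ℝ} (h : |ρ - 1| ≤ δ) (hδ : δ ≤ 1 / 8) : |Real.log ρ| ≤ 2 * δ := by
  rw [abs_le] at h
  have hρ : 0 < ρ := by linarith
  have h1 := Real.log_le_sub_one_of_pos hρ
  have h2 := Real.one_sub_inv_le_log_of_pos hρ
  have h3 : -(2 * δ) ≤ 1 - ρ⁻¹ := by
    have h4 : ρ⁻¹ ≤ 1 + 2 * δ := by
      rw [inv_le_iff_one_le_mul₀ hρ]
      nlinarith
    linarith
  rw [abs_le]
  constructor <;> linarith

/-- comparison of the weight of `N` and of its image -/
theorem pair {t : ℕ} (ht : 10 ^ 3 ≤ t) {a W : ℝ} (hW : 1 ≤ W) (hz : 16 * W * 10 ^ t ≤ Real.exp (a - W)) {r : ℕ} {M : ℤ}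
    (hk : TypK t (od t (r : ℤ))) (hd : (3 : ℤ) ^ od t (r : ℤ) ∣ M - T^[t] (r : ℤ)) :
    |om a W (nn t r M) - 3 ^ od t (r : ℤ) / 2 ^ t * om (a - mu * t) W M| ≤
      if |Real.log |(M : ℝ)| + mu * t - a| ≤ W + 2 * (t : ℝ) ^ (11 / 20 : ℝ) then
        (3 ^ od t (r : ℤ) / 2 ^ t) / |(M : ℝ)| * ((2 * (t : ℝ) ^ (11 / 20 : ℝ) + 1) / W) else 0 := by
  have hW0 : 0 < W := by linarith
  obtain ⟨N, hN⟩ : ∃ N, N = nn t r M := ⟨_, rfl⟩
  obtain ⟨k, hkdef⟩ : ∃ k, k = od t (r : ℤ) := ⟨_, rfl⟩
  have hodN : od t N = k := by rw [hN, nn_od, hkdef]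
  have hTN : T^[t] N = M := by rw [hN]; exact nn_T t r M hd
  have haff := affine t N
  rw [hTN, hodN] at haff
  have hcc0 := cc_nonneg t N
  have hcc1 := cc_le t N
  rw [hodN] at hcc1
  rw [← hN, ← hkdef]
  rw [← hkdef] at hk
  obtain ⟨A, hA⟩ : ∃ A : ℝ, A = 3 ^ k := ⟨_, rfl⟩
  obtain ⟨B, hB⟩ : ∃ B : ℝ, B = 2 ^ t := ⟨_, rfl⟩
  obtain ⟨z, hzdef⟩ : ∃ z, z = Real.exp (a - W) := ⟨_, rfl⟩
  rw [← hzdef] at hz
  rw [← hA, ← hB]
  have hApos : 0 < A := by rw [hA]; positivity
  have hBpos : 0 < B := by rw [hB]; positivity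
  have hzpos : 0 < z := by rw [hzdef]; exact Real.exp_pos _
  obtain ⟨n, hn⟩ : ∃ n, n = |(N : ℝ)| := ⟨_, rfl⟩
  obtain ⟨mm, hmm⟩ : ∃ mm, mm = |(M : ℝ)| := ⟨_, rfl⟩
  have hn0 : 0 ≤ n := by rw [hn]; exact abs_nonneg _
  have hmm0 : 0 ≤ mm := by rw [hmm]; exact abs_nonneg _
  have hkt : k ≤ t := by rw [hkdef]; exact od_le t _
  have hbasic : |B * mm - A * n| ≤ A * B := by
    have h1 : (2 : ℝ) ^ t * (M : ℝ) = 3 ^ k * (N : ℝ) + (cc t N : ℝ) := by exact_mod_cast haff
    have h2 : (0 : ℝ) ≤ (cc t N : ℝ) := by exact_mod_cast hcc0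
    have h3 : (cc t N : ℝ) ≤ 3 ^ k * 2 ^ t := by exact_mod_cast hcc1
    rw [← hA, ← hB] at h3
    rw [← hA, ← hB] at h1
    have e1 : B * mm = |B * (M : ℝ)| := by rw [abs_mul, abs_of_pos hBpos, hmm]
    have e2 : A * n = |A * (N : ℝ)| := by rw [abs_mul, abs_of_pos hApos, hn]
    rw [e1, e2]
    refine le_trans (abs_abs_sub_abs_le_abs_sub _ _) ?_
    rw [h1, show A * (N : ℝ) + (cc t N : ℝ) - A * (N : ℝ) = (cc t N : ℝ) by ring, abs_of_nonneg h2]
    exact h3
  obtain ⟨δ, hδ⟩ : ∃ δ : ℝ, δ = 2 * 6 ^ t / z := ⟨_, rfl⟩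
  have h610 : (6 : ℝ) ^ t ≤ 10 ^ t := pow_le_pow_left₀ (by norm_num) (by norm_num) t
  have hδ1 : δ ≤ 1 / (8 * W) := by
    rw [hδ, div_le_div_iff₀ hzpos (by positivity)]
    nlinarith
  have hδ0 : 0 < δ := by rw [hδ]; positivity
  have hδ8 : δ ≤ 1 / 8 := by
    refine le_trans hδ1 ?_
    apply one_div_le_one_div_of_le (by norm_num); linarith
  have hexpmu : Real.exp (mu * t) ≤ 2 ^ t := by
    have e0 : Real.exp (t * Real.log 2) = 2 ^ t := by
      rw [Real.exp_nat_mul, Real.exp_log (by norm_num)]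
    rw [← e0]
    apply Real.exp_le_exp.mpr
    unfold mu
    have h2 : 0 < Real.log 3 := Real.log_pos (by norm_num)
    have h3 : (0 : ℝ) ≤ t := by positivity
    nlinarith
  obtain ⟨Δ, hΔ⟩ : ∃ Δ : ℝ, Δ = 2 * (t : ℝ) ^ (11 / 20 : ℝ) := ⟨_, rfl⟩
  have htr : (1 : ℝ) ≤ (t : ℝ) ^ (11 / 20 : ℝ) := by
    apply Real.one_le_rpow _ (by norm_num)
    have : 1 ≤ t := by omega
    exact_mod_cast this
  rw [← hΔ]
  -- main estimate assuming smallness of A / mm
  have main : 0 < mm → A / mm ≤ δ → (|Real.log n - a| < W ∨ |Real.log mm + mu * t - a| < W) →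
      |om a W N - A / B * om (a - mu * t) W M| ≤
        if |Real.log mm + mu * t - a| ≤ W + Δ then (A / B) / mm * ((Δ + 1) / W) else 0 := by
    intro hmpos hsmall hor
    obtain ⟨ρ, hρ⟩ : ∃ ρ, ρ = A * n / (B * mm) := ⟨_, rfl⟩
    have hρ1 : |ρ - 1| ≤ δ := by
      have e1 : ρ - 1 = (A * n - B * mm) / (B * mm) := by rw [hρ]; field_simp
      rw [e1, abs_div, abs_of_pos (show 0 < B * mm by positivity), abs_sub_comm]
      refine le_trans (div_le_div_of_nonneg_right hbasic (by positivity)) (le_trans (le_of_eq ?_) hsmall)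
      field_simp
    have hρ2 := hρ1
    rw [abs_le] at hρ2
    have hρpos : 0 < ρ := by linarith
    have hnpos : 0 < n := by
      rw [hρ] at hρpos
      have : 0 < A * n := by
        by_contra hc
        have : A * n / (B * mm) ≤ 0 := div_nonpos_of_nonpos_of_nonneg (not_lt.mp hc) (by positivity)
        linarith
      exact (mul_pos_iff_of_pos_left hApos).mp this
    have hneq : n = ρ * (B / A * mm) := by rw [hρ]; field_simp
    have hlog : Real.log n = Real.log ρ + (Real.log (B / A) + Real.log mm) := by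
      rw [hneq, Real.log_mul hρpos.ne' (by positivity), Real.log_mul (by positivity) hmpos.ne']
    have hlogBA : Real.log (B / A) = t * Real.log 2 - k * Real.log 3 := by
      rw [Real.log_div hBpos.ne' hApos.ne', hA, hB, Real.log_pow, Real.log_pow]
    have hlρ := log_near hρ1 hδ8
    have hdiff : |(Real.log n - a) - (Real.log mm + mu * t - a)| ≤ Δ := by
      have e1 : (Real.log n - a) - (Real.log mm + mu * t - a) = Real.log ρ - ((k : ℝ) - t / 2) * Real.log 3 := by
        rw [hlog, hlogBA]; unfold mu; ring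
      rw [e1]
      have h3 : |((k : ℝ) - t / 2) * Real.log 3| ≤ (t : ℝ) ^ (11 / 20 : ℝ) * 1.1 := by
        rw [abs_mul, abs_of_pos (Real.log_pos (by norm_num : (1 : ℝ) < 3))]
        exact mul_le_mul hk log_three_le (Real.log_nonneg (by norm_num)) (by positivity)
      have h4 := abs_sub (Real.log ρ) (((k : ℝ) - t / 2) * Real.log 3)
      rw [hΔ]
      linarith
    have hwin : |Real.log mm + mu * t - a| ≤ W + Δ := by
      rcases hor with h | h
      · have h4 := abs_sub_abs_le_abs_sub (Real.log mm + mu * t - a) (Real.log n - a)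
        rw [abs_sub_comm (Real.log mm + mu * t - a)] at h4
        linarith
      · have : 0 ≤ Δ := by rw [hΔ]; positivity
        linarith
    rw [if_pos hwin]
    have hom1 : om a W N = A / (B * mm) * (tent ((Real.log n - a) / W) / ρ) := by
      unfold om
      rw [← hn, hneq]
      field_simp
    have hom2 : A / B * om (a - mu * t) W M = A / (B * mm) * tent ((Real.log mm + mu * t - a) / W) := by
      unfold om
      rw [← hmm]
      rw [show Real.log mm - (a - mu * t) = Real.log mm + mu * t - a by ring]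
      field_simp
    rw [hom1, hom2, ← mul_sub, abs_mul, abs_of_pos (show 0 < A / (B * mm) by positivity)]
    have e3 : A / B / mm = A / (B * mm) := by rw [div_div]
    rw [e3]
    apply mul_le_mul_of_nonneg_left _ (by positivity)
    have t1 := tent_lip ((Real.log n - a) / W) ((Real.log mm + mu * t - a) / W)
    rw [← sub_div, abs_div, abs_of_pos hW0] at t1
    have t2 : |(Real.log n - a) - (Real.log mm + mu * t - a)| / W ≤ Δ / W := div_le_div_of_nonneg_right hdiff hW0.le
    have t3 : |tent ((Real.log n - a) / W) / ρ - tent ((Real.log n - a) / W)| ≤ 1 / W := by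
      have e4 : tent ((Real.log n - a) / W) / ρ - tent ((Real.log n - a) / W) = tent ((Real.log n - a) / W) * ((1 - ρ) / ρ) := by
        field_simp
      rw [e4, abs_mul, abs_of_nonneg (tent_nonneg _), abs_div, abs_of_pos hρpos, abs_sub_comm]
      have h7 : (7 : ℝ) / 8 ≤ ρ := by linarith
      calc tent ((Real.log n - a) / W) * (|ρ - 1| / ρ) ≤ 1 * (δ / (7 / 8)) := by
            apply mul_le_mul (tent_le_one _) _ (by positivity) (by norm_num)
            exact div_le_div₀ hδ0.le hρ1 (by norm_num) h7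
        _ ≤ 1 / W := by
            rw [one_mul, div_le_iff₀ (by norm_num)]
            refine le_trans hδ1 ?_
            rw [div_mul_eq_mul_div, div_le_div_iff₀ (by positivity) hW0]
            linarith
    have t4 := abs_sub_le (tent ((Real.log n - a) / W) / ρ) (tent ((Real.log n - a) / W)) (tent ((Real.log mm + mu * t - a) / W))
    rw [add_div]
    linarith
  rw [← hmm]
  by_cases hom : om a W N = 0
  · by_cases hot : om (a - mu * t) W M = 0
    · rw [hom, hot, mul_zero, sub_zero, abs_zero]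
      split_ifs
      · have : 0 ≤ Δ := by rw [hΔ]; positivity
        positivity
      · exact le_rfl
    · obtain ⟨h1, h2⟩ := om_ne_zero hW0 hot
      rw [← hmm] at h1 h2
      rw [show Real.log mm - (a - mu * t) = Real.log mm + mu * t - a by ring] at h2
      apply main h1 _ (Or.inr h2)
      rw [abs_lt] at h2
      have h3 : z / 2 ^ t ≤ mm := by
        have h4 : a - W - mu * t < Real.log mm := by linarith
        have h5 := (Real.lt_log_iff_exp_lt h1).mp h4
        have h6 : z / Real.exp (mu * t) < mm := by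
          rw [show a - W - mu * t = (a - W) - mu * t by ring, Real.exp_sub, ← hzdef] at h5
          exact h5
        refine le_trans ?_ h6.le
        exact div_le_div_of_nonneg_left hzpos.le (Real.exp_pos _) hexpmu
      rw [hδ, div_le_div_iff₀ h1 hzpos]
      rw [div_le_iff₀ (by positivity)] at h3
      have h4 : A ≤ 3 ^ t := by rw [hA]; exact pow_le_pow_right₀ (by norm_num) hkt
      calc A * z ≤ 3 ^ t * (mm * 2 ^ t) := by gcongr
        _ = 6 ^ t * mm := by rw [show (6 : ℝ) = 3 * 2 by norm_num, mul_pow]; ring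
        _ ≤ 2 * 6 ^ t * mm := by
            have : 0 ≤ (6 : ℝ) ^ t * mm := by positivity
            linarith
  · obtain ⟨h1, h2⟩ := om_ne_zero hW0 hom
    rw [← hn] at h1 h2
    rw [abs_lt] at h2
    have h3 : z < n := by
      rw [hzdef, ← Real.lt_log_iff_exp_lt h1]
      linarith
    have hB2 : 2 * B ≤ n := by
      have h4 : B ≤ 10 ^ t := by rw [hB]; exact pow_le_pow_left₀ (by norm_num) (by norm_num) t
      have h5 : (0 : ℝ) < 10 ^ t := by positivity
      nlinarith
    have h6 : A * n / 2 ≤ B * mm := by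
      rw [abs_le] at hbasic
      nlinarith
    have hmpos : 0 < mm := by
      by_contra hc
      have : mm = 0 := le_antisymm (not_lt.mp hc) hmm0
      rw [this] at h6
      have : 0 < A * n := by positivity
      linarith
    apply main hmpos _ (Or.inl (abs_lt.mpr h2))
    rw [hδ, div_le_div_iff₀ hmpos hzpos]
    have h7 : B ≤ 6 ^ t := by rw [hB]; exact pow_le_pow_left₀ (by norm_num) (by norm_num) t
    calc A * z ≤ A * n := by gcongr
      _ ≤ 2 * B * mm := by linarith
      _ ≤ 2 * 6 ^ t * mm := by gcongr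

end Pool.Agent.Helper3.TD
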