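import Pool.Agent.Helper3.TD.Kern1
import Pool.Agent.Helper3.TD.Pair

/-! Comparison of logarithmic sums at two scales. -/

namespace Pool.Agent.Helper3.TD

open Pool.Agent.Helper3.ND

/-- logarithmic sum over a window -/
noncomputable def SS (Φ : ℤ → ℝ) (X : ℤ) (a W : ℝ) : ℝ := ∑ N ∈ Finset.Icc (-X) X, Φ N * om a W N

/-- logarithmic sum weighted by the limiting density -/
noncomputable def SD (Φ : ℤ → ℝ) (X : ℤ) (m s : ℕ) (a W : ℝ) : ℝ :=
  ∑ M ∈ Finset.Icc (-X) X, Φ M * dl m s M * om a W M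

theorem om_le_win {a W : ℝ} (hW : 0 < W) (N : ℤ) :
    om a W N ≤ if |Real.log |(N : ℝ)| - a| ≤ W then 1 / |(N : ℝ)| else 0 := by
  by_cases h : om a W N = 0
  · rw [h]; split_ifs <;> positivity
  · rw [if_pos (om_ne_zero hW h).2.le]
    exact om_le a W N

theorem ten_exp (t : ℕ) : Real.exp (2 * t) ≤ 10 ^ t := by
  have h1 : Real.exp 2 ≤ 10 := by
    have h2 := Real.exp_one_lt_d9
    have h3 : Real.exp 2 = Real.exp 1 * Real.exp 1 := by rw [← Real.exp_add]; norm_num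
    rw [h3]
    nlinarith [Real.exp_pos 1]
  rw [show 2 * (t : ℝ) = t * 2 by ring, Real.exp_nat_mul]
  exact pow_le_pow_left₀ (Real.exp_pos 2).le h1 t

theorem three_exp (k : ℕ) : (3 : ℝ) ^ k = Real.exp (k * Real.log 3) := by
  rw [Real.exp_nat_mul, Real.exp_log (by norm_num)]

theorem grow {t k : ℕ} (ht : 10 ^ 3 ≤ t) (hk : TypK t k) {a W : ℝ} (hW : 1 ≤ W) (hz : 16 * W * 10 ^ t ≤ Real.exp (a - W)) :
    4 * 3 ^ k ≤ Real.exp (a - mu * t - (W + 2 * (t : ℝ) ^ (11 / 20 : ℝ))) := by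
  have ht' : (10 ^ 3 : ℝ) ≤ t := by exact_mod_cast ht
  have hr := rpow_small ht'
  have hk' : (k : ℝ) ≤ 0.6 * t := by
    unfold TypK at hk
    rw [abs_le] at hk
    linarith
  have h1 : (3 : ℝ) ^ k ≤ Real.exp (0.66 * t) := by
    rw [three_exp]
    apply Real.exp_le_exp.mpr
    have h2 := log_three_le
    have h3 : 0 < Real.log 3 := Real.log_pos (by norm_num)
    have h4 : (0 : ℝ) ≤ k := by positivity
    nlinarith
  have h2 := ten_exp t
  have h3 : Real.exp (-(1.2 * t)) ≤ Real.exp (-(mu * t + 2 * (t : ℝ) ^ (11 / 20 : ℝ))) := by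
    apply Real.exp_le_exp.mpr
    have := mu_le
    nlinarith
  have h4 : Real.exp (a - mu * t - (W + 2 * (t : ℝ) ^ (11 / 20 : ℝ))) =
      Real.exp (a - W) * Real.exp (-(mu * t + 2 * (t : ℝ) ^ (11 / 20 : ℝ))) := by
    rw [← Real.exp_add]; congr 1; ring
  rw [h4]
  calc 4 * (3 : ℝ) ^ k ≤ 4 * Real.exp (0.66 * t) := by gcongr
    _ ≤ 16 * 1 * (Real.exp (2 * t) * Real.exp (-(1.2 * t))) := by
        rw [← Real.exp_add]
        have h5 : Real.exp (0.66 * t) ≤ Real.exp (2 * t + -(1.2 * t)) := by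
          apply Real.exp_le_exp.mpr; linarith
        linarith [Real.exp_pos (0.66 * t)]
    _ ≤ 16 * W * (10 ^ t * Real.exp (-(mu * t + 2 * (t : ℝ) ^ (11 / 20 : ℝ)))) := by gcongr
    _ = 16 * W * 10 ^ t * Real.exp (-(mu * t + 2 * (t : ℝ) ^ (11 / 20 : ℝ))) := by ring
    _ ≤ _ := by gcongr

theorem stepA {Φ : ℤ → ℝ} (hΦ0 : ∀ N, 0 ≤ Φ N) (hΦ1 : ∀ N, Φ N ≤ 1) {t m : ℕ} (ht : 10 ^ 3 ≤ t) (hm : 5 * m ≤ 2 * t)
    {a W : ℝ} (hW : 1 ≤ W) (hz : 16 * W * 10 ^ t ≤ Real.exp (a - W)) (X : ℤ)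
    (hinv : ∀ N : ℤ, Real.exp (a - W) < |(N : ℝ)| → Φ (T^[t] N) = Φ N) :
    |SS Φ X a W - ∑ N ∈ Finset.Icc (-X) X, (if od t N ∈ KS t m then Φ (T^[t] N) * om a W N else 0)| ≤
      4 * Real.exp (-((t : ℝ) ^ (1 / 10 : ℝ))) * (2 * W + 1) := by
  classical
  have hW0 : 0 < W := by linarith
  obtain ⟨f, hf⟩ : ∃ f : ℤ → ℝ, f = fun N => if od t N ∈ KS t m then 0 else 1 := ⟨_, rfl⟩
  have hf0 : ∀ x, 0 ≤ f x := by
    intro x; rw [hf]; simp only; split_ifs <;> norm_num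
  have hfp : ∀ x : ℤ, f (x + ((2 ^ t : ℕ) : ℤ)) = f x := by
    intro x
    rw [hf]
    simp only
    have := (shift t x 1).1
    rw [mul_one] at this
    push_cast
    rw [this]
  have h1 : |SS Φ X a W - ∑ N ∈ Finset.Icc (-X) X, (if od t N ∈ KS t m then Φ (T^[t] N) * om a W N else 0)| ≤
      ∑ N ∈ Finset.Icc (-X) X, (if |Real.log |(N : ℝ)| - a| ≤ W then f N / |(N : ℝ)| else 0) := by
    unfold SS
    rw [← Finset.sum_sub_distrib]
    refine le_trans (Finset.abs_sum_le_sum_abs _ _) (Finset.sum_le_sum ?_)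
    intro N _
    by_cases h0 : om a W N = 0
    · rw [h0]
      have : (0 : ℝ) ≤ if |Real.log |(N : ℝ)| - a| ≤ W then f N / |(N : ℝ)| else 0 := by
        split_ifs
        · exact div_nonneg (hf0 _) (abs_nonneg _)
        · exact le_rfl
      simpa using this
    · obtain ⟨h2, h3⟩ := om_ne_zero hW0 h0
      have h4 : Real.exp (a - W) < |(N : ℝ)| := by
        rw [← Real.lt_log_iff_exp_lt h2]
        rw [abs_lt] at h3
        linarith
      rw [hinv N h4, if_pos h3.le]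
      by_cases h5 : od t N ∈ KS t m
      · rw [if_pos h5, sub_self, abs_zero]
        exact div_nonneg (hf0 _) (abs_nonneg _)
      · rw [if_neg h5, sub_zero, hf]
        simp only
        rw [if_neg h5, abs_of_nonneg (mul_nonneg (hΦ0 _) (om_nonneg _ _ _))]
        calc Φ N * om a W N ≤ 1 * (1 / |(N : ℝ)|) := by
              apply mul_le_mul (hΦ1 _) (om_le _ _ _) (om_nonneg _ _ _) (by norm_num)
          _ = _ := by rw [one_mul]
  have hq : 4 * ((2 ^ t : ℕ) : ℝ) ≤ Real.exp (a - W) := by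
    refine le_trans ?_ hz
    push_cast
    have h6 : (2 : ℝ) ^ t ≤ 10 ^ t := pow_le_pow_left₀ (by norm_num) (by norm_num) t
    have h7 : (0 : ℝ) < 10 ^ t := by positivity
    nlinarith
  have h2 := win_sum (Nat.one_le_pow t 2 (by norm_num)) hfp hf0 hW0.le hq X
  refine le_trans h1 (le_trans h2 ?_)
  have h3 : AvQ (2 ^ t) f ≤ 2 * Real.exp (-((t : ℝ) ^ (1 / 10 : ℝ))) := by
    have h4 := card_out ht hm (Finset.range (t + 1) \ KS t m) (fun k hk => (Finset.mem_sdiff.mp hk).2)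
    refine le_trans (le_of_eq ?_) h4
    unfold AvQ
    push_cast
    congr 1
    have h5 : ∀ r ∈ Finset.range (2 ^ t), f (r : ℤ) = if od t (r : ℤ) ∈ Finset.range (t + 1) \ KS t m then (1 : ℝ) else 0 := by
      intro r _
      rw [hf]
      simp only
      have h6 : od t (r : ℤ) ∈ Finset.range (t + 1) := by
        rw [Finset.mem_range]; have := od_le t (r : ℤ); omega
      by_cases h7 : od t (r : ℤ) ∈ KS t m
      · rw [if_pos h7, if_neg (fun h8 => (Finset.mem_sdiff.mp h8).2 h7)]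
      · rw [if_neg h7, if_pos (Finset.mem_sdiff.mpr ⟨h6, h7⟩)]
    rw [Finset.sum_congr rfl h5, ← Finset.sum_filter, Finset.sum_const, nsmul_eq_mul, mul_one]
  calc 2 * AvQ (2 ^ t) f * (2 * W + 1) ≤ 2 * (2 * Real.exp (-((t : ℝ) ^ (1 / 10 : ℝ)))) * (2 * W + 1) := by gcongr
    _ = _ := by ring

theorem stepB {Φ : ℤ → ℝ} (hΦ0 : ∀ N, 0 ≤ Φ N) (hΦ1 : ∀ N, Φ N ≤ 1) {t m : ℕ} (ht : 10 ^ 3 ≤ t)
    {a W : ℝ} (hW : 1 ≤ W) (hz : 16 * W * 10 ^ t ≤ Real.exp (a - W)) (X : ℤ) (hX : 2 ^ t * Real.exp (a + W) ≤ X) :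
    |∑ N ∈ Finset.Icc (-X) X, (if od t N ∈ KS t m then Φ (T^[t] N) * om a W N else 0) -
      ∑ M ∈ Finset.Icc (-X) X, Φ M * om (a - mu * t) W M * ∑ k ∈ KS t m, D k t k (fun _ => True) M| ≤
      2 * (2 * (W + 2 * (t : ℝ) ^ (11 / 20 : ℝ)) + 1) * ((2 * (t : ℝ) ^ (11 / 20 : ℝ) + 1) / W) := by
  classical
  have hW0 : 0 < W := by linarith
  obtain ⟨c, hc⟩ : ∃ c : ℝ, c = (2 * (t : ℝ) ^ (11 / 20 : ℝ) + 1) / W := ⟨_, rfl⟩
  have hc0 : 0 ≤ c := by rw [hc]; positivity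
  have hω : ∀ N, om a W N ≠ 0 → 2 ^ t * |N| ≤ X := by
    intro N hN
    obtain ⟨h2, h3⟩ := om_ne_zero hW0 hN
    rw [abs_lt] at h3
    have h4 : |(N : ℝ)| < Real.exp (a + W) := by
      rw [← Real.log_lt_iff_lt_exp h2]; linarith
    have h5 : (2 : ℝ) ^ t * |(N : ℝ)| ≤ X := by
      refine le_trans ?_ hX
      gcongr
    exact_mod_cast h5
  rw [change t X Φ (om a W) (fun k => k ∈ KS t m) hω, ← Finset.sum_sub_distrib]
  refine le_trans (Finset.abs_sum_le_sum_abs _ _) ?_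
  have h1 : ∀ M ∈ Finset.Icc (-X) X, |∑ r ∈ Finset.range (2 ^ t),
      (if od t (r : ℤ) ∈ KS t m ∧ (3 : ℤ) ^ od t (r : ℤ) ∣ M - T^[t] (r : ℤ) then Φ M * om a W (nn t r M) else 0) -
      Φ M * om (a - mu * t) W M * ∑ k ∈ KS t m, D k t k (fun _ => True) M| ≤
      ∑ k ∈ KS t m, (if |Real.log |(M : ℝ)| - (a - mu * t)| ≤ W + 2 * (t : ℝ) ^ (11 / 20 : ℝ) then D k t k (fun _ => True) M / |(M : ℝ)| else 0) * c := by
    intro M _
    rw [mul_comm (Φ M * om (a - mu * t) W M), ← D_collect, ← Finset.sum_sub_distrib]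
    have h2 : ∀ r ∈ Finset.range (2 ^ t), |(if od t (r : ℤ) ∈ KS t m ∧ (3 : ℤ) ^ od t (r : ℤ) ∣ M - T^[t] (r : ℤ) then Φ M * om a W (nn t r M) else 0) -
        (if od t (r : ℤ) ∈ KS t m ∧ (3 : ℤ) ^ od t (r : ℤ) ∣ M - T^[t] (r : ℤ) then (3 : ℝ) ^ od t (r : ℤ) / 2 ^ t * (Φ M * om (a - mu * t) W M) else 0)| ≤
        (if od t (r : ℤ) ∈ KS t m ∧ (3 : ℤ) ^ od t (r : ℤ) ∣ M - T^[t] (r : ℤ) then (3 : ℝ) ^ od t (r : ℤ) / 2 ^ t *
          (if |Real.log |(M : ℝ)| - (a - mu * t)| ≤ W + 2 * (t : ℝ) ^ (11 / 20 : ℝ) then c / |(M : ℝ)| else 0) else 0) := by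
      intro r _
      by_cases h3 : od t (r : ℤ) ∈ KS t m ∧ (3 : ℤ) ^ od t (r : ℤ) ∣ M - T^[t] (r : ℤ)
      · rw [if_pos h3, if_pos h3, if_pos h3]
        have hk : TypK t (od t (r : ℤ)) := by
          have := h3.1
          unfold KS at this
          exact (Finset.mem_filter.mp this).2.2
        have h4 := pair ht hW hz hk h3.2
        have e1 : Φ M * om a W (nn t r M) - (3 : ℝ) ^ od t (r : ℤ) / 2 ^ t * (Φ M * om (a - mu * t) W M) =
            Φ M * (om a W (nn t r M) - (3 : ℝ) ^ od t (r : ℤ) / 2 ^ t * om (a - mu * t) W M) := by ring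
        rw [e1, abs_mul, abs_of_nonneg (hΦ0 M)]
        have e2 : Real.log |(M : ℝ)| - (a - mu * t) = Real.log |(M : ℝ)| + mu * t - a := by ring
        rw [e2]
        rw [← hc] at h4
        refine le_trans (mul_le_mul (hΦ1 M) h4 (abs_nonneg _) (by norm_num)) (le_of_eq ?_)
        rw [one_mul]
        split_ifs
        · ring
        · ring
      · rw [if_neg h3, if_neg h3, if_neg h3, sub_zero, abs_zero]
    refine le_trans (Finset.abs_sum_le_sum_abs _ _) (le_trans (Finset.sum_le_sum h2) (le_of_eq ?_))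
    rw [D_collect, Finset.sum_mul]
    apply Finset.sum_congr rfl
    intro k _
    split_ifs
    · ring
    · ring
  refine le_trans (Finset.sum_le_sum h1) ?_
  rw [Finset.sum_comm]
  have h2 : ∀ k ∈ KS t m, ∑ M ∈ Finset.Icc (-X) X, (if |Real.log |(M : ℝ)| - (a - mu * t)| ≤ W + 2 * (t : ℝ) ^ (11 / 20 : ℝ) then D k t k (fun _ => True) M / |(M : ℝ)| else 0) * c ≤
      mass t k (fun _ => True) * (2 * (2 * (W + 2 * (t : ℝ) ^ (11 / 20 : ℝ)) + 1) * c) := by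
    intro k hk
    have hk2 : TypK t k := by
      unfold KS at hk
      exact (Finset.mem_filter.mp hk).2.2
    rw [← Finset.sum_mul]
    have h3 := win_sum3 (D_per k t k (fun _ => True)) (D_nonneg k t k (fun _ => True)) (b := a - mu * t)
      (v := W + 2 * (t : ℝ) ^ (11 / 20 : ℝ)) (by positivity) (grow ht hk2 hW hz) X
    rw [Av_D] at h3
    calc _ ≤ (2 * mass t k (fun _ => True) * (2 * (W + 2 * (t : ℝ) ^ (11 / 20 : ℝ)) + 1)) * c := mul_le_mul_of_nonneg_right h3 hc0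
      _ = _ := by ring
  refine le_trans (Finset.sum_le_sum h2) ?_
  rw [← Finset.sum_mul]
  have h3 := mass_le_one t (KS t m) (fun _ => True)
  calc _ ≤ 1 * (2 * (2 * (W + 2 * (t : ℝ) ^ (11 / 20 : ℝ)) + 1) * c) := by
        apply mul_le_mul_of_nonneg_right h3 (by positivity)
    _ = _ := by rw [one_mul, hc]

end Pool.Agent.Helper3.TD
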