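import Pool.Agent.Helper3.TD.Walk
import Pool.Agent.Helper3.TD.Arr

/-! Probability that the walk visits fewer than `K` white points. -/

namespace Pool.Agent.Helper3.TD

open Classical in
/-- probability that the walk started at column `j`, height `h` visits fewer than `K` white points in `R` steps -/
noncomputable def U (q : ℤ) (p : ℕ → ℕ → ℤ) : ℕ → ℕ → ℕ → ℕ → ℝ
  | 0, K, _, _ => if K = 0 then 0 else 1
  | R + 1, K, j, h => if K = 0 then 0 else
      if bl q p j h then av (U q p R K (j + 1)) h else av (U q p R (K - 1) (j + 1)) h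

variable {q : ℤ} {p : ℕ → ℕ → ℤ}

theorem U_K_zero (R j h : ℕ) : U q p R 0 j h = 0 := by
  cases R <;> simp [U]

theorem U_zero_succ (K j h : ℕ) : U q p 0 (K + 1) j h = 1 := by simp [U]

theorem U_black {R K j h : ℕ} (hb : bl q p j h) : U q p (R + 1) (K + 1) j h = av (U q p R (K + 1) (j + 1)) h := by
  simp [U, hb]

theorem U_white {R K j h : ℕ} (hb : ¬ bl q p j h) : U q p (R + 1) (K + 1) j h = av (U q p R K (j + 1)) h := by
  simp [U, hb]

theorem U_nonneg (R : ℕ) : ∀ K j h, 0 ≤ U q p R K j h := by
  induction R with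
  | zero => intro K j h; cases K <;> simp [U]
  | succ R ih =>
    intro K j h
    cases K with
    | zero => rw [U_K_zero]
    | succ K =>
      by_cases hb : bl q p j h
      · rw [U_black hb]; unfold av; linarith [ih (K + 1) (j + 1) h, ih (K + 1) (j + 1) (h + 1), ih (K + 1) (j + 1) (h + 2)]
      · rw [U_white hb]; unfold av; linarith [ih K (j + 1) h, ih K (j + 1) (h + 1), ih K (j + 1) (h + 2)]

theorem U_le_one (R : ℕ) : ∀ K j h, U q p R K j h ≤ 1 := by
  induction R with
  | zero => intro K j h; cases K <;> simp [U]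
  | succ R ih =>
    intro K j h
    cases K with
    | zero => rw [U_K_zero]; norm_num
    | succ K =>
      by_cases hb : bl q p j h
      · rw [U_black hb]; unfold av; linarith [ih (K + 1) (j + 1) h, ih (K + 1) (j + 1) (h + 1), ih (K + 1) (j + 1) (h + 2)]
      · rw [U_white hb]; unfold av; linarith [ih K (j + 1) h, ih K (j + 1) (h + 1), ih K (j + 1) (h + 2)]

theorem U_mono_succ (R : ℕ) : ∀ K j h, U q p R K j h ≤ U q p R (K + 1) j h := by
  induction R with
  | zero => intro K j h; cases K <;> simp [U]
  | succ R ih =>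
    intro K j h
    cases K with
    | zero => rw [U_K_zero]; exact U_nonneg _ _ _ _
    | succ K =>
      by_cases hb : bl q p j h
      · rw [U_black hb, U_black hb]; exact av_mono (ih _ _ _) (ih _ _ _) (ih _ _ _)
      · rw [U_white hb, U_white hb]; exact av_mono (ih _ _ _) (ih _ _ _) (ih _ _ _)

theorem U_mono_K {K K' : ℕ} (hK : K ≤ K') (R j h : ℕ) : U q p R K j h ≤ U q p R K' j h := by
  induction K', hK using Nat.le_induction with
  | base => exact le_rfl
  | succ n _ ih => exact le_trans ih (U_mono_succ _ _ _ _)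

/-- forgetting the first `a` steps -/
theorem U_forget (a : ℕ) : ∀ R K j h, U q p (a + R) K j h ≤ W a (U q p R K (j + a)) h := by
  induction a with
  | zero => intro R K j h; rw [zero_add, add_zero, W_zero]
  | succ a ih =>
    intro R K j h
    have e : a + 1 + R = (a + R) + 1 := by ring
    have e2 : j + (a + 1) = j + 1 + a := by ring
    cases K with
    | zero =>
      rw [U_K_zero]
      exact W_nonneg _ (fun _ => U_nonneg _ _ _ _) _
    | succ K =>
      have hstep : av (U q p (a + R) (K + 1) (j + 1)) h ≤ W (a + 1) (U q p R (K + 1) (j + (a + 1))) h := by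
        rw [W_succ, e2]
        unfold av
        linarith [ih R (K + 1) (j + 1) h, ih R (K + 1) (j + 1) (h + 1), ih R (K + 1) (j + 1) (h + 2)]
      rw [e]
      by_cases hb : bl q p j h
      · rw [U_black hb]; exact hstep
      · rw [U_white hb]
        refine le_trans ?_ hstep
        exact av_mono (U_mono_succ _ _ _ _) (U_mono_succ _ _ _ _) (U_mono_succ _ _ _ _)

/-- gain of one white point, started at a white point -/
theorem U_gain_white {j h : ℕ} (hb : ¬ bl q p j h) (a : ℕ) (ha : 1 ≤ a) (R K : ℕ) :
    U q p (a + R) (K + 1) j h ≤ W a (U q p R K (j + a)) h := by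
  obtain ⟨b, rfl⟩ := Nat.exists_eq_add_of_le' ha
  have e : b + 1 + R = (b + R) + 1 := by ring
  have e2 : j + (b + 1) = j + 1 + b := by ring
  rw [e, U_white hb, W_succ, e2]
  unfold av
  linarith [U_forget (q := q) (p := p) b R K (j + 1) h, U_forget (q := q) (p := p) b R K (j + 1) (h + 1),
    U_forget (q := q) (p := p) b R K (j + 1) (h + 2)]

/-- gain of one white point, started at a black point which exits before -/
theorem U_gain_exit (A : Arr q p) (d : ℕ) : ∀ j h, Ex q p j h (j + (d + 1)) → ∀ a, d + 2 ≤ a → ∀ R K,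
    U q p (a + R) (K + 1) j h ≤ W a (U q p R K (j + a)) h := by
  induction d with
  | zero =>
    intro j h E a ha R K
    obtain ⟨b, rfl⟩ : ∃ b, a = b + 1 := ⟨a - 1, by omega⟩
    have e : b + 1 + R = (b + R) + 1 := by ring
    have e2 : j + (b + 1) = j + 1 + b := by ring
    have hb : bl q p j h := E.2.1 j le_rfl E.1
    rw [e, U_black hb, W_succ, e2]
    have key : ∀ s ≤ 2, U q p (b + R) (K + 1) (j + 1) (h + s) ≤ W b (U q p R K (j + 1 + b)) (h + s) := by
      intro s hs
      apply U_gain_white _ b (by omega)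
      rcases A.walk E hs with h1 | h1
      · exact h1
      · exact absurd h1.1 (by omega)
    have k0 := key 0 (by omega)
    have k1 := key 1 (by omega)
    have k2 := key 2 (by omega)
    rw [add_zero] at k0
    unfold av
    linarith
  | succ d ih =>
    intro j h E a ha R K
    obtain ⟨b, rfl⟩ : ∃ b, a = b + 1 := ⟨a - 1, by omega⟩
    have e : b + 1 + R = (b + R) + 1 := by ring
    have e2 : j + (b + 1) = j + 1 + b := by ring
    have hb : bl q p j h := E.2.1 j le_rfl E.1
    rw [e, U_black hb, W_succ, e2]
    have key : ∀ s ≤ 2, U q p (b + R) (K + 1) (j + 1) (h + s) ≤ W b (U q p R K (j + 1 + b)) (h + s) := by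
      intro s hs
      rcases A.walk E hs with h1 | h1
      · exact U_gain_white h1 b (by omega) R K
      · apply ih (j + 1) (h + s) _ b (by omega)
        rw [show j + 1 + (d + 1) = j + (d + 1 + 1) by ring]
        exact h1
    have k0 := key 0 (by omega)
    have k1 := key 1 (by omega)
    have k2 := key 2 (by omega)
    rw [add_zero] at k0
    unfold av
    linarith

theorem exists_ex_of_not_run {j h S : ℕ} (hb : bl q p j h) (hr : ¬ run q p j h S) :
    ∃ d, d + 1 ≤ S ∧ Ex q p j h (j + (d + 1)) := by
  classical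
  unfold run at hr
  push Not at hr
  have hex : ∃ i, ¬ bl q p (j + i) h := by
    obtain ⟨i, _, hi⟩ := hr
    exact ⟨i, hi⟩
  obtain ⟨i0, hi0, hw⟩ := hr
  have h1 := Nat.find_spec hex
  have h2 : Nat.find hex ≤ i0 := Nat.find_min' hex hw
  have h3 : Nat.find hex ≠ 0 := by
    intro h0
    rw [h0, add_zero] at h1
    exact h1 hb
  obtain ⟨d, hd⟩ := Nat.exists_eq_succ_of_ne_zero h3
  refine ⟨d, by omega, by omega, ?_, ?_⟩
  · intro i hji hie
    obtain ⟨x, rfl⟩ := Nat.exists_eq_add_of_le hji
    exact not_not.mp (Nat.find_min hex (by omega))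
  · rw [hd] at h1; exact h1

/-- gain of one white point, started at a point without long run -/
theorem U_gain (A : Arr q p) {j h S : ℕ} (hr : ¬ run q p j h S) (a : ℕ) (ha : S + 1 ≤ a) (R K : ℕ) :
    U q p (a + R) (K + 1) j h ≤ W a (U q p R K (j + a)) h := by
  by_cases hb : bl q p j h
  · obtain ⟨d, hd, E⟩ := exists_ex_of_not_run hb hr
    exact U_gain_exit A d j h E a (by omega) R K
  · exact U_gain_white hb a (by omega) R K

end Pool.Agent.Helper3.TD
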