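import Pool.Agent.Helper3.TD.Exit
import Pool.Agent.Helper3.TD.White

/-! Uniform bound: the walk visits many white points with high probability. -/

namespace Pool.Agent.Helper3.TD

theorem klevel (K : ℕ) : ∀ δ : ℝ, 0 < δ → ∀ H : ℕ, 1 ≤ H → ∃ T, H ≤ T ∧ ∃ t0, ∀ t, t0 ≤ t →
    ∀ (q : ℤ) (p : ℕ → ℕ → ℤ), Arr q p → ∀ j h, Ex q p j h (j + t) → ∀ R,
      W (t + H) (U q p (T - H + R) K (j + t + H)) h ≤ δ := by
  induction K with
  | zero =>
    intro δ hδ H _
    refine ⟨H, le_rfl, 0, ?_⟩
    intro t _ q p A j h E R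
    have : U q p (H - H + R) 0 (j + t + H) = fun _ => 0 := by
      funext z; rw [U_K_zero]
    rw [this, W_const]
    exact hδ.le
  | succ K ih =>
    intro δ hδ H hH
    obtain ⟨S, hS, t1, h1⟩ := exit_prob (δ / 2) (by linarith) H hH
    obtain ⟨T, hT, t2, h2⟩ := ih (δ / 2) (by linarith) (H + (S + 1)) (by omega)
    refine ⟨T, by omega, max t1 t2, ?_⟩
    intro t ht q p A j h E R
    have g1 := h1 t (le_trans (le_max_left _ _) ht) q p A j h E
    have g2 := h2 t (le_trans (le_max_right _ _) ht) q p A j h E R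
    have e1 : T - H + R = (S + 1) + (T - (H + (S + 1)) + R) := by omega
    have key : ∀ z, U q p (T - H + R) (K + 1) (j + t + H) z ≤
        ind (fun z => run q p (j + t + H) z S) z +
          W (S + 1) (U q p (T - (H + (S + 1)) + R) K (j + t + H + (S + 1))) z := by
      intro z
      by_cases hr : run q p (j + t + H) z S
      · have e0 : ind (fun z => run q p (j + t + H) z S) z = 1 := by unfold ind; rw [if_pos hr]
        rw [e0]
        have a1 := U_le_one (q := q) (p := p) (T - H + R) (K + 1) (j + t + H) z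
        have a2 := W_nonneg (S + 1) (f := U q p (T - (H + (S + 1)) + R) K (j + t + H + (S + 1)))
          (fun _ => U_nonneg _ _ _ _) z
        linarith
      · have e0 : ind (fun z => run q p (j + t + H) z S) z = 0 := by unfold ind; rw [if_neg hr]
        rw [e0, zero_add, e1]
        exact U_gain A hr (S + 1) le_rfl _ _
    refine le_trans (W_mono (t + H) key h) ?_
    rw [W_add, ← W_comp, show j + t + H + (S + 1) = j + t + (H + (S + 1)) by ring,
      show t + H + (S + 1) = t + (H + (S + 1)) by ring]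
    linarith

theorem klevel' (K : ℕ) (δ : ℝ) (hδ : 0 < δ) : ∃ T t0, ∀ t, t0 ≤ t →
    ∀ (q : ℤ) (p : ℕ → ℕ → ℤ), Arr q p → ∀ j h, Ex q p j h (j + t) → ∀ R, U q p (t + T + R) K j h ≤ δ := by
  obtain ⟨T, hT, t0, h0⟩ := klevel K δ hδ 1 le_rfl
  refine ⟨T, t0, ?_⟩
  intro t ht q p A j h E R
  have h1 := h0 t ht q p A j h E R
  have e : t + T + R = (t + 1) + (T - 1 + R) := by omega
  rw [e]
  refine le_trans (U_forget (t + 1) _ _ _ _) ?_
  rw [← add_assoc]
  exact h1

theorem uniform (K : ℕ) (δ : ℝ) (hδ : 0 < δ) : ∃ M0, ∀ (n : ℕ) (p : ℕ → ℕ → ℤ), Arr (3 ^ n) p →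
    (∀ j h, h < n → 3 ^ h ≤ |p j h|) → ∀ j h M R, h + M = n → M0 ≤ M → 17 * M ≤ 20 * R →
      U (3 ^ n) p R K j h ≤ δ := by
  obtain ⟨T, t0, hT⟩ := klevel' K δ hδ
  refine ⟨20 * (T + (t0 + 1) * K + 1) + 2 * (t0 + 1) * K + 1, ?_⟩
  intro n p A hsize
  have claim : ∀ K' ≤ K, ∀ j h M R, h + M = n → 2 * (t0 + 1) * K' + 1 ≤ M →
      4 * M + 5 * (T + (t0 + 1) * K' + 1) ≤ 5 * R → U (3 ^ n) p R K' j h ≤ δ := by
    intro K'
    induction K' with
    | zero => intro _ j h M R _ _ _; rw [U_K_zero]; exact hδ.le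
    | succ K' ih =>
      intro hK' j h M R hM hM2 hR
      by_cases hr : run (3 ^ n) p j h t0
      · -- long run: it ends
        have hhn : h < n := by
          have : 1 ≤ M := by omega
          omega
        have hend : ∃ S, ¬ run (3 ^ n) p j h S := by
          by_contra hc
          push Not at hc
          have h1 := A.run_eq (hc (p j h).natAbs) _ le_rfl
          have h2 := hsize (j + (p j h).natAbs) h hhn
          have h3 : (1 : ℤ) ≤ 3 ^ h := one_le_pow₀ (by norm_num)
          have h4 : |p j h| = 4 ^ (p j h).natAbs * |p (j + (p j h).natAbs) h| := by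
            have e := congrArg abs h1
            rw [abs_mul, abs_of_pos (show (0 : ℤ) < 4 ^ (p j h).natAbs by positivity)] at e
            exact e
          have h5 : (p j h).natAbs < 4 ^ (p j h).natAbs := Nat.lt_pow_self (by norm_num)
          have h6 : |p j h| < 4 ^ (p j h).natAbs := by
            rw [← Int.natCast_natAbs]; exact_mod_cast h5
          have h7 : (0 : ℤ) < 4 ^ (p j h).natAbs := by positivity
          nlinarith
        obtain ⟨S, hS⟩ := hend
        have hb : bl (3 ^ n) p j h := by have := hr 0 (by omega); rwa [add_zero] at this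
        obtain ⟨d, hd, E⟩ := exists_ex_of_not_run hb hS
        have hdt : t0 ≤ d + 1 := by
          by_contra hc
          push Not at hc
          exact E.2.2 (hr (d + 1) (by omega))
        have hbound : 5 * (d + 1) < 4 * M := by
          by_contra hc
          push Not at hc
          have h1 := three_four hc
          have h2 := A.run_eq E.run d (by omega)
          have h3 := hsize (j + d) h hhn
          have h4 : |p j h| = 4 ^ d * |p (j + d) h| := by
            rw [h2, abs_mul, abs_of_pos (show (0 : ℤ) < 4 ^ d by positivity)]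
          unfold bl at hb
          rw [h4] at hb
          have h5 : (4 : ℤ) ^ d * 3 ^ h ≤ 4 ^ d * |p (j + d) h| := mul_le_mul_of_nonneg_left h3 (by positivity)
          have h6 : (3 : ℤ) ^ n = 3 ^ M * 3 ^ h := by rw [← hM, pow_add]; ring
          have h7 : (3 : ℤ) ^ M ≤ 4 ^ (d + 1) := by exact_mod_cast h1
          have h8 : (3 : ℤ) ^ M * 3 ^ h ≤ 4 ^ (d + 1) * 3 ^ h := mul_le_mul_of_nonneg_right h7 (by positivity)
          rw [pow_succ] at h8
          have h9 : (0 : ℤ) < 4 ^ d * 3 ^ h := by positivity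
          rw [h6] at hb
          linarith
        obtain ⟨R', hR'⟩ : ∃ R', R = (d + 1) + T + R' := ⟨R - ((d + 1) + T), by omega⟩
        refine le_trans (U_mono_K hK' R j h) ?_
        rw [hR']
        exact hT (d + 1) hdt _ _ A j h E R'
      · -- gain
        have hmul : (t0 + 1) * (K' + 1) = (t0 + 1) * K' + (t0 + 1) := by ring
        have hmul2 : 2 * (t0 + 1) * (K' + 1) = 2 * (t0 + 1) * K' + 2 * (t0 + 1) := by ring
        rw [hmul] at hR
        rw [hmul2] at hM2
        obtain ⟨R', hR'⟩ : ∃ R', R = (t0 + 1) + R' := ⟨R - (t0 + 1), by omega⟩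
        rw [hR']
        refine le_trans (U_gain A hr (t0 + 1) le_rfl R' K') ?_
        have : W (t0 + 1) (U (3 ^ n) p R' K' (j + (t0 + 1))) h ≤ W (t0 + 1) (fun _ => δ) h := by
          apply W_mono_on
          intro h' h1 h2
          obtain ⟨M', hM'⟩ : ∃ M', h' + M' = n := ⟨n - h', by omega⟩
          exact ih (by omega) (j + (t0 + 1)) h' M' R' hM' (by omega) (by omega)
        rwa [W_const] at this
  intro j h M R hM hM0 hR
  apply claim K le_rfl j h M R hM (by omega)
  omega

end Pool.Agent.Helper3.TD
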