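import Pool.Agent.Helper3.TD.Gs4

/-! Wide windows. -/

namespace Pool.Agent.Helper3.TD

open Pool.Agent.Helper3.ND

/-- Lipschitz bound for wide windows -/
theorem Gs_lip_wide {Φ : ℤ → ℝ} (hΦ0 : ∀ N, 0 ≤ Φ N) (hΦ1 : ∀ N, Φ N ≤ 1) {W : ℝ} (hW : 1 ≤ W) {a b : ℝ}
    (hab : |a - b| ≤ 1) (ha : W + 3 ≤ a) : |Gs Φ W a - Gs Φ W b| ≤ 10 := by
  have hW0 : 0 < W := by linarith
  obtain ⟨X, hX⟩ : ∃ X : ℤ, X = ⌈Real.exp (a + (W + 1))⌉ := ⟨_, rfl⟩
  have hX1 : Real.exp (a + (W + 1)) ≤ X := by rw [hX]; exact Int.le_ceil _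
  have hab2 := hab
  rw [abs_le] at hab2
  have h1 : Real.exp (a + W) ≤ Real.exp (a + (W + 1)) := Real.exp_le_exp.mpr (by linarith)
  have h2 : Real.exp (b + W) ≤ Real.exp (a + (W + 1)) := Real.exp_le_exp.mpr (by linarith)
  rw [← Gs_eq Φ hW0 (le_trans h1 hX1), ← Gs_eq Φ hW0 (le_trans h2 hX1)]
  unfold SS
  rw [← Finset.sum_sub_distrib]
  refine le_trans (Finset.abs_sum_le_sum_abs _ _) ?_
  have h3 := win_sum (q := 1) (f := fun _ => (1 : ℝ)) le_rfl (fun _ => rfl) (fun _ => by norm_num) (b := a) (v := W + 1)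
    (by linarith) (by
      have h4 := Real.exp_one_gt_d9
      have h5 : Real.exp 2 = Real.exp 1 * Real.exp 1 := by rw [← Real.exp_add]; norm_num
      have h6 : Real.exp 2 ≤ Real.exp (a - (W + 1)) := Real.exp_le_exp.mpr (by linarith)
      push_cast
      nlinarith) X
  have hav : AvQ 1 (fun _ => (1 : ℝ)) = 1 := by unfold AvQ; simp
  rw [hav] at h3
  have h4 : ∀ N ∈ Finset.Icc (-X) X, |Φ N * om a W N - Φ N * om b W N| ≤
      (1 / W) * (if |Real.log |(N : ℝ)| - a| ≤ W + 1 then 1 / |(N : ℝ)| else 0) := by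
    intro N _
    rw [← mul_sub, abs_mul, abs_of_nonneg (hΦ0 N)]
    refine le_trans (mul_le_mul_of_nonneg_right (hΦ1 N) (abs_nonneg _)) ?_
    rw [one_mul]
    by_cases h5 : |Real.log |(N : ℝ)| - a| ≤ W + 1
    · rw [if_pos h5]
      unfold om
      rw [← sub_div, abs_div, abs_abs, mul_one_div]
      apply div_le_div_of_nonneg_right _ (abs_nonneg _)
      refine le_trans (tent_lip _ _) ?_
      rw [← sub_div, abs_div, abs_of_pos hW0]
      apply div_le_div_of_nonneg_right _ hW0.le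
      rw [show Real.log |(N : ℝ)| - a - (Real.log |(N : ℝ)| - b) = -(a - b) by ring, abs_neg]
      exact hab
    · rw [if_neg h5, mul_zero]
      have e1 : om a W N = 0 := by
        by_contra hne
        apply h5
        have := (om_ne_zero hW0 hne).2
        linarith
      have e2 : om b W N = 0 := by
        by_contra hne
        apply h5
        have := (om_ne_zero hW0 hne).2
        rw [abs_lt] at this
        rw [abs_le]
        constructor <;> linarith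
      rw [e1, e2, sub_zero, abs_zero]
  refine le_trans (Finset.sum_le_sum h4) ?_
  rw [← Finset.mul_sum]
  have h6 : (1 / W) * ∑ N ∈ Finset.Icc (-X) X, (if |Real.log |(N : ℝ)| - a| ≤ W + 1 then 1 / |(N : ℝ)| else 0) ≤
      (1 / W) * (10 * W) := mul_le_mul_of_nonneg_left (by linarith) (by positivity)
  refine le_trans h6 (le_of_eq ?_)
  field_simp

/-- conditions for wide windows -/
theorem wide_cond {A : ℝ} (hA : 2 ^ 16 ≤ A) {t : ℕ} (ht : (t : ℝ) ≤ A / 8) {a W : ℝ} (hW0 : 0 < W) (hW : W ≤ A / 32) (ha : A ≤ a) :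
    16 * W * 100 ^ t ≤ Real.exp (a - W) ∧ (∀ Y : ℝ, Y ≤ Real.exp (A / 2) → Y * 4 ^ t < Real.exp (a - W)) := by
  have hA' : (65536 : ℝ) ≤ A := by linarith [show (65536 : ℝ) = 2 ^ 16 by norm_num]
  constructor
  · calc 16 * W * 100 ^ t ≤ Real.exp (A / 4) * Real.exp (5 * t) := by
          apply mul_le_mul _ (hundred_pow t) (by positivity) (Real.exp_pos _).le
          have h1 := Real.quadratic_le_exp_of_nonneg (show 0 ≤ A / 4 by positivity)
          nlinarith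
      _ = Real.exp (A / 4 + 5 * t) := by rw [Real.exp_add]
      _ ≤ _ := by apply Real.exp_le_exp.mpr; linarith
  · intro Y hY
    calc Y * 4 ^ t ≤ Real.exp (A / 2) * Real.exp (2 * t) := by
          apply mul_le_mul hY (four_pow t) (by positivity) (Real.exp_pos _).le
      _ = Real.exp (A / 2 + 2 * t) := by rw [Real.exp_add]
      _ < _ := by apply Real.exp_lt_exp.mpr; linarith

/-- arbitrary shifts of wide windows -/
theorem wide_shift : ∃ C : ℝ, 0 < C ∧ ∀ w : ℝ, 0 < w → w ≤ 1 / 32 → ∀ Y : ℝ, 0 ≤ Y → ∃ A0 : ℝ, 2 ^ 16 ≤ A0 ∧ ∀ A : ℝ, A0 ≤ A →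
    ∀ Φ : ℤ → ℝ, Inv Φ Y → ∀ a b : ℝ, A ≤ a → a ≤ b → b ≤ 4 * A →
    |Gs Φ (w * A) b - Gs Φ (w * A) a| ≤ C * A ^ (11 / 20 : ℝ) := by
  obtain ⟨C1, hC1, t1, ht1, H1⟩ := shift_win
  obtain ⟨C2, hC2, t2, ht2, H2⟩ := shift_wins
  refine ⟨1000 * C2 + 3 * C1 + 10, by positivity, ?_⟩
  intro w hw0 hw1 Y hY
  obtain ⟨A2, hA2⟩ := small_rpow 1 (show (0 : ℝ) < 9 / 20 by norm_num) (show 0 < w / 8 by positivity)
  refine ⟨2 ^ 16 + 16 * (t1 + 1) + 16 * (t2 + 1) + 2 * Y + 1 / w + |A2|, by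
    have : (0 : ℝ) ≤ 16 * ((t1 : ℝ) + 1) + 16 * ((t2 : ℝ) + 1) + 2 * Y + 1 / w + |A2| := by positivity
    linarith, ?_⟩
  intro A hA Φ hΦ a b ha hab hb
  have hp1 : (0 : ℝ) ≤ t1 := by positivity
  have hp2 : (0 : ℝ) ≤ t2 := by positivity
  have hp3 : (0 : ℝ) ≤ |A2| := abs_nonneg _
  have hp4 : (0 : ℝ) < 1 / w := by positivity
  have hAbig : 2 ^ 16 ≤ A := by linarith
  have hA' : (65536 : ℝ) ≤ A := by linarith [show (65536 : ℝ) = 2 ^ 16 by norm_num]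
  have hA0 : 0 < A := by linarith
  have hAA2 : A2 ≤ A := by linarith [le_abs_self A2]
  have hW1 : 1 ≤ w * A := by
    have : 1 / w ≤ A := by linarith
    rwa [div_le_iff₀ hw0, mul_comm] at this
  have hW32 : w * A ≤ A / 32 := by nlinarith
  obtain ⟨W, hWdef⟩ : ∃ W, W = w * A := ⟨_, rfl⟩
  rw [← hWdef] at hW1 hW32 ⊢
  have hW0 : 0 < W := by linarith
  obtain ⟨P, hP⟩ : ∃ P : ℝ, P = A ^ (11 / 20 : ℝ) := ⟨_, rfl⟩
  have hP1 : 1 ≤ P := by rw [hP]; exact Real.one_le_rpow (by linarith) (by norm_num)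
  have hPW : 8 * P ≤ W := by
    have h1 := hA2 A hAA2
    rw [one_mul] at h1
    have h2 : A * A ^ (-(9 / 20) : ℝ) = P := by
      rw [hP]
      nth_rewrite 1 [← Real.rpow_one A]
      rw [← Real.rpow_add hA0]; norm_num
    rw [← h2, hWdef]
    nlinarith
  have hYA : Y ≤ Real.exp (A / 2) := by
    have := Real.add_one_le_exp (A / 2)
    linarith
  obtain ⟨t, ht⟩ : ∃ t, t = ⌊A / 16⌋₊ := ⟨_, rfl⟩
  have ht_1 : (t : ℝ) ≤ A / 16 := by rw [ht]; exact Nat.floor_le (by positivity)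
  have ht_2 : A / 16 - 1 < t := by rw [ht]; exact Nat.sub_one_lt_floor _
  have ht_3 : A / 32 ≤ t := by linarith
  have htt1 : t1 ≤ t := by
    rw [ht]; apply Nat.le_floor; linarith
  have htt2 : t2 ≤ t := by
    rw [ht]; apply Nat.le_floor; linarith
  have hmu := mu_ge
  have hmu1 := mu_le
  have hmu0 := mu_pos
  obtain ⟨δ, hδ⟩ : ∃ δ : ℝ, δ = mu * t := ⟨_, rfl⟩
  have htpos : (0 : ℝ) < t := by linarith
  have hδ1 : 0.14 * (A / 32) ≤ δ := by
    rw [hδ]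
    exact mul_le_mul hmu ht_3 (by positivity) mu_pos.le
  have hδ2 : δ ≤ A / 16 := by
    rw [hδ]
    calc mu * t ≤ 1 * t := by gcongr
      _ ≤ _ := by linarith
  have hδ0 : 0 < δ := by linarith [show 0 < 0.14 * (A / 32) by positivity]
  obtain ⟨n, hn⟩ : ∃ n, n = ⌊(b - a) / δ⌋₊ := ⟨_, rfl⟩
  have hn1 : (n : ℝ) ≤ (b - a) / δ := by rw [hn]; exact Nat.floor_le (div_nonneg (by linarith) hδ0.le)
  have hn2 : (b - a) / δ < n + 1 := by rw [hn]; exact Nat.lt_floor_add_one _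
  have hn3 : (n : ℝ) * δ ≤ b - a := by rwa [le_div_iff₀ hδ0] at hn1
  have hn4 : b - a < (n + 1) * δ := by rwa [div_lt_iff₀ hδ0] at hn2
  have hn5 : (n : ℝ) ≤ 1000 := by
    refine le_trans hn1 ?_
    rw [div_le_iff₀ hδ0]
    linarith
  have hn0 : (0 : ℝ) ≤ n * δ := by positivity
  obtain ⟨q, hq⟩ : ∃ q, q = ⌊(b - a - n * δ) / mu⌋₊ := ⟨_, rfl⟩
  have hq1 : (q : ℝ) ≤ (b - a - n * δ) / mu := by rw [hq]; exact Nat.floor_le (div_nonneg (by linarith) hmu0.le)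
  have hq2 : (b - a - n * δ) / mu < q + 1 := by rw [hq]; exact Nat.lt_floor_add_one _
  have hq3 : (q : ℝ) * mu ≤ b - a - n * δ := by rwa [le_div_iff₀ hmu0] at hq1
  have hq4 : b - a - n * δ < (q + 1) * mu := by rwa [div_lt_iff₀ hmu0] at hq2
  have hqt : (q : ℝ) ≤ t := by
    have h1 : (q : ℝ) * mu ≤ t * mu := by
      have : b - a - n * δ ≤ δ := by linarith
      rw [hδ] at this
      linarith [mul_comm mu (t : ℝ)]
    exact le_of_mul_le_mul_right h1 hmu0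
  have hq0 : (0 : ℝ) ≤ q * mu := by positivity
  -- powers
  have hpow : ∀ t' : ℕ, (t' : ℝ) ≤ A → (t' : ℝ) ^ (11 / 20 : ℝ) ≤ P := by
    intro t' h
    rw [hP]
    exact Real.rpow_le_rpow (by positivity) h (by norm_num)
  have hXex : ∃ X : ℤ, Real.exp (9 * A) ≤ X := ⟨⌈Real.exp (9 * A)⌉, Int.le_ceil _⟩
  obtain ⟨X, hX⟩ := hXex
  have hX4 : ∀ t' : ℕ, (t' : ℝ) ≤ A / 8 → ∀ x : ℝ, x ≤ 5 * A → 4 ^ t' * Real.exp (x + W) ≤ X := by
    intro t' h x hx
    refine le_trans ?_ hX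
    calc 4 ^ t' * Real.exp (x + W) ≤ Real.exp (2 * t') * Real.exp (x + W) := by
          gcongr; exact four_pow t'
      _ = Real.exp (2 * t' + (x + W)) := (Real.exp_add _ _).symm
      _ ≤ _ := by apply Real.exp_le_exp.mpr; linarith
  have hGs : ∀ x : ℝ, x ≤ 5 * A → SS Φ X x W = Gs Φ W x := by
    intro x hx
    apply Gs_eq Φ hW0
    refine le_trans ?_ hX
    exact Real.exp_le_exp.mpr (by linarith)
  -- step 1
  obtain ⟨x1, hx1⟩ : ∃ x1, x1 = a + n * δ := ⟨_, rfl⟩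
  obtain ⟨c1, c2⟩ := wide_cond hAbig (show (t : ℝ) ≤ A / 8 by linarith) hW0 hW32 ha
  have s1 := H2 t htt2 a W (by linarith [hpow t (by linarith)]) (by linarith) c1 Y Φ hΦ hY (c2 Y hYA) n X (by
    rw [← hδ, ← hx1]
    exact hX4 t (by linarith) x1 (by linarith))
  rw [← hδ, ← hx1, hGs x1 (by linarith), hGs a (by linarith)] at s1
  -- step 2
  have htq : ((t + q : ℕ) : ℝ) ≤ A / 8 := by push_cast; linarith
  have htq2 : (t : ℝ) ≤ ((t + q : ℕ) : ℝ) := by push_cast; linarith [show (0 : ℝ) ≤ q by positivity]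
  have hx1A : A ≤ x1 := by linarith
  obtain ⟨c3, c4⟩ := wide_cond hAbig htq hW0 hW32 hx1A
  obtain ⟨x2, hx2⟩ : ∃ x2, x2 = x1 + mu * ((t + q : ℕ) : ℝ) := ⟨_, rfl⟩
  have hmt2 : mu * ((t + q : ℕ) : ℝ) ≤ A / 8 := by
    calc mu * ((t + q : ℕ) : ℝ) ≤ 1 * ((t + q : ℕ) : ℝ) := by gcongr
      _ ≤ _ := by linarith
  have s2 := H1 (t + q) (by omega) x1 W (by linarith [hpow (t + q) (by linarith)]) (by linarith) c3 Y Φ hΦ hY (c4 Y hYA) X (by
    rw [← hx2]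
    exact hX4 (t + q) htq x2 (by linarith))
  rw [← hx2, hGs x2 (by linarith), hGs x1 (by linarith)] at s2
  -- step 3
  obtain ⟨x3, hx3⟩ : ∃ x3, x3 = x1 + q * mu := ⟨_, rfl⟩
  have hx32 : x3 + mu * t = x2 := by rw [hx2, hx3]; push_cast; ring
  obtain ⟨c5, c6⟩ := wide_cond hAbig (show (t : ℝ) ≤ A / 8 by linarith) hW0 hW32 (show A ≤ x3 by linarith)
  have s3 := H1 t htt1 x3 W (by linarith [hpow t (by linarith)]) (by linarith) c5 Y Φ hΦ hY (c6 Y hYA) X (by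
    rw [hx32]
    exact hX4 t (by linarith) x2 (by linarith))
  rw [hx32, hGs x2 (by linarith), hGs x3 (by linarith)] at s3
  -- step 4
  have s4 := Gs_lip_wide hΦ.nonneg hΦ.le_one hW1 (a := b) (b := x3) (by rw [abs_le]; constructor <;> linarith) (by linarith)
  have p1 : (n : ℝ) * (C2 * (t : ℝ) ^ (11 / 20 : ℝ)) ≤ 1000 * (C2 * P) := by
    have := hpow t (by linarith)
    gcongr
  have p2 : C1 * ((t + q : ℕ) : ℝ) ^ (11 / 20 : ℝ) ≤ C1 * P := mul_le_mul_of_nonneg_left (hpow (t + q) (by linarith)) hC1.le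
  have p3 : C1 * (t : ℝ) ^ (11 / 20 : ℝ) ≤ C1 * P := mul_le_mul_of_nonneg_left (hpow t (by linarith)) hC1.le
  have u1 := abs_sub_le (Gs Φ W b) (Gs Φ W x3) (Gs Φ W a)
  have u2 := abs_sub_le (Gs Φ W x3) (Gs Φ W x2) (Gs Φ W a)
  have u3 := abs_sub_le (Gs Φ W x2) (Gs Φ W x1) (Gs Φ W a)
  rw [abs_sub_comm (Gs Φ W x3) (Gs Φ W x2)] at u2
  have hC1P : 0 < C1 * P := by positivity
  calc |Gs Φ W b - Gs Φ W a| ≤ 10 + (C1 * P + (C1 * P + 1000 * (C2 * P))) := by linarith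
    _ ≤ 10 * P + (C1 * P + (2 * (C1 * P) + 1000 * (C2 * P))) := by linarith
    _ = _ := by rw [← hP]; ring

end Pool.Agent.Helper3.TD
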